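import Pool.Agent.Lib.IW.ASM2

/-! Block ASM: prescribing the local behaviour at infinity. -/

open Polynomial IntermediateField
open scoped Pointwise

namespace Pool.Agent.Lib.IW

namespace ASM

variable {p : ℕ} [Fact p.Prime] {k Ω : Type} [Field k] [Field Ω] [Algebra k Ω] [CharP Ω p]
  {E : Type} [Group E] {r : ℕ}

variable (Ω) in
/-- The embedding of vectors over the prime field. -/
def emb (p : ℕ) [Fact p.Prime] [CharP Ω p] (r : ℕ) : (Fin r → ZMod p) →+ (Fin r → Ω) where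
  toFun u := fun l => ZMod.castHom (dvd_refl p) Ω (u l)
  map_zero' := by
    funext l
    simp
  map_add' u v := by
    funext l
    simp only [Pi.add_apply, map_add]

lemma emb_apply (u : Fin r → ZMod p) (l : Fin r) :
    emb Ω p r u l = ZMod.castHom (dvd_refl p) Ω (u l) := rfl

lemma cast_nat (c : ZMod p) : ∃ n : ℕ, ZMod.castHom (dvd_refl p) Ω c = n :=
  ⟨c.val, by rw [← map_natCast (ZMod.castHom (dvd_refl p) Ω), ZMod.natCast_zmod_val]⟩

lemma emb_inj : Function.Injective (emb Ω p r) := fun _ _ h =>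
  funext fun l => (ZMod.castHom (dvd_refl p) Ω).injective (congrFun h l)

lemma ex_emb {w : Fin r → Ω} (h : frob p r w = w) : ∃ u, emb Ω p r u = w := by
  choose u hu using fun l => mem_cast (p := p) (congrFun h l)
  exact ⟨u, funext hu⟩

lemma frob_emb (u : Fin r → ZMod p) : frob p r (emb Ω p r u) = emb Ω p r u := by
  funext l
  rw [frob_apply, emb_apply, ← map_pow, ZMod.pow_card]

variable (Ω) in
/-- The matrices, over the big field. -/
def mat (a : E →* Matrix (Fin r) (Fin r) (ZMod p)) : E →* Matrix (Fin r) (Fin r) Ω :=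
  (ZMod.castHom (dvd_refl p) Ω).mapMatrix.toMonoidHom.comp a

lemma mat_apply (a : E →* Matrix (Fin r) (Fin r) (ZMod p)) (g : E) (i j : Fin r) :
    mat Ω a g i j = ZMod.castHom (dvd_refl p) Ω (a g i j) := rfl

lemma mat_pr (a : E →* Matrix (Fin r) (Fin r) (ZMod p)) : Pr (mat Ω a) := fun _ _ _ =>
  cast_nat _

lemma star_emb (a : E →* Matrix (Fin r) (Fin r) (ZMod p)) (g : E) (γ : Aut k Ω)
    (u : Fin r → ZMod p) : star (mat Ω a) g γ (emb Ω p r u) = emb Ω p r ((a g).mulVec u) := by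
  funext i
  rw [star_apply, emb_apply, Matrix.mulVec, dotProduct, map_sum]
  refine Finset.sum_congr rfl fun j _ => ?_
  obtain ⟨n, hn⟩ := cast_nat (Ω := Ω) (u j)
  rw [map_mul, mat_apply, emb_apply, hn, map_natCast]

lemma ex_eta [IsAlgClosed k] [CharP k p] [IsAlgClosed Ω] [Finite E] (hF : Found) {x : Ω}
    (hx : Co k x) {V : Subgroup E} {e : (Fin r → ZMod p) → E}
    {a : E →* Matrix (Fin r) (Fin r) (ZMod p)} (hl : IsLin V e a) {Δ : Subgroup (Aut k Ω)}
    (hΔ : Δ ≤ Gam k x) {ρ₀ ρi : Aut k Ω → E} (h0 : IsRep Δ ρ₀) (hi : IsRep Δ ρi)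
    (hV : ∀ γ ∈ Δ, ρi γ * (ρ₀ γ)⁻¹ ∈ V) : ∃ η : Fin r → Ω, (∀ l, η l ∈ SepF k x) ∧
      ∀ γ ∈ Δ, ∃ u, e u = ρi γ * (ρ₀ γ)⁻¹ ∧
        star (mat Ω a) (ρ₀ γ) γ η - η = emb Ω p r u := by
  classical
  have hp := hi.prod h0
  obtain ⟨t, ht1, ht2, ht3⟩ := hF.fld.tr p k Ω x hx Δ hΔ (E × E) _ hp
  have := Fintype.ofFinite hp.im
  have ht4 : ∑ g : hp.im, t g = 1 := by
    rw [← ht3, ← finsum_eq_sum_of_fintype]
    exact finsum_set_coe_eq_finsum_mem (hp.im : Set (E × E))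
  have hD : ∀ g : hp.im, ∃ u, e u = g.1.1 * (g.1.2)⁻¹ := fun g => by
    obtain ⟨γ, hγ, h⟩ := hp.mem_im.1 g.2
    rw [← h]
    exact (hl.range _).1 (hV γ hγ)
  choose D hD using hD
  have hDm : ∀ g h : hp.im, D (g * h) = D g + (a g.1.2).mulVec (D h) := fun g h => by
    apply hl.inj
    rw [hl.add, ← hl.conj, hD, hD, hD]
    simp only [Subgroup.coe_mul, Prod.fst_mul, Prod.snd_mul]
    group
  refine ⟨-∑ g : hp.im, t g • emb Ω p r (D g), fun l => ?_, fun γ hγ => ?_⟩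
  · rw [Pi.neg_apply, Finset.sum_apply]
    refine neg_mem (sum_mem fun g _ => mul_mem (ht1 g) ?_)
    obtain ⟨n, hn⟩ := cast_nat (Ω := Ω) (D g l)
    rw [emb_apply, hn]
    exact _root_.natCast_mem _ n
  · let g0 : hp.im := ⟨(ρi γ, ρ₀ γ), hp.mem_im.2 ⟨γ, hγ, rfl⟩⟩
    refine ⟨D g0, hD g0, ?_⟩
    have h1 : ∀ g : hp.im, star (mat Ω a) (ρ₀ γ) γ (t g • emb Ω p r (D g)) =
        t (g0 * g : hp.im) • emb Ω p r (D (g0 * g)) - t (g0 * g : hp.im) • emb Ω p r (D g0) :=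
      fun g => by
        rw [star_smul, ht2 γ hγ, star_emb, hDm, map_add, smul_add, add_sub_cancel_left]
        rfl
    rw [map_neg, map_sum]
    simp only [h1, Finset.sum_sub_distrib]
    have h2 := Equiv.sum_comp (Equiv.mulLeft g0) fun g : hp.im => t g • emb Ω p r (D g)
    have h3 := Equiv.sum_comp (Equiv.mulLeft g0) fun g : hp.im => t g • emb Ω p r (D g0)
    simp only [Equiv.coe_mulLeft] at h2 h3
    rw [h2, h3, ← Finset.sum_smul, ht4, one_smul]
    abel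

end ASM

open ASM in
theorem blockASM (hF : Found) (hL : StmtLin) : StmtASM := by
  intro p _ k Ω _ _ _ _ _ _ x hx E _ _ V _ hc hp ρ₀ h0 hU W hW hxW ρi hi hV
  classical
  have : CharP Ω p := charP_of_injective_algebraMap (algebraMap k Ω).injective p
  obtain ⟨r, e, a, hl⟩ := hL p E V hc hp
  have hA := mat_pr (Ω := Ω) a
  obtain ⟨η, hη1, hη2⟩ := ex_eta hF hx hl (Dec_le x W) (h0.mono (Dec_le x W)) hi hV
  have hν : frob p r η - η ∈
      FixIn (mat Ω a) ρ₀ (Dec k x W) (SepF k x).toSubalgebra.toSubmodule := by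
    refine ⟨fun γ hγ => ?_, fun l => (SepF k x).toSubalgebra.sub_mem
      ((SepF k x).toSubalgebra.pow_mem (hη1 l) p) (hη1 l)⟩
    obtain ⟨u, -, hu⟩ := hη2 γ hγ
    have h1 := frob_emb (Ω := Ω) u
    rw [← hu, map_sub] at h1
    rw [map_sub, star_frob hA]
    linear_combination h1
  obtain ⟨ξ, hξ1, hξ2⟩ := solve (p := p) hF hx hA h0 hW hxW hν
  obtain ⟨y, hy⟩ : ∃ y, y = η - ξ := ⟨_, rfl⟩
  have hμ : frob p r y - y ∈ FixIn (mat Ω a) ρ₀ (Gam k x) (IntA k x).toSubmodule := by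
    convert hξ2 using 1
    rw [hy, map_sub]
    abel
  have hc : ∀ γ : Aut k Ω, γ ∈ Gam k x →
      ∃ u, emb Ω p r u = star (mat Ω a) (ρ₀ γ) γ y - y := fun γ hγ => by
    refine ex_emb ?_
    have h1 := hμ.1 γ hγ
    rw [map_sub, star_frob hA] at h1
    rw [map_sub]
    linear_combination h1
  choose! c hc using hc
  have he0 : e 0 = 1 := by
    have h1 := hl.add 0 0
    rw [add_zero] at h1
    exact mul_left_cancel (h1.symm.trans (mul_one _).symm)
  refine ⟨fun γ => e (c γ) * ρ₀ γ, ⟨fun γ hγ δ hδ => ?_, ?_⟩, fun W' hW' hx' γ hγ => ?_,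
    fun γ _ => ?_, fun γ hγ => ?_⟩
  · have h1 : c (γ * δ) = c γ + (a (ρ₀ γ)).mulVec (c δ) := by
      apply emb_inj (Ω := Ω)
      rw [map_add, ← star_emb a _ γ, hc _ (mul_mem hγ hδ), hc γ hγ, hc δ hδ, h0.mul γ hγ δ hδ,
        ASM.star_mul hA, map_sub]
      abel
    rw [h1, hl.add, ← hl.conj, h0.mul γ hγ δ hδ]
    group
  · obtain ⟨S, hS⟩ := h0.cts
    refine ⟨S ∪ Finset.univ.image y, fun γ hγ δ hδ h => ?_⟩
    have h1 := hS γ hγ δ hδ fun s hs => h s (Finset.mem_union_left _ hs)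
    have h2 : c γ = c δ := by
      apply emb_inj (Ω := Ω)
      rw [hc γ hγ, hc δ hδ, h1]
      congr 1
      funext i
      rw [star_apply, star_apply]
      refine Finset.sum_congr rfl fun j _ => ?_
      rw [h _ (Finset.mem_union_right _ (Finset.mem_image_of_mem y (Finset.mem_univ j)))]
    beta_reduce
    rw [h1, h2]
  · have h1 := hU W' hW' hx' γ hγ
    have h2 : c γ = 0 := by
      apply emb_inj (Ω := Ω)
      rw [map_zero]
      funext l
      have h3 : y l ∈ W' := as_mem (p := p) (hμ.2 l W' hW' hx')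
      refine as_zero (p := p) (W := W') (congrFun (frob_emb (c γ)) l) ?_
      rw [hc γ (Dec_le _ _ hγ), h1, Pi.sub_apply, star_apply, map_one]
      simpa [Matrix.one_apply] using
        (hF.bas.move k Ω x hx W' hW' γ (mem_Dec.1 hγ).2).1 _ h3
    beta_reduce
    rw [h1, h2, he0, one_mul]
  · rw [mul_inv_cancel_right]
    exact (hl.range _).2 ⟨_, rfl⟩
  · obtain ⟨u, hu1, hu2⟩ := hη2 γ hγ
    have h1 : c γ = u := by
      apply emb_inj (Ω := Ω)
      rw [hc γ (Dec_le _ _ hγ), ← hu2, hy, map_sub, hξ1 γ hγ]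
      abel
    beta_reduce
    rw [h1, hu1, inv_mul_cancel_right]

end Pool.Agent.Lib.IW
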