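import Pool.Agent.Lib.IW.Util

/-! Auxiliary lemmas for block ASM: Lang's lemma and Artin-Schreier roots. -/

open Polynomial IntermediateField
open scoped Pointwise

namespace Pool.Agent.Lib.IW.ASM

section Lang

variable {p : ℕ} [Fact p.Prime] {k Q : Type} [Field k] [IsAlgClosed k] [CharP k p]
  [AddCommGroup Q] [Module k Q]

/-- The recursively defined coefficients. -/
noncomputable def cf (p : ℕ) (a : ℕ → k) : ℕ → k[X]
  | 0 => C (a 0) * X ^ p - 1
  | i + 1 => cf p a i ^ p + C (a (i + 1)) * X ^ p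

omit [IsAlgClosed k] [Fact p.Prime] in
lemma cf_deriv (a : ℕ → k) (i : ℕ) : derivative (cf p a i) = 0 := by
  cases i with
  | zero => simp [cf, derivative_X_pow]
  | succ i => simp [cf, derivative_pow]

omit [Fact p.Prime] in
lemma cf_root (a : ℕ → k) (i : ℕ) : ∃ L : k, (cf p a i).eval L = L := by
  have h : (X - cf p a i).degree ≠ 0 := fun h => by
    have h1 := congrArg derivative (eq_C_of_degree_eq_zero h)
    rw [derivative_sub, cf_deriv, derivative_X, derivative_C] at h1
    simp at h1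
  obtain ⟨L, hL⟩ := IsAlgClosed.exists_root _ h
  rw [IsRoot, eval_sub, eval_X, sub_eq_zero] at hL
  exact ⟨L, hL.symm⟩

omit [Fact p.Prime] in
lemma lang (F : Q →+ Q) (hF : ∀ (c : k) (q : Q), F (c • q) = c ^ p • F q) (S : Submodule k Q)
    [Module.Finite k S] (hS : ∀ q ∈ S, F q ∈ S) (ν : Q) (hν : ν ∈ S) :
    ∃ ξ ∈ S, F ξ - ξ = ν := by
  have hmem : ∀ i, F^[i] ν ∈ S := fun i => by
    induction i with
    | zero => exact hν
    | succ i ih => rw [Function.iterate_succ_apply']; exact hS _ ih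
  let q : ℕ → S := fun i => ⟨F^[i] ν, hmem i⟩
  let f : ℕ →o Submodule k S := ⟨fun d => Submodule.span k (Set.range fun i : Fin d => q i),
    fun d d' h => Submodule.span_mono (by
      rintro _ ⟨i, rfl⟩
      exact ⟨⟨i, lt_of_lt_of_le i.2 h⟩, rfl⟩)⟩
  obtain ⟨d, hd⟩ := monotone_stabilizes_iff_noetherian.2 inferInstance f
  have h1 : q d ∈ f d := by
    rw [hd (d + 1) (Nat.le_succ d)]
    exact Submodule.subset_span ⟨⟨d, Nat.lt_succ_self d⟩, rfl⟩
  obtain ⟨a', ha'⟩ := (Submodule.mem_span_range_iff_exists_fun k).1 h1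
  let a : ℕ → k := fun i => if h : i < d then a' ⟨i, h⟩ else 0
  have ha : ∑ i ∈ Finset.range d, a i • F^[i] ν = F^[d] ν := by
    have h2 := congrArg Subtype.val ha'
    simp only [AddSubmonoidClass.coe_finsetSum, SetLike.val_smul, q] at h2
    rw [← h2, ← Fin.sum_univ_eq_sum_range fun i => a i • F^[i] ν]
    refine Finset.sum_congr rfl fun i _ => ?_
    simp [a, i.2]
  cases d with
  | zero =>
    refine ⟨0, S.zero_mem, ?_⟩
    simpa using ha
  | succ d =>
    obtain ⟨L, hL⟩ := cf_root (p := p) a d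
    refine ⟨∑ i ∈ Finset.range (d + 1), (cf p a i).eval L • F^[i] ν,
      S.sum_mem fun i _ => S.smul_mem _ (hmem i), ?_⟩
    rw [map_sum]
    simp_rw [hF, ← Function.iterate_succ_apply' F]
    rw [Finset.sum_range_succ, hL, Nat.succ_eq_add_one, ← ha, Finset.smul_sum,
      Finset.sum_range_succ' (fun i => L ^ p • a i • F^[i] ν),
      Finset.sum_range_succ' (fun i => (cf p a i).eval L • F^[i] ν)]
    have h3 : ∑ i ∈ Finset.range d, (cf p a (i + 1)).eval L • F^[i + 1] ν =
        ∑ i ∈ Finset.range d, ((cf p a i).eval L) ^ p • F^[i.succ] ν +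
          ∑ i ∈ Finset.range d, L ^ p • a (i + 1) • F^[i + 1] ν := by
      rw [← Finset.sum_add_distrib]
      refine Finset.sum_congr rfl fun i _ => ?_
      simp only [cf, eval_add, eval_pow, eval_mul, eval_C, eval_X, add_smul, smul_smul,
        Nat.succ_eq_add_one, mul_comm]
    rw [h3]
    simp only [cf, eval_sub, eval_pow, eval_mul, eval_C, eval_X, eval_one, sub_smul, one_smul,
      smul_smul, mul_comm, Function.iterate_zero, id]
    abel

end Lang

section Val

variable {p : ℕ} [Fact p.Prime] {k Ω : Type} [Field k] [Field Ω] [Algebra k Ω]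

lemma val_const {W : ValuationSubring Ω} (hW : IsPl k W) {c : k}
    (h : W.valuation (algebraMap k Ω c) < 1) : c = 0 := by
  by_contra hc
  have h1 := (W.valuation_le_one_iff _).2 (hW.2 c⁻¹)
  have h2 : W.valuation (algebraMap k Ω c⁻¹) * W.valuation (algebraMap k Ω c) = 1 := by
    rw [← map_mul, ← map_mul, inv_mul_cancel₀ hc, map_one, map_one]
  have h3 := mul_lt_one_of_nonneg_of_lt_one_right h1 zero_le h
  exact h3.ne h2

lemma as_mem {W : ValuationSubring Ω} {z : Ω} (h : z ^ p - z ∈ W) : z ∈ W := by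
  by_contra hz
  have h1 : 1 < W.valuation z := by
    rw [← W.valuation_le_one_iff] at hz
    exact not_le.1 hz
  have h2 : W.valuation z < W.valuation (z ^ p) := by
    rw [map_pow]
    exact lt_self_pow₀ h1 (Fact.out : p.Prime).one_lt
  have h3 := (W.valuation_le_one_iff _).2 h
  rw [Valuation.map_sub_eq_of_lt_left _ h2] at h3
  exact absurd (h1.trans h2) (not_lt.2 h3)

lemma as_zero {W : ValuationSubring Ω} {w : Ω} (h : w ^ p = w) (hw : W.valuation w < 1) :
    w = 0 := by
  by_contra h0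
  have h1 : 0 < W.valuation w := by
    rw [zero_lt_iff]
    exact (Valuation.ne_zero_iff _).2 h0
  have h2 := pow_lt_self_of_lt_one₀ h1 hw (Fact.out : p.Prime).one_lt
  rw [← map_pow, h] at h2
  exact lt_irrefl _ h2

lemma as_root [IsAlgClosed Ω] (m : Ω) : ∃ z : Ω, z ^ p - z = m := by
  have hp := (Fact.out : p.Prime).one_lt
  have h : (X ^ p - (X + C m) : Polynomial Ω).degree ≠ 0 := by
    rw [degree_sub_eq_left_of_degree_lt, degree_X_pow]
    · exact_mod_cast (by omega : p ≠ 0)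
    · rw [degree_X_pow, degree_X_add_C]
      exact_mod_cast hp
  obtain ⟨z, hz⟩ := IsAlgClosed.exists_root _ h
  simp only [IsRoot, eval_sub, eval_pow, eval_X, eval_add, eval_C] at hz
  exact ⟨z, by linear_combination hz⟩

lemma as_small [IsAlgClosed k] [CharP k p] [IsAlgClosed Ω] (hB : StmtBas) {x : Ω} (hx : Co k x)
    {W : ValuationSubring Ω} (hW : IsPl k W) {m : Ω} (hm : W.valuation m < 1) :
    ∃ z : Ω, z ^ p - z = m ∧ W.valuation z < 1 := by
  have : CharP Ω p := charP_of_injective_algebraMap (algebraMap k Ω).injective p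
  obtain ⟨z, hz⟩ := as_root (p := p) m
  have h1 : z ∈ W := as_mem (p := p) (hz ▸ (W.valuation_le_one_iff _).1 hm.le)
  obtain ⟨c, hc⟩ := hB.resid k Ω x hx W hW z h1
  have h2 : algebraMap k Ω (c ^ p - c) =
      m - ((z - algebraMap k Ω c) ^ p - (z - algebraMap k Ω c)) := by
    rw [map_sub, map_pow, sub_pow_char, ← hz]
    ring
  have h3 : c ^ p - c = 0 := by
    refine val_const hW ?_
    rw [h2]
    refine Valuation.map_sub_lt _ hm (Valuation.map_sub_lt _ ?_ hc)
    rw [map_pow]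
    exact pow_lt_one₀ zero_le hc (Fact.out : p.Prime).ne_zero
  refine ⟨z - algebraMap k Ω c, ?_, hc⟩
  rw [h3, map_zero] at h2
  linear_combination h2

lemma ev_small [IsAlgClosed k] (hB : StmtBas) {x : Ω} (hx : Co k x)
    {W : ValuationSubring Ω} (hW : IsPl k W) {u : Ω} (hu0 : u ≠ 0) (hu : W.valuation u < 1)
    (y : Ω) : ∀ᶠ n : ℕ in Filter.atTop, W.valuation u ^ n * W.valuation y < 1 := by
  by_cases hy : y = 0
  · simp [hy]
  obtain ⟨e, he, i, hi⟩ := hB.rank k Ω x hx W hW u hu0 hu y hy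
  have h0 : 0 < W.valuation u := by
    rw [zero_lt_iff]
    exact (Valuation.ne_zero_iff _).2 hu0
  filter_upwards [Filter.eventually_gt_atTop i.natAbs] with n hn
  by_contra h
  have h1 := one_le_pow₀ (n := e) (not_lt.1 h)
  rw [mul_pow, hi, ← pow_mul, ← zpow_natCast, ← zpow_add₀ h0.ne'] at h1
  have h2 : (0 : ℤ) < ((n * e : ℕ) : ℤ) + i := by
    have h3 : n ≤ n * e := Nat.le_mul_of_pos_right n he
    omega
  exact absurd (zpow_lt_one₀ h0 hu h2) (not_lt.2 h1)

lemma sep_map {x : Ω} {γ : Aut k Ω} (hγ : γ ∈ Gam k x) {y : Ω} (hy : IsSeparable k⟮x⟯ y) :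
    IsSeparable k⟮x⟯ (γ y) := by
  rw [← fix_adjoin] at hγ
  exact (AlgEquiv.isSeparable_iff (IntermediateField.fixingSubgroupEquiv k⟮x⟯ ⟨γ, hγ⟩)).2 hy

lemma mem_cast [CharP Ω p] {z : Ω} (h : z ^ p = z) :
    ∃ c : ZMod p, ZMod.castHom (dvd_refl p) Ω c = z := by
  have h1 := (Subfield.mem_bot_iff_pow_eq_self Ω p).2 h
  exact (bot_le : (⊥ : Subfield Ω) ≤ (ZMod.castHom (dvd_refl p) Ω).fieldRange) h1

end Val

end Pool.Agent.Lib.IW.ASM
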