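import Pool.Agent.Lib.IW.ASM1

/-! The twisted action on vectors and the decomposition of local fixed vectors. -/

open Polynomial IntermediateField
open scoped Pointwise

namespace Pool.Agent.Lib.IW.ASM

variable {p : ℕ} [Fact p.Prime] {k Ω : Type} [Field k] [Field Ω] [Algebra k Ω]
  {E : Type} [Group E] {r : ℕ}

/-- The twisted action. -/
def star (A : E →* Matrix (Fin r) (Fin r) Ω) (g : E) (γ : Aut k Ω) :
    (Fin r → Ω) →+ (Fin r → Ω) where
  toFun m := (A g).mulVec fun l => γ (m l)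
  map_zero' := by
    simp only [Pi.zero_apply, map_zero]
    exact Matrix.mulVec_zero _
  map_add' m m' := by
    rw [← Matrix.mulVec_add]
    congr 1
    funext l
    simp

lemma star_apply (A : E →* Matrix (Fin r) (Fin r) Ω) (g : E) (γ : Aut k Ω) (m : Fin r → Ω)
    (i : Fin r) : star A g γ m i = ∑ j, A g i j * γ (m j) := rfl

lemma star_smul (A : E →* Matrix (Fin r) (Fin r) Ω) (g : E) (γ : Aut k Ω) (c : Ω)
    (m : Fin r → Ω) : star A g γ (c • m) = γ c • star A g γ m := by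
  funext i
  simp only [star_apply, Pi.smul_apply, smul_eq_mul, map_mul, Finset.mul_sum]
  exact Finset.sum_congr rfl fun j _ => by ring

lemma star_ksmul (A : E →* Matrix (Fin r) (Fin r) Ω) (g : E) (γ : Aut k Ω) (c : k)
    (m : Fin r → Ω) : star A g γ (c • m) = c • star A g γ m := by
  rw [← algebraMap_smul Ω c m, star_smul, γ.commutes, algebraMap_smul]

/-- The matrices have entries in the prime ring. -/
def Pr (A : E →* Matrix (Fin r) (Fin r) Ω) : Prop := ∀ g i j, ∃ n : ℕ, A g i j = n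

lemma star_mul {A : E →* Matrix (Fin r) (Fin r) Ω} (hA : Pr A) (g h : E) (γ δ : Aut k Ω)
    (m : Fin r → Ω) : star A (g * h) (γ * δ) m = star A g γ (star A h δ m) := by
  funext i
  simp only [star_apply, map_mul, Matrix.mul_apply, map_sum, Finset.sum_mul, Finset.mul_sum,
    AlgEquiv.mul_apply]
  rw [Finset.sum_comm]
  refine Finset.sum_congr rfl fun j _ => Finset.sum_congr rfl fun l _ => ?_
  obtain ⟨n, hn⟩ := hA h j l
  rw [hn, map_natCast, mul_assoc]

/-- The coordinatewise power map. -/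
def frob (p : ℕ) [Fact p.Prime] [CharP Ω p] (r : ℕ) : (Fin r → Ω) →+ (Fin r → Ω) where
  toFun m := fun l => m l ^ p
  map_zero' := by
    funext l
    simp [(Fact.out : p.Prime).ne_zero]
  map_add' m m' := by
    funext l
    simp [add_pow_char]

lemma frob_apply [CharP Ω p] (m : Fin r → Ω) (l : Fin r) : frob p r m l = m l ^ p := rfl

lemma frob_ksmul [CharP Ω p] (c : k) (m : Fin r → Ω) :
    frob p r (c • m) = c ^ p • frob p r m := by
  funext l
  simp [frob_apply, _root_.smul_pow]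

lemma star_frob [CharP Ω p] {A : E →* Matrix (Fin r) (Fin r) Ω} (hA : Pr A) (g : E)
    (γ : Aut k Ω) (m : Fin r → Ω) : star A g γ (frob p r m) = frob p r (star A g γ m) := by
  funext i
  simp only [star_apply, frob_apply, map_pow, sum_pow_char, mul_pow]
  refine Finset.sum_congr rfl fun j _ => ?_
  obtain ⟨n, hn⟩ := hA g i j
  rw [hn, ← frobenius_def p (n : Ω), map_natCast]

lemma star_small [IsAlgClosed k] (hB : StmtBas) {x : Ω} (hx : Co k x)
    {W : ValuationSubring Ω} (hW : IsPl k W) {A : E →* Matrix (Fin r) (Fin r) Ω} (hA : Pr A)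
    (g : E) {γ : Aut k Ω} (hγ : γ • W = W) {m : Fin r → Ω} (hm : ∀ l, W.valuation (m l) < 1)
    (i : Fin r) : W.valuation (star A g γ m i) < 1 := by
  rw [star_apply]
  refine Valuation.map_sum_lt _ one_ne_zero fun j _ => ?_
  obtain ⟨n, hn⟩ := hA g i j
  rw [hn, map_mul]
  exact mul_lt_one_of_nonneg_of_lt_one_right ((W.valuation_le_one_iff _).2 (natCast_mem W n))
    zero_le ((hB.move k Ω x hx W hW γ hγ).2 _ (hm j))

/-- Fixed vectors with coordinates in a `k`-submodule. -/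
def FixIn (A : E →* Matrix (Fin r) (Fin r) Ω) (ρ : Aut k Ω → E) (Δ : Subgroup (Aut k Ω))
    (T : Submodule k Ω) : Submodule k (Fin r → Ω) where
  carrier := {m | (∀ γ ∈ Δ, star A (ρ γ) γ m = m) ∧ ∀ l, m l ∈ T}
  zero_mem' := ⟨fun _ _ => map_zero _, fun _ => T.zero_mem⟩
  add_mem' := fun ha hb => ⟨fun γ hγ => by rw [map_add, ha.1 γ hγ, hb.1 γ hγ],
    fun l => T.add_mem (ha.2 l) (hb.2 l)⟩
  smul_mem' := fun c _ ha => ⟨fun γ hγ => by rw [star_ksmul, ha.1 γ hγ],
    fun l => T.smul_mem c (ha.2 l)⟩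

lemma mem_FixIn {A : E →* Matrix (Fin r) (Fin r) Ω} {ρ : Aut k Ω → E} {Δ : Subgroup (Aut k Ω)}
    {T : Submodule k Ω} {m : Fin r → Ω} :
    m ∈ FixIn A ρ Δ T ↔ (∀ γ ∈ Δ, star A (ρ γ) γ m = m) ∧ ∀ l, m l ∈ T := Iff.rfl

lemma frob_FixIn [CharP Ω p] {A : E →* Matrix (Fin r) (Fin r) Ω} (hA : Pr A) {ρ : Aut k Ω → E}
    {Δ : Subgroup (Aut k Ω)} {T : Submodule k Ω} (hT : ∀ y ∈ T, y ^ p ∈ T) {m : Fin r → Ω}
    (hm : m ∈ FixIn A ρ Δ T) : frob p r m ∈ FixIn A ρ Δ T :=
  ⟨fun γ hγ => by rw [star_frob hA, hm.1 γ hγ], fun l => hT _ (hm.2 l)⟩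

variable (k) in
/-- Elements integral on the affine line. -/
def IntA (x : Ω) : Subalgebra k Ω where
  carrier := {y | Intg k x y}
  mul_mem' := fun ha hb W hW hx => mul_mem (ha W hW hx) (hb W hW hx)
  add_mem' := fun ha hb W hW hx => add_mem (ha W hW hx) (hb W hW hx)
  algebraMap_mem' := fun c _ hW _ => hW.2 c

lemma mem_IntA {x y : Ω} : y ∈ IntA k x ↔ Intg k x y := Iff.rfl

/-- The maximal ideal of a place, as a `k`-submodule. -/
def Small {W : ValuationSubring Ω} (hW : IsPl k W) : Submodule k Ω where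
  carrier := {y | W.valuation y < 1}
  zero_mem' := by simp
  add_mem' := fun ha hb => W.valuation.map_add_lt ha hb
  smul_mem' := fun c y ha => by
    change W.valuation (c • y) < 1
    rw [Algebra.smul_def, map_mul]
    exact mul_lt_one_of_nonneg_of_lt_one_right ((W.valuation_le_one_iff _).2 (hW.2 c)) zero_le ha

lemma mem_Small {W : ValuationSubring Ω} {hW : IsPl k W} {y : Ω} :
    y ∈ Small hW ↔ W.valuation y < 1 := Iff.rfl

variable (k) in
/-- Separable elements. -/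
noncomputable def SepF (x : Ω) : IntermediateField k Ω :=
  (separableClosure k⟮x⟯ Ω).restrictScalars k

lemma mem_SepF {x y : Ω} : y ∈ SepF k x ↔ IsSeparable k⟮x⟯ y := Iff.rfl

/-- Global fixed integral separable vectors span. -/
lemma span_vec [IsAlgClosed k] [CharP k p] [IsAlgClosed Ω] [Finite E] (hS : StmtStr) {x : Ω}
    (hx : Co k x) {A : E →* Matrix (Fin r) (Fin r) Ω} (hA : Pr A) {ρ : Aut k Ω → E}
    (hρ : IsRep (Gam k x) ρ) : ∃ s : Set (Fin r → Ω), s.Finite ∧
      (∀ b ∈ s, b ∈ FixIn A ρ (Gam k x) (IntA k x).toSubmodule ∧ ∀ l, b l ∈ SepF k x) ∧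
      ∀ m : Fin r → Ω, (∀ l, m l ∈ SepF k x) → m ∈ Submodule.span (SepF k x) s := by
  classical
  have := Fintype.ofFinite E
  obtain ⟨y, hinj, hy, hγy⟩ := hS p k Ω x hx (Gam k x) le_rfl E ρ hρ
  let y' : E → SepF k x := fun h => ⟨y h, (hy h).1⟩
  have hinj' : Function.Injective y' := fun a b h => hinj (congrArg Subtype.val h)
  let P : (SepF k x)[X] := Lagrange.basis Finset.univ y' 1
  have hP : ∀ h, aeval (y h) P = if h = 1 then 1 else 0 := fun h => by
    have h1 : aeval (y h) P = algebraMap (SepF k x) Ω (P.eval (y' h)) := by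
      rw [← aeval_algebraMap_apply_eq_algebraMap_eval]
      rfl
    rw [h1]
    split_ifs with h2
    · rw [h2, Lagrange.eval_basis_self hinj'.injOn (Finset.mem_univ _), map_one]
    · rw [Lagrange.eval_basis_of_ne (Ne.symm h2) (Finset.mem_univ _), map_zero]
  let e : Fin r × ℕ → Fin r → Ω := fun vi l => ∑ h, y h ^ vi.2 * A h l vi.1
  refine ⟨e '' (Set.univ ×ˢ (Finset.range (P.natDegree + 1) : Set ℕ)),
    (Set.finite_univ.prod (Finset.finite_toSet _)).image _, ?_, fun m hm => ?_⟩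
  · rintro _ ⟨⟨v, i⟩, -, rfl⟩
    refine ⟨⟨fun γ hγ => ?_, fun l => ?_⟩, fun l => ?_⟩
    · funext l
      simp only [star_apply, e, map_sum, map_mul, map_pow, hγy γ hγ, Finset.mul_sum]
      rw [Finset.sum_comm, ← Equiv.sum_comp (Equiv.mulLeft (ρ γ)) fun h => y h ^ i * A h l v]
      refine Finset.sum_congr rfl fun h _ => ?_
      rw [Equiv.coe_mulLeft, map_mul, Matrix.mul_apply, Finset.mul_sum]
      refine Finset.sum_congr rfl fun j _ => ?_
      obtain ⟨n, hn⟩ := hA h j v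
      rw [hn, map_natCast]
      ring
    · refine (IntA k x).sum_mem fun h _ => mul_mem (pow_mem (hy h).2 _) ?_
      obtain ⟨n, hn⟩ := hA h l v
      rw [hn]
      exact _root_.natCast_mem _ n
    · refine sum_mem fun h _ => mul_mem (pow_mem (hy h).1 _) ?_
      obtain ⟨n, hn⟩ := hA h l v
      rw [hn]
      exact _root_.natCast_mem _ n
  · have h1 : m = ∑ v, (⟨m v, hm v⟩ : SepF k x) •
        ∑ i ∈ Finset.range (P.natDegree + 1), P.coeff i • e (v, i) := by
      funext l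
      have h2 : ∀ v, (∑ i ∈ Finset.range (P.natDegree + 1), P.coeff i • e (v, i)) l =
          (1 : Matrix (Fin r) (Fin r) Ω) l v := fun v => by
        simp only [Finset.sum_apply, Pi.smul_apply, e, Finset.smul_sum]
        rw [Finset.sum_comm]
        have h3 : ∀ h, ∑ i ∈ Finset.range (P.natDegree + 1), P.coeff i • (y h ^ i * A h l v) =
            aeval (y h) P * A h l v := fun h => by
          rw [aeval_eq_sum_range, Finset.sum_mul]
          exact Finset.sum_congr rfl fun i _ => (smul_mul_assoc _ _ _).symm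
        simp only [h3, hP, ite_mul, one_mul, zero_mul, Finset.sum_ite_eq', Finset.mem_univ,
          if_true, map_one]
      simp only [Finset.sum_apply (g := fun v => (⟨m v, hm v⟩ : SepF k x) •
        ∑ i ∈ Finset.range (P.natDegree + 1), P.coeff i • e (v, i)), Pi.smul_apply, h2]
      simp [Matrix.one_apply, IntermediateField.smul_def]
    rw [h1]
    refine Submodule.sum_mem _ fun v _ => Submodule.smul_mem _ _ (Submodule.sum_mem _ fun i hi =>
      Submodule.smul_mem _ _ (Submodule.subset_span ⟨(v, i), ⟨trivial, hi⟩, rfl⟩))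

/-- Local fixed separable vectors are global modulo small ones and a finite-dimensional space. -/
lemma decomp [IsAlgClosed k] [CharP k p] [IsAlgClosed Ω] [Finite E] (hF : Found) {x : Ω}
    (hx : Co k x) {A : E →* Matrix (Fin r) (Fin r) Ω} (hA : Pr A) {ρ : Aut k Ω → E}
    (hρ : IsRep (Gam k x) ρ) {W : ValuationSubring Ω} (hW : IsPl k W) (hxW : x ∉ W) :
    ∃ T : Set (Fin r → Ω), T.Finite ∧
      FixIn A ρ (Dec k x W) (SepF k x).toSubalgebra.toSubmodule ≤
        (FixIn A ρ (Gam k x) (IntA k x).toSubmodule ⊔ FixIn A ρ (Dec k x W) (Small hW)) ⊔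
          Submodule.span k T := by
  classical
  obtain ⟨s, hs, hs1, hs2⟩ := span_vec (p := p) hF.str hx hA hρ
  obtain ⟨b, hbs, hb, hli⟩ := exists_linearIndependent (SepF k x) s
  have hbf : b.Finite := hs.subset hbs
  have : Fintype b := hbf.fintype
  have hU := hF.bas.unifInf k Ω x hx.tr W hW hxW
  obtain ⟨n, hn⟩ : ∃ n : ℕ, ∀ (j : b) (l : Fin r),
      W.valuation x⁻¹ ^ n * W.valuation (j.1 l) < 1 := by
    have h1 : ∀ᶠ n : ℕ in Filter.atTop, ∀ (j : b) (l : Fin r),
        W.valuation x⁻¹ ^ n * W.valuation (j.1 l) < 1 :=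
      Filter.eventually_all.2 fun j => Filter.eventually_all.2 fun l =>
        ev_small hF.bas hx hW hU.2.1 hU.2.2.1 _
    exact h1.exists
  let Kh : IntermediateField k Ω := SepF k x ⊓ IntermediateField.fixedField (Dec k x W)
  have hKh : ∀ y, y ∈ Kh ↔ IsSeparable k⟮x⟯ y ∧ ∀ γ ∈ Dec k x W, γ y = y := fun y => by
    simp only [Kh, IntermediateField.mem_inf, mem_SepF, IntermediateField.mem_fixedField_iff]
  have hπ : x⁻¹ ∈ Kh := (hKh _).2 ⟨isSeparable_algebraMap (F := k⟮x⟯) ⟨_, hU.1⟩, fun γ hγ => by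
    rw [map_inv₀, (mem_Dec.1 hγ).1]⟩
  have hval : ∀ y ∈ Kh, y ≠ 0 → ∃ i : ℤ, W.valuation y = W.valuation x⁻¹ ^ i := fun y hy h0 =>
    hF.hens.hens p k Ω k⟮x⟯ hx.ff W hW _ hU y h0 ((hKh y).1 hy).1 (by
      rw [DecF_adjoin]
      exact ((hKh y).1 hy).2)
  refine ⟨(fun ij : ℕ × (Fin r → Ω) => x⁻¹ ^ ij.1 • ij.2) '' ((Finset.range n : Set ℕ) ×ˢ b),
    ((Finset.finite_toSet _).prod hbf).image _, fun m hm => ?_⟩
  have h1 : m ∈ Submodule.span (SepF k x) (Set.range ((↑) : b → Fin r → Ω)) := by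
    rw [Subtype.range_coe, hb]
    exact hs2 m hm.2
  obtain ⟨c, hc⟩ := (Submodule.mem_span_range_iff_exists_fun _).1 h1
  have hfix : ∀ j : b, ∀ γ ∈ Dec k x W, star A (ρ γ) γ j.1 = j.1 := fun j γ hγ =>
    (hs1 _ (hbs j.2)).1.1 γ (Dec_le _ _ hγ)
  have hcK : ∀ j, (c j : Ω) ∈ Kh := fun j => (hKh _).2 ⟨(c j).2, fun γ hγ => by
    let c' : b → SepF k x := fun j => ⟨γ (c j), sep_map (Dec_le _ _ hγ) (c j).2⟩
    have h2 : ∑ j, c' j • (j : Fin r → Ω) = ∑ j, c j • (j : Fin r → Ω) := by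
      rw [hc, ← hm.1 γ hγ, ← hc, map_sum]
      refine Finset.sum_congr rfl fun j _ => ?_
      rw [IntermediateField.smul_def, IntermediateField.smul_def, star_smul, hfix j γ hγ]
    exact congrArg Subtype.val
      (congrFun (funext (Fintype.linearIndependent_iffₛ.1 hli c' c h2)) j)⟩
  rw [← hc]
  refine Submodule.sum_mem _ fun j _ => ?_
  obtain ⟨t, a, ht, hv⟩ := hF.dens.expand k Ω x hx W hW x⁻¹ hU.2.1 hU.2.2.1 Kh hπ hval _ (hcK j) n
  have hsum : ∑ i ∈ t, algebraMap k Ω (a i) * x⁻¹ ^ i ∈ Kh :=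
    sum_mem fun i _ => mul_mem (Kh.algebraMap_mem _) (zpow_mem hπ i)
  have h3 : c j • (j : Fin r → Ω) =
      ((c j : Ω) - ∑ i ∈ t, algebraMap k Ω (a i) * x⁻¹ ^ i) • (j : Fin r → Ω) +
        ∑ i ∈ t, a i • (x⁻¹ ^ i • (j : Fin r → Ω)) := by
    rw [IntermediateField.smul_def, sub_smul, Finset.sum_smul]
    simp only [mul_smul, algebraMap_smul, sub_add_cancel]
  rw [h3]
  refine Submodule.add_mem _ (Submodule.mem_sup_left (Submodule.mem_sup_right
    ⟨fun γ hγ => ?_, fun l => ?_⟩)) (Submodule.sum_mem _ fun i hi => Submodule.smul_mem _ _ ?_)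
  · rw [star_smul, hfix j γ hγ, ((hKh _).1 (sub_mem (hcK j) hsum)).2 γ hγ]
  · rw [mem_Small, Pi.smul_apply, smul_eq_mul, map_mul]
    refine lt_of_le_of_lt (mul_le_mul_left ?_ _) (hn j l)
    rwa [zpow_natCast] at hv
  · rcases le_or_gt 0 i with h0 | h0
    · obtain ⟨i, rfl⟩ := Int.eq_ofNat_of_zero_le h0
      refine Submodule.mem_sup_right (Submodule.subset_span ⟨(i, j.1), ⟨?_, j.2⟩, ?_⟩)
      · simpa using ht _ hi
      · simp
    · obtain ⟨i, rfl⟩ : ∃ i' : ℕ, i = -(i' : ℤ) := ⟨i.natAbs, by omega⟩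
      rw [zpow_neg, inv_zpow, inv_inv, zpow_natCast]
      refine Submodule.mem_sup_left (Submodule.mem_sup_left ⟨fun γ hγ => ?_, fun l => ?_⟩)
      · rw [star_smul, map_pow, mem_Gam.1 hγ, (hs1 _ (hbs j.2)).1.1 γ hγ]
      · exact (IntA k x).mul_mem ((IntA k x).pow_mem (fun _ _ h => h) i)
          ((hs1 _ (hbs j.2)).1.2 l)

/-- Every local fixed separable vector is global up to an Artin-Schreier coboundary. -/
lemma solve [IsAlgClosed k] [CharP k p] [CharP Ω p] [IsAlgClosed Ω] [Finite E] (hF : Found)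
    {x : Ω} (hx : Co k x) {A : E →* Matrix (Fin r) (Fin r) Ω} (hA : Pr A) {ρ : Aut k Ω → E}
    (hρ : IsRep (Gam k x) ρ) {W : ValuationSubring Ω} (hW : IsPl k W) (hxW : x ∉ W)
    {ν : Fin r → Ω} (hν : ν ∈ FixIn A ρ (Dec k x W) (SepF k x).toSubalgebra.toSubmodule) :
    ∃ ξ : Fin r → Ω, (∀ γ ∈ Dec k x W, star A (ρ γ) γ ξ = ξ) ∧
      ν - (frob p r ξ - ξ) ∈ FixIn A ρ (Gam k x) (IntA k x).toSubmodule := by
  obtain ⟨T, hT, hle⟩ := decomp (p := p) hF hx hA hρ hW hxW
  set M := FixIn A ρ (Gam k x) (IntA k x).toSubmodule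
  set Mp := FixIn A ρ (Dec k x W) (Small hW)
  set L := FixIn A ρ (Dec k x W) (SepF k x).toSubalgebra.toSubmodule
  set N := M ⊔ Mp
  have hN : ∀ m ∈ N, frob p r m ∈ N := fun m hm => by
    obtain ⟨a, ha, b, hb, rfl⟩ := Submodule.mem_sup.1 hm
    rw [map_add]
    refine Submodule.add_mem_sup (frob_FixIn hA (fun y hy => (IntA k x).pow_mem hy p) ha)
      (frob_FixIn hA (fun y hy => ?_) hb)
    rw [mem_Small, map_pow]
    exact pow_lt_one₀ zero_le hy (Fact.out : p.Prime).ne_zero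
  let F : ((Fin r → Ω) ⧸ N) →+ ((Fin r → Ω) ⧸ N) :=
    QuotientAddGroup.map N.toAddSubgroup N.toAddSubgroup (frob p r) hN
  have hFm : ∀ m, F (N.mkQ m) = N.mkQ (frob p r m) := fun m => rfl
  have hfin : Module.Finite k (L.map N.mkQ) := by
    have h1 : Module.Finite k (Submodule.span k (N.mkQ '' T)) :=
      Module.Finite.span_of_finite k (hT.image _)
    refine Submodule.finiteDimensional_of_le (S₂ := Submodule.span k (N.mkQ '' T)) ?_
    refine (Submodule.map_mono hle).trans ?_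
    rw [Submodule.map_sup, Submodule.mkQ_map_self, bot_sup_eq, Submodule.map_span]
  obtain ⟨_, ⟨ξ, hξ, rfl⟩, h2⟩ := lang (p := p) F (fun c q => by
      obtain ⟨m, rfl⟩ := N.mkQ_surjective q
      rw [← map_smul, hFm, hFm, frob_ksmul, map_smul]) (L.map N.mkQ) (by
      rintro _ ⟨m, hm, rfl⟩
      exact ⟨_, frob_FixIn hA (fun y hy => (SepF k x).toSubalgebra.pow_mem hy p) hm, rfl⟩) _ ⟨ν, hν, rfl⟩
  rw [hFm, ← map_sub, eq_comm, Submodule.mkQ_apply, Submodule.mkQ_apply,
    Submodule.Quotient.eq] at h2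
  obtain ⟨a, ha, b, hb, hab⟩ := Submodule.mem_sup.1 h2
  choose z hz hz' using fun l => as_small (p := p) hF.bas hx hW (hb.2 l)
  have hzb : frob p r z - z = b := funext hz
  refine ⟨ξ + z, fun γ hγ => ?_, ?_⟩
  · rw [map_add, hξ.1 γ hγ]
    congr 1
    have h3 : frob p r (star A (ρ γ) γ z - z) = star A (ρ γ) γ z - z := by
      have h4 := hb.1 γ hγ
      rw [← hzb, map_sub, star_frob hA] at h4
      rw [map_sub]
      linear_combination h4
    funext l
    exact sub_eq_zero.1 (as_zero (p := p) (congrFun h3 l) (W.valuation.map_sub_lt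
      (star_small hF.bas hx hW hA _ (mem_Dec.1 hγ).2 hz' l) (hz' l)))
  · have h5 : ν - (frob p r (ξ + z) - (ξ + z)) = a := by
      rw [map_add]
      linear_combination -hab - hzb
    rwa [h5]

end Pool.Agent.Lib.IW.ASM
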