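import Pool.Agent.Lib.IW.ASM

/-! Block ASW: weak solutions for elementary abelian `p`-kernels. -/

open Polynomial IntermediateField
open scoped Pointwise

namespace Pool.Agent.Lib.IW

namespace ASW

variable {p : ℕ} [Fact p.Prime] {E E' : Type} [Group E] [Group E'] {r : ℕ}

lemma ex_fac {π : E →* E'} (hπ : Function.Surjective π) {e : (Fin r → ZMod p) → E}
    {a : E →* Matrix (Fin r) (Fin r) (ZMod p)} (hl : IsLin π.ker e a) :
    ∃ (s : E' → E) (a' : E' →* Matrix (Fin r) (Fin r) (ZMod p)) (f : E' → E' → Fin r → ZMod p),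
      (∀ g, π (s g) = g) ∧ s 1 = 1 ∧ (∀ g, a (s g) = a' g) ∧
      (∀ g h, s g * s h = e (f g h) * s (g * h)) ∧ (∀ g, f 1 g = 0) ∧
      ∀ g h l, (a' g).mulVec (f h l) = f g h + f (g * h) l - f g (h * l) := by
  classical
  have he0 : e 0 = 1 := by
    have h1 := hl.add 0 0
    rw [add_zero] at h1
    exact mul_left_cancel (h1.symm.trans (mul_one _).symm)
  obtain ⟨s, hs, hs1⟩ : ∃ s : E' → E, (∀ g, π (s g) = g) ∧ s 1 = 1 := by
    refine ⟨fun g => if g = 1 then 1 else Function.surjInv hπ g, fun g => ?_, by simp⟩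
    beta_reduce
    split_ifs with h
    · rw [h, map_one]
    · exact Function.surjInv_eq hπ g
  have hk : ∀ g h, s g * s h * (s (g * h))⁻¹ ∈ π.ker := fun g h => by
    rw [MonoidHom.mem_ker, map_mul, map_mul, map_inv, hs, hs, hs, mul_inv_cancel]
  choose f hf using fun g h => (hl.range _).1 (hk g h)
  have hf' : ∀ g h, s g * s h = e (f g h) * s (g * h) := fun g h => by
    rw [hf, inv_mul_cancel_right]
  refine ⟨s, ⟨⟨fun g => a (s g), by rw [hs1, map_one]⟩, fun g h => ?_⟩, f, hs, hs1,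
    fun _ => rfl, hf', fun g => ?_, fun g h l => ?_⟩
  · rw [← map_mul, hf', map_mul, hf, hl.triv _ (hk g h), one_mul]
  · apply hl.inj
    rw [hf, hs1, one_mul, one_mul, mul_inv_cancel, he0]
  · rw [eq_sub_iff_add_eq]
    apply hl.inj
    change e ((a (s g)).mulVec (f h l) + _) = _
    rw [hl.add, hl.add, ← hl.conj, hf, hf, hf, hf, mul_assoc g h l]
    group

end ASW

open ASM in
theorem blockASW (hF : Found) (hL : StmtLin) : StmtASW := by
  intro p _ k Ω _ _ _ _ _ _ x hx Δ _ E E' _ _ _ π hπ hc hp ρ' h t ht1 ht2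
  classical
  have : CharP Ω p := charP_of_injective_algebraMap (algebraMap k Ω).injective p
  have : Finite E' := Finite.of_surjective π hπ
  obtain ⟨r, e, a, hl⟩ := hL p E π.ker hc hp
  obtain ⟨s, a', f, hs, hs1, hsa, hf, hf1, hff⟩ := ASW.ex_fac hπ hl
  have he0 : e 0 = 1 := by
    have h1 := hl.add 0 0
    rw [add_zero] at h1
    exact mul_left_cancel (h1.symm.trans (mul_one _).symm)
  have hA := mat_pr (Ω := Ω) a'
  have := Fintype.ofFinite h.im
  have ht3 : ∑ g : h.im, t g = 1 := by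
    rw [← ht2, ← finsum_eq_sum_of_fintype]
    exact finsum_set_coe_eq_finsum_mem (h.im : Set E')
  have hre : ∀ (g : h.im) (φ : E' → Fin r → Ω), ∑ l : h.im, φ ((g : E') * l) = ∑ l : h.im, φ l :=
    fun g φ => Equiv.sum_comp (Equiv.mulLeft g) fun l : h.im => φ l
  have hone : ∀ (g : h.im) (v : Fin r → Ω), ∑ l : h.im, t ((g : E') * l) • v = v := fun g v => by
    rw [hre g fun l => t l • v, ← Finset.sum_smul, ht3, one_smul]
  obtain ⟨b, hb⟩ : ∃ b : E' → Fin r → Ω,
      ∀ g, b g = -∑ l : h.im, t (g * l) • emb Ω p r (f g l) := ⟨_, fun _ => rfl⟩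
  have hbb : ∀ γ ∈ Δ, ∀ g : h.im, star (mat Ω a') (ρ' γ) γ (b g) =
      b (ρ' γ * g) - b (ρ' γ) - emb Ω p r (f (ρ' γ) g) := fun γ hγ g => by
    have h1 := hone (⟨ρ' γ, h.mem_im.2 ⟨γ, hγ, rfl⟩⟩ * g) (emb Ω p r (f (ρ' γ) g))
    have h2 := hre g fun l => t (ρ' γ * l) • emb Ω p r (f (ρ' γ) l)
    simp only [Subgroup.coe_mul, mul_assoc] at h1 h2
    simp only [hb, map_neg, map_sum, ASM.star_smul, ht1 γ hγ, star_emb, hff, map_sub, map_add,
      smul_sub, smul_add, Finset.sum_sub_distrib, Finset.sum_add_distrib, mul_assoc, h1, h2]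
    abel
  obtain ⟨m, hm⟩ : ∃ m : Fin r → Ω, m = ∑ l : h.im, t l • (frob p r (b l) - b l) := ⟨_, rfl⟩
  have hmm : ∀ γ ∈ Δ, star (mat Ω a') (ρ' γ) γ m = m - (frob p r (b (ρ' γ)) - b (ρ' γ)) :=
    fun γ hγ => by
      have h1 := hone ⟨ρ' γ, h.mem_im.2 ⟨γ, hγ, rfl⟩⟩ (frob p r (b (ρ' γ)) - b (ρ' γ))
      have h2 := hre ⟨ρ' γ, h.mem_im.2 ⟨γ, hγ, rfl⟩⟩ fun l => t l • (frob p r (b l) - b l)
      beta_reduce at h2
      rw [← h1, hm]
      conv_rhs => rw [← h2]
      rw [map_sum, ← Finset.sum_sub_distrib]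
      refine Finset.sum_congr rfl fun l _ => ?_
      rw [ASM.star_smul, ht1 γ hγ, map_sub, star_frob hA, hbb γ hγ, ← smul_sub, map_sub, map_sub,
        frob_emb]
      congr 1
      abel
  choose y hy using fun l => as_root (p := p) (m l)
  have hy' : frob p r y - y = m := funext hy
  have hc : ∀ γ : Aut k Ω, γ ∈ Δ →
      ∃ u, emb Ω p r u = b (ρ' γ) + star (mat Ω a') (ρ' γ) γ y - y := fun γ hγ => by
    refine ex_emb ?_
    have h1 := hmm γ hγ
    rw [← hy', map_sub, star_frob hA] at h1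
    rw [map_sub, map_add]
    linear_combination h1
  choose! c hc using hc
  refine ⟨fun γ => e (c γ) * s (ρ' γ), ⟨fun γ hγ δ hδ => ?_, ?_⟩, fun γ _ => ?_,
    fun W hW htW γ hγ hγW h1 => ?_⟩
  · have h1 : c (γ * δ) = c γ + (a' (ρ' γ)).mulVec (c δ) + f (ρ' γ) (ρ' δ) := by
      apply emb_inj (Ω := Ω)
      rw [map_add, map_add, ← star_emb a' _ γ, hc _ (mul_mem hγ hδ), hc γ hγ, hc δ hδ,
        h.mul γ hγ δ hδ, ASM.star_mul hA, map_sub, map_add,
        hbb γ hγ ⟨ρ' δ, h.mem_im.2 ⟨δ, hδ, rfl⟩⟩]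
      abel
    rw [h1, hl.add, hl.add, ← hsa, ← hl.conj, h.mul γ hγ δ hδ, mul_assoc, ← hf]
    group
  · obtain ⟨S, hS⟩ := h.cts
    refine ⟨S ∪ Finset.univ.image y, fun γ hγ δ hδ h' => ?_⟩
    have h1 := hS γ hγ δ hδ fun s hs => h' s (Finset.mem_union_left _ hs)
    have h2 : c γ = c δ := by
      apply emb_inj (Ω := Ω)
      rw [hc γ hγ, hc δ hδ, h1]
      congr 2
      funext i
      rw [star_apply, star_apply]
      refine Finset.sum_congr rfl fun j _ => ?_
      rw [h' _ (Finset.mem_union_right _ (Finset.mem_image_of_mem y (Finset.mem_univ j)))]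
    beta_reduce
    rw [h1, h2]
  · rw [map_mul, hs, (MonoidHom.mem_ker.1 ((hl.range _).2 ⟨_, rfl⟩)), one_mul]
  · have hbW : ∀ g l, b g l ∈ W := fun g l => by
      rw [hb, Pi.neg_apply, Finset.sum_apply]
      refine neg_mem (sum_mem fun g' _ => mul_mem (htW _) ?_)
      obtain ⟨n, hn⟩ := cast_nat (Ω := Ω) (f g g' l)
      rw [emb_apply, hn]
      exact _root_.natCast_mem _ n
    have h2 : c γ = 0 := by
      apply emb_inj (Ω := Ω)
      rw [map_zero]
      funext l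
      have h3 : y l ∈ W := by
        refine as_mem (p := p) ?_
        rw [hy, hm, Finset.sum_apply]
        exact sum_mem fun g _ => mul_mem (htW _) (sub_mem (pow_mem (hbW _ l) p) (hbW _ l))
      refine as_zero (p := p) (W := W) (congrFun (frob_emb (c γ)) l) ?_
      rw [hc γ hγ, h1, hb, Pi.sub_apply, Pi.add_apply, star_apply, map_one]
      simpa [Matrix.one_apply, hf1] using (hF.bas.move k Ω x hx W hW γ hγW).1 _ h3
    beta_reduce
    rw [h1, h2, he0, one_mul, hs1]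

end Pool.Agent.Lib.IW
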