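import Pool.Agent.Lib.IW.Util

/-! Additive decomposition with control of norms. -/

open Polynomial IntermediateField Filter Topology

namespace Pool.Agent.Lib.IW

namespace Add

variable {𝕜 Q : Type} [NormedField 𝕜] [IsAlgClosed 𝕜] [NormedField Q] [NormedAlgebra 𝕜 Q] {σ : Q}

lemma norm_q (h : Gauss 𝕜 σ) {q : 𝕜[X]} (hq : q.Monic) (hr : ∀ a, q.IsRoot a → ‖a‖ ≤ 1) :
    ‖aeval σ q‖ = 1 := by
  rw [(IsAlgClosed.splits q).eq_prod_roots_of_monic hq, map_multiset_prod, Multiset.map_map]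
  refine Multiset.prod_induction (fun y : Q => ‖y‖ = 1) _
    (fun a b ha hb => by rw [norm_mul, ha, hb, mul_one]) norm_one fun y hy => ?_
  obtain ⟨a, ha, rfl⟩ := Multiset.mem_map.1 hy
  simpa [max_eq_left (hr a (isRoot_of_mem_roots ha))] using h.gauss a

variable (𝕜 σ) in
/-- Rational functions with poles in the closed disc. -/
def S : Subalgebra 𝕜 Q where
  carrier := {y | ∃ P q : 𝕜[X], q.Monic ∧ (∀ a, q.IsRoot a → ‖a‖ ≤ 1) ∧ y * aeval σ q = aeval σ P}
  mul_mem' := by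
    rintro a b ⟨P, q, h1, h2, h3⟩ ⟨P', q', h1', h2', h3'⟩
    exact ⟨P * P', q * q', h1.mul h1', fun c hc => (root_mul.1 hc).elim (h2 c) (h2' c),
      by rw [map_mul, map_mul, ← h3, ← h3']; ring⟩
  add_mem' := by
    rintro a b ⟨P, q, h1, h2, h3⟩ ⟨P', q', h1', h2', h3'⟩
    exact ⟨P * q' + P' * q, q * q', h1.mul h1', fun c hc => (root_mul.1 hc).elim (h2 c) (h2' c),
      by rw [map_add, map_mul, map_mul, map_mul, ← h3, ← h3']; ring⟩
  algebraMap_mem' c := ⟨C c, 1, monic_one, fun a ha => by simp at ha, by simp⟩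

lemma dense [CompleteSpace Q] (h : Gauss 𝕜 σ) (y : Q) : y ∈ closure (S 𝕜 σ : Set Q) := by
  have hσ : ‖σ‖ = 1 := by simpa using h.gauss 0
  have h0 : ∀ P : 𝕜[X], aeval σ P ∈ S 𝕜 σ := fun P =>
    ⟨P, 1, monic_one, fun a ha => by simp at ha, by simp⟩
  have h1 : ∀ a : 𝕜, (σ - algebraMap 𝕜 Q a)⁻¹ ∈ (S 𝕜 σ).topologicalClosure := fun a => by
    have h2 : σ - algebraMap 𝕜 Q a ≠ 0 := norm_pos_iff.1 (by
      rw [h.gauss]; exact one_pos.trans_le (le_max_left _ _))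
    rcases le_or_gt ‖a‖ 1 with ha | ha
    · exact subset_closure ⟨1, X - C a, monic_X_sub_C a,
        fun b hb => by rwa [← root_X_sub_C.1 hb], by simp [h2]⟩
    have ha0 : a ≠ 0 := norm_pos_iff.1 (one_pos.trans ha)
    have h3 := hasSum_geometric_of_norm_lt_one (ξ := algebraMap 𝕜 Q a⁻¹ * σ) (by
      rw [norm_mul, hσ, mul_one, norm_algebraMap', norm_inv]; exact inv_lt_one_of_one_lt₀ ha)
    have h4 : (σ - algebraMap 𝕜 Q a)⁻¹ =
        algebraMap 𝕜 Q (-a⁻¹) * (1 - algebraMap 𝕜 Q a⁻¹ * σ)⁻¹ := by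
      have h5 := (_root_.map_ne_zero (algebraMap 𝕜 Q)).2 ha0
      rw [map_neg, map_inv₀, ← inv_neg, ← mul_inv]
      congr 1
      field_simp
      ring
    rw [h4]
    refine mul_mem (Subalgebra.algebraMap_mem _ _) (mem_closure_of_tendsto h3.tendsto_sum_nat
      (Eventually.of_forall fun n => sum_mem fun i _ => pow_mem (mul_mem (Subalgebra.algebraMap_mem _ _) ?_) i))
    simpa using h0 X
  have h2 : ∀ e ∈ 𝕜⟮σ⟯, e ∈ (S 𝕜 σ).topologicalClosure := fun e he => by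
    obtain ⟨P, q, rfl⟩ := (mem_adjoin_simple_iff 𝕜 e).1 he
    rw [div_eq_mul_inv, (IsAlgClosed.splits q).eq_prod_roots, map_mul, mul_inv, aeval_C, ← map_inv₀,
      map_multiset_prod, Multiset.map_map, ← Multiset.prod_map_inv]
    refine mul_mem (subset_closure (h0 P)) (mul_mem (Subalgebra.algebraMap_mem _ _) (multiset_prod_mem _ ?_))
    intro y hy
    obtain ⟨a, -, rfl⟩ := Multiset.mem_map.1 hy
    simpa using h1 a
  rw [← closure_closure]
  refine Metric.mem_closure_iff.2 fun ε hε => ?_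
  obtain ⟨e, he, h3⟩ := h.dense y ε hε
  exact ⟨e, h2 e he, by rwa [dist_eq_norm]⟩

variable [IsUltrametricDist 𝕜] [IsUltrametricDist Q]

lemma divide (hG : StmtGN) (h : Gauss 𝕜 σ) {q : 𝕜[X]} (hq : q.Monic) (h1 : ‖aeval σ q‖ = 1) {r : ℝ}
    (hr : 0 ≤ r) (P : 𝕜[X]) (hP : ‖aeval σ P‖ ≤ r) :
    ∃ d s : 𝕜[X], P = q * d + s ∧ s.natDegree ≤ q.natDegree ∧ ‖aeval σ d‖ ≤ r := by
  have hσ : ‖σ‖ = 1 := by simpa using h.gauss 0
  induction P using (degree_lt_wf (R := 𝕜)).induction with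
  | _ P ih =>
  by_cases h2 : q.degree ≤ P.degree ∧ P ≠ 0
  · have h3 : ‖aeval σ (C P.leadingCoeff * X ^ (P.natDegree - q.natDegree))‖ ≤ r := by
      simpa [hσ] using (hG.coeff 𝕜 Q σ h P r hr).1 hP P.natDegree
    obtain ⟨d, s, h4, h5, h6⟩ := ih _ (div_wf_lemma h2 hq) (by
      rw [map_sub, sub_eq_add_neg]
      refine (IsUltrametricDist.norm_add_le_max _ _).trans (max_le hP ?_)
      rwa [norm_neg, map_mul, norm_mul, h1, one_mul])
    refine ⟨d + C P.leadingCoeff * X ^ (P.natDegree - q.natDegree), s, by linear_combination h4, h5, ?_⟩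
    rw [map_add]
    exact (IsUltrametricDist.norm_add_le_max _ _).trans (max_le h6 h3)
  · refine ⟨0, P, by simp, ?_, by simpa using hr⟩
    rcases not_and_or.1 h2 with h3 | h3
    · exact natDegree_le_natDegree (not_le.1 h3).le
    · simp [not_not.1 h3]

lemma step [CompleteSpace Q] (hG : StmtGN) (h : Gauss 𝕜 σ) (y : Q) : ∃ a ∈ R1 𝕜 σ, ∃ b ∈ R2 𝕜 σ,
    ‖y - (a + b)‖ ≤ ‖y‖ / 2 ∧ ‖a‖ ≤ ‖y‖ ∧ ‖b‖ ≤ ‖y‖ := by
  rcases eq_or_ne y 0 with rfl | hy
  · exact ⟨0, zero_mem _, 0, zero_mem _, by simp, le_rfl, le_rfl⟩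
  have h0 := norm_pos_iff.2 hy
  obtain ⟨z, ⟨P, q, h1, h2, h3⟩, h4⟩ := Metric.mem_closure_iff.1 (dense h y) _ (half_pos h0)
  rw [dist_eq_norm] at h4
  have h5 := norm_q h h1 h2
  have h6 : aeval σ q ≠ 0 := norm_pos_iff.1 (by rw [h5]; exact one_pos)
  have h7 : ‖z‖ ≤ ‖y‖ := by
    rw [show z = y + -(y - z) by ring]
    exact (IsUltrametricDist.norm_add_le_max _ _).trans
      (max_le le_rfl (by rw [norm_neg]; linarith))
  obtain ⟨d, s, rfl, h8, h9⟩ := divide hG h h1 h5 h0.le P (by rwa [← h3, norm_mul, h5, mul_one])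
  have h10 : z = aeval σ d + aeval σ s / aeval σ q := by
    rw [map_add, map_mul] at h3
    field_simp
    linear_combination h3
  refine ⟨aeval σ d, subset_closure (aeval_mem_adjoin_singleton 𝕜 σ), aeval σ s / aeval σ q,
    subset_closure ((hG.s2 𝕜 Q σ h _).2 ⟨s, q, h1, h2, h8, rfl⟩), h10 ▸ h4.le, h9, ?_⟩
  rw [show aeval σ s / aeval σ q = z + -aeval σ d by rw [h10]; ring]
  exact (IsUltrametricDist.norm_add_le_max _ _).trans (max_le h7 (by rwa [norm_neg]))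

end Add

theorem blockAdd (hG : StmtGN) : StmtAdd := by
  intro 𝕜 Q _ _ _ _ _ _ _ _ σ h y
  choose a ha b hb h1 h2 h3 using Add.step hG h
  let u : ℕ → Q := fun n => (fun z => z - (a z + b z))^[n] y
  have hu : ∀ n, u (n + 1) = u n - (a (u n) + b (u n)) := fun n => Function.iterate_succ_apply' _ _ _
  have hn : ∀ n, ‖u n‖ ≤ ‖y‖ * (1 / 2) ^ n := fun n => by
    induction n with
    | zero => simp [u]
    | succ n ih => rw [hu, pow_succ]; linarith [h1 (u n)]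
  have hn' : ∀ n, ‖u n‖ ≤ ‖y‖ := fun n => (hn n).trans
    (mul_le_of_le_one_right (norm_nonneg _) (pow_le_one₀ (by norm_num) (by norm_num)))
  have hs := summable_geometric_two.mul_left ‖y‖
  have key : ∀ (R : Subalgebra 𝕜 Q) (c : Q → Q), (∀ z, c z ∈ R.topologicalClosure) →
      (∀ z, ‖c z‖ ≤ ‖z‖) → ∃ s ∈ R.topologicalClosure, ‖s‖ ≤ ‖y‖ ∧
        Tendsto (fun n => ∑ i ∈ Finset.range n, c (u i)) atTop (𝓝 s) := fun R c hc hc' => by
    have h4 := (Summable.of_norm_bounded hs fun n => (hc' _).trans (hn n)).hasSum.tendsto_sum_nat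
    exact ⟨_, R.isClosed_topologicalClosure.mem_of_tendsto h4
      (Eventually.of_forall fun n => sum_mem fun i _ => hc _),
      IsUltrametricDist.norm_tsum_le_of_forall_le_of_nonneg (norm_nonneg _)
        fun n => (hc' _).trans (hn' n), h4⟩
  obtain ⟨s, s1, s2, s3⟩ := key _ a ha h2
  obtain ⟨t, t1, t2, t3⟩ := key _ b hb h3
  refine ⟨s, s1, t, t1, ?_, s2, t2⟩
  have h4 : Tendsto u atTop (𝓝 0) := squeeze_zero_norm hn hs.tendsto_atTop_zero
  have h5 : ∀ n, ∑ i ∈ Finset.range n, a (u i) + ∑ i ∈ Finset.range n, b (u i) = y - u n :=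
    fun n => by
      induction n with
      | zero => simp [u]
      | succ n ih => rw [Finset.sum_range_succ, Finset.sum_range_succ, hu]; linear_combination ih
  simpa using tendsto_nhds_unique (h4.const_sub y) ((s3.add t3).congr h5)

end Pool.Agent.Lib.IW
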