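import Pool.Agent.Lib.IW.Util

/-! Block Bas: elementary facts on places and coordinates. -/

open Polynomial IntermediateField
open scoped Pointwise

namespace Pool.Agent.Lib.IW

namespace Bas

variable {k Ω : Type} [Field k] [Field Ω] [Algebra k Ω]

lemma coOf {x z : Ω} (hx : Co k x) (hz : Transcendental k z) : Co k z := by
  refine ⟨hz, fun y => isAlgebraic_adjoin_iff.2 ?_⟩
  have h1 : IsAlgebraic (Algebra.adjoin k {z}) (algebraMap Ω Ω x) :=
    IsAlgebraic.adjoin_singleton hx.tr hz (isAlgebraic_adjoin_iff.1 (hx.alg z))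
  refine IsAlgebraic.adjoin_of_forall_isAlgebraic (s := {x}) (fun w hw => ?_)
    (isAlgebraic_adjoin_iff.1 (hx.alg y))
  rw [Set.mem_singleton_iff.1 hw.1]
  exact h1

lemma lt_one_iff (W : ValuationSubring Ω) (y : Ω) : W.valuation y < 1 ↔ y = 0 ∨ y⁻¹ ∉ W := by
  rw [← W.mem_nonunits_iff, W.mem_nonunits_iff_or]

lemma triv {W : ValuationSubring Ω} (hW : IsPl k W) : W.valuation.IsTrivialOn k := by
  refine ⟨fun c hc => le_antisymm ((W.valuation_le_one_iff _).2 (hW.2 c)) (not_lt.1 fun h => ?_)⟩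
  rcases (lt_one_iff W _).1 h with h | h
  · exact hc ((algebraMap k Ω).injective (by rw [h, map_zero]))
  · exact h (by rw [← map_inv₀]; exact hW.2 _)

lemma aeval_mem {W : ValuationSubring Ω} (hW : ∀ c : k, algebraMap k Ω c ∈ W) {y : Ω}
    (hy : y ∈ W) (P : k[X]) : aeval y P ∈ W := by
  induction P using Polynomial.induction_on' with
  | add p q hp hq => rw [map_add]; exact add_mem hp hq
  | monomial n a => rw [aeval_monomial]; exact mul_mem (hW a) (pow_mem hy n)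

lemma const_eq {W : ValuationSubring Ω} (hW : IsPl k W) {c : k}
    (h : W.valuation (algebraMap k Ω c) < 1) : c = 0 := by
  by_contra hc
  exact h.ne ((triv hW).eq_one c hc)

lemma val_poly {P : k[X]} (hP : P ≠ 0) : ∃ n : ℕ, ∀ W : ValuationSubring Ω, IsPl k W →
    ∀ u : Ω, W.valuation u < 1 → W.valuation (aeval u P) = W.valuation u ^ n := by
  obtain ⟨Q, hQ, hnd⟩ := exists_eq_pow_rootMultiplicity_mul_and_not_dvd P hP 0
  refine ⟨P.rootMultiplicity 0, fun W hW u hu => ?_⟩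
  rw [C_0, sub_zero] at hQ hnd
  rw [X_dvd_iff] at hnd
  have h1 : W.valuation (aeval u Q) = 1 := by
    have h2 : W.valuation (algebraMap k Ω (Q.coeff 0)) = 1 := (triv hW).eq_one _ hnd
    have h3 : W.valuation (u * aeval u Q.divX) < 1 := by
      rw [map_mul]
      exact mul_lt_one_of_nonneg_of_lt_one_left zero_le hu ((W.valuation_le_one_iff _).2
        (aeval_mem hW.2 ((W.valuation_le_one_iff _).1 hu.le) _))
    conv_lhs => rw [← Q.X_mul_divX_add, map_add, map_mul, aeval_X, aeval_C]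
    rw [W.valuation.map_add_eq_of_lt_right (h2 ▸ h3), h2]
  conv_lhs => rw [hQ, map_mul, map_pow, aeval_X, map_mul, map_pow, h1, mul_one]

lemma val_adj {u y : Ω} (hu : u ≠ 0) (hy : y ∈ k⟮u⟯) (h0 : y ≠ 0) : ∃ i : ℤ,
    ∀ W : ValuationSubring Ω, IsPl k W → W.valuation u < 1 →
      W.valuation y = W.valuation u ^ i := by
  obtain ⟨P, Q, rfl⟩ := (mem_adjoin_simple_iff k y).1 hy
  have hP : P ≠ 0 := by
    rintro rfl
    simp at h0
  have hQ : Q ≠ 0 := by
    rintro rfl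
    simp at h0
  obtain ⟨n, hn⟩ := val_poly (Ω := Ω) hP
  obtain ⟨m, hm⟩ := val_poly (Ω := Ω) hQ
  refine ⟨n - m, fun W hW h => ?_⟩
  have : W.valuation u ≠ 0 := by simpa using hu
  rw [map_div₀, hn W hW u h, hm W hW u h, zpow_sub₀ this, zpow_natCast, zpow_natCast]

lemma agr {u : Ω} (hu : u ≠ 0) {W W' : ValuationSubring Ω} (hW : IsPl k W) (hW' : IsPl k W')
    (h : W.valuation u < 1) (h' : W'.valuation u < 1) : Agr k⟮u⟯ W W' := by
  intro y hy
  rcases eq_or_ne y 0 with rfl | h0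
  · simp
  obtain ⟨i, hi⟩ := val_adj hu hy h0
  have p : 0 < W.valuation u := zero_lt_iff.2 (by simpa using hu)
  have p' : 0 < W'.valuation u := zero_lt_iff.2 (by simpa using hu)
  rw [← W.valuation_le_one_iff, ← W'.valuation_le_one_iff, hi W hW h, hi W' hW' h',
    zpow_le_one_iff_right_of_lt_one₀ p h, zpow_le_one_iff_right_of_lt_one₀ p' h']

lemma unif {u : Ω} (hu : u ≠ 0) {W : ValuationSubring Ω} (hW : IsPl k W)
    (h : W.valuation u < 1) : IsUnif k⟮u⟯ W u := by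
  refine ⟨mem_adjoin_simple_self k u, hu, h, fun y hy hlt => ?_⟩
  rcases eq_or_ne y 0 with rfl | h0
  · simp
  obtain ⟨i, hi⟩ := val_adj hu hy h0
  have p : 0 < W.valuation u := zero_lt_iff.2 (by simpa using hu)
  rw [hi W hW h] at hlt ⊢
  rw [zpow_lt_one_iff_right_of_lt_one₀ p h] at hlt
  conv_rhs => rw [← zpow_one (W.valuation u)]
  exact (zpow_le_zpow_iff_right_of_lt_one₀ p h).2 hlt

lemma adj_sub (x : Ω) (a : k) : k⟮x - algebraMap k Ω a⟯ = k⟮x⟯ := by
  refine le_antisymm (adjoin_simple_le_iff.2 ?_) (adjoin_simple_le_iff.2 ?_)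
  · exact sub_mem (mem_adjoin_simple_self k x) (IntermediateField.algebraMap_mem _ a)
  · have := add_mem (mem_adjoin_simple_self k (x - algebraMap k Ω a))
      (IntermediateField.algebraMap_mem _ a)
    rwa [sub_add_cancel] at this

lemma adj_inv (x : Ω) : k⟮x⁻¹⟯ = k⟮x⟯ := by
  refine le_antisymm (adjoin_simple_le_iff.2 ?_) (adjoin_simple_le_iff.2 ?_)
  · exact inv_mem (mem_adjoin_simple_self k x)
  · have := inv_mem (mem_adjoin_simple_self k x⁻¹)
    rwa [inv_inv] at this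

lemma tr_ne {x : Ω} (hx : Transcendental k x) : x ≠ 0 := fun h => hx (h ▸ isAlgebraic_zero)

lemma tr_sub {x : Ω} (hx : Transcendental k x) (a : k) :
    Transcendental k (x - algebraMap k Ω a) := fun h => hx (by
  have := h.add (isAlgebraic_algebraMap a)
  rwa [sub_add_cancel] at this)

lemma tr_inv {x : Ω} (hx : Transcendental k x) : Transcendental k x⁻¹ :=
  fun h => hx (IsAlgebraic.inv_iff.1 h)

lemma inv_lt {W : ValuationSubring Ω} {x : Ω} (h : x ∉ W) : W.valuation x⁻¹ < 1 :=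
  (lt_one_iff W _).2 (Or.inr (by rwa [inv_inv]))

lemma pow_val (F : IntermediateField k Ω) (W : ValuationSubring Ω) {z : Ω} (hz : z ≠ 0)
    (h : IsAlgebraic F z) :
    ∃ e : ℕ, 0 < e ∧ ∃ a ∈ F, a ≠ 0 ∧ W.valuation z ^ e = W.valuation a := by
  classical
  by_contra hcon
  push Not at hcon
  obtain ⟨p, hp, hpz⟩ := h
  have hv : W.valuation z ≠ 0 := by simpa using hz
  have hne : ∀ i ∈ p.support, W.valuation ((p.coeff i : Ω) * z ^ i) ≠ 0 := fun i hi => by
    have : (p.coeff i : Ω) ≠ 0 := by simpa using hi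
    simp [this, hz]
  have key : ∀ i ∈ p.support, ∀ j ∈ p.support, i < j →
      W.valuation ((p.coeff i : Ω) * z ^ i) ≠ W.valuation ((p.coeff j : Ω) * z ^ j) := by
    intro i hi j hj hij e
    have hi' : (p.coeff i : Ω) ≠ 0 := by simpa using hi
    have hj' : (p.coeff j : Ω) ≠ 0 := by simpa using hj
    refine hcon (j - i) (by omega) ((p.coeff i : Ω) / p.coeff j)
      (div_mem (p.coeff i).2 (p.coeff j).2) (div_ne_zero hi' hj') ?_
    have hj'' : W.valuation (p.coeff j : Ω) ≠ 0 := by simpa using hj'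
    obtain ⟨d, rfl⟩ := Nat.exists_eq_add_of_lt hij
    rw [map_mul, map_mul, map_pow, map_pow, add_assoc, pow_add, mul_comm (W.valuation z ^ i),
      ← mul_assoc, mul_left_inj' (pow_ne_zero _ hv)] at e
    rw [map_div₀, e, eq_div_iff hj'', mul_comm]
    congr 2
    omega
  obtain ⟨j, hj, hmax⟩ := Finset.exists_max_image p.support
    (fun i => W.valuation ((p.coeff i : Ω) * z ^ i)) (support_nonempty.2 hp)
  have hs := W.valuation.map_sum_eq_of_lt (f := fun i => (p.coeff i : Ω) * z ^ i) hj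
    (fun i hi => by
      rw [Finset.mem_sdiff, Finset.mem_singleton] at hi
      refine lt_of_le_of_ne (hmax i hi.1) ?_
      rcases lt_or_gt_of_ne hi.2 with h | h
      · exact key i hi.1 j hj h
      · exact (key j hj i hi.1 h).symm)
  rw [aeval_def, eval₂_eq_sum, Polynomial.sum] at hpz
  have hz0 : ∑ i ∈ p.support, (p.coeff i : Ω) * z ^ i = 0 := hpz
  rw [hz0, map_zero] at hs
  exact hne j hj hs.symm

lemma alg_mem [IsAlgClosed k] {y : Ω} (h : IsAlgebraic k y) : ∃ c : k, algebraMap k Ω c = y :=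
  minpoly.mem_range_of_degree_eq_one k y
    (IsAlgClosed.degree_eq_one_of_irreducible k (minpoly.irreducible h.isIntegral))

lemma resid [IsAlgClosed k] {x : Ω} (hx : Co k x) {W : ValuationSubring Ω} (hW : IsPl k W)
    {y : Ω} (hy : y ∈ W) : ∃ c : k, W.valuation (y - algebraMap k Ω c) < 1 := by
  by_cases ha : IsAlgebraic k y
  · obtain ⟨c, rfl⟩ := alg_mem ha
    exact ⟨c, by simp⟩
  by_contra hcon
  push Not at hcon
  have h1 : ∀ c : k, W.valuation (y - algebraMap k Ω c) = 1 := fun c =>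
    le_antisymm ((W.valuation_le_one_iff _).2 (sub_mem hy (hW.2 c))) (hcon c)
  have h2 : ∀ P : k[X], P ≠ 0 → W.valuation (aeval y P) = 1 := fun P hP => by
    rw [(IsAlgClosed.splits P).eq_prod_roots, map_mul, map_mul, aeval_C,
      (triv hW).eq_one _ (leadingCoeff_ne_zero.2 hP), one_mul, map_multiset_prod,
      map_multiset_prod]
    refine Multiset.prod_eq_one fun a ha => ?_
    simp only [Multiset.map_map, Multiset.mem_map, Function.comp] at ha
    obtain ⟨c, -, rfl⟩ := ha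
    rw [map_sub, aeval_X, aeval_C, h1]
  refine hW.1 (eq_top_iff.2 fun z _ => ?_)
  rcases eq_or_ne z 0 with rfl | hz
  · exact zero_mem _
  obtain ⟨e, he, a, haF, ha0, hv⟩ := pow_val k⟮y⟯ W hz ((coOf hx ha).alg z)
  obtain ⟨P, Q, rfl⟩ := (mem_adjoin_simple_iff k a).1 haF
  have hP : P ≠ 0 := by
    rintro rfl
    simp at ha0
  have hQ : Q ≠ 0 := by
    rintro rfl
    simp at ha0
  rw [map_div₀, h2 P hP, h2 Q hQ, div_one] at hv
  exact (W.valuation_le_one_iff _).1 ((pow_eq_one_iff_of_nonneg zero_le he.ne').1 hv).le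

lemma rank {x : Ω} (hx : Co k x) {W : ValuationSubring Ω} (hW : IsPl k W) {u : Ω} (hu : u ≠ 0)
    (h : W.valuation u < 1) {y : Ω} (hy : y ≠ 0) :
    ∃ e : ℕ, 0 < e ∧ ∃ i : ℤ, W.valuation y ^ e = W.valuation u ^ i := by
  have := triv hW
  have ht : Transcendental k u := Valuation.transcendental_of_ne_one k u hu h.ne
  obtain ⟨e, he, a, haF, ha0, hv⟩ := pow_val k⟮u⟯ W hy ((coOf hx ht).alg y)
  obtain ⟨i, hi⟩ := val_adj hu haF ha0
  exact ⟨e, he, i, hv.trans (hi W hW h)⟩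

lemma smul_mem (W : ValuationSubring Ω) (γ : Aut k Ω) (y : Ω) : γ y ∈ γ • W ↔ y ∈ W :=
  ValuationSubring.smul_mem_pointwise_smul_iff (g := γ)

lemma le_iff (W : ValuationSubring Ω) (y y' : Ω) :
    W.valuation y ≤ W.valuation y' ↔ y = 0 ∨ (y' ≠ 0 ∧ y / y' ∈ W) := by
  rcases eq_or_ne y' 0 with rfl | h
  · simp
  have p : 0 < W.valuation y' := zero_lt_iff.2 (by simpa using h)
  rw [← W.valuation_le_one_iff, map_div₀, div_le_one₀ p]
  refine ⟨fun h' => Or.inr ⟨h, h'⟩, ?_⟩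
  rintro (rfl | h')
  · simp
  · exact h'.2

lemma smul_lt (W : ValuationSubring Ω) (γ : Aut k Ω) (y : Ω) :
    (γ • W).valuation (γ y) < 1 ↔ W.valuation y < 1 := by
  rw [lt_one_iff, lt_one_iff, ← map_inv₀, smul_mem, map_eq_zero]

lemma smul_le (W : ValuationSubring Ω) (γ : Aut k Ω) (y y' : Ω) :
    (γ • W).valuation (γ y) ≤ (γ • W).valuation (γ y') ↔ W.valuation y ≤ W.valuation y' := by
  rw [le_iff, le_iff, ← map_div₀, smul_mem, map_eq_zero, _root_.map_ne_zero]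

lemma smul_pl {W : ValuationSubring Ω} (hW : IsPl k W) (γ : Aut k Ω) : IsPl k (γ • W) := by
  refine ⟨fun h => hW.1 (eq_top_iff.2 fun z _ => ?_), fun c => ?_⟩
  · rw [← smul_mem W γ, h]
    exact ValuationSubring.mem_top _
  · rw [← γ.commutes c, smul_mem]
    exact hW.2 c

lemma move₂ {W : ValuationSubring Ω} {γ : Aut k Ω} (h : γ • W = W) {y : Ω}
    (hy : W.valuation y < 1) : W.valuation (γ y) < 1 := by
  have := (smul_lt W γ y).2 hy
  rwa [h] at this

lemma move₁ [IsAlgClosed k] {x : Ω} (hx : Co k x) {W : ValuationSubring Ω} (hW : IsPl k W)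
    {γ : Aut k Ω} (h : γ • W = W) {y : Ω} (hy : y ∈ W) : W.valuation (γ y - y) < 1 := by
  obtain ⟨c, hc⟩ := resid hx hW hy
  have h1 := move₂ h hc
  rw [map_sub, γ.commutes] at h1
  have := W.valuation.map_sub_lt h1 hc
  rwa [sub_sub_sub_cancel_right] at this

lemma exQ (u : Ω) (Q : k[X]) (hQ : aeval u Q ≠ 0) (h : ∀ B : k[X], aeval u (B * Q) ≠ 1) :
    ∃ W : ValuationSubring Ω, IsPl k W ∧ u ∈ W ∧ W.valuation (aeval u Q) < 1 := by
  let A : Subring Ω := (Algebra.adjoin k {u}).toSubring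
  let q : A := ⟨aeval u Q, aeval_mem_adjoin_singleton k u⟩
  have hI : Ideal.span {q} ≠ ⊤ := by
    rw [Ne, Ideal.eq_top_iff_one, Ideal.mem_span_singleton']
    rintro ⟨⟨b, hb⟩, e⟩
    have hb' : b ∈ Algebra.adjoin k {u} := hb
    rw [Algebra.adjoin_singleton_eq_range_aeval] at hb'
    obtain ⟨B, rfl⟩ := hb'
    exact h B (by rw [map_mul]; exact congrArg Subtype.val e)
  obtain ⟨W, hA, hn⟩ := Ideal.image_subset_nonunits_valuationSubring _ hI
  have hlt : W.valuation (aeval u Q) < 1 :=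
    W.mem_nonunits_iff.1 (hn ⟨q, Ideal.subset_span rfl, rfl⟩)
  refine ⟨W, ⟨fun hW => ?_, fun c => hA (Subalgebra.algebraMap_mem _ c)⟩,
    hA (Algebra.self_mem_adjoin_singleton k u), hlt⟩
  rcases (lt_one_iff W _).1 hlt with h' | h'
  · exact hQ h'
  · exact h' (hW ▸ ValuationSubring.mem_top _)

lemma exU {u : Ω} (hu : Transcendental k u) :
    ∃ W : ValuationSubring Ω, IsPl k W ∧ W.valuation u < 1 := by
  obtain ⟨W, hW, -, h⟩ := exQ (k := k) u X (by simpa using tr_ne hu) fun B e => by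
    have h1 : B * X - 1 = 0 := transcendental_iff.1 hu _ (by rw [map_sub, e, map_one, sub_self])
    simpa using congrArg (eval 0) h1
  exact ⟨W, hW, by simpa using h⟩

lemma intg (x y : Ω) : Intg k x y ↔ IsIntegral (Algebra.adjoin k {x}) y := by
  have h1 := iInf_valuationSubring_superset (s := ((Algebra.adjoin k {x}).toSubring : Set Ω))
  rw [Subring.closure_eq] at h1
  have h2 : IsIntegral (Algebra.adjoin k {x}) y ↔
      y ∈ (integralClosure (Algebra.adjoin k {x}).toSubring Ω).toSubring := Iff.rfl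
  rw [h2, ← h1, Subring.mem_iInf]
  refine ⟨fun h V => ?_, fun h W hW hx => h ⟨W, fun z hz => ?_⟩⟩
  · by_cases hV : V.1 = ⊤
    · rw [hV]
      exact ValuationSubring.mem_top _
    · exact h V.1 ⟨hV, fun c => V.2 (Subalgebra.algebraMap_mem _ c)⟩
        (V.2 (Algebra.self_mem_adjoin_singleton k x))
  · have hz' : z ∈ Algebra.adjoin k {x} := hz
    rw [Algebra.adjoin_singleton_eq_range_aeval] at hz'
    obtain ⟨B, rfl⟩ := hz'
    exact aeval_mem hW.2 hx B

lemma intgPoly {x y : Ω} (h : Intg k x y) (hy : y ∈ k⟮x⟯) : ∃ P : k[X], y = aeval x P := by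
  classical
  obtain ⟨P₀, Q₀, e₀⟩ := (mem_adjoin_simple_iff k y).1 hy
  by_cases hQ₀ : aeval x Q₀ = 0
  · exact ⟨0, by rw [e₀, hQ₀, div_zero, map_zero]⟩
  obtain ⟨P, Q, hP, hQ, hu⟩ := extract_gcd P₀ Q₀
  obtain ⟨a, b, hab⟩ := (gcd_isUnit_iff P Q).1 hu
  generalize gcd P₀ Q₀ = g at hP hQ
  subst hP hQ
  rw [map_mul, mul_eq_zero, not_or] at hQ₀
  have e : y = aeval x P / aeval x Q := by
    rw [e₀, map_mul, map_mul, mul_div_mul_left _ _ hQ₀.1]
  by_cases hB : ∃ B : k[X], aeval x (B * Q) = 1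
  · obtain ⟨B, hB⟩ := hB
    refine ⟨P * B, ?_⟩
    rw [map_mul] at hB
    rw [e, map_mul, div_eq_iff hQ₀.2, mul_assoc, hB, mul_one]
  push Not at hB
  obtain ⟨W, hW, hx, hlt⟩ := exQ x Q hQ₀.2 hB
  have lt : ∀ z ∈ W, W.valuation (z * aeval x Q) < 1 := fun z hz => by
    rw [map_mul]
    exact mul_lt_one_of_nonneg_of_lt_one_right ((W.valuation_le_one_iff _).2 hz) zero_le hlt
  have h1 : (1 : Ω) = (aeval x a * y + aeval x b) * aeval x Q := by
    rw [add_mul, mul_assoc, e, div_mul_cancel₀ _ hQ₀.2, ← map_mul, ← map_mul, ← map_add, hab,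
      map_one]
  have h2 := lt _ (add_mem (mul_mem (aeval_mem hW.2 hx a) (h W hW hx)) (aeval_mem hW.2 hx b))
  rw [← h1, map_one] at h2
  exact absurd h2 (lt_irrefl _)

lemma unitFix [IsAlgClosed k] {x : Ω} (hx : Co k x) {W : ValuationSubring Ω} (hW : IsPl k W)
    {γ : Aut k Ω} (h : γ • W = W) {y : Ω} {M : ℕ} (hM : M ≠ 0) (hy : W.valuation y = 1)
    (e : γ (y ^ M) = y ^ M) : γ y = y := by
  have h0 : y ≠ 0 := by
    rintro rfl
    simp at hy
  have h1 : (γ y / y) ^ M = 1 := by rw [div_pow, ← map_pow, e, div_self (pow_ne_zero _ h0)]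
  have h2 : IsIntegral k (γ y / y) :=
    IsIntegral.of_pow (Nat.pos_of_ne_zero hM) (h1 ▸ isIntegral_one)
  obtain ⟨c, hc⟩ := alg_mem h2.isAlgebraic
  have h3 := move₁ hx hW h ((W.valuation_le_one_iff _).1 hy.le)
  have h4 : γ y - y = algebraMap k Ω (c - 1) * y := by
    rw [map_sub, hc, map_one, sub_mul, div_mul_cancel₀ _ h0, one_mul]
  rw [h4, map_mul, hy, mul_one] at h3
  rw [const_eq hW h3, map_zero, zero_mul, sub_eq_zero] at h4
  exact h4

lemma valFix {x : Ω} (hx : Co k x) {W : ValuationSubring Ω} (hW : IsPl k W)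
    {γ : Aut k Ω} (h : γ • W = W) {u : Ω} (hu : u ≠ 0) (hlt : W.valuation u < 1) (e : γ u = u)
    (y : Ω) : W.valuation (γ y) = W.valuation y := by
  rcases eq_or_ne y 0 with rfl | hy
  · simp
  obtain ⟨n, hn, i, hi⟩ := rank hx hW hu hlt hy
  have key : ∀ a b, W.valuation a = W.valuation b → W.valuation (γ a) = W.valuation (γ b) :=
    fun a b hab => by
      have h1 := (smul_le W γ a b).2 hab.le
      have h2 := (smul_le W γ b a).2 hab.ge
      rw [h] at h1 h2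
      exact le_antisymm h1 h2
  have h3 := key (y ^ n) (u ^ i) (by rw [map_pow, map_zpow₀, hi])
  rw [map_pow, map_zpow₀, map_pow, map_zpow₀, e, ← hi] at h3
  exact (pow_left_inj₀ zero_le zero_le hn.ne').1 h3

lemma exOver {K : Type} [Field K] (f : K →+* Ω) (η : ValuationSubring K) :
    ∃ W : ValuationSubring Ω, W.comap f = η := by
  obtain ⟨A, hA, hl⟩ := IsLocalRing.exists_factor_valuationRing (f.comp η.subtype)
  refine ⟨A, ValuationSubring.ext _ _ fun y => ⟨fun hy => ?_, fun hy => hA ⟨y, hy⟩⟩⟩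
  by_contra hn
  have hi : y⁻¹ ∈ η := (η.mem_or_inv_mem y).resolve_left hn
  have h0 : y ≠ 0 := fun h => hn (h ▸ zero_mem _)
  have h1 : IsUnit ((f.comp η.subtype).codRestrict A.toSubring hA ⟨y⁻¹, hi⟩) := by
    refine isUnit_iff_exists_inv.2 ⟨⟨f y, hy⟩, Subtype.ext ?_⟩
    change f y⁻¹ * f y = 1
    rw [← map_mul, inv_mul_cancel₀ h0, map_one]
  obtain ⟨z, hz⟩ := isUnit_iff_exists_inv.1 (hl.1 _ h1)
  have h2 : y⁻¹ * (z : K) = 1 := congrArg Subtype.val hz
  rw [inv_mul_eq_one₀ h0] at h2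
  exact hn (h2 ▸ z.2)

lemma exEmb {Ω' : Type} [Field Ω'] [IsAlgClosed Ω'] [Algebra k Ω'] {x : Ω} {t : Ω'}
    (hx : Co k x) (ht : Transcendental k t) : ∃ ι : Ω →ₐ[k] Ω', ι x = t := by
  let φ : k⟮x⟯ →ₐ[k] Ω' := (k⟮t⟯).val.comp
    (((RatFunc.algEquivOfTranscendental x hx.tr).symm.trans
      (RatFunc.algEquivOfTranscendental t ht) : k⟮x⟯ ≃ₐ[k] k⟮t⟯) : k⟮x⟯ →ₐ[k] k⟮t⟯)
  have hφ : φ (AdjoinSimple.gen k x) = t := by
    simp [φ]
  let _ : Algebra k⟮x⟯ Ω' := φ.toRingHom.toAlgebra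
  have : IsScalarTower k k⟮x⟯ Ω' := IsScalarTower.of_algebraMap_eq fun c => (φ.commutes c).symm
  have : Algebra.IsAlgebraic k⟮x⟯ Ω := ⟨hx.alg⟩
  let ι : Ω →ₐ[k⟮x⟯] Ω' := IsAlgClosed.lift
  exact ⟨ι.restrictScalars k, (ι.commutes (AdjoinSimple.gen k x)).trans hφ⟩

lemma exAut [IsAlgClosed Ω] {x t : Ω} (hx : Co k x) (ht : Co k t) : ∃ θ : Aut k Ω, θ x = t := by
  obtain ⟨ι, hι⟩ := exEmb hx ht.tr
  refine ⟨AlgEquiv.ofBijective ι ⟨ι.injective, fun y => ?_⟩, hι⟩
  have : IsAlgClosed ι.fieldRange :=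
    IsAlgClosed.of_ringEquiv Ω _ (AlgEquiv.ofInjectiveField ι).toRingEquiv
  have hle : k⟮t⟯ ≤ ι.fieldRange := adjoin_simple_le_iff.2 ⟨x, hι⟩
  have h1 : IsAlgebraic ι.fieldRange y :=
    IsAlgebraic.tower_top_of_subalgebra_le (A := (k⟮t⟯).toSubalgebra)
      (B := ι.fieldRange.toSubalgebra) hle (ht.alg y)
  obtain ⟨⟨_, z, rfl⟩, hc⟩ := alg_mem h1
  exact ⟨z, hc⟩

end Bas

open Bas in
theorem blockBas : StmtBas where
  coOf _ _ _ _ _ _ _ hx hz := coOf hx hz
  resid _ _ _ _ _ _ _ hx _ hW _ hy := resid hx hW hy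
  move _ _ _ _ _ _ _ hx _ hW _ h := ⟨fun _ hy => move₁ hx hW h hy, fun _ hy => move₂ h hy⟩
  rank _ _ _ _ _ _ _ hx _ hW _ hu h _ hy := rank hx hW hu h hy
  exAt _ _ _ _ _ _ hx a := exU (tr_sub hx.tr a)
  exInf _ _ _ _ _ x hx := by
    obtain ⟨W, hW, h⟩ := exU (tr_inv hx.tr)
    rw [lt_one_iff, inv_inv] at h
    exact ⟨W, hW, h.resolve_left (inv_ne_zero hx.ne_zero)⟩
  smulPl _ _ _ _ _ W hW γ := ⟨smul_pl hW γ, smul_mem W γ, smul_lt W γ, smul_le W γ⟩
  agrInf _ _ _ _ _ x hx _ _ hW hW' h h' := by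
    rw [← adj_inv x]
    exact agr (inv_ne_zero (tr_ne hx)) hW hW' (inv_lt h) (inv_lt h')
  agrAt _ _ _ _ _ x hx a _ _ hW hW' h h' := by
    rw [← adj_sub x a]
    exact agr (tr_ne (tr_sub hx a)) hW hW' h h'
  unifInf _ _ _ _ _ x hx _ hW h := by
    rw [← adj_inv x]
    exact unif (inv_ne_zero (tr_ne hx)) hW (inv_lt h)
  unifAt _ _ _ _ _ x hx a _ hW h := by
    rw [← adj_sub x a]
    exact unif (tr_ne (tr_sub hx a)) hW h
  intg _ _ _ _ _ x y := intg x y
  intgPoly _ _ _ _ _ _ _ _ h hy := intgPoly h hy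
  infPoly _ _ _ _ _ x W hW h P hP := by
    have := triv hW
    exact valuation_aeval_eq_valuation_X_pow_natDegree_of_one_lt_valuation_X x
      (not_le.1 fun h' => h ((W.valuation_le_one_iff _).1 h')) hP
  unitFix _ _ _ _ _ _ _ hx _ hW _ h _ _ hM hy e :=
    unitFix hx hW h (fun h0 => hM (by rw [h0, Nat.cast_zero])) hy e
  valFix _ _ _ _ _ _ _ hx _ hW _ h _ hu hlt e y := valFix hx hW h hu hlt e y
  exOver _ _ _ _ f η := exOver f η
  exAut _ _ _ _ _ _ _ _ hx ht := exAut hx ht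
  exEmb _ _ _ _ _ _ _ _ _ _ _ hx ht := exEmb hx ht

end Pool.Agent.Lib.IW
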