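import Pool.Agent.Lib.IW.Br2

/-! From a finite Galois extension of the rational function field to a representation. -/

open Polynomial IntermediateField
open scoped Pointwise

namespace Pool.Agent.Lib.IW

namespace Br1

open Br2

variable {k K L Ω : Type} [Field k] [Field K] [Algebra k K] [Field Ω] [Algebra k Ω] [Algebra K Ω]
  [IsScalarTower k K Ω] [Field L] [Algebra K L] [Algebra L Ω] [IsScalarTower K L Ω]

lemma rep [IsAlgClosure K Ω] [FiniteDimensional K L] [Normal K L] (hC : StmtConj) {G : Type}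
    [Group G] (e : (L ≃ₐ[K] L) ≃* G) :
    ∃ ρ : Aut k Ω → G, IsRep (Im k K Ω).fixingSubgroup ρ ∧
      (∀ g, ∃ γ ∈ (Im k K Ω).fixingSubgroup, ρ γ = g) ∧ ∀ W : ValuationSubring Ω,
        ((((W.comap (algebraMap L Ω)).decompositionSubgroup K).map e.toMonoidHom : Subgroup G) :
          Set G) = ρ '' (DecF (Im k K Ω) W : Set (Aut k Ω)) := by
  classical
  have : IsAlgClosed Ω := IsAlgClosure.isAlgClosed K
  have hr : ∀ σ : Ω ≃ₐ[K] Ω, σ.restrictScalars k ∈ (Im k K Ω).fixingSubgroup := fun σ =>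
    fix_Im.2 σ.commutes
  have hl : ∀ γ ∈ (Im k K Ω).fixingSubgroup, ∃ σ : Ω ≃ₐ[K] Ω, σ.restrictScalars k = γ :=
    fun γ h => ⟨{ γ with commutes' := fix_Im.1 h }, rfl⟩
  let ρ : Aut k Ω → G := fun γ => if h : γ ∈ (Im k K Ω).fixingSubgroup then
    e (AlgEquiv.restrictNormalHom L { γ with commutes' := fix_Im.1 h }) else 1
  have he : ∀ σ : Ω ≃ₐ[K] Ω, ρ (σ.restrictScalars k) = e (AlgEquiv.restrictNormalHom L σ) :=
    fun σ => dif_pos (hr σ)
  have hc : ∀ (σ : Ω ≃ₐ[K] Ω) (z : L),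
      algebraMap L Ω (AlgEquiv.restrictNormalHom L σ z) = σ (algebraMap L Ω z) :=
    fun σ z => AlgEquiv.restrictNormal_commutes σ L z
  have hs1 := AlgEquiv.restrictNormalHom_surjective (F := K) (K₁ := L) (E := Ω)
  have hm : ∀ (σ : Ω ≃ₐ[K] Ω) (W : ValuationSubring Ω) (z : L),
      z ∈ AlgEquiv.restrictNormalHom L σ • W.comap (algebraMap L Ω) ↔
      algebraMap L Ω z ∈ σ.restrictScalars k • W := fun σ W z => by
    rw [ValuationSubring.mem_pointwise_smul_iff_inv_smul_mem,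
      ValuationSubring.mem_pointwise_smul_iff_inv_smul_mem, ← map_inv, ValuationSubring.mem_comap]
    exact Iff.of_eq (congrArg (· ∈ W) (hc σ⁻¹ z))
  refine ⟨ρ, ⟨fun γ hγ δ hδ => ?_, ?_⟩, fun g => ?_, fun W => ?_⟩
  · obtain ⟨σ, rfl⟩ := hl γ hγ
    obtain ⟨τ, rfl⟩ := hl δ hδ
    rw [he, he, ← map_mul, ← map_mul]
    exact he (σ * τ)
  · let b := Module.finBasis K L
    refine ⟨Finset.univ.image fun i => algebraMap L Ω (b i), fun γ hγ δ hδ h => ?_⟩
    obtain ⟨σ, rfl⟩ := hl γ hγ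
    obtain ⟨τ, rfl⟩ := hl δ hδ
    rw [he, he]
    congr 1
    apply AlgEquiv.toLinearMap_injective
    refine b.ext fun i => (algebraMap L Ω).injective ?_
    exact (hc σ _).trans ((h _ (Finset.mem_image_of_mem _ (Finset.mem_univ i))).trans
      (hc τ _).symm)
  · obtain ⟨σ, hσ⟩ := hs1 (e.symm g)
    exact ⟨_, hr σ, by rw [he, hσ, e.apply_symm_apply]⟩
  ext g
  constructor
  · rintro ⟨τ, hτ, rfl⟩
    obtain ⟨σ, rfl⟩ := hs1 τ
    obtain ⟨δ, h1, h2⟩ := hC k Ω ((IsScalarTower.toAlgHom K L Ω).fieldRange.restrictScalars k)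
      (fun z => (Algebra.IsAlgebraic.isAlgebraic (R := K) z).tower_top
        (IsScalarTower.toAlgHom K L Ω).fieldRange) (σ.restrictScalars k • W) W (by
        rintro _ ⟨z, rfl⟩
        change algebraMap L Ω z ∈ _ ↔ _
        rw [← hm σ W z,
          show AlgEquiv.restrictNormalHom L σ • W.comap (algebraMap L Ω) = _ from hτ]
        rfl)
    rw [IntermediateField.mem_fixingSubgroup_iff] at h1
    have h3 : δ ∈ (Im k K Ω).fixingSubgroup := fix_Im.2 fun a =>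
      h1 _ ((IsScalarTower.toAlgHom K L Ω).fieldRange.algebraMap_mem a)
    refine ⟨δ * σ.restrictScalars k, ⟨mul_mem h3 (hr σ), (mul_smul _ _ _).trans h2⟩, ?_⟩
    obtain ⟨τ, rfl⟩ := hl δ h3
    refine (he (τ * σ)).trans (congrArg e ?_)
    rw [map_mul]
    have : AlgEquiv.restrictNormalHom L τ = 1 :=
      AlgEquiv.ext fun z => (algebraMap L Ω).injective ((hc τ z).trans (h1 _ ⟨z, rfl⟩))
    rw [this, one_mul]
  · rintro ⟨γ, ⟨h1, h2⟩, rfl⟩
    obtain ⟨σ, rfl⟩ := hl γ h1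
    refine ⟨_, ValuationSubring.ext _ _ fun z => ?_, (he σ).symm⟩
    rw [hm, show σ.restrictScalars k • W = W from h2]
    rfl

end Br1

open Br2

theorem blockBr1 (hF : Found) : StmtBr1 := by
  intro p _ k Ω _ _ _ _ _ _ x hx ω hω hk G _ H
  rintro ⟨L, _, _, _, _, e, h1, η, h2, h3⟩
  have hB := hF.bas
  let φ := RatFunc.algEquivOfTranscendental x hx.tr
  let _ : Algebra (RatFunc k) k⟮x⟯ := φ.toAlgHom.toRingHom.toAlgebra
  let _ : Algebra (RatFunc k) Ω := ((k⟮x⟯).val.comp φ.toAlgHom).toRingHom.toAlgebra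
  have : IsScalarTower k (RatFunc k) Ω :=
    .of_algebraMap_eq fun c => (((k⟮x⟯).val.comp φ.toAlgHom).commutes c).symm
  have : IsScalarTower (RatFunc k) k⟮x⟯ Ω := .of_algebraMap_eq fun _ => rfl
  have hX : algebraMap (RatFunc k) Ω RatFunc.X = x :=
    RatFunc.algEquivOfTranscendental_X x hx.tr
  have : Algebra.IsAlgebraic (RatFunc k) k⟮x⟯ := ⟨fun z => by
    obtain ⟨a, rfl⟩ := φ.surjective z
    exact isAlgebraic_algebraMap a⟩
  have : Algebra.IsAlgebraic k⟮x⟯ Ω := ⟨hx.alg⟩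
  have : IsAlgClosure (RatFunc k) Ω :=
    ⟨inferInstance, Algebra.IsAlgebraic.trans (RatFunc k) k⟮x⟯ Ω⟩
  let ι : L →ₐ[RatFunc k] Ω := IsAlgClosed.lift
  let _ : Algebra L Ω := ι.toRingHom.toAlgebra
  have : IsScalarTower (RatFunc k) L Ω := .of_algebraMap_eq fun c => (ι.commutes c).symm
  have hIm : Im k (RatFunc k) Ω = k⟮x⟯ := by
    refine le_antisymm ?_ (adjoin_simple_le_iff.2 ⟨RatFunc.X, hX⟩)
    rintro _ ⟨a, rfl⟩
    exact (φ a).2
  obtain ⟨ρ, r1, r2, r3⟩ := Br1.rep (k := k) (Ω := Ω) hF.conj e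
  rw [hIm, fix_adjoin] at r1 r2
  simp only [hIm, DecF_adjoin] at r3
  have hm : ∀ (W : ValuationSubring Ω) (a : RatFunc k),
      algebraMap (RatFunc k) L a ∈ W.comap (algebraMap L Ω) ↔ algebraMap (RatFunc k) Ω a ∈ W :=
    fun W a => by rw [ValuationSubring.mem_comap, ← IsScalarTower.algebraMap_apply]
  refine ⟨ρ, r1, r2, fun W hW hxW γ hγ => ?_, ?_⟩
  · obtain ⟨c, hc⟩ := hB.resid k Ω x hx W hW x hxW
    have h4 := h1 (W.comap (algebraMap L Ω)) (fun h => by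
        have h5 := (hm W (RatFunc.X - algebraMap k _ c)⁻¹).1 (h ▸ ValuationSubring.mem_top _)
        rw [map_inv₀, map_sub, hX, ← IsScalarTower.algebraMap_apply,
          ← ValuationSubring.valuation_le_one_iff, map_inv₀] at h5
        have h6 : x - algebraMap k Ω c ≠ 0 := fun h0 =>
          hx.tr (sub_eq_zero.1 h0 ▸ isAlgebraic_algebraMap c)
        exact absurd ((one_lt_inv₀ (by simpa [zero_lt_iff] using h6)).2 hc) (not_lt.2 h5))
      (fun c => (hm W _).2 (by rw [← IsScalarTower.algebraMap_apply]; exact hW.2 c))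
      (fun h => hω (h ▸ (hm W _).2 (hX.symm ▸ hxW)))
    have h5 : ρ γ ∈ ρ '' (Dec k x W : Set (Aut k Ω)) := ⟨γ, hγ, rfl⟩
    rw [← r3, h4, Subgroup.map_bot] at h5
    exact h5
  · obtain ⟨W, rfl⟩ := hB.exOver L Ω (algebraMap L Ω) η
    have hxW : x ∉ W := fun h => hω (h2 ▸ (hm W _).2 (hX.symm ▸ h))
    refine ⟨W, ⟨fun h => hxW (h ▸ ValuationSubring.mem_top _), fun c => ?_⟩, hxW,
      by rw [← r3, h3]⟩
    rw [IsScalarTower.algebraMap_apply k (RatFunc k) Ω]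
    exact (hm W _).1 (show _ ∈ (W.comap (algebraMap L Ω)).comap (algebraMap (RatFunc k) L) from
      h2 ▸ hk c)

end Pool.Agent.Lib.IW
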