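import Pool.Agent.Lib.IW.Util

/-! From a representation to a finite Galois extension of a given function field. -/

open Polynomial IntermediateField
open scoped Pointwise

namespace Pool.Agent.Lib.IW

open Pool.Agent.Lib.MP_e06174_ag Pool.Agent.Lib.MP_ba4752_ag

namespace Br2

section move

variable {k Ω : Type} [Field k] [Field Ω] [Algebra k Ω] {G : Type} [Group G]

lemma conj_Gam {x : Ω} (θ γ : Aut k Ω) : θ⁻¹ * γ * θ ∈ Gam k x ↔ γ ∈ Gam k (θ x) := by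
  change (θ⁻¹ * γ * θ) • x = x ↔ γ • θ • x = θ • x
  rw [mul_smul, mul_smul, inv_smul_eq_iff]

lemma conj_Dec {x : Ω} (W : ValuationSubring Ω) (θ γ : Aut k Ω) :
    θ⁻¹ * γ * θ ∈ Dec k x W ↔ γ ∈ Dec k (θ x) (θ • W) := by
  rw [mem_Dec, mem_Dec, mul_smul, mul_smul, inv_smul_eq_iff]
  exact and_congr_left' (conj_Gam θ γ)

lemma move (hB : StmtBas) {x : Ω} {H : Subgroup G} (h : RealAt k x G H) (θ : Aut k Ω) :
    RealAt k (θ x) G H := by
  classical
  obtain ⟨ρ, ⟨h1, S, hS⟩, h2, h3, W, hW, hx, h4⟩ := h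
  have e : ∀ γ : Aut k Ω, θ⁻¹ * (θ * γ * θ⁻¹) * θ = γ := fun γ => by group
  refine ⟨fun γ => ρ (θ⁻¹ * γ * θ), ⟨fun γ hγ δ hδ => ?_, S.image θ, fun γ hγ δ hδ h => ?_⟩,
    fun g => ?_, fun W' hW' hx' γ hγ => ?_, θ • W, (hB.smulPl k Ω W hW θ).1,
    fun h => hx (((hB.smulPl k Ω W hW θ).2.1 x).1 h), ?_⟩
  · rw [← h1 _ ((conj_Gam θ γ).2 hγ) _ ((conj_Gam θ δ).2 hδ)]
    congr 1
    group
  · refine hS _ ((conj_Gam θ γ).2 hγ) _ ((conj_Gam θ δ).2 hδ) fun s hs => ?_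
    simp only [AlgEquiv.mul_apply, h _ (Finset.mem_image_of_mem _ hs)]
  · obtain ⟨γ, hγ, rfl⟩ := h2 g
    exact ⟨θ * γ * θ⁻¹, (conj_Gam θ _).1 (by rwa [e]), by simp only [e]⟩
  · refine h3 (θ⁻¹ • W') (hB.smulPl k Ω W' hW' θ⁻¹).1 ?_ _ ((conj_Dec _ θ γ).2 (by simpa using hγ))
    simpa using ((hB.smulPl k Ω W' hW' θ⁻¹).2.1 _).2 hx'
  · rw [← h4]
    ext g
    constructor
    · rintro ⟨γ, hγ, rfl⟩
      exact ⟨_, (conj_Dec W θ γ).2 hγ, rfl⟩
    · rintro ⟨γ, hγ, rfl⟩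
      exact ⟨θ * γ * θ⁻¹, (conj_Dec W θ _).1 (by rwa [e]), by simp only [e]⟩

lemma res_id (γ : Aut k Ω) : res k (AlgHom.id k Ω) γ = γ := by
  have h : ∃ δ : Aut k Ω, ∀ y, AlgHom.id k Ω (δ y) = γ (AlgHom.id k Ω y) := ⟨γ, fun _ => rfl⟩
  rw [res, dif_pos h]
  exact AlgEquiv.ext h.choose_spec

end move

section base

variable {k K Ω : Type} [Field k] [Field K] [Algebra k K] [Field Ω] [Algebra k Ω] [Algebra K Ω]
  [IsScalarTower k K Ω]

variable (k K Ω) in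
/-- The image of `K`. -/
abbrev Im : IntermediateField k Ω := (IsScalarTower.toAlgHom k K Ω).fieldRange

lemma fix_Im {γ : Aut k Ω} : γ ∈ (Im k K Ω).fixingSubgroup ↔
    ∀ a : K, γ (algebraMap K Ω a) = algebraMap K Ω a := by
  rw [IntermediateField.mem_fixingSubgroup_iff]
  exact ⟨fun h a => h _ ⟨a, rfl⟩, fun h _ ⟨a, ha⟩ => ha ▸ h a⟩

lemma unif {v : Place k K} {W : ValuationSubring Ω} (hW : W.comap (algebraMap K Ω) = v.O) :
    (∀ a : K, a ≠ 0 → v.ord a = 0 → W.valuation (algebraMap K Ω a) = 1) ∧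
    ∀ π : K, π ≠ 0 → v.ord π = 1 → IsUnif (Im k K Ω) W (algebraMap K Ω π) := by
  have h1 : ∀ a : K, a ≠ 0 → (W.valuation (algebraMap K Ω a) ≤ 1 ↔ 0 ≤ v.ord a) := fun a ha => by
    rw [ValuationSubring.valuation_le_one_iff, ← ValuationSubring.mem_comap, hW, Place.mem_O,
      Place.ge_iff ha]
  have h2 : ∀ a : K, a ≠ 0 → (W.valuation (algebraMap K Ω a) < 1 ↔ 0 < v.ord a) := fun a ha => by
    rw [Valuation.val_lt_one_iff _ ((_root_.map_ne_zero _).2 ha), ← map_inv₀, ← not_le,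
      h1 _ (inv_ne_zero ha), Place.ord_inv]
    omega
  refine ⟨fun a ha h => le_antisymm ((h1 a ha).2 h.ge) (not_lt.1 fun h' => ((h2 a ha).1 h').ne' h),
    fun π h0 hπ => ⟨⟨π, rfl⟩, (_root_.map_ne_zero _).2 h0, (h2 π h0).2 (by omega), ?_⟩⟩
  rintro _ ⟨a, rfl⟩ ha
  rcases eq_or_ne a 0 with rfl | ha0
  · simp
  have h3 := (h2 a ha0).1 ha
  have h4 := (h1 (a / π) (div_ne_zero ha0 h0)).2 (by rw [v.ord_div ha0 h0]; omega)
  rwa [map_div₀, map_div₀, div_le_one₀ (by simpa [zero_lt_iff] using h0)] at h4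

lemma sep_of {t : K} {y : Ω} (h : IsSeparable k⟮algebraMap K Ω t⟯ y) : IsSeparable K y := by
  have hle : k⟮algebraMap K Ω t⟯ ≤ Im k K Ω := adjoin_simple_le_iff.2 ⟨t, rfl⟩
  let e : K ≃ₐ[k] Im k K Ω := (IsScalarTower.toAlgHom k K Ω).equivFieldRange
  let _ : Algebra k⟮algebraMap K Ω t⟯ K :=
    ((e.symm : Im k K Ω →ₐ[k] K).comp (inclusion hle)).toRingHom.toAlgebra
  have : IsScalarTower k⟮algebraMap K Ω t⟯ K Ω := .of_algebraMap_eq fun z =>
    (congrArg Subtype.val (e.apply_symm_apply (inclusion hle z))).symm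
  exact h.tower_top K

lemma cover [IsAlgClosure K Ω] (hC : StmtConj) {G : Type} [Group G] [Finite G] {ρ : Aut k Ω → G}
    (hρ : IsRep (Im k K Ω).fixingSubgroup ρ)
    (hs : ∀ g, ∃ γ ∈ (Im k K Ω).fixingSubgroup, ρ γ = g) {y : G → Ω} (hi : Function.Injective y)
    (hy : ∀ h, IsSeparable K (y h))
    (hγ : ∀ γ ∈ (Im k K Ω).fixingSubgroup, ∀ h, γ (y h) = y (ρ γ * h)) :
    ∃ (L : IntermediateField K Ω) (_ : FiniteDimensional K L) (_ : IsGalois K L)
      (e : (L ≃ₐ[K] L) ≃* G), ∀ W : ValuationSubring Ω,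
        ((((W.comap (algebraMap L Ω)).decompositionSubgroup K).map e.toMonoidHom : Subgroup G) :
          Set G) = ρ '' (DecF (Im k K Ω) W : Set (Aut k Ω)) := by
  have : IsAlgClosed Ω := IsAlgClosure.isAlgClosed K
  let L : IntermediateField K Ω := adjoin K (Set.range y)
  have hyL : ∀ h, y h ∈ L := fun h => subset_adjoin _ _ ⟨h, rfl⟩
  have hr : ∀ σ : Ω ≃ₐ[K] Ω, σ.restrictScalars k ∈ (Im k K Ω).fixingSubgroup := fun σ =>
    fix_Im.2 σ.commutes
  have hl : ∀ γ ∈ (Im k K Ω).fixingSubgroup, ∃ σ : Ω ≃ₐ[K] Ω, σ.restrictScalars k = γ :=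
    fun γ h => ⟨{ γ with commutes' := fix_Im.1 h }, rfl⟩
  have i1 : FiniteDimensional K L := finiteDimensional_adjoin (by
    rintro _ ⟨h, rfl⟩; exact (hy h).isIntegral)
  have i2 : Algebra.IsSeparable K L := (isSeparable_adjoin_iff_isSeparable K Ω).2 (by
    rintro _ ⟨h, rfl⟩; exact hy h)
  have i3 : Normal K L := normal_iff_forall_map_le'.2 fun σ => by
    rw [adjoin_map, adjoin_le_iff]
    rintro _ ⟨_, ⟨h, rfl⟩, rfl⟩
    exact (hγ _ (hr σ) h).symm ▸ hyL _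
  let ρ' : (Ω ≃ₐ[K] Ω) →* G := MonoidHom.mk' (fun σ => ρ (σ.restrictScalars k))
    fun σ τ => hρ.mul _ (hr σ) _ (hr τ)
  have hone : ∀ γ ∈ (Im k K Ω).fixingSubgroup, γ (y 1) = y 1 → ρ γ = 1 := fun γ h h1 => by
    rw [hγ γ h, mul_one] at h1
    exact hi h1
  have hker : (AlgEquiv.restrictNormalHom L).ker = ρ'.ker := by
    rw [restrictNormalHom_ker]
    ext σ
    rw [IntermediateField.mem_fixingSubgroup_iff]
    refine ⟨fun h => hone _ (hr σ) (h _ (hyL 1)), fun h z hz => ?_⟩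
    induction hz using adjoin_induction with
    | mem z hz =>
      obtain ⟨g, rfl⟩ := hz
      have h1 := hγ _ (hr σ) g
      rwa [show ρ (σ.restrictScalars k) = 1 from h, one_mul] at h1
    | algebraMap c => exact σ.commutes c
    | add a b _ _ ha hb => rw [map_add, ha, hb]
    | inv a _ ha => rw [map_inv₀, ha]
    | mul a b _ _ ha hb => rw [map_mul, ha, hb]
  have hs1 := AlgEquiv.restrictNormalHom_surjective (F := K) (K₁ := L) (E := Ω)
  have hs2 : Function.Surjective ρ' := fun g => by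
    obtain ⟨γ, h1, rfl⟩ := hs g
    obtain ⟨σ, rfl⟩ := hl γ h1
    exact ⟨σ, rfl⟩
  let e : (L ≃ₐ[K] L) ≃* G := (QuotientGroup.quotientKerEquivOfSurjective _ hs1).symm.trans
    ((QuotientGroup.quotientMulEquivOfEq hker).trans
      (QuotientGroup.quotientKerEquivOfSurjective _ hs2))
  have he : ∀ σ, e (AlgEquiv.restrictNormalHom L σ) = ρ (σ.restrictScalars k) := fun σ => by
    have h1 : (QuotientGroup.quotientKerEquivOfSurjective _ hs1).symm
        (AlgEquiv.restrictNormalHom L σ) = QuotientGroup.mk σ := (MulEquiv.symm_apply_eq _).2 rfl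
    simp only [e, MulEquiv.trans_apply, h1]
    rfl
  refine ⟨L, i1, IsGalois.mk, e, fun W => ?_⟩
  have hm : ∀ (σ : Ω ≃ₐ[K] Ω) (z : L), z ∈ AlgEquiv.restrictNormalHom L σ • W.comap (algebraMap L Ω) ↔
      (z : Ω) ∈ σ.restrictScalars k • W := fun σ z => by
    rw [ValuationSubring.mem_pointwise_smul_iff_inv_smul_mem,
      ValuationSubring.mem_pointwise_smul_iff_inv_smul_mem, ← map_inv, ValuationSubring.mem_comap]
    exact Iff.of_eq (congrArg (· ∈ W) (AlgEquiv.restrictNormal_commutes σ⁻¹ L z))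
  ext g
  constructor
  · rintro ⟨τ, hτ, rfl⟩
    obtain ⟨σ, rfl⟩ := hs1 τ
    obtain ⟨δ, h1, h2⟩ := hC k Ω (L.restrictScalars k)
      (fun z => (Algebra.IsAlgebraic.isAlgebraic (R := K) z).tower_top L) (σ.restrictScalars k • W) W
      fun z hz => by
        rw [← hm σ ⟨z, hz⟩, show AlgEquiv.restrictNormalHom L σ • W.comap (algebraMap L Ω) = _ from hτ]
        rfl
    rw [IntermediateField.mem_fixingSubgroup_iff] at h1
    have h3 : δ ∈ (Im k K Ω).fixingSubgroup := fix_Im.2 fun a => h1 _ (L.algebraMap_mem a)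
    refine ⟨δ * σ.restrictScalars k, ⟨mul_mem h3 (hr σ), (mul_smul _ _ _).trans h2⟩, ?_⟩
    rw [hρ.mul _ h3 _ (hr σ), hone δ h3 (h1 _ (hyL 1)), one_mul]
    exact (he σ).symm
  · rintro ⟨γ, ⟨h1, h2⟩, rfl⟩
    obtain ⟨σ, rfl⟩ := hl γ h1
    refine ⟨_, ValuationSubring.ext _ _ fun z => ?_, he σ⟩
    rw [hm, show σ.restrictScalars k • W = W from h2]
    rfl

end base

end Br2

open Br2

theorem blockBr2 (hF : Found) : StmtBr2 := by
  intro p _ k K _ _ _ _ _ _ hK ξ hξ hk G _ _ H hgen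
  set Ω := AlgebraicClosure K
  rintro ⟨x, hx, hR⟩
  have hB := hF.bas
  obtain ⟨x₀, hx₀⟩ := exists_sepCoord hK
  obtain ⟨v, rfl⟩ := hx₀.exists_place ξ hξ hk
  obtain ⟨t, j, ht, hj, hjn, hoth⟩ := hx₀.exists_single_pole v (Nat.card_pos (α := G))
  have ht0 : t ≠ 0 := by rintro rfl; simp at ht; omega
  have hT : Co k (algebraMap K Ω t) := hB.coOf k Ω x _ hx fun h => by
    have h1 := (isAlgebraic_algebraMap_iff (algebraMap K Ω).injective).1 h
    obtain ⟨c, rfl⟩ := minpoly.mem_range_of_degree_eq_one k t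
      (IsAlgClosed.degree_eq_one_of_irreducible k (minpoly.irreducible h1.isIntegral))
    rw [Place.ord_const] at ht
    omega
  obtain ⟨θ, hθ⟩ := hB.exAut k Ω x _ hx hT
  obtain ⟨ρ, hρ, hs, hU, W₁, hW₁, hx₁, hH⟩ := hθ ▸ move hB hR θ
  have hle : (Im k K Ω).fixingSubgroup ≤ Gam k (algebraMap K Ω t) := fix_le_Gam ⟨t, rfl⟩
  have hFF : FF (Im k K Ω) := by
    refine ⟨?_, _, ⟨t, rfl⟩, hT⟩
    obtain ⟨S, hS⟩ := IntermediateField.fg_top_iff.2 ‹Algebra.EssFiniteType k K›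
    classical
    refine ⟨S.image (IsScalarTower.toAlgHom k K Ω), ?_⟩
    rw [Finset.coe_image, ← adjoin_map, hS, ← AlgHom.fieldRange_eq_map]
  have hpole : ∀ W : ValuationSubring Ω, IsPl k W → algebraMap K Ω t ∉ W →
      W.comap (algebraMap K Ω) = v.O := fun W hW h => by
    obtain ⟨v', hv'⟩ := hx₀.exists_place (W.comap (algebraMap K Ω))
      (fun e => h (show t ∈ W.comap (algebraMap K Ω) from e ▸ ValuationSubring.mem_top t))
      fun c => by
        rw [ValuationSubring.mem_comap, ← IsScalarTower.algebraMap_apply]; exact hW.2 c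
    by_contra hne
    exact h (show t ∈ W.comap (algebraMap K Ω) from
      hv' ▸ Place.mem_O.2 (hoth v' fun e => hne (e ▸ hv'.symm)))
  have hpull : ∀ W : ValuationSubring Ω, IsPl k W → algebraMap K Ω t ∉ W →
      ρ '' (DecF (Im k K Ω) W : Set (Aut k Ω)) =
        ρ '' (Dec k (algebraMap K Ω t) W : Set (Aut k Ω)) := fun W hW h => by
    obtain ⟨π, h0, hπ⟩ := v.exists_ord_eq_one
    obtain ⟨h1, h2⟩ := unif (hpole W hW h)
    have h3 := (hF.pull p k k Ω Ω _ hT (AlgHom.id k Ω) _ hFF ⟨t, rfl⟩ W hW _ (h2 π h0 hπ) j hj (by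
      rw [AlgHom.id_apply, ← map_pow, ← map_mul]
      exact h1 _ (mul_ne_zero ht0 (pow_ne_zero _ h0)) (by
        rw [v.ord_mul ht0 (pow_ne_zero _ h0), Place.ord_pow, ht, hπ]; ring)) G ρ hρ hjn).2.2
    simp only [res_id] at h3
    exact h3
  have hsurj : ∀ g, ∃ γ ∈ (Im k K Ω).fixingSubgroup, ρ γ = g := fun g => by
    refine (hρ.mono hle).mem_im.1 ((Subgroup.closure_le _).2 (fun a ha => ?_)
      (show g ∈ Subgroup.normalClosure (H : Set G) from hgen ▸ Subgroup.mem_top g))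
    obtain ⟨b, hb, c, hc⟩ := Group.mem_conjugatesOfSet_iff.1 ha
    obtain ⟨δ, hδ, e⟩ := hs c
    have h1 := hB.smulPl k Ω W₁ hW₁ δ
    have h2 := hpull _ h1.1 fun h => hx₁ ((h1.2.1 _).1 (by rwa [mem_Gam.1 hδ]))
    rw [hρ.image_smul W₁ hδ, hH] at h2
    obtain ⟨γ, h3, h4⟩ : a ∈ ρ '' (DecF (Im k K Ω) (δ • W₁) : Set (Aut k Ω)) :=
      h2 ▸ ⟨b, hb, by beta_reduce; rw [e, hc.eq, mul_inv_cancel_right]⟩
    exact (hρ.mono hle).mem_im.2 ⟨γ, h3.1, h4⟩
  obtain ⟨y, hi, hy, hγ⟩ := hF.str p k Ω _ hT _ le_rfl G ρ hρ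
  obtain ⟨L, i1, i2, e, he⟩ := cover hF.conj (hρ.mono hle) hsurj hi (fun h => sep_of (hy h).1)
    fun γ h => hγ γ (hle h)
  have hcc : ∀ W : ValuationSubring Ω, (W.comap (algebraMap L Ω)).comap (algebraMap K L) =
      W.comap (algebraMap K Ω) := fun W => rfl
  refine ⟨L, inferInstance, inferInstance, i1, i2, e, fun η h1 h2 h3 => ?_,
    W₁.comap (algebraMap L Ω), (hcc _).trans (hpole _ hW₁ hx₁),
    SetLike.coe_injective ((he _).trans ((hpull _ hW₁ hx₁).trans hH))⟩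
  obtain ⟨W, rfl⟩ := hB.exOver L Ω (algebraMap L Ω) η
  have hW : IsPl k W := ⟨by rintro rfl; exact h1 rfl, fun c => by
    rw [IsScalarTower.algebraMap_apply k K Ω]; exact h2 c⟩
  have h4 : algebraMap K Ω t ∈ W := by
    by_contra h
    exact h3 ((hcc _).trans (hpole W hW h))
  refine eq_bot_iff.2 fun σ hσ => ?_
  obtain ⟨γ, h5, h6⟩ : e σ ∈ ρ '' (DecF (Im k K Ω) W : Set (Aut k Ω)) := he W ▸ ⟨σ, hσ, rfl⟩
  rw [hU W hW h4 γ ⟨hle h5.1, h5.2⟩] at h6
  exact e.map_eq_one_iff.1 h6.symm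

end Pool.Agent.Lib.IW
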