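import Pool.Agent.Lib.IW.Util

/-! Block Cert: integral certificates. -/

open Polynomial IntermediateField
open scoped Pointwise

namespace Pool.Agent.Lib.IW

namespace Cert

variable {k Ω : Type} [Field k] [Field Ω] [Algebra k Ω]

lemma ex_place (R : Subring Ω) (hk : ∀ c : k, algebraMap k Ω c ∈ R) (J : Ideal R) (hJ : J ≠ ⊤)
    (W₀ : ValuationSubring Ω) (h0 : IsPl k W₀) (hR : ∀ y ∈ R, y ∈ W₀) :
    ∃ W : ValuationSubring Ω, IsPl k W ∧ (∀ y ∈ R, y ∈ W) ∧ ∀ y ∈ J, W.valuation (y : Ω) < 1 := by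
  obtain ⟨W, h1, h2⟩ := Ideal.image_subset_nonunits_valuationSubring J hJ
  by_cases hW : W = ⊤
  · refine ⟨W₀, h0, hR, fun y hy => ?_⟩
    rcases W.mem_nonunits_iff_or.1 (h2 ⟨y, hy, rfl⟩) with h | h
    · rw [show (y : Ω) = 0 from h, map_zero]
      exact zero_lt_one
    · exact absurd (hW ▸ ValuationSubring.mem_top _) h
  · exact ⟨W, ⟨hW, fun c => h1 (hk c)⟩, fun y hy => h1 hy, fun y hy => h2 ⟨y, hy, rfl⟩⟩

lemma agr_lt {L : IntermediateField k Ω} {W W' : ValuationSubring Ω} (h : Agr L W W') {s : Ω}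
    (hs : s ∈ L) (hv : W.valuation s < 1) : W'.valuation s < 1 := by
  rcases W.mem_nonunits_iff_or.1 hv with h0 | h0
  · exact W'.mem_nonunits_iff_or.2 (Or.inl h0)
  · exact W'.mem_nonunits_iff_or.2 (Or.inr fun h1 => h0 ((h _ (inv_mem hs)).2 h1))

lemma not_both {W : ValuationSubring Ω} {s : Ω} (h1 : W.valuation s < 1)
    (h2 : W.valuation (s - 1) < 1) : False := by
  have h := W.valuation.map_sub_lt h1 h2
  rw [sub_sub_cancel, map_one] at h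
  exact lt_irrefl _ h

lemma alg_of_mem {x : Ω} (hx : Co k x) {L : IntermediateField k Ω} (hL : x ∈ L) (y : Ω) :
    IsAlgebraic L y := by
  have hle : k⟮x⟯ ≤ L := adjoin_simple_le_iff.2 hL
  obtain ⟨P, hP, hy⟩ := hx.alg y
  refine ⟨P.map (IntermediateField.inclusion hle).toRingHom,
    (Polynomial.map_ne_zero_iff (RingHom.injective _)).2 hP, ?_⟩
  rw [aeval_def, eval₂_map, ← hy, aeval_def]
  rfl

lemma inv_mem_iff (hB : StmtBas) {W : ValuationSubring Ω} (hW : IsPl k W) (γ : Aut k Ω) (y : Ω) :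
    y ∈ γ⁻¹ • W ↔ γ y ∈ W := by
  have h := (hB.smulPl k Ω W hW γ⁻¹).2.1 (γ y)
  rwa [← AlgEquiv.mul_apply, inv_mul_cancel, AlgEquiv.one_apply] at h

lemma inv_lt_iff (hB : StmtBas) {W : ValuationSubring Ω} (hW : IsPl k W) (γ : Aut k Ω) (y : Ω) :
    (γ⁻¹ • W).valuation y < 1 ↔ W.valuation (γ y) < 1 := by
  have h := (hB.smulPl k Ω W hW γ⁻¹).2.2.1 (γ y)
  rwa [← AlgEquiv.mul_apply, inv_mul_cancel, AlgEquiv.one_apply] at h

lemma intg_map (hB : StmtBas) {x y : Ω} {γ : Aut k Ω} (hγ : γ ∈ Gam k x) (hy : Intg k x y) :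
    Intg k x (γ y) := fun W hW hx =>
  (inv_mem_iff hB hW γ y).1 (hy _ (hB.smulPl k Ω W hW γ⁻¹).1
    ((inv_mem_iff hB hW γ x).2 (by rwa [mem_Gam.1 hγ])))

lemma intgInf_map (hB : StmtBas) {x y : Ω} {γ : Aut k Ω} (hγ : γ ∈ Gam k x)
    (hy : IntgInf k x y) : IntgInf k x (γ y) := fun W hW hx =>
  (inv_mem_iff hB hW γ y).1 (hy _ (hB.smulPl k Ω W hW γ⁻¹).1
    fun h => hx (by rwa [inv_mem_iff hB hW γ x, mem_Gam.1 hγ] at h))

lemma sep_map {x : Ω} {γ : Aut k Ω} (hγ : γ ∈ Gam k x) {y : Ω} (hy : IsSeparable k⟮x⟯ y) :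
    IsSeparable k⟮x⟯ (γ y) := by
  rw [← fix_adjoin] at hγ
  exact (AlgEquiv.isSeparable_iff (IntermediateField.fixingSubgroupEquiv k⟮x⟯ ⟨γ, hγ⟩)).2 hy

variable (k) in
/-- Elements integral on the affine line. -/
def RI (x : Ω) : Subring Ω where
  carrier := {y | Intg k x y}
  mul_mem' := fun ha hb W hW hx => mul_mem (ha W hW hx) (hb W hW hx)
  add_mem' := fun ha hb W hW hx => add_mem (ha W hW hx) (hb W hW hx)
  one_mem' := fun W _ _ => one_mem W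
  zero_mem' := fun W _ _ => zero_mem W
  neg_mem' := fun ha W hW hx => neg_mem (ha W hW hx)

variable (k) in
/-- Elements integral at infinity. -/
def RInf (x : Ω) : Subring Ω where
  carrier := {y | IntgInf k x y}
  mul_mem' := fun ha hb W hW hx => mul_mem (ha W hW hx) (hb W hW hx)
  add_mem' := fun ha hb W hW hx => add_mem (ha W hW hx) (hb W hW hx)
  one_mem' := fun W _ _ => one_mem W
  zero_mem' := fun W _ _ => zero_mem W
  neg_mem' := fun ha W hW hx => neg_mem (ha W hW hx)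

variable {G : Type} [Group G] {x : Ω} {ρ : Aut k Ω → G} {L : IntermediateField k Ω}

lemma same (h : IsRep (Gam k x) ρ)
    (hL : ∀ γ : Aut k Ω, γ ∈ L.fixingSubgroup ↔ γ ∈ Gam k x ∧ ρ γ = 1) {γ δ : Aut k Ω}
    (hγ : γ ∈ Gam k x) (hδ : δ ∈ Gam k x) (e : ρ γ = ρ δ) {s : Ω} (hs : s ∈ L) : γ s = δ s := by
  have h1 : δ⁻¹ * γ ∈ L.fixingSubgroup := (hL _).2 ⟨mul_mem (inv_mem hδ) hγ, by
    rw [h.mul _ (inv_mem hδ) _ hγ, h.inv hδ, e, inv_mul_cancel]⟩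
  have h2 := congrArg δ ((IntermediateField.mem_fixingSubgroup_iff L _).1 h1 s hs)
  rwa [← AlgEquiv.mul_apply, mul_inv_cancel_left] at h2

lemma agr_dec [IsAlgClosed Ω] (hC : StmtConj) (hx : Co k x) (h : IsRep (Gam k x) ρ) (hxL : x ∈ L)
    (hL : ∀ γ : Aut k Ω, γ ∈ L.fixingSubgroup ↔ γ ∈ Gam k x ∧ ρ γ = 1)
    {W W₁ : ValuationSubring Ω} {γ : Aut k Ω} (hγ : γ ∈ Gam k x) (h1 : Agr L W₁ W)
    (h2 : Agr L (γ⁻¹ • W₁) W) : ∃ δ ∈ Dec k x W, ρ δ = ρ γ := by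
  obtain ⟨δ₁, hδ₁, e₁⟩ := hC k Ω L (alg_of_mem hx hxL) _ _ h1
  obtain ⟨δ₂, hδ₂, e₂⟩ := hC k Ω L (alg_of_mem hx hxL) _ _ h2
  obtain ⟨a₁, b₁⟩ := (hL _).1 hδ₁
  obtain ⟨a₂, b₂⟩ := (hL _).1 hδ₂
  refine ⟨δ₁ * γ * δ₂⁻¹, mem_Dec.2 ⟨mem_Gam.1 (mul_mem (mul_mem a₁ hγ) (inv_mem a₂)), ?_⟩, ?_⟩
  · conv_lhs => rw [← e₂]
    rw [mul_smul, mul_smul, inv_smul_smul, smul_inv_smul, e₁]
  · rw [h.mul _ (mul_mem a₁ hγ) _ (inv_mem a₂), h.mul _ a₁ _ hγ, h.inv a₂, b₁, b₂]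
    simp

lemma sep_unr [IsAlgClosed k] [IsAlgClosed Ω] (hC : StmtConj) (hB : StmtBas) (hU : StmtUnif)
    (hx : Co k x) (h : IsRep (Gam k x) ρ) (hu : Unr x ρ) (hfg : L.FG) (hxL : x ∈ L)
    (hL : ∀ γ : Aut k Ω, γ ∈ L.fixingSubgroup ↔ γ ∈ Gam k x ∧ ρ γ = 1)
    {W : ValuationSubring Ω} (hW : IsPl k W) (hxW : x ∈ W) (T : Finset (Aut k Ω))
    (hT : ∀ γ ∈ T, γ ∈ Gam k x ∧ ρ γ ≠ 1) : ∃ s ∈ L, Intg k x s ∧ W.valuation (s - 1) < 1 ∧
      ∀ γ ∈ T, W.valuation (γ s) < 1 := by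
  classical
  obtain ⟨s, hs, h1, h2, h3⟩ := hU.sepp k Ω x hx L hfg hxL W (T.image fun γ => γ⁻¹ • W) hW hxW (by
    intro W' hW'
    obtain ⟨γ, hγ, rfl⟩ := Finset.mem_image.1 hW'
    refine ⟨(hB.smulPl k Ω W hW γ⁻¹).1, (inv_mem_iff hB hW γ x).2 (by
      rwa [mem_Gam.1 (hT γ hγ).1]), fun ha => ?_⟩
    obtain ⟨δ, hδ, e⟩ := agr_dec hC hx h hxL hL (hT γ hγ).1 (fun _ _ => Iff.rfl) ha
    exact (hT γ hγ).2 (e ▸ hu W hW hxW δ hδ))
  exact ⟨s, hs, h1, h2, fun γ hγ =>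
    (inv_lt_iff hB hW γ s).1 (h3 _ (Finset.mem_image_of_mem _ hγ))⟩

lemma ex_fin (hB : StmtBas) (hx : Co k x) : ∃ W : ValuationSubring Ω, IsPl k W ∧ x ∈ W := by
  obtain ⟨W, hW, h⟩ := hB.exAt k Ω x hx 0
  rw [map_zero, sub_zero] at h
  exact ⟨W, hW, (W.valuation_le_one_iff x).1 h.le⟩

end Cert

open Cert in
theorem blockCert (hC : StmtConj) (hB : StmtBas) (hG : StmtGal) (hL : StmtFld) (hU : StmtUnif) :
    StmtCert := by
  classical
  refine ⟨?_, ?_, ?_⟩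
  · intro p _ k Ω _ _ _ _ _ _ x hx G _ _ ρ h hu
    obtain ⟨L, hfg, hxL, hsep, -, hfix, -⟩ := hL.fld p k Ω x hx G ρ h
    have := Fintype.ofFinite h.im
    choose! σ hσ hσ' using fun g (hg : g ∈ h.im) => h.mem_im.1 hg
    have hmul : ∀ γ ∈ Gam k x, ∀ g ∈ h.im, ∀ s ∈ L, γ (σ g s) = σ (ρ γ * g) s := by
      intro γ hγ g hg s hs
      have h1 : ρ γ * g ∈ h.im := mul_mem (h.mem_im.2 ⟨γ, hγ, rfl⟩) hg
      refine same h hfix (mul_mem hγ (hσ g hg)) (hσ _ h1) ?_ hs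
      rw [h.mul _ hγ _ (hσ g hg), hσ' g hg, hσ' _ h1]
    let R : Subalgebra k Ω := Algebra.adjoin k {x}
    have hR : ∀ y ∈ R, y ∈ L ∧ Intg k x y ∧ ∀ γ ∈ Gam k x, γ y = y := fun y hy => by
      have h1 : y ∈ k⟮x⟯ := IntermediateField.algebra_adjoin_le_adjoin k {x} hy
      refine ⟨adjoin_simple_le_iff.2 hxL h1,
        (hB.intg k Ω x y).2 (isIntegral_algebraMap (x := (⟨y, hy⟩ : R))), fun γ hγ => ?_⟩
      rw [← fix_adjoin] at hγ
      exact (IntermediateField.mem_fixingSubgroup_iff _ _).1 hγ y h1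
    let J : Ideal R.toSubring :=
      { carrier := {y | ∃ s ∈ L, Intg k x s ∧ (y : Ω) = ∑ g : h.im, σ g s}
        zero_mem' := ⟨0, zero_mem L, (RI k x).zero_mem, by simp⟩
        add_mem' := by
          rintro a b ⟨s, hs, hs1, hs2⟩ ⟨s', hs', hs1', hs2'⟩
          refine ⟨s + s', add_mem hs hs', (RI k x).add_mem hs1 hs1', ?_⟩
          simp [hs2, hs2', Finset.sum_add_distrib]
        smul_mem' := by
          rintro c a ⟨s, hs, hs1, hs2⟩
          refine ⟨c * s, mul_mem (hR c c.2).1 hs, (RI k x).mul_mem (hR c c.2).2.1 hs1, ?_⟩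
          rw [smul_eq_mul, Subring.coe_mul, hs2, Finset.mul_sum]
          refine Finset.sum_congr rfl fun g _ => ?_
          rw [map_mul, (hR c c.2).2.2 _ (hσ g g.2)] }
    have hJ : J = ⊤ := by
      by_contra hJ
      obtain ⟨W₀, hW₀, hx₀⟩ := ex_fin hB hx
      obtain ⟨W, hW, hRW, hJW⟩ := ex_place R.toSubring (fun c => R.algebraMap_mem c) J hJ W₀ hW₀
        fun y hy => (hR y hy).2.1 W₀ hW₀ hx₀
      have hxW : x ∈ W := hRW x (Algebra.self_mem_adjoin_singleton k x)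
      obtain ⟨s, hs, h1, h2, h3⟩ := sep_unr hC hB hU hx h hu hfg hxL hfix hW hxW
        ((Finset.univ.erase (1 : h.im)).image fun g : h.im => σ g) (by
          intro γ hγ
          obtain ⟨g, hg, rfl⟩ := Finset.mem_image.1 hγ
          refine ⟨hσ g g.2, ?_⟩
          rw [hσ' g g.2]
          exact fun e => (Finset.mem_erase.1 hg).1 (Subtype.ext e))
      have h4 : ∑ g : h.im, σ g s ∈ k⟮x⟯ := by
        refine hG.sep k Ω k⟮x⟯ hx.alg _ ((separableClosure k⟮x⟯ Ω).sum_mem fun g _ =>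
          sep_map (hσ g g.2) (hsep s hs)) fun γ hγ => ?_
        rw [fix_adjoin] at hγ
        rw [map_sum, ← Equiv.sum_comp (Equiv.mulLeft (⟨ρ γ, h.mem_im.2 ⟨γ, hγ, rfl⟩⟩ : h.im))
          fun g : h.im => σ g s]
        exact Finset.sum_congr rfl fun g _ => hmul γ hγ g g.2 s hs
      obtain ⟨P, hP⟩ := hB.intgPoly k Ω x _ hx.tr
        ((RI k x).sum_mem fun (g : h.im) _ => intg_map hB (hσ g g.2) h1) h4
      have h5 : ∑ g : h.im, σ g s ∈ R := by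
        rw [hP]
        exact aeval_mem_adjoin_singleton k x
      refine not_both (hJW ⟨_, h5⟩ ⟨s, hs, h1, rfl⟩) ?_
      have h6 : σ ((1 : h.im) : G) s = s :=
        same h hfix (hσ _ (1 : h.im).2) (one_mem _) (by rw [hσ' _ (1 : h.im).2, h.one]; rfl) hs
      change W.valuation (∑ g : h.im, σ g s - 1) < 1
      rw [← Finset.add_sum_erase _ _ (Finset.mem_univ (1 : h.im)), h6, add_sub_right_comm]
      exact W.valuation.map_add_lt h2 (W.valuation.map_sum_lt one_ne_zero fun g hg =>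
        h3 _ (Finset.mem_image_of_mem _ hg))
    obtain ⟨s, hs, h1, h2⟩ : (1 : R.toSubring) ∈ J := hJ ▸ Submodule.mem_top
    refine ⟨fun g => if g ∈ h.im then σ g s else 0, fun g => ?_, fun γ hγ g => ?_, ?_⟩
    · beta_reduce
      split_ifs with hg
      · exact intg_map hB (hσ g hg) h1
      · exact (RI k x).zero_mem
    · have h3 : ρ γ * g ∈ h.im ↔ g ∈ h.im :=
        Subgroup.mul_mem_cancel_left _ (h.mem_im.2 ⟨γ, hγ, rfl⟩)
      by_cases hg : g ∈ h.im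
      · simp only [hg, h3, if_true]
        exact hmul γ hγ g hg s hs
      · simp only [hg, h3, if_false, map_zero]
    · rw [← finsum_subtype_eq_finsum_cond, finsum_eq_sum_of_fintype]
      refine Eq.trans (Finset.sum_congr rfl fun g _ => if_pos g.2) h2.symm
  · intro p _ k Ω _ _ _ _ _ _ x hx G _ _ ρ h hu γ hγ hne
    obtain ⟨L, hfg, hxL, hsep, -, hfix, -⟩ := hL.fld p k Ω x hx G ρ h
    let S : Set (RI k x) := {y | ∃ s ∈ L, Intg k x s ∧ (y : Ω) = s - γ s}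
    have hJ : Ideal.span S = ⊤ := by
      by_contra hJ
      obtain ⟨W₀, hW₀, hx₀⟩ := ex_fin hB hx
      obtain ⟨W, hW, hRW, hJW⟩ := ex_place (RI k x) (fun c W hW _ => hW.2 c) _ hJ W₀ hW₀
        fun y hy => hy W₀ hW₀ hx₀
      have hxW : x ∈ W := hRW x fun _ _ h => h
      obtain ⟨s, hs, h1, h2, h3⟩ := sep_unr hC hB hU hx h hu hfg hxL hfix hW hxW {γ} (by
        intro δ hδ
        rw [Finset.mem_singleton.1 hδ]
        exact ⟨hγ, hne⟩)
      refine not_both (hJW ⟨_, (RI k x).sub_mem h1 (intg_map hB hγ h1)⟩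
        (Ideal.subset_span ⟨s, hs, h1, rfl⟩)) ?_
      change W.valuation (s - γ s - 1) < 1
      rw [sub_right_comm]
      exact W.valuation.map_sub_lt h2 (h3 γ (Finset.mem_singleton_self γ))
    obtain ⟨n, f, g, hfg'⟩ := Submodule.mem_span_set'.1 ((Ideal.eq_top_iff_one _).1 hJ)
    choose s hs hs1 hs2 using fun i => (g i).2
    refine ⟨n, fun i => f i, s, fun i => (f i).2, fun i => ⟨hs1 i, hsep _ (hs i), fun δ hδ e =>
      (IntermediateField.mem_fixingSubgroup_iff L _).1 ((hfix δ).2 ⟨hδ, e⟩) _ (hs i)⟩, ?_⟩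
    have h4 := congrArg Subtype.val hfg'
    simpa [hs2] using h4
  · intro p _ k Ω _ _ _ _ _ _ x hx G _ _ ρ h W hW hxW
    obtain ⟨L, hfg, hxL, hsep, -, hfix, -⟩ := hL.fld p k Ω x hx G ρ h
    obtain ⟨T, hT1, -, hT2⟩ := hU.fin k Ω L ⟨hfg, x, hxL, hx⟩ x hxL
    obtain ⟨s, hs, h1, h2, h3⟩ := hU.sepp k Ω x⁻¹ (co_inv hB hx) L hfg (inv_mem hxL) W
      (T.filter fun W' => ¬ Agr L W' W) hW ((W.mem_or_inv_mem x).resolve_left hxW) (by
        intro W' hW'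
        obtain ⟨a, b⟩ := Finset.mem_filter.1 hW'
        exact ⟨(hT1 W' a).1, (W'.mem_or_inv_mem x).resolve_left (hT1 W' a).2, b⟩)
    have hθ : IntgInf k x (s - 1) := fun W' hW' hx' =>
      sub_mem (h1 W' hW' ((W'.mem_or_inv_mem x).resolve_left hx')) (one_mem W')
    have hagr : ∀ W' : ValuationSubring Ω, IsPl k W' → x ∉ W' → W'.valuation (s - 1) < 1 →
        Agr L W' W := fun W' hW' hx' hv => by
      by_contra hn
      obtain ⟨W'', a, b⟩ := hT2 W' hW' hx'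
      have h4 := h3 W'' (Finset.mem_filter.2 ⟨a, fun c => hn fun y hy => (b y hy).trans (c y hy)⟩)
      exact not_both (agr_lt (fun y hy => (b y hy).symm) hs h4) hv
    refine ⟨s - 1, hsep _ (sub_mem hs (one_mem L)), fun δ hδ e =>
      (IntermediateField.mem_fixingSubgroup_iff L _).1 ((hfix δ).2 ⟨hδ, e⟩) _
        (sub_mem hs (one_mem L)), hθ, h2, fun γ hγ hne => ?_⟩
    let θ₁ : RInf k x := ⟨s - 1, hθ⟩
    let θ₂ : RInf k x := ⟨γ (s - 1), intgInf_map hB hγ hθ⟩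
    have hJ : Ideal.span {θ₁, θ₂} = ⊤ := by
      by_contra hJ
      obtain ⟨W₁, hW₁, hRW, hJW⟩ := ex_place (RInf k x) (fun c W hW _ => hW.2 c) _ hJ W hW
        fun y hy => hy W hW hxW
      have hx₁ : x ∉ W₁ := fun hx₁ => by
        obtain ⟨c, hc⟩ := hB.resid k Ω x hx W₁ hW₁ x hx₁
        rcases W₁.mem_nonunits_iff_or.1 hc with h0 | h0
        · exact hxW (sub_eq_zero.1 h0 ▸ hW.2 c)
        · refine h0 (hRW _ fun W' hW' hx' => (W'.mem_or_inv_mem _).resolve_left fun h5 => hx' ?_)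
          simpa using add_mem h5 (hW'.2 c)
      have a₁ := hagr W₁ hW₁ hx₁ (hJW θ₁ (Ideal.subset_span (by simp)))
      have a₂ := hagr (γ⁻¹ • W₁) (hB.smulPl k Ω W₁ hW₁ γ⁻¹).1
        (fun h5 => hx₁ (by rwa [inv_mem_iff hB hW₁ γ x, mem_Gam.1 hγ] at h5))
        ((inv_lt_iff hB hW₁ γ _).2 (hJW θ₂ (Ideal.subset_span (by simp))))
      obtain ⟨δ, hδ, e⟩ := agr_dec hC hx h hxL hfix hγ a₁ a₂
      exact hne δ hδ e
    obtain ⟨a, b, hab⟩ := Ideal.mem_span_pair.1 ((Ideal.eq_top_iff_one _).1 hJ)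
    exact ⟨a, b, a.2, b.2, congrArg Subtype.val hab⟩

end Pool.Agent.Lib.IW
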