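import Pool.Agent.Lib.IW.Util

/-! Reduction at a Gauss point shows that `k(x)` is algebraically closed in `E`. -/

open Polynomial IntermediateField

namespace Pool.Agent.Lib.IW

namespace Cin

variable {k Ω' : Type} [Field k] [Field Ω'] [Algebra k Ω'] {O : ValuationSubring Ω'}

lemma val_const (hc : ∀ c : k, algebraMap k Ω' c ∈ O) {c : k} (h : c ≠ 0) :
    O.valuation (algebraMap k Ω' c) = 1 := by
  have h1 := (O.valuation_le_one_iff _).2 (hc c)
  have h2 := (O.valuation_le_one_iff _).2 (hc c⁻¹)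
  have h0 : O.valuation (algebraMap k Ω' c) ≠ 0 := by simpa using h
  rw [map_inv₀, map_inv₀, inv_le_one₀ (zero_lt_iff.2 h0)] at h2
  exact le_antisymm h1 h2

lemma val_aeval [IsAlgClosed k] (hc : ∀ c : k, algebraMap k Ω' c ∈ O) {z : Ω'}
    (hz : ∀ a : k, O.valuation (z - algebraMap k Ω' a) = 1) {P : k[X]} (hP : P ≠ 0) :
    O.valuation (aeval z P) = 1 := by
  rw [(IsAlgClosed.splits P).eq_prod_roots, map_mul, map_mul, aeval_C,
    val_const hc (leadingCoeff_ne_zero.2 hP), one_mul, map_multiset_prod, map_multiset_prod,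
    Multiset.map_map, Multiset.map_map]
  refine Multiset.prod_eq_one fun y hy => ?_
  obtain ⟨a, -, rfl⟩ := Multiset.mem_map.1 hy
  simpa using hz a

lemma val_pow_sub {a b : Ω'} (ha : O.valuation a ≤ 1) (hb : O.valuation b ≤ 1)
    (h : O.valuation (a - b) < 1) (n : ℕ) : O.valuation (a ^ n - b ^ n) < 1 := by
  induction n with
  | zero => simp
  | succ n ih =>
    have e : a ^ (n + 1) - b ^ (n + 1) = a * (a ^ n - b ^ n) + b ^ n * (a - b) := by ring
    rw [e]
    refine O.valuation.map_add_lt ?_ ?_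
    · rw [map_mul]
      exact lt_of_le_of_lt (mul_le_of_le_one_left' ha) ih
    · rw [map_mul, map_pow]
      exact lt_of_le_of_lt (mul_le_of_le_one_left' (pow_le_one' hb n)) h

lemma val_aeval_sub (hc : ∀ c : k, algebraMap k Ω' c ∈ O) {a b : Ω'} (ha : O.valuation a ≤ 1)
    (hb : O.valuation b ≤ 1) (h : O.valuation (a - b) < 1) (P : k[X]) :
    O.valuation (aeval a P - aeval b P) < 1 := by
  induction P using Polynomial.induction_on' with
  | add P Q hP hQ =>
    have e : aeval a (P + Q) - aeval b (P + Q) =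
        (aeval a P - aeval b P) + (aeval a Q - aeval b Q) := by
      rw [map_add, map_add]; ring
    rw [e]
    exact O.valuation.map_add_lt hP hQ
  | monomial n c =>
    rw [aeval_monomial, aeval_monomial, ← mul_sub, map_mul]
    exact lt_of_le_of_lt (mul_le_of_le_one_left' ((O.valuation_le_one_iff _).2 (hc c)))
      (val_pow_sub ha hb h n)

lemma val_aeval_le [IsAlgClosed k] (hc : ∀ c : k, algebraMap k Ω' c ∈ O) {z : Ω'}
    (hz : ∀ a : k, O.valuation (z - algebraMap k Ω' a) = 1) (P : k[X]) :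
    O.valuation (aeval z P) ≤ 1 := by
  by_cases hP : P = 0
  · simp [hP]
  · exact (val_aeval hc hz hP).le

lemma val_eq_of_sub {a b : Ω'} (hb : O.valuation b = 1) (h : O.valuation (a - b) < 1) :
    O.valuation a = 1 := by
  have := O.valuation.map_add_eq_of_lt_left (x := b) (y := a - b) (hb ▸ h)
  rwa [add_sub_cancel, hb] at this

lemma val_frac_sub [IsAlgClosed k] (hc : ∀ c : k, algebraMap k Ω' c ∈ O) {a b : Ω'}
    (hb : ∀ c : k, O.valuation (b - algebraMap k Ω' c) = 1) (h : O.valuation (a - b) < 1)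
    (P : k[X]) {Q : k[X]} (hQ : Q ≠ 0) :
    O.valuation (aeval a P / aeval a Q - aeval b P / aeval b Q) < 1 := by
  have hb1 : O.valuation b = 1 := by simpa using hb 0
  have ha1 := val_eq_of_sub hb1 h
  have h1 := val_aeval hc hb hQ
  have h2 := val_aeval_sub hc ha1.le hb1.le h Q
  have h3 := val_eq_of_sub h1 h2
  have h4 := val_aeval_sub hc ha1.le hb1.le h P
  have n1 : aeval b Q ≠ 0 := fun e => by simp [e] at h1
  have n2 : aeval a Q ≠ 0 := fun e => by simp [e] at h3
  have e : aeval a P / aeval a Q - aeval b P / aeval b Q =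
      ((aeval a P - aeval b P) * aeval b Q - aeval b P * (aeval a Q - aeval b Q)) /
        (aeval a Q * aeval b Q) := by
    field_simp
    ring
  rw [e, map_div₀, map_mul, h1, h3, mul_one, div_one]
  refine O.valuation.map_sub_lt ?_ ?_
  · rw [map_mul, h1, mul_one]
    exact h4
  · rw [map_mul]
    exact lt_of_le_of_lt (mul_le_of_le_one_left' (val_aeval_le hc hb P)) h2

variable {Ω : Type} [Field Ω] [Algebra k Ω]

lemma not_lt_of_alg {K F : IntermediateField k Ω} (hKF : K ≤ F) (φ : F →ₐ[k] Ω')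
    (hK : ∀ y : F, (y : Ω) ∈ K → y ≠ 0 → O.valuation (φ y) = 1) (s : F) (hs : s ≠ 0)
    (ha : IsAlgebraic K (s : Ω)) : ¬ O.valuation (φ s) < 1 := by
  intro hlt
  have hs' : (s : Ω) ≠ 0 := fun h => hs (Subtype.ext h)
  have h0 := minpoly.coeff_zero_ne_zero ha.isIntegral hs'
  have h1 := minpoly.aeval K (s : Ω)
  set f := minpoly K (s : Ω)
  let a : ℕ → F := fun i => ⟨f.coeff i, hKF (f.coeff i).2⟩
  have h2 : ∑ i ∈ Finset.range (f.natDegree + 1), a i * s ^ i = 0 := by
    apply F.val.injective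
    rw [aeval_eq_sum_range] at h1
    rw [map_sum, map_zero, ← h1]
    refine Finset.sum_congr rfl fun i _ => ?_
    rw [map_mul, map_pow, Algebra.smul_def]
    rfl
  have h3 := congrArg φ h2
  rw [Finset.sum_range_succ', map_add, map_zero, pow_zero, mul_one, map_sum,
    add_eq_zero_iff_eq_neg] at h3
  have h4 : O.valuation (φ (a 0)) = 1 :=
    hK _ (f.coeff 0).2 fun h => h0 (Subtype.ext (congrArg (fun y : F => (y : Ω)) h))
  have h5 : O.valuation (∑ i ∈ Finset.range f.natDegree, φ (a (i + 1) * s ^ (i + 1))) < 1 := by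
    refine O.valuation.map_sum_lt one_ne_zero fun i _ => ?_
    rw [map_mul, map_mul, map_pow, map_pow]
    have h6 : O.valuation (φ (a (i + 1))) ≤ 1 := by
      by_cases h : a (i + 1) = 0
      · simp [h]
      · exact (hK _ (f.coeff (i + 1)).2 h).le
    exact lt_of_le_of_lt (mul_le_of_le_one_left' h6) (pow_lt_one' hlt (Nat.succ_ne_zero i))
  rw [h3, Valuation.map_neg, h4] at h5
  exact lt_irrefl _ h5

end Cin

open Cin in
theorem blockCin (_hB : StmtBas) : StmtCin := by
  intro k 𝕜 Ω Ω' _ _ _ _ _ _ _ _ _ _ σ E0 E1 E2 O hP x hx ι E hxE j hj c hc hclose s hs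
  let F : IntermediateField k Ω := (E.restrictScalars k).comap ι
  let φ : F →ₐ[k] Ω' :=
    { toFun := fun y => j ⟨ι y, y.2⟩
      map_one' := by rw [← map_one j]; congr 1; exact Subtype.ext (map_one ι)
      map_zero' := by rw [← map_zero j]; congr 1; exact Subtype.ext (map_zero ι)
      map_mul' := fun a b => by rw [← map_mul j]; congr 1; exact Subtype.ext (map_mul ι _ _)
      map_add' := fun a b => by rw [← map_add j]; congr 1; exact Subtype.ext (map_add ι _ _)
      commutes' := fun a => by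
        rw [IsScalarTower.algebraMap_apply k 𝕜 Ω', ← j.commutes]
        congr 1
        refine Subtype.ext ?_
        change ι (algebraMap k Ω a) = algebraMap 𝕜 Ω' (algebraMap k 𝕜 a)
        rw [ι.commutes, ← IsScalarTower.algebraMap_apply] }
  have hxF : x ∈ F := hxE
  have hKF : k⟮x⟯ ≤ F := adjoin_simple_le_iff.2 hxF
  let xF : F := ⟨x, hxF⟩
  have hσ : ∀ a : k, O.valuation (σ - algebraMap k Ω' a) = 1 := fun a => by
    have := hP.gauss (algebraMap k 𝕜 a) (by
      rw [← IsScalarTower.algebraMap_apply]; exact hP.const a)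
    rwa [← IsScalarTower.algebraMap_apply] at this
  have hc1 := val_const hP.const hc
  have hc0 : algebraMap k Ω' c ≠ 0 := by simpa using hc
  have hξ : O.valuation (φ xF - algebraMap k Ω' c * σ) < 1 := hclose
  have hξ1 : ∀ a : k, O.valuation (φ xF - algebraMap k Ω' a) = 1 := fun a => by
    have h1 : O.valuation (algebraMap k Ω' c * σ - algebraMap k Ω' a) = 1 := by
      have e : algebraMap k Ω' c * σ - algebraMap k Ω' a =
          algebraMap k Ω' c * (σ - algebraMap k Ω' (a / c)) := by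
        rw [map_div₀]; field_simp
      rw [e, map_mul, hc1, hσ, one_mul]
    refine val_eq_of_sub h1 ?_
    rwa [sub_sub_sub_cancel_right]
  have hcoe : ∀ (y : F) (P : k[X]), ((aeval y P : F) : Ω) = aeval (y : Ω) P := fun y P =>
    (aeval_algHom_apply F.val y P).symm
  have hK : ∀ y : F, (y : Ω) ∈ k⟮x⟯ → y ≠ 0 → O.valuation (φ y) = 1 := by
    intro y hy hy0
    obtain ⟨P, Q, e⟩ := (mem_adjoin_simple_iff k (y : Ω)).1 hy
    have e' : y = aeval xF P / aeval xF Q := by
      refine Subtype.ext ?_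
      rw [IntermediateField.coe_div, hcoe, hcoe]
      exact e
    have hP0 : P ≠ 0 := by rintro rfl; exact hy0 (by simp [e'])
    have hQ0 : Q ≠ 0 := by rintro rfl; exact hy0 (by simp [e'])
    rw [e', map_div₀, map_div₀, ← aeval_algHom_apply φ, ← aeval_algHom_apply φ,
      val_aeval hP.const hξ1 hP0, val_aeval hP.const hξ1 hQ0, div_one]
  have hnl : ∀ y : F, y ≠ 0 → ¬ O.valuation (φ y) < 1 := fun y hy =>
    not_lt_of_alg hKF φ hK y hy (hx.alg _)
  let sF : F := ⟨s, hs⟩
  have hsO : φ sF ∈ O := by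
    by_cases h0 : sF = 0
    · rw [h0, map_zero]; exact O.zero_mem
    · rw [← O.valuation_le_one_iff]
      have h1 := hnl _ (inv_ne_zero h0)
      have h2 : O.valuation (φ sF) ≠ 0 := by simpa using h0
      rw [map_inv₀, map_inv₀, not_lt, one_le_inv₀ (zero_lt_iff.2 h2)] at h1
      exact h1
  obtain ⟨P, Q, hQ, hres⟩ := hP.res (φ sF) (hj _) hsO
  let u : F := xF / algebraMap k F c
  have hu : O.valuation (φ u - σ) < 1 := by
    have e : φ u - σ = (φ xF - algebraMap k Ω' c * σ) / algebraMap k Ω' c := by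
      rw [map_div₀, φ.commutes]; field_simp
    rwa [e, map_div₀, hc1, div_one]
  have h1 := val_frac_sub hP.const hσ hu P hQ
  have h2 : sF - aeval u P / aeval u Q = 0 := by
    by_contra h
    refine hnl _ h ?_
    have := O.valuation.map_sub_lt hres h1
    rwa [sub_sub_sub_cancel_right, aeval_algHom_apply, aeval_algHom_apply, ← map_div₀,
      ← map_sub] at this
  have h3 : s = aeval (u : Ω) P / aeval (u : Ω) Q := by
    rw [← hcoe, ← hcoe, ← IntermediateField.coe_div, ← sub_eq_zero.1 h2]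
  have hu' : (u : Ω) ∈ k⟮x⟯ :=
    div_mem (mem_adjoin_simple_self k x) (IntermediateField.algebraMap_mem _ c)
  have hle : k⟮(u : Ω)⟯ ≤ k⟮x⟯ := adjoin_simple_le_iff.2 hu'
  exact hle ((mem_adjoin_simple_iff k s).2 ⟨P, Q, h3⟩)

end Pool.Agent.Lib.IW
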