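import Pool.Agent.Lib.IW.Util

/-! Conjugacy of the extensions of a valuation ring to an algebraic closure. -/

open Polynomial IntermediateField
open scoped Pointwise

namespace Pool.Agent.Lib.IW

namespace Conj

variable (K : Type) {Ω : Type} [Field K] [Field Ω] [Algebra K Ω]

/-- agreement on the base field -/
def Ag (W U : ValuationSubring Ω) : Prop := ∀ x : K, algebraMap K Ω x ∈ U ↔ algebraMap K Ω x ∈ W

/-- the intersection of all extensions -/
def BB (W : ValuationSubring Ω) : Subring Ω where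
  carrier := {y | ∀ U : ValuationSubring Ω, Ag K W U → y ∈ U}
  mul_mem' := fun ha hb U hU => U.mul_mem _ _ (ha U hU) (hb U hU)
  one_mem' := fun U _ => U.one_mem
  add_mem' := fun ha hb U hU => U.add_mem _ _ (ha U hU) (hb U hU)
  zero_mem' := fun U _ => U.zero_mem
  neg_mem' := fun ha U hU => U.neg_mem _ (ha U hU)

variable {K}

lemma lt_iff (U : ValuationSubring Ω) (y : Ω) : U.valuation y < 1 ↔ y = 0 ∨ y⁻¹ ∉ U := by
  rcases eq_or_ne y 0 with rfl | hy
  · simp
  rw [← U.valuation_le_one_iff, map_inv₀, not_le,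
    one_lt_inv₀ (zero_lt_iff.2 ((Valuation.ne_zero_iff _).2 hy))]
  simp [hy]

lemma Ag.smul {W U : ValuationSubring Ω} (h : Ag K W U) (σ : Ω ≃ₐ[K] Ω) : Ag K W (σ • U) :=
  fun x => by
    rw [ValuationSubring.mem_pointwise_smul_iff_inv_smul_mem, ← h x, AlgEquiv.smul_def,
      AlgEquiv.commutes]

instance (W : ValuationSubring Ω) : IsInvariantSubring (Ω ≃ₐ[K] Ω) (BB K W) where
  smul_mem σ _ hx U hU := by
    have := hx _ (hU.smul σ⁻¹)
    rwa [ValuationSubring.mem_pointwise_smul_iff_inv_smul_mem, inv_inv] at this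

lemma le_of_centre [Algebra.IsAlgebraic K Ω] {W V V' : ValuationSubring Ω} (hV : Ag K W V)
    (hV' : Ag K W V') (h : ∀ b ∈ BB K W, V'.valuation b < 1 → V.valuation b < 1) : V ≤ V' := by
  classical
  intro y hy
  rcases eq_or_ne y 0 with rfl | hy0
  · exact V'.zero_mem
  obtain ⟨p, hp0, hp⟩ := Algebra.IsAlgebraic.isAlgebraic (R := K) y
  obtain ⟨j, hj, hmax⟩ := p.support.exists_max_image
    (fun i => toLex (V.valuation (algebraMap K Ω (p.coeff i)), i)) (support_nonempty.2 hp0)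
  have hc : algebraMap K Ω (p.coeff j) ≠ 0 := (_root_.map_ne_zero _).2 (mem_support_iff.1 hj)
  have hv : 0 < V.valuation (algebraMap K Ω (p.coeff j)) :=
    zero_lt_iff.2 ((Valuation.ne_zero_iff _).2 hc)
  let a : ℕ → Ω := fun i => algebraMap K Ω (p.coeff i / p.coeff j)
  have ha : ∀ i ∈ p.support.erase j, V.valuation (a i) ≤ 1 ∧ (j < i → V.valuation (a i) < 1) := by
    intro i hi
    have := Prod.Lex.toLex_le_toLex.1 (hmax i (Finset.mem_of_mem_erase hi))
    simp only [a, map_div₀, div_le_one₀ hv, div_lt_one₀ hv]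
    rcases this with h1 | ⟨h1, h2⟩
    · exact ⟨h1.le, fun _ => h1⟩
    · exact ⟨h1.le, fun h3 => absurd h3 (not_lt.2 h2)⟩
  have haU : ∀ U, Ag K W U → ∀ i ∈ p.support.erase j, a i ∈ U := fun U hU i hi =>
    (hU _).2 ((hV _).1 ((V.valuation_le_one_iff _).1 (ha i hi).1))
  let u : Ω := 1 + ∑ i ∈ (p.support.erase j).filter (j < ·), a i * y ^ (i - j)
  let w : Ω := ∑ i ∈ (p.support.erase j).filter (¬ j < ·), a i * y⁻¹ ^ (j - i - 1)
  have e : u * y = -w := by
    rw [aeval_eq_sum_range, Finset.sum_subset (s₁ := p.support) supp_subset_range_natDegree_succ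
      (fun i _ hi => by rw [notMem_support_iff.1 hi, zero_smul]) |>.symm,
      ← Finset.add_sum_erase _ _ hj,
      ← Finset.sum_filter_add_sum_filter_not (p.support.erase j) (j < ·)] at hp
    rw [eq_neg_iff_add_eq_zero]
    apply mul_left_cancel₀ (mul_ne_zero hc (pow_ne_zero j hy0))
    rw [mul_zero, ← mul_zero y, ← hp, add_mul, one_mul, Finset.sum_mul, mul_add, mul_add, mul_add,
      mul_add, add_assoc, Finset.mul_sum, Finset.mul_sum, Finset.mul_sum, Finset.mul_sum,
      Algebra.smul_def, mul_comm y]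
    congr 2
    · refine Finset.sum_congr rfl fun i hi => ?_
      obtain ⟨d, rfl⟩ := Nat.exists_eq_add_of_le (Finset.mem_filter.1 hi).2.le
      simp only [a, map_div₀, Algebra.smul_def, Nat.add_sub_cancel_left, pow_add]
      field_simp
    · refine Finset.sum_congr rfl fun i hi => ?_
      have h1 := Finset.mem_filter.1 hi
      obtain ⟨d, rfl⟩ := Nat.exists_eq_add_of_lt
        (lt_of_le_of_ne (not_lt.1 h1.2) (Finset.ne_of_mem_erase h1.1))
      rw [show i + d + 1 - i - 1 = d by omega]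
      simp only [a, map_div₀, Algebra.smul_def, pow_add, inv_pow]
      field_simp
  have hu : ∀ U, Ag K W U → y ∈ U → u ∈ U := fun U hU hyU =>
    add_mem (one_mem _) (sum_mem fun i hi =>
      mul_mem (haU U hU i (Finset.mem_filter.1 hi).1) (pow_mem hyU _))
  have hw : ∀ U, Ag K W U → y⁻¹ ∈ U → w ∈ U := fun U hU hyU =>
    sum_mem fun i hi => mul_mem (haU U hU i (Finset.mem_filter.1 hi).1) (pow_mem hyU _)
  have huB : u ∈ BB K W := fun U hU => (U.mem_or_inv_mem y).elim (hu U hU) fun hyU => by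
    rw [← mul_inv_cancel_right₀ hy0 u, e]
    exact mul_mem (neg_mem (hw U hU hyU)) hyU
  have hu1 : V.valuation u = 1 := by
    refine Valuation.map_one_add_of_lt _ (Valuation.map_sum_lt _ one_ne_zero fun i hi => ?_)
    rw [map_mul, map_pow]
    exact mul_lt_one_of_lt_of_le ((ha i (Finset.mem_filter.1 hi).1).2 (Finset.mem_filter.1 hi).2)
      (pow_le_one' ((V.valuation_le_one_iff _).2 hy) _)
  have hu2 : ¬ V'.valuation u < 1 := fun h1 => (h u huB h1).ne hu1
  rw [lt_iff, not_or, not_not] at hu2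
  refine (V'.mem_or_inv_mem y).elim id fun hyU => ?_
  rw [← inv_mul_cancel_left₀ hu2.1 y, e]
  exact mul_mem hu2.2 (neg_mem (hw V' hV' hyU))

/-- the centre of an extension -/
def cen {W : ValuationSubring Ω} (U : ValuationSubring Ω) (hU : Ag K W U) : Ideal (BB K W) :=
  (IsLocalRing.maximalIdeal U).comap
    (Subring.inclusion (S := BB K W) (T := U.toSubring) fun _ hy => hy U hU)

lemma mem_cen {W U : ValuationSubring Ω} (hU : Ag K W U) (b : BB K W) :
    b ∈ cen U hU ↔ U.valuation (b : Ω) < 1 :=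
  U.valuation_lt_one_iff ⟨b, b.2 U hU⟩

instance {W U : ValuationSubring Ω} (hU : Ag K W U) : (cen U hU).IsPrime :=
  Ideal.comap_isPrime _ _

lemma galois [IsGalois K Ω] {W W' : ValuationSubring Ω} (h : Ag K W W') :
    ∃ σ : Ω ≃ₐ[K] Ω, σ • W = W' := by
  have hW : Ag K W W := fun _ => Iff.rfl
  let : TopologicalSpace (BB K W) := ⊥
  have : DiscreteTopology (BB K W) := ⟨rfl⟩
  have : ContinuousSMul (Ω ≃ₐ[K] Ω) (BB K W) := by
    refine continuousSMul_iff_stabilizer_isOpen.2 fun b => ?_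
    convert stabilizer_isOpen_of_isIntegral (K := K) (b : Ω) using 2
    ext σ
    exact Subtype.ext_iff
  have : Algebra.IsInvariant (FixedPoints.subring (BB K W) (Ω ≃ₐ[K] Ω)) (BB K W) (Ω ≃ₐ[K] Ω) :=
    ⟨fun b hb => ⟨⟨b, hb⟩, rfl⟩⟩
  obtain ⟨σ, hσ⟩ := Algebra.IsInvariant.exists_smul_of_under_eq_of_profinite
    (A := FixedPoints.subring (BB K W) (Ω ≃ₐ[K] Ω)) (G := Ω ≃ₐ[K] Ω) (cen W hW) (cen W' h) (by
      ext b
      obtain ⟨x, hx⟩ := (InfiniteGalois.mem_range_algebraMap_iff_fixed (k := K)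
        ((b : BB K W) : Ω)).2 fun σ => congrArg Subtype.val (b.2 σ)
      change (b : BB K W) ∈ cen W hW ↔ (b : BB K W) ∈ cen W' h
      rw [mem_cen, mem_cen, lt_iff, lt_iff, ← hx, ← map_inv₀, h])
  have key : ∀ b ∈ BB K W, W'.valuation b < 1 ↔ (σ • W).valuation b < 1 := fun b hb => by
    rw [← mem_cen h ⟨b, hb⟩, hσ, Ideal.mem_pointwise_smul_iff_inv_smul_mem, mem_cen, lt_iff, lt_iff,
      ValuationSubring.mem_pointwise_smul_iff_inv_smul_mem, smul_inv'']
    exact or_congr_left (smul_eq_zero_iff_eq σ⁻¹)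
  exact ⟨σ, le_antisymm (le_of_centre (hW.smul σ) h fun b hb => (key b hb).1)
    (le_of_centre h (hW.smul σ) fun b hb => (key b hb).2)⟩

lemma pow_mem_iff (U : ValuationSubring Ω) (y : Ω) {n : ℕ} (hn : n ≠ 0) : y ^ n ∈ U ↔ y ∈ U := by
  rw [← U.valuation_le_one_iff, ← U.valuation_le_one_iff, map_pow, pow_le_one_iff hn]

end Conj

open Conj in
theorem blockConj : StmtConj := by
  intro k Ω _ _ _ _ F hF W W' h
  have : Algebra.IsAlgebraic F Ω := ⟨hF⟩
  have : Algebra.IsAlgebraic (perfectClosure F Ω) Ω := Algebra.IsAlgebraic.tower_top (K := F) _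
  have : IsAlgClosure (perfectClosure F Ω) Ω := ⟨inferInstance, inferInstance⟩
  have : IsGalois (perfectClosure F Ω) Ω := {}
  obtain ⟨σ, hσ⟩ := galois (K := perfectClosure F Ω) (W := W) (W' := W') fun x => by
    obtain ⟨n, y, hy⟩ := (mem_perfectClosure_iff_pow_mem (ringExpChar F)).1 x.2
    have hn : ringExpChar F ^ n ≠ 0 := (expChar_pow_pos F _ n).ne'
    rw [← pow_mem_iff W _ hn, ← pow_mem_iff W' _ hn]
    exact hy ▸ (h y y.2).symm
  refine ⟨(σ.restrictScalars F).restrictScalars k, (IntermediateField.mem_fixingSubgroup_iff _ _).2 fun y hy =>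
    σ.commutes (algebraMap F _ ⟨y, hy⟩), hσ⟩

end Pool.Agent.Lib.IW
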