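import Pool.Agent.Lib.IW.Util

/-! Block Core: patching of representations. -/

open Polynomial IntermediateField
open scoped Pointwise

namespace Pool.Agent.Lib.IW

namespace Core

variable {k Ω : Type} [Field k] [Field Ω] [Algebra k Ω]

lemma sep_up {F E : IntermediateField k Ω} (h : F ≤ E) {y : Ω} (hy : IsSeparable F y) :
    IsSeparable E y := by
  let : Algebra F E := (IntermediateField.inclusion h).toRingHom.toAlgebra
  have : IsScalarTower F E Ω := IsScalarTower.of_algebraMap_eq fun _ => rfl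
  exact hy.tower_top E

lemma alg_up {F E : IntermediateField k Ω} (h : F ≤ E) {y : Ω} (hy : IsAlgebraic F y) :
    IsAlgebraic E y := by
  let : Algebra F E := (IntermediateField.inclusion h).toRingHom.toAlgebra
  have : IsScalarTower F E Ω := IsScalarTower.of_algebraMap_eq fun _ => rfl
  exact hy.tower_top E

lemma adj_le {σ : Ω} {E : IntermediateField k Ω} (h : σ ∈ E) : k⟮σ⟯ ≤ E :=
  IntermediateField.adjoin_simple_le_iff.2 h

lemma mem_of_fixed [IsAlgClosed Ω] (hG : StmtGal) {σ : Ω} (hσ : Co k σ)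
    {E : IntermediateField k Ω} (h : σ ∈ E) {y : Ω} (hy : IsSeparable k⟮σ⟯ y)
    (hf : ∀ γ ∈ E.fixingSubgroup, γ y = y) : y ∈ E :=
  hG.sep k Ω E (fun z => alg_up (adj_le h) (hσ.alg z)) y (sep_up (adj_le h) hy) hf

lemma gen (p : ℕ) [Fact p.Prime] [CharP k p] [IsAlgClosed Ω] (hG : StmtGal) {σ : Ω} (hσ : Co k σ)
    {E1 E2 : IntermediateField k Ω} (h1 : σ ∈ E1) (h2 : σ ∈ E2)
    (hI : ∀ y, y ∈ E1 → y ∈ E2 → y ∈ k⟮σ⟯) (Δ : Subgroup (Aut k Ω)) (S : Finset Ω)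
    (hle : Δ ≤ Gam k σ) (hS : ∀ γ ∈ Gam k σ, (∀ s ∈ S, γ s = s) → γ ∈ Δ)
    (l1 : E1.fixingSubgroup ≤ Δ) (l2 : E2.fixingSubgroup ≤ Δ) : ∀ γ ∈ Gam k σ, γ ∈ Δ := by
  intro γ hγ
  rw [← fix_adjoin] at hle hS hγ
  refine hG.cor p k Ω k⟮σ⟯ hσ.alg Δ S hle hS γ hγ fun y hy hf => ?_
  exact (IntermediateField.mem_fixingSubgroup_iff _ γ).1 hγ y
    (hI y (mem_of_fixed hG hσ h1 hy fun δ hδ => hf δ (l1 hδ))
      (mem_of_fixed hG hσ h2 hy fun δ hδ => hf δ (l2 hδ)))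

section Mat

variable {ι : Type} [Fintype ι] [DecidableEq ι]

lemma det_mem {F : Type} [Field F] [Algebra F Ω] (S : IntermediateField F Ω) {X : Matrix ι ι Ω}
    (h : ∀ i j, X i j ∈ S) : X.det ∈ S := by
  rw [Matrix.det_apply']
  exact sum_mem fun σ _ => mul_mem (intCast_mem S _) (prod_mem fun i _ => h _ _)

lemma inv_entry_mem {F : Type} [Field F] [Algebra F Ω] (S : IntermediateField F Ω)
    {X : Matrix ι ι Ω} (h : ∀ i j, X i j ∈ S) (i j : ι) : X⁻¹ i j ∈ S := by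
  rw [Matrix.inv_def, Matrix.smul_apply, Ring.inverse_eq_inv', smul_eq_mul, Matrix.adjugate_apply]
  refine mul_mem (inv_mem (det_mem S h)) (det_mem S fun a b => ?_)
  rw [Matrix.updateRow_apply]
  split_ifs
  · rw [Pi.single_apply]
    split_ifs
    exacts [one_mem S, zero_mem S]
  · exact h _ _

omit [DecidableEq ι] in
lemma mul_entry_mem {F : Type} [Field F] [Algebra F Ω] (S : IntermediateField F Ω)
    {X Y : Matrix ι ι Ω} (h : ∀ i j, X i j ∈ S) (h' : ∀ i j, Y i j ∈ S) (i j : ι) :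
    (X * Y) i j ∈ S := by
  rw [Matrix.mul_apply]
  exact sum_mem fun l _ => mul_mem (h _ _) (h' _ _)

lemma fixed_quot (γ : Aut k Ω) (π : ι ≃ ι) {X Y : Matrix ι ι Ω} (hX : X.det ≠ 0)
    (eX : ∀ i j, γ (X i j) = X i (π j)) (eY : ∀ i j, γ (Y i j) = Y i (π j)) (i j : ι) :
    γ ((Y * X⁻¹) i j) = (Y * X⁻¹) i j := by
  have hu : IsUnit X.det := isUnit_iff_ne_zero.2 hX
  have h1 : Y * X⁻¹ * X = Y := Matrix.nonsing_inv_mul_cancel_right X Y hu
  have h2 : (Y * X⁻¹).map γ * X = Y := by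
    ext a b
    obtain ⟨b, rfl⟩ := π.surjective b
    rw [← eY, ← congrFun (congrFun h1 a) b, Matrix.mul_apply, Matrix.mul_apply (M := Y * X⁻¹),
      map_sum]
    refine Finset.sum_congr rfl fun l _ => ?_
    rw [map_mul, eX, Matrix.map_apply]
  have h3 : (Y * X⁻¹).map γ = Y * X⁻¹ := by
    conv_rhs => rw [← h2]
    rw [Matrix.mul_nonsing_inv_cancel_right X _ hu]
  exact congrFun (congrFun h3 i) j

omit [DecidableEq ι] in
lemma map_mul_left (γ : Aut k Ω) (π : ι → ι) {A X : Matrix ι ι Ω}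
    (eA : ∀ i j, γ (A i j) = A i j) (eX : ∀ i j, γ (X i j) = X i (π j)) (i j : ι) :
    γ ((A * X) i j) = (A * X) i (π j) := by
  rw [Matrix.mul_apply, Matrix.mul_apply, map_sum]
  exact Finset.sum_congr rfl fun l _ => by rw [map_mul, eA, eX]

end Mat

lemma exists_mat (p : ℕ) [Fact p.Prime] [IsAlgClosed k] [CharP k p] [IsAlgClosed Ω]
    (hS : StmtStr) {σ : Ω} (hσ : Co k σ) {Δ : Subgroup (Aut k Ω)} (hΔ : Δ ≤ Gam k σ)
    {G : Type} [Group G] [Fintype G] [DecidableEq G] {ρ : Aut k Ω → G} (h : IsRep Δ ρ) :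
    ∃ X : Matrix G G Ω, X.det ≠ 0 ∧ (∀ i j, X i j ∈ separableClosure k⟮σ⟯ Ω) ∧
      ∀ γ ∈ Δ, ∀ i j, γ (X i j) = X i (ρ γ * j) := by
  obtain ⟨y, hinj, hsep, hy⟩ := hS p k Ω σ hσ Δ hΔ G ρ h
  let e := Fintype.equivFin G
  refine ⟨((Matrix.vandermonde (y ∘ e.symm)).transpose).submatrix e e, ?_, fun i j => ?_,
    fun γ hγ i j => ?_⟩
  · rw [Matrix.det_submatrix_equiv_self, Matrix.det_transpose, Matrix.det_vandermonde_ne_zero_iff]
    exact hinj.comp e.symm.injective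
  · simp only [Matrix.submatrix_apply, Matrix.transpose_apply, Matrix.vandermonde_apply]
    exact pow_mem (mem_separableClosure_iff.2 (hsep _).1) _
  · simp only [Matrix.submatrix_apply, Matrix.transpose_apply, Matrix.vandermonde_apply,
      Function.comp_apply, Equiv.symm_apply_apply, map_pow, hy γ hγ]

/-- Automorphisms permuting the columns of `X` by a left translation. -/
def colGrp (σ : Ω) {G : Type} [Group G] (X : Matrix G G Ω) : Subgroup (Aut k Ω) where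
  carrier := {γ | γ ∈ Gam k σ ∧ ∃ g : G, ∀ i j, γ (X i j) = X i (g * j)}
  one_mem' := ⟨one_mem _, 1, fun i j => by simp⟩
  mul_mem' := by
    rintro γ δ ⟨hγ, g, hg⟩ ⟨hδ, g', hg'⟩
    exact ⟨mul_mem hγ hδ, g * g', fun i j => by rw [AlgEquiv.mul_apply, hg', hg, mul_assoc]⟩
  inv_mem' := by
    rintro γ ⟨hγ, g, hg⟩
    refine ⟨inv_mem hγ, g⁻¹, fun i j => γ.injective ?_⟩
    rw [hg, mul_inv_cancel_left, ← AlgEquiv.mul_apply, mul_inv_cancel, AlgEquiv.one_apply]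

end Core

open _root_.Pool.Agent.Lib.IW.Core

theorem blockCore (hF : Found) : StmtCore where
  ex := by
    intro p _ 𝕜 Ω' _ _ _ _ _ _ σ E0 E1 E2 hσ h1 h2 l1 l2 hI hP G _ _ ρ₁ ρ₂ r1 r2 h12
    classical
    let : Fintype G := Fintype.ofFinite G
    obtain ⟨X1, d1, s1, e1⟩ := exists_mat p hF.str hσ (fix_le_Gam h1) r1
    obtain ⟨X2, d2, s2, e2⟩ := exists_mat p hF.str hσ (fix_le_Gam h2) r2
    have f1 : E0.fixingSubgroup ≤ E1.fixingSubgroup := IntermediateField.fixingSubgroup_le l1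
    have f2 : E0.fixingSubgroup ≤ E2.fixingSubgroup := IntermediateField.fixingSubgroup_le l2
    have hC : ∀ (E : IntermediateField 𝕜 Ω') (ρ : Aut 𝕜 Ω' → G) (X : Matrix G G Ω'), σ ∈ E →
        X.det ≠ 0 → (∀ i j, X i j ∈ separableClosure 𝕜⟮σ⟯ Ω') →
        (∀ γ ∈ E.fixingSubgroup, ∀ i j, γ (X i j) = X i (ρ γ * j)) →
        ∀ l i j, (X * Matrix.diagonal (X l) * X⁻¹) i j ∈ E := by
      intro E ρ X hE d s e l i j
      refine mem_of_fixed hF.gal hσ hE (mem_separableClosure_iff.1 ?_) fun γ hγ => ?_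
      · refine mul_entry_mem _ (fun a b => ?_) (inv_entry_mem _ s) i j
        rw [Matrix.mul_diagonal]
        exact mul_mem (s _ _) (s _ _)
      · refine fixed_quot γ (Equiv.mulLeft (ρ γ)) d (e γ hγ) (fun a b => ?_) i j
        rw [Matrix.mul_diagonal, Matrix.mul_diagonal, map_mul, e γ hγ, e γ hγ]
        rfl
    obtain ⟨A1, A2, a1, a2, dA, hA⟩ := hP G X1 X2 d1 d2
      (fun i j => mem_of_fixed hF.gal hσ (l1 h1)
        (mem_separableClosure_iff.1 (mul_entry_mem _ s1 (inv_entry_mem _ s2) i j))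
        fun γ hγ => fixed_quot γ (Equiv.mulLeft (ρ₂ γ)) d2 (e2 γ (f2 hγ))
          (fun a b => by rw [e1 γ (f1 hγ), h12 γ hγ]; rfl) i j)
      (hC E1 ρ₁ X1 h1 d1 s1 e1) (hC E2 ρ₂ X2 h2 d2 s2 e2)
    set X := A1 * X1 with hX
    have dX : X.det ≠ 0 := by
      rw [hX, Matrix.det_mul]
      exact mul_ne_zero dA d1
    have g1 : ∀ γ ∈ E1.fixingSubgroup, ∀ i j, γ (X i j) = X i (ρ₁ γ * j) := fun γ hγ =>
      map_mul_left γ (fun j => ρ₁ γ * j)
        (fun i j => (IntermediateField.mem_fixingSubgroup_iff _ γ).1 hγ _ (a1 i j)) (e1 γ hγ)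
    have g2 : ∀ γ ∈ E2.fixingSubgroup, ∀ i j, γ (X i j) = X i (ρ₂ γ * j) := fun γ hγ => by
      rw [hA]
      exact map_mul_left γ (fun j => ρ₂ γ * j)
        (fun i j => (IntermediateField.mem_fixingSubgroup_iff _ γ).1 hγ _ (a2 i j)) (e2 γ hγ)
    have hinj : ∀ g g' : G, (∀ i, X i g = X i g') → g = g' := fun g g' h => by
      by_contra hne
      exact dX (Matrix.det_zero_of_column_eq hne h)
    let S : Finset Ω' := Finset.univ.image fun q : G × G => X q.1 q.2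
    have hSm : ∀ i j, X i j ∈ S := fun i j => Finset.mem_image.2 ⟨(i, j), Finset.mem_univ _, rfl⟩
    have hall := gen p hF.gal hσ h1 h2 hI (colGrp σ X) S (fun γ hγ => hγ.1)
      (fun γ hγ hs => ⟨hγ, 1, fun i j => by rw [one_mul, hs _ (hSm i j)]⟩)
      (fun γ hγ => ⟨fix_le_Gam h1 hγ, ρ₁ γ, g1 γ hγ⟩)
      (fun γ hγ => ⟨fix_le_Gam h2 hγ, ρ₂ γ, g2 γ hγ⟩)
    have hex : ∀ γ : Aut 𝕜 Ω', ∃ g : G, γ ∈ Gam 𝕜 σ → ∀ i j, γ (X i j) = X i (g * j) := by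
      intro γ
      by_cases hγ : γ ∈ Gam 𝕜 σ
      · obtain ⟨g, hg⟩ := (hall γ hγ).2
        exact ⟨g, fun _ => hg⟩
      · exact ⟨1, fun h => absurd h hγ⟩
    choose ρ hρ using hex
    have huq : ∀ γ ∈ Gam 𝕜 σ, ∀ g : G, (∀ i, γ (X i 1) = X i g) → ρ γ = g := fun γ hγ g hg =>
      hinj _ _ fun i => by rw [← hg, hρ γ hγ, mul_one]
    refine ⟨ρ, ⟨fun γ hγ δ hδ => huq _ (mul_mem hγ hδ) _ fun i => ?_,
      S, fun γ hγ δ hδ hs => huq γ hγ _ fun i => ?_⟩,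
      fun γ hγ => huq γ (fix_le_Gam h1 hγ) _ fun i => ?_,
      fun γ hγ => huq γ (fix_le_Gam h2 hγ) _ fun i => ?_⟩
    · rw [AlgEquiv.mul_apply, hρ δ hδ, hρ γ hγ, mul_one]
    · rw [hs _ (hSm i 1), hρ δ hδ, mul_one]
    · rw [g1 γ hγ, mul_one]
    · rw [g2 γ hγ, mul_one]
  uniq := by
    intro p _ 𝕜 Ω' _ _ _ _ _ _ σ E1 E2 hσ h1 h2 hI G _ ρ ρ' r r' q1 q2 γ hγ
    classical
    obtain ⟨S, hS⟩ := r.cts
    obtain ⟨S', hS'⟩ := r'.cts
    let Δ : Subgroup (Aut 𝕜 Ω') :=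
      { carrier := {γ | γ ∈ Gam 𝕜 σ ∧ ρ γ = ρ' γ}
        one_mem' := ⟨one_mem _, by rw [r.one, r'.one]⟩
        mul_mem' := fun {a b} ha hb => ⟨mul_mem ha.1 hb.1, by
          rw [r.mul a ha.1 b hb.1, r'.mul a ha.1 b hb.1, ha.2, hb.2]⟩
        inv_mem' := fun {a} ha => ⟨inv_mem ha.1, by rw [r.inv ha.1, r'.inv ha.1, ha.2]⟩ }
    refine (gen p hF.gal hσ h1 h2 hI Δ (S ∪ S') (fun γ hγ => hγ.1) (fun δ hδ hs => ⟨hδ, ?_⟩)
      (fun δ hδ => ⟨fix_le_Gam h1 hδ, q1 δ hδ⟩) (fun δ hδ => ⟨fix_le_Gam h2 hδ, q2 δ hδ⟩) γ hγ).2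
    rw [hS δ hδ 1 (one_mem _) fun s h => hs s (Finset.mem_union_left _ h),
      hS' δ hδ 1 (one_mem _) fun s h => hs s (Finset.mem_union_right _ h), r.one, r'.one]

end Pool.Agent.Lib.IW
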