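import Pool.Agent.Lib.IW.Util

/-! Block Dens: expansions in a uniformiser. -/

open Polynomial IntermediateField
open scoped Pointwise

namespace Pool.Agent.Lib.IW

namespace Dens

variable {k Ω : Type} [Field k] [IsAlgClosed k] [Field Ω] [Algebra k Ω]

lemma aux (hB : StmtBas) {x : Ω} (hx : Co k x) {W : ValuationSubring Ω} (hW : IsPl k W) {π : Ω}
    (h0 : π ≠ 0) (h1 : W.valuation π < 1) {E : IntermediateField k Ω} (hπ : π ∈ E)
    (hE : ∀ y ∈ E, y ≠ 0 → ∃ i : ℤ, W.valuation y = W.valuation π ^ i) (n : ℤ) (j : ℕ) :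
    ∀ y ∈ E, W.valuation y ≤ W.valuation π ^ (n - j) → ∃ (s : Finset ℤ) (c : ℤ → k),
      (∀ i ∈ s, n - j ≤ i ∧ i < n) ∧
        W.valuation (y - ∑ i ∈ s, algebraMap k Ω (c i) * π ^ i) ≤ W.valuation π ^ n := by
  have hv : 0 < W.valuation π := (Valuation.pos_iff _).2 h0
  induction j with
  | zero => exact fun y _ hy => ⟨∅, 0, by simp, by simpa using hy⟩
  | succ j ih =>
    intro y hyE hy
    set m : ℤ := n - (j + 1 : ℕ) with hm
    have hvm : 0 < W.valuation π ^ m := zpow_pos hv m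
    have hπm : π ^ m ≠ 0 := zpow_ne_zero m h0
    have hmem : y / π ^ m ∈ W := by
      rw [← W.valuation_le_one_iff, map_div₀, map_zpow₀, div_le_one₀ hvm]
      exact hy
    obtain ⟨c0, hc0⟩ := hB.resid k Ω x hx W hW _ hmem
    have hlt : W.valuation (y - algebraMap k Ω c0 * π ^ m) < W.valuation π ^ m := by
      have e : y / π ^ m - algebraMap k Ω c0 = (y - algebraMap k Ω c0 * π ^ m) / π ^ m := by
        field_simp
      rwa [e, map_div₀, map_zpow₀, div_lt_one₀ hvm] at hc0
    have hE' : y - algebraMap k Ω c0 * π ^ m ∈ E :=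
      sub_mem hyE (mul_mem (E.algebraMap_mem c0) (zpow_mem hπ m))
    have hle : W.valuation (y - algebraMap k Ω c0 * π ^ m) ≤ W.valuation π ^ (n - j) := by
      by_cases hz : y - algebraMap k Ω c0 * π ^ m = 0
      · rw [hz, map_zero]
        exact zero_le
      obtain ⟨i, hi⟩ := hE _ hE' hz
      rw [hi, zpow_lt_zpow_iff_right_of_lt_one₀ hv h1] at hlt
      rw [hi]
      exact zpow_le_zpow_right_of_le_one₀ hv h1.le (by omega)
    obtain ⟨s, c, hs, hc⟩ := ih _ hE' hle
    have hms : m ∉ s := fun h => by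
      have := (hs m h).1
      omega
    refine ⟨insert m s, Function.update c m c0, fun i hi => ?_, ?_⟩
    · rcases Finset.mem_insert.1 hi with rfl | hi
      · omega
      · have := hs i hi
        omega
    · have e : ∑ i ∈ s, algebraMap k Ω (Function.update c m c0 i) * π ^ i =
          ∑ i ∈ s, algebraMap k Ω (c i) * π ^ i :=
        Finset.sum_congr rfl fun i hi => by
          rw [Function.update_of_ne (fun h : i = m => hms (h ▸ hi))]
      rwa [Finset.sum_insert hms, Function.update_self, e, ← sub_sub]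

lemma expand (hB : StmtBas) {x : Ω} (hx : Co k x) {W : ValuationSubring Ω} (hW : IsPl k W) {π : Ω}
    (h0 : π ≠ 0) (h1 : W.valuation π < 1) {E : IntermediateField k Ω} (hπ : π ∈ E)
    (hE : ∀ y ∈ E, y ≠ 0 → ∃ i : ℤ, W.valuation y = W.valuation π ^ i) {y : Ω} (hy : y ∈ E)
    (n : ℤ) : ∃ (s : Finset ℤ) (c : ℤ → k), (∀ i ∈ s, i < n) ∧
      W.valuation (y - ∑ i ∈ s, algebraMap k Ω (c i) * π ^ i) ≤ W.valuation π ^ n := by
  have hv : 0 < W.valuation π := (Valuation.pos_iff _).2 h0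
  by_cases hz : y = 0
  · exact ⟨∅, 0, by simp, by simp [hz]⟩
  obtain ⟨i, hi⟩ := hE y hy hz
  obtain ⟨s, c, hs, hc⟩ := aux hB hx hW h0 h1 hπ hE n (n - i).toNat y hy (by
    rw [hi]
    exact zpow_le_zpow_right_of_le_one₀ hv h1.le (by omega))
  exact ⟨s, c, fun i hi => (hs i hi).2, hc⟩

end Dens

theorem blockDens (hB : StmtBas) : StmtDens where
  expand := fun _ _ _ _ _ _ _ hx _ hW _ h0 h1 _ hπ hE _ hy n =>
    Dens.expand hB hx hW h0 h1 hπ hE hy n
  fix := by
    intro k Ω _ _ _ _ x hx W hW π h0 h1 E hπ hE γ hγ hγπ y hy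
    have hv : 0 < W.valuation π := (Valuation.pos_iff _).2 h0
    have hle : ∀ n : ℤ, W.valuation (γ y - y) ≤ W.valuation π ^ n := by
      intro n
      obtain ⟨s, c, -, hc⟩ := Dens.expand hB hx hW h0 h1 hπ hE hy n
      set t := ∑ i ∈ s, algebraMap k Ω (c i) * π ^ i with ht
      have hfix : γ t = t := by
        rw [ht, map_sum]
        exact Finset.sum_congr rfl fun i _ => by rw [map_mul, map_zpow₀, hγπ, γ.commutes]
      have e : γ y - y = γ (y - t) - (y - t) := by
        rw [map_sub, hfix]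
        ring
      rw [e]
      refine Valuation.map_sub_le _ ?_ hc
      rwa [hB.valFix k Ω x hx W hW γ hγ π h0 h1 hγπ]
    by_contra hne
    obtain ⟨e, he, i, hi⟩ := hB.rank k Ω x hx W hW π h0 h1 (γ y - y) (sub_ne_zero.2 hne)
    have h2 := pow_le_pow_left₀ zero_le (hle (|i| + 1)) e
    rw [hi, ← zpow_natCast, ← zpow_mul, zpow_le_zpow_iff_right_of_lt_one₀ hv h1] at h2
    have h3 : (1 : ℤ) ≤ e := by exact_mod_cast he
    nlinarith [le_abs_self i, abs_nonneg i]

end Pool.Agent.Lib.IW
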