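import Pool.Agent.Lib.IW.Util

/-! Block EvalN: evaluation at other Gauss points, Hensel's lemma and the residue field. -/

open Polynomial IntermediateField

namespace Pool.Agent.Lib.IW

namespace EvalN

variable {𝕜 Q : Type} [NormedField 𝕜] [NormedField Q] [NormedAlgebra 𝕜 Q]

lemma sub_le_max [IsUltrametricDist Q] (x y : Q) : ‖x - y‖ ≤ max ‖x‖ ‖y‖ := by
  simpa [sub_eq_add_neg] using IsUltrametricDist.norm_add_le_max x (-y)

lemma ext_closure [CompleteSpace Q] (S : Subalgebra 𝕜 Q) (ψ : S →ₐ[𝕜] Q)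
    (h : ∀ s, ‖ψ s‖ ≤ ‖(s : Q)‖) : ∃ j : S.topologicalClosure →ₐ[𝕜] Q,
      ∀ s : S, j ⟨s, S.le_topologicalClosure s.2⟩ = ψ s := by
  let i : S →+* S.topologicalClosure := (Subalgebra.inclusion S.le_topologicalClosure).toRingHom
  have iso : Isometry i := fun _ _ => rfl
  have dr : DenseRange i := (denseRange_inclusion_iff S.le_topologicalClosure).2 fun _ hx => hx
  have uc : UniformContinuous ψ.toRingHom :=
    (AddMonoidHomClass.lipschitz_of_bound ψ 1 fun s => by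
      rw [one_mul]; exact h s).uniformContinuous
  have e : ∀ s, IsDenseInducing.extendRingHom iso.isUniformInducing dr uc (i s) = ψ s := fun s =>
    IsDenseInducing.extend_eq (iso.isUniformInducing.isDenseInducing dr) uc.continuous s
  exact ⟨⟨IsDenseInducing.extendRingHom iso.isUniformInducing dr uc, fun c =>
    (e (algebraMap 𝕜 S c)).trans (ψ.commutes c)⟩, e⟩

lemma ext_frac (R M : Subalgebra 𝕜 Q) (S : Subalgebra 𝕜 R) (j : R →ₐ[𝕜] Q)
    (hj : ∀ s ∈ S, s ≠ 0 → j s ≠ 0) (hM : ∀ y : M, ∃ r : R, ∃ s ∈ S, s ≠ 0 ∧ (y : Q) = r / s) :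
    ∃ J : M →ₐ[𝕜] Q, ∀ (y : M) (r : R), ∀ s ∈ S, s ≠ 0 → (y : Q) = r / s → J y = j r / j s := by
  choose r s hs s0 e using hM
  have ne : ∀ {t : R}, t ≠ 0 → (t : Q) ≠ 0 := fun h k => h (Subtype.ext k)
  have key : ∀ (y : M) (r' : R), ∀ s' ∈ S, s' ≠ 0 → (y : Q) = r' / s' →
      j (r y) / j (s y) = j r' / j s' := fun y r' s' h1 h2 h3 => by
    rw [div_eq_div_iff (hj _ (hs y) (s0 y)) (hj _ h1 h2), ← map_mul, ← map_mul]
    congr 1
    exact Subtype.ext ((div_eq_div_iff (ne (s0 y)) (ne h2)).1 ((e y).symm.trans h3))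
  have kc : ∀ (y : M) (r' : R), (y : Q) = r' → j (r y) / j (s y) = j r' := fun y r' h => by
    rw [key y r' 1 (one_mem _) one_ne_zero (by simpa using h), map_one, div_one]
  refine ⟨⟨⟨⟨⟨fun y => j (r y) / j (s y), ?_⟩, fun y z => ?_⟩, ?_, fun y z => ?_⟩, fun c => ?_⟩, key⟩
  · rw [kc 1 1 rfl, map_one]
  · change j (r (y * z)) / j (s (y * z)) = j (r y) / j (s y) * (j (r z) / j (s z))
    rw [key (y * z) (r y * r z) (s y * s z) (mul_mem (hs y) (hs z)) (mul_ne_zero (s0 y) (s0 z))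
      (by push_cast; rw [e y, e z, div_mul_div_comm]), map_mul, map_mul, div_mul_div_comm]
  · exact (kc 0 0 rfl).trans (map_zero _)
  · change j (r (y + z)) / j (s (y + z)) = j (r y) / j (s y) + j (r z) / j (s z)
    rw [key (y + z) (r y * s z + s y * r z) (s y * s z) (mul_mem (hs y) (hs z))
      (mul_ne_zero (s0 y) (s0 z)) (by push_cast; rw [e y, e z, div_add_div _ _ (ne (s0 y)) (ne (s0 z))]),
      div_add_div _ _ (hj _ (hs y) (s0 y)) (hj _ (hs z) (s0 z)), map_add, map_mul, map_mul, map_mul]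
  · exact (kc _ (algebraMap 𝕜 R c) rfl).trans (j.commutes c)

lemma exists_phi {σ σ' : Q} (h : Transcendental 𝕜 σ) (h' : Transcendental 𝕜 σ') :
    ∃ φ : 𝕜⟮σ⟯ →ₐ[𝕜] Q, ∀ (y : 𝕜⟮σ⟯) (P q : 𝕜[X]), (y : Q) = aeval σ P / aeval σ q →
      φ y = aeval σ' P / aeval σ' q := by
  let φ : 𝕜⟮σ⟯ →ₐ[𝕜] Q := (𝕜⟮σ'⟯.val.comp (RatFunc.algEquivOfTranscendental σ' h').toAlgHom).comp
    (RatFunc.algEquivOfTranscendental σ h).symm.toAlgHom
  have e : φ (AdjoinSimple.gen 𝕜 σ) = σ' := by simp [φ]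
  refine ⟨φ, fun y P q hy => ?_⟩
  have : y = aeval (AdjoinSimple.gen 𝕜 σ) P / aeval (AdjoinSimple.gen 𝕜 σ) q :=
    Subtype.ext (by simp [hy])
  rw [this, map_div₀, ← aeval_algHom_apply, ← aeval_algHom_apply, e]

lemma ext_all [CompleteSpace Q] {σ σ' : Q} (h : Transcendental 𝕜 σ) (h' : Transcendental 𝕜 σ')
    (S M : Subalgebra 𝕜 Q)
    (hS : ∀ s ∈ S, ∃ P q : 𝕜[X], s = aeval σ P / aeval σ q ∧ ‖aeval σ' P / aeval σ' q‖ ≤ ‖s‖)
    (hM : ∀ y ∈ M, ∃ r ∈ S.topologicalClosure, ∃ s ∈ S, s ≠ 0 ∧ y = r / s)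
    (hσ : ∃ r ∈ S, ∃ s ∈ S, s ≠ 0 ∧ σ = r / s) :
    ∃ j : M →ₐ[𝕜] Q, ∀ y : M, (y : Q) = σ → j y = σ' := by
  obtain ⟨φ, hφ⟩ := exists_phi h h'
  have le : S ≤ 𝕜⟮σ⟯.toSubalgebra := fun s hs => by
    obtain ⟨P, q, e, -⟩ := hS s hs
    exact (mem_adjoin_simple_iff 𝕜 s).2 ⟨P, q, e⟩
  obtain ⟨j, hj⟩ := ext_closure S (φ.comp (Subalgebra.inclusion le)) fun s => by
    obtain ⟨P, q, e, n⟩ := hS s s.2
    exact (hφ ⟨s, le s.2⟩ P q e).symm ▸ n
  obtain ⟨J, hJ⟩ := ext_frac S.topologicalClosure M (S.comap S.topologicalClosure.val) j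
    (fun s hs s0 => by
      rw [show j s = φ ⟨s, le hs⟩ from hj ⟨s, hs⟩]
      exact (_root_.map_ne_zero φ).2 fun k => s0 (Subtype.ext (congrArg (fun z : 𝕜⟮σ⟯ => (z : Q)) k)))
    fun y => by
      obtain ⟨r, hr, s, hs, s0, e⟩ := hM y y.2
      exact ⟨⟨r, hr⟩, ⟨s, S.le_topologicalClosure hs⟩, hs, fun k => s0 (congrArg Subtype.val k), e⟩
  obtain ⟨r, hr, s, hs, s0, e⟩ := hσ
  refine ⟨J, fun y hy => ?_⟩
  rw [hJ y ⟨r, S.le_topologicalClosure hr⟩ ⟨s, S.le_topologicalClosure hs⟩ hs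
    (fun k => s0 (congrArg Subtype.val k)) (hy.trans e), hj ⟨r, hr⟩, hj ⟨s, hs⟩]
  change φ ⟨r, le hr⟩ / φ ⟨s, le hs⟩ = σ'
  rw [← map_div₀, hφ _ X 1 (by simpa using e.symm)]
  simp

lemma aeval_le [IsUltrametricDist Q] {τ : Q} {P : 𝕜[X]} {r ρ : ℝ} {n : ℕ} (r0 : 0 ≤ r) (h1 : 1 ≤ ρ)
    (hτ : ‖τ‖ ≤ ρ) (hP : ∀ i, ‖P.coeff i‖ ≤ r) (hn : P.natDegree ≤ n) : ‖aeval τ P‖ ≤ r * ρ ^ n := by
  rw [aeval_eq_sum_range]
  refine IsUltrametricDist.norm_sum_le_of_forall_le_of_nonneg (by positivity) fun i hi => ?_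
  rw [norm_smul, norm_pow]
  refine mul_le_mul (hP i) ((pow_le_pow_left₀ (norm_nonneg _) hτ i).trans
    (pow_le_pow_right₀ h1 ?_)) (by positivity) r0
  have := Finset.mem_range.1 hi
  omega

lemma norm_monic [IsAlgClosed 𝕜] {τ : Q} {q : 𝕜[X]} {ρ : ℝ} (hq : q.Monic)
    (h : ∀ a, q.IsRoot a → ‖τ - algebraMap 𝕜 Q a‖ = ρ) : ‖aeval τ q‖ = ρ ^ q.natDegree := by
  rw [(IsAlgClosed.splits q).natDegree_eq_card_roots]
  conv_lhs => rw [(IsAlgClosed.splits q).eq_prod_roots_of_monic hq]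
  rw [map_multiset_prod, ← normHom_apply, map_multiset_prod, Multiset.map_map, Multiset.map_map,
    Multiset.map_congr rfl (g := fun _ => ρ) fun a ha => by
      simpa using h a (isRoot_of_mem_roots ha)]
  simp

lemma taylor [IsUltrametricDist Q] (f : Q[X]) (hf : ∀ i, ‖f.coeff i‖ ≤ 1) {a b c : Q} {ρ : ℝ}
    (ha : ‖a‖ ≤ 1) (hb : ‖b‖ ≤ 1) (hc : ‖c‖ ≤ 1) (h1 : ‖a - b‖ ≤ ρ) (h2 : ‖b - c‖ ≤ ρ) :
    ‖f.eval a - f.eval b - f.derivative.eval c * (a - b)‖ ≤ ρ * ‖a - b‖ := by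
  let O : Subring Q :=
    { carrier := {x | ‖x‖ ≤ 1}
      mul_mem' := fun {x y} hx hy => by
        rw [Set.mem_ofPred_eq, norm_mul]; exact mul_le_one₀ hx (norm_nonneg _) hy
      one_mem' := by simp
      add_mem' := fun {x y} hx hy => (IsUltrametricDist.norm_add_le_max x y).trans (max_le hx hy)
      zero_mem' := by simp
      neg_mem' := fun {x} hx => by simpa using hx }
  obtain ⟨g, rfl⟩ : f ∈ lifts O.subtype := (lifts_iff_coeff_lifts f).2 fun i => ⟨⟨_, hf i⟩, rfl⟩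
  obtain ⟨k, hk⟩ := binomExpansion g ⟨b, hb⟩ (⟨a, ha⟩ - ⟨b, hb⟩)
  obtain ⟨k', hk'⟩ := evalSubFactor g.derivative ⟨b, hb⟩ ⟨c, hc⟩
  have e1 := congrArg O.subtype hk
  have e2 := congrArg O.subtype hk'
  simp only [add_sub_cancel, map_add, map_mul, map_sub, map_pow, ← eval_map_apply,
    ← derivative_map] at e1 e2
  simp only [Subring.subtype_apply] at e1 e2
  rw [coe_mapRingHom, show (g.map O.subtype).eval a - (g.map O.subtype).eval b -
    (g.map O.subtype).derivative.eval c * (a - b) = (k' * (b - c) + k * (a - b)) * (a - b) by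
      linear_combination e1 + (a - b) * e2, norm_mul]
  refine mul_le_mul_of_nonneg_right ((IsUltrametricDist.norm_add_le_max _ _).trans (max_le ?_ ?_))
    (norm_nonneg _) <;> rw [norm_mul]
  · exact (mul_le_of_le_one_left (norm_nonneg _) k'.2).trans h2
  · exact (mul_le_of_le_one_left (norm_nonneg _) k.2).trans h1

lemma hensel [IsUltrametricDist Q] [CompleteSpace Q] (R : Subalgebra 𝕜 Q) (hR : IsClosed (R : Set Q))
    (f : Q[X]) (hf : ∀ i, f.coeff i ∈ R ∧ ‖f.coeff i‖ ≤ 1) (a₀ c : 𝕜) (h0 : ‖a₀‖ ≤ 1) (hc : ‖c‖ = 1)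
    (h1 : ‖f.eval (algebraMap 𝕜 Q a₀)‖ < 1)
    (h2 : ‖f.derivative.eval (algebraMap 𝕜 Q a₀) - algebraMap 𝕜 Q c‖ < 1) :
    ∃ a ∈ R, f.eval a = 0 ∧ ‖a - algebraMap 𝕜 Q a₀‖ < 1 := by
  set A := algebraMap 𝕜 Q a₀ with hA
  set ρ := ‖f.eval A‖ with hρ
  have A1 : ‖A‖ ≤ 1 := by rwa [hA, norm_algebraMap']
  have c1 : ‖algebraMap 𝕜 Q c‖ = 1 := by rwa [norm_algebraMap']
  have c0 : algebraMap 𝕜 Q c ≠ 0 := norm_ne_zero_iff.1 (by rw [c1]; exact one_ne_zero)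
  let B : Set Q := (R : Set Q) ∩ Metric.closedBall A ρ
  let T : Q → Q := fun a => a - f.eval a / algebraMap 𝕜 Q c
  let K : NNReal := max ‖f.eval A‖₊ ‖f.derivative.eval A - algebraMap 𝕜 Q c‖₊
  have K1 : K < 1 := max_lt h1 h2
  have n1 : ∀ a, ‖a - A‖ ≤ ρ → ‖a‖ ≤ 1 := fun a ha => by
    have := IsUltrametricDist.norm_add_le_max (a - A) A
    rw [sub_add_cancel] at this
    exact this.trans (max_le (ha.trans h1.le) A1)
  have lip : ∀ a b, ‖a - A‖ ≤ ρ → ‖b - A‖ ≤ ρ → ‖T a - T b‖ ≤ K * ‖a - b‖ := fun a b ha hb => by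
    have ab : ‖a - b‖ ≤ ρ := by
      rw [← sub_sub_sub_cancel_right a b A]
      exact (sub_le_max _ _).trans (max_le ha hb)
    have t := taylor f (fun i => (hf i).2) (n1 a ha) (n1 b hb) A1 ab hb
    rw [show T a - T b = -((f.eval a - f.eval b - f.derivative.eval A * (a - b)) +
      (f.derivative.eval A - algebraMap 𝕜 Q c) * (a - b)) / algebraMap 𝕜 Q c by
        simp only [T]; field_simp; ring, norm_div, c1, div_one, norm_neg]
    refine (IsUltrametricDist.norm_add_le_max _ _).trans (max_le (t.trans ?_) ?_)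
    · exact mul_le_mul_of_nonneg_right (le_max_left _ _) (norm_nonneg _)
    · rw [norm_mul]
      exact mul_le_mul_of_nonneg_right (le_max_right _ _) (norm_nonneg _)
  have A0 : ‖A - A‖ ≤ ρ := by simp [hρ]
  have mt : Set.MapsTo T B B := fun a ⟨a1, a2⟩ => by
    rw [mem_closedBall_iff_norm] at a2
    refine ⟨sub_mem a1 ?_, mem_closedBall_iff_norm.2 ?_⟩
    · rw [div_eq_mul_inv, ← map_inv₀, eval_eq_sum_range]
      exact mul_mem (sum_mem fun i _ => mul_mem (hf i).1 (pow_mem a1 i)) (R.algebraMap_mem _)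
    · rw [show T a - A = (T a - T A) - f.eval A / algebraMap 𝕜 Q c by simp only [T]; ring]
      refine (sub_le_max _ _).trans (max_le ((lip a A a2 A0).trans ?_) ?_)
      · exact (mul_le_of_le_one_left (norm_nonneg _) K1.le).trans a2
      · rw [norm_div, c1, div_one]
  have ct : ContractingWith K (mt.restrict T B B) := ⟨K1, LipschitzWith.of_dist_le_mul fun a b => by
    simp only [Subtype.dist_eq, dist_eq_norm]
    exact lip a b (mem_closedBall_iff_norm.1 a.2.2) (mem_closedBall_iff_norm.1 b.2.2)⟩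
  obtain ⟨y, hy, fx, -⟩ := ContractingWith.exists_fixedPoint' (hR.inter Metric.isClosed_closedBall).isComplete
    mt ct (x := A) ⟨R.algebraMap_mem _, mem_closedBall_iff_norm.2 A0⟩ (edist_ne_top _ _)
  refine ⟨y, hy.1, ?_, (mem_closedBall_iff_norm.1 hy.2).trans_lt h1⟩
  have : y - f.eval y / algebraMap 𝕜 Q c = y := fx
  simpa [c0] using this

lemma red {k : Type} [Field k] [Algebra k 𝕜] [IsUltrametricDist Q] [Algebra k Q] [IsScalarTower k 𝕜 Q]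
    {σ : Q} (hσ : ‖σ‖ = 1) (h : ∀ a : 𝕜, ‖a‖ ≤ 1 → ∃ c : k, ‖a - algebraMap k 𝕜 c‖ < 1) (P : 𝕜[X])
    (hP : ∀ i, ‖P.coeff i‖ ≤ 1) : ∃ P0 : k[X], ‖aeval σ P - aeval σ P0‖ < 1 := by
  choose c hc using fun i => h _ (hP i)
  refine ⟨∑ i ∈ Finset.range (P.natDegree + 1), monomial i (c i), ?_⟩
  rw [aeval_eq_sum_range, map_sum, ← Finset.sum_sub_distrib]
  obtain ⟨i, -, hi⟩ := IsUltrametricDist.exists_norm_finsetSum_le_of_nonempty
    (Finset.nonempty_range_add_one (n := P.natDegree)) fun i => P.coeff i • σ ^ i - aeval σ (monomial i (c i))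
  refine hi.trans_lt ?_
  rw [aeval_monomial, IsScalarTower.algebraMap_apply k 𝕜 Q, ← Algebra.smul_def, ← sub_smul, norm_smul,
    norm_pow, hσ, one_pow, mul_one]
  exact hc i

end EvalN

open EvalN in
theorem blockEvalN (hG : StmtGN) : StmtEvalN where
  ev1 𝕜 Q _ _ _ _ _ _ _ _ σ hσ σ' h' h1 := by
    refine ext_all (hG.tr 𝕜 Q σ hσ) h' (Algebra.adjoin 𝕜 {σ}) _ (fun s hs => ?_) (fun y hy => ?_)
      ⟨σ, Algebra.self_mem_adjoin_singleton _ _, 1, one_mem _, one_ne_zero, by simp⟩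
    · rw [Algebra.adjoin_singleton_eq_range_aeval] at hs
      obtain ⟨P, rfl⟩ := hs
      refine ⟨P, 1, by simp, ?_⟩
      simpa using aeval_le (norm_nonneg _) le_rfl h1
        ((hG.coeff 𝕜 Q σ hσ P _ (norm_nonneg _)).1 le_rfl) le_rfl
    · obtain ⟨r, hr, q, q0, e⟩ := hG.mer1 𝕜 Q σ hσ y hy
      exact ⟨r, hr, _, aeval_mem_adjoin_singleton _ _,
        fun k => hG.tr 𝕜 Q σ hσ ⟨q, q0, k⟩, e⟩
  ev2 𝕜 Q _ _ _ _ _ _ _ _ σ hσ σ' h' h1 := by
    have σ0 : σ ≠ 0 := fun k => hG.tr 𝕜 Q σ hσ (k ▸ isAlgebraic_zero)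
    refine ext_all (hG.tr 𝕜 Q σ hσ) h' _ _ (fun s hs => ?_) (hG.mer2 𝕜 Q σ hσ)
      ⟨1, one_mem _, σ⁻¹, Algebra.subset_adjoin ⟨0, by simp, by simp⟩, inv_ne_zero σ0, by simp⟩
    obtain ⟨P, q, hq, rt, dg, rfl⟩ := (hG.s2 𝕜 Q σ hσ s).1 hs
    refine ⟨P, q, rfl, ?_⟩
    rw [norm_div, norm_div, norm_monic (τ := σ) (ρ := 1) hq fun a ha => by
        rw [hσ.gauss, max_eq_left (rt a ha)],
      norm_monic (τ := σ') (ρ := ‖σ'‖) hq fun a ha => by
        have : ‖-algebraMap 𝕜 Q a‖ < ‖σ'‖ := by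
          rw [norm_neg, norm_algebraMap']; exact (rt a ha).trans_lt h1
        rw [sub_eq_add_neg, IsUltrametricDist.norm_add_eq_max_of_norm_ne_norm this.ne',
          max_eq_left this.le],
      one_pow, div_one, div_le_iff₀ (by positivity)]
    exact aeval_le (norm_nonneg _) h1.le le_rfl ((hG.coeff 𝕜 Q σ hσ P _ (norm_nonneg _)).1 le_rfl) dg
  hensel 𝕜 Q _ _ _ _ _ := hensel
  resid k 𝕜 Q _ _ _ _ _ _ _ _ _ _ σ hσ hk h y hy := by
    have s1 : ‖σ‖ = 1 := by simpa using hσ.gauss 0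
    obtain ⟨e, he, ye⟩ := hσ.dense y 1 one_pos
    obtain ⟨P, q, rfl⟩ := (mem_adjoin_simple_iff 𝕜 e).1 he
    by_cases q0 : aeval σ q = 0
    · exact ⟨0, 1, one_ne_zero, by simpa [q0] using ye⟩
    have e1 : ‖aeval σ P / aeval σ q‖ ≤ 1 := by
      rw [← sub_sub_cancel y (aeval σ P / aeval σ q)]
      exact (sub_le_max _ _).trans (max_le hy ye.le)
    obtain ⟨c, hc⟩ : ∃ c : 𝕜, ‖c‖ = ‖aeval σ q‖ := by
      obtain ⟨i, -, hi⟩ := IsUltrametricDist.exists_norm_finsetSum_le_of_nonempty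
        (Finset.nonempty_range_add_one (n := q.natDegree)) fun i => q.coeff i • σ ^ i
      rw [← aeval_eq_sum_range, norm_smul, norm_pow, s1, one_pow, mul_one] at hi
      exact ⟨_, le_antisymm ((hG.coeff 𝕜 Q σ hσ q _ (norm_nonneg _)).1 le_rfl i) hi⟩
    have n0 : 0 < ‖aeval σ q‖ := norm_pos_iff.2 q0
    have c0 : c ≠ 0 := norm_pos_iff.1 (hc ▸ n0)
    have a1 : ‖aeval σ (c⁻¹ • q)‖ = 1 := by
      rw [map_smul, norm_smul, norm_inv, hc, inv_mul_cancel₀ n0.ne']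
    have a2 : ‖aeval σ (c⁻¹ • P)‖ ≤ 1 := by
      rwa [map_smul, norm_smul, norm_inv, hc, inv_mul_eq_div, ← norm_div]
    have a3 : aeval σ P / aeval σ q = aeval σ (c⁻¹ • P) / aeval σ (c⁻¹ • q) := by
      rw [map_smul, map_smul, Algebra.smul_def, Algebra.smul_def,
        mul_div_mul_left _ _ ((_root_.map_ne_zero _).2 (inv_ne_zero c0))]
    obtain ⟨P0, b1⟩ := red s1 h _ ((hG.coeff 𝕜 Q σ hσ _ _ zero_le_one).1 a2)
    obtain ⟨q1, b2⟩ := red s1 h _ ((hG.coeff 𝕜 Q σ hσ _ _ zero_le_one).1 a1.le)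
    rw [a3] at ye
    generalize aeval σ (c⁻¹ • P) = u at *
    generalize aeval σ (c⁻¹ • q) = w at *
    have b3 : ‖aeval σ q1‖ = 1 := by
      have : ‖-(w - aeval σ q1)‖ < ‖w‖ := by rwa [norm_neg, a1]
      rw [← sub_sub_cancel w (aeval σ q1), sub_eq_add_neg,
        IsUltrametricDist.norm_add_eq_max_of_norm_ne_norm this.ne', max_eq_left this.le, a1]
    have w0 : w ≠ 0 := norm_ne_zero_iff.1 (by rw [a1]; exact one_ne_zero)
    have w1 : aeval σ q1 ≠ 0 := norm_ne_zero_iff.1 (by rw [b3]; exact one_ne_zero)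
    refine ⟨P0, q1, fun k => w1 (by simp [k]), ?_⟩
    rw [← sub_add_sub_cancel y (u / w)]
    refine (IsUltrametricDist.norm_add_le_max _ _).trans_lt (max_lt ye ?_)
    rw [div_sub_div _ _ w0 w1, norm_div, norm_mul, a1, b3, mul_one, div_one,
      show u * aeval σ q1 - w * aeval σ P0 = w * (u - aeval σ P0) - u * (w - aeval σ q1) by ring]
    refine (sub_le_max _ _).trans_lt (max_lt ?_ ?_) <;> rw [norm_mul]
    · rwa [a1, one_mul]
    · exact (mul_le_of_le_one_left (norm_nonneg _) a2).trans_lt b2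

end Pool.Agent.Lib.IW
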