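import Pool.Agent.Lib.IW.EvalN

/-! Block EvalT: Laurent expansions. -/

open Polynomial IntermediateField
open scoped PowerSeries.WithPiTopology

namespace Pool.Agent.Lib.IW

namespace EvalT

variable {𝕜 Q : Type} [NormedField 𝕜] [NormedField Q] [NormedAlgebra 𝕜 Q]

/-- all coefficients are bounded by `r` -/
def Bd (r : ℝ) (f : PowerSeries 𝕜) : Prop := ∀ n, ‖PowerSeries.coeff n f‖ ≤ r

lemma Bd.nonneg {r : ℝ} {f : PowerSeries 𝕜} (h : Bd r f) : 0 ≤ r := (norm_nonneg _).trans (h 0)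

lemma Bd.mono {r s : ℝ} {f : PowerSeries 𝕜} (h : Bd r f) (hs : r ≤ s) : Bd s f :=
  fun n => (h n).trans hs

lemma bd_C (c : 𝕜) : Bd ‖c‖ (PowerSeries.C c) := fun n => by
  rw [PowerSeries.coeff_C]; split_ifs <;> simp

lemma bd_one : Bd 1 (1 : PowerSeries 𝕜) := by simpa using bd_C (1 : 𝕜)

lemma bd_X : Bd 1 (PowerSeries.X : PowerSeries 𝕜) := fun n => by
  rw [PowerSeries.coeff_X]; split_ifs <;> simp

lemma bd_geom {c : 𝕜} (hc : ‖c‖ ≤ 1) : Bd 1 (PowerSeries.mk fun n => c ^ n) := fun n => by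
  rw [PowerSeries.coeff_mk, norm_pow]; exact pow_le_one₀ (norm_nonneg _) hc

lemma geom_mul (c : 𝕜) :
    (PowerSeries.mk fun n => c ^ n) * (1 - PowerSeries.C c * PowerSeries.X) = 1 := by
  ext n
  rw [mul_sub, mul_one, mul_comm (PowerSeries.C c), ← mul_assoc, map_sub, PowerSeries.coeff_mul_C]
  rcases n with _ | n
  · simp
  · simp [PowerSeries.coeff_succ_mul_X, PowerSeries.coeff_one, pow_succ]

section
variable [IsUltrametricDist 𝕜]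

lemma Bd.add {r : ℝ} {f g : PowerSeries 𝕜} (h : Bd r f) (h' : Bd r g) : Bd r (f + g) := fun n => by
  rw [map_add]; exact (IsUltrametricDist.norm_add_le_max _ _).trans (max_le (h n) (h' n))

lemma Bd.mul {r s : ℝ} {f g : PowerSeries 𝕜} (h : Bd r f) (h' : Bd s g) : Bd (r * s) (f * g) :=
  fun n => by
    rw [PowerSeries.coeff_mul]
    refine IsUltrametricDist.norm_sum_le_of_forall_le_of_nonneg (mul_nonneg h.nonneg h'.nonneg)
      fun p _ => ?_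
    rw [norm_mul]
    exact mul_le_mul (h _) (h' _) (norm_nonneg _) h.nonneg

lemma Bd.pow {r : ℝ} {f : PowerSeries 𝕜} (h : Bd r f) (n : ℕ) : Bd (r ^ n) (f ^ n) := by
  induction n with
  | zero => simpa using bd_one
  | succ n ih => rw [pow_succ, pow_succ]; exact ih.mul h

lemma bd_sum {ι : Type} {r : ℝ} (r0 : 0 ≤ r) (s : Finset ι) (f : ι → PowerSeries 𝕜)
    (h : ∀ i ∈ s, Bd r (f i)) : Bd r (∑ i ∈ s, f i) := fun n => by
  rw [map_sum]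
  exact IsUltrametricDist.norm_sum_le_of_forall_le_of_nonneg r0 fun i hi => h i hi n

end

variable (𝕜) in
/-- the inclusion of power series in Laurent series -/
noncomputable def io : PowerSeries 𝕜 →ₐ[𝕜] LaurentSeries 𝕜 :=
  ⟨HahnSeries.ofPowerSeries ℤ 𝕜, fun _ => rfl⟩

lemma io_inj : Function.Injective (io 𝕜) := HahnSeries.ofPowerSeries_injective

lemma io_X : io 𝕜 PowerSeries.X = HahnSeries.single 1 1 := HahnSeries.ofPowerSeries_X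

lemma io_C (c : 𝕜) : io 𝕜 (PowerSeries.C c) = algebraMap 𝕜 _ c := (io 𝕜).commutes c

lemma tr_X : Transcendental 𝕜 (io 𝕜 PowerSeries.X) := by
  rintro ⟨P, h0, h⟩
  rw [aeval_algHom_apply, map_eq_zero_iff _ io_inj] at h
  have : aeval (PowerSeries.X : PowerSeries 𝕜) P = (P : PowerSeries 𝕜) := by
    exact eval₂_C_X_eq_coe
  rw [this, coe_eq_zero_iff] at h
  exact h0 h

lemma hom_num [IsUltrametricDist 𝕜] {α β : PowerSeries 𝕜} {ρ r : ℝ} (hα : Bd ρ α) (hβ : Bd ρ β)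
    (β0 : io 𝕜 β ≠ 0) {P : 𝕜[X]} {n : ℕ} (hP : ∀ i, ‖P.coeff i‖ ≤ r) (hn : P.natDegree ≤ n) :
    ∃ f, Bd (r * ρ ^ n) f ∧ io 𝕜 f = aeval (io 𝕜 α / io 𝕜 β) P * io 𝕜 β ^ n := by
  have r0 : 0 ≤ r := (norm_nonneg _).trans (hP 0)
  refine ⟨∑ i ∈ Finset.range (P.natDegree + 1), PowerSeries.C (P.coeff i) * (α ^ i * β ^ (n - i)),
    bd_sum (mul_nonneg r0 (pow_nonneg hα.nonneg _)) _ _ fun i hi => ?_, ?_⟩
  · have hi := Finset.mem_range.1 hi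
    have := ((bd_C (P.coeff i)).mono (hP i)).mul ((hα.pow i).mul (hβ.pow (n - i)))
    rwa [← pow_add, Nat.add_sub_cancel' (by omega)] at this
  · rw [aeval_eq_sum_range, map_sum, Finset.sum_mul]
    refine Finset.sum_congr rfl fun i hi => ?_
    have hi := Finset.mem_range.1 hi
    obtain ⟨m, rfl⟩ : ∃ m, n = i + m := ⟨n - i, by omega⟩
    rw [map_mul, map_mul, map_pow, map_pow, io_C, Algebra.smul_def, Nat.add_sub_cancel_left,
      div_pow, pow_add]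
    field_simp

lemma hom_den [IsUltrametricDist 𝕜] {α β : PowerSeries 𝕜} {ρ : ℝ} (β0 : io 𝕜 β ≠ 0)
    (h : ∀ b : 𝕜, ‖b‖ ≤ 1 → ∃ g, Bd ρ g ∧ g * (α - PowerSeries.C b * β) = 1) (s : Multiset 𝕜)
    (hs : ∀ b ∈ s, ‖b‖ ≤ 1) : ∃ g, Bd (ρ ^ s.card) g ∧
      io 𝕜 g * (aeval (io 𝕜 α / io 𝕜 β) (s.map fun b => X - C b).prod * io 𝕜 β ^ s.card) = 1 := by
  induction s using Multiset.induction_on with
  | empty => exact ⟨1, by simpa using bd_one, by simp⟩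
  | cons b s ih =>
    obtain ⟨g, g1, g2⟩ := ih fun c hc => hs c (Multiset.mem_cons_of_mem hc)
    obtain ⟨f, f1, f2⟩ := h b (hs b (Multiset.mem_cons_self _ _))
    refine ⟨g * f, by rw [Multiset.card_cons, pow_succ]; exact g1.mul f1, ?_⟩
    have f3 := congrArg (io 𝕜) f2
    rw [map_mul, map_sub, map_mul, io_C, map_one] at f3
    rw [Multiset.map_cons, Multiset.prod_cons, Multiset.card_cons, map_mul, map_mul, map_sub,
      aeval_X, aeval_C, pow_succ]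
    have f4 : io 𝕜 f * ((io 𝕜 α / io 𝕜 β - algebraMap 𝕜 _ b) * io 𝕜 β) = 1 := by
      rw [← f3, sub_mul, div_mul_cancel₀ _ β0]
    linear_combination (io 𝕜 f * ((io 𝕜 α / io 𝕜 β - algebraMap 𝕜 _ b) * io 𝕜 β)) * g2 + f4

lemma ext_closure [CompleteSpace 𝕜] (S : Subalgebra 𝕜 Q) (ψ : S →ₐ[𝕜] PowerSeries 𝕜)
    (h : ∀ s : S, Bd ‖(s : Q)‖ (ψ s)) : ∃ j : S.topologicalClosure →ₐ[𝕜] PowerSeries 𝕜,
      ∀ s : S, j ⟨s, S.le_topologicalClosure s.2⟩ = ψ s := by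
  let i : S →+* S.topologicalClosure := (Subalgebra.inclusion S.le_topologicalClosure).toRingHom
  have iso : Isometry i := fun _ _ => rfl
  have dr : DenseRange i := (denseRange_inclusion_iff S.le_topologicalClosure).2 fun _ hx => hx
  have uc : UniformContinuous ψ.toRingHom := by
    refine uniformContinuous_of_continuousAt_zero _ ?_
    rw [ContinuousAt, PowerSeries.WithPiTopology.tendsto_iff_coeff_tendsto]
    intro d
    exact (AddMonoidHomClass.lipschitz_of_bound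
      ((PowerSeries.coeff d).toAddMonoidHom.comp ψ.toRingHom.toAddMonoidHom) 1 fun s => by
        rw [one_mul]; exact h s d).continuous.continuousAt
  have e : ∀ s, IsDenseInducing.extendRingHom iso.isUniformInducing dr uc (i s) = ψ s := fun s =>
    IsDenseInducing.extend_eq (iso.isUniformInducing.isDenseInducing dr) uc.continuous s
  exact ⟨⟨IsDenseInducing.extendRingHom iso.isUniformInducing dr uc, fun c =>
    (e (algebraMap 𝕜 S c)).trans (ψ.commutes c)⟩, e⟩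

variable {L : Type} [Field L] [Algebra 𝕜 L]

lemma ext_frac (R M : Subalgebra 𝕜 Q) (S : Subalgebra 𝕜 R) (j : R →ₐ[𝕜] L)
    (hj : ∀ s ∈ S, s ≠ 0 → j s ≠ 0) (hM : ∀ y : M, ∃ r : R, ∃ s ∈ S, s ≠ 0 ∧ (y : Q) = r / s) :
    ∃ J : M →ₐ[𝕜] L, ∀ (y : M) (r : R), ∀ s ∈ S, s ≠ 0 → (y : Q) = r / s → J y = j r / j s := by
  choose r s hs s0 e using hM
  have ne : ∀ {t : R}, t ≠ 0 → (t : Q) ≠ 0 := fun h k => h (Subtype.ext k)
  have key : ∀ (y : M) (r' : R), ∀ s' ∈ S, s' ≠ 0 → (y : Q) = r' / s' →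
      j (r y) / j (s y) = j r' / j s' := fun y r' s' h1 h2 h3 => by
    rw [div_eq_div_iff (hj _ (hs y) (s0 y)) (hj _ h1 h2), ← map_mul, ← map_mul]
    congr 1
    exact Subtype.ext ((div_eq_div_iff (ne (s0 y)) (ne h2)).1 ((e y).symm.trans h3))
  have kc : ∀ (y : M) (r' : R), (y : Q) = r' → j (r y) / j (s y) = j r' := fun y r' h => by
    rw [key y r' 1 (one_mem _) one_ne_zero (by simpa using h), map_one, div_one]
  refine ⟨⟨⟨⟨⟨fun y => j (r y) / j (s y), ?_⟩, fun y z => ?_⟩, ?_, fun y z => ?_⟩, fun c => ?_⟩, key⟩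
  · rw [kc 1 1 rfl, map_one]
  · change j (r (y * z)) / j (s (y * z)) = j (r y) / j (s y) * (j (r z) / j (s z))
    rw [key (y * z) (r y * r z) (s y * s z) (mul_mem (hs y) (hs z)) (mul_ne_zero (s0 y) (s0 z))
      (by push_cast; rw [e y, e z, div_mul_div_comm]), map_mul, map_mul, div_mul_div_comm]
  · exact (kc 0 0 rfl).trans (map_zero _)
  · change j (r (y + z)) / j (s (y + z)) = j (r y) / j (s y) + j (r z) / j (s z)
    rw [key (y + z) (r y * s z + s y * r z) (s y * s z) (mul_mem (hs y) (hs z))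
      (mul_ne_zero (s0 y) (s0 z)) (by push_cast; rw [e y, e z, div_add_div _ _ (ne (s0 y)) (ne (s0 z))]),
      div_add_div _ _ (hj _ (hs y) (s0 y)) (hj _ (hs z) (s0 z)), map_add, map_mul, map_mul, map_mul]
  · exact (kc _ (algebraMap 𝕜 R c) rfl).trans (j.commutes c)

lemma exists_phi {σ : Q} {τ : L} (h : Transcendental 𝕜 σ) (h' : Transcendental 𝕜 τ) :
    ∃ φ : 𝕜⟮σ⟯ →ₐ[𝕜] L, ∀ (y : 𝕜⟮σ⟯) (P q : 𝕜[X]), (y : Q) = aeval σ P / aeval σ q →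
      φ y = aeval τ P / aeval τ q := by
  let φ : 𝕜⟮σ⟯ →ₐ[𝕜] L := (𝕜⟮τ⟯.val.comp (RatFunc.algEquivOfTranscendental τ h').toAlgHom).comp
    (RatFunc.algEquivOfTranscendental σ h).symm.toAlgHom
  have e : φ (AdjoinSimple.gen 𝕜 σ) = τ := by simp [φ]
  refine ⟨φ, fun y P q hy => ?_⟩
  have : y = aeval (AdjoinSimple.gen 𝕜 σ) P / aeval (AdjoinSimple.gen 𝕜 σ) q :=
    Subtype.ext (by simp [hy])
  rw [this, map_div₀, ← aeval_algHom_apply, ← aeval_algHom_apply, e]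

lemma lift_hom {A : Type} [CommRing A] [Algebra 𝕜 A] (φ : A →ₐ[𝕜] LaurentSeries 𝕜)
    (f : A → PowerSeries 𝕜) (hf : ∀ s, io 𝕜 (f s) = φ s) :
    ∃ ψ : A →ₐ[𝕜] PowerSeries 𝕜, ∀ s, ψ s = f s := by
  have h1 : f 1 = 1 := io_inj (by rw [hf, map_one, map_one])
  have h2 : ∀ x y, f (x * y) = f x * f y := fun x y => io_inj (by rw [map_mul, hf, hf, hf, map_mul])
  have h3 : f 0 = 0 := io_inj (by rw [hf, map_zero, map_zero])
  have h4 : ∀ x y, f (x + y) = f x + f y := fun x y => io_inj (by rw [map_add, hf, hf, hf, map_add])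
  have h5 : ∀ c, f (algebraMap 𝕜 A c) = algebraMap 𝕜 _ c := fun c =>
    io_inj (by rw [hf, AlgHom.commutes, AlgHom.commutes])
  exact ⟨⟨⟨⟨⟨f, h1⟩, h2⟩, h3, h4⟩, h5⟩, fun _ => rfl⟩

lemma ext_all [CompleteSpace 𝕜] {σ : Q} {τ : LaurentSeries 𝕜} (h : Transcendental 𝕜 σ)
    (h' : Transcendental 𝕜 τ) (S M : Subalgebra 𝕜 Q)
    (hS : ∀ s ∈ S, ∃ P q : 𝕜[X], s = aeval σ P / aeval σ q ∧
      ∃ f, Bd ‖s‖ f ∧ io 𝕜 f = aeval τ P / aeval τ q)
    (hM : ∀ y ∈ M, ∃ r ∈ S.topologicalClosure, ∃ s ∈ S, s ≠ 0 ∧ y = r / s)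
    (hσ : ∃ r ∈ S, ∃ s ∈ S, s ≠ 0 ∧ σ = r / s) :
    ∃ j : M →ₐ[𝕜] LaurentSeries 𝕜, ∀ y : M, (y : Q) = σ → j y = τ := by
  obtain ⟨φ, hφ⟩ := exists_phi h h'
  have le : S ≤ 𝕜⟮σ⟯.toSubalgebra := fun s hs => by
    obtain ⟨P, q, e, -⟩ := hS s hs
    exact (mem_adjoin_simple_iff 𝕜 s).2 ⟨P, q, e⟩
  let φ' : S →ₐ[𝕜] LaurentSeries 𝕜 := φ.comp (Subalgebra.inclusion le)
  have h1 : ∀ s : S, ∃ f, Bd ‖(s : Q)‖ f ∧ io 𝕜 f = φ' s := fun s => by
    obtain ⟨P, q, e, f, f1, f2⟩ := hS s s.2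
    exact ⟨f, f1, f2.trans (hφ ⟨s, le s.2⟩ P q e).symm⟩
  choose f f1 f2 using h1
  obtain ⟨ψ, hψ⟩ := lift_hom φ' f f2
  obtain ⟨j, hj⟩ := ext_closure S ψ fun s => by rw [hψ]; exact f1 s
  have hj' : ∀ s : S, (io 𝕜).comp j ⟨s, S.le_topologicalClosure s.2⟩ = φ ⟨s, le s.2⟩ := fun s =>
    (congrArg (io 𝕜) ((hj s).trans (hψ s))).trans (f2 s)
  obtain ⟨J, hJ⟩ := ext_frac S.topologicalClosure M (S.comap S.topologicalClosure.val)
    ((io 𝕜).comp j) (fun s hs s0 => by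
      rw [show (io 𝕜).comp j s = φ ⟨s, le hs⟩ from hj' ⟨s, hs⟩]
      exact (_root_.map_ne_zero φ).2 fun k => s0 (Subtype.ext (congrArg (fun z : 𝕜⟮σ⟯ => (z : Q)) k)))
    fun y => by
      obtain ⟨r, hr, s, hs, s0, e⟩ := hM y y.2
      exact ⟨⟨r, hr⟩, ⟨s, S.le_topologicalClosure hs⟩, hs, fun k => s0 (congrArg Subtype.val k), e⟩
  obtain ⟨r, hr, s, hs, s0, e⟩ := hσ
  refine ⟨J, fun y hy => ?_⟩
  rw [hJ y ⟨r, S.le_topologicalClosure hr⟩ ⟨s, S.le_topologicalClosure hs⟩ hs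
    (fun k => s0 (congrArg Subtype.val k)) (hy.trans e), hj' ⟨r, hr⟩, hj' ⟨s, hs⟩]
  change φ ⟨r, le hr⟩ / φ ⟨s, le hs⟩ = τ
  rw [← map_div₀, hφ _ X 1 (by simpa using e.symm)]
  simp

lemma mem_mer (σ : Q) (R : Subalgebra 𝕜 Q) : σ ∈ Mer 𝕜 σ R :=
  (le_sup_right : _ ≤ Mer 𝕜 σ R) (mem_adjoin_simple_self 𝕜 σ)

lemma shift {σ : Q} {R : Subalgebra 𝕜 Q} {a : 𝕜} (j : Mer 𝕜 σ R →ₐ[𝕜] LaurentSeries 𝕜)
    (hj : ∀ y : Mer 𝕜 σ R, (y : Q) = σ → j y = io 𝕜 (PowerSeries.C a + PowerSeries.X) / io 𝕜 1)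
    (y : Mer 𝕜 σ R) (hy : (y : Q) = σ - algebraMap 𝕜 Q a) : j y = HahnSeries.single 1 1 := by
  have : y = ⟨σ, mem_mer σ R⟩ - algebraMap 𝕜 _ a := Subtype.ext hy
  rw [this, map_sub, hj _ rfl, j.commutes, map_one, div_one, map_add, io_C, io_X,
    add_sub_cancel_left]

lemma tr_shift (a : 𝕜) : Transcendental 𝕜 (io 𝕜 (PowerSeries.C a + PowerSeries.X) / io 𝕜 1) := by
  rw [map_one, div_one, map_add, io_C]
  intro h
  exact tr_X (by simpa using h.sub (isAlgebraic_algebraMap a))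

lemma ext2 (hG : StmtGN) [IsUltrametricDist 𝕜] [CompleteSpace 𝕜] [IsAlgClosed 𝕜] {σ : Q}
    (hσ : Gauss 𝕜 σ) {α β : PowerSeries 𝕜} {ρ : ℝ} (ρ0 : ρ ≠ 0) (hα : Bd ρ α) (hβ : Bd ρ β)
    (β0 : io 𝕜 β ≠ 0) (ht : Transcendental 𝕜 (io 𝕜 α / io 𝕜 β))
    (h : ∀ b : 𝕜, ‖b‖ ≤ 1 → ∃ g, Bd ρ⁻¹ g ∧ g * (α - PowerSeries.C b * β) = 1) :
    ∃ j : Mer 𝕜 σ (R2 𝕜 σ) →ₐ[𝕜] LaurentSeries 𝕜,
      ∀ y : Mer 𝕜 σ (R2 𝕜 σ), (y : Q) = σ → j y = io 𝕜 α / io 𝕜 β := by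
  have σ0 : σ ≠ 0 := fun k => hG.tr 𝕜 Q σ hσ (k ▸ isAlgebraic_zero)
  refine ext_all (hG.tr 𝕜 Q σ hσ) ht _ _ (fun s hs => ?_) (hG.mer2 𝕜 Q σ hσ)
    ⟨1, one_mem _, σ⁻¹, Algebra.subset_adjoin ⟨0, by simp, by simp⟩, inv_ne_zero σ0, by simp⟩
  obtain ⟨P, q, hq, rt, dg, rfl⟩ := (hG.s2 𝕜 Q σ hσ s).1 hs
  refine ⟨P, q, rfl, ?_⟩
  obtain ⟨f, f1, f2⟩ := hom_num hα hβ β0 ((hG.coeff 𝕜 Q σ hσ P _ (norm_nonneg _)).1 le_rfl) dg
  obtain ⟨g, g1, g2⟩ := hom_den β0 h q.roots fun b hb => rt b (isRoot_of_mem_roots hb)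
  rw [← (IsAlgClosed.splits q).eq_prod_roots_of_monic hq,
    ← (IsAlgClosed.splits q).natDegree_eq_card_roots] at g2
  rw [← (IsAlgClosed.splits q).natDegree_eq_card_roots] at g1
  refine ⟨f * g, ?_, ?_⟩
  · have := f1.mul g1
    rwa [mul_assoc, ← mul_pow, mul_inv_cancel₀ ρ0, one_pow, mul_one, ← div_one ‖_‖,
      ← one_pow (M := ℝ) q.natDegree, ← EvalN.norm_monic (τ := σ) (ρ := 1) hq fun a ha => by
        rw [hσ.gauss, max_eq_left (rt a ha)], ← norm_div] at this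
  · rw [map_mul, f2, eq_div_iff (left_ne_zero_of_mul (right_ne_zero_of_mul_eq_one g2))]
    linear_combination (aeval (io 𝕜 α / io 𝕜 β) P) * g2

end EvalT

open EvalT in
theorem blockEvalT (hG : StmtGN) : StmtEvalT where
  at1 𝕜 Q _ _ _ _ _ _ _ _ σ hσ a ha := by
    obtain ⟨j, hj⟩ := ext_all (hG.tr 𝕜 Q σ hσ) (tr_shift a) (Algebra.adjoin 𝕜 {σ})
      (Mer 𝕜 σ (R1 𝕜 σ)) (fun s hs => by
        rw [Algebra.adjoin_singleton_eq_range_aeval] at hs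
        obtain ⟨P, rfl⟩ := hs
        obtain ⟨f, f1, f2⟩ := hom_num (((bd_C a).mono ha).add bd_X) bd_one (by simp)
          ((hG.coeff 𝕜 Q σ hσ P _ (norm_nonneg _)).1 le_rfl) le_rfl
        exact ⟨P, 1, by simp, f, by simpa using f1, by simpa using f2⟩)
      (fun y hy => by
        obtain ⟨r, hr, q, q0, e⟩ := hG.mer1 𝕜 Q σ hσ y hy
        exact ⟨r, hr, _, aeval_mem_adjoin_singleton _ _,
          fun k => hG.tr 𝕜 Q σ hσ ⟨q, q0, k⟩, e⟩)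
      ⟨σ, Algebra.self_mem_adjoin_singleton _ _, 1, one_mem _, one_ne_zero, by simp⟩
    exact ⟨j, shift j hj⟩
  at2 𝕜 Q _ _ _ _ _ _ _ _ σ hσ a ha := by
    obtain ⟨j, hj⟩ := ext2 hG hσ (ρ := ‖a‖) (by positivity) ((bd_C a).add (bd_X.mono ha.le))
      (bd_one.mono ha.le) (by simp) (tr_shift a) fun b hb => by
        have h1 : ‖-b‖ < ‖a‖ := by rw [norm_neg]; exact hb.trans_lt ha
        have h2 : ‖a - b‖ = ‖a‖ := by
          rw [sub_eq_add_neg, IsUltrametricDist.norm_add_eq_max_of_norm_ne_norm h1.ne',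
            max_eq_left h1.le]
        have h3 : a - b ≠ 0 := norm_pos_iff.1 (by rw [h2]; positivity)
        have h4 : ‖-(a - b)⁻¹‖ ≤ 1 := by
          rw [norm_neg, norm_inv, h2]; exact inv_le_one_of_one_le₀ ha.le
        refine ⟨PowerSeries.C (a - b)⁻¹ * PowerSeries.mk fun n => (-(a - b)⁻¹) ^ n, ?_, ?_⟩
        · simpa [h2] using (bd_C (a - b)⁻¹).mul (bd_geom h4)
        · have h5 : PowerSeries.C (a - b)⁻¹ * (PowerSeries.C a - PowerSeries.C b) = 1 := by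
            rw [← map_sub, ← map_mul, inv_mul_cancel₀ h3, map_one]
          have h6 := geom_mul (-(a - b)⁻¹)
          rw [map_neg] at h6
          linear_combination h6 + (PowerSeries.mk fun n => (-(a - b)⁻¹) ^ n) * h5
    exact ⟨j, shift j hj⟩
  inf 𝕜 Q _ _ _ _ _ _ _ _ σ hσ := by
    have X0 : io 𝕜 PowerSeries.X ≠ 0 := fun k => tr_X (k ▸ isAlgebraic_zero)
    obtain ⟨j, hj⟩ := ext2 hG hσ (ρ := 1) one_ne_zero bd_one bd_X X0
      (by rw [map_one, one_div]; exact fun k => tr_X (IsAlgebraic.inv_iff.1 k))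
      fun b hb => ⟨_, by simpa using bd_geom hb, geom_mul b⟩
    refine ⟨j, fun y hy => ?_⟩
    have σ0 : σ ≠ 0 := fun k => hG.tr 𝕜 Q σ hσ (k ▸ isAlgebraic_zero)
    have h1 : y * ⟨σ, mem_mer σ _⟩ = 1 := Subtype.ext (by
      change (y : Q) * σ = 1
      rw [hy, inv_mul_cancel₀ σ0])
    have h2 := congrArg j h1
    rw [map_mul, hj ⟨σ, mem_mer σ _⟩ rfl, map_one, map_one, mul_one_div, div_eq_one_iff_eq X0] at h2
    rw [h2, io_X]

end Pool.Agent.Lib.IW
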