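import Pool.Agent.Lib.IW.Util

/-! Cartan factorisation. -/

open Polynomial IntermediateField Filter Topology

namespace Pool.Agent.Lib.IW

namespace Fact

theorem cartan {R : Type} [NormedRing R] [CompleteSpace R] (S1 S2 : Subring R)
    (h1 : IsClosed (S1 : Set R)) (h2 : IsClosed (S2 : Set R))
    (hadd : ∀ y : R, ∃ a ∈ S1, ∃ b ∈ S2, y = a + b ∧ ‖a‖ ≤ ‖y‖ ∧ ‖b‖ ≤ ‖y‖)
    (N : R) (hN : ‖N‖ ≤ 1 / 10) :
    ∃ u ∈ S1, ∃ v ∈ S2, ‖u‖ < 1 ∧ ‖v‖ < 1 ∧ 1 + N = (1 + u) * (1 + v) := by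
  choose f hf g hg hfg hfn hgn using hadd
  let step : R × R × R → R × R × R := fun t =>
    (t.1 + f t.2.2, t.2.1 + g t.2.2, -(f t.2.2 * t.2.1 + t.1 * g t.2.2 + f t.2.2 * g t.2.2))
  let x : ℕ → R × R × R := fun n => step^[n] (0, 0, N)
  have hx : ∀ n, x (n + 1) = step (x n) := fun n => Function.iterate_succ_apply' _ _ _
  have inv : ∀ n, (x n).1 ∈ S1 ∧ (x n).2.1 ∈ S2 ∧
      (x n).1 + (x n).2.1 + (x n).1 * (x n).2.1 + (x n).2.2 = N ∧
      ‖(x n).2.2‖ ≤ 1 / 10 * (1 / 2) ^ n ∧ ‖(x n).1‖ ≤ 1 / 5 * (1 - (1 / 2) ^ n) ∧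
      ‖(x n).2.1‖ ≤ 1 / 5 * (1 - (1 / 2) ^ n) := by
    intro n
    induction n with
    | zero => simpa [x] using hN
    | succ n ih =>
      obtain ⟨i1, i2, i3, i4, i5, i6⟩ := ih
      rw [hx]
      set u := (x n).1
      set v := (x n).2.1
      set e := (x n).2.2
      have hq0 : (0 : ℝ) < (1 / 2) ^ n := by positivity
      have hq1 : ((1 : ℝ) / 2) ^ n ≤ 1 := pow_le_one₀ (by norm_num) (by norm_num)
      have a1 := (hfn e).trans i4
      have a2 := (hgn e).trans i4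
      refine ⟨S1.add_mem i1 (hf e), S2.add_mem i2 (hg e), ?_, ?_, ?_, ?_⟩
      · change u + f e + (v + g e) + (u + f e) * (v + g e) +
          -(f e * v + u * g e + f e * g e) = N
        rw [← i3]
        conv_rhs => rw [hfg e]
        noncomm_ring
      · change ‖-(f e * v + u * g e + f e * g e)‖ ≤ _
        rw [norm_neg]
        have b1 : ‖f e * v‖ ≤ (1 / 10 * (1 / 2) ^ n) * (1 / 5) :=
          (norm_mul_le _ _).trans (mul_le_mul a1 (by linarith) (norm_nonneg _) (by positivity))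
        have b2 : ‖u * g e‖ ≤ (1 / 5) * (1 / 10 * (1 / 2) ^ n) :=
          (norm_mul_le _ _).trans (mul_le_mul (by linarith) a2 (norm_nonneg _) (by positivity))
        have b3 : ‖f e * g e‖ ≤ (1 / 10 * (1 / 2) ^ n) * (1 / 10) :=
          (norm_mul_le _ _).trans (mul_le_mul a1 (by linarith) (norm_nonneg _) (by positivity))
        have b4 := norm_add₃_le (a := f e * v) (b := u * g e) (c := f e * g e)
        rw [pow_succ]
        linarith
      · change ‖u + f e‖ ≤ _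
        have := norm_add_le u (f e)
        rw [pow_succ]
        linarith
      · change ‖v + g e‖ ≤ _
        have := norm_add_le v (g e)
        rw [pow_succ]
        linarith
  have c1 : CauchySeq fun n => (x n).1 := by
    refine cauchySeq_of_le_geometric (1 / 2) (1 / 10) (by norm_num) fun n => ?_
    rw [dist_comm, dist_eq_norm, hx]
    change ‖(x n).1 + f (x n).2.2 - (x n).1‖ ≤ _
    rw [add_sub_cancel_left]
    exact (hfn _).trans (inv n).2.2.2.1
  have c2 : CauchySeq fun n => (x n).2.1 := by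
    refine cauchySeq_of_le_geometric (1 / 2) (1 / 10) (by norm_num) fun n => ?_
    rw [dist_comm, dist_eq_norm, hx]
    change ‖(x n).2.1 + g (x n).2.2 - (x n).2.1‖ ≤ _
    rw [add_sub_cancel_left]
    exact (hgn _).trans (inv n).2.2.2.1
  obtain ⟨u, hu⟩ := cauchySeq_tendsto_of_complete c1
  obtain ⟨v, hv⟩ := cauchySeq_tendsto_of_complete c2
  have he : Tendsto (fun n => (x n).2.2) atTop (𝓝 0) := by
    refine squeeze_zero_norm (fun n => (inv n).2.2.2.1) ?_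
    simpa using (tendsto_pow_atTop_nhds_zero_of_lt_one (r := (1 / 2 : ℝ)) (by norm_num)
      (by norm_num)).const_mul (1 / 10 : ℝ)
  have hq0 : ∀ n : ℕ, (0 : ℝ) < (1 / 2) ^ n := fun n => by positivity
  have n1 : ‖u‖ ≤ 1 / 5 :=
    le_of_tendsto' hu.norm fun n => by linarith [(inv n).2.2.2.2.1, hq0 n]
  have n2 : ‖v‖ ≤ 1 / 5 :=
    le_of_tendsto' hv.norm fun n => by linarith [(inv n).2.2.2.2.2, hq0 n]
  refine ⟨u, h1.mem_of_tendsto hu (Eventually.of_forall fun n => (inv n).1),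
    v, h2.mem_of_tendsto hv (Eventually.of_forall fun n => (inv n).2.1), by linarith, by linarith,
    ?_⟩
  have h3 := ((hu.add hv).add (hu.mul hv)).add he
  have h4 : u + v + u * v + 0 = N :=
    tendsto_nhds_unique h3 (by simp only [fun n => (inv n).2.2.1]; exact tendsto_const_nhds)
  rw [← h4]
  noncomm_ring

theorem neumann {R : Type} [NormedRing R] [CompleteSpace R] (S : Subring R)
    (h : IsClosed (S : Set R)) {u : R} (hu : u ∈ S) (hn : ‖u‖ < 1) :
    ∃ w ∈ S, (1 + u) * w = 1 := by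
  have hn' : ‖-u‖ < 1 := by rwa [norm_neg]
  refine ⟨∑' i : ℕ, (-u) ^ i, ?_, by simpa using mul_neg_geom_series (-u) hn'⟩
  refine h.mem_of_tendsto (summable_geometric_of_norm_lt_one hn').hasSum.tendsto_sum_nat
    (Eventually.of_forall fun n => ?_)
  exact S.sum_mem fun i _ => S.pow_mem (S.neg_mem hu) i

section Mat

attribute [local instance] Matrix.linftyOpNormedRing Matrix.linftyOpNormedAddCommGroup

variable {Q : Type} [NormedField Q] {ι : Type} [Fintype ι] [DecidableEq ι]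

theorem norm_mono {A B : Matrix ι ι Q} (h : ∀ i j, ‖A i j‖ ≤ ‖B i j‖) : ‖A‖ ≤ ‖B‖ := by
  rw [Matrix.linfty_opNorm_def, Matrix.linfty_opNorm_def, NNReal.coe_le_coe]
  exact Finset.sup_mono_fun fun i _ => Finset.sum_le_sum fun j _ => h i j

theorem norm_le_card {A : Matrix ι ι Q} {δ : ℝ} (h0 : 0 ≤ δ) (h : ∀ i j, ‖A i j‖ ≤ δ) :
    ‖A‖ ≤ Fintype.card ι * δ := by
  lift δ to NNReal using h0
  rw [Matrix.linfty_opNorm_def]
  have : (Finset.univ.sup fun i => ∑ j, ‖A i j‖₊) ≤ (Fintype.card ι : NNReal) * δ := by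
    refine Finset.sup_le fun i _ => ?_
    calc ∑ j, ‖A i j‖₊ ≤ ∑ _j : ι, δ := Finset.sum_le_sum fun j _ => h i j
      _ = _ := by simp
  exact_mod_cast this

theorem closed_mat {S : Subring Q} (h : IsClosed (S : Set Q)) :
    IsClosed ((S.matrix : Subring (Matrix ι ι Q)) : Set (Matrix ι ι Q)) := by
  have : ((S.matrix : Subring (Matrix ι ι Q)) : Set (Matrix ι ι Q)) =
      ⋂ i, ⋂ j, (fun A : Matrix ι ι Q => A i j) ⁻¹' (S : Set Q) := by
    ext A
    simp only [Set.mem_iInter]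
    rfl
  rw [this]
  exact isClosed_iInter fun i => isClosed_iInter fun j =>
    h.preimage (continuous_id.matrix_elem i j)

theorem mat_fact [CompleteSpace Q] (S1 S2 : Subring Q) (F : Subfield Q)
    (h1 : IsClosed (S1 : Set Q)) (h2 : IsClosed (S2 : Set Q))
    (hadd : ∀ y : Q, ∃ a ∈ S1, ∃ b ∈ S2, y = a + b ∧ ‖a‖ ≤ ‖y‖ ∧ ‖b‖ ≤ ‖y‖)
    (hd : ∀ (y : Q) (ε : ℝ), 0 < ε → ∃ e ∈ F, ‖y - e‖ < ε) (A : Matrix ι ι Q) (hA : A.det ≠ 0) :
    ∃ E E' U U' V V' : Matrix ι ι Q, (∀ i j, E i j ∈ F) ∧ (∀ i j, E' i j ∈ F) ∧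
      (∀ i j, U i j ∈ S1) ∧ (∀ i j, U' i j ∈ S1) ∧ (∀ i j, V i j ∈ S2) ∧ (∀ i j, V' i j ∈ S2) ∧
      E' * E = 1 ∧ U * U' = 1 ∧ V * V' = 1 ∧ E * A = U * V := by
  have : @CompleteSpace (Matrix ι ι Q) PseudoMetricSpace.toUniformSpace :=
    inferInstanceAs (CompleteSpace (ι → ι → Q))
  have hpos : (0 : ℝ) < (Fintype.card ι + 1) * (‖A‖ + 1) := by positivity
  set δ : ℝ := 1 / (10 * ((Fintype.card ι + 1) * (‖A‖ + 1))) with hδ
  have hδ0 : 0 < δ := by positivity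
  choose e he hen using fun i j => hd (A⁻¹ i j) δ hδ0
  set E : Matrix ι ι Q := Matrix.of e with hE
  have n1 : ‖E - A⁻¹‖ ≤ Fintype.card ι * δ := norm_le_card hδ0.le fun i j => by
    rw [Matrix.sub_apply, norm_sub_rev]
    exact (hen i j).le
  have n2 : ‖(E - A⁻¹) * A‖ ≤ 1 / 10 := by
    refine (norm_mul_le _ _).trans ?_
    calc ‖E - A⁻¹‖ * ‖A‖ ≤ ((Fintype.card ι + 1) * δ) * (‖A‖ + 1) :=
          mul_le_mul (n1.trans (by nlinarith)) (by linarith) (norm_nonneg _) (by positivity)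
      _ = 1 / 10 := by
          rw [hδ]
          field_simp
  obtain ⟨u, hu, v, hv, hu1, hv1, huv⟩ := cartan (R := Matrix ι ι Q) S1.matrix S2.matrix
    (closed_mat h1) (closed_mat h2) (fun y => by
      choose a ha b hb hab h3 h4 using fun i j => hadd (y i j)
      exact ⟨Matrix.of a, ha, Matrix.of b, hb, Matrix.ext hab, norm_mono h3, norm_mono h4⟩) _ n2
  obtain ⟨u', hu', huu⟩ := neumann (R := Matrix ι ι Q) S1.matrix (closed_mat h1) hu hu1
  obtain ⟨v', hv', hvv⟩ := neumann (R := Matrix ι ι Q) S2.matrix (closed_mat h2) hv hv1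
  have hEA : E * A = (1 + u) * (1 + v) := by
    rw [← huv, sub_mul, Matrix.nonsing_inv_mul A (Ne.isUnit hA)]
    abel
  have hdet : E.det ≠ 0 := by
    intro h0
    have a1 := congrArg Matrix.det hEA
    have a2 := congrArg Matrix.det huu
    have a3 := congrArg Matrix.det hvv
    rw [Matrix.det_mul, Matrix.det_one] at a2 a3
    rw [Matrix.det_mul, Matrix.det_mul, h0, zero_mul] at a1
    rcases mul_eq_zero.1 a1.symm with h | h
    · rw [h, zero_mul] at a2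
      exact zero_ne_one a2
    · rw [h, zero_mul] at a3
      exact zero_ne_one a3
  let E0 : Matrix ι ι F := Matrix.of fun i j => ⟨e i j, he i j⟩
  have hE0 : E0.map F.subtype = E := rfl
  have hdet0 : E0.det ≠ 0 := by
    intro h0
    apply hdet
    rw [← hE0, ← RingHom.mapMatrix_apply, ← RingHom.map_det, h0, map_zero]
  refine ⟨E, (E0⁻¹).map F.subtype, 1 + u, u', 1 + v, v', he, fun i j => (E0⁻¹ i j).2,
    (S1.matrix.add_mem S1.matrix.one_mem hu :), hu', (S2.matrix.add_mem S2.matrix.one_mem hv :),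
    hv', ?_, huu, hvv, hEA⟩
  rw [← hE0, ← Matrix.map_mul, Matrix.nonsing_inv_mul E0 (Ne.isUnit hdet0)]
  exact Matrix.map_one _ (map_zero _) (map_one _)

end Mat

end Fact

theorem blockFact (hA : StmtAdd) : StmtFact := by
  intro 𝕜 Q _ _ _ _ _ _ _ _ σ hσ ι _ _ A hdet
  obtain ⟨E, E', U, U', V, V', hE, hE', hU, hU', hV, hV', e1, e2, e3, e4⟩ :=
    Fact.mat_fact (R1 𝕜 σ).toSubring (R2 𝕜 σ).toSubring (𝕜⟮σ⟯).toSubfield
      (Subalgebra.isClosed_topologicalClosure _) (Subalgebra.isClosed_topologicalClosure _)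
      (hA 𝕜 Q σ hσ) hσ.dense A hdet
  have l1 : ∀ (R : Subalgebra 𝕜 Q) (y : Q), y ∈ R → y ∈ Mer 𝕜 σ R := fun R y hy =>
    (le_sup_left : R ≤ Mer 𝕜 σ R) hy
  have l2 : ∀ (R : Subalgebra 𝕜 Q) (y : Q), y ∈ 𝕜⟮σ⟯ → y ∈ Mer 𝕜 σ R := fun R y hy =>
    (le_sup_right : (𝕜⟮σ⟯).toSubalgebra ≤ Mer 𝕜 σ R) hy
  refine ⟨E' * U, U' * E, V, V', fun i j => ?_, fun i j => ?_, fun i j => l1 _ _ (hV i j),
    fun i j => l1 _ _ (hV' i j), ?_, e3, ?_⟩
  · rw [Matrix.mul_apply]
    exact sum_mem fun l _ => mul_mem (l2 _ _ (hE' i l)) (l1 _ _ (hU l j))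
  · rw [Matrix.mul_apply]
    exact sum_mem fun l _ => mul_mem (l1 _ _ (hU' i l)) (l2 _ _ (hE l j))
  · rw [Matrix.mul_assoc, ← Matrix.mul_assoc U, e2, Matrix.one_mul, e1]
  · rw [Matrix.mul_assoc, ← e4, ← Matrix.mul_assoc, e1, Matrix.one_mul]

end Pool.Agent.Lib.IW
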