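import Pool.Agent.Lib.IW.Util

/-! The final statements from the lifting theorem and the two bridges. -/

open Polynomial IntermediateField
open scoped Pointwise

namespace Pool.Agent.Lib.IW

open MP_e06174_ag MP_ba4752_ag

lemma exists_co (k K : Type) [Field k] [IsAlgClosed k] [Field K] [Algebra k K]
    [Algebra.EssFiniteType k K] (hK : Algebra.trdeg k K = 1) :
    ∃ x : AlgebraicClosure K, Co k x := by
  obtain ⟨x, hx⟩ := exists_sepCoord hK
  let f := IsScalarTower.toAlgHom k K (AlgebraicClosure K)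
  refine ⟨f x, fun h => hx.toIsCoord.1 ((isAlgebraic_algHom_iff f f.injective).1 h), fun y => ?_⟩
  have hm : ∀ c : k⟮x⟯, f c ∈ k⟮f x⟯ := fun c => by
    have h1 : f c ∈ (k⟮x⟯).map f := ⟨c, c.2, rfl⟩
    rwa [adjoin_map, Set.image_singleton] at h1
  let g : k⟮x⟯ →+* k⟮f x⟯ :=
    (f.toRingHom.comp (k⟮x⟯).val.toRingHom).codRestrict (k⟮f x⟯).toSubfield hm
  have h1 : Algebra.IsAlgebraic k⟮x⟯ K := ⟨hx.toIsCoord.isAlgebraic⟩
  have h2 : Algebra.IsAlgebraic k⟮x⟯ (AlgebraicClosure K) :=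
    Algebra.IsAlgebraic.trans k⟮x⟯ K (AlgebraicClosure K)
  exact (h2.isAlgebraic y).ringHom_of_comp_eq g (RingHom.id _) g.injective (by ext; rfl)

lemma cycP_of {p : ℕ} {G : Type} [Group G] [Finite G] {H P : Subgroup G} (hPH : P ≤ H)
    [hn : (P.subgroupOf H).Normal] (hP : IsPGroup p P) (hc : IsCyclic (H ⧸ P.subgroupOf H)) :
    CycP p H P := by
  refine ⟨hPH, hP, fun g hg a ha => ?_, ?_⟩
  · exact hn.conj_mem ⟨a, hPH ha⟩ ha ⟨g, hg⟩
  · obtain ⟨c, hc⟩ := hc.exists_monoid_generator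
    obtain ⟨c, rfl⟩ := QuotientGroup.mk_surjective c
    refine ⟨c, c.2, fun g hg => ?_⟩
    obtain ⟨i, hi⟩ := hc (QuotientGroup.mk ⟨g, hg⟩)
    refine ⟨i, ?_⟩
    have h1 : (QuotientGroup.mk (⟨g, hg⟩ * (c ^ i)⁻¹) : H ⧸ P.subgroupOf H) = 1 := by
      rw [QuotientGroup.mk_mul, QuotientGroup.mk_inv, QuotientGroup.mk_pow, ← hi]
      simp
    exact Subgroup.mem_subgroupOf.1 ((QuotientGroup.eq_one_iff _).1 h1)

theorem lifting_of (hL : StmtLift) (h1 : StmtBr1) (h2 : StmtBr2) (p : ℕ) [Fact p.Prime]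
    (k : Type) [Field k] [IsAlgClosed k] [CharP k p] (K : Type) [Field K] [Algebra k K]
    [Algebra.EssFiniteType k K] (hK : Algebra.trdeg k K = 1) (ξ : ValuationSubring K)
    (hξ : ξ ≠ ⊤) (hk : ∀ c : k, algebraMap k K c ∈ ξ) (G : Type) [Group G] [Finite G]
    (H P : Subgroup G) (hPH : P ≤ H) [(P.subgroupOf H).Normal] (hP : IsPGroup p P)
    (hc : IsCyclic (H ⧸ P.subgroupOf H)) (hgen : Subgroup.normalClosure (P : Set G) = ⊤)
    (M : Subgroup G) [M.Normal] (hM : Group.IsSolvable M)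
    (hl : ∀ l : ℕ, l.Prime → l ≠ p → l ∣ (⁅M, (⊤ : Subgroup G)⁆).relIndex M → ¬ l ∣ Nat.card H)
    (ω : ValuationSubring (RatFunc k)) (hω : RatFunc.X ∉ ω)
    (hωk : ∀ c : k, algebraMap k (RatFunc k) c ∈ ω)
    (hocc : Occurs k ω (G ⧸ M) (H.map (QuotientGroup.mk' M))) : Occurs k ξ G H := by
  obtain ⟨x, hx⟩ := exists_co k K hK
  refine h2 p k K hK ξ hξ hk G H
    (top_le_iff.1 (hgen ▸ Subgroup.normalClosure_mono hPH)) ?_
  refine hL p k _ G (G ⧸ M) (QuotientGroup.mk' M) (QuotientGroup.mk'_surjective M) ?_ H P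
    (cycP_of hPH hP hc) hgen ?_ ⟨x, hx, h1 p k _ x hx ω hω hωk _ _ hocc⟩
  · rwa [QuotientGroup.ker_mk']
  · rwa [QuotientGroup.ker_mk']

lemma real_trivial (hB : StmtBas) {k Ω : Type} [Field k] [Field Ω] [Algebra k Ω] {x : Ω}
    (hx : Co k x) (G : Type) [Group G] [Subsingleton G] (I : Subgroup G) : Real k Ω G I := by
  obtain ⟨W, hW, hxW⟩ := hB.exInf k Ω x hx
  refine ⟨x, hx, fun _ => 1, ⟨fun _ _ _ _ => (one_mul _).symm, ∅, fun _ _ _ _ _ => rfl⟩,
    fun g => ⟨1, one_mem _, Subsingleton.elim _ _⟩, fun _ _ _ _ _ => rfl, W, hW, hxW, ?_⟩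
  ext g
  exact ⟨fun _ => Subsingleton.elim 1 g ▸ I.one_mem,
    fun _ => ⟨1, one_mem _, Subsingleton.elim _ _⟩⟩

lemma not_dvd_ab {p : ℕ} [Fact p.Prime] {G : Type} [Group G] [Finite G] {P : Subgroup G}
    (hP : IsPGroup p P) (hgen : Subgroup.normalClosure (P : Set G) = ⊤) {l : ℕ} (hl : l.Prime)
    (hlp : l ≠ p) : ¬ l ∣ (⁅(⊤ : Subgroup G), (⊤ : Subgroup G)⁆).relIndex ⊤ := by
  intro h
  rw [Subgroup.relIndex_top_right] at h
  have h1 : IsPGroup p (Abelianization G) := by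
    intro a
    obtain ⟨g, rfl⟩ : ∃ g, Abelianization.of g = a := QuotientGroup.mk_surjective a
    let N : Subgroup G := (CommGroup.primaryComponent (Abelianization G) p).comap Abelianization.of
    have h2 : Subgroup.normalClosure (P : Set G) ≤ N :=
      Subgroup.normalClosure_le_normal fun b hb => by
        obtain ⟨n, hn⟩ := hP ⟨b, hb⟩
        have h3 : (Abelianization.of b) ^ p ^ n = 1 := by
          rw [← map_pow, show b ^ p ^ n = 1 from congrArg Subtype.val hn, map_one]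
        exact ⟨n, h3⟩
    exact h2 (hgen ▸ Subgroup.mem_top g)
  obtain ⟨n, hn⟩ := IsPGroup.iff_card.1 h1
  have h2 : (⁅(⊤ : Subgroup G), (⊤ : Subgroup G)⁆).index = p ^ n := hn
  rw [h2] at h
  exact hlp ((Nat.prime_dvd_prime_iff_eq hl Fact.out).1 (hl.dvd_of_dvd_pow h))

theorem solvable_of (hB : StmtBas) (hL : StmtLift) (h2 : StmtBr2) (p : ℕ) [Fact p.Prime]
    (k : Type) [Field k] [IsAlgClosed k] [CharP k p] (K : Type) [Field K] [Algebra k K]
    [Algebra.EssFiniteType k K] (hK : Algebra.trdeg k K = 1) (ξ : ValuationSubring K)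
    (hξ : ξ ≠ ⊤) (hk : ∀ c : k, algebraMap k K c ∈ ξ) (G : Type) [Group G] [Finite G]
    (hG : Group.IsSolvable G) (H P : Subgroup G) (hPH : P ≤ H) [(P.subgroupOf H).Normal]
    (hP : IsPGroup p P) (hc : IsCyclic (H ⧸ P.subgroupOf H))
    (hgen : Subgroup.normalClosure (P : Set G) = ⊤) : Occurs k ξ G H := by
  obtain ⟨x, hx⟩ := exists_co k K hK
  refine h2 p k K hK ξ hξ hk G H
    (top_le_iff.1 (hgen ▸ Subgroup.normalClosure_mono hPH)) ?_
  refine hL p k _ G Unit 1 (fun _ => ⟨1, rfl⟩) inferInstance H P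
    (cycP_of hPH hP hc) hgen (fun l hl hlp h => ?_) (real_trivial hB hx _ _)
  rw [MonoidHom.ker_one] at h
  exact absurd h (not_dvd_ab hP hgen hl hlp)

end Pool.Agent.Lib.IW
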