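import Pool.Agent.Lib.IW.Cert

/-! Block Fld: the field cut out by a representation. -/

open Polynomial IntermediateField
open scoped Pointwise

namespace Pool.Agent.Lib.IW

namespace Fld

variable {k Ω : Type} [Field k] [Field Ω] [Algebra k Ω]

lemma vand {ι : Type} [Fintype ι] {y c : ι → Ω} (hy : Function.Injective y) {j : ι}
    (hj : c j ≠ 0) : ∃ i : ℕ, ∑ h, c h * y h ^ i ≠ 0 := by
  by_contra! h
  let e := (Fintype.equivFin ι).symm
  have h1 := Matrix.eq_zero_of_forall_pow_sum_mul_pow_eq_zero (f := y ∘ e) (v := c ∘ e)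
    (hy.comp e.injective) fun i => (Equiv.sum_comp e fun h => c h * y h ^ (i : ℕ)).trans (h i)
  have h2 := congrFun h1 (e.symm j)
  simp at h2
  exact hj h2

lemma sep_le {x : Ω} {L : IntermediateField k Ω} (hL : x ∈ L) {y : Ω} (hy : IsSeparable k⟮x⟯ y) :
    IsSeparable L y := by
  have hle : k⟮x⟯ ≤ L := adjoin_simple_le_iff.2 hL
  let : Algebra k⟮x⟯ L := (IntermediateField.inclusion hle).toAlgebra
  have : IsScalarTower k⟮x⟯ L Ω := IsScalarTower.of_algebraMap_eq fun _ => rfl
  exact IsSeparable.tower_top L hy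

lemma val_const {W : ValuationSubring Ω} (hW : IsPl k W) {c : k}
    (h : W.valuation (algebraMap k Ω c) < 1) : c = 0 := by
  by_contra hc
  rcases W.mem_nonunits_iff_or.1 h with h0 | h0
  · exact hc ((map_eq_zero _).1 h0)
  · exact h0 (by rw [← map_inv₀]; exact hW.2 _)

lemma sep_k (x : Ω) (c : k) : IsSeparable k⟮x⟯ (algebraMap k Ω c) :=
  isSeparable_algebraMap (F := k⟮x⟯) (algebraMap k k⟮x⟯ c)

end Fld

open Fld in
theorem blockFld (hB : StmtBas) (hG : StmtGal) (hS : StmtStr) : StmtFld := by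
  classical
  refine ⟨?_, ?_, ?_, ?_⟩
  · intro p _ k Ω _ _ _ _ _ _ x hx G _ _ ρ h
    obtain ⟨y, hinj, hy, hγy⟩ := hS p k Ω x hx (Gam k x) le_rfl G ρ h
    have hxL : x ∈ adjoin k (insert x (Set.range y)) := subset_adjoin _ _ (Set.mem_insert _ _)
    have hyL : ∀ g, y g ∈ adjoin k (insert x (Set.range y)) := fun g =>
      subset_adjoin _ _ (Set.mem_insert_of_mem _ ⟨g, rfl⟩)
    have hfix : ∀ γ : Aut k Ω, γ ∈ (adjoin k (insert x (Set.range y))).fixingSubgroup ↔
        γ ∈ Gam k x ∧ ρ γ = 1 := fun γ => by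
      rw [IntermediateField.mem_fixingSubgroup_iff]
      refine ⟨fun h1 => ⟨h1 x hxL, ?_⟩, fun h1 z hz => ?_⟩
      · have h2 := h1 _ (hyL 1)
        rw [hγy γ (h1 x hxL), mul_one] at h2
        exact hinj h2
      · induction hz using IntermediateField.adjoin_induction with
        | mem z hz =>
          rcases hz with rfl | ⟨g, rfl⟩
          · exact h1.1
          · rw [hγy γ h1.1, h1.2, one_mul]
        | algebraMap c => exact γ.commutes c
        | add a b _ _ ha hb => rw [map_add, ha, hb]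
        | inv a _ ha => rw [map_inv₀, ha]
        | mul a b _ _ ha hb => rw [map_mul, ha, hb]
    refine ⟨adjoin k (insert x (Set.range y)),
      fg_adjoin_of_finite ((Set.finite_range y).insert x), hxL, fun z hz => ?_,
      fun γ hγ z hz => ?_, hfix, fun z hz h1 => ?_⟩
    · have h1 : adjoin k (insert x (Set.range y)) ≤
          (separableClosure k⟮x⟯ Ω).restrictScalars k := by
        rw [adjoin_le_iff]
        rintro _ (rfl | ⟨g, rfl⟩)
        · exact isSeparable_algebraMap (F := k⟮_⟯) ⟨_, mem_adjoin_simple_self k _⟩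
        · exact (hy g).1
      exact h1 hz
    · induction hz using IntermediateField.adjoin_induction with
      | mem z hz =>
        rcases hz with rfl | ⟨g, rfl⟩
        · rwa [mem_Gam.1 hγ]
        · rw [hγy γ hγ]
          exact hyL _
      | algebraMap c => rw [γ.commutes]; exact IntermediateField.algebraMap_mem _ c
      | add a b _ _ ha hb => rw [map_add]; exact add_mem ha hb
      | inv a _ ha => rw [map_inv₀]; exact inv_mem ha
      | mul a b _ _ ha hb => rw [map_mul]; exact mul_mem ha hb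
    · exact hG.sep k Ω _ (Cert.alg_of_mem hx hxL) z (sep_le hxL hz) fun γ hγ =>
        h1 γ ((hfix γ).1 hγ).1 ((hfix γ).1 hγ).2
  · intro p _ k Ω _ _ _ _ _ _ x hx G _ _ ρ h
    obtain ⟨y, hinj, hy, hγy⟩ := hS p k Ω x hx (Gam k x) le_rfl G ρ h
    have := Fintype.ofFinite G
    let d : G × G → Ω := fun q => if q.1 = q.2 then 1 else y q.1 - y q.2
    have hd0 : ∀ q, d q ≠ 0 := fun q => by
      simp only [d]
      split_ifs with h1
      · exact one_ne_zero
      · exact sub_ne_zero.2 fun h2 => h1 (hinj h2)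
    have hd1 : ∀ q, d q ∈ separableClosure k⟮x⟯ Ω := fun q => by
      simp only [d]
      split_ifs
      · exact one_mem _
      · exact sub_mem (hy _).1 (hy _).1
    have hd2 : ∀ q, d q ∈ Cert.RI k x := fun q => by
      simp only [d]
      split_ifs
      · exact one_mem _
      · exact sub_mem (hy _).2 (hy _).2
    have h1 : ∏ q, d q ∈ k⟮x⟯ := by
      refine hG.sep k Ω k⟮x⟯ hx.alg _ (prod_mem fun q _ => hd1 q) fun γ hγ => ?_
      rw [fix_adjoin] at hγ
      rw [map_prod, ← Equiv.prod_comp (Equiv.mulLeft (ρ γ, ρ γ)) d]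
      refine Finset.prod_congr rfl fun q _ => ?_
      simp only [d, Equiv.coe_mulLeft, Prod.fst_mul, Prod.snd_mul, mul_right_inj]
      split_ifs
      · exact map_one _
      · rw [map_sub, hγy γ hγ, hγy γ hγ]
    obtain ⟨P, hP⟩ := hB.intgPoly k Ω x _ hx.tr ((Cert.RI k x).prod_mem fun q _ => hd2 q) h1
    have hP0 : P ≠ 0 := by
      rintro rfl
      rw [map_zero] at hP
      exact Finset.prod_ne_zero_iff.2 (fun q _ => hd0 q) hP
    refine ⟨P.roots.toFinset, fun W hW hxW hT γ hγ => ?_⟩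
    by_contra hne
    have h2 : W.valuation (d (ρ γ, 1)) < 1 := by
      have h3 := (hB.move k Ω x hx W hW γ (mem_Dec.1 hγ).2).1 _ ((hy 1).2 W hW hxW)
      rw [hγy γ (Dec_le _ _ hγ), mul_one] at h3
      simpa only [d, hne, if_false] using h3
    have h3 : W.valuation (aeval x P) < 1 := by
      rw [← hP, ← Finset.mul_prod_erase _ _ (Finset.mem_univ (ρ γ, 1)), map_mul]
      exact mul_lt_one_of_nonneg_of_lt_one_left zero_le h2 ((W.valuation_le_one_iff _).2
        ((Cert.RI k x).prod_mem (fun q _ => hd2 q) W hW hxW))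
    obtain ⟨c, hc⟩ := hB.resid k Ω x hx W hW x hxW
    refine hT c ?_ hc
    obtain ⟨Q, hQ⟩ := X_sub_C_dvd_sub_C_eval (p := P) (a := c)
    have h4 := congrArg (aeval x) hQ
    simp only [map_sub, map_mul, aeval_X, aeval_C] at h4
    have h5 : aeval x Q ∈ W := (hB.intg k Ω x _).2
      (isIntegral_algebraMap (x := (⟨_, aeval_mem_adjoin_singleton k x⟩ : Algebra.adjoin k {x})))
      W hW hxW
    have h6 : W.valuation (algebraMap k Ω (P.eval c)) < 1 := by
      rw [show algebraMap k Ω (P.eval c) = aeval x P - (x - algebraMap k Ω c) * aeval x Q by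
        rw [← h4, sub_sub_cancel]]
      refine W.valuation.map_sub_lt h3 ?_
      rw [map_mul]
      exact mul_lt_one_of_nonneg_of_lt_one_left zero_le hc ((W.valuation_le_one_iff _).2 h5)
    rw [Multiset.mem_toFinset, mem_roots hP0]
    exact val_const hW h6
  · intro p _ k Ω _ _ _ _ _ _ x hx Δ hΔ G _ _ ρ h
    obtain ⟨y, hinj, hy, hγy⟩ := hS p k Ω x hx Δ hΔ G ρ h
    have := Fintype.ofFinite h.im
    obtain ⟨i, hi⟩ := vand (y := fun g : h.im => y g) (c := fun _ => 1)
      (hinj.comp Subtype.val_injective) (j := 1) one_ne_zero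
    simp only [one_mul] at hi
    refine ⟨fun g => y g ^ i / ∑ g : h.im, y g ^ i, fun g => ?_, fun γ hγ g => ?_, ?_⟩
    · exact (separableClosure k⟮x⟯ Ω).div_mem (pow_mem (hy g).1 i)
        (sum_mem fun g _ => pow_mem (hy g).1 i)
    · rw [map_div₀, map_pow, hγy γ hγ, map_sum,
        ← Equiv.sum_comp (Equiv.mulLeft (⟨ρ γ, h.mem_im.2 ⟨γ, hγ, rfl⟩⟩ : h.im))
          fun g : h.im => y g ^ i]
      simp only [map_pow, hγy γ hγ]
      rfl
    · rw [← finsum_subtype_eq_finsum_cond, finsum_eq_sum_of_fintype, ← Finset.sum_div]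
      exact div_self hi
  · intro p _ k Ω _ _ _ _ _ _ x hx Δ hΔ G _ _ ρ h χ
    obtain ⟨y, hinj, hy, hγy⟩ := hS p k Ω x hx Δ hΔ G ρ h
    have := Fintype.ofFinite h.im
    obtain ⟨i, hi⟩ := vand (y := fun g : h.im => y g)
      (c := fun g => algebraMap k Ω ((χ (g : G)⁻¹ : kˣ) : k))
      (hinj.comp Subtype.val_injective) (j := 1) (by simp)
    refine ⟨_, hi, (separableClosure k⟮x⟯ Ω).sum_mem fun g _ =>
      mul_mem (sep_k x _) (pow_mem (hy g).1 i), fun γ hγ => ?_⟩
    conv_rhs => rw [← Equiv.sum_comp (Equiv.mulLeft (⟨ρ γ, h.mem_im.2 ⟨γ, hγ, rfl⟩⟩ : h.im))]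
    rw [map_sum, Finset.mul_sum]
    refine Finset.sum_congr rfl fun g _ => ?_
    rw [map_mul, map_pow, hγy γ hγ, γ.commutes, ← mul_assoc, ← map_mul, ← Units.val_mul,
      mul_comm (χ (ρ γ)), ← map_mul]
    simp

end Pool.Agent.Lib.IW
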