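import Pool.Agent.Lib.IW.Util

/-! Block Gal: fixed elements, conjugates and the Galois correspondence for open subgroups. -/

open Polynomial IntermediateField

namespace Pool.Agent.Lib.IW

namespace Gal

section Abs

variable {F Ω : Type} [Field F] [Field Ω] [Algebra F Ω]

lemma normal [IsAlgClosed Ω] (h : ∀ y : Ω, IsAlgebraic F y) : Normal F Ω := by
  have : Algebra.IsAlgebraic F Ω := ⟨h⟩
  have : IsAlgClosure F Ω := ⟨inferInstance, inferInstance⟩
  infer_instance

lemma powSep (p : ℕ) [Fact p.Prime] [CharP F p] {y : Ω} (h : IsAlgebraic F y) :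
    ∃ N : ℕ, IsSeparable F (y ^ p ^ N) := by
  have : ExpChar F p := ExpChar.prime Fact.out
  obtain ⟨g, h1, n, h2⟩ := (minpoly.irreducible h.isIntegral).hasSeparableContraction p
  exact ⟨n, h1.of_dvd <| minpoly.dvd F _ <| by
    simpa only [expand_aeval, minpoly.aeval] using congr_arg (aeval y) h2⟩

lemma sep [IsAlgClosed Ω] (h : ∀ y : Ω, IsAlgebraic F y) {y : Ω} (hs : IsSeparable F y)
    (hy : ∀ σ : Ω ≃ₐ[F] Ω, σ y = y) : y ∈ (algebraMap F Ω).range := by
  classical
  have := normal h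
  have hi : IsIntegral F y := (h y).isIntegral
  have hnd : ((minpoly F y).aroots Ω).Nodup := nodup_roots (Separable.map hs)
  have hall : ∀ z ∈ (minpoly F y).aroots Ω, z = y := fun z hz => by
    obtain ⟨σ, hσ⟩ := minpoly.exists_algEquiv_of_root' (h y) (mem_aroots.1 hz).2
    rw [← hσ, hy]
  have hcard : ((minpoly F y).aroots Ω).card ≤ 1 := by
    rw [← Multiset.toFinset_card_of_nodup hnd]
    exact Finset.card_le_one.2 fun a ha b hb => by
      rw [hall a (Multiset.mem_toFinset.1 ha), hall b (Multiset.mem_toFinset.1 hb)]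
  rw [IsAlgClosed.card_aroots_eq_natDegree] at hcard
  exact minpoly.natDegree_eq_one_iff.1 (le_antisymm hcard (minpoly.natDegree_pos hi))

lemma closure (p : ℕ) [Fact p.Prime] [CharP F p] [IsAlgClosed Ω] (h : ∀ y : Ω, IsAlgebraic F y)
    (S : Finset Ω) : ∃ L : IntermediateField F Ω, FiniteDimensional F L ∧ IsGalois F L ∧
      ∀ s ∈ S, ∃ N : ℕ, s ^ p ^ N ∈ L := by
  classical
  have := normal h
  choose N hN using fun y : Ω => powSep p (h y)
  set T : Finset Ω := S.image fun s => s ^ p ^ N s with hT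
  have hfd : FiniteDimensional F (adjoin F (T : Set Ω)) :=
    finiteDimensional_adjoin fun x _ => (h x).isIntegral
  have hsep : adjoin F (T : Set Ω) ≤ separableClosure F Ω := by
    rw [le_separableClosure_iff, isSeparable_adjoin_iff_isSeparable]
    intro x hx
    obtain ⟨s, -, rfl⟩ := Finset.mem_image.1 (Finset.mem_coe.1 hx)
    exact hN s
  refine ⟨normalClosure F (adjoin F (T : Set Ω)) Ω, inferInstance, ?_, fun s hs => ⟨N s, ?_⟩⟩
  · have : Algebra.IsSeparable F (normalClosure F (adjoin F (T : Set Ω)) Ω) := by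
      rw [← le_separableClosure_iff, normalClosure_le_iff_of_normal]
      exact hsep
    exact {}
  · exact le_normalClosure _ (subset_adjoin _ _ (Finset.mem_coe.2 (Finset.mem_image_of_mem _ hs)))

end Abs

variable {k Ω : Type} [Field k] [Field Ω] [Algebra k Ω]

lemma charP (p : ℕ) [CharP k p] (F : IntermediateField k Ω) : CharP F p :=
  charP_of_injective_algebraMap (algebraMap k F).injective p

lemma res_mem (F : IntermediateField k Ω) (σ : Ω ≃ₐ[F] Ω) :
    σ.restrictScalars k ∈ F.fixingSubgroup :=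
  (IntermediateField.mem_fixingSubgroup_iff _ _).2 fun x hx => σ.commutes ⟨x, hx⟩

lemma sep' [IsAlgClosed Ω] (F : IntermediateField k Ω) (h : ∀ y : Ω, IsAlgebraic F y) {y : Ω}
    (hs : IsSeparable F y) (hy : ∀ γ ∈ F.fixingSubgroup, γ y = y) : y ∈ F := by
  obtain ⟨a, rfl⟩ := sep h hs fun σ => hy _ (res_mem F σ)
  exact a.2

lemma cor (p : ℕ) [Fact p.Prime] [CharP k p] [IsAlgClosed Ω] (F : IntermediateField k Ω)
    (h : ∀ y : Ω, IsAlgebraic F y) (Δ : Subgroup (Aut k Ω)) (S : Finset Ω)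
    (hΔ : Δ ≤ F.fixingSubgroup) (hS : ∀ γ ∈ F.fixingSubgroup, (∀ s ∈ S, γ s = s) → γ ∈ Δ)
    (γ : Aut k Ω) (hγ : γ ∈ F.fixingSubgroup)
    (hf : ∀ y : Ω, IsSeparable F y → (∀ δ ∈ Δ, δ y = y) → γ y = y) : γ ∈ Δ := by
  have := charP p F
  have : CharP Ω p := charP_of_injective_algebraMap (algebraMap k Ω).injective p
  have : ExpChar Ω p := ExpChar.prime Fact.out
  obtain ⟨L, hfd, hgal, hL⟩ := closure p h S
  let r : F.fixingSubgroup →* (L ≃ₐ[F] L) :=
    (AlgEquiv.restrictNormalHom L).comp (fixingSubgroupEquiv F).toMonoidHom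
  have hr : ∀ (g : F.fixingSubgroup) (y : L), ((r g y : L) : Ω) = g.1 y := fun g y =>
    AlgEquiv.restrictNormalHom_apply L (fixingSubgroupEquiv F g) y
  have hmem : r ⟨γ, hγ⟩ ∈ (Δ.subgroupOf F.fixingSubgroup).map r := by
    rw [← fixingSubgroup_fixedField ((Δ.subgroupOf F.fixingSubgroup).map r),
      IntermediateField.mem_fixingSubgroup_iff]
    intro y hy
    rw [mem_fixedField_iff] at hy
    apply Subtype.ext
    rw [hr]
    refine hf y ?_ fun δ hδ => ?_
    · exact (isSeparable_map_iff L.val L.val.injective).2 (Algebra.IsSeparable.isSeparable F y)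
    · have := hy (r ⟨δ, hΔ hδ⟩) (Subgroup.mem_map_of_mem r (Subgroup.mem_subgroupOf.2 hδ))
      rw [← hr ⟨δ, hΔ hδ⟩ y, this]
  obtain ⟨δ, hδ, he⟩ := Subgroup.mem_map.1 hmem
  have hδ' : δ.1 ∈ Δ := Subgroup.mem_subgroupOf.1 hδ
  have h1 : δ.1⁻¹ * γ ∈ Δ := by
    refine hS _ (mul_mem (inv_mem δ.2) hγ) fun s hs => ?_
    obtain ⟨N, hN⟩ := hL s hs
    have h2 : δ.1 (s ^ p ^ N) = γ (s ^ p ^ N) := by
      have h3 := hr δ ⟨_, hN⟩
      rw [he, hr] at h3
      exact h3.symm
    rw [map_pow, map_pow] at h2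
    have h4 : δ.1 s = γ s := iterateFrobenius_inj Ω p N h2
    rw [AlgEquiv.mul_apply, ← h4]
    exact δ.1.symm_apply_apply s
  simpa using mul_mem hδ' h1

end Gal

theorem blockGal : StmtGal where
  insep p _ k Ω _ _ _ _ _ F h y hy := by
    have := Gal.charP p F
    obtain ⟨N, hN⟩ := Gal.powSep p (h y)
    exact ⟨N, Gal.sep' F h hN fun γ hγ => by rw [map_pow, hy γ hγ]⟩
  sep k Ω _ _ _ _ F h y hs hy := Gal.sep' F h hs hy
  powSep p _ k Ω _ _ _ _ F y h := by
    have := Gal.charP p F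
    exact Gal.powSep p h
  conjRoot k Ω _ _ _ _ F h y y' hy := by
    have := Gal.normal h
    obtain ⟨σ, hσ⟩ := minpoly.exists_algEquiv_of_root' (h y) hy
    exact ⟨_, Gal.res_mem F σ, hσ⟩
  cor p _ k Ω _ _ _ _ _ F h Δ S hΔ hS γ hγ hf := Gal.cor p F h Δ S hΔ hS γ hγ hf
  closure p _ k Ω _ _ _ _ _ F h S := by
    have := Gal.charP p F
    exact Gal.closure p h S

end Pool.Agent.Lib.IW
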