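import Pool.Agent.Lib.IW.Util

/-! Finite group theory: the three kinds of normal subgroups. -/

namespace Pool.Agent.Lib.IW

namespace Grp

open Subgroup

variable {G : Type} [Group G]

theorem exMin [Finite G] (Q : Subgroup G → Prop) (h : ∃ N, Q N) :
    ∃ K, Q K ∧ ∀ N, Q N → N ≤ K → N = K := by
  obtain ⟨K, hK⟩ := exists_minimal_of_wellFoundedLT Q h
  exact ⟨K, hK.1, fun N hN hle => le_antisymm hle (hK.2 hN hle)⟩

theorem normal_of_le_center {N : Subgroup G} (h : N ≤ center G) : N.Normal :=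
  ⟨fun a ha g => by
    rw [← (mem_center_iff.1 (h ha) g).symm, mul_inv_cancel_right]; exact ha⟩

theorem comm_lt {M K : Subgroup G} (hM : Group.IsSolvable M) (hle : K ≤ M) (hK : K ≠ ⊥) :
    ⁅K, K⁆ ≠ K := by
  intro h
  have : Group.IsSolvable K :=
    Group.isSolvable_of_isSolvable_injective (f := inclusion hle) (inclusion_injective hle)
  have : Nontrivial K := (Subgroup.nontrivial_iff_ne_bot K).2 hK
  have h1 := Group.IsSolvable.commutator_lt_top_of_nontrivial K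
  apply h1.ne
  apply Subgroup.map_injective K.subtype_injective
  rw [Subgroup.map_subtype_commutator, h, ← MonoidHom.range_eq_map, Subgroup.range_subtype]

theorem caseP [Finite G] (p : ℕ) [Fact p.Prime] (K : Subgroup G) [K.Normal] (hK : K ≠ ⊥)
    (hp : IsPGroup p K) (hmin : ∀ N : Subgroup G, N.Normal → N ≤ K → N = ⊥ ∨ N = K) :
    (∀ a ∈ K, ∀ b ∈ K, a * b = b * a) ∧ ∀ a ∈ K, a ^ p = 1 := by
  have : Nontrivial K := (Subgroup.nontrivial_iff_ne_bot K).2 hK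
  have hab : ∀ a ∈ K, ∀ b ∈ K, a * b = b * a := by
    have := hp.center_nontrivial
    obtain ⟨z, hz⟩ := exists_ne (1 : center K)
    rcases hmin (K ⊓ centralizer (K : Set G)) inferInstance inf_le_left with h | h
    · exfalso
      apply hz
      have : ((z : K) : G) ∈ K ⊓ centralizer (K : Set G) :=
        ⟨(z : K).2, fun g hg => congrArg Subtype.val (mem_center_iff.1 z.2 ⟨g, hg⟩)⟩
      rw [h, mem_bot] at this
      exact Subtype.ext (Subtype.ext this)
    · intro a ha b hb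
      rw [← h] at hb
      exact hb.2 a ha
  refine ⟨hab, ?_⟩
  let N : Subgroup G :=
    { carrier := {a | a ∈ K ∧ a ^ p = 1}
      mul_mem' := fun {a b} ha hb => ⟨K.mul_mem ha.1 hb.1, by
        rw [Commute.mul_pow (hab a ha.1 b hb.1), ha.2, hb.2, one_mul]⟩
      one_mem' := ⟨K.one_mem, one_pow _⟩
      inv_mem' := fun {a} ha => ⟨K.inv_mem ha.1, by rw [inv_pow, ha.2, inv_one]⟩ }
  have hN : N.Normal := ⟨fun a ha g => ⟨Normal.conj_mem inferInstance a ha.1 g, by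
    rw [conj_pow, ha.2, mul_one, mul_inv_cancel]⟩⟩
  rcases hmin N hN (fun a ha => ha.1) with h | h
  · exfalso
    obtain ⟨n, hn0, hn⟩ := hp.nontrivial_iff_card.1 inferInstance
    obtain ⟨a, ha⟩ := exists_prime_orderOf_dvd_card' (G := K) p
      (hn ▸ dvd_pow_self p hn0.ne')
    have h1 : (a : G) ∈ N := ⟨a.2, by
      rw [← ha]; exact congrArg Subtype.val (pow_orderOf_eq_one a)⟩
    rw [h, mem_bot] at h1
    have : a = 1 := Subtype.ext h1
    rw [this, orderOf_one] at ha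
    exact (Fact.out : p.Prime).one_lt.ne ha
  · intro a ha
    rw [← h] at ha
    exact ha.2

theorem central_of_comm (p l : ℕ) [Fact p.Prime] [Fact l.Prime] (hl : l ≠ p) (K P : Subgroup G)
    [K.Normal] (hK : IsPGroup l K) (hP : IsPGroup p P) (hG : normalClosure (P : Set G) = ⊤)
    (h : ⁅K, (⊤ : Subgroup G)⁆ ≤ center G) : K ≤ center G := by
  intro a ha
  have hc : ∀ g, a * g * a⁻¹ * g⁻¹ ∈ center G := fun g =>
    h (commutator_mem_commutator ha (mem_top g))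
  let f : G →* G := MonoidHom.mk' (fun g => a * g * a⁻¹ * g⁻¹) fun g k => by
    have := mem_center_iff.1 (hc k) g⁻¹
    calc a * (g * k) * a⁻¹ * (g * k)⁻¹
        = a * g * a⁻¹ * ((a * k * a⁻¹ * k⁻¹) * g⁻¹) := by group
      _ = _ := by rw [← this]; group
  have hker : P ≤ f.ker := by
    intro g hg
    obtain ⟨n, hn⟩ := hP ⟨g, hg⟩
    have h1 : f g ^ p ^ n = 1 := by
      rw [← map_pow, show g ^ p ^ n = 1 from congrArg Subtype.val hn, map_one]
    have hm : f g ∈ K := by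
      have : a * (g * a⁻¹ * g⁻¹) ∈ K :=
        K.mul_mem ha (Normal.conj_mem inferInstance _ (K.inv_mem ha) g)
      simpa [f, mul_assoc] using this
    obtain ⟨m, hm2⟩ := hK ⟨f g, hm⟩
    have h2 : f g ^ l ^ m = 1 := congrArg Subtype.val hm2
    have h3 : Nat.Coprime (p ^ n) (l ^ m) :=
      Nat.Coprime.pow _ _ ((Nat.coprime_primes Fact.out Fact.out).2 hl.symm)
    rw [MonoidHom.mem_ker, ← orderOf_eq_one_iff]
    exact Nat.eq_one_of_dvd_coprimes h3 (orderOf_dvd_of_pow_eq_one h1)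
      (orderOf_dvd_of_pow_eq_one h2)
  have htop : normalClosure (P : Set G) ≤ f.ker := normalClosure_le_normal hker
  rw [mem_center_iff]
  intro g
  have : a * g * a⁻¹ * g⁻¹ = 1 := htop (hG ▸ mem_top g)
  calc g * a = (a * g * a⁻¹ * g⁻¹) * (g * a) := by rw [this, one_mul]
    _ = _ := by group

theorem exU (K : Subgroup G) [K.Normal] (hnc : ¬ K ≤ center G)
    (hmin : ∀ N : Subgroup G, N.Normal → N ≤ K → N = K ∨ N ≤ center G)
    (h : ⁅K, K⁆ ≤ center G) :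
    ∃ u ∈ K, u ∉ center G ∧ ∀ c ∈ ⁅K, K⁆, ∃ w ∈ K, u * w * u⁻¹ * w⁻¹ = c := by
  obtain ⟨u, hu, hu2⟩ := SetLike.not_le_iff_exists.1 hnc
  have hc : ∀ a ∈ K, ∀ w ∈ K, a * w * a⁻¹ * w⁻¹ ∈ center G := fun a ha w hw =>
    h (commutator_mem_commutator ha hw)
  have r1 : ∀ a ∈ K, ∀ w, ∀ v ∈ K, a * (w * v) * a⁻¹ * (w * v)⁻¹ =
      (a * w * a⁻¹ * w⁻¹) * (a * v * a⁻¹ * v⁻¹) := fun a ha w v hv => by
    have := mem_center_iff.1 (hc a ha v hv) w⁻¹
    calc a * (w * v) * a⁻¹ * (w * v)⁻¹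
        = a * w * a⁻¹ * ((a * v * a⁻¹ * v⁻¹) * w⁻¹) := by group
      _ = _ := by rw [← this]; group
  let U : Subgroup G :=
    { carrier := {c | ∃ w ∈ K, u * w * u⁻¹ * w⁻¹ = c}
      mul_mem' := by
        rintro _ _ ⟨w, hw, rfl⟩ ⟨v, hv, rfl⟩
        exact ⟨w * v, K.mul_mem hw hv, r1 u hu w v hv⟩
      one_mem' := ⟨1, K.one_mem, by group⟩
      inv_mem' := by
        rintro _ ⟨w, hw, rfl⟩
        refine ⟨w⁻¹, K.inv_mem hw, eq_inv_of_mul_eq_one_right ?_⟩
        rw [← r1 u hu w w⁻¹ (K.inv_mem hw)]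
        group }
  let A : Subgroup G :=
    { carrier := {a | a ∈ K ∧ ∀ w ∈ K, a * w * a⁻¹ * w⁻¹ ∈ U}
      mul_mem' := fun {a b} ha hb => ⟨K.mul_mem ha.1 hb.1, fun w hw => by
        have h1 := mem_center_iff.1 (hc b hb.1 w hw) a
        have : a * b * w * (a * b)⁻¹ * w⁻¹ = (b * w * b⁻¹ * w⁻¹) * (a * w * a⁻¹ * w⁻¹) := by
          calc a * b * w * (a * b)⁻¹ * w⁻¹
              = (a * (b * w * b⁻¹ * w⁻¹)) * (w * a⁻¹ * w⁻¹) := by group
            _ = _ := by rw [h1]; group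
        rw [this]
        exact U.mul_mem (hb.2 w hw) (ha.2 w hw)⟩
      one_mem' := ⟨K.one_mem, fun w _ => by simp⟩
      inv_mem' := fun {a} ha => ⟨K.inv_mem ha.1, fun w hw => by
        have h1 := mem_center_iff.1 (hc a ha.1 w hw) a⁻¹
        have : a⁻¹ * w * a⁻¹⁻¹ * w⁻¹ = (a * w * a⁻¹ * w⁻¹)⁻¹ := by
          refine eq_inv_of_mul_eq_one_right ?_
          calc a * w * a⁻¹ * w⁻¹ * (a⁻¹ * w * a⁻¹⁻¹ * w⁻¹)
              = (a * w * a⁻¹ * w⁻¹ * a⁻¹) * (w * a * w⁻¹) := by group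
            _ = 1 := by rw [← h1]; group
        rw [this]
        exact U.inv_mem (ha.2 w hw)⟩ }
  have hA : A.Normal := ⟨fun a ha g => ⟨Normal.conj_mem inferInstance a ha.1 g, fun w hw => by
    have hw' : g⁻¹ * w * g⁻¹⁻¹ ∈ K := Normal.conj_mem inferInstance w hw g⁻¹
    have h1 := mem_center_iff.1 (hc a ha.1 _ hw') g
    have : g * a * g⁻¹ * w * (g * a * g⁻¹)⁻¹ * w⁻¹ =
        a * (g⁻¹ * w * g⁻¹⁻¹) * a⁻¹ * (g⁻¹ * w * g⁻¹⁻¹)⁻¹ := by
      calc g * a * g⁻¹ * w * (g * a * g⁻¹)⁻¹ * w⁻¹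
          = (g * (a * (g⁻¹ * w * g⁻¹⁻¹) * a⁻¹ * (g⁻¹ * w * g⁻¹⁻¹)⁻¹)) * g⁻¹ := by group
        _ = _ := by rw [h1]; group
    rw [this]
    exact ha.2 _ hw'⟩⟩
  rcases hmin A hA (fun a ha => ha.1) with h1 | h1
  · refine ⟨u, hu, hu2, fun c hc' => ?_⟩
    have : ⁅K, K⁆ ≤ U := commutator_le.2 fun a ha w hw => (h1 ▸ ha : a ∈ A).2 w hw
    exact this hc'
  · exact absurd (h1 ⟨hu, fun w hw => ⟨w, hw, rfl⟩⟩) hu2

theorem central_of_all [Finite G] (M : Subgroup G) [M.Normal] (hM : Group.IsSolvable M)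
    (h : ∀ (l : ℕ) (N : Subgroup G), l.Prime → N.Normal → N ≤ M → IsPGroup l N → N ≤ center G) :
    M ≤ center G := by
  by_contra hn
  obtain ⟨N, ⟨hN, hNM, hNc⟩, hmin⟩ := exMin (fun N : Subgroup G => N.Normal ∧ N ≤ M ∧ ¬ N ≤ center G)
    ⟨M, inferInstance, le_rfl, hn⟩
  have hN0 : N ≠ ⊥ := fun h0 => hNc (h0 ▸ bot_le)
  have hcc : ⁅N, N⁆ ≤ center G := by
    by_contra h1
    exact comm_lt hM hNM hN0 (hmin _ ⟨inferInstance, (commutator_le_left N N).trans hNM, h1⟩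
      (commutator_le_left N N))
  have : Group.IsNilpotent N := by
    refine Subgroup.isNilpotent_of_ker_le_center (Abelianization.of (G := N)) ?_
    rw [Abelianization.ker_of]
    intro a ha
    have : (a : G) ∈ ⁅N, N⁆ := by
      rw [← Subgroup.map_subtype_commutator]
      exact mem_map_of_mem _ ha
    exact mem_center_iff.2 fun g => Subtype.ext (mem_center_iff.1 (hcc this) g)
  have hi : ((center G).subgroupOf N).index ≠ 1 := fun h1 =>
    hNc (subgroupOf_eq_top.1 (index_eq_one.1 h1))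
  obtain ⟨l, hl, hd⟩ := Nat.exists_prime_and_dvd hi
  have := Fact.mk hl
  obtain ⟨S⟩ : Nonempty (Sylow l N) := inferInstance
  have : (S : Subgroup N).Normal := inferInstance
  have := S.characteristic_of_normal inferInstance
  have h2 := h l ((S : Subgroup N).map N.subtype) hl inferInstance
    ((map_subtype_le _).trans hNM) (S.isPGroup'.map _)
  have h3 : (S : Subgroup N) ≤ (center G).subgroupOf N := fun a ha => h2 (mem_map_of_mem _ ha)
  exact S.not_dvd_index (hd.trans (index_dvd_of_le h3))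

end Grp

open Subgroup in
theorem blockGrp : StmtGrp := by
  intro p _ G _ _ M H P _ hM hM0 hP hG hH
  by_cases h1 : ∃ N : Subgroup G, N.Normal ∧ N ≠ ⊥ ∧ N ≤ M ∧ IsPGroup p N
  · obtain ⟨K, ⟨hK, hK0, hKM, hKp⟩, hmin⟩ := Grp.exMin _ h1
    have hm : ∀ N : Subgroup G, N.Normal → N ≤ K → N = ⊥ ∨ N = K := fun N hN hle => by
      by_cases h0 : N = ⊥
      · exact Or.inl h0
      · exact Or.inr (hmin N ⟨hN, h0, hle.trans hKM, hKp.to_le hle⟩ hle)
    obtain ⟨a1, a2⟩ := Grp.caseP p K hK0 hKp hm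
    exact ⟨K, hK, hK0, hKM, Or.inl ⟨a1, a2, hm⟩⟩
  by_cases h2 : ∃ l : ℕ, l.Prime ∧
      ∃ N : Subgroup G, N.Normal ∧ N ≤ M ∧ IsPGroup l N ∧ ¬ N ≤ center G
  · obtain ⟨l, hl, h3⟩ := h2
    have := Fact.mk hl
    obtain ⟨K, ⟨hK, hKM, hKl, hKc⟩, hmin⟩ := Grp.exMin _ h3
    have hK0 : K ≠ ⊥ := fun h0 => hKc (h0 ▸ bot_le)
    have hlp : l ≠ p := fun h => h1 ⟨K, hK, hK0, hKM, h ▸ hKl⟩
    have hm : ∀ N : Subgroup G, N.Normal → N ≤ K → N = K ∨ N ≤ center G := fun N hN hle => by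
      by_cases h0 : N ≤ center G
      · exact Or.inr h0
      · exact Or.inl (hmin N ⟨hN, hle.trans hKM, hKl.to_le hle, h0⟩ hle)
    have hcc : ⁅K, K⁆ ≤ center G :=
      (hm _ inferInstance (commutator_le_left K K)).resolve_left (Grp.comm_lt hM hKM hK0)
    refine ⟨K, hK, hK0, hKM, Or.inr (Or.inl ⟨l, hl, hlp, hKl, hm, hcc, ?_, Grp.exU K hKc hm hcc⟩)⟩
    exact (hm _ inferInstance (commutator_le_left K ⊤)).resolve_right fun h =>
      hKc (Grp.central_of_comm p l hlp K P hKl hP hG h)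
  · have hc : M ≤ center G := Grp.central_of_all M hM fun l N hl hN hNM hNl => by
      by_contra h
      exact h2 ⟨l, hl, N, hN, hNM, hNl, h⟩
    have hb : ⁅M, (⊤ : Subgroup G)⁆ = ⊥ := by
      rw [commutator_eq_bot_iff_le_centralizer]
      intro a ha g _
      exact mem_center_iff.1 (hc ha) g
    have hcard : Nat.card M ≠ 1 := fun h => hM0 (card_eq_one.1 h)
    obtain ⟨l, hl, hd⟩ := Nat.exists_prime_and_dvd hcard
    have := Fact.mk hl
    obtain ⟨a, ha⟩ := exists_prime_orderOf_dvd_card' (G := M) l hd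
    have hle : zpowers (a : G) ≤ M := (zpowers_le).2 a.2
    have hk : Nat.card (zpowers (a : G)) = l := by
      rw [Nat.card_zpowers, Subgroup.orderOf_coe, ha]
    have hK0 : zpowers (a : G) ≠ ⊥ := fun h => hl.one_lt.ne' (by rw [← hk, h, card_bot])
    have hn := Grp.normal_of_le_center (hle.trans hc)
    have hlp : l ≠ p := fun h =>
      h1 ⟨_, hn, hK0, hle, IsPGroup.of_card (n := 1) (by rw [hk, h, pow_one])⟩
    exact ⟨_, hn, hK0, hle, Or.inr (Or.inr ⟨l, hl, hlp, hle.trans hc, hk,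
      hH l hl hlp (by rw [hb, relIndex_bot_left]; exact hd)⟩)⟩

end Pool.Agent.Lib.IW
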