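import Pool.Agent.Lib.IW.Heis3

/-! Any central tame twist at infinity occurs after a Kummer pull-back. -/

open Polynomial IntermediateField
open scoped Pointwise

namespace Pool.Agent.Lib.IW

lemma Heis.zeta_id {G : Type} [Group G] {b b' a a' r r' s s' c : G}
    (h1 : ∀ g, g * (b' * (a' * r'⁻¹ * s')⁻¹) = b' * (a' * r'⁻¹ * s')⁻¹ * g)
    (h2 : ∀ g, g * c = c * g)
    (h3 : c = s * r⁻¹ * (r * (a' * r'⁻¹) * r⁻¹) * (s * r⁻¹)⁻¹ * (r * (a' * r'⁻¹) * r⁻¹)⁻¹) :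
    b * b' * (a * a' * (r * r')⁻¹ * (s * s'))⁻¹ =
      b * (a * r⁻¹ * s)⁻¹ * (b' * (a' * r'⁻¹ * s')⁻¹) * c := by
  have h4 : c * (a * a' * (r * r')⁻¹ * (s * s')) = a * r⁻¹ * s * (a' * r'⁻¹ * s') := by
    calc _ = c * (a * r⁻¹) * (r * a' * (r * r')⁻¹ * (s * s')) := by group
      _ = _ := by rw [← h2, h3]; group
  rw [mul_assoc b (a * r⁻¹ * s)⁻¹, h1, mul_inv_eq_iff_eq_mul, mul_assoc _ c, h4]
  group

open Heis in
theorem blockHeis (hF : Found) (h0 : StmtLG0) (hc : StmtLGc) (hP : StmtProp) : StmtHeis := by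
  intro p _ k Ω _ _ _ _ _ _ x hx G _ _ K hK l hl hlp hp hcen hKG u hu hsurj ρ hρ hU hon W hW hxW
    M hM hMK z r hz hr lam hlam
  have hM0 : M ≠ 0 := fun h => hM (h ▸ dvd_zero p)
  have : NeZero M := ⟨hM0⟩
  have hMM : ¬ p ∣ M * M := fun h => ((Nat.Prime.dvd_mul Fact.out).1 h).elim hM hM
  have hle : ⁅K, K⁆ ≤ K := Subgroup.commutator_le_right K K
  have hcz : ∀ c ∈ ⁅K, K⁆, ∀ g, g * c = c * g := fun c h g =>
    Subgroup.mem_center_iff.1 (hcen h) g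
  have hzc : Co k z := co_of_pow hF.bas hx hz
  have hzx := Gam_le_of_pow (k := k) hz
  have hrx : r ^ (M * M) = x := by rw [pow_mul, hr, hz]
  have hzW : z ∉ W := fun h => hxW (hz ▸ pow_mem h M)
  obtain ⟨ω, hω⟩ := exists_prim (k := k) (Ω := Ω) p hMM
  have hω' : IsPrimitiveRoot (ω ^ M) M := hω.pow (Nat.pos_of_ne_zero (mul_ne_zero hM0 hM0)) rfl
  obtain ⟨lg, hlg, hlr⟩ := exists_lg (k := k) hx.ne_zero hz hω'
  have hl0 : ∀ γ ∈ Gam k x, γ z = z ↔ lg γ = 0 := fun γ hγ => by simpa using hlg γ hγ 0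
  have hlm : ∀ γ ∈ Gam k x, ∀ δ ∈ Gam k x, lg (γ * δ) = lg γ + lg δ := hlr.mul
  have hl1 : ∀ γ ∈ Gam k x, γ r = ω * r → lg γ = 1 := fun γ hγ e => by
    simpa using (hlg γ hγ 1).1 (by rw [← hr, map_pow, e, mul_pow, pow_one])
  have hln : ∀ γ ∈ Gam k x, γ r = ω * r → ∀ n : ℕ, lg (γ ^ n) = n := fun γ hγ e n => by
    induction n with
    | zero => simpa using (show lg 1 = 0 from hlr.one)
    | succ n ih => rw [pow_succ, hlm _ (pow_mem hγ n) _ hγ, ih, hl1 γ hγ e, Nat.cast_succ]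
  obtain ⟨W₀, hW₀, hx₀⟩ := hF.bas.exAt k Ω x hx 0
  rw [map_zero, sub_zero] at hx₀
  have hxW₀ : x ∈ W₀ := (W₀.valuation_le_one_iff x).1 hx₀.le
  have hzW₀ : z ∈ W₀ := mem_of_pow_mem hM0 (hz ▸ hxW₀)
  obtain ⟨γi, hγi, ei⟩ := exists_decInf hF p hx hW hxW hMM hrx hω.pow_eq_one
  obtain ⟨γ0, hγ0, e0⟩ := exists_dec0 hF p hx hW₀ hx₀ hMM hrx hω.pow_eq_one
  have hγi' := Dec_le _ _ hγi
  have hγ0' := Dec_le _ _ hγ0
  obtain ⟨A, C, _, _, _, π, e, β, P⟩ := exists_pair G K hcen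
  have : Finite A := Finite.of_surjective π fun a => (P.surj a).imp fun _ h => h.2
  have : Finite C := Finite.of_injective e P.inj
  have : Fact l.Prime := ⟨hl⟩
  obtain ⟨j, hj⟩ := hp.exists_card_eq
  have hkill : ∀ n : ℕ, (∀ a ∈ K, a ^ n = 1) → ∀ a : A, n • a = 0 := fun n h a => by
    obtain ⟨g, hg, rfl⟩ := P.surj a
    rw [← P.pow hg, h g hg, P.one]
  obtain ⟨ta, t1, t2, t3, t4, t5, v, hv, t6⟩ := exists_ta hF h0 p hx hρ hU hl hlp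
    (hkill (l ^ j) fun a ha => by
      rw [← hj]
      exact congrArg Subtype.val (pow_card_eq_one' (x := (⟨a, ha⟩ : K))))
    (P.clos hKG _ fun g a => by
      obtain ⟨γ, hγ, rfl⟩ := hon g
      exact AddSubgroup.subset_closure ⟨γ, hγ, a, rfl⟩) hW hxW hW₀ hx₀ hM hz hl0 hlr (π u)
  have hρz := hρ.mono hzx
  have hUz : Unr z ρ := fun W' hW' h γ hγ => hU W' hW' (hz ▸ pow_mem h M) γ (Dec_le_of_pow hz _ hγ)
  have ha : IsCoc (Gam k z) ρ fun γ => ta γ 0 :=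
    ⟨fun γ hγ δ hδ => by rw [t1 γ (hzx hγ) δ (hzx hδ), (hl0 γ (hzx hγ)).1 hγ, sub_zero],
      (t2.mono hzx).comp fun f => f 0⟩
  obtain ⟨ρa, a1, a2, a3⟩ := P.lift hc p hzc hl hlp hp hcen hρz hUz ha
    fun W' hW' h γ hγ => congrFun (t5 W' hW' h γ hγ) 0
  have hγ1 : γi ^ M ∈ Dec k z W := ⟨(hl0 _ (pow_mem hγi' M)).2 (by
    rw [hln γi hγi' ei, ZMod.natCast_self]), (pow_mem hγi M).2⟩
  have hγ1' := Dec_le _ _ hγ1
  have hca : ρa (γi ^ M) * (ρ (γi ^ M))⁻¹ ∈ ⁅K, K⁆ :=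
    (P.ker _ (a3 _ hγ1').1).1 ((a3 _ hγ1').2.trans (congrFun (t4 _ (pow_mem hγi M)) 0))
  obtain ⟨w, hw, ew⟩ := hsurj _ (mul_mem hca (inv_mem (hlam.2 _ hω'.pow_eq_one)))
  obtain ⟨ρ', p1, p2, p3, p4, p5, p6⟩ := hP p k Ω x hx G K l hl hlp hp hcen hKG ρ hρ hU
    (fun g => (hon g).imp fun γ h => ⟨h.1, by simp [h.2]⟩) W W₀ hW hxW hW₀ hx₀ M hM hMK z _ hz hω'
    w hw
  let b : Aut k Ω → A := fun γ => π (ρ' γ * (ρ γ)⁻¹)
  have hb : IsCoc (Gam k x) ρ b := ⟨fun γ hγ δ hδ => by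
    simp only [b]
    rw [← P.conj _ _ (p2 δ hδ), ← P.mul _ (p2 γ hγ) _ (hK.conj_mem _ (p2 δ hδ) _), p1.mul γ hγ δ hδ,
      hρ.mul γ hγ δ hδ]
    congr 1
    group, p1.cts.comp₂ hρ.cts fun g h => π (g * h⁻¹)⟩
  have hbW : ∀ γ ∈ Dec k x W, b γ = 0 := fun γ hγ => (P.ker _ (p2 γ (Dec_le _ _ hγ))).2 (p5 γ hγ)
  obtain ⟨ρb, b1, b2, b3⟩ := P.lift hc p hzc hl hlp hp hcen hρz hUz (a := fun γ => ta γ 0 + b γ)
    ⟨fun γ hγ δ hδ => by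
      rw [ha.add γ hγ δ hδ, hb.add γ (hzx hγ) δ (hzx hδ), smul_add]; abel,
      ha.cts.comp₂ (hb.cts.mono hzx) (· + ·)⟩ fun W' hW' h γ hγ => by
    simp only [b]
    rw [t5 W' hW' h γ hγ, p3 W' hW' h γ hγ, hUz W' hW' h γ hγ]
    simpa using P.one
  have hinv : ∀ g : G, ∃ c : C, g ∈ ⁅K, K⁆ → e c = g := fun g => by
    by_cases h : g ∈ ⁅K, K⁆
    · exact ((P.range g).1 h).imp fun _ h _ => h
    · exact ⟨0, fun h' => absurd h' h⟩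
  choose iv hiv using hinv
  let ζ : Aut k Ω → C := fun γ => iv (ρb γ * (ρa γ * (ρ γ)⁻¹ * ρ' γ)⁻¹)
  have hζm : ∀ γ ∈ Gam k z, ρb γ * (ρa γ * (ρ γ)⁻¹ * ρ' γ)⁻¹ ∈ ⁅K, K⁆ := fun γ hγ => by
    have h1 := mul_mem (a3 γ hγ).1 (p2 γ (hzx hγ))
    have h2 := (P.eq_iff (b3 γ hγ).1 h1).1 (by
      rw [(b3 γ hγ).2, P.mul _ (a3 γ hγ).1 _ (p2 γ (hzx hγ)), (a3 γ hγ).2])
    convert h2 using 1
    group
  have hζ : ∀ γ ∈ Gam k z, e (ζ γ) = ρb γ * (ρa γ * (ρ γ)⁻¹ * ρ' γ)⁻¹ := fun γ hγ =>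
    hiv _ (hζm γ hγ)
  have hζ0 : ∀ W' : ValuationSubring Ω, IsPl k W' → z ∈ W' → ∀ γ ∈ Dec k z W', ζ γ = 0 :=
    fun W' hW' h γ hγ => P.inj (by
      rw [hζ γ (Dec_le _ _ hγ), b2 W' hW' h γ hγ, a2 W' hW' h γ hγ, hUz W' hW' h γ hγ,
        p3 W' hW' h γ hγ, emb_zero P.add]
      simp)
  have D : Dat (Gam k x) (Gam k z) lg ρ ta b β ζ fun η => γi ^ η.val :=
    { mem := fun γ => ⟨fun h => ⟨hzx h, (hl0 γ (hzx h)).1 h⟩, fun h => (hl0 γ h.1).2 h.2⟩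
      lg_mul := hlm
      rho_mul := hρ.mul
      ta_mul := t1
      ta_sum := t3
      b_mul := hb.add
      inv := P.invar hcen
      zeta := fun γ hγ δ hδ => P.inj (by
        have h1 := hK.conj_mem _ (a3 δ hδ).1 (ρ γ)
        have h2 := hcz _ (comm_mem (p2 γ (hzx hγ)) h1)
        rw [P.add, P.add, ← (a3 δ hδ).2, ← P.conj _ _ (a3 δ hδ).1, P.pair _ (p2 γ (hzx hγ)) _ h1,
          hζ _ (mul_mem hγ hδ), hζ γ hγ, hζ δ hδ, b1.mul γ hγ δ hδ, a1.mul γ hγ δ hδ,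
          hρz.mul γ hγ δ hδ, p1.mul γ (hzx hγ) δ (hzx hδ)]
        exact zeta_id (hcz _ (hζm δ hδ)) h2 rfl)
      t_mem := fun η => pow_mem hγi' _
      t_lg := fun η => by rw [hln γi hγi' ei, ZMod.natCast_zmod_val]
      t_ta := fun η i => congrFun (t4 _ (pow_mem hγi _)) i
      t_b := fun η => hbW _ (pow_mem hγi _) }
  have hV : IsRep (Gam k x) fun γ => Multiplicative.ofAdd (tr lg (fun η => γi ^ η.val) ζ γ) :=
    ⟨fun γ hγ δ hδ => by rw [D.tr_mul hγ hδ, ofAdd_add],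
      (cts_tr D (hlr.cts.comp Multiplicative.toAdd) ((b1.cts.comp₂ ((a1.cts.comp₂ hρz.cts
        fun g h => g * h⁻¹).comp₂ (p1.cts.mono hzx) (· * ·)) fun g h => iv (g * h⁻¹)))).comp _⟩
  have hk := hF.kum p k Ω x hx _ _ hV (fun _ _ _ _ => mul_comm _ _) (M * M) hMM
    (fun γ _ => by
      rw [← ofAdd_nsmul, ofAdd_eq_one]
      apply P.inj
      rw [emb_nsmul P.add, pow_mul, hMK _ (hle ((P.range _).2 ⟨_, rfl⟩)), one_pow, emb_zero P.add])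
    (fun W' hW' h γ hγ => by
      rw [ofAdd_eq_one]
      refine Finset.sum_eq_zero fun η _ => ?_
      have hγ' := Dec_le _ _ hγ
      have h1 : lg γ = 0 := (hl0 γ hγ').1 (hF.bas.unitFix k Ω x hx W' hW' γ hγ.2 z M
        (fun h => hM ((CharP.cast_eq_zero_iff k p M).1 h))
        ((pow_eq_one_iff_of_nonneg zero_le hM0).1 (by rw [← map_pow, hz, h]))
        (by rw [hz]; exact hγ'))
      have ht := D.t_mem η
      obtain ⟨s1, s2, -⟩ := hF.bas.smulPl k Ω W' hW' (γi ^ η.val)⁻¹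
      refine hζ0 _ s1 (mem_of_pow_mem hM0 ?_) _ ⟨D.cmp_mem hγ' η, ?_⟩
      · rw [hz, ← mem_Gam.1 (inv_mem ht), s2]
        exact (W'.valuation_le_one_iff x).1 h.le
      · rw [Heis.cmp, h1, zero_add]
        exact ((conj_mem_Dec ht).2 (by rwa [smul_inv_smul])).2)
    r hrx (γ0⁻¹ * γi) (by
      rw [AlgEquiv.mul_apply, ei, ← e0]
      exact γ0.symm_apply_apply r)
  rw [hV.mul _ (inv_mem hγ0') _ hγi', hV.inv hγ0', inv_mul_eq_one, Multiplicative.ofAdd.apply_eq_iff_eq,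
    D.tr_inf (hl1 γi hγi' ei) fun _ => rfl,
    D.tr_zero hγ0' (hl1 γ0 hγ0' e0) (u := v) (w := π w) (hkill M hMK _)
      (fun n => hU W₀ hW₀ hxW₀ _ (pow_mem hγ0 n)) (fun n => t6 _ (pow_mem hγ0 n))
      (fun n => by
        have h1 := pow_mem hγ0' n
        have h2 := p6 _ (pow_mem hγ0 n) (lg (γ0 ^ n)).val
          ((hlg _ h1 _).2 (ZMod.natCast_zmod_val _).symm)
        have h3 := p2 _ h1
        simp only [b]
        rw [hU W₀ hW₀ hxW₀ _ (pow_mem hγ0 n), inv_one, mul_one] at h3 ⊢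
        rw [(P.eq_iff h3 (pow_mem hw _)).2 h2, P.pow hw])
      (fun n h => hζ0 W₀ hW₀ hzW₀ _ ⟨(hl0 _ (pow_mem hγ0' n)).2 h, (pow_mem hγ0 n).2⟩), hv] at hk
  have hf : ∀ γ ∈ Dec k z W, ρb γ * (ρ γ)⁻¹ ∈ ⁅K, K⁆ := fun γ hγ =>
    (P.ker _ (b3 γ (Dec_le _ _ hγ)).1).1 (by
      rw [(b3 γ (Dec_le _ _ hγ)).2, t4 γ (Dec_le_of_pow hz _ hγ), hbW γ (Dec_le_of_pow hz _ hγ)]
      simp)
  have hκ : ∀ γ ∈ Dec k z W, (γ r / r) ^ M = 1 := fun γ hγ =>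
    kap_pow hr hzc.ne_zero (Dec_le _ _ hγ)
  have hr0 : r ≠ 0 := by
    rintro rfl
    exact hzc.ne_zero (by rw [← hr, zero_pow hM0])
  have hi : ∀ n : ℕ, (γi ^ n) r = ω ^ n * r := fun n => by
    induction n with
    | zero => simp
    | succ n ih =>
      rw [pow_succ', AlgEquiv.mul_apply, ih, map_mul, ei, root_fixed (mul_ne_zero hM0 hM0)
        (by rw [← pow_mul, mul_comm, pow_mul, hω.pow_eq_one, one_pow]) γi]
      ring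
  have hφ := cent_triv hF p hzc hW hzW (φ := fun γ => ρb γ * (ρ γ)⁻¹ * (lam (γ r / r))⁻¹)
    ⟨fun γ hγ δ hδ => by
      have hγ' := Dec_le _ _ hγ
      have hδ' := Dec_le _ _ hδ
      rw [kap_mul hM0 hr hzc.ne_zero γ hδ', hlam.1 _ _ (hκ γ hγ) (hκ δ hδ), b1.mul γ hγ' δ hδ',
        hρz.mul γ hγ' δ hδ', mul_assoc _ (lam (γ r / r))⁻¹,
        ← hcz _ (inv_mem (hlam.2 _ (hκ γ hγ))), mul_assoc (ρb γ) (ρ γ)⁻¹, mul_assoc (ρb δ * _),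
        ← mul_assoc (ρ γ)⁻¹, hcz _ (hf δ hδ)]
      group,
      (((b1.cts.comp₂ hρz.cts fun g h => g * h⁻¹).mono (Dec_le _ _)).comp₂ (cts_apply _ r)
        fun g y => g * (lam (y / r))⁻¹)⟩ hM
    (fun γ hγ => hMK _ (hle (mul_mem (hf γ hγ) (inv_mem (hlam.2 _ (hκ γ hγ)))))) hr hω' hγ1 (hi M)
    (by
      have h1 := hζ _ hγ1'
      rw [← hk, P.pair w hw u hu, p4 _ hγ1, inv_mul_cancel_right, eq_mul_inv_iff_mul_eq] at h1
      rw [hi, mul_div_cancel_right₀ _ hr0, ← h1, mul_assoc _ (ρa _), mul_assoc, ← ew]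
      group)
  refine ⟨ρb, b1, b2, fun γ hγ => ?_⟩
  have h1 := hφ γ hγ
  rw [mul_inv_eq_one, mul_inv_eq_iff_eq_mul] at h1
  rw [h1, hcz _ (hlam.2 _ (hκ γ hγ))]

end Pool.Agent.Lib.IW
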