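import Pool.Agent.Lib.IW.Util

/-! The decomposition field is unramified; norms from the field of a local representation. -/

open Polynomial IntermediateField
open scoped Pointwise

namespace Pool.Agent.Lib.IW

namespace Hens

variable {k Ω : Type} [Field k] [Field Ω] [Algebra k Ω]

lemma alg_of_co {F : IntermediateField k Ω} {x : Ω} (hx : x ∈ F) (h : Co k x) (y : Ω) :
    IsAlgebraic F y := by
  have hle : (k⟮x⟯).toSubalgebra ≤ F.toSubalgebra := adjoin_simple_le_iff.2 hx
  exact IsAlgebraic.tower_top_of_subalgebra_le hle (h.alg y)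

lemma val_eq_one (W : ValuationSubring Ω) (a : Ω) :
    W.valuation a = 1 ↔ a ≠ 0 ∧ a ∈ W ∧ a⁻¹ ∈ W := by
  rw [← W.valuation_le_one_iff, ← W.valuation_le_one_iff, map_inv₀]
  constructor
  · intro h
    refine ⟨fun h0 => ?_, h.le, by rw [h, inv_one]⟩
    rw [h0, map_zero] at h
    exact zero_ne_one h
  · rintro ⟨h0, h1, h2⟩
    have h3 : 0 < W.valuation a := zero_lt_iff.2 ((_root_.map_ne_zero _).2 h0)
    exact le_antisymm h1 ((inv_le_one₀ h3).1 h2)

/-- An automorphism fixing `F`, as an `F`-algebra map. -/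
def toF {F : IntermediateField k Ω} (γ : Aut k Ω) (hγ : γ ∈ F.fixingSubgroup) : Ω →ₐ[F] Ω :=
  { (γ : Ω →+* Ω) with
    commutes' := fun c => (IntermediateField.mem_fixingSubgroup_iff F γ).1 hγ c c.2 }

lemma sep_map {F : IntermediateField k Ω} {γ : Aut k Ω} (hγ : γ ∈ F.fixingSubgroup) {s : Ω}
    (hs : IsSeparable F s) : IsSeparable F (γ s) :=
  IsSeparable.map (toF γ hγ) γ.injective hs

lemma sep_prod {F : IntermediateField k Ω} {ι : Type} [Fintype ι] (f : ι → Ω)
    (h : ∀ i, IsSeparable F (f i)) : IsSeparable F (∏ i, f i) := by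
  rw [← mem_separableClosure_iff]
  exact prod_mem fun i _ => mem_separableClosure_iff.2 (h i)

/-- Same order at one place, unit at finitely many others. -/
lemma approx2 [IsAlgClosed k] (hU : StmtUnif) (E : IntermediateField k Ω) (hE : FF E)
    {ι : Type} [Finite ι] (W0 : ValuationSubring Ω) (W : ι → ValuationSubring Ω)
    (h0 : IsPl k W0) (hW : ∀ i, IsPl k (W i)) (hne : ∀ i, ¬ Agr E (W i) W0) (y : Ω) (hy : y ∈ E)
    (hy0 : y ≠ 0) :
    ∃ s ∈ E, W0.valuation s = W0.valuation y ∧ ∀ i, (W i).valuation s = 1 := by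
  classical
  let V : Option ι → ValuationSubring Ω := fun a => a.elim W0 W
  have hV : ∀ a, IsPl k (V a) := fun a => by
    cases a with
    | none => exact h0
    | some i => exact hW i
  let S : Setoid (Option ι) :=
    ⟨fun a b => Agr E (V a) (V b), fun _ _ _ => Iff.rfl, fun h z hz => (h z hz).symm,
      fun h h' z hz => (h z hz).trans (h' z hz)⟩
  have hout : ∀ a : Option ι, Agr E (V (Quotient.mk S a).out) (V a) := fun a =>
    Quotient.mk_out (s := S) a
  have hnone : (Quotient.mk S none).out = none := by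
    have := hout none
    cases h : (Quotient.mk S none).out with
    | none => rfl
    | some i => rw [h] at this; exact absurd this (hne i)
  choose π hπ using fun q : Quotient S => hU.ex k Ω E hE (V q.out) (hV _)
  obtain ⟨n0, hn0⟩ := hU.val k Ω E hE _ (hV _) _ (hπ (Quotient.mk S none)) y hy hy0
  obtain ⟨s, hs, hs'⟩ := hU.approx k Ω E hE (Quotient S) (fun q => V q.out) π (fun q => hV _) hπ
    (fun q q' h => Quotient.out_equiv_out.1 h)
    (fun q => if q = Quotient.mk S none then y else 1)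
    (fun q => if q = Quotient.mk S none then n0 + 1 else 1)
    (fun q => by split_ifs; exacts [hy, one_mem E])
  refine ⟨s, hs, ?_, fun i => ?_⟩
  · have h1 := hs' (Quotient.mk S none)
    have h2 := hπ (Quotient.mk S none)
    simp only [if_true] at h1
    have hV0 : V (Quotient.mk S none).out = W0 := by rw [hnone]; rfl
    rw [← hV0]
    generalize V (Quotient.mk S none).out = W1 at h1 h2 hn0 ⊢
    have h3 : W1.valuation (π (Quotient.mk S none)) < 1 := h2.2.2.1
    have h4 : 0 < W1.valuation (π (Quotient.mk S none)) :=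
      zero_lt_iff.2 ((_root_.map_ne_zero _).2 h2.2.1)
    have h5 : W1.valuation (s - y) < W1.valuation y := by
      refine h1.trans_lt ?_
      rw [hn0, zpow_add_one₀ h4.ne']
      exact mul_lt_of_lt_one_right (zpow_pos h4 _) h3
    exact Valuation.map_eq_of_sub_lt _ h5
  · have hq : Quotient.mk S (some i) ≠ Quotient.mk S none := fun h =>
      hne i (Quotient.exact h)
    have h1 := hs' (Quotient.mk S (some i))
    simp only [if_neg hq, zpow_one] at h1
    have h2 := h1.trans_lt (hπ _).2.2.1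
    have h3 : (V (Quotient.mk S (some i)).out).valuation s = 1 := by
      have := Valuation.map_eq_of_sub_lt (V (Quotient.mk S (some i)).out).valuation
        (x := 1) (y := s) (by rw [map_one]; exact h2)
      rw [this, map_one]
    rw [val_eq_one] at h3 ⊢
    exact ⟨h3.1, (hout (some i) s hs).1 h3.2.1, (hout (some i) _ (inv_mem hs)).1 h3.2.2⟩

theorem hens (hC : StmtConj) (hB : StmtBas) (hG : StmtGal) (hU : StmtUnif) [IsAlgClosed k]
    [IsAlgClosed Ω] (F : IntermediateField k Ω) (hF : FF F) (W : ValuationSubring Ω)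
    (hW : IsPl k W) (π : Ω) (hπ : IsUnif F W π) (y : Ω) (hy0 : y ≠ 0) (hsep : IsSeparable F y)
    (hfix : ∀ γ ∈ DecF F W, γ y = y) : ∃ i : ℤ, W.valuation y = W.valuation π ^ i := by
  classical
  obtain ⟨hfg, x, hxF, hx⟩ := hF
  have halg := alg_of_co hxF hx
  let E : IntermediateField k Ω := F ⊔ k⟮y⟯
  have hE : FF E := ⟨fg_sup hfg ⟨{y}, by simp⟩, x, (le_sup_left : F ≤ E) hxF, hx⟩
  have hyE : y ∈ E := (le_sup_right : k⟮y⟯ ≤ E) (mem_adjoin_simple_self k y)
  have halgE := alg_of_co ((le_sup_left : F ≤ E) hxF) hx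
  have hfixE : ∀ δ : Aut k Ω, δ ∈ E.fixingSubgroup ↔ δ ∈ F.fixingSubgroup ∧ δ y = y := by
    intro δ
    rw [fixingSubgroup_sup, fix_adjoin, Subgroup.mem_inf, mem_Gam]
  have hsepE : ∀ s ∈ E, IsSeparable F s := by
    have : E ≤ (separableClosure F Ω).restrictScalars k := by
      refine sup_le (fun z hz => ?_) (adjoin_simple_le_iff.2 ?_)
      · exact (separableClosure F Ω).algebraMap_mem ⟨z, hz⟩
      · exact mem_separableClosure_iff.2 hsep
    exact fun s hs => mem_separableClosure_iff.1 (this hs)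
  let Γ := F.fixingSubgroup
  let X := MulAction.orbit Γ y
  have hXfin : X.Finite := by
    refine ((minpoly F y).rootSet_finite Ω).subset ?_
    rintro _ ⟨γ, rfl⟩
    rw [mem_rootSet']
    refine ⟨Polynomial.map_ne_zero (minpoly.ne_zero (halg y).isIntegral), ?_⟩
    have := aeval_algHom_apply (toF γ.1 γ.2) y (minpoly F y)
    rw [minpoly.aeval, map_zero] at this
    exact this
  have : Fintype X := hXfin.fintype
  have hch : ∀ r : X, ∃ γ : Aut k Ω, γ ∈ F.fixingSubgroup ∧ γ y = r := fun r => by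
    obtain ⟨γ, hγ⟩ := r.2
    exact ⟨γ.1, γ.2, hγ⟩
  choose c hc hcy using hch
  let y0 : X := ⟨y, MulAction.mem_orbit_self y⟩
  obtain ⟨s, hs, hs0, hs1⟩ := approx2 hU E hE W (fun r : {r : X // r ≠ y0} => (c r.1)⁻¹ • W) hW
    (fun r => (hB.smulPl k Ω W hW _).1) (fun r h => by
      obtain ⟨δ, hδ, hδW⟩ := hC k Ω E halgE _ _ h
      obtain ⟨hδ1, hδ2⟩ := (hfixE δ).1 hδ
      have h1 : δ * (c r.1)⁻¹ ∈ DecF F W := by
        refine Subgroup.mem_inf.2 ⟨mul_mem hδ1 (inv_mem (hc r.1)), ?_⟩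
        change (δ * (c r.1)⁻¹) • W = W
        rw [mul_smul, hδW]
      have h2 := hfix _ (inv_mem h1)
      rw [mul_inv_rev, inv_inv, AlgEquiv.mul_apply] at h2
      have h3 : δ⁻¹ y = y := by
        rw [← hδ2]
        change δ.symm (δ y) = δ y
        rw [AlgEquiv.symm_apply_apply, hδ2]
      rw [h3, hcy] at h2
      exact r.2 (Subtype.ext h2)) y hyE hy0
  have hcs : ∀ γ ∈ F.fixingSubgroup, ∀ r : X, γ y = r → γ s = c r s := by
    intro γ hγ r hr
    have h1 : (c r)⁻¹ * γ ∈ E.fixingSubgroup := by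
      refine (hfixE _).2 ⟨mul_mem (inv_mem (hc r)) hγ, ?_⟩
      rw [AlgEquiv.mul_apply, hr, ← hcy r]
      exact AlgEquiv.symm_apply_apply _ _
    have h2 := (IntermediateField.mem_fixingSubgroup_iff E _).1 h1 s hs
    rw [AlgEquiv.mul_apply] at h2
    conv_rhs => rw [← h2]
    exact (AlgEquiv.apply_symm_apply _ _).symm
  have hN : (∏ r : X, c r s) ∈ F := by
    refine hG.sep k Ω F halg _ (sep_prod _ fun r => sep_map (hc r) (hsepE s hs)) fun δ hδ => ?_
    rw [map_prod]
    refine Fintype.prod_equiv (MulAction.toPerm (⟨δ, hδ⟩ : Γ)) _ _ fun r => ?_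
    rw [← AlgEquiv.mul_apply]
    refine hcs _ (mul_mem hδ (hc r)) _ ?_
    rw [AlgEquiv.mul_apply, hcy]
    rfl
  have hv : W.valuation (∏ r : X, c r s) = W.valuation y := by
    rw [map_prod, Finset.prod_eq_single y0]
    · rw [← hcs 1 (one_mem _) y0 rfl, AlgEquiv.one_apply, hs0]
    · intro r _ hr
      have h1 := hs1 ⟨r, hr⟩
      have h2 := (hB.smulPl k Ω W hW (c r)⁻¹).2.1
      rw [val_eq_one] at h1 ⊢
      refine ⟨by simpa using h1.1, (h2 _).1 ?_, (h2 _).1 ?_⟩
      · change (c r).symm (c r s) ∈ _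
        rw [AlgEquiv.symm_apply_apply]
        exact h1.2.1
      · change (c r).symm (c r s)⁻¹ ∈ _
        rw [map_inv₀, AlgEquiv.symm_apply_apply]
        exact h1.2.2
    · intro h
      exact absurd (Finset.mem_univ _) h
  have hN0 : (∏ r : X, c r s) ≠ 0 := fun h => by
    rw [h, map_zero] at hv
    exact (_root_.map_ne_zero _).2 hy0 hv.symm
  rw [← hv]
  exact hU.val k Ω F ⟨hfg, x, hxF, hx⟩ W hW π hπ _ hN hN0

end Hens

theorem blockHens (hC : StmtConj) (hB : StmtBas) (hG : StmtGal) (hU : StmtUnif) : StmtHens := by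
  refine ⟨fun p _ k Ω _ _ _ _ _ _ F hF W hW π hπ y hy0 hsep hfix =>
    Hens.hens hC hB hG hU F hF W hW π hπ y hy0 hsep hfix, ?_⟩
  intro p _ k Ω _ _ _ _ _ _ F hF W hW π hπ G _ _ ρ h y hy0 hsep hfix
  classical
  have : Fintype h.im := Fintype.ofFinite _
  have hch : ∀ g : h.im, ∃ γ ∈ DecF F W, ρ γ = g := fun g => h.mem_im.1 g.2
  choose c hc hcρ using hch
  have hcs : ∀ γ ∈ DecF F W, ∀ g : h.im, ρ γ = g → γ y = c g y := by
    intro γ hγ g hg
    have h1 := hfix ((c g)⁻¹ * γ) (mul_mem (inv_mem (hc g)) hγ) (by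
      rw [h.mul _ (inv_mem (hc g)) _ hγ, h.inv (hc g), hcρ, hg, inv_mul_cancel])
    rw [AlgEquiv.mul_apply] at h1
    conv_rhs => rw [← h1]
    exact (AlgEquiv.apply_symm_apply _ _).symm
  obtain ⟨i, hi⟩ := Hens.hens hC hB hG hU F hF W hW π hπ (∏ g : h.im, c g y)
    (Finset.prod_ne_zero_iff.2 fun g _ => by simpa using hy0)
    (Hens.sep_prod _ fun g => Hens.sep_map (hc g).1 hsep) (fun δ hδ => by
      rw [map_prod]
      refine Fintype.prod_equiv (Equiv.mulLeft (⟨ρ δ, h.mem_im.2 ⟨δ, hδ, rfl⟩⟩ : h.im)) _ _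
        fun g => ?_
      rw [← AlgEquiv.mul_apply]
      refine hcs _ (mul_mem hδ (hc g)) _ ?_
      rw [h.mul _ hδ _ (hc g), hcρ]
      rfl)
  refine ⟨i, ?_⟩
  obtain ⟨-, x, -, hx⟩ := hF
  rw [← hi, map_prod, Finset.prod_congr rfl fun g _ => hB.valFix k Ω x hx W hW (c g)
    (mem_DecF.1 (hc g)).2 π hπ.2.1 hπ.2.2.1 ((mem_DecF.1 (hc g)).1 π hπ.1) y,
    Finset.prod_const, Finset.card_univ, Nat.card_eq_fintype_card]

end Pool.Agent.Lib.IW
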