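import Pool.Agent.Lib.IW.EvalN

/-! Block Inter: the intersection property. -/

open Polynomial IntermediateField

namespace Pool.Agent.Lib.IW

namespace Inter

variable {𝕜 Q : Type} [NormedField 𝕜] [NormedField Q] [NormedAlgebra 𝕜 Q] {σ : Q}

lemma quot_le [IsUltrametricDist Q] (s1 : ‖σ‖ = 1)
    (hc : ∀ (P : 𝕜[X]) (r : ℝ), 0 ≤ r → (‖aeval σ P‖ ≤ r ↔ ∀ i, ‖P.coeff i‖ ≤ r)) {q a : 𝕜[X]}
    (hq : q.Monic) (q1 : ‖aeval σ q‖ = 1) (ha : a.degree < q.degree) {r : ℝ} (r0 : 0 ≤ r) (p : 𝕜[X])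
    (h : ‖aeval σ (p * q - a)‖ ≤ r) : ‖aeval σ p‖ ≤ r := by
  induction hn : p.support.card using Nat.strong_induction_on generalizing p with
  | _ n ih =>
    rcases eq_or_ne p 0 with rfl | p0
    · simpa using r0
    have h1 : ‖p.leadingCoeff‖ ≤ r := by
      have := (hc _ r r0).1 h (p.natDegree + q.natDegree)
      rwa [coeff_sub, coeff_mul_degree_add_degree, hq.leadingCoeff, mul_one,
        coeff_eq_zero_of_degree_lt (ha.trans_le (degree_le_natDegree.trans (by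
          exact_mod_cast Nat.le_add_left _ _))), sub_zero] at this
    have h2 : ‖aeval σ (monomial p.natDegree p.leadingCoeff)‖ ≤ r := by
      rwa [aeval_monomial, norm_mul, norm_pow, s1, one_pow, mul_one, norm_algebraMap']
    have h3 := ih _ (hn ▸ eraseLead_support_card_lt p0) p.eraseLead (by
      rw [show p.eraseLead * q - a = (p * q - a) - monomial p.natDegree p.leadingCoeff * q by
        rw [← self_sub_monomial_natDegree_leadingCoeff]; ring, map_sub]
      refine (EvalN.sub_le_max _ _).trans (max_le h ?_)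
      rwa [map_mul, norm_mul, q1, mul_one]) rfl
    rw [← p.eraseLead_add_monomial_natDegree_leadingCoeff, map_add]
    exact (IsUltrametricDist.norm_add_le_max _ _).trans (max_le h3 h2)

lemma closed [CompleteSpace 𝕜] [DecidableEq 𝕜]
    (hc : ∀ (P : 𝕜[X]) (r : ℝ), 0 ≤ r → (‖aeval σ P‖ ≤ r ↔ ∀ i, ‖P.coeff i‖ ≤ r)) (n : ℕ) :
    IsClosed (Set.range fun c : Fin n → 𝕜 => aeval σ (ofFn n c)) := by
  have : Isometry ((aeval σ : 𝕜[X] →ₐ[𝕜] Q).toLinearMap ∘ₗ ofFn n) := by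
    refine AddMonoidHomClass.isometry_of_norm _ fun c => le_antisymm ?_ ?_
    · refine (hc (ofFn n c) _ (norm_nonneg _)).2 fun i => ?_
      rcases lt_or_ge i n with h | h
      · rw [ofFn_coeff_eq_val_of_lt _ h]; exact norm_le_pi_norm c _
      · rw [ofFn_coeff_eq_zero_of_ge _ h, norm_zero]; exact norm_nonneg _
    · refine (pi_norm_le_iff_of_nonneg (norm_nonneg _)).2 fun i => ?_
      have := (hc (ofFn n c) _ (norm_nonneg _)).1 le_rfl i
      rwa [ofFn_coeff_eq_val_of_lt _ i.2] at this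
  exact this.isClosedEmbedding.isClosed_range

end Inter

open _root_.Pool.Agent.Lib.IW.Inter in
theorem blockInter (hG : StmtGN) : StmtInter := by
  classical
  intro 𝕜 Q _ _ _ _ _ _ _ _ σ hσ y h1 h2
  have hc := hG.coeff 𝕜 Q σ hσ
  have s1 : ‖σ‖ = 1 := by simpa using hσ.gauss 0
  have ne : ∀ {P : 𝕜[X]}, P ≠ 0 → aeval σ P ≠ 0 := fun h k => hG.tr 𝕜 Q σ hσ ⟨_, h, k⟩
  obtain ⟨r1, hr1, q1, q0, e1⟩ := hG.mer1 𝕜 Q σ hσ y h1
  obtain ⟨r2, hr2, s, hs, s0, e2⟩ := hG.mer2 𝕜 Q σ hσ y h2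
  obtain ⟨P, q, hq, -, -, rfl⟩ := (hG.s2 𝕜 Q σ hσ s).1 hs
  have P0 : aeval σ P ≠ 0 := fun k => s0 (by rw [k, zero_div])
  have q2 := ne hq.ne_zero
  have q3 := ne q0
  have e : r1 * aeval σ P = r2 * aeval σ (q * q1) := by
    rw [e1] at e2
    rw [map_mul]
    field_simp at e2
    linear_combination e2
  have w1 : r1 * aeval σ P ∈ R1 𝕜 σ :=
    mul_mem hr1 (Subalgebra.le_topologicalClosure _ (aeval_mem_adjoin_singleton _ _))
  set g := q * q1 with hg
  have g0 : 0 < ‖aeval σ g‖ := norm_pos_iff.2 (ne (mul_ne_zero hq.ne_zero q0))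
  obtain ⟨c, hc'⟩ : r1 * aeval σ P ∈ Set.range fun c : Fin (g.natDegree + 1) → 𝕜 =>
      aeval σ (ofFn _ c) := by
    rw [← (closed hc _).closure_eq, Metric.mem_closure_iff]
    intro ε ε0
    obtain ⟨p0, hp, d0⟩ := Metric.mem_closure_iff.1 w1 ε ε0
    obtain ⟨s', hs', d1⟩ := Metric.mem_closure_iff.1 hr2 (ε / ‖aeval σ g‖) (by positivity)
    rw [SetLike.mem_coe, Algebra.adjoin_singleton_eq_range_aeval] at hp
    obtain ⟨p0, rfl⟩ := hp
    obtain ⟨P', q', hq', rt, dg, rfl⟩ := (hG.s2 𝕜 Q σ hσ s').1 hs'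
    have n1 : ‖aeval σ q'‖ = 1 := by
      rw [EvalN.norm_monic (ρ := 1) hq' fun a ha => by rw [hσ.gauss, max_eq_left (rt a ha)], one_pow]
    have n0 := ne hq'.ne_zero
    have dg' : (g * P' /ₘ q').natDegree < g.natDegree + 1 := by
      rw [natDegree_divByMonic _ hq']
      have := natDegree_mul_le (p := g) (q := P')
      omega
    refine ⟨_, ⟨toFn _ (g * P' /ₘ q'), rfl⟩, ?_⟩
    rw [dist_eq_norm] at d0 d1 ⊢
    rw [lt_div_iff₀ g0, ← norm_mul, sub_mul, ← e] at d1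
    beta_reduce
    rw [ofFn_comp_toFn_eq_id_of_natDegree_lt dg']
    change ‖r1 * aeval σ P - aeval σ p0‖ < ε at d0
    have k : aeval σ ((p0 - g * P' /ₘ q') * q' - g * P' %ₘ q') =
        ((r1 * aeval σ P - aeval σ P' / aeval σ q' * aeval σ g) - (r1 * aeval σ P - aeval σ p0))
          * aeval σ q' := by
      have := congrArg (aeval σ) (modByMonic_add_div (g * P') q')
      simp only [map_add, map_mul, map_sub] at this ⊢
      field_simp
      linear_combination -this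
    have k2 := quot_le s1 hc hq' n1 (degree_modByMonic_lt (g * P') hq') (norm_nonneg _)
      (p0 - g * P' /ₘ q') le_rfl
    rw [k, norm_mul, n1, mul_one, map_sub] at k2
    rw [← sub_add_sub_cancel _ (aeval σ p0)]
    exact (IsUltrametricDist.norm_add_le_max _ _).trans_lt
      (max_lt d0 (k2.trans_lt ((EvalN.sub_le_max _ _).trans_lt (max_lt d1 d0))))
  rw [e1, mem_adjoin_simple_iff]
  refine ⟨ofFn _ c, P * q1, ?_⟩
  rw [map_mul, show aeval σ (ofFn _ c) = r1 * aeval σ P from hc']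
  field_simp

end Pool.Agent.Lib.IW
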