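import Pool.Agent.Lib.IW.Util

/-! A complete algebraically closed constant extension and its Gauss completion. -/

open Polynomial IntermediateField

namespace Pool.Agent.Lib.IW

namespace Khat

lemma add_lt {A : Type} [NormedField A] [IsUltrametricDist A] {x y : A} (hx : ‖x‖ < 1)
    (hy : ‖y‖ < 1) : ‖x + y‖ < 1 :=
  (IsUltrametricDist.norm_add_le_max x y).trans_lt (max_lt hx hy)

lemma add_le {A : Type} [NormedField A] [IsUltrametricDist A] {x y : A} (hx : ‖x‖ ≤ 1)
    (hy : ‖y‖ ≤ 1) : ‖x + y‖ ≤ 1 :=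
  (IsUltrametricDist.norm_add_le_max x y).trans (max_le hx hy)

/-- The completion of an ultrametric normed field. -/
lemma compl (A : Type) [NormedField A] [IsUltrametricDist A] :
    ∃ (B : Type) (_ : NormedField B) (_ : IsUltrametricDist B) (_ : CompleteSpace B)
      (j : A →+* B), (∀ a, ‖j a‖ = ‖a‖) ∧ DenseRange j := by
  refine ⟨UniformSpace.Completion A, inferInstance, ?_, inferInstance,
    UniformSpace.Completion.coeRingHom, fun a => UniformSpace.Completion.norm_coe a,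
    UniformSpace.Completion.denseRange_coe⟩
  refine IsUltrametricDist.isUltrametricDist_of_forall_norm_add_le_max_norm fun x y => ?_
  induction x, y using UniformSpace.Completion.induction_on₂ with
  | hp => exact isClosed_le (by fun_prop) (by fun_prop)
  | ih a b =>
    rw [← UniformSpace.Completion.coe_add, UniformSpace.Completion.norm_coe,
      UniformSpace.Completion.norm_coe, UniformSpace.Completion.norm_coe]
    exact IsUltrametricDist.norm_add_le_max a b

/-- The algebraic closure of a complete ultrametric field. -/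
lemma spec (K : Type) [NormedField K] [IsUltrametricDist K] [CompleteSpace K] {t : K} (h0 : t ≠ 0)
    (h1 : ‖t‖ < 1) : ∃ (L : Type) (_ : NormedField L) (_ : IsUltrametricDist L) (_ : IsAlgClosed L)
      (j : K →+* L), (∀ a, ‖j a‖ = ‖a‖) ∧ ∀ a : L, ∃ P : K[X], P ≠ 0 ∧ P.eval₂ j a = 0 := by
  letI : NontriviallyNormedField K :=
    ⟨t⁻¹, by rw [norm_inv]; exact (one_lt_inv₀ (norm_pos_iff.2 h0)).2 h1⟩
  letI := spectralNorm.normedField K (AlgebraicClosure K)
  refine ⟨AlgebraicClosure K, this, ?_, inferInstance, algebraMap K _,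
    fun a => spectralNorm_extends a, fun a => Algebra.IsAlgebraic.isAlgebraic (R := K) a⟩
  exact IsUltrametricDist.isUltrametricDist_of_isNonarchimedean_norm isNonarchimedean_spectralNorm

/-- A complete field with a dense algebraically closed subfield is algebraically closed. -/
lemma closed (A B : Type) [Field A] [IsAlgClosed A] [NormedField B] [IsUltrametricDist B]
    [CompleteSpace B] {t : B} (h0 : t ≠ 0) (h1 : ‖t‖ < 1) (j : A →+* B) (hj : DenseRange j) :
    IsAlgClosed B := by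
  obtain ⟨L, _, _, _, i, hi, -⟩ := spec B h0 h1
  refine IsAlgClosed.of_exists_root _ fun p hp hirr => ?_
  have hn : 0 < p.natDegree := hirr.natDegree_pos
  obtain ⟨α, hα⟩ := IsAlgClosed.exists_root (p.map i)
    (by rw [degree_map]; exact (natDegree_pos_iff_degree_pos.1 hn).ne')
  have hcl : IsClosed (Set.range i) :=
    (AddMonoidHomClass.isometry_of_norm i hi).isClosedEmbedding.isClosed_range
  have hmem : α ∈ Set.range i := by
    rw [← hcl.closure_eq, Metric.mem_closure_iff]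
    intro δ hδ
    have hM : 0 < max ‖α‖ 1 := lt_max_of_lt_right one_pos
    have hε : 0 < (δ / max ‖α‖ 1) ^ p.natDegree / (p.natDegree + 1) := by positivity
    letI := j.toAlgebra
    obtain ⟨g, g1, g2, g3⟩ :=
      exists_monic_and_natDegree_eq_and_norm_map_algebraMap_coeff_sub_lt (K := A) hj hp hε
    obtain ⟨b, hb, hb'⟩ := exists_roots_norm_sub_lt_of_norm_coeff_sub_lt (f := p.map i)
      (g := g.map (i.comp j)) hε hα (hp.map _) (g1.map _) (by simp [g2])
      (fun n => by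
        rw [← Polynomial.map_map, coeff_map, coeff_map i, ← map_sub, hi]
        exact g3 n) ((IsAlgClosed.splits g).map _)
    obtain ⟨a, ha⟩ := (IsAlgClosed.splits g).mem_range_of_isRoot g1.ne_zero (isRoot_of_mem_roots hb)
    refine ⟨b, ⟨j a, ha⟩, ?_⟩
    rw [natDegree_map, mul_div_cancel₀ _ (by positivity),
      Real.pow_rpow_inv_natCast (by positivity) hn.ne', div_mul_cancel₀ _ hM.ne'] at hb'
    rwa [dist_eq_norm]
  obtain ⟨x, rfl⟩ := hmem
  refine ⟨x, i.injective ?_⟩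
  rw [map_zero, ← eval₂_at_apply, ← eval_map]
  exact hα

/-- The Gauss completion of the rational function field. -/
lemma gauss (K : Type) [Field K] (v : AbsoluteValue K ℝ) (hv : IsNonarchimedean v) {c : ℝ}
    (hc : 0 < c) : ∃ (Q : Type) (_ : NormedField Q) (_ : IsUltrametricDist Q) (_ : CompleteSpace Q)
      (f : K →+* Q) (σ : Q), (∀ P : K[X], ‖P.eval₂ f σ‖ = P.gaussNorm v c) ∧
        ∀ (y : Q) (ε : ℝ), 0 < ε → ∃ P R : K[X], ‖y - P.eval₂ f σ / R.eval₂ f σ‖ < ε := by
  have hz : ∀ P : K[X], P.gaussNorm v c = 0 ↔ P = 0 := fun P =>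
    gaussNorm_eq_zero_iff v P (fun _ h => v.eq_zero.1 h) hc
  have hn : ∀ P : K[X], 0 ≤ P.gaussNorm v c := fun P => gaussNorm_nonneg v P hc.le
  let φ : K[X] →*₀ ℝ :=
    { toFun := gaussNorm v c
      map_zero' := gaussNorm_zero v c
      map_one' := by rw [← C_1, gaussNorm_C, map_one]
      map_mul' := gaussNorm_mul hv hc }
  have hφ : nonZeroDivisors K[X] ≤ (nonZeroDivisors ℝ).comap φ := fun P hP =>
    mem_nonZeroDivisors_of_ne_zero fun h => nonZeroDivisors.ne_zero hP ((hz P).1 h)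
  let ψ := RatFunc.liftMonoidWithZeroHom φ hφ
  have hψ : ∀ P R : K[X], ψ (algebraMap _ _ P / algebraMap _ _ R) =
      P.gaussNorm v c / R.gaussNorm v c := RatFunc.liftMonoidWithZeroHom_apply_div φ hφ
  have hq : ∀ x : RatFunc K, ∃ P R : K[X], R ≠ 0 ∧ x = algebraMap _ _ P / algebraMap _ _ R :=
    fun x => ⟨x.num, x.denom, x.denom_ne_zero, x.num_div_denom.symm⟩
  have hψ0 : ∀ x, 0 ≤ ψ x := fun x => by
    obtain ⟨P, R, -, rfl⟩ := hq x
    rw [hψ]; exact div_nonneg (hn P) (hn R)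
  have hna : ∀ x y, ψ (x + y) ≤ max (ψ x) (ψ y) := fun x y => by
    obtain ⟨P, R, hR, rfl⟩ := hq x
    obtain ⟨P', R', hR', rfl⟩ := hq y
    have a : 0 < R.gaussNorm v c := (hn R).lt_of_ne fun h => hR ((hz R).1 h.symm)
    have a' : 0 < R'.gaussNorm v c := (hn R').lt_of_ne fun h => hR' ((hz R').1 h.symm)
    rw [div_add_div _ _ (RatFunc.algebraMap_ne_zero hR) (RatFunc.algebraMap_ne_zero hR'),
      ← map_mul, ← map_mul, ← map_mul, ← map_add, hψ, hψ, hψ, gaussNorm_mul hv hc,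
      div_le_iff₀ (mul_pos a a'), max_mul_of_nonneg _ _ (mul_pos a a').le]
    refine (isNonarchimedean_gaussNorm v hv hc.le _ _).trans (le_of_eq ?_)
    rw [gaussNorm_mul hv hc, gaussNorm_mul hv hc]
    congr 1 <;> field_simp
  let w : AbsoluteValue (RatFunc K) ℝ :=
    { toFun := ψ
      map_mul' := map_mul ψ
      nonneg' := hψ0
      eq_zero' := fun x => map_eq_zero ψ
      add_le' := fun x y => (hna x y).trans
        (max_le (le_add_of_nonneg_right (hψ0 y)) (le_add_of_nonneg_left (hψ0 x))) }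
  haveI : IsUltrametricDist (WithAbs w) :=
    IsUltrametricDist.isUltrametricDist_of_forall_norm_add_le_max_norm fun x y => hna _ _
  obtain ⟨Q, _, _, _, j, hj, hd⟩ := compl (WithAbs w)
  let g : RatFunc K →+* Q := j.comp (WithAbs.equiv w).symm.toRingHom
  have hg : ∀ x, ‖g x‖ = ψ x := fun x => hj _
  have he : ∀ P : K[X], P.eval₂ (g.comp ((algebraMap K[X] (RatFunc K)).comp C))
      (g (algebraMap K[X] _ X)) = g (algebraMap K[X] _ P) := fun P => by
    rw [← hom_eval₂, ← hom_eval₂, eval₂_C_X]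
  refine ⟨Q, inferInstance, inferInstance, inferInstance,
    g.comp ((algebraMap K[X] (RatFunc K)).comp C), g (algebraMap K[X] _ X), fun P => ?_,
    fun y ε hε => ?_⟩
  · have := hψ P 1
    rw [map_one, div_one, ← C_1, gaussNorm_C, map_one, div_one] at this
    rw [he, hg, this]
  · obtain ⟨x, hx⟩ := hd.exists_dist_lt y hε
    obtain ⟨x, rfl⟩ := (WithAbs.equiv w).symm.surjective x
    obtain ⟨P, R, -, rfl⟩ := hq x
    refine ⟨P, R, ?_⟩
    rw [he, he, ← map_div₀, ← dist_eq_norm]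
    exact hx

/-- The residue field is the constant field. -/
def Res {k A : Type} [Field k] [NormedField A] (φ : k →+* A) : Prop :=
  (∀ c, ‖φ c‖ ≤ 1) ∧ ∀ a : A, ‖a‖ ≤ 1 → ∃ c, ‖a - φ c‖ < 1

lemma norm_const {k A : Type} [Field k] [NormedField A] {φ : k →+* A} (h : ∀ c, ‖φ c‖ ≤ 1) {c : k}
    (hc : c ≠ 0) : ‖φ c‖ = 1 := by
  refine le_antisymm (h c) ?_
  have := h c⁻¹
  rwa [map_inv₀, norm_inv, inv_le_one₀ (norm_pos_iff.2 ((map_ne_zero φ).2 hc))] at this

lemma res_near {k A : Type} [Field k] [NormedField A] [IsUltrametricDist A] {φ : k →+* A}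
    (h1 : ∀ c, ‖φ c‖ ≤ 1) {S : Set A} (hS : ∀ a, ∃ b ∈ S, ‖a - b‖ < 1)
    (h2 : ∀ b ∈ S, ‖b‖ ≤ 1 → ∃ c, ‖b - φ c‖ < 1) : Res φ := by
  refine ⟨h1, fun a ha => ?_⟩
  obtain ⟨b, hb, hab⟩ := hS a
  have : ‖b‖ ≤ 1 := by
    have := add_le ha (show ‖-(a - b)‖ ≤ 1 by rw [norm_neg]; exact hab.le)
    rwa [neg_sub, add_sub_cancel] at this
  obtain ⟨c, hc⟩ := h2 b hb this
  exact ⟨c, by simpa using add_lt hab hc⟩

lemma res_dense {k A B : Type} [Field k] [NormedField A] [NormedField B] [IsUltrametricDist B]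
    {φ : k →+* A} (h : Res φ) (j : A →+* B) (hj : ∀ a, ‖j a‖ = ‖a‖) (hd : DenseRange j) :
    Res (j.comp φ) := by
  refine res_near (S := Set.range j) (fun c => (hj _).trans_le (h.1 c)) (fun a => ?_) ?_
  · obtain ⟨b, hb⟩ := hd.exists_dist_lt a one_pos
    exact ⟨_, ⟨b, rfl⟩, by rwa [← dist_eq_norm]⟩
  · rintro _ ⟨b, rfl⟩ hb
    obtain ⟨c, hc⟩ := h.2 b (by rwa [← hj])
    exact ⟨c, by rwa [RingHom.comp_apply, ← map_sub, hj]⟩

lemma root_near {k L : Type} [Field k] [IsAlgClosed k] [NormedField L] {ψ : k →+* L}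
    (h : ∀ c, ‖ψ c‖ ≤ 1) {P : k[X]} (hP : P ≠ 0) {a : L} (ha : ‖P.eval₂ ψ a‖ < 1) :
    ∃ c, ‖a - ψ c‖ < 1 := by
  by_contra! hcon
  rw [← eval_map, ((IsAlgClosed.splits P).map ψ).eval_eq_prod_roots,
    (IsAlgClosed.splits P).roots_map, leadingCoeff_map, norm_mul,
    norm_const h (leadingCoeff_ne_zero.2 hP), one_mul] at ha
  refine ha.not_ge (Multiset.prod_induction (fun x : L => 1 ≤ ‖x‖) _ (fun x y hx hy => ?_)
    (by simp) fun x hx => ?_)
  · rw [norm_mul]
    exact one_le_mul_of_one_le_of_one_le hx hy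
  · simp only [Multiset.mem_map] at hx
    obtain ⟨_, ⟨c, -, rfl⟩, rfl⟩ := hx
    exact hcon c

lemma res_alg {k K L : Type} [Field k] [IsAlgClosed k] [NormedField K] [NormedField L]
    [IsUltrametricDist L] {φ : k →+* K} (h : Res φ) (j : K →+* L) (hj : ∀ a, ‖j a‖ = ‖a‖)
    (ha : ∀ a : L, ∃ P : K[X], P ≠ 0 ∧ P.eval₂ j a = 0) : Res (j.comp φ) := by
  have h1 : ∀ c, ‖j.comp φ c‖ ≤ 1 := fun c => (hj _).trans_le (h.1 c)
  refine ⟨h1, fun a a1 => ?_⟩
  obtain ⟨P, hP, hPa⟩ := ha a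
  obtain ⟨m, hm, hmax⟩ := P.support.exists_max_image (fun i => ‖P.coeff i‖) (support_nonempty.2 hP)
  have hm0 : P.coeff m ≠ 0 := mem_support_iff.1 hm
  have hle : ∀ i, ‖P.coeff i / P.coeff m‖ ≤ 1 := fun i => by
    rw [norm_div]
    refine div_le_one_of_le₀ ?_ (norm_nonneg _)
    by_cases hi : i ∈ P.support
    · exact hmax i hi
    · rw [notMem_support_iff.1 hi, norm_zero]; exact norm_nonneg _
  choose c hc using fun i => h.2 _ (hle i)
  refine root_near h1 (P := ∑ i ∈ P.support, monomial i (c i)) (fun e => ?_) ?_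
  · have e1 := congrArg (coeff · m) e
    simp only [finsetSum_coeff, coeff_monomial, Finset.sum_ite_eq', hm, if_true, coeff_zero] at e1
    have := hc m
    rw [e1, div_self hm0, map_zero, sub_zero, norm_one] at this
    exact lt_irrefl _ this
  · have e : (∑ i ∈ P.support, monomial i (c i)).eval₂ (j.comp φ) a =
        ∑ i ∈ P.support, -(j (P.coeff i / P.coeff m - φ (c i)) * a ^ i) := by
      rw [eval₂_eq_sum, Polynomial.sum_def] at hPa
      simp only [eval₂_finsetSum, eval₂_monomial, map_sub, map_div₀, sub_mul, neg_sub,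
        Finset.sum_sub_distrib, div_mul_eq_mul_div, ← Finset.sum_div, hPa, zero_div, sub_zero,
        RingHom.comp_apply]
    rw [e]
    refine Finset.sum_induction _ (fun x : L => ‖x‖ < 1) (fun x y => add_lt) (by simp)
      fun i _ => ?_
    rw [norm_neg, norm_mul, hj, norm_pow]
    exact (mul_le_of_le_one_right (norm_nonneg _) (pow_le_one₀ (norm_nonneg _) a1)).trans_lt (hc i)

lemma eval_le {k Q : Type} [Field k] [NormedField Q] [IsUltrametricDist Q] {f : k →+* Q}
    (h : ∀ c, ‖f c‖ ≤ 1) {σ : Q} (hσ : ‖σ‖ ≤ 1) (P : k[X]) : ‖P.eval₂ f σ‖ ≤ 1 := by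
  induction P using Polynomial.induction_on' with
  | add p q hp hq => rw [eval₂_add]; exact add_le hp hq
  | monomial n c =>
    rw [eval₂_monomial, norm_mul, norm_pow]
    exact mul_le_one₀ (h c) (by positivity) (pow_le_one₀ (norm_nonneg _) hσ)

lemma res_frac {k Q : Type} [Field k] [NormedField Q] [IsUltrametricDist Q] {f : k →+* Q}
    (h : ∀ c, ‖f c‖ ≤ 1) {σ : Q} (h0 : σ ≠ 0) (hσ : ‖σ‖ < 1) (n : ℕ) : ∀ P R : k[X],
      R.natDegree < n → ‖P.eval₂ f σ / R.eval₂ f σ‖ ≤ 1 →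
        ∃ c, ‖P.eval₂ f σ / R.eval₂ f σ - f c‖ < 1 := by
  have e : ∀ P : k[X], P.eval₂ f σ = σ * P.divX.eval₂ f σ + f (P.coeff 0) := fun P => by
    conv_lhs => rw [← X_mul_divX_add P]
    rw [eval₂_add, eval₂_mul, eval₂_X, eval₂_C]
  have e1 : ∀ P : k[X], ‖σ * P.divX.eval₂ f σ‖ < 1 := fun P => by
    rw [norm_mul]
    exact (mul_le_of_le_one_right (norm_nonneg _) (eval_le h hσ.le _)).trans_lt hσ
  have e2 : ∀ P : k[X], P.coeff 0 ≠ 0 → ‖P.eval₂ f σ‖ = 1 := fun P hP => by
    have := norm_const h hP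
    rw [e, IsUltrametricDist.norm_add_eq_max_of_norm_ne_norm (by rw [this]; exact (e1 P).ne), this,
      max_eq_right (e1 P).le]
  induction n with
  | zero => intro P R hR; omega
  | succ n ih =>
    intro P R hR hle
    by_cases hR0 : R.eval₂ f σ = 0
    · exact ⟨0, by simp [hR0]⟩
    by_cases hc : R.coeff 0 = 0
    · have hP : P.coeff 0 = 0 := by
        by_contra hP
        rw [norm_div, e2 P hP, div_le_one (norm_pos_iff.2 hR0), e R, hc, map_zero, add_zero] at hle
        exact hle.not_gt (e1 R)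
      have hd : R.natDegree ≠ 0 := fun hd => hR0 (by
        rw [eq_C_of_natDegree_eq_zero hd, hc, map_zero, eval₂_zero])
      have e3 : P.eval₂ f σ / R.eval₂ f σ = P.divX.eval₂ f σ / R.divX.eval₂ f σ := by
        rw [e P, e R, hP, hc, map_zero, add_zero, add_zero, mul_div_mul_left _ _ h0]
      rw [e3] at hle ⊢
      exact ih _ _ (by rw [natDegree_divX_eq_natDegree_tsub_one]; omega) hle
    · refine ⟨P.coeff 0 / R.coeff 0, ?_⟩
      have e3 := e (P - C (P.coeff 0 / R.coeff 0) * R)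
      rw [coeff_sub, coeff_C_mul, div_mul_cancel₀ _ hc, sub_self, map_zero, add_zero, eval₂_sub,
        eval₂_mul, eval₂_C] at e3
      rw [div_sub' hR0, norm_div, e2 R hc, div_one, mul_comm, e3]
      exact e1 _

lemma base (k : Type) [Field k] : ∃ (Q : Type) (_ : NormedField Q) (_ : IsUltrametricDist Q)
    (_ : CompleteSpace Q) (f : k →+* Q) (σ : Q), Res f ∧ σ ≠ 0 ∧ ‖σ‖ < 1 := by
  classical
  have hle : ∀ c : k, AbsoluteValue.trivial (S := ℝ) c ≤ 1 := fun c => by
    by_cases hc : c = 0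
    · simp [hc]
    · rw [AbsoluteValue.trivial_apply hc]
  have hv : IsNonarchimedean (AbsoluteValue.trivial (R := k) (S := ℝ)) := fun x y => by
    by_cases hx : x = 0
    · simp [hx]
    · rw [AbsoluteValue.trivial_apply hx]
      exact (hle _).trans (le_max_left _ _)
  obtain ⟨Q, _, _, _, f, σ, h1, h2⟩ := gauss k _ hv (c := 1 / 2) (by norm_num)
  have hσ : ‖σ‖ = 1 / 2 := by
    have := h1 (monomial 1 1)
    rwa [eval₂_monomial, gaussNorm_monomial, map_one, map_one, one_mul, one_mul, pow_one,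
      pow_one] at this
  have hf : ∀ c, ‖f c‖ ≤ 1 := fun c => by
    have := h1 (C c)
    rw [eval₂_C, gaussNorm_C] at this
    exact this.trans_le (hle c)
  have h0 : σ ≠ 0 := norm_pos_iff.1 (by rw [hσ]; norm_num)
  have h3 : ‖σ‖ < 1 := by rw [hσ]; norm_num
  refine ⟨Q, inferInstance, inferInstance, inferInstance, f, σ, res_near hf
    (S := {b | ∃ P R : k[X], b = P.eval₂ f σ / R.eval₂ f σ}) (fun a => ?_) ?_, h0, h3⟩
  · obtain ⟨P, R, h⟩ := h2 a 1 one_pos
    exact ⟨_, ⟨P, R, rfl⟩, h⟩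
  · rintro _ ⟨P, R, rfl⟩ hb
    exact res_frac hf h0 h3 _ P R (Nat.lt_succ_self _) hb

lemma gauss_lin {K : Type} [Field K] (v : AbsoluteValue K ℝ) (a : K) :
    (X - C a).gaussNorm v 1 = max 1 (v a) := by
  refine le_antisymm ?_ (max_le ?_ ?_)
  · obtain ⟨i, hi⟩ := exists_eq_gaussNorm v 1 (X - C a)
    rw [hi, one_pow, mul_one, coeff_sub, coeff_X, coeff_C]
    split_ifs with h1 h2 h2
    · omega
    · simp
    · simp
    · simp
  · have := le_gaussNorm v (X - C a) zero_le_one 1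
    rwa [coeff_sub, coeff_X_one, coeff_C_succ, sub_zero, map_one, one_pow, mul_one] at this
  · have := le_gaussNorm v (X - C a) zero_le_one 0
    rwa [coeff_sub, coeff_X_zero, coeff_C_zero, zero_sub, v.map_neg, one_pow, mul_one] at this

end Khat

open Khat in
theorem blockKhat : StmtKhat := by
  intro k _ _
  obtain ⟨K, _, _, _, f, t, hf, t0, t1⟩ := base k
  obtain ⟨L, _, _, _, i, hi, ha⟩ := spec K t0 t1
  obtain ⟨𝕜, _, _, _, j, hj, hd⟩ := Khat.compl L
  have hr := res_dense (res_alg hf i hi ha) j hj hd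
  have s0 : j (i t) ≠ 0 := by simpa using t0
  have s1 : ‖j (i t)‖ < 1 := by rwa [hj, hi]
  haveI := closed L 𝕜 s0 s1 j hd
  letI := (j.comp (i.comp f)).toAlgebra
  obtain ⟨Q, _, _, _, g, σ, h1, h2⟩ := gauss 𝕜 (NormedField.toAbsoluteValue 𝕜)
    IsUltrametricDist.isNonarchimedean_norm one_pos
  have hg : ∀ c, ‖g c‖ = ‖c‖ := fun c => by
    have := h1 (C c)
    rwa [eval₂_C, gaussNorm_C] at this
  letI := g.toAlgebra
  letI : NormedAlgebra 𝕜 Q :=
    { norm_smul_le := fun c x => by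
        rw [Algebra.smul_def, norm_mul]
        exact (congrArg (· * ‖x‖) (hg c)).le }
  refine ⟨𝕜, inferInstance, inferInstance, inferInstance, inferInstance, inferInstance, Q,
    inferInstance, inferInstance, inferInstance, inferInstance, σ, ⟨fun a => ?_, fun y ε hε => ?_⟩,
    hr.1, hr.2, _, s0, s1⟩
  · have := h1 (X - C a)
    rwa [eval₂_sub, eval₂_X, eval₂_C, gauss_lin] at this
  · obtain ⟨P, R, h⟩ := h2 y ε hε
    exact ⟨_, (mem_adjoin_simple_iff 𝕜 _).2 ⟨P, R, rfl⟩, h⟩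

end Pool.Agent.Lib.IW
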