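import Pool.Agent.Lib.IW.Mod

/-! Block Kum: tame characters of the multiplicative group are Kummer characters. -/

open Polynomial IntermediateField
open scoped Pointwise

namespace Pool.Agent.Lib.IW

namespace Kum

variable {k Ω : Type} [Field k] [Field Ω] [Algebra k Ω]

lemma aeval_mem {W : ValuationSubring Ω} (hW : IsPl k W) {r : Ω} (hr : r ∈ W) (S : k[X]) :
    aeval r S ∈ W := by
  rw [aeval_eq_sum_range]
  refine sum_mem fun i _ => ?_
  rw [Algebra.smul_def]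
  exact mul_mem (hW.2 _) (pow_mem hr _)

lemma mem_of_lt {W : ValuationSubring Ω} (hW : IsPl k W) {r : Ω} {a : k}
    (h : W.valuation (r - algebraMap k Ω a) < 1) : r ∈ W := by
  have h1 := add_mem ((W.valuation_le_one_iff _).1 h.le) (hW.2 a)
  rwa [sub_add_cancel] at h1

lemma val_const {W : ValuationSubring Ω} (hW : IsPl k W) {c : k} (hc : c ≠ 0) :
    W.valuation (algebraMap k Ω c) = 1 := by
  have h1 := (W.valuation_le_one_iff _).2 (hW.2 c)
  have h2 := (W.valuation_le_one_iff _).2 (hW.2 c⁻¹)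
  rw [map_inv₀, map_inv₀, inv_le_one₀ (zero_lt_iff.2 (by simpa using hc))] at h2
  exact le_antisymm h1 h2

lemma val_aeval {W : ValuationSubring Ω} (hW : IsPl k W) {r : Ω} {a : k}
    (h : W.valuation (r - algebraMap k Ω a) < 1) {S : k[X]} (hS : ¬ X - C a ∣ S) :
    W.valuation (aeval r S) = 1 := by
  obtain ⟨T, hT⟩ := X_sub_C_dvd_sub_C_eval (p := S) (a := a)
  have h1 : aeval r S = algebraMap k Ω (S.eval a) + (r - algebraMap k Ω a) * aeval r T := by
    have h2 := congrArg (aeval r) hT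
    simp only [map_sub, map_mul, aeval_X, aeval_C] at h2
    rw [← h2]
    ring
  have h3 := val_const hW (c := S.eval a) fun e => hS (dvd_iff_isRoot.2 e)
  rw [h1, Valuation.map_add_eq_of_lt_left, h3]
  rw [h3, map_mul]
  exact (mul_le_of_le_one_right' ((W.valuation_le_one_iff _).2
    (aeval_mem hW (mem_of_lt hW h) T))).trans_lt h

lemma sep_mul {F : IntermediateField k Ω} {y z : Ω} (hy : IsSeparable F y) (hz : z ∈ F) :
    IsSeparable F (y * z) :=
  mem_separableClosure_iff.1 (mul_mem (mem_separableClosure_iff.2 hy)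
    ((separableClosure F Ω).algebraMap_mem ⟨z, hz⟩))

lemma fixed (hB : StmtBas) (hH : StmtHens) (p : ℕ) [Fact p.Prime] [IsAlgClosed k] [CharP k p]
    [IsAlgClosed Ω] {r : Ω} (hr : Co k r) {M : ℕ} (hM : M ≠ 0) (d : ℕ) :
    ∀ (R : k[X]) (ψ : Ω), R.natDegree = d → R ≠ 0 → ψ ^ M = aeval r R → IsSeparable k⟮r⟯ ψ →
      (∀ W : ValuationSubring Ω, IsPl k W → r ∈ W → ∀ γ ∈ Dec k r W, γ ψ = ψ) →
      ∀ γ ∈ Gam k r, γ ψ = ψ := by
  induction d using Nat.strong_induction_on with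
  | _ d ih =>
    intro R ψ hd hR hψ hsep hfix γ hγ
    rcases Nat.eq_zero_or_pos d with rfl | hd0
    · obtain ⟨c, rfl⟩ := natDegree_eq_zero.1 hd
      obtain ⟨c', rfl⟩ := IsAlgClosed.exists_pow_nat_eq c (Nat.pos_of_ne_zero hM)
      have h0 : algebraMap k Ω c' ≠ 0 := by
        rw [_root_.map_ne_zero]
        rintro rfl
        exact hR (by rw [zero_pow hM, map_zero])
      have h1 := root_fixed hM (ζ := ψ / algebraMap k Ω c') (by
        rw [div_pow, hψ, aeval_C, map_pow, div_self (pow_ne_zero _ h0)]) γ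
      rwa [map_div₀, γ.commutes, div_left_inj' h0] at h1
    · obtain ⟨a, ha⟩ := IsAlgClosed.exists_root R (natDegree_pos_iff_degree_pos.1 (hd ▸ hd0)).ne'
      obtain ⟨S, hS, hS'⟩ := exists_eq_pow_rootMultiplicity_mul_and_not_dvd R hR a
      have hm : 0 < rootMultiplicity a R := (rootMultiplicity_pos hR).2 ha
      generalize rootMultiplicity a R = m at hS hm
      obtain ⟨W, hW, hv⟩ := hB.exAt k Ω r hr a
      have hπ := hB.unifAt k Ω r hr.tr a W hW hv
      have hR0 : aeval r R ≠ 0 := fun e => hr.tr ⟨R, hR, e⟩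
      have hψ0 : ψ ≠ 0 := by
        rintro rfl
        exact hR0 (by rw [← hψ, zero_pow hM])
      obtain ⟨i, hi⟩ := hH.hens p k Ω k⟮r⟯ hr.ff W hW _ hπ ψ hψ0 hsep (by
        rw [DecF_adjoin]
        exact hfix W hW (mem_of_lt hW hv))
      have h1 : aeval r R = (r - algebraMap k Ω a) ^ m * aeval r S := by
        rw [hS]
        simp only [map_mul, map_pow, map_sub, aeval_X, aeval_C]
      have h2 : i * M = m := by
        have h3 := congrArg W.valuation hψ
        rw [h1, map_mul, val_aeval hW hv hS', mul_one, map_pow, map_pow, hi, ← zpow_natCast,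
          ← zpow_natCast, ← zpow_mul] at h3
        exact (zpow_right_strictAnti₀ (zero_lt_iff.2 (by simpa using hπ.2.1)) hv).injective h3
      have hS0 : S ≠ 0 := by
        rintro rfl
        exact hS' (dvd_zero _)
      have h4 : S.natDegree < d := by
        rw [← hd, hS, natDegree_mul (pow_ne_zero _ (X_sub_C_ne_zero a)) hS0, natDegree_pow,
          natDegree_X_sub_C]
        omega
      have h5 : ∀ τ ∈ Gam k r, τ ((r - algebraMap k Ω a) ^ (-i)) = (r - algebraMap k Ω a) ^ (-i) :=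
        fun τ hτ => by rw [map_zpow₀, map_sub, mem_Gam.1 hτ, τ.commutes]
      have h6 := ih _ h4 S (ψ * (r - algebraMap k Ω a) ^ (-i)) rfl hS0 (by
        rw [mul_pow, hψ, h1, ← zpow_natCast (_ ^ (-i)), ← zpow_mul, neg_mul, h2, zpow_neg,
          zpow_natCast]
        have := pow_ne_zero m hπ.2.1
        field_simp) (sep_mul hsep (zpow_mem hπ.1 _)) (fun W' hW' hr' τ hτ => by
          rw [map_mul, hfix W' hW' hr' τ hτ, h5 τ hτ.1]) γ hγ
      rwa [map_mul, h5 γ hγ, mul_left_inj' (zpow_ne_zero _ hπ.2.1)] at h6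

end Kum

open Kum in
theorem blockKum (hB : StmtBas) (hG : StmtGal) (hL : StmtFld) (hH : StmtHens)
    (hT : StmtTame2) : StmtKum := by
  classical
  intro p _ k Ω _ _ _ _ _ _ x hx G _ _ χ hχ hcomm M hM hpow hunr r hr γ₀ hγ₀
  have hM0 : M ≠ 0 := by
    rintro rfl
    simp at hM
  have hco : Co k r := co_of_pow hB hx hr
  have hle : Gam k r ≤ Gam k x := Gam_le_of_pow hr
  have hU : ∀ W : ValuationSubring Ω, IsPl k W → r ∈ W → ∀ γ ∈ Dec k r W, χ γ = 1 := by
    intro W hW hrW γ hγ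
    have hγ' := Dec_le_of_pow hr W hγ
    rcases ((W.valuation_le_one_iff x).2 (hr ▸ pow_mem hrW M)).eq_or_lt with h | h
    · exact hunr W hW h γ hγ'
    · have hπ := hB.unifAt k Ω x hx.tr 0 W hW (by simpa using h)
      rw [map_zero, sub_zero] at hπ
      obtain ⟨j, hj⟩ := hT p k Ω k⟮x⟯ hx.ff W hW x hπ G χ
        (by rw [DecF_adjoin]; exact hχ.mono (Dec_le x W)) M hM
        (fun τ hτ => ⟨0, by
          rw [DecF_adjoin] at hτ
          rw [pow_zero, mul_one, hpow τ hτ.1]⟩) r hr γ (by rwa [DecF_adjoin]) hγ.1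
      exact (pow_eq_one_iff_of_coprime
        (((Nat.Prime.coprime_iff_not_dvd Fact.out).2 hM).pow_left j)).1 ⟨hj, hpow γ hγ'.1⟩
  by_contra hne
  have hχ' := hχ.mono hle
  let _ : CommGroup hχ'.im :=
    { (inferInstance : Group hχ'.im) with
      mul_comm := fun a b => by
        obtain ⟨γ, hγ, e⟩ := hχ'.mem_im.1 a.2
        obtain ⟨δ, hδ, e'⟩ := hχ'.mem_im.1 b.2
        apply Subtype.ext
        change (a : G) * b = b * a
        rw [← e, ← e']
        exact hcomm γ (hle hγ) δ (hle hδ) }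
  have hJ : ∀ a : hχ'.im, a ^ M = 1 := fun a => by
    obtain ⟨γ, hγ, e⟩ := hχ'.mem_im.1 a.2
    apply Subtype.ext
    change (a : G) ^ M = 1
    rw [← e]
    exact hpow γ (hle hγ)
  have : NeZero ((Monoid.exponent hχ'.im : ℕ) : k) := ⟨fun h =>
    hM (((CharP.cast_eq_zero_iff k p _).1 h).trans (Monoid.exponent_dvd_of_forall_pow_eq_one hJ))⟩
  let ρ : Aut k Ω → hχ'.im := fun γ =>
    if h : γ ∈ Gam k r then ⟨χ γ, hχ'.mem_im.2 ⟨γ, h, rfl⟩⟩ else 1
  have hρ : ∀ γ ∈ Gam k r, (ρ γ : G) = χ γ := fun γ hγ => by simp only [ρ, dif_pos hγ]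
  have hrep : IsRep (Gam k r) ρ := by
    refine ⟨fun γ hγ δ hδ => Subtype.ext ?_, ?_⟩
    · rw [Subgroup.coe_mul, hρ _ (mul_mem hγ hδ), hρ _ hγ, hρ _ hδ, hχ'.mul γ hγ δ hδ]
    · obtain ⟨S, hS⟩ := hχ'.cts
      exact ⟨S, fun γ hγ δ hδ e => Subtype.ext (by rw [hρ _ hγ, hρ _ hδ, hS γ hγ δ hδ e])⟩
  obtain ⟨φ, hφ⟩ := CommGroup.exists_apply_ne_one_of_hasEnoughRootsOfUnity hχ'.im k
    (a := ρ γ₀) fun e => hne (by rw [← hρ γ₀ hγ₀, e, Subgroup.coe_one])
  obtain ⟨ψ, hψ0, hsep, hψ⟩ := hL.h90 p k Ω r hco (Gam k r) le_rfl _ ρ hrep φ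
  have hmem : ψ ^ M ∈ k⟮r⟯ := by
    refine hG.sep k Ω k⟮r⟯ hco.alg _
      (mem_separableClosure_iff.1 (pow_mem (mem_separableClosure_iff.2 hsep) M)) fun γ hγ => ?_
    rw [fix_adjoin] at hγ
    rw [map_pow, hψ γ hγ, mul_pow, ← map_pow, ← Units.val_pow_eq_pow_val, ← map_pow, hJ, map_one,
      Units.val_one, map_one, one_mul]
  obtain ⟨P, Q, hPQ⟩ := (mem_adjoin_simple_iff k _).1 hmem
  have hQ : aeval r Q ≠ 0 := fun e => pow_ne_zero M hψ0 (by rw [hPQ, e, div_zero])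
  have hP : aeval r P ≠ 0 := fun e => pow_ne_zero M hψ0 (by rw [hPQ, e, zero_div])
  have hQm : aeval r Q ∈ k⟮r⟯ := (mem_adjoin_simple_iff k _).2 ⟨Q, 1, by simp⟩
  have hQf : ∀ γ ∈ Gam k r, γ (aeval r Q) = aeval r Q := fun γ hγ => by
    rw [← fix_adjoin] at hγ
    exact (IntermediateField.mem_fixingSubgroup_iff _ γ).1 hγ _ hQm
  obtain ⟨m, rfl⟩ : ∃ m, M = m + 1 := ⟨M - 1, by omega⟩
  have h1 := fixed hB hH p hco hM0 _ (P * Q ^ m) (ψ * aeval r Q) rfl
    (fun e => mul_ne_zero hP (pow_ne_zero m hQ) (by rw [← map_pow, ← map_mul, e, map_zero]))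
    (by
      rw [mul_pow, hPQ, map_mul, map_pow, pow_succ]
      field_simp) (sep_mul hsep hQm) (fun W hW hrW γ hγ => by
      rw [map_mul, hQf γ hγ.1, hψ γ hγ.1,
        show ρ γ = 1 from Subtype.ext ((hρ γ hγ.1).trans (hU W hW hrW γ hγ))]
      simp) γ₀ hγ₀
  rw [map_mul, hQf γ₀ hγ₀, mul_left_inj' hQ, hψ γ₀ hγ₀, mul_eq_right₀ hψ0, map_eq_one_iff _
    (algebraMap k Ω).injective, Units.val_eq_one] at h1
  exact hφ h1

end Pool.Agent.Lib.IW
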