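import Pool.Agent.Lib.IW.Mod

/-! Block LG: lifting with prescribed behaviour at infinity. -/

open Polynomial IntermediateField
open scoped Pointwise

namespace Pool.Agent.Lib.IW

namespace LG

variable {k Ω : Type} [Field k] [Field Ω] [Algebra k Ω]

section Coc

variable {H A : Type} [Group H] [AddCommGroup A] [DistribMulAction H A]
  {Δ : Subgroup (Aut k Ω)} {ρ : Aut k Ω → H}

lemma coc_zero : IsCoc Δ ρ (fun _ => (0 : A)) :=
  ⟨fun _ _ _ _ => by simp, ⟨∅, fun _ _ _ _ _ => rfl⟩⟩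

lemma coc_add {c c' : Aut k Ω → A} (h : IsCoc Δ ρ c) (h' : IsCoc Δ ρ c') :
    IsCoc Δ ρ (fun γ => c γ + c' γ) :=
  ⟨fun γ hγ δ hδ => by rw [h.add γ hγ δ hδ, h'.add γ hγ δ hδ, smul_add]; abel,
    h.cts.comp₂ h'.cts (· + ·)⟩

lemma coc_sum {ι : Type} (T : Finset ι) {c : ι → Aut k Ω → A} (h : ∀ i, IsCoc Δ ρ (c i)) :
    IsCoc Δ ρ (fun γ => ∑ i ∈ T, c i γ) := by
  classical
  induction T using Finset.induction_on with
  | empty => simpa using coc_zero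
  | insert a T ha ih => simpa [Finset.sum_insert ha] using coc_add (h a) ih

end Coc

section Emb

variable {E A : Type} [Group E] [AddCommGroup A] [DistribMulAction E A] {e : A → E}
  {Δ : Subgroup (Aut k Ω)}

lemma rep_of_coc (ha : ∀ a b, e (a + b) = e a * e b) (hs : ∀ (g : E) a, e (g • a) = g * e a * g⁻¹)
    {ρ : Aut k Ω → E} (hρ : IsRep Δ ρ) {c : Aut k Ω → A} (hc : IsCoc Δ ρ c) :
    IsRep Δ fun γ => e (c γ) * ρ γ :=
  ⟨fun γ hγ δ hδ => by rw [hc.add γ hγ δ hδ, ha, hs, hρ.mul γ hγ δ hδ]; group,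
    hc.cts.comp₂ hρ.cts fun a g => e a * g⟩

lemma exists_coc {V : Subgroup E} (hi : Function.Injective e) (ha : ∀ a b, e (a + b) = e a * e b)
    (hr : ∀ g, g ∈ V ↔ ∃ a, e a = g) (hs : ∀ (g : E) a, e (g • a) = g * e a * g⁻¹)
    {ρ ρ₁ : Aut k Ω → E} (hρ : IsRep Δ ρ) (hρ₁ : IsRep Δ ρ₁) (hV : ∀ γ ∈ Δ, ρ₁ γ * (ρ γ)⁻¹ ∈ V) :
    ∃ c : Aut k Ω → A, IsCoc Δ ρ c ∧ ∀ γ ∈ Δ, e (c γ) = ρ₁ γ * (ρ γ)⁻¹ := by
  have h1 : ∀ γ ∈ Δ, e (Function.invFun e (ρ₁ γ * (ρ γ)⁻¹)) = ρ₁ γ * (ρ γ)⁻¹ := fun γ hγ =>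
    Function.invFun_eq ((hr _).1 (hV γ hγ))
  refine ⟨fun γ => Function.invFun e (ρ₁ γ * (ρ γ)⁻¹), ⟨fun γ hγ δ hδ => hi ?_,
    hρ₁.cts.comp₂ hρ.cts fun g g' => Function.invFun e (g * g'⁻¹)⟩, h1⟩
  rw [ha, hs, h1 γ hγ, h1 δ hδ, h1 _ (mul_mem hγ hδ), hρ.mul γ hγ δ hδ, hρ₁.mul γ hγ δ hδ]
  group

lemma smul_eq {V : Subgroup E} (hi : Function.Injective e) (hr : ∀ g, g ∈ V ↔ ∃ a, e a = g)
    (hs : ∀ (g : E) a, e (g • a) = g * e a * g⁻¹) (hc : ∀ a ∈ V, ∀ b ∈ V, a * b = b * a)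
    {g : E} (hg : g ∈ V) (a : A) : g • a = a :=
  hi (by rw [hs, hc g hg _ ((hr _).2 ⟨a, rfl⟩), mul_inv_cancel_right])

end Emb

lemma not_agr_of_lt {x : Ω} (hx : Co k x) {a : k} {W W' : ValuationSubring Ω}
    (h : W.valuation (x - algebraMap k Ω a) < 1)
    (h' : ¬ W'.valuation (x - algebraMap k Ω a) < 1) : ¬ Agr k⟮x⟯ W W' := fun hA => by
  have h0 : x - algebraMap k Ω a ≠ 0 := fun e =>
    hx.tr (by rw [sub_eq_zero.1 e]; exact isAlgebraic_algebraMap a)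
  have hm : (x - algebraMap k Ω a)⁻¹ ∈ k⟮x⟯ :=
    inv_mem (sub_mem (mem_adjoin_simple_self k x) (IntermediateField.algebraMap_mem _ a))
  have h1 : (x - algebraMap k Ω a)⁻¹ ∈ W' := by
    rw [← ValuationSubring.valuation_le_one_iff, map_inv₀]
    exact inv_le_one_of_one_le₀ (not_lt.1 h')
  have h2 := (hA _ hm).2 h1
  rw [← ValuationSubring.valuation_le_one_iff, map_inv₀,
    inv_le_one₀ (zero_lt_iff.2 ((Valuation.ne_zero_iff _).2 h0))] at h2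
  exact absurd h (not_lt.2 h2)

lemma mem_of_lt {x : Ω} {a : k} {W : ValuationSubring Ω} (hW : IsPl k W)
    (h : W.valuation (x - algebraMap k Ω a) < 1) : x ∈ W := by
  have h1 : x - algebraMap k Ω a ∈ W := (W.valuation_le_one_iff _).1 h.le
  simpa using add_mem h1 (hW.2 a)

lemma eq_of_lt {x : Ω} {a b : k} {W : ValuationSubring Ω} (hW : IsPl k W)
    (h : W.valuation (x - algebraMap k Ω a) < 1) (h' : W.valuation (x - algebraMap k Ω b) < 1) :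
    a = b := by
  by_contra hab
  have h1 : W.valuation (algebraMap k Ω (b - a)) < 1 := by
    have := Valuation.map_sub_lt W.valuation h h'
    rwa [sub_sub_sub_cancel_left, ← map_sub] at this
  have h2 : W.valuation (algebraMap k Ω (b - a)⁻¹) ≤ 1 := (W.valuation_le_one_iff _).2 (hW.2 _)
  have h3 := mul_lt_one_of_nonneg_of_lt_one_left zero_le h1 h2
  rw [← map_mul, ← map_mul, mul_inv_cancel₀ (sub_ne_zero.2 (Ne.symm hab)), map_one, map_one] at h3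
  exact lt_irrefl _ h3

end LG

open LG in
theorem blockLG (hF : Found) (hW : StmtWeak) (h0 : StmtLG0) : StmtLG := by
  intro p _ k Ω _ _ _ _ _ _ x hx E E' _ _ _ π hπ l hl hlp hP hc hcomm ρ' hρ' hon hU W hWp hxW ρi hρi
    hπi
  classical
  obtain ⟨ρ0, hρ0, hπ0⟩ := hW p k Ω x hx (Gam k x) le_rfl E E' π hπ l hl hlp hP hc ρ' hρ'
  obtain ⟨A, iA, iS, e, hi, ha, hr, hs⟩ := exists_module E π.ker hc
  have : Finite A := Finite.of_injective e hi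
  have : Fact l.Prime := ⟨hl⟩
  obtain ⟨j, hj⟩ := IsPGroup.iff_card.1 hP
  have hexp : ∀ a : A, l ^ j • a = 0 := fun a => hi (by
    rw [emb_nsmul ha, emb_zero ha, ← hj]
    exact congrArg Subtype.val (pow_card_eq_one' (x := (⟨e a, (hr _).2 ⟨a, rfl⟩⟩ : π.ker))))
  have hgen : AddSubgroup.closure {b : A | ∃ γ ∈ Gam k x, ∃ a : A, b = ρ0 γ • a - a} = ⊤ := by
    set B := AddSubgroup.closure {b : A | ∃ γ ∈ Gam k x, ∃ a : A, b = ρ0 γ • a - a} with hB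
    let B' : Subgroup E :=
      { carrier := e '' (B : Set A)
        one_mem' := ⟨0, B.zero_mem, emb_zero ha⟩
        mul_mem' := by
          rintro _ _ ⟨a, ha', rfl⟩ ⟨b, hb', rfl⟩
          exact ⟨a + b, B.add_mem ha' hb', ha a b⟩
        inv_mem' := by
          rintro _ ⟨a, ha', rfl⟩
          exact ⟨-a, B.neg_mem ha', emb_neg ha a⟩ }
    have h1 : π.ker ≤ B' := by
      rw [← hcomm, Subgroup.commutator_le]
      intro v hv g _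
      obtain ⟨a, rfl⟩ := (hr v).1 hv
      obtain ⟨γ, hγ, hg⟩ := hon (π g)
      have h2 : g * (ρ0 γ)⁻¹ ∈ π.ker := by
        rw [MonoidHom.mem_ker, map_mul, map_inv, hπ0 γ hγ, hg, mul_inv_cancel]
      have h3 : g • a = ρ0 γ • a := by
        rw [← smul_eq hi hr hs hc h2 (ρ0 γ • a), smul_smul, inv_mul_cancel_right]
      refine ⟨-(ρ0 γ • a - a), B.neg_mem (AddSubgroup.subset_closure ⟨γ, hγ, a, rfl⟩), ?_⟩
      rw [neg_sub, emb_sub ha, ← h3, hs, commutatorElement_def]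
      group
    refine eq_top_iff.2 fun a _ => ?_
    obtain ⟨b, hb, hba⟩ := h1 ((hr _).2 ⟨a, rfl⟩)
    exact hi hba ▸ hb
  have hker : ∀ W' : ValuationSubring Ω, IsPl k W' → x ∈ W' → ∀ γ ∈ Dec k x W', ρ0 γ ∈ π.ker :=
    fun W' h1 h2 γ hγ => by rw [MonoidHom.mem_ker, hπ0 γ (Dec_le _ _ hγ), hU W' h1 h2 γ hγ]
  obtain ⟨T, hT⟩ := hF.fld.finRam p k Ω x hx E ρ0 hρ0
  choose Wa hWa hva using hF.bas.exAt k Ω x hx
  obtain ⟨ci, hci, hei⟩ := exists_coc hi ha hr hs (hρ0.mono (Dec_le x W)) hρi fun γ hγ => by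
    rw [MonoidHom.mem_ker, map_mul, map_inv, hπ0 γ (Dec_le _ _ hγ), hπi γ hγ, mul_inv_cancel]
  obtain ⟨Ci, hCi, hCi1, hCi2⟩ := h0 p k Ω x hx E A ρ0 hρ0 l j hl hlp hexp hgen W hWp ci hci
  have hloc : ∀ a : k, ∃ C : Aut k Ω → A, IsCoc (Gam k x) ρ0 C ∧
      (∀ γ ∈ Dec k x (Wa a), e (C γ) = (ρ0 γ)⁻¹) ∧ ∀ W' : ValuationSubring Ω, IsPl k W' →
        ¬ Agr k⟮x⟯ (Wa a) W' → ∃ b : A, ∀ γ ∈ Dec k x W', C γ = ρ0 γ • b - b := fun a => by
    obtain ⟨c, hc1, hc2⟩ := exists_coc hi ha hr hs (hρ0.mono (Dec_le x (Wa a)))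
      (ρ₁ := fun _ => 1) ⟨fun _ _ _ _ => (one_mul 1).symm, ⟨∅, fun _ _ _ _ _ => rfl⟩⟩
      fun γ hγ => by
        simpa using inv_mem (hker _ (hWa a) (mem_of_lt (hWa a) (hva a)) γ hγ)
    obtain ⟨C, hC, hC1, hC2⟩ := h0 p k Ω x hx E A ρ0 hρ0 l j hl hlp hexp hgen (Wa a) (hWa a) c hc1
    exact ⟨C, hC, fun γ hγ => by rw [hC1 γ hγ, hc2 γ hγ, one_mul], hC2⟩
  choose C hC hC1 hC2 using hloc
  have hcoc : IsCoc (Gam k x) ρ0 fun γ => Ci γ + ∑ a ∈ T, C a γ := coc_add hCi (coc_sum T hC)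
  have hρ1 := rep_of_coc ha hs hρ0 hcoc
  have hb : ∀ a : k, ∃ b : A, ∀ γ ∈ Dec k x W, C a γ = ρ0 γ • b - b := fun a =>
    hC2 a W hWp fun hA => hxW ((hA x (mem_adjoin_simple_self k x)).1 (mem_of_lt (hWa a) (hva a)))
  choose b hb using hb
  have hCi0 : ∀ W' : ValuationSubring Ω, IsPl k W' → x ∈ W' → ∀ γ ∈ Dec k x W', Ci γ = 0 :=
    fun W' h1 h2 γ hγ => by
      obtain ⟨b', hb'⟩ := hCi2 W' h1 fun hA => hxW ((hA x (mem_adjoin_simple_self k x)).2 h2)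
      rw [hb' γ hγ, smul_eq hi hr hs hc (hker W' h1 h2 γ hγ), sub_self]
  have hC0 : ∀ (a : k) (W' : ValuationSubring Ω), IsPl k W' → x ∈ W' →
      ¬ W'.valuation (x - algebraMap k Ω a) < 1 → ∀ γ ∈ Dec k x W', C a γ = 0 :=
    fun a W' h1 h2 h3 γ hγ => by
      obtain ⟨b', hb'⟩ := hC2 a W' h1 (not_agr_of_lt hx (hva a) h3)
      rw [hb' γ hγ, smul_eq hi hr hs hc (hker W' h1 h2 γ hγ), sub_self]
  have hU1 : Unr x fun γ => e (Ci γ + ∑ a ∈ T, C a γ) * ρ0 γ := fun W' h1 h2 => by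
    by_cases h3 : ∃ a ∈ T, W'.valuation (x - algebraMap k Ω a) < 1
    · obtain ⟨a, haT, h3⟩ := h3
      obtain ⟨δ, hδ, rfl⟩ := conj_at hF.conj hF.bas hx (hWa a) h1 (hva a) h3
      refine hρ1.triv_smul (fun γ hγ => ?_) hδ
      have h4 := mem_of_lt (hWa a) (hva a)
      rw [hCi0 _ (hWa a) h4 γ hγ, zero_add, Finset.sum_eq_single_of_mem a haT fun a' _ hne =>
        hC0 a' _ (hWa a) h4 (fun h5 => hne (eq_of_lt (hWa a) h5 (hva a))) γ hγ, hC1 a γ hγ,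
        inv_mul_cancel]
    · push Not at h3
      intro γ hγ
      have h4 : ∀ a ∈ T, ¬ W'.valuation (x - algebraMap k Ω a) < 1 := fun a ha' =>
        not_lt.2 (h3 a ha')
      beta_reduce
      rw [hCi0 _ h1 h2 γ hγ, zero_add, Finset.sum_eq_zero fun a ha' => hC0 a _ h1 h2 (h4 a ha') γ hγ,
        hT W' h1 h2 h4 γ hγ, emb_zero ha, one_mul]
  have he : ∀ a, π (e a) = 1 := fun a => (hr _).2 ⟨a, rfl⟩
  refine ⟨fun γ => e (∑ a ∈ T, b a) * (e (Ci γ + ∑ a ∈ T, C a γ) * ρ0 γ) * (e (∑ a ∈ T, b a))⁻¹,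
    hρ1.conj _, fun W' h1 h2 γ hγ => ?_, fun γ hγ => ?_, fun γ hγ => ?_⟩
  · have := hU1 W' h1 h2 γ hγ
    beta_reduce at this ⊢
    rw [this, mul_one, mul_inv_cancel]
  · simp [he, hπ0 γ hγ]
  · have h1 : Ci γ + ∑ a ∈ T, C a γ = -(∑ a ∈ T, b a) + (ci γ + ρ0 γ • ∑ a ∈ T, b a) := by
      rw [hCi1 γ hγ, Finset.sum_congr rfl fun a _ => hb a γ hγ, Finset.sum_sub_distrib,
        Finset.smul_sum]
      abel
    beta_reduce
    rw [h1, ha, ha, emb_neg ha, hs, hei γ hγ]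
    group

end Pool.Agent.Lib.IW
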