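import Pool.Agent.Lib.IW.Util

/-! Block LG0: local cocycles are global when the coinvariants vanish. -/

open IntermediateField

namespace Pool.Agent.Lib.IW

namespace LG0

/-- The semidirect product of a module with the acting group. -/
@[ext] structure SD (H A : Type) where
  a : A
  h : H

section SD

variable {H A B : Type} [Group H] [AddCommGroup A] [DistribMulAction H A] [AddCommGroup B]
  [DistribMulAction H B]

instance : Mul (SD H A) := ⟨fun u v => ⟨u.a + u.h • v.a, u.h * v.h⟩⟩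
instance : One (SD H A) := ⟨⟨0, 1⟩⟩
instance : Inv (SD H A) := ⟨fun u => ⟨-(u.h⁻¹ • u.a), u.h⁻¹⟩⟩

@[simp] lemma mul_a (u v : SD H A) : (u * v).a = u.a + u.h • v.a := rfl
@[simp] lemma mul_h (u v : SD H A) : (u * v).h = u.h * v.h := rfl
omit [DistribMulAction H A] in
@[simp] lemma one_a : (1 : SD H A).a = 0 := rfl
omit [DistribMulAction H A] in
@[simp] lemma one_h : (1 : SD H A).h = 1 := rfl
@[simp] lemma inv_a (u : SD H A) : (u⁻¹).a = -(u.h⁻¹ • u.a) := rfl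
@[simp] lemma inv_h (u : SD H A) : (u⁻¹).h = u.h⁻¹ := rfl

instance : Group (SD H A) := Group.ofLeftAxioms
  (fun u v w => by ext <;> simp [mul_assoc, add_assoc, mul_smul])
  (fun u => by ext <;> simp)
  (fun u => by ext <;> simp)

instance [Finite H] [Finite A] : Finite (SD H A) :=
  Finite.of_injective (fun u : SD H A => (u.a, u.h)) fun u v e => by
    simp only [Prod.mk.injEq] at e
    exact SD.ext e.1 e.2

/-- The map of semidirect products induced by an equivariant map. -/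
def mapSD (Ψ : B →+ A) (hΨ : ∀ (u : H) (b : B), Ψ (u • b) = u • Ψ b) : SD H B →* SD H A :=
  MonoidHom.mk' (fun u => ⟨Ψ u.a, u.h⟩) fun u v => by ext <;> simp [hΨ]

lemma pow_of_h (u : SD H A) (hu : u.h = 1) (n : ℕ) : u ^ n = ⟨n • u.a, 1⟩ := by
  induction n with
  | zero => ext <;> simp
  | succ n ih =>
    rw [pow_succ, ih]
    ext
    · simp [succ_nsmul]
    · simp [hu]

end SD

/-- Lifting a cocycle along an equivariant surjection. -/
lemma lift (hW : StmtWeak) (p : ℕ) [Fact p.Prime] (k Ω : Type) [Field k] [IsAlgClosed k]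
    [CharP k p] [Field Ω] [IsAlgClosed Ω] [Algebra k Ω] (x : Ω) (hx : Co k x)
    (Δ : Subgroup (Aut k Ω)) (hΔ : Δ ≤ Gam k x) {H A B : Type} [Group H] [Finite H]
    [AddCommGroup A] [DistribMulAction H A] [AddCommGroup B] [Finite B] [DistribMulAction H B]
    (Ψ : B →+ A) (hΨ : ∀ (u : H) (b : B), Ψ (u • b) = u • Ψ b) (hs : Function.Surjective Ψ)
    (l j : ℕ) (hl : l.Prime) (hlp : l ≠ p) (hB : ∀ b : B, l ^ j • b = 0) (ρ : Aut k Ω → H)
    (hρ : IsRep Δ ρ) (c₀ : Aut k Ω → A) (hc : IsCoc Δ ρ c₀) :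
    ∃ b : Aut k Ω → B, IsCoc Δ ρ b ∧ ∀ γ ∈ Δ, Ψ (b γ) = c₀ γ := by
  have hk : ∀ u : SD H B, u ∈ (mapSD Ψ hΨ).ker → u.h = 1 := fun u hu =>
    congrArg SD.h (MonoidHom.mem_ker.1 hu)
  obtain ⟨τ, hτ, hτe⟩ := hW p k Ω x hx Δ hΔ (SD H B) (SD H A) (mapSD Ψ hΨ)
    (fun v => by
      obtain ⟨b, hb⟩ := hs v.a
      exact ⟨⟨b, v.h⟩, SD.ext hb rfl⟩) l hl hlp
    (fun u => ⟨j, Subtype.ext (by
      change (u : SD H B) ^ l ^ j = 1
      rw [pow_of_h _ (hk _ u.2), hB]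
      rfl)⟩)
    (fun u hu v hv => by
      ext
      · simp [hk u hu, hk v hv, add_comm]
      · simp [hk u hu, hk v hv])
    (fun γ => ⟨c₀ γ, ρ γ⟩)
    ⟨fun γ hγ δ hδ => SD.ext (hc.add γ hγ δ hδ) (hρ.mul γ hγ δ hδ),
      hc.cts.comp₂ hρ.cts SD.mk⟩
  refine ⟨fun γ => (τ γ).a, ⟨fun γ hγ δ hδ => ?_, hτ.cts.comp SD.a⟩,
    fun γ hγ => congrArg SD.a (hτe γ hγ)⟩
  have e : (τ γ).h = ρ γ := congrArg SD.h (hτe γ hγ)
  rw [hτ.mul γ hγ δ hδ, mul_a, e]

/-- A sum of copies of the induced module. -/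
def Ind (H A : Type) : Type := H → H → A

section Ind

variable {H A : Type} [Group H] [AddCommGroup A]

instance : AddCommGroup (Ind H A) := inferInstanceAs (AddCommGroup (H → H → A))

instance [Finite H] [Finite A] : Finite (Ind H A) := inferInstanceAs (Finite (H → H → A))

instance : DistribMulAction H (Ind H A) where
  smul u f := fun g h => f g (u⁻¹ * h)
  one_smul f := by
    funext g h
    change f g (1⁻¹ * h) = f g h
    rw [inv_one, one_mul]
  mul_smul u v f := by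
    funext g h
    change f g ((u * v)⁻¹ * h) = f g (v⁻¹ * (u⁻¹ * h))
    rw [mul_inv_rev, mul_assoc]
  smul_zero _ := rfl
  smul_add _ _ _ := rfl

variable [Fintype H] [DistribMulAction H A]

/-- The natural map from the induced module. -/
def push : (H → A) →+ A where
  toFun f := ∑ h, h • f h
  map_zero' := by simp
  map_add' f f' := by simp [Finset.sum_add_distrib]

lemma push_shift (u : H) (f : H → A) : push (fun h => f (u⁻¹ * h)) = u • push f := by
  change ∑ h, h • f (u⁻¹ * h) = u • ∑ h, h • f h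
  rw [Finset.smul_sum, ← Equiv.sum_comp (Equiv.mulLeft u) fun h => h • f (u⁻¹ * h)]
  simp [mul_smul]

/-- The surjection onto the augmentation submodule. -/
def Psi : Ind H A →+ A where
  toFun f := ∑ g, push fun h => f g (h * g) - f g h
  map_zero' := Finset.sum_eq_zero fun g _ => by
    have : (fun h => (0 : Ind H A) g (h * g) - (0 : Ind H A) g h) = 0 := funext fun h => sub_self _
    rw [this, map_zero]
  map_add' f f' := by
    rw [← Finset.sum_add_distrib]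
    refine Finset.sum_congr rfl fun g _ => ?_
    rw [← map_add]
    congr 1
    funext h
    exact add_sub_add_comm (f g (h * g)) (f' g (h * g)) (f g h) (f' g h)

lemma Psi_smul (u : H) (f : Ind H A) : Psi (u • f) = u • Psi f := by
  change ∑ g, (push fun h => f g (u⁻¹ * (h * g)) - f g (u⁻¹ * h)) =
    u • ∑ g, push fun h => f g (h * g) - f g h
  rw [Finset.smul_sum]
  refine Finset.sum_congr rfl fun g _ => ?_
  rw [← push_shift]
  simp only [mul_assoc]

lemma Psi_mem (u : H) (a : A) : ∃ f : Ind H A, Psi f = u • a - a := by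
  classical
  refine ⟨fun g h => if g = u⁻¹ ∧ h = 1 then a else 0, ?_⟩
  change ∑ g, ∑ h : H, h • ((if g = u⁻¹ ∧ h * g = 1 then a else 0) -
    (if g = u⁻¹ ∧ h = 1 then a else 0)) = u • a - a
  rw [Finset.sum_eq_single u⁻¹ (fun g _ hg => by simp [hg]) (by simp)]
  simp [smul_sub, Finset.sum_sub_distrib, mul_inv_eq_one, smul_ite]

end Ind

/-- The case of a surjective representation. -/
lemma main (hW : StmtWeak) (hI : StmtInd) (p : ℕ) [Fact p.Prime] (k Ω : Type) [Field k]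
    [IsAlgClosed k] [CharP k p] [Field Ω] [IsAlgClosed Ω] [Algebra k Ω] (x : Ω) (hx : Co k x)
    (H A : Type) [Group H] [Finite H] [AddCommGroup A] [Finite A] [DistribMulAction H A]
    (ρ : Aut k Ω → H) (hρ : IsRep (Gam k x) ρ) (hs : ∀ h, ∃ γ ∈ Gam k x, ρ γ = h) (l j : ℕ)
    (hl : l.Prime) (hlp : l ≠ p) (hA : ∀ a : A, l ^ j • a = 0)
    (hcl : AddSubgroup.closure {b : A | ∃ γ ∈ Gam k x, ∃ a : A, b = ρ γ • a - a} = ⊤)
    (W : ValuationSubring Ω) (hWp : IsPl k W) (c₀ : Aut k Ω → A) (hc : IsCoc (Dec k x W) ρ c₀) :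
    ∃ c : Aut k Ω → A, IsCoc (Gam k x) ρ c ∧ (∀ γ ∈ Dec k x W, c γ = c₀ γ) ∧
      ∀ W' : ValuationSubring Ω, IsPl k W' → ¬ Agr k⟮x⟯ W W' →
        ∃ a : A, ∀ γ ∈ Dec k x W', c γ = ρ γ • a - a := by
  classical
  have := Fintype.ofFinite H
  have hsurj : Function.Surjective (Psi : Ind H A →+ A) := by
    rw [← AddMonoidHom.range_eq_top, eq_top_iff, ← hcl, AddSubgroup.closure_le]
    rintro _ ⟨γ, -, a, rfl⟩
    exact Psi_mem (ρ γ) a
  obtain ⟨b, hb, hbe⟩ := lift hW p k Ω x hx (Dec k x W) (Dec_le x W) (Psi : Ind H A →+ A)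
    Psi_smul hsurj l j hl hlp (fun f => funext fun g => funext fun h => hA (f g h)) ρ
    (hρ.mono (Dec_le x W)) c₀ hc
  have hn : ¬ p ∣ l ^ j := fun h =>
    hlp ((Nat.prime_dvd_prime_iff_eq Fact.out hl).1 ((Fact.out : p.Prime).dvd_of_dvd_pow h)).symm
  choose c hc1 hc2 hc3 hc4 using fun g : H => hI p k Ω x hx H A ρ hρ hs (l ^ j) hn hA W hWp
    (fun γ => b γ g) (fun γ hγ δ hδ h => congrFun (congrFun (hb.add γ hγ δ hδ) g) h)
    (hb.cts.comp fun f => f g) g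
  refine ⟨fun γ => ∑ g, push (c g γ), ⟨fun γ hγ δ hδ => ?_, ?_⟩, fun γ hγ => ?_,
    fun W' hW' hn' => ?_⟩
  · rw [Finset.smul_sum, ← Finset.sum_add_distrib]
    refine Finset.sum_congr rfl fun g _ => ?_
    rw [← push_shift, ← map_add]
    congr 1
    funext h
    exact hc1 g γ hγ δ hδ h
  · choose S hS using hc2
    refine ⟨Finset.univ.biUnion S, fun γ hγ δ hδ e => Finset.sum_congr rfl fun g _ => ?_⟩
    rw [hS g γ hγ δ hδ fun s hs' => e s (Finset.mem_biUnion.2 ⟨g, Finset.mem_univ g, hs'⟩)]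
  · rw [← hbe γ hγ]
    refine Finset.sum_congr rfl fun g _ => ?_
    congr 1
    funext h
    exact hc3 g γ hγ h
  · choose a ha using fun g => hc4 g W' hW' hn'
    refine ⟨∑ g, push (a g), fun γ hγ => ?_⟩
    rw [Finset.smul_sum, ← Finset.sum_sub_distrib]
    refine Finset.sum_congr rfl fun g _ => ?_
    rw [← push_shift, ← map_sub]
    congr 1
    funext h
    exact ha g γ hγ h

end LG0

theorem blockLG0 (_hF : Found) (hW : StmtWeak) (hI : StmtInd) : StmtLG0 := by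
  intro p _ k Ω _ _ _ _ _ _ x hx H A _ _ _ _ _ ρ hρ l j hl hlp hA hcl W hWp c₀ hc
  classical
  let ρ' : Aut k Ω → hρ.im := fun γ =>
    if h : γ ∈ Gam k x then ⟨ρ γ, hρ.mem_im.2 ⟨γ, h, rfl⟩⟩ else 1
  have he : ∀ γ ∈ Gam k x, (ρ' γ : H) = ρ γ := fun γ hγ => by simp only [ρ', dif_pos hγ]
  have hs : ∀ γ ∈ Gam k x, ∀ a : A, ρ' γ • a = ρ γ • a := fun γ hγ a => by
    rw [Subgroup.smul_def, he γ hγ]
  have hρ' : IsRep (Gam k x) ρ' := by
    refine ⟨fun γ hγ δ hδ => Subtype.ext ?_, ?_⟩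
    · rw [Subgroup.coe_mul, he _ (mul_mem hγ hδ), he γ hγ, he δ hδ, hρ.mul γ hγ δ hδ]
    · obtain ⟨S, hS⟩ := hρ.cts
      exact ⟨S, fun γ hγ δ hδ e => Subtype.ext (by rw [he γ hγ, he δ hδ, hS γ hγ δ hδ e])⟩
  obtain ⟨c, hc1, hc2, hc3⟩ := LG0.main hW hI p k Ω x hx hρ.im A ρ' hρ'
    (fun h => by
      obtain ⟨γ, hγ, e⟩ := hρ.mem_im.1 h.2
      exact ⟨γ, hγ, Subtype.ext ((he γ hγ).trans e)⟩) l j hl hlp hA
    (by
      rw [← hcl]
      congr 1
      ext b
      exact ⟨fun ⟨γ, hγ, a, e⟩ => ⟨γ, hγ, a, by rw [e, hs γ hγ]⟩,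
        fun ⟨γ, hγ, a, e⟩ => ⟨γ, hγ, a, by rw [e, hs γ hγ]⟩⟩) W hWp c₀
    ⟨fun γ hγ δ hδ => by rw [hc.add γ hγ δ hδ, hs γ (Dec_le x W hγ)], hc.cts⟩
  refine ⟨c, ⟨fun γ hγ δ hδ => by rw [hc1.add γ hγ δ hδ, hs γ hγ], hc1.cts⟩, hc2,
    fun W' hW' hn => ?_⟩
  obtain ⟨a, ha⟩ := hc3 W' hW' hn
  exact ⟨a, fun γ hγ => by rw [ha γ hγ, hs γ (Dec_le x W' hγ)]⟩

end Pool.Agent.Lib.IW
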