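import Pool.Agent.Lib.IW.Util2

/-! Block LGc: central lifting without new ramification on the affine line. -/

open Polynomial IntermediateField
open scoped Pointwise

namespace Pool.Agent.Lib.IW

namespace LGc

/-- A character of the roots of unity with prescribed value at a primitive root. -/
lemma exists_lam {Ω G : Type} [Field Ω] [Group G] {M : ℕ} (hM : M ≠ 0) {ω : Ω}
    (hω : IsPrimitiveRoot ω M) (Z : Subgroup G) {g : G} (hg : g ∈ Z) (hgM : g ^ M = 1) :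
    ∃ lam : Ω → G, IsLam M Z lam ∧ ∀ i : ℕ, lam (ω ^ i) = g ^ i := by
  classical
  have : NeZero M := ⟨hM⟩
  have h1 : ∀ i j : ℕ, ω ^ i = ω ^ j → g ^ i = g ^ j := fun i j h => by
    rw [(hω.isOfFinOrder hM).pow_eq_pow_iff_modEq, ← hω.eq_orderOf] at h
    rw [pow_eq_pow_mod i hgM, pow_eq_pow_mod j hgM, h]
  obtain ⟨lam, h2⟩ : ∃ lam : Ω → G, ∀ i : ℕ, lam (ω ^ i) = g ^ i := by
    refine ⟨fun ζ : Ω => if h : ∃ i : ℕ, ω ^ i = ζ then g ^ h.choose else 1, fun i => ?_⟩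
    have h : ∃ j : ℕ, ω ^ j = ω ^ i := ⟨i, rfl⟩
    beta_reduce
    rw [dif_pos h]
    exact h1 _ _ h.choose_spec
  refine ⟨lam, ⟨fun ζ ζ' h h' => ?_, fun ζ h => ?_⟩, h2⟩
  · obtain ⟨i, -, rfl⟩ := hω.eq_pow_of_pow_eq_one h
    obtain ⟨j, -, rfl⟩ := hω.eq_pow_of_pow_eq_one h'
    rw [← pow_add, h2, h2, h2, pow_add]
  · obtain ⟨i, -, rfl⟩ := hω.eq_pow_of_pow_eq_one h
    rw [h2]
    exact pow_mem hg i

variable {k Ω : Type} [Field k] [IsAlgClosed k] [Field Ω] [IsAlgClosed Ω] [Algebra k Ω]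

omit [IsAlgClosed Ω] in
lemma pow_apply {M : ℕ} (hM : M ≠ 0) {ω r : Ω} (hω : ω ^ M = 1) {γ : Aut k Ω}
    (h : γ r = ω * r) (i : ℕ) : (γ ^ i) r = ω ^ i * r := by
  induction i with
  | zero => simp
  | succ i ih =>
    rw [pow_succ', AlgEquiv.mul_apply, ih, map_mul, map_pow, root_fixed hM hω γ, h]
    ring

/-- Removing the ramification at one point. -/
lemma step (hF : Found) (p : ℕ) [Fact p.Prime] [CharP k p] {x : Ω} (hx : Co k x)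
    {E E' : Type} [Group E] [Finite E] [Group E'] (π : E →* E') {l : ℕ} (hl : l.Prime)
    (hlp : l ≠ p) (hK : IsPGroup l π.ker) (hc : π.ker ≤ Subgroup.center E) {ρ' : Aut k Ω → E'}
    {ρ : Aut k Ω → E} (hρ : IsRep (Gam k x) ρ) (he : ∀ γ ∈ Gam k x, π (ρ γ) = ρ' γ) (a : k) :
    ∃ ρ₁ : Aut k Ω → E, IsRep (Gam k x) ρ₁ ∧ (∀ γ ∈ Gam k x, π (ρ₁ γ) = ρ' γ) ∧
      (∀ W : ValuationSubring Ω, IsPl k W → W.valuation (x - algebraMap k Ω a) < 1 →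
        (∀ γ ∈ Dec k x W, ρ' γ = 1) → ∀ γ ∈ Dec k x W, ρ₁ γ = 1) ∧
      ∀ W : ValuationSubring Ω, IsPl k W → x ∈ W → ¬ W.valuation (x - algebraMap k Ω a) < 1 →
        ∀ γ ∈ Dec k x W, ρ₁ γ = ρ γ := by
  by_cases hex : ∃ W₀ : ValuationSubring Ω, IsPl k W₀ ∧
      W₀.valuation (x - algebraMap k Ω a) < 1 ∧ ∀ γ ∈ Dec k x W₀, ρ' γ = 1
  swap
  · exact ⟨ρ, hρ, he, fun W h1 h2 h3 => absurd ⟨W, h1, h2, h3⟩ hex, fun _ _ _ _ _ _ => rfl⟩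
  obtain ⟨W₀, hW₀, hv₀, ht₀⟩ := hex
  have : Fact l.Prime := ⟨hl⟩
  obtain ⟨j, hj⟩ := IsPGroup.iff_card.1 hK
  have hker : ∀ g ∈ π.ker, g ^ l ^ j = 1 := fun g hg => by
    have h1 : (⟨g, hg⟩ : π.ker) ^ l ^ j = 1 := by rw [← hj]; exact pow_card_eq_one'
    exact congrArg Subtype.val h1
  have hn : ¬ p ∣ l ^ j := fun h =>
    hlp ((Nat.prime_dvd_prime_iff_eq Fact.out hl).1 ((Fact.out : p.Prime).dvd_of_dvd_pow h)).symm
  have hn0 : l ^ j ≠ 0 := pow_ne_zero _ hl.ne_zero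
  obtain ⟨ω, hω⟩ := exists_prim (k := k) (Ω := Ω) p hn
  obtain ⟨r, hr⟩ := IsAlgClosed.exists_pow_nat_eq (x - algebraMap k Ω a) (Nat.pos_of_ne_zero hn0)
  have hu := hF.bas.unifAt k Ω x hx.tr a W₀ hW₀ hv₀
  have hxa : x - algebraMap k Ω a ≠ 0 := hu.2.1
  have hr0 : r ≠ 0 := by
    rintro rfl
    exact hxa (by rw [← hr, zero_pow hn0])
  have hle : Gam k x ≤ Gam k (x - algebraMap k Ω a) := fun γ hγ => by
    rw [mem_Gam] at hγ ⊢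
    rw [map_sub, hγ, AlgEquiv.commutes]
  obtain ⟨γ₀, hγ₀, e₀⟩ := hF.tame1 p k Ω k⟮x⟯ hx.ff W₀ hW₀ _ hu _ hn r ω hr hω.pow_eq_one
  rw [DecF_adjoin] at hγ₀
  have hmem : ∀ γ ∈ Dec k x W₀, ρ γ ∈ π.ker := fun γ hγ => by
    rw [MonoidHom.mem_ker, he γ (Dec_le _ _ hγ), ht₀ γ hγ]
  obtain ⟨lam, hlam, hli⟩ := exists_lam hn0 hω π.ker (inv_mem (hmem γ₀ hγ₀))
    (hker _ (inv_mem (hmem γ₀ hγ₀)))
  have hρ₁ := IsRep.twist hxa hn0 hr hle hρ hc hlam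
  have hl1 : lam 1 = 1 := by simpa using hli 0
  have h0 : ∀ γ ∈ Dec k x W₀, ρ γ * lam (γ r / r) = 1 := fun γ hγ => by
    obtain ⟨i, -, hi⟩ := hω.eq_pow_of_pow_eq_one (kap_pow hr hxa (hle (Dec_le _ _ hγ)))
    have h1 : (γ₀ ^ i)⁻¹ * γ ∈ Dec k x W₀ := mul_mem (inv_mem (pow_mem hγ₀ i)) hγ
    have h2 : ((γ₀ ^ i)⁻¹ * γ) r = r := by
      have h3 : γ r = (γ₀ ^ i) r := by
        rw [pow_apply hn0 hω.pow_eq_one e₀, hi, div_mul_cancel₀ _ hr0]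
      rw [AlgEquiv.mul_apply, h3]
      exact (γ₀ ^ i).symm_apply_apply r
    obtain ⟨j', hj'⟩ := hF.tame2 p k Ω k⟮x⟯ hx.ff W₀ hW₀ _ hu E ρ
      (by rw [DecF_adjoin]; exact hρ.mono (Dec_le _ _)) _ hn
      (fun δ hδ => ⟨0, by
        rw [DecF_adjoin] at hδ
        rw [pow_zero, mul_one, hker _ (hmem δ hδ)]⟩) r hr _ (by rw [DecF_adjoin]; exact h1) h2
    have h4 := eq_one_of_pl hl hlp hj' (hker _ (hmem _ h1))
    have h5 := Dec_le _ _ (pow_mem hγ₀ i)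
    rw [hρ.mul _ (inv_mem h5) _ (Dec_le _ _ hγ), hρ.inv h5, hρ.pow (Dec_le _ _ hγ₀),
      inv_mul_eq_one] at h4
    rw [← hi, hli, ← h4, inv_pow, mul_inv_cancel]
  refine ⟨_, hρ₁, fun γ hγ => ?_, fun W hW hv _ => ?_, fun W hW hxW hv γ hγ => ?_⟩
  · rw [map_mul, he γ hγ, MonoidHom.mem_ker.1 (hlam.2 _ (kap_pow hr hxa (hle hγ))), mul_one]
  · obtain ⟨δ, hδ, rfl⟩ := conj_at hF.conj hF.bas hx hW₀ hW hv₀ hv
    exact hρ₁.triv_smul h0 hδ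
  · have h1 : W.valuation (x - algebraMap k Ω a) = 1 :=
      le_antisymm ((W.valuation_le_one_iff _).2 (sub_mem hxW (hW.2 a))) (not_lt.1 hv)
    have h2 : W.valuation r = 1 := by
      rw [← hr, map_pow] at h1
      exact (pow_eq_one_iff_of_nonneg zero_le hn0).1 h1
    have h3 : γ r = r := hF.bas.unitFix k Ω x hx W hW γ hγ.2 r (l ^ j)
      (fun h => hn ((CharP.cast_eq_zero_iff k p _).1 h)) h2
      (by rw [hr]; exact hle (Dec_le _ _ hγ))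
    rw [h3, div_self hr0, hl1, mul_one]

end LGc

theorem blockLGc (hF : Found) (hW : StmtWeak) : StmtLGc := by
  intro p _ k Ω _ _ _ _ _ _ x hx E E' _ _ _ π hπ l hl hlp hK hc ρ' hρ'
  classical
  obtain ⟨ρ₀, hρ₀, he₀⟩ := hW p k Ω x hx (Gam k x) le_rfl E E' π hπ l hl hlp hK
    (fun a _ b hb => Subgroup.mem_center_iff.1 (hc hb) a) ρ' hρ'
  obtain ⟨T, hT⟩ := hF.fld.finRam p k Ω x hx E ρ₀ hρ₀
  have key : ∀ S : Finset k, ∃ ρ : Aut k Ω → E, IsRep (Gam k x) ρ ∧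
      (∀ γ ∈ Gam k x, π (ρ γ) = ρ' γ) ∧ ∀ W : ValuationSubring Ω, IsPl k W → x ∈ W →
        ((∃ a ∈ S, W.valuation (x - algebraMap k Ω a) < 1) → (∀ γ ∈ Dec k x W, ρ' γ = 1) →
          ∀ γ ∈ Dec k x W, ρ γ = 1) ∧
        ((∀ a ∈ S, ¬ W.valuation (x - algebraMap k Ω a) < 1) → ∀ γ ∈ Dec k x W, ρ γ = ρ₀ γ) := by
    intro S
    induction S using Finset.induction_on with
    | empty => exact ⟨ρ₀, hρ₀, he₀, fun W _ _ => ⟨by simp, fun _ _ _ => rfl⟩⟩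
    | insert b S _ ih =>
      obtain ⟨ρ, hρ, he, hS⟩ := ih
      obtain ⟨ρ₁, hρ₁, he₁, h1, h2⟩ := LGc.step hF p hx π hl hlp hK hc hρ he b
      refine ⟨ρ₁, hρ₁, he₁, fun W hW hxW => ⟨fun ⟨a, ha, hv⟩ ht γ hγ => ?_, fun hv γ hγ => ?_⟩⟩
      · by_cases hb : W.valuation (x - algebraMap k Ω b) < 1
        · exact h1 W hW hb ht γ hγ
        · rw [h2 W hW hxW hb γ hγ]
          rcases Finset.mem_insert.1 ha with rfl | ha'
          · exact absurd hv hb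
          · exact (hS W hW hxW).1 ⟨a, ha', hv⟩ ht γ hγ
      · rw [h2 W hW hxW (hv b (Finset.mem_insert_self b S)) γ hγ]
        exact (hS W hW hxW).2 (fun a ha => hv a (Finset.mem_insert_of_mem ha)) γ hγ
  obtain ⟨ρ, hρ, he, hS⟩ := key T
  refine ⟨ρ, hρ, he, fun W hW hxW ht γ hγ => ?_⟩
  by_cases h : ∃ a ∈ T, W.valuation (x - algebraMap k Ω a) < 1
  · exact (hS W hW hxW).1 h ht γ hγ
  · have h' : ∀ a ∈ T, ¬ W.valuation (x - algebraMap k Ω a) < 1 := fun a ha hv => h ⟨a, ha, hv⟩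
    rw [(hS W hW hxW).2 h' γ hγ, hT W hW hxW h' γ hγ]

end Pool.Agent.Lib.IW
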