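import Pool.Agent.Lib.IW.Util

/-! The lifting theorem, by induction on the order of the kernel. -/

namespace Pool.Agent.Lib.IW

namespace Lift

variable {G G' : Type} [Group G] [Group G']

lemma cycP_map {p : ℕ} {H P : Subgroup G} (h : CycP p H P) (q : G →* G') :
    CycP p (H.map q) (P.map q) := by
  obtain ⟨h1, h2, h3, c, hc, h4⟩ := h
  refine ⟨Subgroup.map_mono h1, h2.map q, ?_, q c, ⟨c, hc, rfl⟩, ?_⟩
  · rintro _ ⟨g, hg, rfl⟩ _ ⟨a, ha, rfl⟩
    exact ⟨_, h3 g hg a ha, by simp⟩
  · rintro _ ⟨g, hg, rfl⟩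
    obtain ⟨i, hi⟩ := h4 g hg
    exact ⟨i, _, hi, by simp⟩

lemma card_map_lt [Finite G] {M K : Subgroup G} [K.Normal] (h0 : K ≠ ⊥) (h : K ≤ M) :
    Nat.card (M.map (QuotientGroup.mk' K)) < Nat.card M := by
  have h1 := Subgroup.card_map_dvd M (QuotientGroup.mk' K)
  refine lt_of_le_of_ne (Nat.le_of_dvd Nat.card_pos h1) fun e => h0 ?_
  have h2 : Function.Bijective ((QuotientGroup.mk' K).subgroupMap M) :=
    ((QuotientGroup.mk' K).subgroupMap_surjective M).bijective_of_nat_card_le e.ge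
  rw [eq_bot_iff]
  intro a ha
  have h3 : (QuotientGroup.mk' K).subgroupMap M ⟨a, h ha⟩ = 1 :=
    Subtype.ext ((QuotientGroup.eq_one_iff a).2 ha)
  exact congrArg Subtype.val ((injective_iff_map_eq_one _).1 h2.1 _ h3)

end Lift

open Lift

theorem blockLift (hG : StmtGrp) (hP : StmtStepP) (hL : StmtStepL) (hC : StmtStepC) :
    StmtLift := by
  intro p _ k Ω _ _ _ _ _ _ G G' _ _ _ π
  induction hn : Nat.card π.ker using Nat.strong_induction_on generalizing G with
  | _ n ih =>
    intro hπ hs H P hc hP' hl hR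
    by_cases h0 : π.ker = ⊥
    · refine hP p k Ω G G' π hπ H P hc hP' ?_ ?_ ?_ hR <;> rw [h0]
      · intro a ha b hb
        rw [Subgroup.mem_bot.1 ha, Subgroup.mem_bot.1 hb]
      · intro a ha
        rw [Subgroup.mem_bot.1 ha, one_pow]
      · exact fun N _ h => Or.inl (le_bot_iff.1 h)
    obtain ⟨K, hK, hK0, hKM, hcase⟩ := hG p G π.ker H P hs h0 hc.2.1 hP' hl
    set q := QuotientGroup.mk' K with hq
    have hqs : Function.Surjective q := QuotientGroup.mk'_surjective K
    have hqk : q.ker = K := QuotientGroup.ker_mk' K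
    set π' : G ⧸ K →* G' := QuotientGroup.lift K π hKM with hπ'
    have hker : π'.ker = π.ker.map q := QuotientGroup.ker_lift K π hKM
    have hcomp : π'.comp q = π := QuotientGroup.lift_comp_mk' K π hKM
    have hR' : Real k Ω (G ⧸ K) (H.map q) := by
      refine ih (Nat.card π'.ker) (by rw [hker, ← hn]; exact card_map_lt hK0 hKM) (G ⧸ K) π' rfl
        ?_ ?_ (H.map q) (P.map q) (cycP_map hc q) ?_ ?_ (by rwa [Subgroup.map_map, hcomp])
      · intro g
        obtain ⟨a, rfl⟩ := hπ g
        exact ⟨q a, DFunLike.congr_fun hcomp a⟩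
      · rw [hker]
        exact Group.isSolvable_of_surjective (q.subgroupMap_surjective π.ker)
      · rw [Subgroup.coe_map, ← Subgroup.map_normalClosure _ _ hqs, hP',
          Subgroup.map_top_of_surjective _ hqs]
      · intro l h1 h2 h3 h4
        refine hl l h1 h2 (h3.trans ?_) (h4.trans (Subgroup.card_map_dvd H q))
        rw [hker, ← Subgroup.map_top_of_surjective _ hqs, ← Subgroup.map_commutator,
          Subgroup.relIndex_map_map, hqk, sup_eq_left.2 hKM]
        exact Subgroup.relIndex_dvd_of_le_left _ le_sup_left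
    rw [← hqk] at hcase
    rcases hcase with ⟨a, b, c⟩ | ⟨l, a, b, c, d, e, f, u, g, i, j⟩ | ⟨l, a, b, c, d, e⟩
    · exact hP p k Ω G _ q hqs H P hc hP' a b c hR'
    · exact hL p k Ω G _ q hqs H P hc hP' l a b c d e f u g i j hR'
    · exact hC p k Ω G _ q hqs H P hc.2.1 hP' l a b c d e hR'

end Pool.Agent.Lib.IW
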