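import Pool.Agent.Lib.IW.Util

/-! Linear models of elementary abelian normal subgroups. -/

namespace Pool.Agent.Lib.IW

namespace Lin

theorem core (p : ℕ) [Fact p.Prime] (G : Type) [Group G] (V : Subgroup G) (M : Type)
    [AddCommGroup M] [Module (ZMod p) M] [Finite M] (f : M → G) (hi : Function.Injective f)
    (ha : ∀ u v, f (u + v) = f u * f v) (hr : ∀ g, g ∈ V ↔ ∃ u, f u = g)
    (hn : ∀ g : G, ∀ v ∈ V, g * v * g⁻¹ ∈ V) (hc : ∀ a ∈ V, ∀ b ∈ V, a * b = b * a) :
    ∃ (r : ℕ) (e : (Fin r → ZMod p) → G) (a : G →* Matrix (Fin r) (Fin r) (ZMod p)),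
      IsLin V e a := by
  have hfV : ∀ u, f u ∈ V := fun u => (hr _).2 ⟨u, rfl⟩
  choose c hcs using fun (g : G) (u : M) => (hr _).1 (hn g (f u) (hfV u))
  have c_add : ∀ g u v, c g (u + v) = c g u + c g v := fun g u v => hi (by
    rw [ha, hcs, hcs, hcs, ha]
    group)
  let L : G → M →ₗ[ZMod p] M := fun g => (AddMonoidHom.mk' (c g) (c_add g)).toZModLinearMap p
  have hL : ∀ g u, L g u = c g u := fun _ _ => rfl
  have L_one : L 1 = LinearMap.id := LinearMap.ext fun u => hi (by
    rw [hL, hcs]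
    simp)
  have L_mul : ∀ g h, L (g * h) = L g ∘ₗ L h := fun g h => LinearMap.ext fun u => hi (by
    rw [LinearMap.comp_apply, hL, hL, hL, hcs, hcs, hcs]
    group)
  have L_triv : ∀ g ∈ V, L g = LinearMap.id := fun g hg => LinearMap.ext fun u => hi (by
    rw [hL, hcs, hc g hg _ (hfV u)]
    simp)
  let b := Module.finBasis (ZMod p) M
  let a : G →* Matrix (Fin (Module.finrank (ZMod p) M)) (Fin (Module.finrank (ZMod p) M))
      (ZMod p) :=
    { toFun := fun g => LinearMap.toMatrix b b (L g)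
      map_one' := by rw [L_one, LinearMap.toMatrix_id]
      map_mul' := fun g h => by rw [L_mul, LinearMap.toMatrix_comp b b b] }
  refine ⟨_, fun u => f (b.equivFun.symm u), a, hi.comp b.equivFun.symm.injective,
    fun u v => by rw [map_add, ha], fun g => ?_, fun g u => ?_, fun g hg => ?_⟩
  · rw [hr]
    exact ⟨fun ⟨u, hu⟩ => ⟨b.equivFun u, by rw [LinearEquiv.symm_apply_apply, hu]⟩,
      fun ⟨u, hu⟩ => ⟨_, hu⟩⟩
  · rw [← hcs, ← hL]
    congr 1
    obtain ⟨w, rfl⟩ := b.equivFun.surjective u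
    rw [LinearEquiv.symm_apply_apply, LinearEquiv.eq_symm_apply]
    exact (LinearMap.toMatrix_mulVec_repr b b (L g) w).symm
  · change LinearMap.toMatrix b b (L g) = 1
    rw [L_triv g hg, LinearMap.toMatrix_id]

end Lin

theorem blockLin : StmtLin := by
  intro p _ G _ _ V hV hc hp
  let : CommGroup V :=
    { (inferInstance : Group V) with mul_comm := fun a b => Subtype.ext (hc a a.2 b b.2) }
  have hm : ∀ x : Additive V, p • x = 0 := fun x =>
    Additive.toMul.injective (Subtype.ext (by simpa using hp _ x.toMul.2))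
  let : Module (ZMod p) (Additive V) := AddCommGroup.zmodModule hm
  refine Lin.core p G V (Additive V) (fun x => (x.toMul : G))
    (fun x y h => Additive.toMul.injective (Subtype.ext h)) (fun u v => rfl) (fun g => ?_)
    (fun g v hv => hV.conj_mem v hv g) hc
  exact ⟨fun h => ⟨Additive.ofMul ⟨g, h⟩, rfl⟩, fun ⟨u, hu⟩ => hu ▸ u.toMul.2⟩

end Pool.Agent.Lib.IW
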