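import Pool.Agent.Lib.IW.ASM

/-! Block LocP: proper local solutions for kernels that are `p`-groups. -/

open Polynomial IntermediateField
open scoped Pointwise

namespace Pool.Agent.Lib.IW

namespace LocP

open ASM

section Grp

variable {p : ℕ} [Fact p.Prime] {I : Type} [Group I] [Finite I]

/-- `U` is a minimal normal subgroup. -/
def MinN (U : Subgroup I) : Prop :=
  U ≠ ⊥ ∧ ∀ V : Subgroup I, V.Normal → V ≤ U → V = ⊥ ∨ V = U

lemma dvd_card {U : Subgroup I} (hU : IsPGroup p U) (h0 : U ≠ ⊥) : p ∣ Nat.card U := by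
  obtain ⟨n, hn⟩ := IsPGroup.iff_card.1 hU
  rcases n with _ | n
  · exact absurd (Subgroup.card_eq_one.1 (by simpa using hn)) h0
  · rw [hn]
    exact dvd_pow_self p n.succ_ne_zero

lemma cent {U S : Subgroup I} [U.Normal] [S.Normal] (hm : MinN U) (hU : IsPGroup p U)
    (hS : IsPGroup p S) : ∀ s ∈ S, ∀ u ∈ U, s * u = u * s := by
  let : MulAction S U := MulAction.compHom U ((MulAut.conjNormal (H := U)).comp S.subtype)
  have hsm : ∀ (s : S) (u : U), ((s • u : U) : I) = s * u * (s : I)⁻¹ := fun s u => rfl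
  have h1 : (1 : U) ∈ MulAction.fixedPoints S U := fun s => Subtype.ext (by simp [hsm])
  obtain ⟨b, hb, hb1⟩ := hS.exists_fixed_point_of_prime_dvd_card_of_fixed_point U
    (dvd_card hU hm.1) h1
  rcases hm.2 (U ⊓ Subgroup.centralizer (S : Set I)) inferInstance inf_le_left with h | h
  · have h2 : (b : I) ∈ U ⊓ Subgroup.centralizer (S : Set I) := by
      refine ⟨b.2, fun s hs => ?_⟩
      have h3 := congrArg Subtype.val (hb ⟨s, hs⟩)
      rw [hsm] at h3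
      exact mul_inv_eq_iff_eq_mul.1 h3
    rw [h] at h2
    exact absurd (Subtype.ext (Subgroup.mem_bot.1 h2).symm) hb1
  · intro s hs u hu
    rw [← h] at hu
    exact hu.2 s hs

lemma expo {U : Subgroup I} [hn : U.Normal] (hm : MinN U) (hU : IsPGroup p U) :
    ∀ u ∈ U, u ^ p = 1 := by
  have hc := cent hm hU hU
  let V : Subgroup I :=
    { carrier := {u | u ∈ U ∧ u ^ p = 1}
      one_mem' := ⟨U.one_mem, one_pow p⟩
      mul_mem' := fun {a b} ha hb => ⟨U.mul_mem ha.1 hb.1, by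
        rw [Commute.mul_pow (hc a ha.1 b hb.1), ha.2, hb.2, one_mul]⟩
      inv_mem' := fun {a} ha => ⟨U.inv_mem ha.1, by rw [inv_pow, ha.2, inv_one]⟩ }
  have hV : V.Normal := ⟨fun a ha g => ⟨hn.conj_mem a ha.1 g, by rw [conj_pow, ha.2]; group⟩⟩
  rcases hm.2 V hV fun a ha => ha.1 with h | h
  · obtain ⟨u, hu⟩ := exists_prime_orderOf_dvd_card' p (dvd_card hU hm.1)
    have h1 : (u : I) ∈ V := ⟨u.2, by rw [← Subgroup.coe_pow, ← hu, pow_orderOf_eq_one]; rfl⟩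
    rw [h] at h1
    have h2 : u = 1 := Subtype.ext (Subgroup.mem_bot.1 h1)
    rw [h2, orderOf_one] at hu
    exact absurd hu.symm (Fact.out : p.Prime).ne_one
  · intro u hu
    rw [← h] at hu
    exact hu.2

omit [Fact p.Prime] in
lemma ex_min {K : Subgroup I} (hK : K.Normal) (h0 : K ≠ ⊥) :
    ∃ U : Subgroup I, U.Normal ∧ U ≤ K ∧ MinN U := by
  obtain ⟨U, hU, hm⟩ := WellFounded.has_min (wellFounded_lt (α := Subgroup I))
    {U : Subgroup I | U.Normal ∧ U ≤ K ∧ U ≠ ⊥} ⟨K, hK, le_rfl, h0⟩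
  refine ⟨U, hU.1, hU.2.1, hU.2.2, fun V hV hle => ?_⟩
  by_cases h : V = ⊥
  · exact Or.inl h
  · exact Or.inr (eq_of_le_of_not_lt hle (hm V ⟨hV, hle.trans hU.2.1, h⟩))

lemma pcent {U P : Subgroup I} [U.Normal] (hm : MinN U) (hU : IsPGroup p U) (hP : CycP p ⊤ P)
    {g : I} {j : ℕ} (hg : g ^ p ^ j = 1) : ∀ u ∈ U, g * u = u * g := by
  obtain ⟨-, h1, h2, c, -, h3⟩ := hP
  have hn : P.Normal := ⟨fun a ha g => h2 g trivial a ha⟩
  obtain ⟨S, hS⟩ := h1.exists_le_sylow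
  have hq : ∀ g : I, ∃ i : ℕ, (g : I ⧸ P) = (c : I ⧸ P) ^ i := fun g => by
    obtain ⟨i, hi⟩ := h3 g trivial
    refine ⟨i, ?_⟩
    rw [← QuotientGroup.mk_pow, QuotientGroup.eq_iff_div_mem, div_eq_mul_inv]
    exact hi
  have hN : (S : Subgroup I).Normal := ⟨fun s hs g => by
    obtain ⟨i, hi⟩ := hq g
    obtain ⟨i', hi'⟩ := hq s
    have h4 : g * s * g⁻¹ * s⁻¹ ∈ P := by
      rw [← QuotientGroup.eq_one_iff]
      simp only [QuotientGroup.mk_mul, QuotientGroup.mk_inv, hi, hi']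
      group
    simpa using (S : Subgroup I).mul_mem (hS h4) hs⟩
  have hz : IsPGroup p (Subgroup.zpowers g) := by
    rintro ⟨_, n, rfl⟩
    refine ⟨j, Subtype.ext ?_⟩
    simp only [SubmonoidClass.coe_pow, OneMemClass.coe_one]
    rw [← zpow_natCast, ← zpow_mul, mul_comm, zpow_mul, zpow_natCast, hg, one_zpow]
  obtain ⟨S', hS'⟩ := hz.exists_le_sylow
  have := Sylow.unique_of_normal S hN
  rw [Subsingleton.elim S' S] at hS'
  exact cent hm hU S.isPGroup' g (hS' (Subgroup.mem_zpowers g))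

omit [Fact p.Prime] [Finite I] in
lemma meet {U J : Subgroup I} [hn : U.Normal] (hm : MinN U)
    (hc : ∀ s ∈ U, ∀ u ∈ U, s * u = u * s) (hJ : ∀ g : I, ∃ a ∈ J, g * a⁻¹ ∈ U) (hne : J ≠ ⊤) :
    ∀ u ∈ U, u ∈ J → u = 1 := by
  have hN : (U ⊓ J).Normal := ⟨fun u hu g => by
    obtain ⟨a, ha, hg⟩ := hJ g
    have h1 := hn.conj_mem u hu.1 a
    have h2 : g * u * g⁻¹ = a * u * a⁻¹ := by
      calc g * u * g⁻¹ = g * a⁻¹ * (a * u * a⁻¹) * (g * a⁻¹)⁻¹ := by group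
        _ = a * u * a⁻¹ := by rw [hc _ hg _ h1]; group
    rw [h2]
    exact ⟨h1, J.mul_mem (J.mul_mem ha hu.2) (J.inv_mem ha)⟩⟩
  rcases hm.2 _ hN inf_le_left with h | h
  · intro u hu hu'
    exact Subgroup.mem_bot.1 (h ▸ (⟨hu, hu'⟩ : u ∈ U ⊓ J))
  · refine absurd (eq_top_iff.2 fun g _ => ?_) hne
    obtain ⟨a, ha, hg⟩ := hJ g
    rw [← h] at hg
    simpa using J.mul_mem hg.2 ha

end Grp

variable {p : ℕ} [Fact p.Prime] {k Ω : Type} [Field k] [Field Ω] [Algebra k Ω]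

lemma twist [CharP Ω p] {E : Type} [Group E] {r : ℕ} {V : Subgroup E}
    {e : (Fin r → ZMod p) → E} {a : E →* Matrix (Fin r) (Fin r) (ZMod p)} (hl : IsLin V e a)
    {Δ : Subgroup (Aut k Ω)} {ρ₀ : Aut k Ω → E} (h0 : IsRep Δ ρ₀) {y : Fin r → Ω}
    (hy : ∀ γ ∈ Δ, star (mat Ω a) (ρ₀ γ) γ (frob p r y - y) = frob p r y - y) :
    ∃ c : Aut k Ω → Fin r → ZMod p, IsRep Δ (fun γ => e (c γ) * ρ₀ γ) ∧
      ∀ γ ∈ Δ, emb Ω p r (c γ) = star (mat Ω a) (ρ₀ γ) γ y - y := by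
  classical
  have hA := mat_pr (Ω := Ω) a
  have hc : ∀ γ : Aut k Ω, γ ∈ Δ →
      ∃ u, emb Ω p r u = star (mat Ω a) (ρ₀ γ) γ y - y := fun γ hγ => by
    refine ex_emb ?_
    have h1 := hy γ hγ
    rw [map_sub, star_frob hA] at h1
    rw [map_sub]
    linear_combination h1
  choose! c hc using hc
  refine ⟨c, ⟨fun γ hγ δ hδ => ?_, ?_⟩, hc⟩
  · have h1 : c (γ * δ) = c γ + (a (ρ₀ γ)).mulVec (c δ) := by
      apply emb_inj (Ω := Ω)
      rw [map_add, ← star_emb a _ γ, hc _ (mul_mem hγ hδ), hc γ hγ, hc δ hδ, h0.mul γ hγ δ hδ,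
        ASM.star_mul hA, map_sub]
      abel
    rw [h1, hl.add, ← hl.conj, h0.mul γ hγ δ hδ]
    group
  · obtain ⟨S, hS⟩ := h0.cts
    refine ⟨S ∪ Finset.univ.image y, fun γ hγ δ hδ h => ?_⟩
    have h1 := hS γ hγ δ hδ fun s hs => h s (Finset.mem_union_left _ hs)
    have h2 : c γ = c δ := by
      apply emb_inj (Ω := Ω)
      rw [hc γ hγ, hc δ hδ, h1]
      congr 1
      funext i
      rw [star_apply, star_apply]
      refine Finset.sum_congr rfl fun j _ => ?_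
      rw [h _ (Finset.mem_union_right _ (Finset.mem_image_of_mem y (Finset.mem_univ j)))]
    beta_reduce
    rw [h1, h2]

omit [Fact p.Prime] in
lemma as_sep [CharP Ω p] {F : IntermediateField k Ω} {w : Ω} (h : w ^ p - w ∈ F) :
    IsSeparable F w := by
  have hp : (p : F) = 0 := (algebraMap F Ω).injective (by simp)
  have h1 : (X ^ p - X - C (⟨_, h⟩ : F) : F[X]).Separable := by
    rw [separable_def, derivative_sub, derivative_sub, derivative_X_pow, derivative_X,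
      derivative_C, hp, C_0, zero_mul, sub_zero, zero_sub]
    exact isCoprime_one_right.neg_right
  exact h1.of_dvd (minpoly.dvd F w (by simp))

lemma no_root [IsAlgClosed k] [CharP k p] [IsAlgClosed Ω] (hF : Found) {z : Ω} (hz : Co k z)
    {W : ValuationSubring Ω} (hW : IsPl k W) (hzW : z ∉ W) {c : k} (hc : c ≠ 0) {n n' : ℕ}
    (hn : n' < n) (hp : ¬ p ∣ n) {w : Ω} (hw : w ^ p - w = algebraMap k Ω c * (z ^ n - z ^ n'))
    (hf : ∀ γ ∈ Dec k z W, γ w = w) : False := by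
  have : CharP Ω p := charP_of_injective_algebraMap (algebraMap k Ω).injective p
  have h1 : 1 < W.valuation z := by
    rw [← W.valuation_le_one_iff] at hzW
    exact not_le.1 hzW
  have h2 : W.valuation (algebraMap k Ω c) = 1 :=
    le_antisymm ((W.valuation_le_one_iff _).2 (hW.2 c)) (not_lt.1 fun h => hc (val_const hW h))
  have h3 : W.valuation (w ^ p - w) = W.valuation z ^ n := by
    rw [hw, map_mul, h2, one_mul, Valuation.map_sub_eq_of_lt_left, map_pow]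
    rw [map_pow, map_pow]
    exact pow_lt_pow_right₀ h1 hn
  have h4 : 1 < W.valuation w := by
    by_contra h
    have h5 : w ∈ W := (W.valuation_le_one_iff _).1 (not_lt.1 h)
    have h6 := (W.valuation_le_one_iff _).2 (W.sub_mem (pow_mem h5 p) h5)
    rw [h3] at h6
    exact absurd (one_lt_pow₀ h1 (by omega)) (not_lt.2 h6)
  have h5 : W.valuation w < W.valuation (w ^ p) := by
    rw [map_pow]
    exact lt_self_pow₀ h4 (Fact.out : p.Prime).one_lt
  rw [Valuation.map_sub_eq_of_lt_left _ h5, map_pow] at h3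
  have hz' := mem_adjoin_simple_self k z
  obtain ⟨i, hi⟩ := hF.hens.hens p k Ω k⟮z⟯ hz.ff W hW z⁻¹ (hF.bas.unifInf k Ω z hz.tr W hW hzW) w
    (by rintro rfl; simp at h4)
    (as_sep (p := p) (hw ▸ mul_mem (IntermediateField.algebraMap_mem _ c) (sub_mem (pow_mem hz' n) (pow_mem hz' n'))))
    (by rwa [DecF_adjoin])
  rw [hi, map_inv₀, inv_zpow', ← zpow_natCast, ← zpow_natCast, ← zpow_mul] at h3
  have h6 := zpow_right_injective₀ (zero_lt_one.trans h1) h1.ne' h3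
  exact hp (Int.natCast_dvd_natCast.1 ⟨-i, by rw [← h6, mul_comm]⟩)

lemma eigen [IsAlgClosed k] {r : ℕ} (hr : r ≠ 0) (A : Matrix (Fin r) (Fin r) k) {M : ℕ}
    [NeZero M] (hA : A ^ M = 1) {ω : k} (hω : IsPrimitiveRoot ω M) :
    ∃ (v : Fin r → k) (j : ℕ), v ≠ 0 ∧ ∀ i : ℕ, (ω ^ i) ^ j • (A ^ i).mulVec v = v := by
  have : Nonempty (Fin r) := ⟨⟨0, Nat.pos_of_ne_zero hr⟩⟩
  obtain ⟨μ, hμ⟩ := Module.End.exists_eigenvalue (Matrix.toLin' A)
  obtain ⟨v, hv⟩ := hμ.exists_hasEigenvector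
  have h1 : ∀ i : ℕ, (A ^ i).mulVec v = μ ^ i • v := fun i => by
    rw [← hv.pow_apply, ← Matrix.toLin'_pow, Matrix.toLin'_apply]
  have h2 : μ ^ M = 1 := by
    have h3 := h1 M
    rw [hA, Matrix.one_mulVec] at h3
    exact smul_left_injective k hv.2 (h3.symm.trans (one_smul k v).symm)
  obtain ⟨j, -, hj⟩ := hω.eq_pow_of_pow_eq_one (ξ := μ⁻¹) (by rw [inv_pow, h2, inv_one])
  have h0 : μ ≠ 0 := by
    rintro rfl
    simp [NeZero.ne M] at h2
  refine ⟨v, j, hv.2, fun i => ?_⟩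
  rw [h1, smul_smul, ← pow_mul, mul_comm i, pow_mul, hj, ← mul_pow, inv_mul_cancel₀ h0, one_pow,
    one_smul]

lemma step [IsAlgClosed k] [CharP k p] [IsAlgClosed Ω] (hF : Found) (hL : StmtLin) {x : Ω}
    (hx : Co k x) {W : ValuationSubring Ω} (hW : IsPl k W) (hxW : x ∉ W) {I : Type} [Group I]
    [Finite I] {U P : Subgroup I} [U.Normal] (hm : MinN U) (hU : IsPGroup p U) (hP : CycP p ⊤ P)
    {ρ₀ : Aut k Ω → I} (h0 : IsRep (Dec k x W) ρ₀)
    (hs : ∀ g : I, ∃ γ ∈ Dec k x W, g * (ρ₀ γ)⁻¹ ∈ U) :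
    ∃ ρ : Aut k Ω → I, IsRep (Dec k x W) ρ ∧ (∀ γ ∈ Dec k x W, ρ γ * (ρ₀ γ)⁻¹ ∈ U) ∧
      ∀ g, ∃ γ ∈ Dec k x W, ρ γ = g := by
  classical
  have : CharP Ω p := charP_of_injective_algebraMap (algebraMap k Ω).injective p
  have hp : p.Prime := Fact.out
  have hc := cent hm hU hU
  obtain ⟨r, e, a, hl⟩ := hL p I U hc (expo hm hU)
  have hr : r ≠ 0 := by
    rintro rfl
    refine hm.1 (eq_bot_iff.2 fun u hu => ?_)
    obtain ⟨v, hv⟩ := (hl.range u).1 hu
    obtain ⟨v', hv'⟩ := (hl.range 1).1 U.one_mem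
    rw [← hv, Subsingleton.elim v v', hv']
    exact Subgroup.one_mem _
  obtain ⟨m, M, hM, hcard⟩ := Nat.exists_eq_pow_mul_and_not_dvd (Nat.card_pos (α := I)).ne' p hp.ne_one
  have hM0 : M ≠ 0 := by
    rintro rfl
    exact hM (dvd_zero p)
  have : NeZero M := ⟨hM0⟩
  obtain ⟨z, hz⟩ := IsAlgClosed.exists_pow_nat_eq x (Nat.pos_of_ne_zero hM0)
  have hzc := co_of_pow hF.bas hx hz
  have hzW : z ∉ W := fun h => hxW (hz ▸ pow_mem h M)
  have hun := hF.bas.unifInf k Ω x hx.tr W hW hxW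
  have hzi : z⁻¹ ^ M = x⁻¹ := by rw [inv_pow, hz]
  have triv : ∀ γ ∈ Dec k x W, γ z = z → a (ρ₀ γ) = 1 := fun γ hγ hγz => by
    obtain ⟨j, hj⟩ := hF.tame2 p k Ω k⟮x⟯ hx.ff W hW x⁻¹ hun I ρ₀ (by rwa [DecF_adjoin]) M hM
      (fun δ _ => ⟨m, by rw [mul_comm, ← hcard, pow_card_eq_one']⟩) z⁻¹ hzi γ
      (by rwa [DecF_adjoin]) (by rw [map_inv₀, hγz])
    refine Matrix.ext_iff_mulVec.2 fun u => hl.inj ?_
    rw [← hl.conj, Matrix.one_mulVec, pcent hm hU hP hj _ ((hl.range _).2 ⟨u, rfl⟩),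
      mul_inv_cancel_right]
  obtain ⟨ω, hω⟩ := exists_prim (k := k) (Ω := k) p hM
  have hω' : IsPrimitiveRoot (algebraMap k Ω ω) M := hω.map_of_injective (algebraMap k Ω).injective
  obtain ⟨γ₀, hγ₀, hγz⟩ := hF.tame1 p k Ω k⟮x⟯ hx.ff W hW x⁻¹ hun M hM z⁻¹ (algebraMap k Ω ω)⁻¹ hzi
    (by rw [inv_pow, hω'.pow_eq_one, inv_one])
  rw [DecF_adjoin] at hγ₀
  rw [map_inv₀, ← mul_inv, inv_inj] at hγz
  have hpow : ∀ i : ℕ, (γ₀ ^ i) z = algebraMap k Ω ω ^ i * z := fun i => by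
    induction i with
    | zero => simp
    | succ i ih => rw [pow_succ, AlgEquiv.mul_apply, hγz, map_mul, AlgEquiv.commutes, ih]; ring
  have hform : ∀ γ ∈ Dec k x W, ∃ i : ℕ, γ z = algebraMap k Ω ω ^ i * z ∧
      a (ρ₀ γ) = a (ρ₀ γ₀) ^ i := fun γ hγ => by
    obtain ⟨i, -, hi⟩ := hω'.eq_pow_of_pow_eq_one (kap_pow hz hx.ne_zero (Dec_le _ _ hγ))
    have h1 : γ z = algebraMap k Ω ω ^ i * z := by rw [hi, div_mul_cancel₀ _ hzc.ne_zero]
    refine ⟨i, h1, ?_⟩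
    have h2 := pow_mem hγ₀ i
    have h3 := triv ((γ₀ ^ i)⁻¹ * γ) (mul_mem (inv_mem h2) hγ) (by
      rw [AlgEquiv.mul_apply, h1, ← hpow]
      exact (γ₀ ^ i).symm_apply_apply z)
    rw [h0.mul _ (inv_mem h2) _ hγ, h0.inv h2, h0.pow hγ₀] at h3
    rw [← map_pow, ← mul_inv_cancel_left (ρ₀ γ₀ ^ i) (ρ₀ γ), map_mul, h3, mul_one]
  obtain ⟨v, j₀, hv0, hv⟩ := eigen hr (mat k a (ρ₀ γ₀)) (M := M) (by
    rw [← map_pow, ← h0.pow hγ₀]
    have h1 := triv _ (pow_mem hγ₀ M) (by rw [hpow, hω'.pow_eq_one, one_mul])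
    simp [mat, h1]) hω
  obtain ⟨j₁, hj₁, hj₂⟩ : ∃ j₁, ¬ p ∣ j₁ ∧ ∃ s, j₁ = j₀ + M * s := by
    by_cases h : p ∣ j₀
    · exact ⟨j₀ + M, fun h' => hM ((Nat.dvd_add_right h).1 h'), 1, by ring⟩
    · exact ⟨j₀, h, 0, by ring⟩
  obtain ⟨s, rfl⟩ := hj₂
  set n : ℕ → ℕ := fun j => j₀ + M * s + M * p * j with hn
  have hy : ∀ j, ∃ y : Fin r → Ω, frob p r y - y = z ^ n j • fun l => algebraMap k Ω (v l) :=
    fun j => by
      choose y hy using fun l => as_root (p := p) (z ^ n j * algebraMap k Ω (v l))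
      exact ⟨y, funext hy⟩
  choose y hy using hy
  have hfix : ∀ j, ∀ γ ∈ Dec k x W,
      star (mat Ω a) (ρ₀ γ) γ (frob p r (y j) - y j) = frob p r (y j) - y j := fun j γ hγ => by
    obtain ⟨i, h1, h2⟩ := hform γ hγ
    have h3 : (algebraMap k Ω ω ^ i) ^ n j = (algebraMap k Ω ω ^ i) ^ j₀ := by
      have h4 : (algebraMap k Ω ω ^ i) ^ M = 1 := by
        rw [← pow_mul, mul_comm, pow_mul, hω'.pow_eq_one, one_pow]
      simp only [hn, pow_add, pow_mul, h4, one_pow, mul_one]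
    rw [hy, ASM.star_smul, map_pow, h1, mul_pow, h3, mul_comm, mul_smul]
    congr 1
    funext l
    have h5 := congrArg (algebraMap k Ω) (congrFun (hv i) l)
    rw [← h5, Pi.smul_apply, Pi.smul_apply, smul_eq_mul, smul_eq_mul, map_mul, map_pow, map_pow,
      star_apply, Matrix.mulVec, dotProduct, map_sum]
    congr 1
    refine Finset.sum_congr rfl fun l' _ => ?_
    rw [map_mul, AlgEquiv.commutes, ← map_pow, mat_apply, mat_apply, h2, map_pow]
    congr 1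
    exact (RingHom.congr_fun (Subsingleton.elim ((algebraMap k Ω).comp (ZMod.castHom (dvd_refl p) k))
      (ZMod.castHom (dvd_refl p) Ω)) _).symm
  choose c hc1 hc2 using fun j => twist hl h0 (hfix j)
  have hin : ∀ j γ, e (c j γ) * ρ₀ γ * (ρ₀ γ)⁻¹ ∈ U := fun j γ => by
    rw [mul_inv_cancel_right]
    exact (hl.range _).2 ⟨_, rfl⟩
  by_contra hno
  have hne : ∀ j, (hc1 j).im ≠ ⊤ := fun j h =>
    hno ⟨_, hc1 j, fun γ _ => hin j γ, fun g => (hc1 j).mem_im.1 (h ▸ Subgroup.mem_top g)⟩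
  have key : ∀ j j', j' < j → (hc1 j).im = (hc1 j').im → False := fun j j' hlt h => by
    have h1 : ∀ γ ∈ Dec k x W, c j γ = c j' γ := fun γ hγ => by
      have h2 := meet hm hc (J := (hc1 j).im) (fun g => by
        obtain ⟨δ, hδ, hg⟩ := hs g
        refine ⟨_, (hc1 j).mem_im.2 ⟨δ, hδ, rfl⟩, ?_⟩
        simpa [mul_assoc] using U.mul_mem hg (U.inv_mem (hin j δ))) (hne j)
        (e (c j γ) * ρ₀ γ * (e (c j' γ) * ρ₀ γ)⁻¹)
        (by simpa [mul_assoc] using U.mul_mem (hin j γ) (U.inv_mem (hin j' γ)))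
        (mul_mem ((hc1 j).mem_im.2 ⟨γ, hγ, rfl⟩)
          (inv_mem (h ▸ (hc1 j').mem_im.2 ⟨γ, hγ, rfl⟩)))
      exact hl.inj (mul_right_cancel (mul_inv_eq_one.1 h2))
    obtain ⟨l, hl0⟩ := Function.ne_iff.1 hv0
    refine no_root (p := p) hF hzc hW hzW hl0 (n := n j) (n' := n j') ?_ ?_
      (w := y j l - y j' l) ?_ fun γ hγ => ?_
    · have := Nat.mul_pos (Nat.pos_of_ne_zero hM0) hp.pos
      simp only [hn]
      nlinarith
    · exact fun h' => hj₁ ((Nat.dvd_add_left ⟨M * j, by ring⟩).1 h')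
    · have h2 := congrFun (hy j) l
      have h3 := congrFun (hy j') l
      simp only [Pi.sub_apply, frob_apply, Pi.smul_apply, smul_eq_mul] at h2 h3
      rw [sub_pow_char]
      linear_combination h2 - h3
    · have hγ' := Dec_le_of_pow hz W hγ
      have h2 := congrFun (hc2 j γ hγ') l
      have h3 := congrFun (hc2 j' γ hγ') l
      have h4 : mat Ω a (ρ₀ γ) = 1 := by simp [mat, triv γ hγ' (mem_Dec.1 hγ).1]
      rw [h1 γ hγ', h3] at h2
      simp only [Pi.sub_apply, star_apply, h4, Matrix.one_apply, ite_mul, one_mul, zero_mul,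
        Finset.sum_ite_eq, Finset.mem_univ, if_true] at h2
      rw [map_sub]
      linear_combination -h2
  obtain ⟨j, j', hjj, h⟩ := Finite.exists_ne_map_eq_of_infinite fun j => (hc1 j).im
  rcases lt_or_gt_of_ne hjj with h' | h'
  · exact key j' j h' h.symm
  · exact key j j' h' h

end LocP

open LocP in
theorem blockLocP (hF : Found) (hL : StmtLin) (hA : StmtASW) : StmtLocP := by
  intro p _ k Ω _ _ _ _ _ _ x hx W hW hxW I I' _ _ _ π hπ hK P hP ρ' h' hs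
  induction hn : Nat.card π.ker using Nat.strong_induction_on generalizing I with
  | _ n ih =>
  by_cases h0 : π.ker = ⊥
  · let φ := MulEquiv.ofBijective π ⟨(MonoidHom.ker_eq_bot_iff π).1 h0, hπ⟩
    refine ⟨fun γ => φ.symm (ρ' γ), h'.comp φ.symm.toMonoidHom, fun γ _ => φ.apply_symm_apply _,
      fun g => ?_⟩
    obtain ⟨γ, hγ, e⟩ := hs (π g)
    exact ⟨γ, hγ, (congrArg φ.symm e).trans (φ.symm_apply_apply g)⟩
  obtain ⟨U, hUn, hUK, hm⟩ := ex_min (inferInstance : π.ker.Normal) h0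
  have hU : IsPGroup p U := hK.to_le hUK
  let q := QuotientGroup.mk' U
  have hq : Function.Surjective q := QuotientGroup.mk'_surjective U
  let π₁ : I ⧸ U →* I' := QuotientGroup.lift U π hUK
  have hk₁ : π₁.ker = π.ker.map q := QuotientGroup.ker_lift U π hUK
  have hlt : Nat.card π₁.ker < n := by
    have h1 := Subgroup.card_eq_card_quotient_mul_card_subgroup U
    have h2 := Subgroup.card_eq_card_quotient_mul_card_subgroup π.ker
    have h3 := Subgroup.card_eq_card_quotient_mul_card_subgroup π₁.ker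
    rw [Nat.card_congr (QuotientGroup.quotientKerEquivOfSurjective π hπ).toEquiv, hn] at h2
    rw [Nat.card_congr (QuotientGroup.quotientKerEquivOfSurjective π₁
      (QuotientGroup.lift_surjective_of_surjective U π hπ hUK)).toEquiv] at h3
    have h4 : 1 < Nat.card U := (Subgroup.one_lt_card_iff_ne_bot U).2 hm.1
    have h5 : 0 < Nat.card (I ⧸ U) := Nat.card_pos
    rw [h3] at h1 h5
    have h6 : Nat.card I' * Nat.card π₁.ker < Nat.card I' * n := by nlinarith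
    exact lt_of_mul_lt_mul_left h6 (Nat.zero_le _)
  obtain ⟨ρ₁, r1, l1, s1⟩ := ih _ hlt (I ⧸ U) π₁
    (QuotientGroup.lift_surjective_of_surjective U π hπ hUK) (hk₁ ▸ hK.map q) (P.map q) (by
      obtain ⟨-, h1, h2, c, -, h3⟩ := hP
      refine ⟨le_top, h1.map q, fun g _ a ha => ?_, q c, trivial, fun g _ => ?_⟩
      · obtain ⟨g, rfl⟩ := hq g
        obtain ⟨a, ha, rfl⟩ := ha
        exact ⟨_, h2 g trivial a ha, by simp⟩
      · obtain ⟨g, rfl⟩ := hq g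
        obtain ⟨i, hi⟩ := h3 g trivial
        exact ⟨i, _, hi, by simp⟩) rfl
  have hker : q.ker = U := QuotientGroup.ker_mk' U
  obtain ⟨t, -, ht2, ht3⟩ := hF.fld.tr p k Ω x hx _ (Dec_le x W) (I ⧸ U) ρ₁ r1
  obtain ⟨ρ₀, r0, l0, -⟩ := hA p k Ω x hx _ (Dec_le x W) I (I ⧸ U) q hq
    (hker.symm ▸ cent hm hU hU) (hker.symm ▸ expo hm hU) ρ₁ r1 t ht2 ht3
  obtain ⟨ρ, r, l, s⟩ := step hF hL hx hW hxW hm hU hP r0 fun g => by
    obtain ⟨γ, hγ, e⟩ := s1 (q g)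
    refine ⟨γ, hγ, ?_⟩
    rw [← hker, MonoidHom.mem_ker, map_mul, map_inv, l0 γ hγ, e, mul_inv_cancel]
  refine ⟨ρ, r, fun γ hγ => ?_, s⟩
  have h1 : π (ρ γ * (ρ₀ γ)⁻¹) = 1 := hUK (l γ hγ)
  rw [map_mul, map_inv, mul_inv_eq_one] at h1
  rw [h1, ← l1 γ hγ, ← l0 γ hγ]
  rfl

end Pool.Agent.Lib.IW
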