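import Pool.Agent.Lib.IW.Util

/-! Block Noe: the irreducibility theorem of Bertini and Noether. -/

open Polynomial IntermediateField
open scoped Pointwise

namespace Pool.Agent.Lib.IW

namespace Noe

variable {A B : Type} [CommRing A] [CommRing B]

lemma swap_coeff (p : A[X][X]) (i j : ℕ) :
    ((Bivariate.swap p).coeff j).coeff i = (p.coeff i).coeff j := by
  induction p using Polynomial.induction_on' with
  | add p q hp hq => simp only [map_add, coeff_add, hp, hq]
  | monomial n f =>
    induction f using Polynomial.induction_on' with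
    | add p q hp hq => simp only [map_add, coeff_add, hp, hq]
    | monomial m r =>
      rw [Bivariate.swap_monomial_monomial]
      simp only [coeff_monomial]
      split_ifs <;> simp_all [coeff_monomial]

lemma bound_iff (p : A[X][X]) (D : ℕ) :
    (∀ i, (p.coeff i).natDegree ≤ D) ↔ (Bivariate.swap p).natDegree ≤ D := by
  simp only [natDegree_le_iff_coeff_eq_zero]
  constructor
  · intro h j hj
    ext i
    rw [swap_coeff, h i j hj, coeff_zero]
  · intro h i j hj
    rw [← swap_coeff, h j hj, coeff_zero]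

lemma bound_dvd [IsDomain A] {G F : A[X][X]} (h : G ∣ F) (hF : F ≠ 0) {D : ℕ}
    (hD : ∀ i, (F.coeff i).natDegree ≤ D) : ∀ i, (G.coeff i).natDegree ≤ D :=
  (bound_iff G D).2 ((natDegree_le_of_dvd (map_dvd Bivariate.swap h)
    ((map_ne_zero_iff _ Bivariate.swap.injective).2 hF)).trans ((bound_iff F D).1 hD))

/-- The monic polynomial with given coefficients. -/
noncomputable def U (N m : ℕ) (u : ℕ → ℕ → A) : A[X][X] :=
  X ^ m + ∑ i ∈ Finset.range m, monomial i (∑ j ∈ Finset.range N, monomial j (u i j))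

lemma U_map (ψ : A →+* B) (N m : ℕ) (u : ℕ → ℕ → A) :
    (U N m u).map (mapRingHom ψ) = U N m fun i j => ψ (u i j) := by
  simp [U, Polynomial.map_sum]

lemma U_lt (N m : ℕ) (u : ℕ → ℕ → A) :
    (∑ i ∈ Finset.range m, monomial i (∑ j ∈ Finset.range N, monomial j (u i j))).degree < m := by
  refine lt_of_le_of_lt (degree_sum_le _ _) ((Finset.sup_lt_iff (WithBot.bot_lt_coe _)).2 ?_)
  intro i hi
  exact lt_of_le_of_lt (degree_monomial_le _ _) (by exact_mod_cast Finset.mem_range.1 hi)

lemma U_monic (N m : ℕ) (u : ℕ → ℕ → A) : (U N m u).Monic := monic_X_pow_add (U_lt N m u)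

lemma U_natDegree [Nontrivial A] (N m : ℕ) (u : ℕ → ℕ → A) : (U N m u).natDegree = m := by
  refine natDegree_eq_of_degree_eq_some ?_
  rw [U, degree_add_eq_left_of_degree_lt, degree_X_pow]
  rw [degree_X_pow]
  exact U_lt N m u

lemma U_eq {G : A[X][X]} (hG : G.Monic) {N : ℕ} (h : ∀ i, (G.coeff i).natDegree < N)
    {u : ℕ → ℕ → A} (hu : ∀ i < G.natDegree, ∀ j < N, u i j = (G.coeff i).coeff j) :
    U N G.natDegree u = G := by
  conv_rhs => rw [hG.as_sum]
  rw [U]
  congr 1
  refine Finset.sum_congr rfl fun i hi => ?_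
  rw [C_mul_X_pow_eq_monomial]
  congr 1
  conv_rhs => rw [as_sum_range' _ N (h i)]
  exact Finset.sum_congr rfl fun j hj => by
    rw [hu i (Finset.mem_range.1 hi) j (Finset.mem_range.1 hj)]

/-- The variables. -/
abbrev V (N : ℕ) : Type := Bool × Fin (N + 1) × Fin (N + 1)

/-- The variable attached to a coefficient. -/
def ix (N : ℕ) (b : Bool) (i j : ℕ) : V N := (b, Fin.ofNat (N + 1) i, Fin.ofNat (N + 1) j)

/-- The equations of a factorisation. -/
noncomputable def eqn (N d e : ℕ) (g : A[X][X]) (ij : ℕ × ℕ) : MvPolynomial (V N) A :=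
  ((U N d (fun i j => MvPolynomial.X (ix N true i j)) *
    U N e (fun i j => MvPolynomial.X (ix N false i j)) -
      g.map (mapRingHom MvPolynomial.C)).coeff ij.1).coeff ij.2

lemma eqn_hom {N : ℕ} (Ψ : MvPolynomial (V N) A →+* B) (d e : ℕ) (g : A[X][X]) (ij : ℕ × ℕ) :
    Ψ (eqn N d e g ij) = ((U N d (fun i j => Ψ (MvPolynomial.X (ix N true i j))) *
      U N e (fun i j => Ψ (MvPolynomial.X (ix N false i j))) -
        g.map (mapRingHom (Ψ.comp MvPolynomial.C))).coeff ij.1).coeff ij.2 := by
  rw [← U_map, ← U_map, ← mapRingHom_comp, ← Polynomial.map_map, ← Polynomial.map_mul,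
    ← Polynomial.map_sub, coeff_map, coe_mapRingHom, coeff_map, eqn]

lemma eqn_map {N : ℕ} (ψ : A →+* B) (d e : ℕ) (g : A[X][X]) (ij : ℕ × ℕ) :
    MvPolynomial.map ψ (eqn N d e g ij) = eqn N d e (g.map (mapRingHom ψ)) ij := by
  rw [eqn_hom, eqn, Polynomial.map_map, mapRingHom_comp]
  simp only [MvPolynomial.map_X]
  congr 5
  ext1 a
  simp

lemma cert {𝕜 : Type} [Field 𝕜] [IsAlgClosed 𝕜] {f : 𝕜[X][X]} (hf : f.Monic)
    (hi : Irreducible f) (N d e : ℕ) : ∃ c : ℕ × ℕ →₀ MvPolynomial (V N) 𝕜,
      0 < d → 0 < e → (c.sum fun ij q => q * eqn N d e f ij) = 1 := by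
  by_cases h : 0 < d ∧ 0 < e
  · have h1 : Ideal.span (Set.range (eqn N d e f)) = ⊤ := by
      by_contra h1
      obtain ⟨M, hM, hle⟩ := Ideal.exists_le_maximal _ h1
      obtain ⟨a, rfl⟩ := MvPolynomial.isMaximal_iff_eq_vanishingIdeal_singleton.1 hM
      have h2 : ∀ ij, MvPolynomial.eval a (eqn N d e f ij) = 0 := fun ij => by
        have h3 := hle (Ideal.subset_span ⟨ij, rfl⟩)
        rw [MvPolynomial.mem_vanishingIdeal_singleton_iff] at h3
        exact h3
      have h4 : (MvPolynomial.eval a).comp MvPolynomial.C = RingHom.id 𝕜 := by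
        ext1 a
        simp
      simp only [eqn_hom, h4, mapRingHom_id, Polynomial.map_id] at h2
      have h5 := (hf.irreducible_iff_natDegree.1 hi).2 _ _ (U_monic _ _ _) (U_monic _ _ _)
        (sub_eq_zero.1 (Polynomial.ext fun i => Polynomial.ext fun j => h2 (i, j)))
      rw [U_natDegree, U_natDegree] at h5
      omega
    obtain ⟨c, hc⟩ := Finsupp.mem_ideal_span_range_iff_exists_finsupp.1
      ((Ideal.eq_top_iff_one _).1 h1)
    exact ⟨c, fun _ _ => hc⟩
  · exact ⟨0, fun h1 h2 => absurd ⟨h1, h2⟩ h⟩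

end Noe

open Noe in
theorem blockNoe : StmtNoe := by
  intro 𝕜 _ _ f hf hi
  classical
  obtain ⟨N, hN1, hN2⟩ : ∃ N, f.natDegree < N ∧ ∀ i, (f.coeff i).natDegree < N :=
    ⟨f.natDegree + (Bivariate.swap f).natDegree + 1, by omega, fun i => by
      have := (bound_iff f _).2 le_rfl i
      omega⟩
  choose c hc using cert hf hi N
  refine ⟨(Finset.range N ×ˢ Finset.range N).biUnion fun de => (c de.1 de.2).support.biUnion
    fun ij => (c de.1 de.2 ij).coeffs, fun a ha => ?_, fun R k _ φ g hT hg => ?_⟩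
  · simp only [Finset.mem_biUnion] at ha
    obtain ⟨de, -, ij, -, h⟩ := ha
    rintro rfl
    exact MvPolynomial.zero_notMem_coeffs _ h
  have hinj : Function.Injective (mapRingHom R.subtype) := map_injective _ R.subtype_injective
  have hgm : g.Monic := monic_of_injective hinj (hg ▸ hf)
  have hF : (g.map (mapRingHom φ)).Monic := hgm.map _
  have hdeg : (g.map (mapRingHom φ)).natDegree = f.natDegree := by
    rw [hgm.natDegree_map, ← hg, hgm.natDegree_map]
  have hb : ∀ i, ((g.map (mapRingHom φ)).coeff i).natDegree ≤ N - 1 := fun i => by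
    have h1 := hN2 i
    rw [← hg, coeff_map, coe_mapRingHom, natDegree_map_eq_of_injective R.subtype_injective] at h1
    rw [coeff_map, coe_mapRingHom]
    exact natDegree_map_le.trans (by omega)
  refine hF.irreducible_iff_natDegree.2 ⟨fun h => ?_, fun G H hG hH hGH => ?_⟩
  · rw [h, natDegree_one] at hdeg
    exact hi.not_isUnit ((hf.natDegree_eq_zero.1 hdeg.symm) ▸ isUnit_one)
  by_contra hne
  have hsum : G.natDegree + H.natDegree = f.natDegree := by
    rw [← hG.natDegree_mul hH, hGH, hdeg]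
  have hGb := bound_dvd (Dvd.intro _ hGH) hF.ne_zero hb
  have hHb := bound_dvd (Dvd.intro_left _ hGH) hF.ne_zero hb
  have h1 := hc G.natDegree H.natDegree (by omega) (by omega)
  have h2 : ∀ ij ∈ (c G.natDegree H.natDegree).support, ∃ q : MvPolynomial (V N) R,
      MvPolynomial.map R.subtype q = c G.natDegree H.natDegree ij := fun ij hij => by
    refine MvPolynomial.mem_range_map_iff_coeffs_subset.2 fun a ha => ⟨⟨a, (hT a ?_).1⟩, rfl⟩
    simp only [Finset.mem_biUnion]
    refine ⟨(G.natDegree, H.natDegree), ?_, ij, hij, ha⟩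
    simp only [Finset.mem_product, Finset.mem_range]
    omega
  choose! q hq using h2
  have h3 : ∑ ij ∈ (c G.natDegree H.natDegree).support,
      q ij * eqn N G.natDegree H.natDegree g ij = 1 := by
    apply MvPolynomial.map_injective _ R.subtype_injective
    rw [map_one, ← h1, map_sum, Finsupp.sum]
    refine Finset.sum_congr rfl fun ij hij => ?_
    rw [map_mul, hq ij hij, eqn_map, hg]
  let a : V N → k := fun v => ((if v.1 then G else H).coeff v.2.1).coeff v.2.2
  have h4 := congrArg (MvPolynomial.eval₂Hom φ a) h3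
  have h5 : (MvPolynomial.eval₂Hom φ a).comp MvPolynomial.C = φ := by
    ext1 a
    simp
  have h6 : ∀ ij, MvPolynomial.eval₂Hom φ a (eqn N G.natDegree H.natDegree g ij) = 0 := by
    intro ij
    rw [eqn_hom, h5, U_eq hG (fun i => lt_of_le_of_lt (hGb i) (by omega)),
      U_eq hH (fun i => lt_of_le_of_lt (hHb i) (by omega)), hGH, sub_self, coeff_zero, coeff_zero]
    · intro i hi j hj
      simp [a, ix, Nat.mod_eq_of_lt (show i < N + 1 by omega),
        Nat.mod_eq_of_lt (show j < N + 1 by omega)]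
    · intro i hi j hj
      simp [a, ix, Nat.mod_eq_of_lt (show i < N + 1 by omega),
        Nat.mod_eq_of_lt (show j < N + 1 by omega)]
  simp [map_sum, map_mul, h6] at h4

end Pool.Agent.Lib.IW
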