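import Pool.Agent.Lib.IW.Util

/-! Separating coordinates and the order of a norm. -/

open Polynomial IntermediateField IsDedekindDomain

namespace Pool.Agent.Lib.IW

open Pool.Agent.Lib.MP_e06174_ag Pool.Agent.Lib.MP_ba4752_ag Place

namespace Norm

section sep

variable {k L : Type} [Field k] [Field L] [Algebra k L]

lemma adjoin_pow_top [IsAlgClosed k] {p : ℕ} [Fact p.Prime] [CharP L p] {x : L}
    (h : SepCoord k x) : (frobenius L p).fieldRange⟮x⟯ = ⊤ := by
  have hp : p.Prime := Fact.out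
  have := h.sep
  have : ExpChar L p := ExpChar.prime hp
  have : ExpChar k⟮x⟯ p := (algebraMap k⟮x⟯ L).expChar (algebraMap k⟮x⟯ L).injective p
  have h1 : ∀ z : L, z ^ p ∈ (frobenius L p).fieldRange⟮x⟯ := fun z =>
    IntermediateField.algebraMap_mem _ (⟨z ^ p, z, rfl⟩ : (frobenius L p).fieldRange)
  have h2 : ∀ z ∈ k⟮x⟯, z ∈ (frobenius L p).fieldRange⟮x⟯ := fun z hz => by
    induction hz using IntermediateField.adjoin_induction with
    | mem y hy => rw [Set.mem_singleton_iff.1 hy]; exact mem_adjoin_simple_self _ x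
    | algebraMap c =>
      obtain ⟨d, rfl⟩ := IsAlgClosed.exists_pow_nat_eq c hp.pos
      rw [map_pow]
      exact h1 _
    | add a b _ _ ha hb => exact add_mem ha hb
    | inv a _ ha => exact inv_mem ha
    | mul a b _ _ ha hb => exact mul_mem ha hb
  refine eq_top_iff.2 fun y _ => ?_
  have h3 : y ∈ k⟮x⟯⟮y ^ p⟯ := by
    rw [← adjoin_simple_eq_adjoin_pow_expChar_of_isSeparable' k⟮x⟯ L y p]
    exact mem_adjoin_simple_self _ y
  generalize y ^ p = u, h1 y = hu at h3
  induction h3 using IntermediateField.adjoin_induction with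
  | mem y hy => rw [Set.mem_singleton_iff.1 hy]; exact hu
  | algebraMap c => exact h2 _ c.2
  | add a b _ _ ha hb => exact add_mem (ha trivial) (hb trivial)
  | inv a _ ha => exact inv_mem (ha trivial)
  | mul a b _ _ ha hb => exact mul_mem (ha trivial) (hb trivial)

lemma adjoin_pow_top' {p : ℕ} [Fact p.Prime] [CharP L p] {x x' : L}
    (h : (frobenius L p).fieldRange⟮x⟯ = ⊤) (h' : ∀ z : L, z ^ p ≠ x') :
    (frobenius L p).fieldRange⟮x'⟯ = ⊤ := by
  have hp : p.Prime := Fact.out
  set P := (frobenius L p).fieldRange with hP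
  have h1 : ∀ z : L, aeval z (X ^ p - C (⟨z ^ p, z, rfl⟩ : P)) = 0 := fun z => by
    rw [map_sub, map_pow, aeval_X, aeval_C]
    exact sub_self _
  have h2 : ∀ z : L, IsIntegral P z := fun z => ⟨_, monic_X_pow_sub_C _ hp.ne_zero, h1 z⟩
  have h3 : Module.finrank P P⟮x⟯ ≤ p := by
    rw [adjoin.finrank (h2 x)]
    exact (natDegree_le_of_dvd (minpoly.dvd P x (h1 x))
      (monic_X_pow_sub_C _ hp.ne_zero).ne_zero).trans_eq natDegree_X_pow_sub_C
  have h4 : Module.finrank P P⟮x'⟯ = p := by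
    rw [adjoin.finrank (h2 x'), ← minpoly.eq_of_irreducible_of_monic
      (X_pow_sub_C_irreducible_of_prime hp ?_) (h1 x') (monic_X_pow_sub_C _ hp.ne_zero),
      natDegree_X_pow_sub_C]
    rintro ⟨_, z, rfl⟩ hb
    refine h' z (frobenius_inj L p ?_)
    exact congrArg Subtype.val hb
  have := adjoin.finiteDimensional (h2 x)
  rw [← h]
  exact eq_of_le_of_finrank_le (h ▸ le_top) (h4 ▸ h3)

lemma sepx [IsAlgClosed k] {x x' : L} (h : SepCoord k x) (v : Place k L) (hv : v.ord x' = 1) :
    SepCoord k x' := by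
  have h1 : IsCoord k x' := h.toIsCoord.of_transcendental
    (transcendental_of_ne_const fun c hc => by simp [hc] at hv)
  refine ⟨h1, ?_⟩
  have := h1.fin
  obtain ⟨p, hp⟩ := ExpChar.exists L
  cases hp with
  | zero => infer_instance
  | prime hp =>
    have : Fact p.Prime := ⟨hp⟩
    have h2 := adjoin_pow_top' (x' := x') (adjoin_pow_top (p := p) h) fun z hz => by
      rw [← hz, ord_pow] at hv
      have := Int.eq_one_of_mul_eq_one_right (by positivity) hv
      exact hp.ne_one (by exact_mod_cast this)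
    have h3 : ∀ y ∈ (frobenius L p).fieldRange⟮x'⟯, KaehlerDifferential.D k⟮x'⟯ L y = 0 := by
      intro y hy
      induction hy using IntermediateField.adjoin_induction with
      | mem y hy =>
        rw [Set.mem_singleton_iff.1 hy]
        exact (KaehlerDifferential.D k⟮x'⟯ L).map_algebraMap ⟨x', mem_adjoin_simple_self k x'⟩
      | algebraMap c =>
        obtain ⟨_, z, rfl⟩ := c
        change KaehlerDifferential.D k⟮x'⟯ L (z ^ p) = 0
        rw [Derivation.leibniz_pow, ← Nat.cast_smul_eq_nsmul L, CharP.cast_eq_zero, zero_smul]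
      | add a b _ _ ha hb => rw [map_add, ha, hb, add_zero]
      | inv a _ ha => rw [Derivation.leibniz_inv, ha, smul_zero]
      | mul a b _ _ ha hb => rw [Derivation.leibniz, ha, hb, smul_zero, smul_zero, add_zero]
    have : Algebra.FormallyUnramified k⟮x'⟯ L := by
      refine ⟨subsingleton_of_forall_eq 0 fun ω => ?_⟩
      have h4 : ω ∈ Submodule.span L (Set.range (KaehlerDifferential.D k⟮x'⟯ L)) := by
        rw [KaehlerDifferential.span_range_derivation]; trivial
      refine (Submodule.span_le (p := ⊥)).2 ?_ h4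
      rintro _ ⟨y, rfl⟩
      exact h3 y (h2 ▸ trivial)
    exact Algebra.FormallyUnramified.isSeparable _ _

end sep

lemma exists_ords {k F : Type} [Field k] [Field F] [Algebra k F] (U : Finset (Place k F))
    (n : Place k F → ℤ) : ∃ y : F, y ≠ 0 ∧ ∀ w ∈ U, w.ord y = n w := by
  classical
  rcases U.eq_empty_or_nonempty with rfl | ⟨w₀, hw₀⟩
  · exact ⟨1, one_ne_zero, by simp⟩
  obtain ⟨N, hN⟩ := (U.image n).bddAbove
  choose a h0 h1 h2 using fun w => approx w U (n w) (N + 1)
  have key : ∀ w ∈ U, ∑ q ∈ U, a q ≠ 0 ∧ w.ord (∑ q ∈ U, a q) = n w := fun w hw => by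
    rw [← Finset.add_sum_erase U a hw, ← h1 w]
    refine ord_add_of_ge (h0 w) (Ge.sum fun q hq => ge_of_le ?_)
    have h3 := h2 q w hw (Finset.ne_of_mem_erase hq).symm
    have h4 : n w ≤ N := hN (by simpa using ⟨w, hw, rfl⟩)
    rw [h1]
    omega
  exact ⟨_, (key w₀ hw₀).1, fun w hw => (key w hw).2⟩

section norm

variable {k K F : Type} [Field k] [Field K] [Field F] [Algebra k K] [Algebra k F]
  [Algebra K F] [IsScalarTower k K F] [FiniteDimensional K F] [Algebra.IsSeparable K F]
  {v : Place k K}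

lemma finrank_le (hres : ∀ (w : Place k F) (y : F), w.Ge 0 y → ∃ c, w.At y c)
    (U : Finset (Place k F)) (e : Place k F → ℕ)
    (hU : ∀ w f, w.Over (IsScalarTower.toAlgHom k K F) v f → w ∈ U ∧ f = e w) :
    Module.finrank K F ≤ ∑ w ∈ U, e w := by
  classical
  let p := IsLocalRing.maximalIdeal v.O
  have : Fintype (p.primesOver (S F v)) := (Algebra.QuasiFinite.finite_primesOver p).fintype
  have h1 := Ideal.sum_ramification_inertia_eq_finrank p (S F v)
  have h2 : Module.finrank v.O (S F v) = Module.finrank K F :=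
    IsIntegralClosure.rank v.O K F (S F v)
  let P : p.primesOver (S F v) → HeightOneSpectrum (S F v) := fun q => ⟨q.1, q.2.1,
    have := q.2.2
    Ideal.ne_bot_of_liesOver_of_ne_bot (IsDiscreteValuationRing.not_a_field v.O) q.1⟩
  let f : p.primesOver (S F v) → Place k F := fun q => ofPrime (const_mem_S F v) (P q)
  have hf : Function.Injective f := fun a b hab =>
    Subtype.ext (congrArg HeightOneSpectrum.asIdeal (ofPrime_injective _ hab))
  have h3 : ∀ q : p.primesOver (S F v), q.1.inertiaDeg v.O = 1 := fun q => by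
    have := q.2.2
    have : q.1.IsMaximal := (P q).isMaximal
    rw [Ideal.inertiaDeg_eq_of_isMaximal p q.1]
    refine Module.finrank_of_bijective_algebraMap ⟨FaithfulSMul.algebraMap_injective _ _, ?_⟩
    intro z
    obtain ⟨s, rfl⟩ := Ideal.Quotient.mk_surjective z
    obtain ⟨c, hc⟩ := hres (f q) _ (ofPrime_ge_zero _ (P q) s)
    obtain ⟨r, hr⟩ := v.const_mem_O c
    refine ⟨Ideal.Quotient.mk p r, ?_⟩
    change Ideal.Quotient.mk q.1 (algebraMap v.O (S F v) r) = _
    rw [eq_comm, Ideal.Quotient.eq]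
    refine (ofPrime_ge_one_iff (const_mem_S F v) (P q) _).1 ?_
    rw [map_sub, ← IsScalarTower.algebraMap_apply, IsScalarTower.algebraMap_apply v.O K F, hr,
      ← IsScalarTower.algebraMap_apply]
    exact hc
  rw [← h2, ← h1]
  calc _ = ∑ q : p.primesOver (S F v), e (f q) := Finset.sum_congr rfl fun q _ => by
        rw [h3, mul_one]
        exact (hU _ _ (ofPrime_over F v (P q))).2
    _ = ∑ w ∈ Finset.univ.map ⟨f, hf⟩, e w := by rw [Finset.sum_map]; rfl
    _ ≤ _ := Finset.sum_le_sum_of_subset fun w hw => by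
        obtain ⟨q, -, rfl⟩ := Finset.mem_map.1 hw
        exact (hU _ _ (ofPrime_over F v (P q))).1

lemma norm_ge {y : F}
    (h : ∀ (w : Place k F) (e : ℕ), w.Over (IsScalarTower.toAlgHom k K F) v e → w.Ge 0 y) :
    v.Ge 0 (Algebra.norm K y) ∧ ∀ (w : Place k F) (e : ℕ),
      w.Over (IsScalarTower.toAlgHom k K F) v e → w.Ge 1 y → v.Ge 1 (Algebra.norm K y) := by
  let s : S F v := ⟨y, isIntegral_of_forall_over h⟩
  have h1 : algebraMap v.O K (Algebra.intNorm v.O (S F v) s) = Algebra.norm K y :=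
    Algebra.algebraMap_intNorm (L := F) s
  refine ⟨h1 ▸ mem_O.1 (Algebra.intNorm v.O (S F v) s).2, fun w e hw hy => ?_⟩
  obtain ⟨t, ht⟩ := Algebra.dvd_algebraMap_intNorm_self v.O (S F v) s
  have h2 := congrArg (algebraMap (S F v) F) ht
  rw [← IsScalarTower.algebraMap_apply, IsScalarTower.algebraMap_apply v.O K F, h1, map_mul] at h2
  refine (hw.ge_one_iff _).1 ?_
  change w.Ge 1 (algebraMap K F _)
  rw [h2]
  exact hy.mul' (ge_zero_of_isIntegral (R := v.O) w
    (fun a => (hw.ge_zero_iff a).2 (mem_O.1 a.2)) t.2) le_rfl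

lemma norm_unit {y : F} (hy : y ≠ 0)
    (h : ∀ (w : Place k F) (e : ℕ), w.Over (IsScalarTower.toAlgHom k K F) v e → w.ord y = 0) :
    v.ord (Algebra.norm K y) = 0 := by
  have h1 := (norm_ge (v := v) (y := y) fun w e hw => ge_of_le (h w e hw).ge).1.le
    (Algebra.norm_ne_zero_iff.2 hy)
  have h2 := (norm_ge (v := v) (y := y⁻¹) fun w e hw => ge_of_le (by simp [h w e hw])).1.le
    (Algebra.norm_ne_zero_iff.2 (inv_ne_zero hy))
  rw [Algebra.norm_inv, ord_inv] at h2
  omega

lemma ord_norm (hres : ∀ (w : Place k F) (y : F), w.Ge 0 y → ∃ c, w.At y c) {y : F} (hy : y ≠ 0)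
    (T : Finset (Place k F)) (hT : ∀ w ∈ T, ∃ e, w.Over (IsScalarTower.toAlgHom k K F) v e)
    (hT' : ∀ (w : Place k F) (e : ℕ), w.Over (IsScalarTower.toAlgHom k K F) v e → w ∉ T →
      w.ord y = 0) : v.ord (Algebra.norm K y) = ∑ w ∈ T, w.ord y := by
  classical
  let U := (finite_over F v).toFinset
  have hU : ∀ w, w ∈ U ↔ ∃ e, w.Over (IsScalarTower.toAlgHom k K F) v e := fun w =>
    (finite_over F v).mem_toFinset
  have h1 : ∀ w : Place k F, ∃ e, w ∈ U → w.Over (IsScalarTower.toAlgHom k K F) v e := fun w => by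
    by_cases hw : w ∈ U
    · exact ((hU w).1 hw).imp fun e he _ => he
    · exact ⟨0, fun h => (hw h).elim⟩
  choose e he using h1
  choose π h0 hπ using fun w => exists_ords U fun q => if q = w then 1 else 0
  have hN : ∀ {z : F}, z ≠ 0 → Algebra.norm K z ≠ 0 := fun hz => Algebra.norm_ne_zero_iff.2 hz
  have key : ∀ z : F, z ≠ 0 →
      v.ord (Algebra.norm K z) = ∑ w ∈ U, w.ord z * v.ord (Algebra.norm K (π w)) := by
    intro z hz
    have a1 : ∀ w ∈ U, π w ^ w.ord z ≠ 0 := fun w _ => zpow_ne_zero _ (h0 w)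
    have a2 : ∏ w ∈ U, π w ^ w.ord z ≠ 0 := Finset.prod_ne_zero_iff.2 a1
    have a3 := norm_unit (v := v) (div_ne_zero hz a2) fun q f hq => by
      have hq' := (hU q).2 ⟨f, hq⟩
      rw [q.ord_div hz a2, q.ord_prod _ _ a1, sub_eq_zero, Finset.sum_eq_single_of_mem q hq']
      · rw [ord_zpow, hπ q q hq', if_pos rfl, mul_one]
      · intro w _ hw
        rw [ord_zpow, hπ w q hq', if_neg hw.symm, mul_zero]
    rw [div_eq_mul_inv, map_mul, Algebra.norm_inv, v.ord_mul (hN hz) (inv_ne_zero (hN a2)),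
      ord_inv, map_prod, v.ord_prod _ _ fun w hw => hN (a1 w hw), add_neg_eq_zero] at a3
    rw [a3]
    exact Finset.sum_congr rfl fun w _ => by rw [Algebra.norm_zpow, ord_zpow]
  have h2 : ∀ w ∈ U, 1 ≤ v.ord (Algebra.norm K (π w)) := fun w hw =>
    ((norm_ge (v := v) (y := π w) fun q f hq => ge_of_le (by
      rw [hπ w q ((hU q).2 ⟨f, hq⟩)]
      split_ifs <;> norm_num)).2 w _ (he w hw) (ge_of_le (by simp [hπ w w hw]))).le (hN (h0 w))
  have h3 : ∀ w ∈ U, v.ord (Algebra.norm K (π w)) = 1 := by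
    obtain ⟨ϖ, b0, b1⟩ := v.exists_ord_eq_one
    have b2 := key (algebraMap K F ϖ) (by simpa using b0)
    rw [Algebra.norm_algebraMap, ord_pow, b1, mul_one] at b2
    have b3 := finrank_le hres U e fun w f hw =>
      ⟨(hU w).2 ⟨f, hw⟩, (hw.unique (he w ((hU w).2 ⟨f, hw⟩))).2⟩
    have b4 : ∀ w ∈ U, w.ord (algebraMap K F ϖ) = e w := fun w hw => by
      have := (he w hw).2 ϖ
      rwa [b1, mul_one] at this
    rw [Finset.sum_congr rfl fun w hw => by rw [b4 w hw]] at b2
    have b5 : ∀ w ∈ U, (e w : ℤ) ≤ e w * v.ord (Algebra.norm K (π w)) := fun w hw =>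
      le_mul_of_one_le_right (by positivity) (h2 w hw)
    have b6 := (Finset.sum_eq_sum_iff_of_le b5).1 (le_antisymm (Finset.sum_le_sum b5) (by
      rw [← b2]; exact_mod_cast b3))
    intro w hw
    have b7 : (e w : ℤ) ≠ 0 := by have := (he w hw).1; omega
    exact (mul_left_cancel₀ b7 ((mul_one _).trans (b6 w hw))).symm
  rw [key y hy, Finset.sum_congr rfl fun w hw => by rw [h3 w hw, mul_one]]
  exact (Finset.sum_subset (fun w hw => (hU w).2 (hT w hw))
    fun w hw hw' => hT' w _ (he w hw) hw').symm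

end norm

end Norm

theorem blockNorm : StmtNorm where
  sepx _ _ _ _ _ _ _ _ h v hv := Norm.sepx h v hv
  norm _ _ _ _ _ _ _ h _ _ hy T hT hT' :=
    have := h.fin
    have := h.sep
    Norm.ord_norm (fun _ _ hw => ⟨_, h.toIsCoord.at_cen hw⟩) hy T hT hT'

end Pool.Agent.Lib.IW
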