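import Pool.Agent.Lib.IW.Util

/-! Existence of patching data from the analytic engine. -/

open Polynomial IntermediateField
open scoped Pointwise

namespace Pool.Agent.Lib.IW

namespace PD

lemma ex_co (K : Type) [Field K] : ∃ x : AlgebraicClosure (RatFunc K), Co K x := by
  let f := IsScalarTower.toAlgHom K (RatFunc K) (AlgebraicClosure (RatFunc K))
  refine ⟨f RatFunc.X, fun h => RatFunc.transcendental_X
    ((isAlgebraic_algHom_iff f f.injective).1 h), fun y => ?_⟩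
  have hm : ∀ c : RatFunc K, f c ∈ K⟮f RatFunc.X⟯ := fun c => by
    have h1 : f c ∈ (K⟮(RatFunc.X : RatFunc K)⟯).map f :=
      ⟨c, by rw [RatFunc.adjoin_X]; exact mem_top, rfl⟩
    rwa [adjoin_map, Set.image_singleton] at h1
  let g : RatFunc K →+* K⟮f RatFunc.X⟯ :=
    f.toRingHom.codRestrict (K⟮f RatFunc.X⟯).toSubfield hm
  exact (Algebra.IsAlgebraic.isAlgebraic (R := RatFunc K) y).ringHom_of_comp_eq g (RingHom.id _)
    g.injective (by ext; rfl)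

lemma lift_alg {K B C D : Type} [Field K] [CommRing B] [CommRing C] [CommRing D] [Algebra K B]
    [Algebra K C] [Algebra K D] (φ : B →ₐ[K] C) (hφ : Function.Injective φ) (ψ : D →ₐ[K] C)
    (h : ∀ d, ∃ b, φ b = ψ d) : ∃ θ : D →ₐ[K] B, ∀ d, φ (θ d) = ψ d :=
  ⟨(AlgEquiv.ofInjective φ hφ).symm.toAlgHom.comp (ψ.codRestrict φ.range h), fun d =>
    congrArg Subtype.val ((AlgEquiv.ofInjective φ hφ).apply_symm_apply ⟨ψ d, h d⟩)⟩

lemma mem_range {K Ω C : Type} [Field K] [Field Ω] [IsAlgClosed Ω] [Field C] [Algebra K Ω]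
    [Algebra K C] (κ : Ω →ₐ[K] C) {x : Ω} (hx : Co K x) (E : IntermediateField K Ω) (hE : x ∈ E)
    (θ : E →ₐ[K] C) (h : ∃ b, κ b = θ ⟨x, hE⟩) (y : E) : ∃ b, κ b = θ y := by
  have hle : K⟮x⟯ ≤ E := adjoin_simple_le_iff.2 hE
  have h1 : K⟮x⟯ ≤ (κ.fieldRange.comap θ).map E.val :=
    adjoin_simple_le_iff.2 ⟨⟨x, hE⟩, h, rfl⟩
  obtain ⟨φ, hφ⟩ := lift_alg κ κ.injective (θ.comp (inclusion hle)) fun d => by
    obtain ⟨e, ⟨b, hb⟩, he⟩ := h1 d.2
    exact ⟨b, hb.trans (congrArg θ (Subtype.ext he))⟩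
  obtain ⟨P, hP, h0⟩ := hx.alg y
  have h2 : P.eval₂ (inclusion hle).toRingHom y = 0 := by
    apply E.val.injective
    rw [map_zero, ← h0, aeval_def]
    exact hom_eval₂ P _ E.val.toRingHom y
  have h3 : ((P.map φ.toRingHom).map κ.toRingHom).IsRoot (θ y) := by
    have h4 : κ.toRingHom.comp φ.toRingHom = θ.toRingHom.comp (inclusion hle).toRingHom :=
      RingHom.ext hφ
    rw [IsRoot, Polynomial.map_map, eval_map, h4]
    exact (hom_eval₂ P _ θ.toRingHom y).symm.trans (by rw [h2, map_zero])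
  exact (IsAlgClosed.splits _).mem_range_of_isRoot (Polynomial.map_ne_zero hP) h3

section Hens

variable {k 𝕜 Q : Type} [Field k] [NormedField 𝕜] [Algebra k 𝕜] [NormedField Q]
  [IsUltrametricDist Q] [NormedAlgebra 𝕜 Q] [Algebra k Q] [IsScalarTower k 𝕜 Q]

omit [IsUltrametricDist Q] in
lemma norm_c (hk : ∀ c : k, ‖algebraMap k 𝕜 c‖ ≤ 1) (c : k) : ‖algebraMap k Q c‖ ≤ 1 := by
  rw [IsScalarTower.algebraMap_apply k 𝕜 Q, norm_algebraMap']
  exact hk c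

lemma norm_one (hk : ∀ c : k, ‖algebraMap k 𝕜 c‖ ≤ 1) {c : k} (hc : c ≠ 0) :
    ‖algebraMap k 𝕜 c‖ = 1 := by
  have h1 := hk c⁻¹
  rw [map_inv₀, norm_inv] at h1
  exact le_antisymm (hk c) ((inv_le_one₀ (norm_pos_iff.2 (by simpa using hc))).1 h1)

lemma norm_aeval (hk : ∀ c : k, ‖algebraMap k 𝕜 c‖ ≤ 1) {s : Q} (hs : ‖s‖ < 1) (P : k[X]) :
    ‖aeval s P‖ ≤ 1 := by
  induction P using Polynomial.induction_on' with
  | add P R hP hR =>
    rw [map_add]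
    exact (IsUltrametricDist.norm_add_le_max _ _).trans (max_le hP hR)
  | monomial n c =>
    rw [aeval_monomial, norm_mul, norm_pow]
    exact mul_le_one₀ (norm_c hk c) (by positivity) (pow_le_one₀ (norm_nonneg _) hs.le)

lemma norm_sub (hk : ∀ c : k, ‖algebraMap k 𝕜 c‖ ≤ 1) {s : Q} (hs : ‖s‖ < 1) (P : k[X]) :
    ‖aeval s P - algebraMap k Q (P.eval 0)‖ < 1 := by
  have h1 : aeval s P - algebraMap k Q (P.eval 0) = s * aeval s P.divX := by
    have h := congrArg (aeval s) (X_mul_divX_add P)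
    rw [map_add, map_mul, aeval_X, aeval_C, coeff_zero_eq_eval_zero] at h
    rw [← h, add_sub_cancel_right]
  rw [h1, norm_mul]
  exact mul_lt_one_of_nonneg_of_lt_one_left (norm_nonneg _) hs (norm_aeval hk hs _)

omit [IsUltrametricDist Q] in
lemma aeval_mem (R : Subalgebra 𝕜 Q) {s : Q} (hs : s ∈ R) (P : k[X]) : aeval s P ∈ R := by
  induction P using Polynomial.induction_on' with
  | add P R hP hR => rw [map_add]; exact add_mem hP hR
  | monomial n c =>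
    rw [aeval_monomial, IsScalarTower.algebraMap_apply k 𝕜 Q]
    exact mul_mem (R.algebraMap_mem _) (pow_mem hs n)

lemma norm_ev (hk : ∀ c : k, ‖algebraMap k 𝕜 c‖ ≤ 1) {s : Q} (hs : ‖s‖ < 1) (f : k[X][X])
    (a : k) : ‖(f.map (aeval s).toRingHom).eval (algebraMap 𝕜 Q (algebraMap k 𝕜 a)) -
      algebraMap k Q ((f.map (evalRingHom 0)).eval a)‖ < 1 := by
  have h1 : (f.map (aeval s).toRingHom).eval (algebraMap 𝕜 Q (algebraMap k 𝕜 a)) =
      aeval s (f.eval (C a)) := by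
    rw [← IsScalarTower.algebraMap_apply, ← aeval_C s a]
    exact eval_map_apply (aeval s).toRingHom (C a)
  have h2 : (f.map (evalRingHom 0)).eval a = (f.eval (C a)).eval 0 := by
    have h3 := eval_map_apply (p := f) (evalRingHom (0 : k)) (C a)
    rwa [coe_evalRingHom, eval_C] at h3
  rw [h1, h2]
  exact norm_sub hk hs _

lemma hens [IsAlgClosed k] [CompleteSpace Q] (hN : StmtEvalN)
    (hk : ∀ c : k, ‖algebraMap k 𝕜 c‖ ≤ 1) (R : Subalgebra 𝕜 Q) (hR : IsClosed (R : Set Q))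
    {s : Q} (hsR : s ∈ R) (hs : ‖s‖ < 1) {f : k[X][X]} (hf : f.Monic)
    (hsep : (f.map (evalRingHom 0)).Separable) {C : Type} [Field C] (A : Q →+* C) {z : C}
    (hz : f.eval₂ (A.comp (aeval s).toRingHom) z = 0) : ∃ r ∈ R, A r = z := by
  classical
  have key : ∀ a : k, ∃ r, (f.map (evalRingHom 0)).IsRoot a → r ∈ R ∧
      (f.map (aeval s).toRingHom).eval r = 0 ∧ ‖r - algebraMap 𝕜 Q (algebraMap k 𝕜 a)‖ < 1 := by
    intro a
    by_cases ha : (f.map (evalRingHom 0)).IsRoot a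
    · have hc : (f.map (evalRingHom 0)).derivative.eval a ≠ 0 := by
        have := hsep.eval₂_derivative_ne_zero (RingHom.id k) ha
        exact this
      obtain ⟨r, h1, h2, h3⟩ := hN.hensel 𝕜 Q R hR (f.map (aeval s).toRingHom)
        (fun i => by
          rw [coeff_map]
          exact ⟨aeval_mem R hsR _, norm_aeval hk hs _⟩)
        (algebraMap k 𝕜 a) (algebraMap k 𝕜 _) (hk a) (norm_one hk hc)
        (by simpa [ha.eq_zero] using norm_ev hk hs f a)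
        (by
          rw [derivative_map, derivative_map, ← IsScalarTower.algebraMap_apply k 𝕜 Q
            (eval a _)]
          exact norm_ev hk hs _ a)
      exact ⟨r, fun _ => ⟨h1, h2, h3⟩⟩
    · exact ⟨0, fun h => absurd h ha⟩
  choose r hr using key
  have hg : (f.map (evalRingHom 0)) ≠ 0 := (hf.map _).ne_zero
  have hinj : Set.InjOn (fun a => A (r a)) (f.map (evalRingHom 0)).roots.toFinset := by
    intro a ha b hb e
    rw [Finset.mem_coe, Multiset.mem_toFinset, mem_roots hg] at ha hb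
    by_contra hne
    have h1 := (hr a ha).2.2
    have h2 := (hr b hb).2.2
    rw [← A.injective e, norm_sub_rev] at h2
    have h3 := (IsUltrametricDist.norm_add_le_max _ _).trans_lt (max_lt h2 h1)
    rw [sub_add_sub_cancel, ← map_sub, ← map_sub, norm_algebraMap',
      norm_one hk (sub_ne_zero.2 (Ne.symm hne))] at h3
    exact lt_irrefl _ h3
  by_contra hno
  have hF : (f.map (A.comp (aeval s).toRingHom)).Monic := hf.map _
  have hsub : (insert z ((f.map (evalRingHom 0)).roots.toFinset.image fun a => A (r a))).val ⊆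
      (f.map (A.comp (aeval s).toRingHom)).roots := by
    intro w hw
    rw [mem_roots hF.ne_zero, IsRoot, eval_map]
    rcases Finset.mem_insert.1 hw with rfl | hw
    · exact hz
    · obtain ⟨a, ha, rfl⟩ := Finset.mem_image.1 hw
      rw [Multiset.mem_toFinset, mem_roots hg] at ha
      rw [← hom_eval₂, ← eval_map, (hr a ha).2.1, map_zero]
  have h1 := card_le_degree_of_subset_roots hsub
  rw [Finset.card_insert_of_notMem, Finset.card_image_of_injOn hinj,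
    Multiset.toFinset_card_of_nodup (nodup_roots hsep),
    (IsAlgClosed.splits _).natDegree_eq_card_roots.symm, hf.natDegree_map, hf.natDegree_map] at h1
  · omega
  · intro h
    obtain ⟨a, ha, e⟩ := Finset.mem_image.1 h
    rw [Multiset.mem_toFinset, mem_roots hg] at ha
    exact hno ⟨r a, (hr a ha).1, e⟩

end Hens

section Val

variable {Q Ω C : Type} [NormedField Q] [Field Ω] [Field C] {A : Q →+* C} {κ : Ω →+* C}
  {O : ValuationSubring Ω}

lemma val_lt (hO : ∀ y r, A r = κ y → (y ∈ O ↔ ‖r‖ ≤ 1)) {y : Ω} {r : Q} (h : A r = κ y) :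
    O.valuation y < 1 ↔ ‖r‖ < 1 := by
  by_cases hy : y = 0
  · have hr : r = 0 := A.injective (by rw [h, hy, map_zero, map_zero])
    simp [hy, hr]
  · have hr : r ≠ 0 := fun e => hy (κ.injective (by rw [← h, e, map_zero, map_zero]))
    have h1 := hO y⁻¹ r⁻¹ (by rw [map_inv₀, map_inv₀, h])
    rw [← O.valuation_le_one_iff, map_inv₀, norm_inv,
      inv_le_one₀ ((Valuation.pos_iff _).2 hy), inv_le_one₀ (norm_pos_iff.2 hr)] at h1
    rw [← not_le, ← not_le, h1]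

lemma val_eq (hO : ∀ y r, A r = κ y → (y ∈ O ↔ ‖r‖ ≤ 1)) {y : Ω} {r : Q} (h : A r = κ y)
    (hr : ‖r‖ = 1) : O.valuation y = 1 :=
  le_antisymm ((O.valuation_le_one_iff y).2 ((hO y r h).2 hr.le))
    (not_lt.1 fun h' => ((val_lt hO h).1 h').ne hr)

end Val

lemma ev {K Q Ω : Type} [NormedField K] [NormedField Q] [NormedAlgebra K Q] [Field Ω]
    [IsAlgClosed Ω] [Algebra K Ω] (hE : StmtEof) {σ : Q} {x : Ω}
    {κ : Ω →ₐ[K] AlgebraicClosure Q} (hx : Co K x)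
    (hκ : κ x = algebraMap Q (AlgebraicClosure Q) σ) {R : Subalgebra K Q}
    (hR : (K⟮σ⟯).toSubalgebra ≤ R) (j : R →ₐ[K] Q) {t : Ω}
    (hj : ∀ y : R, (y : Q) = σ → algebraMap Q (AlgebraicClosure Q) (j y) = κ t) :
    ∃ j' : Eof K κ R →ₐ[K] Ω, (∀ y, j' y ∈ Eof K κ ⊤) ∧
      ∀ y : Eof K κ R, (y : Ω) = x → j' y = t := by
  let A := IsScalarTower.toAlgHom K Q (AlgebraicClosure Q)
  obtain ⟨ρ, hρ⟩ := lift_alg (A.comp R.val) (A.injective.comp Subtype.val_injective)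
    (κ.comp (Eof K κ R).val) fun d => by
      obtain ⟨r, hr, e⟩ := (hE K Q Ω σ x κ hx hκ R hR d).1 d.2
      exact ⟨⟨r, hr⟩, e⟩
  have hm : x ∈ Eof K κ R :=
    (hE K Q Ω σ x κ hx hκ R hR x).2 ⟨σ, hR (mem_adjoin_simple_self K σ), hκ.symm⟩
  have h1 : κ t = A (j (ρ ⟨x, hm⟩)) :=
    (hj _ (A.injective ((hρ ⟨x, hm⟩).trans hκ))).symm
  obtain ⟨θ, hθ⟩ := lift_alg κ κ.injective (A.comp (j.comp ρ))
    (mem_range κ hx _ hm _ ⟨t, h1⟩)
  refine ⟨θ, fun y => (hE K Q Ω σ x κ hx hκ ⊤ le_top _).2 ⟨_, Algebra.mem_top, (hθ y).symm⟩,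
    fun y hy => κ.injective ?_⟩
  obtain rfl : y = ⟨x, hm⟩ := Subtype.ext hy
  exact (hθ _).trans h1.symm

lemma basP (hG : StmtGN) (hI : StmtInter) (hN : StmtEvalN) (hE : StmtEof) {k 𝕜 Q Ω : Type}
    [Field k] [IsAlgClosed k] [NormedField 𝕜] [IsUltrametricDist 𝕜] [CompleteSpace 𝕜]
    [IsAlgClosed 𝕜] [Algebra k 𝕜] [NormedField Q] [IsUltrametricDist Q] [CompleteSpace Q]
    [NormedAlgebra 𝕜 Q] [Algebra k Q] [IsScalarTower k 𝕜 Q] [Field Ω] [IsAlgClosed Ω]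
    [Algebra 𝕜 Ω] [Algebra k Ω] [IsScalarTower k 𝕜 Ω] {σ : Q} {x : Ω}
    {κ : Ω →ₐ[𝕜] AlgebraicClosure Q} (hσ : Gauss 𝕜 σ) (hk : ∀ c : k, ‖algebraMap k 𝕜 c‖ ≤ 1)
    (hres : ∀ a : 𝕜, ‖a‖ ≤ 1 → ∃ c : k, ‖a - algebraMap k 𝕜 c‖ < 1)
    (ht : ∃ t : 𝕜, t ≠ 0 ∧ ‖t‖ < 1) (hx : Co 𝕜 x)
    (hκ : κ x = algebraMap Q (AlgebraicClosure Q) σ) {O : ValuationSubring Ω}
    (hO : ∀ y r, algebraMap Q (AlgebraicClosure Q) r = κ y → (y ∈ O ↔ ‖r‖ ≤ 1))
    (hd : (Eof 𝕜 κ ⊤).fixingSubgroup ≤ O.decompositionSubgroup 𝕜) :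
    BasP k x (Eof 𝕜 κ ⊤) (Eof 𝕜 κ (Mer 𝕜 σ (R1 𝕜 σ))) (Eof 𝕜 κ (Mer 𝕜 σ (R2 𝕜 σ))) O := by
  have m0 := hE 𝕜 Q Ω σ x κ hx hκ ⊤ le_top
  have m1 := hE 𝕜 Q Ω σ x κ hx hκ (Mer 𝕜 σ (R1 𝕜 σ)) le_sup_right
  have m2 := hE 𝕜 Q Ω σ x κ hx hκ (Mer 𝕜 σ (R2 𝕜 σ)) le_sup_right
  have ms : ∀ R, σ ∈ Mer 𝕜 σ R := fun R =>
    (le_sup_right : _ ≤ Mer 𝕜 σ R) (mem_adjoin_simple_self 𝕜 σ)
  have hc : ∀ a : 𝕜, algebraMap Q (AlgebraicClosure Q) (algebraMap 𝕜 Q a) =
      κ (algebraMap 𝕜 Ω a) := fun a => by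
    rw [κ.commutes, ← IsScalarTower.algebraMap_apply]
  have hO' : ∀ y r, algebraMap Q (AlgebraicClosure Q) r = κ.toRingHom y →
      (y ∈ O ↔ ‖r‖ ≤ 1) := hO
  have hp : ∀ {s : Ω} {r : Q}, algebraMap Q (AlgebraicClosure Q) r = κ s →
      (algebraMap Q (AlgebraicClosure Q)).comp (aeval (R := k) r).toRingHom =
        κ.toRingHom.comp (aeval (R := k) s).toRingHom := fun {s r} h => by
    refine Polynomial.ringHom_ext (fun c => ?_) (by simpa using h)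
    simpa [IsScalarTower.algebraMap_apply k 𝕜 Q, IsScalarTower.algebraMap_apply k 𝕜 Ω]
      using hc (algebraMap k 𝕜 c)
  have hh : ∀ R : Subalgebra 𝕜 Q, IsClosed (R : Set Q) → ∀ f : k[X][X], f.Monic →
      (f.map (evalRingHom 0)).Separable → ∀ (s : Ω) (r : Q), r ∈ R →
      algebraMap Q (AlgebraicClosure Q) r = κ s → O.valuation s < 1 → ∀ y : Ω,
      f.eval₂ (aeval s).toRingHom y = 0 → ∃ a ∈ R, algebraMap Q (AlgebraicClosure Q) a = κ y :=
    fun R hR f hf hs s r hr e hv y hy => hens hN hk R hR hr ((val_lt hO' e).1 hv) hf hs _ (by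
      rw [hp e]
      exact (hom_eval₂ f _ κ.toRingHom y).symm.trans (by rw [hy, map_zero]))
  have hl : ∀ b c : 𝕜, algebraMap Q (AlgebraicClosure Q)
      (algebraMap 𝕜 Q b + algebraMap 𝕜 Q c * σ) = κ (algebraMap 𝕜 Ω b + algebraMap 𝕜 Ω c * x) :=
    fun b c => by rw [map_add, map_mul, map_add, map_mul, hc, hc, hκ]
  have htr : ∀ b c : 𝕜, c ≠ 0 → Transcendental 𝕜 (algebraMap 𝕜 Q b + algebraMap 𝕜 Q c * σ) :=
    fun b c h0 h => by
      have h1 : σ = algebraMap 𝕜 Q c⁻¹ *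
          (algebraMap 𝕜 Q b + algebraMap 𝕜 Q c * σ - algebraMap 𝕜 Q b) := by
        rw [add_sub_cancel_left, ← mul_assoc, ← map_mul, inv_mul_cancel₀ h0, map_one, one_mul]
      exact hG.tr 𝕜 Q σ hσ
        (h1 ▸ (isAlgebraic_algebraMap _).mul (h.sub (isAlgebraic_algebraMap _)))
  refine ⟨hx, fun y hy => ?_, fun y hy => ?_, (m1 x).2 ⟨σ, ms _, hκ.symm⟩,
    (m2 x).2 ⟨σ, ms _, hκ.symm⟩, fun y hy1 hy2 => ?_, hd, fun c => ?_, fun a ha => ?_, ?_,
    fun f hf hs ε hε y hy => ?_, fun f hf hs s hs0 hv y hy => ?_, fun y hy hyO => ?_,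
    fun b c hc0 hb => ?_, fun b c hc0 hb => ?_⟩
  · obtain ⟨r, -, e⟩ := (m1 y).1 hy
    exact (m0 y).2 ⟨r, Algebra.mem_top, e⟩
  · obtain ⟨r, -, e⟩ := (m2 y).1 hy
    exact (m0 y).2 ⟨r, Algebra.mem_top, e⟩
  · obtain ⟨r, hr, e⟩ := (m1 y).1 hy1
    obtain ⟨r', hr', e'⟩ := (m2 y).1 hy2
    obtain rfl : r = r' := (algebraMap Q (AlgebraicClosure Q)).injective (e.trans e'.symm)
    have h1 : κ y ∈ (𝕜⟮σ⟯).map (IsScalarTower.toAlgHom 𝕜 Q (AlgebraicClosure Q)) :=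
      ⟨r, hI 𝕜 Q σ hσ r hr hr', e⟩
    rw [adjoin_map, Set.image_singleton, IsScalarTower.coe_toAlgHom', ← hκ,
      ← Set.image_singleton, ← adjoin_map] at h1
    obtain ⟨z, hz, e⟩ := h1
    exact κ.injective e ▸ hz
  · rw [IsScalarTower.algebraMap_apply k 𝕜 Ω, hO _ _ (hc _), norm_algebraMap']
    exact hk c
  · rw [hO _ _ (hc _), norm_algebraMap'] at ha
    exact val_eq hO' (r := σ - algebraMap 𝕜 Q a) (by simp [hκ, hc])
      (by rw [hσ.gauss, max_eq_left ha])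
  · obtain ⟨t, h0, h1⟩ := ht
    exact ⟨t, h0, (val_lt hO' (hc t)).2 (by rwa [norm_algebraMap'])⟩
  · have h1 : σ ∈ R1 𝕜 σ :=
      Subalgebra.le_topologicalClosure _ (Algebra.self_mem_adjoin_singleton 𝕜 σ)
    have h2 : O.valuation x = 1 := val_eq hO' hκ.symm (by simpa using hσ.gauss 0)
    obtain ⟨a, ha, e⟩ := hh (R1 𝕜 σ) (Subalgebra.isClosed_topologicalClosure _) f hf hs _
      (algebraMap 𝕜 Q ε * σ) (mul_mem (Subalgebra.algebraMap_mem _ _) h1)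
      (by rw [map_mul, map_mul, hc, hκ]) (by rwa [map_mul, h2, mul_one]) y hy
    exact (m1 y).2 ⟨a, (le_sup_left : _ ≤ Mer 𝕜 σ _) ha, e⟩
  · obtain ⟨r, hr, e⟩ := (m0 s).1 hs0
    exact (m0 y).2 (hh ⊤ (by simp) f hf hs s r hr e hv y hy)
  · obtain ⟨r, -, e⟩ := (m0 y).1 hy
    obtain ⟨P, P', h1, h2⟩ := hN.resid k 𝕜 Q σ hσ hk hres r ((hO y r e).1 hyO)
    refine ⟨P, P', h1, (val_lt hO' ?_).2 h2⟩
    rw [map_sub, map_sub, map_div₀, map_div₀, e]
    exact congrArg₂ (fun u v => κ y - u / v) (RingHom.congr_fun (hp hκ.symm) P)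
      (RingHom.congr_fun (hp hκ.symm) P')
  · obtain ⟨j, hj⟩ := hN.ev1 𝕜 Q σ hσ _ (htr b c hc0) ((hO _ _ (hl b c)).1 hb)
    exact ev hE hx hκ le_sup_right j fun y hy => (congrArg _ (hj y hy)).trans (hl b c)
  · obtain ⟨j, hj⟩ := hN.ev2 𝕜 Q σ hσ _ (htr b c hc0) (not_le.1 (mt (hO _ _ (hl b c)).2 hb))
    exact ev hE hx hκ le_sup_right j fun y hy => (congrArg _ (hj y hy)).trans (hl b c)

end PD

open PD in
theorem blockPD (hB : StmtBas) (hK : StmtKhat) (hG : StmtGN) (hI : StmtInter) (hN : StmtEvalN)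
    (hE : StmtEof) (h0 : StmtPD0) (h2 : StmtPD2) (h3 : StmtPD3) : StmtPD := by
  intro k _ _
  obtain ⟨𝕜, _, _, _, _, _, Q, _, _, _, _, σ, hσ, hk, hres, ht⟩ := hK k
  obtain ⟨x, hx⟩ := ex_co 𝕜
  obtain ⟨κ, hκ⟩ := hB.exEmb 𝕜 _ (AlgebraicClosure Q) x (algebraMap Q _ σ) hx
    ((transcendental_algebraMap_iff (algebraMap Q _).injective).2 (hG.tr 𝕜 Q σ hσ))
  obtain ⟨O, hO, hd⟩ := h0 𝕜 Q _ σ x κ ht hx hκ
  let i1 : Algebra k Q := ((algebraMap 𝕜 Q).comp (algebraMap k 𝕜)).toAlgebra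
  have i2 : IsScalarTower k 𝕜 Q := IsScalarTower.of_algebraMap_eq fun _ => rfl
  refine ⟨𝕜, AlgebraicClosure (RatFunc 𝕜), inferInstance, inferInstance, inferInstance,
    inferInstance, inferInstance, inferInstance, inferInstance, inferInstance, x, _, _, _, O,
    basP hG hI hN hE hσ hk hres ht hx hκ hO hd, h2 𝕜 Q _ σ x κ hσ hx hκ,
    h3 𝕜 Q _ σ x κ hσ hx hκ O fun a => ?_⟩
  rw [hO _ (algebraMap 𝕜 Q a) (by rw [κ.commutes, ← IsScalarTower.algebraMap_apply]),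
    norm_algebraMap']

end Pool.Agent.Lib.IW
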