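import Pool.Agent.Lib.IW.Util

/-! Block PD2: the factorisation property of the concrete patching datum. -/

open Polynomial IntermediateField

namespace Pool.Agent.Lib.IW

namespace PD2

variable {ι F F' : Type} [Fintype ι] [DecidableEq ι] [Field F] [Field F']

lemma map_inv (f : F' →+* F) {Y : Matrix ι ι F'} (h : Y.det ≠ 0) : Y⁻¹.map f = (Y.map f)⁻¹ :=
  (Matrix.inv_eq_left_inv (by
    rw [← Matrix.map_mul, Matrix.nonsing_inv_mul _ h.isUnit, Matrix.map_one _ f.map_zero f.map_one])).symm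

lemma det_map (f : F' →+* F) {Y : Matrix ι ι F'} (h : Y.det ≠ 0) : (Y.map f).det ≠ 0 := by
  rw [← RingHom.mapMatrix_apply, ← RingHom.map_det]
  exact (_root_.map_ne_zero f).2 h

omit [DecidableEq ι] in
lemma mul_mem' (T : Subring F) {A B : Matrix ι ι F} (hA : ∀ i j, A i j ∈ T) (hB : ∀ i j, B i j ∈ T)
    (i j : ι) : (A * B) i j ∈ T := by
  rw [Matrix.mul_apply]
  exact sum_mem fun k _ => mul_mem (hA i k) (hB k j)

lemma conj_mem (T : Subring F) {A B Y : Matrix ι ι F} (hA : ∀ i j, A i j ∈ T) (hB : ∀ i j, B i j ∈ T)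
    (e : A * B = 1) (hY : ∀ l i j, (Y * Matrix.diagonal (Y l) * Y⁻¹) i j ∈ T) (l i j : ι) :
    (B * Y * Matrix.diagonal ((B * Y) l) * (B * Y)⁻¹) i j ∈ T := by
  have d : Matrix.diagonal ((B * Y) l) = ∑ m, B l m • Matrix.diagonal (Y m) := by
    ext a b
    by_cases h : a = b <;> simp [Matrix.sum_apply, Matrix.mul_apply, h]
  rw [Matrix.mul_inv_rev, Matrix.inv_eq_left_inv e, d,
    show B * Y * (∑ m, B l m • Matrix.diagonal (Y m)) * (Y⁻¹ * A) =
      ∑ m, B l m • (B * (Y * Matrix.diagonal (Y m) * Y⁻¹) * A) by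
        simp only [Matrix.mul_sum, Matrix.sum_mul, Matrix.mul_smul, Matrix.smul_mul, Matrix.mul_assoc],
    Matrix.sum_apply]
  exact sum_mem fun m _ => mul_mem (hB l m) (mul_mem' T (mul_mem' T hB (hY m)) hA i j)

lemma mem_range [IsAlgClosed F'] (f : F' →+* F) {X : Matrix ι ι F} (h : X.det ≠ 0) (d : ι → F)
    (hC : ∀ i j, (X * Matrix.diagonal d * X⁻¹) i j ∈ f.range) (j : ι) : d j ∈ f.range := by
  choose C hC using hC
  have e : (Matrix.of C).map f = X * Matrix.diagonal d * X⁻¹ := by ext a b; exact hC a b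
  refine (IsAlgClosed.splits (Matrix.of C).charpoly).mem_range_of_isRoot
    (Matrix.charpoly_monic _).ne_zero ?_
  rw [← Matrix.charpoly_map, e, IsRoot, Matrix.eval_charpoly,
    show Matrix.scalar ι (d j) - X * Matrix.diagonal d * X⁻¹ =
      X * Matrix.diagonal (fun i => d j - d i) * X⁻¹ by
        rw [← Matrix.diagonal_sub, Matrix.mul_sub, Matrix.sub_mul, ← Matrix.scalar_apply,
          ← (Matrix.scalar_commute _ (fun _ => Commute.all _ _) X).eq,
          Matrix.mul_nonsing_inv_cancel_right _ _ h.isUnit],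
    Matrix.det_mul, Matrix.det_mul, Matrix.det_diagonal,
    Finset.prod_eq_zero (Finset.mem_univ j) (sub_self _), mul_zero, zero_mul]

end PD2

open _root_.Pool.Agent.Lib.IW.PD2 in
theorem blockPD2 (hA : StmtFact) (hI : StmtInter) (hE : StmtEof) : StmtPD2 := by
  intro 𝕜 Q Ω' _ _ _ _ _ _ _ _ _ _ _ σ σ' κ hσ hc hκ ι _ _ X1 X2 d1 d2 h0 h1 h2
  set a := algebraMap Q (AlgebraicClosure Q) with ha
  set k : Ω' →+* AlgebraicClosure Q := κ.toRingHom with hk
  have E := fun R (hR : (𝕜⟮σ⟯).toSubalgebra ≤ R) y => hE 𝕜 Q Ω' σ σ' κ hc hκ R hR y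
  choose A _ hA' using fun i j => (E ⊤ le_top _).1 (h0 i j)
  have e0 : (Matrix.of A).map a = X1.map k * (X2.map k)⁻¹ := by
    rw [← map_inv k d2, ← Matrix.map_mul]
    ext i j; exact hA' i j
  have D1 := det_map k d1
  have D2 := det_map k d2
  have dA : (Matrix.of A).det ≠ 0 := fun h => by
    have := congrArg Matrix.det e0
    rw [← RingHom.mapMatrix_apply, ← RingHom.map_det, h, map_zero, Matrix.det_mul,
      Matrix.det_nonsing_inv, Ring.inverse_eq_inv] at this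
    exact mul_ne_zero D1 (inv_ne_zero D2) this.symm
  obtain ⟨A1, B1, A2, B2, a1, b1, a2, b2, i1, i2, e⟩ := hA 𝕜 Q σ hσ ι _ dA
  have j1 : A1.map a * B1.map a = 1 := by
    rw [← Matrix.map_mul, i1, Matrix.map_one _ a.map_zero a.map_one]
  have j2 : B2.map a * A2.map a = 1 := by
    rw [← Matrix.map_mul, mul_eq_one_comm.1 i2, Matrix.map_one _ a.map_zero a.map_one]
  have eX : B1.map a * X1.map k = A2.map a * X2.map k := by
    rw [e, Matrix.map_mul] at e0
    rw [← Matrix.nonsing_inv_mul_cancel_right _ (X1.map k) D2.isUnit, ← e0, ← Matrix.mul_assoc,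
      ← Matrix.mul_assoc, mul_eq_one_comm.1 j1, Matrix.one_mul]
  have side : ∀ (R : Subalgebra 𝕜 Q) (Y : Matrix ι ι Ω') (A B : Matrix ι ι Q), Y.det ≠ 0 →
      (∀ i j, A i j ∈ Mer 𝕜 σ R) → (∀ i j, B i j ∈ Mer 𝕜 σ R) → A.map a * B.map a = 1 →
      (∀ l i j, (Y * Matrix.diagonal (Y l) * Y⁻¹) i j ∈ Eof 𝕜 κ (Mer 𝕜 σ R)) → ∀ l i j,
      (B.map a * Y.map k * Matrix.diagonal ((B.map a * Y.map k) l) * (B.map a * Y.map k)⁻¹) i j ∈
        (Mer 𝕜 σ R).toSubring.map a := fun R Y A B dY hA hB e hY =>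
    conj_mem _ (fun i j => ⟨_, hA i j, rfl⟩) (fun i j => ⟨_, hB i j, rfl⟩) e fun l i j => by
      obtain ⟨r, hr, er⟩ := (E _ le_sup_right _).1 (hY l i j)
      refine ⟨r, hr, er.trans ?_⟩
      rw [← map_inv k dY, show Matrix.diagonal (Y.map k l) = (Matrix.diagonal (Y l)).map k from
        (Matrix.diagonal_map k.map_zero).symm, ← Matrix.map_mul, ← Matrix.map_mul]
      rfl
  have s1 := side _ X1 A1 B1 d1 a1 b1 j1 h1
  have s2 := side _ X2 B2 A2 d2 b2 a2 j2 h2
  rw [← eX] at s2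
  have dX : (B1.map a * X1.map k).det ≠ 0 := by
    rw [Matrix.det_mul]
    exact mul_ne_zero (Matrix.isUnit_det_of_left_inverse j1).ne_zero D1
  have rg : ∀ l j, (B1.map a * X1.map k) l j ∈ k.range := fun l => mem_range k dX _ fun i j => by
    obtain ⟨r, hr, er⟩ := s1 l i j
    obtain ⟨r', hr', er'⟩ := s2 l i j
    obtain rfl : r = r' := a.injective (er.trans er'.symm)
    obtain ⟨P, q, rfl⟩ := (mem_adjoin_simple_iff 𝕜 r).1 (hI 𝕜 Q σ hσ r hr hr')
    refine ⟨aeval σ' P / aeval σ' q, Eq.trans ?_ er⟩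
    rw [map_div₀, map_div₀, ← aeval_algebraMap_apply, ← aeval_algebraMap_apply, ← hκ,
      aeval_algHom_apply, aeval_algHom_apply]
    rfl
  choose X hX using rg
  have e3 : (Matrix.of X).map k = B1.map a * X1.map k := by ext i j; exact hX i j
  have fin : ∀ (R : Subalgebra 𝕜 Q) (Y : Matrix ι ι Ω') (B : Matrix ι ι Q), Y.det ≠ 0 →
      (∀ i j, B i j ∈ Mer 𝕜 σ R) → (Matrix.of X).map k = B.map a * Y.map k →
      ∀ i j, (Matrix.of X * Y⁻¹) i j ∈ Eof 𝕜 κ (Mer 𝕜 σ R) := fun R Y B dY hB e i j => by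
    refine (E _ le_sup_right _).2 ⟨B i j, hB i j, ?_⟩
    have : (Matrix.of X * Y⁻¹).map k = B.map a := by
      rw [Matrix.map_mul, e, map_inv k dY,
        Matrix.mul_nonsing_inv_cancel_right _ _ (det_map k dY).isUnit]
    exact (congrFun (congrFun this i) j).symm
  refine ⟨Matrix.of X * X1⁻¹, Matrix.of X * X2⁻¹, fin _ X1 B1 d1 b1 e3,
    fin _ X2 A2 d2 a2 (e3.trans eX), ?_, ?_⟩
  · rw [Matrix.det_mul, Matrix.det_nonsing_inv, Ring.inverse_eq_inv]
    refine mul_ne_zero (fun h => dX ?_) (inv_ne_zero d1)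
    rw [← e3, ← RingHom.mapMatrix_apply, ← RingHom.map_det, h, map_zero]
  · rw [Matrix.nonsing_inv_mul_cancel_right _ _ d1.isUnit,
      Matrix.nonsing_inv_mul_cancel_right _ _ d2.isUnit]

end Pool.Agent.Lib.IW
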