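import Pool.Agent.Lib.IW.Util

/-! The local property of the concrete patching datum. -/

open Polynomial IntermediateField WithZero
open scoped Pointwise

namespace Pool.Agent.Lib.IW

namespace PD3

lemma place (hB : StmtBas) (hD : StmtDens) {𝕜 Ω : Type} [Field 𝕜] [IsAlgClosed 𝕜] [Field Ω]
    [Algebra 𝕜 Ω] {x : Ω} (hx : Co 𝕜 x) (E : IntermediateField 𝕜 Ω)
    (J : E →ₐ[𝕜] LaurentSeries 𝕜) (π : E) (hπ : J π = HahnSeries.single 1 1) :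
    ∃ W : ValuationSubring Ω, IsPl 𝕜 W ∧ (π : Ω) ≠ 0 ∧ W.valuation (π : Ω) < 1 ∧
      ∀ γ : Aut 𝕜 Ω, γ • W = W → γ π = π → γ ∈ E.fixingSubgroup := by
  set v : Valuation (LaurentSeries 𝕜) ℤᵐ⁰ := Valued.v with hv
  obtain ⟨W, hW⟩ := hB.exOver E Ω (algebraMap E Ω) (v.valuationSubring.comap J.toRingHom)
  have mem : ∀ y : E, (y : Ω) ∈ W ↔ v (J y) ≤ 1 := by
    intro y
    have : y ∈ W.comap (algebraMap E Ω) ↔ y ∈ v.valuationSubring.comap J.toRingHom := by rw [hW]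
    exact this
  have vπ : v (J π) = exp (-1) := by
    rw [hπ, hv, LaurentSeries.valuation_single_zpow]
  have π0 : π ≠ 0 := by
    rintro rfl
    rw [map_zero, map_zero] at vπ
    exact exp_ne_zero vπ.symm
  have π0' : (π : Ω) ≠ 0 := by simpa using π0
  have hinv : (π : Ω)⁻¹ ∉ W := by
    have := mem π⁻¹
    rw [IntermediateField.coe_inv, map_inv₀, map_inv₀, vπ, ← exp_neg, ← exp_zero,
      exp_le_exp] at this
    rw [this]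
    omega
  have hlt : W.valuation (π : Ω) < 1 := by
    rw [← W.valuation_le_one_iff, map_inv₀, not_le] at hinv
    exact (one_lt_inv₀ (zero_lt_iff.mpr ((Valuation.ne_zero_iff _).mpr π0'))).mp hinv
  have hP : IsPl 𝕜 W := by
    refine ⟨fun h => hinv (h ▸ ValuationSubring.mem_top _), fun c => ?_⟩
    have := mem (algebraMap 𝕜 E c)
    rw [J.commutes] at this
    refine this.mpr ((LaurentSeries.val_le_one_iff_eq_coe 𝕜 _).mpr ⟨PowerSeries.C c, ?_⟩)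
    rfl
  refine ⟨W, hP, π0', hlt, fun γ h1 h2 => ?_⟩
  rw [IntermediateField.mem_fixingSubgroup_iff]
  refine hD.fix 𝕜 Ω x hx W hP π π0' hlt E π.2 (fun y hy y0 => ?_) γ h1 h2
  have y0' : (⟨y, hy⟩ : E) ≠ 0 := fun h => y0 (congrArg Subtype.val h)
  have hJ : v (J ⟨y, hy⟩) ≠ 0 := (Valuation.ne_zero_iff _).mpr ((map_ne_zero J).mpr y0')
  set i : ℤ := -log (v (J ⟨y, hy⟩)) with hi
  have h3 : v (J (⟨y, hy⟩ / π ^ i)) = 1 := by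
    rw [map_div₀, map_zpow₀, map_div₀, map_zpow₀, vπ, ← exp_zsmul, hi]
    simp [exp_log hJ, hJ]
  have h4 := (mem _).mpr h3.le
  have h5 := (mem (⟨y, hy⟩ / π ^ i)⁻¹).mpr (by rw [map_inv₀, map_inv₀, h3, inv_one])
  have e : ((⟨y, hy⟩ / π ^ i : E) : Ω) = y / (π : Ω) ^ i := by
    rw [IntermediateField.coe_div]
    congr 1
  rw [IntermediateField.coe_inv, e] at h5
  rw [e] at h4
  have h6 : W.valuation (y / (π : Ω) ^ i) ≠ 0 :=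
    (Valuation.ne_zero_iff _).mpr (div_ne_zero y0 (zpow_ne_zero _ π0'))
  rw [← W.valuation_le_one_iff] at h4 h5
  rw [map_inv₀, inv_le_one₀ (zero_lt_iff.mpr h6)] at h5
  have h7 := le_antisymm h4 h5
  rw [map_div₀, map_zpow₀,
    div_eq_one_iff_eq (zpow_ne_zero _ ((Valuation.ne_zero_iff _).mpr π0'))] at h7
  exact ⟨i, h7⟩

lemma main (hB : StmtBas) (hD : StmtDens) (hE : StmtEof) {𝕜 Q Ω' : Type} [NormedField 𝕜]
    [IsAlgClosed 𝕜] [NormedField Q] [NormedAlgebra 𝕜 Q] [Field Ω'] [Algebra 𝕜 Ω'] {σ : Q}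
    {σ' : Ω'} {κ : Ω' →ₐ[𝕜] AlgebraicClosure Q} (hx : Co 𝕜 σ')
    (hκ : κ σ' = algebraMap Q (AlgebraicClosure Q) σ) (R : Subalgebra 𝕜 Q)
    (j : Mer 𝕜 σ R →ₐ[𝕜] LaurentSeries 𝕜) (r : Q) (hr : r ∈ 𝕜⟮σ⟯) (π : Ω')
    (hπ : κ π = algebraMap Q (AlgebraicClosure Q) r)
    (hj : ∀ y : Mer 𝕜 σ R, (y : Q) = r → j y = HahnSeries.single 1 1) :
    ∃ W : ValuationSubring Ω', IsPl 𝕜 W ∧ π ≠ 0 ∧ W.valuation π < 1 ∧
      ∀ γ : Aut 𝕜 Ω', γ • W = W → γ π = π → γ ∈ (Eof 𝕜 κ (Mer 𝕜 σ R)).fixingSubgroup := by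
  have hle : (𝕜⟮σ⟯).toSubalgebra ≤ Mer 𝕜 σ R := le_sup_right
  have hmem := hE 𝕜 Q Ω' σ σ' κ hx hκ _ hle
  let ι : Mer 𝕜 σ R →ₐ[𝕜] AlgebraicClosure Q :=
    (IsScalarTower.toAlgHom 𝕜 Q (AlgebraicClosure Q)).comp (Mer 𝕜 σ R).val
  have hι : Function.Injective ι :=
    (algebraMap Q (AlgebraicClosure Q)).injective.comp Subtype.val_injective
  let φ : Eof 𝕜 κ (Mer 𝕜 σ R) →ₐ[𝕜] Mer 𝕜 σ R :=
    (AlgEquiv.ofInjective ι hι).symm.toAlgHom.comp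
      ((κ.comp (Eof 𝕜 κ (Mer 𝕜 σ R)).val).codRestrict ι.range fun y => by
        obtain ⟨s, hs, e⟩ := (hmem y).mp y.2
        exact ⟨⟨s, hs⟩, e⟩)
  have hπE : π ∈ Eof 𝕜 κ (Mer 𝕜 σ R) := (hmem π).mpr ⟨r, hle hr, hπ.symm⟩
  have hφ : φ ⟨π, hπE⟩ = ⟨r, hle hr⟩ := by
    show (AlgEquiv.ofInjective ι hι).symm _ = _
    rw [AlgEquiv.symm_apply_eq]
    exact Subtype.ext hπ
  exact place hB hD hx _ (j.comp φ) ⟨π, hπE⟩ (by
    rw [AlgHom.comp_apply, hφ]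
    exact hj _ rfl)

end PD3

theorem blockPD3 (hB : StmtBas) (hD : StmtDens) (_hC : StmtChev) (hT : StmtEvalT)
    (hE : StmtEof) : StmtPD3 := by
  intro 𝕜 Q Ω' _ _ _ _ _ _ _ _ _ _ _ σ σ' κ hG hx hκ O hO
  have hsub : ∀ a : 𝕜, σ - algebraMap 𝕜 Q a ∈ 𝕜⟮σ⟯ := fun a =>
    sub_mem (mem_adjoin_simple_self 𝕜 σ) (IntermediateField.algebraMap_mem _ a)
  have hκa : ∀ a : 𝕜, κ (σ' - algebraMap 𝕜 Ω' a) =
      algebraMap Q (AlgebraicClosure Q) (σ - algebraMap 𝕜 Q a) := fun a => by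
    rw [map_sub, map_sub, hκ, κ.commutes, ← IsScalarTower.algebraMap_apply]
  refine ⟨fun a ha => ?_, fun a ha => ?_, ?_⟩
  · obtain ⟨j, hj⟩ := hT.at1 𝕜 Q σ hG a ((hO a).mp ha)
    obtain ⟨W, h1, -, h2, h3⟩ := PD3.main hB hD hE hx hκ _ j _ (hsub a) _ (hκa a) hj
    refine ⟨W, h1, h2, fun γ hγ => h3 γ (mem_Dec.mp hγ).2 ?_⟩
    rw [map_sub, (mem_Dec.mp hγ).1, γ.commutes]
  · obtain ⟨j, hj⟩ := hT.at2 𝕜 Q σ hG a (not_le.mp fun h => ha ((hO a).mpr h))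
    obtain ⟨W, h1, -, h2, h3⟩ := PD3.main hB hD hE hx hκ _ j _ (hsub a) _ (hκa a) hj
    refine ⟨W, h1, h2, fun γ hγ => h3 γ (mem_Dec.mp hγ).2 ?_⟩
    rw [map_sub, (mem_Dec.mp hγ).1, γ.commutes]
  · obtain ⟨j, hj⟩ := hT.inf 𝕜 Q σ hG
    obtain ⟨W, h1, h0, h2, h3⟩ := PD3.main hB hD hE hx hκ _ j σ⁻¹
      (inv_mem (mem_adjoin_simple_self 𝕜 σ)) σ'⁻¹ (by rw [map_inv₀, map_inv₀, hκ]) hj
    refine ⟨W, h1, fun h => ?_, fun γ hγ => h3 γ (mem_Dec.mp hγ).2 ?_⟩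
    · rw [← W.valuation_le_one_iff] at h
      have h4 : W.valuation σ' ≠ 0 := (Valuation.ne_zero_iff _).mpr (by simpa using h0)
      rw [map_inv₀, inv_lt_one₀ (zero_lt_iff.mpr h4)] at h2
      exact absurd h (not_le.mpr h2)
    · rw [map_inv₀, (mem_Dec.mp hγ).1]

end Pool.Agent.Lib.IW
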