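import Pool.Agent.Lib.IW.PL2

/-! The patching lemma for covers of the affine line. -/

open Polynomial IntermediateField
open scoped Pointwise

namespace Pool.Agent.Lib.IW

open PL in
theorem blockPL (hF : Found) (hP : StmtPD) (hC : StmtCore) (hI : StmtCin) (hT : StmtTP) :
    StmtPL := by
  intro p _ k Ω _ _ _ _ _ _ x z hx n hn hz G _ _ hG ρ₁ ρ₂ h1 u1 h2 u2 hgen W hW hxW M hM rz rx
    hrz hrx lam hlam hloc I hIm
  classical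
  have hB := hF.bas
  obtain ⟨𝕜, Ω', _, _, _, _, _, _, _, _, σ, E0, E1, E2, O, hb, hfac, hl⟩ := hP k
  have : CharP 𝕜 p := charP_of_injective_algebraMap (algebraMap k 𝕜).injective p
  have hn0 : n ≠ 0 := by rintro rfl; simp at hn
  have hM0 : M ≠ 0 := by rintro rfl; simp at hM
  have hMk : (M : 𝕜) ≠ 0 := fun h => hM ((CharP.cast_eq_zero_iff 𝕜 p M).1 h)
  have hnM : ((n * M : ℕ) : k) ≠ 0 := fun h =>
    ((Nat.Prime.dvd_mul Fact.out).1 ((CharP.cast_eq_zero_iff k p _).1 h)).elim hn hM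
  have hzc := co_of_pow hB hx hz
  obtain ⟨t, ht, ht1⟩ := hb.small
  obtain ⟨b, hb01⟩ := Infinite.exists_notMem_finset ({0, 1} : Finset k)
  have hb0 : b ≠ 0 := fun h => hb01 (by simp [h])
  have hb1 : b ≠ 1 := fun h => hb01 (by simp [h])
  obtain ⟨j, hj, hd⟩ : ∃ j : ℕ, j ≠ 0 ∧ n + 1 + j = Nat.card G * M * (n + 1) + 1 := by
    have : n + 1 ≤ Nat.card G * M * (n + 1) :=
      Nat.le_mul_of_pos_left _ (Nat.mul_pos Nat.card_pos (Nat.pos_of_ne_zero hM0))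
    exact ⟨Nat.card G * M * (n + 1) - n, by omega, by omega⟩
  obtain ⟨ι, η, hη1, hη0, hη, hιz, hιW⟩ := setup hF.conj hB hb hzc hW
    (fun h => hxW (hz ▸ W.pow_mem h n)) hnM ht ht1 b hj
  obtain ⟨lam', hlam', hlι⟩ := lam_ext ι hM0 hlam
  have hιx : ι x = ((algebraMap 𝕜 Ω' t)⁻¹ * σ) ^ n * ((1 - algebraMap 𝕜 Ω' t * σ) *
      (1 - algebraMap k Ω' b * (algebraMap 𝕜 Ω' t * σ) ^ j)) := by
    rw [← hz, map_pow, hιz, mul_pow, ← pow_mul, mul_comm M, hη]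
  have ht0 : algebraMap 𝕜 Ω' t ≠ 0 := by simpa using ht
  have hσ0 := hb.co.ne_zero
  have hc0 : (algebraMap 𝕜 Ω' t)⁻¹ * σ ≠ 0 := mul_ne_zero (inv_ne_zero ht0) hσ0
  have hxS : ∀ S : Subalgebra 𝕜 Ω', σ ∈ S → ι x ∈ S := fun S hS => by
    rw [hιx, ← map_inv₀, IsScalarTower.algebraMap_apply k 𝕜 Ω']
    have h3 := S.algebraMap_mem
    exact mul_mem (pow_mem (mul_mem (h3 _) hS) _) (mul_mem (sub_mem (one_mem _) (mul_mem (h3 _) hS))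
      (sub_mem (one_mem _) (mul_mem (h3 _) (pow_mem (mul_mem (h3 _) hS) _))))
  have hxE : ∀ E : IntermediateField 𝕜 Ω', σ ∈ E → ι x ∈ E := fun E => hxS E.toSubalgebra
  have hxP : ∀ W' : ValuationSubring Ω', IsPl 𝕜 W' → σ ∈ W' → ι x ∈ W' := fun W' h =>
    hxS { W'.toSubring with algebraMap_mem' := h.2 }
  have hzE : ι z ∈ E1 := by
    rw [hιz]
    exact mul_mem (mul_mem (inv_mem (E1.algebraMap_mem _)) hb.mem1) (pow_mem hη1 _)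
  have hGx : Gam 𝕜 σ ≤ Gam 𝕜 (ι x) := by
    rw [← fix_adjoin]
    exact fix_le_Gam (hxE _ (mem_adjoin_simple_self 𝕜 σ))
  have hGc : Gam 𝕜 σ ≤ Gam 𝕜 ((algebraMap 𝕜 Ω' t)⁻¹ * σ) := fun γ hγ => by
    rw [mem_Gam, map_mul, map_inv₀, γ.commutes, mem_Gam.1 hγ]
  obtain ⟨r, hr⟩ : ∃ r, r = ι rz / η := ⟨_, rfl⟩
  have hrM : r ^ M = (algebraMap 𝕜 Ω' t)⁻¹ * σ := by
    rw [hr, div_pow, ← map_pow, hrz, hιz, mul_div_cancel_right₀ _ (pow_ne_zero _ hη0)]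
  have hr0 : r ≠ 0 := by rintro rfl; exact hc0 (by rw [← hrM, zero_pow hM0])
  have R1 := (hF.res.rep k 𝕜 Ω Ω' z hzc ι G ρ₁ h1).mono (fix_le_Gam hzE)
  have R2 := twist ((hF.res.rep k 𝕜 Ω Ω' x hx ι G ρ₂ h2).mono hGx) hlam' hM0 hrM hc0 hGc
  have hf1 : E1.fixingSubgroup ≤ Gam 𝕜 σ := fix_le_Gam hb.mem1
  have hf2 : E2.fixingSubgroup ≤ Gam 𝕜 σ := fix_le_Gam hb.mem2
  obtain ⟨ρ, hρ, e1, e2⟩ := hC.ex p 𝕜 Ω' σ E0 E1 E2 hb.co hb.mem1 hb.mem2 hb.le1 hb.le2 hb.inter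
    hfac G _ _ R1 (R2.mono hf2) fun γ hγ => by
      have hz1 : γ (ι z) = ι z := fix_le_Gam (hb.le1 hzE) hγ
      have hs := hF.res.spec k 𝕜 Ω Ω' z hzc ι γ hz1
      have hO := smul_eq_iff.1 (hb.dec hγ)
      have h3 : res 𝕜 ι γ ∈ Dec k z W := mem_Dec.2 ⟨ι.injective ((hs z).trans hz1),
        smul_eq_iff.2 fun y => by rw [← hιW, hs, hO, hιW]⟩
      have h4 : γ η = η := fix_le_Gam (hb.le1 hη1) hγ
      rw [hloc _ h3, ← hlι, map_div₀, hs, hr, map_div₀, h4, div_div_div_cancel_right₀ hη0]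
  have hU : Unr σ ρ := by
    intro W' hW' hσ
    obtain ⟨a, ha⟩ := hB.resid 𝕜 Ω' σ hb.co W' hW' σ hσ
    have key : ∃ W'' : ValuationSubring Ω', IsPl 𝕜 W'' ∧
        W''.valuation (σ - algebraMap 𝕜 Ω' a) < 1 ∧ ∀ γ ∈ Dec 𝕜 σ W'', ρ γ = 1 := by
      have hm : ∀ W'' : ValuationSubring Ω', IsPl 𝕜 W'' →
          W''.valuation (σ - algebraMap 𝕜 Ω' a) < 1 → ι x ∈ W'' := fun W'' h h' => hxP W'' h (by
        simpa using W''.add_mem _ _ ((W''.valuation_le_one_iff _).1 h'.le) (h.2 a))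
      by_cases hO : algebraMap 𝕜 Ω' a ∈ O
      · obtain ⟨W'', p1, p2, p3⟩ := hl.loc1 a hO
        refine ⟨W'', p1, p2, fun γ hγ => ?_⟩
        rw [e1 γ (p3 hγ)]
        exact hF.res.unr k 𝕜 Ω Ω' z hzc σ hb.co ι G ρ₁ h1 u1 W'' p1
          (mem_of_pow hn0 (by rw [← map_pow, hz]; exact hm W'' p1 p2)) γ
          (fix_le_Gam hzE (p3 hγ)) (mem_Dec.1 hγ).2
      · obtain ⟨W'', p1, p2, p3⟩ := hl.loc2 a hO
        refine ⟨W'', p1, p2, fun γ hγ => ?_⟩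
        have ha0 : a ≠ 0 := by rintro rfl; exact hO (by simp)
        have h3 : γ r = r := hB.unitFix 𝕜 Ω' σ hb.co W'' p1 γ (mem_Dec.1 hγ).2 r M hMk
          (val_of_pow hM0 (by rw [hrM, map_mul, map_inv₀, val_const p1.2 ht,
            val_eq_of_sub (val_const p1.2 ha0) p2, inv_one, one_mul]))
          (by rw [hrM]; exact hGc (Dec_le _ _ hγ))
        rw [e2 γ (p3 hγ), hF.res.unr k 𝕜 Ω Ω' x hx σ hb.co ι G ρ₂ h2 u2 W'' p1 (hm W'' p1 p2) γ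
          (hGx (Dec_le _ _ hγ)) (mem_Dec.1 hγ).2, h3, div_self hr0, lam_one hlam', one_mul]
    obtain ⟨W'', p1, p2, p3⟩ := key
    obtain ⟨δ, hδ, rfl⟩ := conj_at hF.conj hB hb.co p1 hW' p2 ha
    exact hρ.triv_smul p3 hδ
  have halg : ∀ E : IntermediateField 𝕜 Ω', σ ∈ E → ∀ y : Ω', IsAlgebraic E y := fun E hE y =>
    (hb.co.alg y).tower_top_of_subalgebra_le
      (A := (𝕜⟮σ⟯).toSubalgebra) (B := E.toSubalgebra) (adjoin_simple_le_iff.2 hE)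
  have hS : hρ.im = ⊤ := top_of hG hM _ hgen (by
    rintro _ (⟨γ, hγ, rfl⟩ | ⟨γ, hγ, rfl⟩)
    · obtain ⟨γ', p1, p2⟩ := hF.res.conn p k 𝕜 Ω Ω' z hzc ι E1 (halg _ hb.mem1) hzE
        (closed1 hI hb hzc hn0 ht ht1 b hj hη1 hη hιz hzE) G ρ₁ h1 γ hγ
      exact ⟨ρ γ', hρ.mem_im.2 ⟨γ', hf1 p1, rfl⟩, 1, one_mem _, one_pow _,
        by rw [e1 γ' p1, p2, mul_one]⟩
    · obtain ⟨γ', p1, p2⟩ := hF.res.conn p k 𝕜 Ω Ω' x hx ι E2 (halg _ hb.mem2) (hxE _ hb.mem2)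
        (closed2 hI hb hx hn0 ht ht1 hb1 j hιx (hxE _ hb.mem2)) G ρ₂ h2 γ hγ
      have p3 := kap_pow hrM hc0 (hGc (hf2 p1))
      exact ⟨ρ γ', hρ.mem_im.2 ⟨γ', hf2 p1, rfl⟩, (lam' (γ' r / r))⁻¹, inv_mem (hlam'.2 _ p3),
        by rw [inv_pow, ← lam_pow hlam' p3, p3, lam_one hlam', inv_one],
        by rw [e2 γ' p1, p2, mul_inv_cancel_right]⟩)
  obtain ⟨Wi, q1, q2, q3⟩ := hl.locInf
  have R3 := twist h2 hlam hM0 hrx hx.ne_zero le_rfl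
  have hv : Wi.valuation (ι x * σ⁻¹ ^ (n + 1 + j)) = 1 := hιx ▸ val_inf q1 q2 n ht hb0 hj
  obtain ⟨s1, s2, s3⟩ := hF.pull p k 𝕜 Ω Ω' x hx ι 𝕜⟮σ⟯ hb.co.ff (hxE _ (mem_adjoin_simple_self 𝕜 σ))
    Wi q1 σ⁻¹ (hB.unifInf 𝕜 Ω' σ hb.co.tr Wi q1 q2) (n + 1 + j) (by omega) hv G _ R3
    (by rw [hd, mul_assoc]; simp)
  obtain ⟨δ, hδ, hδW⟩ := conj_inf hF.conj hB hx hW s1 hxW s2
  rw [DecF_adjoin, ← hδW, R3.image_smul W hδ, hIm] at s3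
  have s4 : ρ '' (Dec 𝕜 σ Wi : Set (Aut 𝕜 Ω')) = _ := (Set.image_congr fun γ hγ => by
    have hγ' := Dec_le _ _ hγ
    have hx1 : γ (ι x) = ι x := hGx hγ'
    have hu : (ι rx / r ^ (n + 1 + j)) ^ M =
        ι x * σ⁻¹ ^ (n + 1 + j) * algebraMap 𝕜 Ω' t ^ (n + 1 + j) := by
      rw [div_pow, ← map_pow, hrx, ← pow_mul, mul_comm _ M, pow_mul, hrM, mul_assoc, ← mul_pow,
        div_eq_mul_inv, ← inv_pow, mul_inv, inv_inv, mul_comm σ⁻¹]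
    have h3 := hB.unitFix 𝕜 Ω' σ hb.co Wi q1 γ (mem_Dec.1 hγ).2 (ι rx / r ^ (n + 1 + j)) M hMk
      (val_of_pow hM0 (by rw [hu, map_mul, hv, map_pow, val_const q1.2 ht, one_pow, one_mul]))
      (by rw [hu, map_mul, map_mul, map_pow, map_pow, map_inv₀, hx1, mem_Gam.1 hγ', γ.commutes])
    have h4 := kap_pow hrM hc0 (hGc hγ')
    have h5 : ι rx ≠ 0 := by
      rw [_root_.map_ne_zero]
      rintro rfl
      exact hx.ne_zero (by rw [← hrx, zero_pow hM0])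
    have h6 : γ (ι rx) / ι rx = γ r / r := by
      have h7 : γ r ≠ 0 := by simpa using hr0
      rw [map_div₀, map_pow, div_eq_div_iff (pow_ne_zero _ h7) (pow_ne_zero _ hr0)] at h3
      have h8 : γ (ι rx) / ι rx = (γ r / r) ^ (n + 1 + j) := by
        rw [div_pow, div_eq_div_iff h5 (pow_ne_zero _ hr0), h3, mul_comm]
      rw [h8, hd, pow_succ, mul_comm (Nat.card G), mul_assoc, pow_mul, h4, one_pow, one_mul]
    rw [e2 γ (q3 hγ), ← hlι, map_div₀, hF.res.spec k 𝕜 Ω Ω' x hx ι γ hx1, h6]).trans s3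
  generalize ρ₂ δ * lam (δ rx / rx) = g at s4
  refine hT p k 𝕜 Ω Ω' σ x hb.co hx G I ⟨fun γ => g⁻¹ * ρ γ * g⁻¹⁻¹, hρ.conj g⁻¹, fun a => ?_,
    fun W' h h' γ hγ => by simp [hU W' h h' γ hγ], Wi, q1, q2, ?_⟩
  · obtain ⟨γ, hγ, e⟩ := hρ.mem_im.1 (hS ▸ Subgroup.mem_top (g * a * g⁻¹))
    exact ⟨γ, hγ, by beta_reduce; rw [e]; group⟩
  · rw [← Set.image_image (fun a => g⁻¹ * a * g⁻¹⁻¹) ρ, s4, Set.image_image]
    simp [mul_assoc]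

end Pool.Agent.Lib.IW
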