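import Pool.Agent.Lib.IW.PicA1

/-! The block `PicA`: a rational point minus a generic point is divisible. -/

open Polynomial IntermediateField
open scoped Pointwise

namespace Pool.Agent.Lib.IW

namespace PicA

section kummer

variable {k Ω : Type} [Field k] [Field Ω] [Algebra k Ω]

open Classical in
/-- The root of unity of `k` that maps to `z`, if there is one. -/
noncomputable def pick (k : Type) [Field k] [Algebra k Ω] (n : ℕ) (z : Ω) : rootsOfUnity n k :=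
  if h : ∃ ζ : rootsOfUnity n k, algebraMap k Ω ((ζ : kˣ) : k) = z then h.choose else 1

lemma pick_spec [IsAlgClosed k] {n : ℕ} (hn : n ≠ 0) {z : Ω} (h : z ^ n = 1) :
    algebraMap k Ω ((pick k n z : kˣ) : k) = z := by
  have h1 : IsIntegral k z := IsIntegral.of_pow (Nat.pos_of_ne_zero hn) (h ▸ isIntegral_one)
  obtain ⟨c, rfl⟩ := minpoly.mem_range_of_degree_eq_one k z
    (IsAlgClosed.degree_eq_one_of_irreducible k (minpoly.irreducible h1))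
  have : NeZero n := ⟨hn⟩
  have h2 : c ^ n = 1 := (algebraMap k Ω).injective (by rw [map_pow, h, map_one])
  have h3 : ∃ ζ : rootsOfUnity n k, algebraMap k Ω ((ζ : kˣ) : k) = algebraMap k Ω c :=
    ⟨rootsOfUnity.mkOfPowEq c h2, rfl⟩
  rw [pick, dif_pos h3, h3.choose_spec]

lemma kum_rep [IsAlgClosed k] {n : ℕ} (hn : n ≠ 0) {s e : Ω} (he : e ^ n = s) (hs : s ≠ 0) :
    IsRep (Gam k s) fun γ => pick k n (γ e / e) := by
  refine ⟨fun γ hγ δ hδ => ?_, (cts_apply _ e).comp fun z => pick k n (z / e)⟩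
  refine Subtype.ext (Units.ext ((algebraMap k Ω).injective ?_))
  rw [Subgroup.coe_mul, Units.val_mul, map_mul, pick_spec hn (kap_pow he hs hγ),
    pick_spec hn (kap_pow he hs hδ), pick_spec hn (kap_pow he hs (mul_mem hγ hδ)),
    kap_mul hn he hs γ hδ]

end kummer

section wreath

variable {D H : Type} [CommGroup D] [Group H] [DecidableEq H]

/-- The embedding of `D` in the first coordinate of the wreath product. -/
def ins (H : Type) [Group H] [DecidableEq H] : D →* RegularWreathProduct D H :=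
  MonoidHom.mk' (fun d => ⟨Pi.mulSingle 1 d, 1⟩) fun a b => by
    ext x
    · simp [Pi.mulSingle_mul]
    · simp

omit [DecidableEq H] in
lemma conj_left (a b : RegularWreathProduct D H) (hb : b.right = 1) :
    (a * b * a⁻¹).left 1 = b.left a.right⁻¹ := by
  simp [hb]

end wreath

section ext

variable {k 𝕜 Ω Ω' : Type} [Field k] [Field 𝕜] [Field Ω] [Field Ω'] [Algebra k 𝕜] [Algebra k Ω]
  [Algebra k Ω'] [Algebra 𝕜 Ω'] [IsScalarTower k 𝕜 Ω'] (ι : Ω →ₐ[k] Ω')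

lemma map_mem_adjoin {S : Set Ω} {E : IntermediateField 𝕜 Ω'} (h : ∀ s ∈ S, ι s ∈ E) {y : Ω}
    (hy : y ∈ IntermediateField.adjoin k S) : ι y ∈ E :=
  (IntermediateField.adjoin_le_iff (T := (E.restrictScalars k).comap ι)).2 h hy

lemma fg_ext {L : IntermediateField k Ω} (h : L.FG) :
    (IntermediateField.adjoin 𝕜 (ι '' (L : Set Ω))).FG := by
  classical
  obtain ⟨S, rfl⟩ := h
  refine ⟨S.image ι, le_antisymm (adjoin.mono _ _ _ ?_) (adjoin_le_iff.2 ?_)⟩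
  · rw [Finset.coe_image]
    exact Set.image_mono (subset_adjoin _ _)
  · rintro _ ⟨y, hy, rfl⟩
    exact map_mem_adjoin ι (fun s hs => subset_adjoin _ _ (by simpa using ⟨s, hs, rfl⟩)) hy

lemma sep_ext {x y : Ω} {E : IntermediateField 𝕜 Ω'} (hx : ι x ∈ E) (hy : IsSeparable k⟮x⟯ y) :
    IsSeparable E (ι y) := by
  let ψ : k⟮x⟯ →+* E := (ι.toRingHom.comp (k⟮x⟯).subtype).codRestrict E fun z =>
    map_mem_adjoin ι (fun s hs => by rw [Set.mem_singleton_iff.1 hs]; exact hx) z.2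
  refine Separable.of_dvd (Separable.map (f := ψ) hy) (minpoly.dvd _ _ ?_)
  have := congrArg ι (minpoly.aeval k⟮x⟯ y)
  rw [map_zero, aeval_def] at this
  rw [aeval_def, eval₂_map, ← this]
  exact (hom_eval₂ _ _ ι.toRingHom y).symm

lemma generic [IsAlgClosed k] (hB : StmtBas) {x : Ω} (hx : Co k x) {R : ValuationSubring Ω'}
    (hR : IsPl 𝕜 R) {b : 𝕜} (hb : R.valuation (ι x - algebraMap 𝕜 Ω' b) < 1)
    (hn : ∀ c : k, b ≠ algebraMap k 𝕜 c) (y : Ω) : ι y ∈ R := by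
  by_contra hy
  have hW : IsPl k (R.comap ι.toRingHom) := by
    refine ⟨fun h => hy ?_, fun c => ?_⟩
    · have : y ∈ R.comap ι.toRingHom := h ▸ ValuationSubring.mem_top y
      exact this
    · change ι (algebraMap k Ω c) ∈ R
      rw [ι.commutes, IsScalarTower.algebraMap_apply k 𝕜 Ω']
      exact hR.2 _
  obtain ⟨c, hc⟩ := hB.resid k Ω x hx _ hW x (mem_of_lt hR hb)
  have h1 : R.valuation (ι x - algebraMap 𝕜 Ω' (algebraMap k 𝕜 c)) < 1 := by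
    rw [← IsScalarTower.algebraMap_apply, ← ι.commutes, ← map_sub, lt_one_iff, ← map_inv₀]
    exact (lt_one_iff.1 hc).imp (fun h => by rw [h, map_zero]) id
  rw [val_other hR hb (hn c)] at h1
  exact lt_irrefl _ h1

end ext

end PicA

open PicA

theorem blockPicA (hF : Found) (hP : StmtPD) (hC : StmtCore) : StmtPicA := by
  intro p _ k Ω _ _ _ _ _ _ x hx L hfg hxL hsepL H _ _ ρ hρ hker n hpn
  classical
  obtain ⟨𝕜, Ω', _, _, _, _, _, _, _, _, σ, E0, E1, E2, O, hB, hFa, hL⟩ := hP k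
  have : CharP 𝕜 p := charP_of_injective_algebraMap (algebraMap k 𝕜).injective p
  have hn : n ≠ 0 := fun h => hpn (h ▸ dvd_zero p)
  have : NeZero n := ⟨hn⟩
  have hnk : (n : k) ≠ 0 := fun h => hpn ((CharP.cast_eq_zero_iff k p n).1 h)
  have hσ := hB.co
  obtain ⟨t, ht, htv⟩ := hB.small
  have htO : algebraMap 𝕜 Ω' t ∈ O := (O.valuation_le_one_iff _).1 htv.le
  have ht' : algebraMap 𝕜 Ω' t ≠ 0 := by simpa using ht
  obtain ⟨y, hyi, hy, hyp⟩ := hF.str p k Ω x hx _ le_rfl H ρ hρ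
  obtain ⟨a, g, hgm, hgs, hgy⟩ := exists_poly hF hx hyi hy hyp
  have htr : Transcendental 𝕜 (algebraMap k Ω' a + algebraMap 𝕜 Ω' t * σ) := fun h => hσ.tr <| by
    have e : σ = algebraMap 𝕜 Ω' t⁻¹ * ((algebraMap k Ω' a + algebraMap 𝕜 Ω' t * σ) -
        algebraMap 𝕜 Ω' (algebraMap k 𝕜 a)) := by
      rw [← IsScalarTower.algebraMap_apply, map_inv₀]
      field_simp
      ring
    rw [e]
    exact (isAlgebraic_algebraMap _).mul (h.sub (isAlgebraic_algebraMap _))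
  obtain ⟨ι, hι⟩ := hF.bas.exEmb k Ω Ω' x _ hx (Transcendental.of_tower_top k htr)
  have hco : Co 𝕜 (ι x) := hF.bas.coOf 𝕜 Ω' σ _ hσ (hι ▸ htr)
  have hfx : ∀ γ : Aut 𝕜 Ω', γ ∈ Gam 𝕜 σ → γ (ι x) = ι x := fun γ hγ => by
    rw [hι, map_add, map_mul, mem_Gam.1 hγ, γ.commutes, IsScalarTower.algebraMap_apply k 𝕜 Ω',
      γ.commutes]
  have hxE : ∀ E : IntermediateField 𝕜 Ω', σ ∈ E → ι x ∈ E := fun E h => by
    rw [hι, IsScalarTower.algebraMap_apply k 𝕜 Ω']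
    exact add_mem (E.algebraMap_mem _) (mul_mem (E.algebraMap_mem _) h)
  have hr : IsRep (Gam 𝕜 σ) fun γ => ρ (res 𝕜 ι γ) :=
    (hF.res.rep k 𝕜 Ω Ω' x hx ι H ρ hρ).mono hfx
  have hspec : ∀ γ ∈ Gam 𝕜 σ, ∀ z, ι (res 𝕜 ι γ z) = γ (ι z) := fun γ hγ =>
    hF.res.spec k 𝕜 Ω Ω' x hx ι γ (hfx γ hγ)
  have hresx : ∀ γ ∈ Gam 𝕜 σ, res 𝕜 ι γ ∈ Gam k x := fun γ hγ =>
    ι.injective (by rw [AlgEquiv.smul_def]; exact (hspec γ hγ x).trans (hfx γ hγ))
  have hle1 : E1.fixingSubgroup ≤ Gam 𝕜 σ := fix_le_Gam hB.mem1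
  have hle2 : E2.fixingSubgroup ≤ Gam 𝕜 σ := fix_le_Gam hB.mem2
  have hE1 : ∀ γ ∈ E1.fixingSubgroup, ρ (res 𝕜 ι γ) = 1 := by
    intro γ hγ
    have h1 : ι (y 1) ∈ E1 := by
      refine hB.hens1 g hgm hgs t htv _ ?_
      have h2 := hom_eval₂ g (aeval (x - algebraMap k Ω a)).toRingHom ι.toRingHom (y 1)
      rw [hgy, map_zero] at h2
      rw [h2]
      congr 1
      ext
      · simp
      · simp [hι]
    have h3 := hspec γ (hle1 hγ) (y 1)
    rw [(IntermediateField.mem_fixingSubgroup_iff E1 γ).1 hγ _ h1,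
      hyp _ (hresx γ (hle1 hγ))] at h3
    simpa using hyi (ι.injective h3)
  set F := IntermediateField.adjoin 𝕜 (ι '' (L : Set Ω)) with hFdef
  have hLF : ∀ z ∈ L, ι z ∈ F := fun z hz => subset_adjoin _ _ ⟨z, hz, rfl⟩
  have hσF : σ ∈ F := by
    have e : σ = (ι x - ι (algebraMap k Ω a)) / algebraMap 𝕜 Ω' t := by
      rw [hι, ι.commutes]
      field_simp
      ring
    rw [e]
    exact div_mem (sub_mem (hLF x hxL) (hLF _ (L.algebraMap_mem a))) (F.algebraMap_mem t)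
  have hff : FF F := ⟨fg_ext ι hfg, σ, hσF, hσ⟩
  have hsep : ∀ z ∈ F, IsSeparable 𝕜⟮σ⟯ z := fun z hz =>
    (adjoin_le_iff (T := (separableClosure 𝕜⟮σ⟯ Ω').restrictScalars 𝕜)).2 (by
      rintro _ ⟨w, hw, rfl⟩
      exact sep_ext ι (hxE _ (mem_adjoin_simple_self 𝕜 σ)) (hsepL w hw)) hz
  have hfix : ∀ γ, γ ∈ F.fixingSubgroup ↔ γ ∈ Gam 𝕜 σ ∧ ρ (res 𝕜 ι γ) = 1 := by
    intro γ
    refine ⟨fun h => ?_, fun ⟨h1, h2⟩ => mem_fix_adjoin.2 ?_⟩
    · have h1 := fix_le_Gam hσF h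
      refine ⟨h1, ((hker _).1 ((IntermediateField.mem_fixingSubgroup_iff L _).2 fun z hz =>
        ι.injective ?_)).2⟩
      exact (hspec γ h1 z).trans ((IntermediateField.mem_fixingSubgroup_iff F γ).1 h _ (hLF z hz))
    · rintro _ ⟨z, hz, rfl⟩
      rw [← hspec γ h1, (IntermediateField.mem_fixingSubgroup_iff L _).1
        ((hker _).2 ⟨hresx γ h1, h2⟩) z hz]
  have hσt : σ - algebraMap 𝕜 Ω' t ≠ 0 := fun h =>
    hσ.tr (sub_eq_zero.1 h ▸ isAlgebraic_algebraMap t)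
  have hs0 : σ / (σ - algebraMap 𝕜 Ω' t) ≠ 0 := div_ne_zero hσ.ne_zero hσt
  obtain ⟨e, he⟩ := IsAlgClosed.exists_pow_nat_eq (σ / (σ - algebraMap 𝕜 Ω' t))
    (Nat.pos_of_ne_zero hn)
  have he0 : e ≠ 0 := fun h => hs0 (by rw [← he, h, zero_pow hn])
  have hGs : Gam 𝕜 σ ≤ Gam 𝕜 (σ / (σ - algebraMap 𝕜 Ω' t)) := fun γ hγ => by
    rw [mem_Gam, map_div₀, map_sub, mem_Gam.1 hγ, γ.commutes]
  have hκ := (kum_rep (k := 𝕜) hn he hs0).mono hGs
  have hκe : ∀ γ ∈ Gam 𝕜 σ,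
      γ e = algebraMap 𝕜 Ω' ((pick 𝕜 n (γ e / e) : 𝕜ˣ) : 𝕜) * e := fun γ hγ => by
    rw [pick_spec hn (kap_pow he hs0 (hGs hγ)), div_mul_cancel₀ _ he0]
  have hes : IsSeparable 𝕜⟮σ⟯ e := by
    have hm : σ / (σ - algebraMap 𝕜 Ω' t) ∈ 𝕜⟮σ⟯ := div_mem (mem_adjoin_simple_self 𝕜 σ)
      (sub_mem (mem_adjoin_simple_self 𝕜 σ) (IntermediateField.algebraMap_mem _ t))
    have hn' : (n : 𝕜⟮σ⟯) ≠ 0 := by
      have := (map_ne_zero (algebraMap 𝕜 𝕜⟮σ⟯)).2 ((map_ne_zero (algebraMap k 𝕜)).2 hnk)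
      rwa [map_natCast, map_natCast] at this
    refine Separable.of_dvd (separable_X_pow_sub_C (⟨_, hm⟩ : 𝕜⟮σ⟯) hn'
      fun h => hs0 (congrArg Subtype.val h)) (minpoly.dvd _ _ ?_)
    simp [he]
  have heE : e ∈ E0 := by
    refine hB.hens0 (X ^ n - C (1 + X)) (monic_X_pow_sub_C _ hn) ?_
      (algebraMap 𝕜 Ω' t / (σ - algebraMap 𝕜 Ω' t))
      (div_mem (E0.algebraMap_mem t) (sub_mem (hB.le1 hB.mem1) (E0.algebraMap_mem t))) ?_ e ?_
    · simpa using separable_X_pow_sub_C (1 : k) hnk one_ne_zero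
    · rwa [map_div₀, hB.gauss t htO, div_one]
    · rw [eval₂_sub, eval₂_X_pow, eval₂_C, he]
      simp
      field_simp
      ring
  obtain ⟨τ, hτ, hτ1, hτ2⟩ := hC.ex p 𝕜 Ω' σ E0 E1 E2 hσ hB.mem1 hB.mem2 hB.le1 hB.le2 hB.inter hFa
    (RegularWreathProduct (rootsOfUnity n 𝕜) H) _ _ ((hκ.mono hle1).comp (ins H))
    ((hr.mono hle2).comp RegularWreathProduct.inl) fun γ hγ => by
      have h1 := (IntermediateField.mem_fixingSubgroup_iff E0 γ).1 hγ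
      have h2 : γ ∈ E1.fixingSubgroup :=
        (IntermediateField.mem_fixingSubgroup_iff E1 γ).2 fun z hz => h1 z (hB.le1 hz)
      have h3 := (hκ.mono hle1).one
      simp only [AlgEquiv.one_apply] at h3
      simp only [h1 e heE, h3, hE1 γ h2, map_one]
  have hright : ∀ γ ∈ Gam 𝕜 σ, (τ γ).right = ρ (res 𝕜 ι γ) :=
    hC.uniq p 𝕜 Ω' σ E1 E2 hσ hB.mem1 hB.mem2 hB.inter H _ _
      (hτ.comp RegularWreathProduct.rightHom) hr
      (fun γ hγ => by rw [hτ1 γ hγ, hE1 γ hγ]; rfl) fun γ hγ => by rw [hτ2 γ hγ]; rfl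
  have hleF : F.fixingSubgroup ≤ Gam 𝕜 σ := fix_le_Gam hσF
  have hχ : IsRep F.fixingSubgroup fun γ => (τ γ).left 1 := by
    refine ⟨fun γ hγ δ hδ => ?_, (hτ.cts.mono hleF).comp fun w => w.left 1⟩
    rw [hτ.mul γ (hleF hγ) δ (hleF hδ), RegularWreathProduct.mul_left, Pi.mul_apply,
      hright γ (hleF hγ), ((hfix γ).1 hγ).2, inv_one, one_mul]
  obtain ⟨φ, hφ0, hφs, hφ⟩ := hF.fld.h90 p 𝕜 Ω' σ hσ _ hleF _ _ hχ (rootsOfUnity n 𝕜).subtype
  have hle : 𝕜⟮σ⟯ ≤ F := adjoin_simple_le_iff.2 hσF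
  have hφF : φ ^ n ∈ F := by
    refine hF.gal.sep 𝕜 Ω' F (fun z => alg_of_le hle (hσ.alg z)) _
      (sep_of_le hle (pow_mem (S := separableClosure 𝕜⟮σ⟯ Ω') hφs n)) fun γ hγ => ?_
    rw [map_pow, hφ γ hγ, mul_pow, ← map_pow, Subgroup.coe_subtype,
      (mem_rootsOfUnity' n _).1 ((τ γ).left 1).2, map_one, one_mul]
  have hconj : ∀ δ ∈ Gam 𝕜 σ, ∀ γ ∈ Gam 𝕜 σ, ρ (res 𝕜 ι γ) = 1 → (δ * γ * δ⁻¹) φ =
      algebraMap 𝕜 Ω' (((τ γ).left (ρ (res 𝕜 ι δ))⁻¹ : 𝕜ˣ) : 𝕜) * φ := by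
    intro δ hδ γ hγ h1
    have h2 : δ * γ * δ⁻¹ ∈ F.fixingSubgroup := (hfix _).2 ⟨mul_mem (mul_mem hδ hγ) (inv_mem hδ), by
      rw [hr.mul _ (mul_mem hδ hγ) _ (inv_mem hδ), hr.mul _ hδ _ hγ, hr.inv hδ, h1]
      simp⟩
    rw [hφ _ h2, hτ.mul _ (mul_mem hδ hγ) _ (inv_mem hδ), hτ.mul _ hδ _ hγ, hτ.inv hδ,
      conj_left _ _ ((hright γ hγ).trans h1), hright δ hδ]
    rfl
  obtain ⟨R₀, hR₀, hv₀, hd₀⟩ := hL.loc1 0 (by simp)
  obtain ⟨R₁, hR₁, hv₁, hd₁⟩ := hL.loc1 t htO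
  refine ⟨𝕜, Ω', inferInstance, inferInstance, inferInstance, inferInstance, inferInstance,
    inferInstance, inferInstance, inferInstance, ι, R₀, R₁, φ ^ n, hco, hR₀, hR₁, ?_,
    fun z _ => ?_, ?_⟩
  · refine ⟨(x - algebraMap k Ω a)⁻¹, inv_mem (sub_mem hxL (L.algebraMap_mem a)), ?_⟩
    rw [map_inv₀, map_sub, hι, ι.commutes, add_sub_cancel_left]
    refine (lt_one_iff.1 ?_).resolve_left (mul_ne_zero ht' hσ.ne_zero)
    rw [map_mul, val_const hR₀.2 ht, one_mul]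
    simpa using hv₀
  · refine generic ι hF.bas hx hR₁ (b := algebraMap k 𝕜 a + t * t) ?_ (fun c hc => ?_) z
    · have e : ι x - algebraMap 𝕜 Ω' (algebraMap k 𝕜 a + t * t) =
          algebraMap 𝕜 Ω' t * (σ - algebraMap 𝕜 Ω' t) := by
        rw [hι, map_add, map_mul, ← IsScalarTower.algebraMap_apply]
        ring
      rwa [e, map_mul, val_const hR₁.2 ht, one_mul]
    · have e : t * t = algebraMap k 𝕜 (c - a) := by rw [map_sub, ← hc, add_sub_cancel_left]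
      have h1 : c - a ≠ 0 := fun h => mul_ne_zero ht ht (by rw [e, h, map_zero])
      have h2 := val_const hB.const h1
      rw [IsScalarTower.algebraMap_apply k 𝕜 Ω', ← e, map_mul, map_mul] at h2
      exact (mul_lt_one_of_lt_of_le htv htv.le).ne h2
  refine div_mod p hF hσ hL hff hσF hsep hr hfix hE1 ht htO he he0 hes hφ0 hφs hφF
    (fun δ hδ γ hγ h1 => ?_) (fun δ hδ γ hγ h1 => ?_) (fun δ hδ γ hγ h1 => ?_)
    hR₀ hR₁ hv₀ hv₁ hd₀ hd₁
  · have h2 := hle1 hγ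
    have h3 : pick 𝕜 n ((δ * γ * δ⁻¹) e / e) = pick 𝕜 n (γ e / e) := by
      have h4 := hκ.mul _ (mul_mem hδ h2) _ (inv_mem hδ)
      have h5 := hκ.mul _ hδ _ h2
      have h6 := hκ.inv hδ
      beta_reduce at h4 h5 h6
      rw [h4, h5, h6, mul_inv_cancel_comm]
    rw [map_div₀, hconj δ hδ γ h2 (hE1 γ hγ), hκe _ (mul_mem (mul_mem hδ h2) (inv_mem hδ)), h3, h1,
      hτ1 γ hγ, inv_one]
    have h7 : (ins H (pick 𝕜 n (γ e / e))).left 1 = pick 𝕜 n (γ e / e) := by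
      simp [ins]
    rw [h7, mul_div_mul_left]
    simp
  · rw [hconj δ hδ γ (hle1 hγ) (hE1 γ hγ), hτ1 γ hγ]
    have : (ins H (pick 𝕜 n (γ e / e))).left (ρ (res 𝕜 ι δ))⁻¹ = 1 :=
      Pi.mulSingle_eq_of_ne (inv_ne_one.2 h1) _
    simp [this]
  · rw [hconj δ hδ γ (hle2 hγ) h1, hτ2 γ hγ]
    simp

end Pool.Agent.Lib.IW
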