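import Pool.Agent.Lib.IW.PicB3

/-! Reduction of divisors; divisibility of the degree zero divisor class group. -/

open Polynomial IntermediateField

namespace Pool.Agent.Lib.IW

open Pool.Agent.Lib.MP_e06174_ag Pool.Agent.Lib.MP_ba4752_ag Place

namespace PicB

lemma exists_res {k K : Type} [Field k] [IsAlgClosed k] [Field K] [Algebra k K] {x : K}
    (h : IsCoord k x) (v : Place k K) : ∃ ρ : v.O →+* k, ∀ y : v.O, v.At y (ρ y) := by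
  have h1 : ∀ y : v.O, v.At y (v.cen y) := fun y => h.at_cen (mem_O.1 y.2)
  refine ⟨⟨⟨⟨fun y => v.cen y, At.cen_eq (by simp [At])⟩, fun a b => At.cen_eq ?_⟩,
    At.cen_eq (by simp [At]), fun a b => At.cen_eq ?_⟩, h1⟩
  · have h2 := ((mem_O.1 a.2).mul' (h1 b) (l := 1) le_rfl).add
      ((ge_const (v.cen b)).mul' (h1 a) (l := 1) le_rfl)
    have e : (a : K) * (b - algebraMap k K (v.cen b)) + algebraMap k K (v.cen b) *
        (a - algebraMap k K (v.cen a)) = a * b - algebraMap k K (v.cen a * v.cen b) := by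
      rw [map_mul]; ring
    rwa [e] at h2
  · have h2 := Ge.add (h1 a) (h1 b)
    have e : (a : K) - algebraMap k K (v.cen a) + (b - algebraMap k K (v.cen b)) =
        a + b - algebraMap k K (v.cen a + v.cen b) := by
      rw [map_add]; ring
    rwa [e] at h2

lemma exists_not_mem (hB : StmtBas) {k Ω : Type} [Field k] [IsAlgClosed k] [Field Ω] [Algebra k Ω]
    {x : Ω} (hx : Co k x) {L : IntermediateField k Ω} (hL : x ∈ L) {W : ValuationSubring Ω}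
    (hW : IsPl k W) : ∃ y ∈ L, y ∉ W := by
  by_cases h : x ∈ W
  · obtain ⟨c, hc⟩ := hB.resid k Ω x hx W hW x h
    refine ⟨_, inv_mem (sub_mem hL (L.algebraMap_mem c)), fun h2 => ?_⟩
    have a1 : W.valuation (x - algebraMap k Ω c) ≠ 0 := by simpa using sub_const_ne_zero hx.tr c
    rw [← W.valuation_le_one_iff, map_inv₀, inv_le_one₀ (zero_lt_iff.2 a1)] at h2
    exact absurd hc (not_lt.2 h2)
  · exact ⟨x, hL, h⟩

lemma ge_one_iff_inv {k K : Type} [Field k] [Field K] [Algebra k K] (v : Place k K) {y : K}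
    (hy : y ≠ 0) : v.Ge 1 y ↔ ¬ v.Ge 0 y⁻¹ := by
  rw [ge_iff hy, ge_iff (inv_ne_zero hy), ord_inv]
  omega

end PicB

open PicB

theorem blockPicB (hF : Found) (hN : StmtNorm) : StmtPicB := by
  intro p _ k 𝕜 Ω Ω' _ _ _ _ _ _ _ _ _ _ _ _ _ _ x hx L hfg hxL hsep n ι R₀ R₁ f hco hR₀ hR₁ hex
    hall hdiv W₂ hW₂
  set F := adjoin 𝕜 (ι '' (L : Set Ω)) with hFd
  have hm : ∀ y ∈ L, ι y ∈ F := fun y hy => subset_adjoin _ _ ⟨y, hy, rfl⟩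
  let j : L →ₐ[k] F :=
    { toFun := fun y => ⟨ι y, hm y y.2⟩
      map_one' := Subtype.ext (map_one ι)
      map_mul' := fun a b => Subtype.ext (map_mul ι _ _)
      map_zero' := Subtype.ext (map_zero ι)
      map_add' := fun a b => Subtype.ext (map_add ι _ _)
      commutes' := fun c => Subtype.ext (ι.commutes c) }
  have hgen : adjoin 𝕜 (Set.range j) = ⊤ := by
    apply lift_injective
    rw [lift_adjoin, lift_top]
    refine congrArg (adjoin 𝕜) (Set.ext fun z => ⟨?_, ?_⟩)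
    · rintro ⟨_, ⟨y, rfl⟩, rfl⟩
      exact ⟨y, y.2, rfl⟩
    · rintro ⟨y, hy, rfl⟩
      exact ⟨_, ⟨⟨y, hy⟩, rfl⟩, rfl⟩
  have hx' := sepCoord_sub hxL hx.tr hfg hsep
  have ht : Transcendental 𝕜 (j ⟨x, hxL⟩) := fun h => hco.tr (isAlgebraic_iff.1 h)
  have hz := sepCoord_map j hgen hx' ht
  obtain ⟨y₀, hy₀, hy₀'⟩ := hex
  obtain ⟨Q₀, q₀⟩ := exists_ov hz hR₀.2 ⟨_, hm y₀ hy₀, hy₀'⟩
  obtain ⟨Q₁, q₁⟩ := exists_ov hz hR₁.2 (exists_not_mem hF.bas hco (hm x hxL) hR₁)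
  obtain ⟨P₂, p₂⟩ := exists_ov hx' hW₂.2 (exists_not_mem hF.bas hx hxL hW₂)
  obtain ⟨P₀, p₀⟩ := exists_ov (W := R₀.comap ι.toRingHom) hx' (fun c => by
    change ι _ ∈ R₀
    rw [ι.commutes, IsScalarTower.algebraMap_apply k 𝕜 Ω']
    exact hR₀.2 _) ⟨y₀, hy₀, hy₀'⟩
  obtain ⟨hf0, hf⟩ := (divMod_iff hF.bas hz (f := ⟨f, hdiv.1⟩) q₀ q₁).1 hdiv
  obtain ⟨ρ₁, r₁⟩ := exists_res hz.toIsCoord Q₁
  obtain ⟨ρ₂, r₂⟩ := exists_res hx'.toIsCoord P₂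
  let η : L →+* 𝕜 := ρ₁.comp (j.toRingHom.codRestrict Q₁.O fun y =>
    mem_O.2 ((q₁ (j y)).1 (hall y y.2)))
  have hη : ∀ y, Q₁.At (j y) (η y) := fun y => r₁ ⟨j y, mem_O.2 ((q₁ (j y)).1 (hall y y.2))⟩
  obtain ⟨O, ρ, o₁, o₂⟩ := chev2 hF.chev (η.comp P₂.O.subtype)
    (η.injective.comp Subtype.val_injective) ρ₂
  obtain ⟨Γ, hΓ, hΓ'⟩ := exists_red (j := j) hF.chev hx'.toIsCoord ht ρ o₂ fun c => by
    obtain ⟨a1, a2⟩ := o₁ ⟨algebraMap k L c, mem_O.2 (ge_const c)⟩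
    have e1 : η (algebraMap k L c) = algebraMap k 𝕜 c := (hη _).unique (by
      rw [At, j.commutes, IsScalarTower.algebraMap_apply k 𝕜 F, sub_self]
      exact ge_zero _)
    refine ⟨e1 ▸ a1, Eq.trans (congrArg ρ (Subtype.ext e1.symm)) (a2.trans ?_)⟩
    exact (r₂ _).unique (by simp [At])
  obtain ⟨f₀, h0, h1⟩ := core hN hΓ hgen hx' hf0 (P₀ := P₀) (P₂ := P₂) hf (fun y hy => by
    by_cases h2 : y = 0
    · simp [h2]
    rw [ge_one_iff_inv _ h2, ← p₀] at hy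
    rw [ge_one_iff_inv _ (by simpa using h2), ← map_inv₀, ← q₀]
    exact hy) fun y c hc => by
      obtain ⟨a1, a2⟩ := o₁ ⟨y, mem_O.2 hc.ge_zero⟩
      refine ⟨η y, hη y, ?_⟩
      have a3 := hΓ' ⟨_, a1⟩
      rwa [a2, (r₂ ⟨y, mem_O.2 hc.ge_zero⟩).unique hc] at a3
  exact ⟨f₀, (divMod_iff hF.bas hx' p₀ p₂).2 ⟨h0, h1⟩⟩

theorem blockPic (hA : StmtPicA) (hB' : StmtPicB) (hF : Found) : StmtPic := by
  intro p _ k Ω _ _ _ _ _ _ x hx L hfg hxL hsep H _ _ ρ hρ hL n hn W₁ W₂ hW₁ hW₂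
  obtain ⟨𝕜, Ω', _, _, _, _, _, _, _, _, ι, R₀, R₁, f, a1, a2, a3, a4, a5, a6⟩ :=
    hA p k Ω x hx L hfg hxL hsep H ρ hρ hL n hn
  have h := hB' p k 𝕜 Ω Ω' x hx L hfg hxL hsep n ι R₀ R₁ f a1 a2 a3 a4 a5 a6
  obtain ⟨f₁, b1, b2, b3⟩ := h W₁ hW₁
  obtain ⟨f₂, c1, c2, c3⟩ := h W₂ hW₂
  refine ⟨f₂ / f₁, div_mem c1 b1, div_ne_zero c2 b2, fun W hW π hπ => ?_⟩
  obtain ⟨i₁, d1, d2⟩ := b3 W hW π hπ
  obtain ⟨i₂, e1, e2⟩ := c3 W hW π hπ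
  refine ⟨i₂ - i₁, ?_, ?_⟩
  · rw [map_div₀, d1, e1, zpow_sub₀ (by simpa using hπ.2.1)]
  · have h3 := dvd_sub e2 d2
    refine h3.trans (dvd_of_eq ?_)
    ring

end Pool.Agent.Lib.IW
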