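import Pool.Agent.Lib.IW.Heis2

/-! More shared helpers for the induction steps. -/

open Polynomial IntermediateField
open scoped Pointwise

namespace Pool.Agent.Lib.IW

section Grp

variable {G : Type} [Group G] [Finite G] {p : ℕ} [hp : Fact p.Prime]

/-- A group generated by the conjugates of a `p`-subgroup has no quotient of order prime to `p`. -/
lemma quasi_p {P : Subgroup G} (hP : IsPGroup p P) (h : Subgroup.normalClosure (P : Set G) = ⊤)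
    (N : Subgroup G) (hN : N.Normal) (hi : ¬ p ∣ N.index) : N = ⊤ := by
  rw [eq_top_iff, ← h]
  refine Subgroup.normalClosure_le_normal fun a ha => ?_
  obtain ⟨j, hj⟩ := hP ⟨a, ha⟩
  have h1 : a ^ p ^ j = 1 := congrArg Subtype.val hj
  have h2 : Nat.gcd (p ^ j) N.index = 1 :=
    Nat.Coprime.pow_left j ((Nat.Prime.coprime_iff_not_dvd hp.out).2 hi)
  have h3 : (QuotientGroup.mk' N a) ^ Nat.gcd (p ^ j) N.index = 1 :=
    pow_gcd_eq_one.2 ⟨by rw [← map_pow, h1, map_one], pow_card_eq_one'⟩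
  rw [h2, pow_one] at h3
  exact (QuotientGroup.eq_one_iff a).1 h3

/-- The part of the group order prime to `p`. -/
lemma exists_pprime (G : Type) [Group G] [Finite G] (p : ℕ) [hp : Fact p.Prime] :
    ∃ M : ℕ, ¬ p ∣ M ∧ (∃ j : ℕ, ∀ g : G, g ^ (M * p ^ j) = 1) ∧
      ∀ (g : G) (n : ℕ), ¬ p ∣ n → g ^ n = 1 → g ^ M = 1 := by
  have h1 : ∀ g : G, g ^ (ordCompl[p] (Nat.card G) * p ^ (Nat.card G).factorization p) = 1 :=
    fun g => by rw [mul_comm, Nat.ordProj_mul_ordCompl_eq_self, pow_card_eq_one']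
  refine ⟨_, Nat.not_dvd_ordCompl hp.out Nat.card_pos.ne', ⟨_, h1⟩, fun g n hn h => ?_⟩
  have h2 : Nat.gcd (p ^ (Nat.card G).factorization p) n = 1 :=
    Nat.Coprime.pow_left _ ((Nat.Prime.coprime_iff_not_dvd hp.out).2 hn)
  rw [← pow_one (g ^ _), ← h2]
  exact pow_gcd_eq_one.2 ⟨by rw [← pow_mul, h1], by rw [← pow_mul, mul_comm, pow_mul, h, one_pow]⟩

omit [Finite G] in
lemma eq_one_of_pl {l : ℕ} (hl : l.Prime) (hlp : l ≠ p) {g : G} {i j : ℕ} (h1 : g ^ p ^ i = 1)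
    (h2 : g ^ l ^ j = 1) : g = 1 := by
  have h3 : Nat.gcd (p ^ i) (l ^ j) = 1 :=
    Nat.Coprime.pow _ _ ((Nat.coprime_primes hp.out hl).2 hlp.symm)
  rw [← pow_one g, ← h3]
  exact pow_gcd_eq_one.2 ⟨h1, h2⟩

end Grp

variable {k Ω : Type} [Field k] [IsAlgClosed k] [Field Ω] [IsAlgClosed Ω] [Algebra k Ω]

/-- A Kummer pull-back of a cover unramified at zero stays connected. -/
lemma im_pow (hF : Found) (p : ℕ) [Fact p.Prime] [CharP k p] {x z : Ω} (hx : Co k x) {M : ℕ}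
    (hM : ¬ p ∣ M) (hz : z ^ M = x) {G : Type} [Group G] {ρ : Aut k Ω → G}
    (hρ : IsRep (Gam k x) ρ) (hu : Unr x ρ) {γ : Aut k Ω} (hγ : γ ∈ Gam k x) :
    ∃ δ ∈ Gam k z, ρ δ = ρ γ := by
  obtain ⟨W₀, hW₀, hx₀⟩ := hF.bas.exAt k Ω x hx 0
  rw [map_zero, sub_zero] at hx₀
  obtain ⟨δ, hδ, e⟩ := Heis.exists_dec0 hF p hx hW₀ hx₀ hM hz (kap_pow hz hx.ne_zero hγ)
  have hz0 : z ≠ 0 := by
    rintro rfl
    exact hx.ne_zero (by rw [← hz, zero_pow fun h : M = 0 => hM (h ▸ dvd_zero p)])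
  rw [div_mul_cancel₀ _ hz0] at e
  have hδ' := Dec_le _ _ hδ
  refine ⟨δ⁻¹ * γ, ?_, ?_⟩
  · rw [mem_Gam, AlgEquiv.mul_apply, ← e]
    exact δ.symm_apply_apply z
  · rw [hρ.mul _ (inv_mem hδ') _ hγ,
      hu W₀ hW₀ ((W₀.valuation_le_one_iff x).1 hx₀.le) _ (inv_mem hδ), one_mul]

omit [IsAlgClosed Ω] in
/-- Twisting a representation by a central tame character. -/
lemma IsRep.twist {x r : Ω} (hx : x ≠ 0) {M : ℕ} (hM : M ≠ 0) (hr : r ^ M = x)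
    {Δ : Subgroup (Aut k Ω)} (hΔ : Δ ≤ Gam k x) {G : Type} [Group G] {ρ : Aut k Ω → G}
    (hρ : IsRep Δ ρ) {Z : Subgroup G} (hZ : Z ≤ Subgroup.center G) {lam : Ω → G}
    (hl : IsLam M Z lam) : IsRep Δ fun γ => ρ γ * lam (γ r / r) :=
  ⟨fun γ hγ δ hδ => by
    have h1 := kap_pow hr hx (hΔ hγ)
    beta_reduce
    rw [kap_mul hM hr hx γ (hΔ hδ), hl.1 _ _ h1 (kap_pow hr hx (hΔ hδ)), hρ.mul γ hγ δ hδ,
      mul_assoc (ρ γ) (lam (γ r / r)), ← mul_assoc (lam (γ r / r)),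
      ← Subgroup.mem_center_iff.1 (hZ (hl.2 _ h1)) (ρ δ)]
    simp only [mul_assoc], hρ.cts.comp₂ (cts_apply _ r) fun g y => g * lam (y / r)⟩

/-- The patching lemma without a twist. -/
lemma pl_one (hL : StmtPL) (p : ℕ) [Fact p.Prime] [CharP k p] {x z : Ω} (hx : Co k x) {n : ℕ}
    (hn : ¬ p ∣ n) (hz : z ^ n = x) {G : Type} [Group G] [Finite G]
    (hq : ∀ N : Subgroup G, N.Normal → ¬ p ∣ N.index → N = ⊤) {ρ₁ ρ₂ : Aut k Ω → G}
    (h1 : IsRep (Gam k z) ρ₁) (u1 : Unr z ρ₁) (h2 : IsRep (Gam k x) ρ₂) (u2 : Unr x ρ₂)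
    (hc : Subgroup.closure (ρ₁ '' (Gam k z : Set (Aut k Ω)) ∪ ρ₂ '' (Gam k x : Set (Aut k Ω))) = ⊤)
    {W : ValuationSubring Ω} (hW : IsPl k W) (hxW : x ∉ W) (he : ∀ γ ∈ Dec k z W, ρ₁ γ = ρ₂ γ)
    {I : Subgroup G} (hI : ρ₂ '' (Dec k x W : Set (Aut k Ω)) = (I : Set G)) : RealAt k x G I :=
  hL p k Ω x z hx n hn hz G hq ρ₁ ρ₂ h1 u1 h2 u2 hc W hW hxW 1 (Nat.Prime.not_dvd_one Fact.out)
    z x (pow_one z) (pow_one x) (fun _ => 1) ⟨by simp, fun _ _ => one_mem _⟩ (by simpa using he) I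
    (by simpa using hI)

end Pool.Agent.Lib.IW
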