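import Pool.Agent.Lib.IW.Heis3
import Pool.Agent.Lib.IW.Util2

/-! A lift with prescribed tame ramification at zero. -/

open Polynomial IntermediateField
open scoped Pointwise

namespace Pool.Agent.Lib.IW

variable {k Ω : Type} [Field k] [IsAlgClosed k] [Field Ω] [IsAlgClosed Ω] [Algebra k Ω]

theorem Heis.Pair.lift' {G A C : Type} [Group G] [AddCommGroup A] [AddCommGroup C]
    [DistribMulAction G A] {K : Subgroup G} {π : G → A} {e : C → G} {β : A →+ A →+ C}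
    (P : Heis.Pair K π e β) [Finite G] [hK : K.Normal] (hc : StmtLGc) (p : ℕ) [Fact p.Prime]
    [CharP k p] {z : Ω} (hz : Co k z) {l : ℕ} (hl : l.Prime) (hlp : l ≠ p) (hp : IsPGroup l K)
    (hcen : ⁅K, K⁆ ≤ Subgroup.center G) {ρ : Aut k Ω → G} (hρ : IsRep (Gam k z) ρ)
    {a : Aut k Ω → A} (ha : IsCoc (Gam k z) ρ a) :
    ∃ ρ' : Aut k Ω → G, IsRep (Gam k z) ρ' ∧
      (∀ W : ValuationSubring Ω, IsPl k W → z ∈ W → (∀ γ ∈ Dec k z W, ρ γ = 1 ∧ a γ = 0) →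
        ∀ γ ∈ Dec k z W, ρ' γ = 1) ∧
      ∀ γ ∈ Gam k z, ρ' γ * (ρ γ)⁻¹ ∈ K ∧ π (ρ' γ * (ρ γ)⁻¹) = a γ := by
  choose s hs hs' using P.surj
  let q := QuotientGroup.mk' ⁅K, K⁆
  have hq : ∀ g g', q g = q g' ↔ g * g'⁻¹ ∈ ⁅K, K⁆ := fun g g' => by
    rw [← mul_inv_eq_one, ← map_inv, ← map_mul]
    exact QuotientGroup.eq_one_iff _
  have hle : ⁅K, K⁆ ≤ K := Subgroup.commutator_le_right K K
  have hk : q.ker = ⁅K, K⁆ := QuotientGroup.ker_mk' _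
  obtain ⟨ρ', h1, h2, h3⟩ := hc p k Ω z hz G (G ⧸ ⁅K, K⁆) q (QuotientGroup.mk'_surjective _) l hl
    hlp (hp.to_le (hk.le.trans hle)) (hk.le.trans hcen) (fun γ => q (s (a γ) * ρ γ))
    ⟨fun γ hγ δ hδ => by
      have h4 := hK.conj_mem _ (hs (a δ)) (ρ γ)
      rw [← map_mul, hq, hρ.mul γ hγ δ hδ, show s (a (γ * δ)) * (ρ γ * ρ δ) *
        (s (a γ) * ρ γ * (s (a δ) * ρ δ))⁻¹ =
          s (a (γ * δ)) * (s (a γ) * (ρ γ * s (a δ) * (ρ γ)⁻¹))⁻¹ by group,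
        ← P.eq_iff (hs _) (mul_mem (hs _) h4), P.mul _ (hs _) _ h4, P.conj _ _ (hs _), hs', hs',
        hs', ha.add γ hγ δ hδ],
      ha.cts.comp₂ hρ.cts fun b g => q (s b * g)⟩
  refine ⟨ρ', h1, fun W hW hzW h0 => h3 W hW hzW fun γ hγ => ?_, fun γ hγ => ?_⟩
  · rw [← map_one q, hq, (h0 γ hγ).1, (h0 γ hγ).2, mul_one, inv_one, mul_one,
      ← P.ker _ (hs 0), hs']
  · have h4 := (hq _ _).1 (h2 γ hγ)
    rw [mul_inv_rev, ← mul_assoc] at h4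
    have h5 : ρ' γ * (ρ γ)⁻¹ ∈ K := by simpa using mul_mem (hle h4) (hs (a γ))
    exact ⟨h5, ((P.eq_iff h5 (hs _)).2 h4).trans (hs' _)⟩

/-- A local representation of exponent prime to `p` is trivial on the kernel of the tame
character. -/
lemma tame_triv (hF : Found) (p : ℕ) [Fact p.Prime] [CharP k p] {x π r : Ω} (hx : Co k x)
    {W : ValuationSubring Ω} (hW : IsPl k W) (hπ : IsUnif k⟮x⟯ W π) {G : Type} [Group G] [Finite G]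
    {φ : Aut k Ω → G} (hφ : IsRep (Dec k x W) φ) {M : ℕ} (hM : ¬ p ∣ M)
    (he : ∀ γ ∈ Dec k x W, φ γ ^ M = 1) (hr : r ^ M = π) {δ : Aut k Ω} (hδ : δ ∈ Dec k x W)
    (e : δ r = r) : φ δ = 1 := by
  have hD : DecF k⟮x⟯ W = Dec k x W := DecF_adjoin x W
  obtain ⟨j, hj⟩ := hF.tame2 p k Ω k⟮x⟯ hx.ff W hW π hπ G φ (hD ▸ hφ) M hM
    (fun γ hγ => ⟨0, by rw [pow_zero, mul_one, he γ (hD ▸ hγ)]⟩) r hr δ (hD ▸ hδ) e
  have h5 : Nat.gcd (p ^ j) M = 1 :=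
    Nat.Coprime.pow_left j ((Nat.Prime.coprime_iff_not_dvd Fact.out).2 hM)
  rw [← pow_one (φ δ), ← h5]
  exact pow_gcd_eq_one.2 ⟨hj, he δ hδ⟩

open Heis in
theorem blockProp (hF : Found) (h0 : StmtLG0) (hc : StmtLGc) : StmtProp := by
  intro p _ k Ω _ _ _ _ _ _ x hx G _ _ K hK l hl hlp hp hcen hKG ρ hρ hU hon W W₀ hW hxW hW₀ hx₀ M
    hM hMK z ω hz hω w hw
  have hM0 : M ≠ 0 := fun h => hM (h ▸ dvd_zero p)
  have : NeZero M := ⟨hM0⟩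
  have hle : ⁅K, K⁆ ≤ K := Subgroup.commutator_le_right K K
  have hxW₀ : x ∈ W₀ := (W₀.valuation_le_one_iff x).1 hx₀.le
  obtain ⟨lg, hlg, hlr⟩ := exists_lg (k := k) hx.ne_zero hz hω
  have hlm : ∀ γ ∈ Gam k x, ∀ δ ∈ Gam k x, lg (γ * δ) = lg γ + lg δ := hlr.mul
  obtain ⟨A, C, _, _, _, π, e, β, P⟩ := exists_pair G K hcen
  have : Finite A := Finite.of_surjective π fun a => (P.surj a).imp fun _ h => h.2
  have : Fact l.Prime := ⟨hl⟩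
  obtain ⟨j, hj⟩ := hp.exists_card_eq
  have hkill : ∀ n : ℕ, (∀ a ∈ K, a ^ n = 1) → ∀ a : A, n • a = 0 := fun n h a => by
    obtain ⟨g, hg, rfl⟩ := P.surj a
    rw [← P.pow hg, h g hg, P.one]
  obtain ⟨c, c1, c2, c3⟩ := h0 p k Ω x hx G A ρ hρ l j hl hlp
    (hkill (l ^ j) fun a ha => by
      rw [← hj]
      exact congrArg Subtype.val (pow_card_eq_one' (x := (⟨a, ha⟩ : K))))
    (P.clos hKG _ fun g a => by
      obtain ⟨γ, hγ, h⟩ := hon g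
      refine AddSubgroup.subset_closure ⟨γ, hγ, a, ?_⟩
      obtain ⟨y, hy, e'⟩ := P.surj (ρ γ • a)
      rw [← inv_mul_cancel_right g (ρ γ), mul_smul, ← e', ← P.conj _ _ hy,
        P.mul _ (mul_mem h hy) _ (inv_mem h), P.mul _ h _ hy, P.inv h]
      abel)
    W₀ hW₀ (fun γ => (lg γ).val • π w)
    ⟨fun γ hγ δ hδ => by
      rw [hU W₀ hW₀ hxW₀ γ hγ, one_smul, hlm γ (Dec_le _ _ hγ) δ (Dec_le _ _ hδ),
        val_nsmul_add (hkill M hMK _)],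
      (hlr.cts.mono (Dec_le _ _)).comp fun η => η.toAdd.val • π w⟩
  obtain ⟨a, ha⟩ := c3 W hW fun h => hxW ((h x (mem_adjoin_simple_self k x)).1 hxW₀)
  obtain ⟨ρ', p1, p2, p3⟩ := P.lift' hc p hx hl hlp hp hcen hρ (a := fun γ => c γ - (ρ γ • a - a))
    ⟨fun γ hγ δ hδ => by
      rw [c1.add γ hγ δ hδ, hρ.mul γ hγ δ hδ, smul_sub, smul_sub, mul_smul]; abel,
      c1.cts.comp₂ hρ.cts fun b g => b - (g • a - a)⟩
  have p4 : ∀ γ ∈ Dec k x W, ρ' γ * (ρ γ)⁻¹ ∈ ⁅K, K⁆ := fun γ hγ =>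
    (P.ker _ (p3 γ (Dec_le _ _ hγ)).1).1 (by rw [(p3 γ (Dec_le _ _ hγ)).2, ha γ hγ, sub_self])
  refine ⟨ρ', p1, fun γ hγ => (p3 γ hγ).1, fun W' hW' hzW γ hγ => ?_, fun γ hγ => ?_, p4,
    fun γ hγ i hi => ?_⟩
  · have hxW' : x ∈ W' := hz ▸ pow_mem hzW M
    have hγ' := Dec_le_of_pow hz W' hγ
    by_cases h : W'.valuation x < 1
    · have h1 := hF.bas.unifAt k Ω x hx.tr 0 W' hW' (by simpa using h)
      rw [map_zero, sub_zero] at h1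
      refine tame_triv hF p hx hW' h1 (p1.mono (Dec_le _ _)) hM (fun δ hδ => hMK _ ?_) hz hγ' hγ.1
      simpa [hU W' hW' hxW' δ hδ] using (p3 δ (Dec_le _ _ hδ)).1
    · obtain ⟨a', ha'⟩ := c3 W' hW' fun h1 => h (by
        have h2 := h1 x⁻¹ (inv_mem (mem_adjoin_simple_self k x))
        rw [← ValuationSubring.valuation_le_one_iff, ← ValuationSubring.valuation_le_one_iff,
          map_inv₀, map_inv₀, inv_le_one₀ (zero_lt_iff.2 (by simpa using hx.ne_zero)),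
          inv_le_one₀ (zero_lt_iff.2 (by simpa using hx.ne_zero))] at h2
        exact not_le.1 fun h3 => not_le.2 hx₀ (h2.2 h3))
      refine p2 W' hW' hxW' (fun δ hδ => ⟨hU W' hW' hxW' δ hδ, ?_⟩) γ hγ'
      rw [ha' δ hδ, hU W' hW' hxW' δ hδ]
      simp
  · refine mul_inv_eq_one.1 (tame_triv hF p hx hW (hF.bas.unifInf k Ω x hx.tr W hW hxW)
      (φ := fun γ => ρ' γ * (ρ γ)⁻¹) ⟨fun γ hγ δ hδ => ?_,
        (p1.cts.comp₂ hρ.cts fun g h => g * h⁻¹).mono (Dec_le _ _)⟩ hM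
      (fun δ hδ => hMK _ (hle (p4 δ hδ))) (r := z⁻¹) (by rw [inv_pow, hz]) (Dec_le_of_pow hz W hγ)
      (by rw [map_inv₀, mem_Gam.1 hγ.1]))
    rw [p1.mul γ (Dec_le _ _ hγ) δ (Dec_le _ _ hδ), hρ.mul γ (Dec_le _ _ hγ) δ (Dec_le _ _ hδ),
      mul_assoc (ρ' γ) (ρ γ)⁻¹, Subgroup.mem_center_iff.1 (hcen (p4 δ hδ))]
    group
  · have hγ' := Dec_le _ _ hγ
    obtain ⟨h1, h2⟩ := p3 γ hγ'
    rw [hU W₀ hW₀ hxW₀ γ hγ, inv_one, mul_one] at h1 h2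
    rw [← P.eq_iff h1 (pow_mem hw i), h2, c2 γ hγ, P.pow hw, (hlg γ hγ' i).1 hi, ZMod.val_natCast,
      ← nsmul_eq_mod_nsmul _ (hkill M hMK _)]
    simp

end Pool.Agent.Lib.IW
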