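import Pool.Agent.Lib.IW.Util

/-! Pull-back along a map with a pole of order prime to the group order. -/

open Polynomial IntermediateField
open scoped Pointwise

namespace Pool.Agent.Lib.IW

namespace Pull

lemma val_le {Ω Ω' : Type} [Field Ω] [Field Ω'] (f : Ω →+* Ω') (W' : ValuationSubring Ω') (a b : Ω) :
    (W'.comap f).valuation a ≤ (W'.comap f).valuation b ↔ W'.valuation (f a) ≤ W'.valuation (f b) := by
  by_cases hb : b = 0
  · subst hb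
    simp
  · have h1 : (W'.comap f).valuation b ≠ 0 := by simpa using hb
    have h2 : W'.valuation (f b) ≠ 0 := by simpa using hb
    rw [← div_le_one₀ (zero_lt_iff.2 h1), ← div_le_one₀ (zero_lt_iff.2 h2), ← map_div₀, ← map_div₀,
      ← map_div₀, ValuationSubring.valuation_le_one_iff, ValuationSubring.valuation_le_one_iff,
      ValuationSubring.mem_comap]

lemma val_eq {Ω Ω' : Type} [Field Ω] [Field Ω'] (f : Ω →+* Ω') (W' : ValuationSubring Ω') (a b : Ω) :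
    (W'.comap f).valuation a = (W'.comap f).valuation b ↔ W'.valuation (f a) = W'.valuation (f b) := by
  rw [le_antisymm_iff, le_antisymm_iff, val_le, val_le]

variable {k 𝕜 Ω Ω' : Type} [Field k] [Field 𝕜] [Field Ω] [Field Ω'] [Algebra k 𝕜] [Algebra k Ω]
  [Algebra k Ω'] [Algebra 𝕜 Ω'] [IsScalarTower k 𝕜 Ω']

lemma map_mem {x : Ω} (ι : Ω →ₐ[k] Ω') {F : IntermediateField 𝕜 Ω'} (hx : ι x ∈ F) {a : Ω}
    (ha : a ∈ k⟮x⟯) : ι a ∈ F := by
  induction ha using IntermediateField.adjoin_induction with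
  | mem y hy => rw [Set.mem_singleton_iff.1 hy]; exact hx
  | algebraMap c => rw [ι.commutes, IsScalarTower.algebraMap_apply k 𝕜 Ω']; exact F.algebraMap_mem _
  | add a b _ _ ha hb => rw [map_add]; exact add_mem ha hb
  | inv a _ ha => rw [map_inv₀]; exact inv_mem ha
  | mul a b _ _ ha hb => rw [map_mul]; exact mul_mem ha hb

lemma sep_map {x : Ω} (ι : Ω →ₐ[k] Ω') {F : IntermediateField 𝕜 Ω'} (hx : ι x ∈ F) {y : Ω}
    (hy : IsSeparable k⟮x⟯ y) : IsSeparable F (ι y) := by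
  let φ : k⟮x⟯ →+* F :=
    { toFun := fun a => ⟨ι a, map_mem ι hx a.2⟩
      map_one' := Subtype.ext (by simp)
      map_mul' := fun a b => Subtype.ext (by simp)
      map_zero' := Subtype.ext (by simp)
      map_add' := fun a b => Subtype.ext (by simp) }
  have h1 : ((minpoly k⟮x⟯ y).map φ).Separable := Polynomial.Separable.map hy
  have h2 : aeval (ι y) ((minpoly k⟮x⟯ y).map φ) = 0 := by
    have e : (algebraMap F Ω').comp φ = ι.toRingHom.comp (algebraMap k⟮x⟯ Ω) := RingHom.ext fun _ => rfl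
    rw [aeval_def, eval₂_map, e]
    have := Polynomial.hom_eval₂ (minpoly k⟮x⟯ y) (algebraMap k⟮x⟯ Ω) ι.toRingHom y
    rw [← aeval_def, minpoly.aeval, map_zero] at this
    exact this.symm
  exact h1.of_dvd (minpoly.dvd F _ h2)

end Pull

open Pull in
theorem blockPull (_hC : StmtConj) (hB : StmtBas) (hG : StmtGal) (hD : StmtDens) (hH : StmtHens)
    (hR : StmtRes) : StmtPull := by
  intro p _ k 𝕜 Ω Ω' _ _ _ _ _ _ _ _ _ _ _ _ _ _ x hx ι F hF hxF W' hW' π hπ d hd hv G _ _ ρ hρ hco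
  have : CharP 𝕜 p := charP_of_injective_algebraMap (algebraMap k 𝕜).injective p
  set W := W'.comap ι.toRingHom with hWdef
  have memW : ∀ y, y ∈ W ↔ ι y ∈ W' := fun y => ValuationSubring.mem_comap
  have π0 : W'.valuation π ≠ 0 := by simpa using hπ.2.1
  have π1 : W'.valuation π < 1 := hπ.2.2.1
  have hxinv : W'.valuation (ι x⁻¹) = W'.valuation π ^ d := by
    rw [map_mul, map_pow] at hv
    rw [map_inv₀, map_inv₀]
    exact inv_eq_of_mul_eq_one_right hv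
  have hxW : x ∉ W := by
    intro h
    rw [memW, ← ValuationSubring.valuation_le_one_iff] at h
    rw [map_mul, map_pow] at hv
    have h1 : W'.valuation π ^ d < 1 := pow_lt_one₀ zero_le π1 hd.ne'
    have h2 := mul_lt_mul_of_le_of_lt_of_nonneg_of_pos h h1 zero_le zero_lt_one
    rw [hv, one_mul] at h2
    exact lt_irrefl _ h2
  have hW : IsPl k W := by
    refine ⟨fun h => hxW (h ▸ ValuationSubring.mem_top x), fun c => ?_⟩
    rw [memW, ι.commutes, IsScalarTower.algebraMap_apply k 𝕜 Ω']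
    exact hW'.2 _
  refine ⟨hW, hxW, ?_⟩
  have hle : DecF F W' ≤ Gam 𝕜 (ι x) := fun γ' h => (mem_DecF.1 h).1 _ hxF
  have spec : ∀ γ' ∈ DecF F W', ∀ y, ι (res 𝕜 ι γ' y) = γ' (ι y) := fun γ' h =>
    hR.spec k 𝕜 Ω Ω' x hx ι γ' (hle h)
  have resG : ∀ γ' ∈ DecF F W', res 𝕜 ι γ' ∈ Gam k x := fun γ' h =>
    ι.toRingHom.injective ((spec γ' h x).trans (hle h))
  have hρ' : IsRep (DecF F W') fun γ' => ρ (res 𝕜 ι γ') :=
    (hR.rep k 𝕜 Ω Ω' x hx ι G ρ hρ).mono hle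
  apply Set.Subset.antisymm
  · rintro _ ⟨γ', hγ', rfl⟩
    refine ⟨res 𝕜 ι γ', mem_Dec.2 ⟨resG γ' hγ', ?_⟩, rfl⟩
    ext y
    obtain ⟨z, rfl⟩ := (res 𝕜 ι γ').surjective y
    rw [((hB.smulPl k Ω W hW (res 𝕜 ι γ')).2.1 z), memW, memW, spec γ' hγ']
    have := (hB.smulPl 𝕜 Ω' W' hW' γ').2.1 (ι z)
    rw [(mem_DecF.1 hγ').2] at this
    exact this.symm
  rintro _ ⟨γ, hγ, rfl⟩
  let Δ : Subgroup (Aut k Ω) :=
    { carrier := {δ | δ ∈ Gam k x ∧ ρ δ ∈ hρ'.im}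
      mul_mem' := fun {a b} ha hb => ⟨mul_mem ha.1 hb.1, by
        rw [hρ.mul a ha.1 b hb.1]; exact mul_mem ha.2 hb.2⟩
      one_mem' := ⟨one_mem _, by rw [hρ.one]; exact one_mem _⟩
      inv_mem' := fun {a} ha => ⟨inv_mem ha.1, by rw [hρ.inv ha.1]; exact inv_mem ha.2⟩ }
  have hΔ : ∀ δ, δ ∈ Δ ↔ δ ∈ Gam k x ∧ ρ δ ∈ hρ'.im := fun _ => Iff.rfl
  suffices h : γ ∈ Δ from hρ'.mem_im.1 h.2
  obtain ⟨S, hS⟩ := hρ.cts
  refine hG.cor p k Ω k⟮x⟯ hx.alg Δ S (by rw [fix_adjoin]; exact fun δ h => h.1) ?_ γ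
    (by rw [fix_adjoin]; exact Dec_le _ _ hγ) ?_
  · intro δ hδ h
    rw [fix_adjoin] at hδ
    refine ⟨hδ, ?_⟩
    rw [hS δ hδ 1 (one_mem _) h, hρ.one]
    exact one_mem _
  let E : IntermediateField k Ω := (separableClosure k⟮x⟯ Ω).restrictScalars k ⊓ fixedField Δ
  have hE : ∀ y, y ∈ E ↔ IsSeparable k⟮x⟯ y ∧ ∀ δ ∈ Δ, δ y = y := fun y => by
    simp only [E, IntermediateField.mem_inf, IntermediateField.mem_restrictScalars,
      mem_separableClosure_iff, IntermediateField.mem_fixedField_iff]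
  have hU := hB.unifInf k Ω x hx.tr W hW hxW
  intro y hy1 hy2
  refine hD.fix k Ω x hx W hW x⁻¹ hU.2.1 hU.2.2.1 E ?_ ?_ γ (mem_Dec.1 hγ).2
    (by rw [map_inv₀, (mem_Dec.1 hγ).1]) y ((hE y).2 ⟨hy1, hy2⟩)
  · refine (hE _).2 ⟨?_, fun δ hδ => by rw [map_inv₀, mem_Gam.1 hδ.1]⟩
    exact isSeparable_algebraMap (⟨x⁻¹, hU.1⟩ : k⟮x⟯)
  intro z hz z0
  obtain ⟨hz1, hz2⟩ := (hE z).1 hz
  obtain ⟨i, hi⟩ := hH.hens p 𝕜 Ω' F hF W' hW' π hπ (ι z) (by simpa using z0) (sep_map ι hxF hz1)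
    fun γ' h => by rw [← spec γ' h, hz2 _ ⟨resG γ' h, hρ'.mem_im.2 ⟨γ', h, rfl⟩⟩]
  have hρ0 : IsRep (DecF k⟮x⟯ W) ρ := hρ.mono (by rw [DecF_adjoin]; exact Dec_le _ _)
  obtain ⟨j, hj⟩ := hH.nrm p k Ω k⟮x⟯ hx.ff W hW x⁻¹ hU G ρ hρ0 z z0 hz1 fun δ hδ h1 => by
    rw [DecF_adjoin] at hδ
    exact hz2 δ ⟨Dec_le _ _ hδ, by rw [h1]; exact one_mem _⟩
  have ve : ∀ a b, W.valuation a = W.valuation b ↔ W'.valuation (ι a) = W'.valuation (ι b) :=
    val_eq ι.toRingHom W'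
  rw [← map_pow, ← map_zpow₀, ve, map_pow, map_pow, map_zpow₀, map_zpow₀] at hj
  rw [hi, hxinv, ← zpow_natCast, ← zpow_natCast, ← zpow_mul, ← zpow_mul] at hj
  have hij : i * Nat.card hρ0.im = d * j :=
    (zpow_right_strictAnti₀ (zero_lt_iff.2 π0) π1).injective hj
  have hc : d.Coprime (Nat.card hρ0.im) := hco.coprime_dvd_right (Subgroup.card_subgroup_dvd_card _)
  obtain ⟨m, hm⟩ : (d : ℤ) ∣ i :=
    (Nat.isCoprime_iff_coprime.2 hc).dvd_of_dvd_mul_right ⟨j, hij⟩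
  refine ⟨m, ?_⟩
  rw [← map_zpow₀, ve, map_zpow₀, map_zpow₀, hi, hxinv, hm, zpow_mul, zpow_natCast]

end Pool.Agent.Lib.IW
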