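import Pool.Agent.Lib.IW.Unif
import Pool.Agent.Lib.IW.Hens

/-! The ramification index equals the order of the decomposition group. -/

open Polynomial IntermediateField
open scoped Pointwise

namespace Pool.Agent.Lib.IW

open Pool.Agent.Lib.MP_e06174_ag Pool.Agent.Lib.MP_ba4752_ag Place

namespace Ram

variable {k Ω : Type} [Field k] [Field Ω] [Algebra k Ω]

lemma mem_of_mem {L : IntermediateField k Ω} {x : L} {y : L} (hy : y ∈ k⟮x⟯) :
    (y : Ω) ∈ k⟮(x : Ω)⟯ := by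
  rw [← lift_adjoin_simple]
  exact (mem_lift y).2 hy

/-- The two copies of `k(x)`. -/
noncomputable def eqv {L : IntermediateField k Ω} (x : L) : k⟮x⟯ ≃ₐ[k] k⟮(x : Ω)⟯ :=
  (liftAlgEquiv k⟮x⟯).trans (equivOfEq (lift_adjoin_simple k L x))

lemma eqv_apply {L : IntermediateField k Ω} (x : L) (c : k⟮x⟯) :
    ((eqv x c : k⟮(x : Ω)⟯) : Ω) = ((c : L) : Ω) := rfl

lemma he {L : IntermediateField k Ω} (x : L) :
    (algebraMap k⟮x⟯ Ω).comp ((eqv x).symm.toRingEquiv : k⟮(x : Ω)⟯ →+* k⟮x⟯) =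
      ((RingEquiv.refl Ω : Ω ≃+* Ω) : Ω →+* Ω).comp (algebraMap k⟮(x : Ω)⟯ Ω) := by
  ext c
  obtain ⟨c, rfl⟩ := (eqv x).surjective c
  change (((eqv x).symm (eqv x c) : L) : Ω) = _
  rw [AlgEquiv.symm_apply_apply]
  rfl

lemma sepCoord {L : IntermediateField k Ω} (x : L) (hx : Co k (x : Ω)) (hfg : L.FG)
    (hs : ∀ y ∈ L, IsSeparable k⟮(x : Ω)⟯ y) : SepCoord k x := by
  have h1 : Algebra.IsSeparable k⟮x⟯ L := ⟨fun y => by
    have h2 : IsSeparable k⟮x⟯ (y : Ω) :=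
      IsSeparable.of_equiv_equiv (eqv x).symm.toRingEquiv (RingEquiv.refl Ω) (he x) (hs y y.2)
    exact (isSeparable_map_iff (IsScalarTower.toAlgHom k⟮x⟯ L Ω) Subtype.val_injective).1 h2⟩
  have := essFiniteType_iff.2 hfg
  have := Algebra.EssFiniteType.of_comp k k⟮x⟯ L
  exact ⟨⟨fun h => hx.tr (h.algHom L.val), Algebra.finite_of_essFiniteType_of_isAlgebraic⟩, h1⟩

/-- An automorphism fixing `x`, restricted to `L`. -/
def emb {L : IntermediateField k Ω} (x : L) (γ : Aut k Ω) (hγ : γ ∈ Gam k (x : Ω)) :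
    L →ₐ[k⟮x⟯] Ω :=
  { (γ : Ω →+* Ω).comp (algebraMap L Ω) with
    commutes' := fun c => by
      rw [← fix_adjoin] at hγ
      exact (IntermediateField.mem_fixingSubgroup_iff _ γ).1 hγ _ (mem_of_mem c.2) }

lemma emb_surj [IsAlgClosed Ω] {L : IntermediateField k Ω} (x : L) (hx : Co k (x : Ω))
    (σ : L →ₐ[k⟮x⟯] Ω) : ∃ (γ : Aut k Ω) (hγ : γ ∈ Gam k (x : Ω)), emb x γ hγ = σ := by
  have h1 : Algebra.IsAlgebraic k⟮x⟯ Ω := ⟨fun y =>
    ((hx.alg y).isIntegral.map_of_comp_eq (eqv x).symm.toRingEquiv.toRingHom (RingHom.id Ω)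
      (he x)).isAlgebraic⟩
  have : Algebra.IsAlgebraic L Ω := Algebra.IsAlgebraic.tower_top (K := k⟮x⟯) L
  obtain ⟨φ, hφ⟩ := IsAlgClosed.surjective_domRestrict_of_isAlgebraic (K := k⟮x⟯) (L := L)
    (M := Ω) (E := Ω) σ
  refine ⟨(AlgEquiv.ofBijective φ (Algebra.IsAlgebraic.algHom_bijective φ)).restrictScalars k,
    φ.commutes (AdjoinSimple.gen k x), ?_⟩
  rw [← hφ]
  rfl

lemma val_smul (hB : StmtBas) {W : ValuationSubring Ω} (hW : IsPl k W) (γ : Aut k Ω) (y : Ω) :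
    (γ • W).valuation (γ y) = 1 ↔ W.valuation y = 1 := by
  have h := (hB.smulPl k Ω W hW γ).2.1
  rw [Hens.val_eq_one, Hens.val_eq_one, ← map_inv₀, h, h]
  simp

end Ram

open Ram Unif in
theorem blockRam (hC : StmtConj) (hB : StmtBas) (_hG : StmtGal) (hL : StmtFld) (hU : StmtUnif)
    (hN : StmtNorm) : StmtRam := by
  intro p _ k Ω _ _ _ _ _ _ x hx G _ _ ρ h W hW hxW I hI
  classical
  obtain ⟨L, hfg, hxL, hsep, hstab, hfix, -⟩ := hL.fld p k Ω x hx G ρ h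
  have hFF : FF L := ⟨hfg, x, hxL, hx⟩
  have halg := Hens.alg_of_co hxL hx
  have hx0 := hx.ne_zero
  have hmemI : ∀ g, g ∈ I ↔ ∃ d ∈ Dec k x W, ρ d = g := fun g => by
    rw [← SetLike.mem_coe, ← hI]; rfl
  have hsame : ∀ γ ∈ Gam k x, ∀ δ ∈ Gam k x, ρ γ = ρ δ → ∀ y ∈ L, γ y = δ y := by
    intro γ hγ δ hδ e y hy
    have h1 := (IntermediateField.mem_fixingSubgroup_iff L _).1 ((hfix (δ⁻¹ * γ)).2
      ⟨mul_mem (inv_mem hδ) hγ, by
        rw [h.mul _ (inv_mem hδ) _ hγ, h.inv hδ, e, inv_mul_cancel]⟩) y hy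
    rw [AlgEquiv.mul_apply] at h1
    conv_rhs => rw [← h1]
    exact (AlgEquiv.apply_symm_apply _ _).symm
  have : Fintype h.im := Fintype.ofFinite _
  have hch : ∀ g : h.im, ∃ γ ∈ Gam k x, ρ γ = g := fun g => h.mem_im.1 g.2
  choose c hc hcρ using hch
  obtain ⟨w, hw⟩ := exists_rs hFF hW
  obtain ⟨π, hπ0, hπ⟩ := w.exists_ord_eq_one
  have hπ0' : (π : Ω) ≠ 0 := fun e => hπ0 (Subtype.ext e)
  obtain ⟨s, hs, hs0, hs1⟩ := Hens.approx2 hU L hFF W
    (fun g : {g : h.im // (g : G) ∉ I} => (c g.1)⁻¹ • W) hW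
    (fun g => (hB.smulPl k Ω W hW _).1) (fun g e => by
      obtain ⟨δ, hδ, hδW⟩ := hC k Ω L halg _ _ e
      obtain ⟨hδ1, hδ2⟩ := (hfix δ).1 hδ
      have h1 : δ * (c g.1)⁻¹ ∈ Dec k x W :=
        mem_Dec.2 ⟨mul_mem hδ1 (inv_mem (hc g.1)), by rw [mul_smul, hδW]⟩
      have h2 := (hmemI _).2 ⟨_, h1, rfl⟩
      rw [h.mul _ hδ1 _ (inv_mem (hc _)), hδ2, one_mul, h.inv (hc _), hcρ, inv_mem_iff] at h2
      exact g.2 h2) π π.2 hπ0'
  have hvx : W.valuation x⁻¹ < 1 := (hB.unifInf k Ω x hx.tr W hW hxW).2.2.1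
  have hvs : W.valuation s ≠ 0 := by
    rw [hs0]; exact (_root_.map_ne_zero _).2 hπ0'
  have hs00 : s ≠ 0 := (_root_.map_ne_zero _).1 hvs
  -- the valuations of the conjugates of `s`
  have key : ∀ δ ∈ Gam k x, W.valuation (δ s) = if ρ δ ∈ I then W.valuation s else 1 := by
    intro δ hδ
    split_ifs with hi
    · obtain ⟨d, hd, e⟩ := (hmemI _).1 hi
      rw [← hsame d (Dec_le _ _ hd) δ hδ e s hs]
      exact hB.valFix k Ω x hx W hW d hd.2 x⁻¹ (inv_ne_zero hx0) hvx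
        (by rw [map_inv₀, mem_Gam.1 (Dec_le _ _ hd)]) s
    · let g : h.im := ⟨ρ δ, h.mem_im.2 ⟨δ, hδ, rfl⟩⟩
      have h1 := hs1 ⟨g, hi⟩
      rw [← val_smul hB (hB.smulPl k Ω W hW _).1 (c g), smul_inv_smul] at h1
      rw [hsame δ hδ (c g) (hc g) (hcρ g).symm s hs, h1]
  have hIle : I ≤ h.im := fun g hg => by
    obtain ⟨d, hd, e⟩ := (hmemI _).1 hg
    exact h.mem_im.2 ⟨d, Dec_le _ _ hd, e⟩
  have hN1 : W.valuation (∏ g : h.im, c g s) = W.valuation s ^ Nat.card I := by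
    rw [map_prod, Finset.prod_congr rfl fun g _ => key (c g) (hc g), Finset.prod_ite,
      Finset.prod_const_one, mul_one, Finset.prod_const]
    congr 1
    rw [← Nat.card_congr (Subgroup.subgroupOfEquivOfLe hIle).toEquiv, Nat.card_eq_fintype_card,
      Fintype.card_subtype]
    congr 1
    ext g
    simp [hcρ, Subgroup.mem_subgroupOf]
  -- the norm
  let xL : L := ⟨x, hxL⟩
  have hsc : SepCoord k xL := sepCoord xL hx hfg hsep
  have := hsc.fin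
  have := hsc.sep
  have hN2 : ((Algebra.norm k⟮xL⟯ (⟨s, hs⟩ : L) : L) : Ω) = ∏ g : h.im, c g s := by
    refine (Algebra.norm_eq_prod_embeddings k⟮xL⟯ Ω (⟨s, hs⟩ : L)).trans ?_
    refine (Fintype.prod_bijective (fun g : h.im => emb xL (c g) (hc g)) ⟨fun g g' e => ?_,
      fun σ => ?_⟩ _ _ fun g => rfl).symm
    · have h1 : (c g')⁻¹ * c g ∈ L.fixingSubgroup :=
        (IntermediateField.mem_fixingSubgroup_iff L _).2 fun y hy => by
          have h2 : c g y = c g' y := DFunLike.congr_fun e ⟨y, hy⟩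
          rw [AlgEquiv.mul_apply, h2]
          exact AlgEquiv.symm_apply_apply _ _
      have h2 := ((hfix _).1 h1).2
      rw [h.mul _ (inv_mem (hc _)) _ (hc _), h.inv (hc _), hcρ, hcρ, inv_mul_eq_one] at h2
      exact Subtype.ext h2.symm
    · obtain ⟨γ, hγ, rfl⟩ := emb_surj xL hx σ
      refine ⟨⟨ρ γ, h.mem_im.2 ⟨γ, hγ, rfl⟩⟩, AlgHom.ext fun y => ?_⟩
      exact hsame _ (hc _) γ hγ (hcρ _) y y.2
  let u : k⟮xL⟯ := (AdjoinSimple.gen k xL)⁻¹
  have hu : ((u : L) : Ω) = x⁻¹ := rfl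
  have hu0 : (u : L) ≠ 0 := fun e => inv_ne_zero hx0 (by rw [← hu, e]; rfl)
  have hwu : w.Ge 1 (u : L) := (hw.lt_iff u).1 hvx
  obtain ⟨v, e, hv⟩ : ∃ (v : Place k k⟮xL⟯) (e : ℕ), w.Over (k⟮xL⟯).val v e := by
    rcases w.restrict (k⟮xL⟯).val with h0 | h0
    · have h1 := hwu.le hu0
      have h2 : w.ord (u : L) = 0 := h0 u
      omega
    · exact h0
  have hsL : (⟨s, hs⟩ : L) ≠ 0 := fun e => hs00 (congrArg Subtype.val e)
  have hws : w.ord (⟨s, hs⟩ : L) = 1 := by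
    have h1 := ((hw.le_iff ⟨s, hs⟩ hπ0).1 hs0.le).le hsL
    have h2 := ((hw.le_iff π hsL).1 hs0.ge).le hπ0
    omega
  have hN3 := hN.norm k L xL hsc v ⟨s, hs⟩ hsL {w}
    (fun w' hw' => ⟨e, Finset.mem_singleton.1 hw' ▸ hv⟩) (fun w' e' hw' hne => by
      obtain ⟨W', hW', hr⟩ := exists_over hB w'
      have h1 : W'.valuation x⁻¹ < 1 :=
        (hr.lt_iff u).2 ((hw'.ge_one_iff u).2 ((hv.ge_one_iff u).1 hwu))
      have h2 : x ∉ W' := fun hm => by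
        have h3 := mul_lt_one_of_nonneg_of_lt_one_right ((W'.valuation_le_one_iff x).2 hm)
          zero_le h1
        rw [← map_mul, mul_inv_cancel₀ hx0, map_one] at h3
        exact lt_irrefl _ h3
      obtain ⟨δ, hδ, rfl⟩ := conj_inf hC hB hx hW hW' hxW h2
      have h3 := key δ⁻¹ (inv_mem hδ)
      split_ifs at h3 with hi
      · exfalso
        rw [h.inv hδ, inv_mem_iff] at hi
        obtain ⟨d, hd, e⟩ := (hmemI _).1 hi
        refine hne (Finset.mem_singleton.2 ((hr.agr_iff hw).1 fun y hy => ?_))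
        have h4 : δ (d⁻¹ y) = y := by
          rw [← hsame d (Dec_le _ _ hd) δ hδ e _ (hstab _ (inv_mem (Dec_le _ _ hd)) y hy)]
          exact AlgEquiv.apply_symm_apply _ _
        have h5 := (hB.smulPl k Ω W hW δ).2.1 (d⁻¹ y)
        have h6 := (hB.smulPl k Ω W hW d⁻¹).2.1 y
        rw [(inv_mem hd).2] at h6
        rw [h4] at h5
        exact h5.trans h6
      · rw [← val_smul hB hW δ] at h3
        have h4 : δ (δ⁻¹ s) = s := AlgEquiv.apply_symm_apply _ _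
        rw [h4] at h3
        have h5 := ((hr.le_iff ⟨s, hs⟩ one_ne_zero).1 (by simpa using h3.le)).le hsL
        have h6 := ((hr.le_iff 1 hsL).1 (by simpa using h3.ge)).le one_ne_zero
        rw [ord_one] at h5 h6
        omega)
  rw [Finset.sum_singleton, hws] at hN3
  have hn0 : Algebra.norm k⟮xL⟯ (⟨s, hs⟩ : L) ≠ 0 := Algebra.norm_ne_zero_iff.2 hsL
  have hn0' : ((Algebra.norm k⟮xL⟯ (⟨s, hs⟩ : L) : k⟮xL⟯) : L) ≠ 0 := fun e => hn0 (Subtype.ext e)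
  have hmain : W.valuation s ^ Nat.card I = W.valuation x⁻¹ := by
    rw [← hN1, ← hN2]
    refine le_antisymm ((hB.unifInf k Ω x hx.tr W hW hxW).2.2.2 _ (mem_of_mem (x := xL)
      (Algebra.norm k⟮xL⟯ (⟨s, hs⟩ : L)).2) ((hw.lt_iff _).2 ((hv.ge_one_iff _).2
        (ge_of_le hN3.ge)))) ?_
    rw [← hu, hw.le_iff _ hn0']
    have h1 := (hv.ge_iff 1 u).2 ((hv.ge_one_iff u).1 hwu)
    have h2 := hv.2 (Algebra.norm k⟮xL⟯ (⟨s, hs⟩ : L))
    rw [hN3] at h2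
    rw [← h2] at h1
    exact h1
  -- the element
  let J := I.subgroupOf h.im
  have : Fintype (h.im ⧸ J) := Fintype.ofFinite _
  have hϖ : (∏ q : h.im ⧸ J, c q.out s) ∈ L := prod_mem fun q _ => hstab _ (hc _) s hs
  refine ⟨∏ q : h.im ⧸ J, c q.out s, hsep _ hϖ, fun γ hγ e =>
    (IntermediateField.mem_fixingSubgroup_iff L _).1 ((hfix γ).2 ⟨hγ, e⟩) _ hϖ,
    fun W' hW' hxW' => ?_⟩
  obtain ⟨δ, hδ, rfl⟩ := conj_inf hC hB hx hW hW' hxW hxW'
  have h1 : W.valuation (δ⁻¹ (∏ q : h.im ⧸ J, c q.out s)) = W.valuation s := by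
    let g : h.im := ⟨ρ δ, h.mem_im.2 ⟨δ, hδ, rfl⟩⟩
    have h2 : ∀ q : h.im ⧸ J, W.valuation (δ⁻¹ (c q.out s)) =
        if (g : h.im ⧸ J) = q then W.valuation s else 1 := fun q => by
      rw [← AlgEquiv.mul_apply, key _ (mul_mem (inv_mem hδ) (hc _)),
        h.mul _ (inv_mem hδ) _ (hc _), h.inv hδ, hcρ]
      refine if_congr ?_ rfl rfl
      conv_rhs => rw [← q.out_eq', QuotientGroup.eq]
      rfl
    rw [map_prod, map_prod, Finset.prod_congr rfl fun q _ => h2 q, Finset.prod_ite_eq]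
    simp
  have h2 : (∏ q : h.im ⧸ J, c q.out s) ^ Nat.card I * x =
      δ (δ⁻¹ (∏ q : h.im ⧸ J, c q.out s) ^ Nat.card I * x) := by
    rw [map_mul, map_pow, mem_Gam.1 hδ]
    congr 2
    exact (AlgEquiv.apply_symm_apply _ _).symm
  rw [h2, val_smul hB hW, map_mul, map_pow, h1, hmain, ← map_mul, inv_mul_cancel₀ hx0, map_one]

end Pool.Agent.Lib.IW
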