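import Pool.Agent.Lib.IW.Util

/-! Block Res: restriction of automorphisms along an embedding. -/

open Polynomial IntermediateField
open scoped Pointwise

namespace Pool.Agent.Lib.IW

namespace Res

variable {k 𝕜 Ω Ω' : Type} [Field k] [Field 𝕜] [Field Ω] [IsAlgClosed Ω] [Field Ω']
  [Algebra k 𝕜] [Algebra k Ω] [Algebra k Ω'] [Algebra 𝕜 Ω'] [IsScalarTower k 𝕜 Ω']

omit [IsAlgClosed Ω] in
lemma fix_of_mem {x : Ω} (ι : Ω →ₐ[k] Ω') (γ' : Aut 𝕜 Ω') (h : γ' (ι x) = ι x) {y : Ω}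
    (hy : y ∈ k⟮x⟯) : γ' (ι y) = ι y := by
  induction hy using IntermediateField.adjoin_induction with
  | mem y hy => rw [Set.mem_singleton_iff.1 hy, h]
  | algebraMap c => rw [ι.commutes, IsScalarTower.algebraMap_apply k 𝕜 Ω', γ'.commutes]
  | add a b _ _ ha hb => rw [map_add, map_add, ha, hb]
  | inv a _ ha => rw [map_inv₀, map_inv₀, ha]
  | mul a b _ _ ha hb => rw [map_mul, map_mul, ha, hb]

lemma mem_range {x : Ω} (hx : Co k x) (ι : Ω →ₐ[k] Ω') (γ' : Aut 𝕜 Ω') (h : γ' (ι x) = ι x)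
    (y : Ω) : ∃ z, ι z = γ' (ι y) := by
  classical
  obtain ⟨q, hq0, hq⟩ := hx.alg y
  set Q : Polynomial Ω := q.map (algebraMap k⟮x⟯ Ω) with hQ
  have hQ0 : Q ≠ 0 := Polynomial.map_ne_zero hq0
  have hs : Q.Splits := IsAlgClosed.splits Q
  have h1 : (Q.map ι.toRingHom).map γ'.toAlgHom.toRingHom = Q.map ι.toRingHom := by
    ext n
    simp only [hQ, coeff_map]
    exact fix_of_mem ι γ' h (q.coeff n).2
  have h2 : (Q.map ι.toRingHom).eval (ι y) = 0 := by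
    have : Q.eval y = 0 := by rw [hQ, eval_map_algebraMap, hq]
    rw [eval_map]
    exact (eval₂_at_apply ι.toRingHom y).trans (by rw [this, map_zero])
  have h3 : (Q.map ι.toRingHom).eval (γ' (ι y)) = 0 := by
    rw [← h1, eval_map]
    exact (eval₂_at_apply γ'.toAlgHom.toRingHom (ι y)).trans (by rw [h2, map_zero])
  have h4 : γ' (ι y) ∈ (Q.map ι.toRingHom).roots :=
    (mem_roots (Polynomial.map_ne_zero hQ0)).2 h3
  rw [hs.roots_map ι.toRingHom, Multiset.mem_map] at h4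
  obtain ⟨z, -, hz⟩ := h4
  exact ⟨z, hz⟩

lemma spec {x : Ω} (hx : Co k x) (ι : Ω →ₐ[k] Ω') (γ' : Aut 𝕜 Ω') (h : γ' (ι x) = ι x) (y : Ω) :
    ι (res 𝕜 ι γ' y) = γ' (ι y) := by
  have hi : Function.Injective ι := ι.toRingHom.injective
  have h' : γ'.symm (ι x) = ι x := by rw [γ'.symm_apply_eq, h]
  choose f hf using mem_range hx ι γ' h
  choose g hg using mem_range hx ι γ'.symm h'
  have hex : ∃ γ : Aut k Ω, ∀ y, ι (γ y) = γ' (ι y) :=
    ⟨{ toFun := f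
       invFun := g
       left_inv := fun y => hi (by rw [hg, hf, AlgEquiv.symm_apply_apply])
       right_inv := fun y => hi (by rw [hf, hg, AlgEquiv.apply_symm_apply])
       map_mul' := fun a b => hi (by rw [map_mul, hf, hf, hf, map_mul, map_mul])
       map_add' := fun a b => hi (by rw [map_add, hf, hf, hf, map_add, map_add])
       commutes' := fun c => hi (by
         rw [hf, ι.commutes, IsScalarTower.algebraMap_apply k 𝕜 Ω', γ'.commutes]) }, hf⟩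
  rw [res, dif_pos hex]
  exact hex.choose_spec y

lemma res_mem {x : Ω} (hx : Co k x) (ι : Ω →ₐ[k] Ω') {γ' : Aut 𝕜 Ω'} (h : γ' (ι x) = ι x) :
    res 𝕜 ι γ' ∈ Gam k x :=
  ι.toRingHom.injective ((spec hx ι γ' h x).trans h)

lemma res_mul {x : Ω} (hx : Co k x) (ι : Ω →ₐ[k] Ω') {γ' δ' : Aut 𝕜 Ω'} (h : γ' (ι x) = ι x)
    (h' : δ' (ι x) = ι x) : res 𝕜 ι (γ' * δ') = res 𝕜 ι γ' * res 𝕜 ι δ' := by
  ext y
  refine ι.toRingHom.injective ?_
  change ι _ = ι _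
  rw [spec hx ι (γ' * δ') (by rw [AlgEquiv.mul_apply, h', h]), AlgEquiv.mul_apply,
    AlgEquiv.mul_apply, spec hx ι γ' h, spec hx ι δ' h']

lemma rep {x : Ω} (hx : Co k x) (ι : Ω →ₐ[k] Ω') {G : Type} [Group G] {ρ : Aut k Ω → G}
    (hρ : IsRep (Gam k x) ρ) : IsRep (Gam 𝕜 (ι x)) fun γ' => ρ (res 𝕜 ι γ') := by
  classical
  refine ⟨fun γ hγ δ hδ => ?_, ?_⟩
  · rw [res_mul hx ι hγ hδ, hρ.mul _ (res_mem hx ι hγ) _ (res_mem hx ι hδ)]
  · obtain ⟨S, hS⟩ := hρ.cts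
    refine ⟨S.image ι, fun γ hγ δ hδ e => hS _ (res_mem hx ι hγ) _ (res_mem hx ι hδ)
      fun s hs => ι.toRingHom.injective ?_⟩
    change ι _ = ι _
    rw [spec hx ι γ hγ, spec hx ι δ hδ, e _ (Finset.mem_image_of_mem ι hs)]

lemma res_one {x : Ω} (hx : Co k x) (ι : Ω →ₐ[k] Ω') : res 𝕜 ι (1 : Aut 𝕜 Ω') = 1 := by
  ext y
  exact ι.toRingHom.injective (spec hx ι 1 rfl y)

end Res

open Res in
theorem blockRes (hB : StmtBas) (hG : StmtGal) : StmtRes where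
  spec := fun _ _ _ _ _ _ _ _ _ _ _ _ _ _ _ hx ι γ' h y => spec hx ι γ' h y
  rep := fun _ _ _ _ _ _ _ _ _ _ _ _ _ _ _ hx ι _ _ _ hρ => rep hx ι hρ
  unr := by
    intro k 𝕜 Ω Ω' _ _ _ _ _ _ _ _ _ _ _ x hx σ hσ ι G _ ρ hρ hU W' hW' hxW γ' h hγW
    by_cases htop : W'.comap ι.toRingHom = ⊤
    · have h1 : ∀ y, ι y ∈ W' := fun y => by
        have : y ∈ W'.comap ι.toRingHom := htop ▸ ValuationSubring.mem_top y
        exact this
      have h2 : res 𝕜 ι γ' = 1 := by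
        ext y
        by_contra hne
        have h3 := (hB.move 𝕜 Ω' σ hσ W' hW' γ' hγW).1 (ι y) (h1 y)
        rw [← spec hx ι γ' h y, ← map_sub] at h3
        have h4 : res 𝕜 ι γ' y - y ≠ 0 := sub_ne_zero.2 hne
        have h5 := mul_lt_one_of_nonneg_of_lt_one_left zero_le h3
          ((W'.valuation_le_one_iff _).2 (h1 (res 𝕜 ι γ' y - y)⁻¹))
        rw [← map_mul, ← map_mul, mul_inv_cancel₀ h4, map_one, map_one] at h5
        exact lt_irrefl _ h5
      rw [h2, hρ.one]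
    · refine hU (W'.comap ι.toRingHom) ⟨htop, fun c => ?_⟩ hxW _ ⟨res_mem hx ι h, ?_⟩
      · change ι (algebraMap k Ω c) ∈ W'
        rw [ι.commutes, IsScalarTower.algebraMap_apply k 𝕜 Ω']
        exact hW'.2 _
      · change res 𝕜 ι γ' • W'.comap ι.toRingHom = W'.comap ι.toRingHom
        ext y
        obtain ⟨z, rfl⟩ := (res 𝕜 ι γ').surjective y
        have h1 := (hB.smulPl 𝕜 Ω' W' hW' γ').2.1 (ι z)
        rw [hγW] at h1
        have h2 : res 𝕜 ι γ' z ∈ res 𝕜 ι γ' • W'.comap ι.toRingHom ↔ z ∈ W'.comap ι.toRingHom :=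
          ValuationSubring.smul_mem_pointwise_smul_iff
        rw [h2]
        change ι z ∈ W' ↔ ι (res 𝕜 ι γ' z) ∈ W'
        rw [spec hx ι γ' h, h1]
  conn := by
    intro p _ k 𝕜 Ω Ω' _ _ _ _ _ _ _ _ _ _ _ _ _ x hx ι E hE hxE hEx G _ _ ρ hρ γ hγ
    have : CharP 𝕜 p := charP_of_injective_algebraMap (algebraMap k 𝕜).injective p
    have : CharP Ω p := charP_of_injective_algebraMap (algebraMap k Ω).injective p
    have hle : ∀ γ' ∈ E.fixingSubgroup, γ' (ι x) = ι x := fun γ' h => fix_le_Gam hxE h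
    let Δ : Subgroup (Aut k Ω) :=
      { carrier := {δ | δ ∈ Gam k x ∧ ∃ γ' ∈ E.fixingSubgroup, ρ (res 𝕜 ι γ') = ρ δ}
        one_mem' := ⟨one_mem _, 1, one_mem _, by rw [res_one hx]⟩
        mul_mem' := by
          rintro a b ⟨ha, a', ha', ea⟩ ⟨hb, b', hb', eb⟩
          exact ⟨mul_mem ha hb, a' * b', mul_mem ha' hb', by
            rw [(rep hx ι hρ).mul _ (hle _ ha') _ (hle _ hb'), ea, eb, hρ.mul _ ha _ hb]⟩
        inv_mem' := by
          rintro a ⟨ha, a', ha', ea⟩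
          exact ⟨inv_mem ha, a'⁻¹, inv_mem ha', by
            rw [hρ.inv ha, ← ea]
            exact (rep hx ι hρ).inv (hle _ ha')⟩ }
    obtain ⟨S, hS⟩ := hρ.cts
    have hfix : ∀ δ ∈ Gam k x, δ ∈ (k⟮x⟯).fixingSubgroup := fun δ hδ => by rwa [fix_adjoin]
    have hmem : γ ∈ Δ := by
      refine hG.cor p k Ω k⟮x⟯ hx.alg Δ S (fun δ hδ => hfix δ hδ.1)
        (fun δ hδ e => ?_) γ (hfix γ hγ) fun y _ hy => ?_
      · rw [fix_adjoin] at hδ
        exact ⟨hδ, 1, one_mem _, by rw [res_one hx]; exact (hS δ hδ 1 (one_mem _) e).symm⟩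
      · obtain ⟨N, hN⟩ := hG.insep p 𝕜 Ω' E hE (ι y) fun γ' h => by
          rw [← spec hx ι γ' (hle _ h), hy _ ⟨res_mem hx ι (hle _ h), γ', h, rfl⟩]
        rw [← map_pow] at hN
        have h1 : γ (y ^ p ^ N) = y ^ p ^ N :=
          (IntermediateField.mem_fixingSubgroup_iff _ γ).1 (hfix γ hγ) _ (hEx _ hN)
        rw [map_pow] at h1
        exact (iterateFrobenius Ω p N).injective h1
    exact hmem.2

end Pool.Agent.Lib.IW
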