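import Pool.Agent.Lib.IW.SpecRep

/-! Existence and first properties of specialisations. -/

open Polynomial IntermediateField
open scoped Pointwise

namespace Pool.Agent.Lib.IW

namespace Spec

open TP SpecRep

lemma root_mem {Ω : Type} [Field Ω] (W : ValuationSubring Ω) {q : Polynomial Ω} (hq : q.Monic)
    (hc : ∀ n, q.coeff n ∈ W) {z : Ω} (hz : q.eval z = 0) : z ∈ W := by
  obtain ⟨g, hg, -, hgm⟩ := lifts_and_natDegree_eq_and_monic
    (show q ∈ lifts (algebraMap W Ω) from (lifts_iff_coeff_lifts _).2 fun n =>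
      ⟨⟨_, hc n⟩, rfl⟩) hq
  have : IsIntegral W z := ⟨g, hgm, by rw [← eval_map, hg, hz]⟩
  obtain ⟨y, rfl⟩ := IsIntegrallyClosed.isIntegral_iff.1 this
  exact y.2

lemma aeval_mem {k Ω : Type} [Field k] [Field Ω] [Algebra k Ω] {W : ValuationSubring Ω}
    (hW : IsPl k W) {x : Ω} (hx : x ∈ W) (P : k[X]) : aeval x P ∈ W := by
  rw [aeval_eq_sum_range]
  exact sum_mem fun i _ => by
    rw [Algebra.smul_def]; exact mul_mem (hW.2 _) (pow_mem hx _)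

section Ev

variable {k 𝕜 Ω Ω' : Type} [Field k] [Field 𝕜] [Field Ω] [Field Ω']
  [Algebra k Ω] [Algebra k Ω'] [Algebra 𝕜 Ω'] {σ : Ω'} {x : Ω}
  {O : ValuationSubring Ω'} {ψ : Ω' → Ω}

lemma psi_zero (h : Adm k 𝕜 σ x O ψ) : ψ 0 = 0 := (hom h).map_zero

lemma psi_ne (h : Adm k 𝕜 σ x O ψ) {a : Ω'} (h0 : a ≠ 0) (ha : a ∈ O) (ha' : a⁻¹ ∈ O) :
    ψ a ≠ 0 := by
  have := h.mul _ ha _ ha'
  rw [mul_inv_cancel₀ h0, psi_one h] at this
  exact left_ne_zero_of_mul_eq_one this.symm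

lemma psi_div (h : Adm k 𝕜 σ x O ψ) {a b : Ω'} (ha : a ∈ O) (hb : b ∈ O) (h0 : ψ b ≠ 0) :
    a / b ∈ O ∧ ψ (a / b) = ψ a / ψ b := by
  have hb0 : b ≠ 0 := by rintro rfl; exact h0 (psi_zero h)
  have h1 : a / b ∈ O := by rw [div_eq_mul_inv]; exact mul_mem ha (h.unit b hb h0)
  refine ⟨h1, ?_⟩
  rw [eq_div_iff h0, ← h.mul _ h1 _ hb, div_mul_cancel₀ _ hb0]

lemma spec_root (h : Adm k 𝕜 σ x O ψ) {q : Polynomial Ω'} (hq : q.Monic)
    (hc : ∀ n, q.coeff n ∈ O) {s : Ω'} (hs : q.eval s = 0) : s ∈ O ∧ ∃ q' : Polynomial Ω,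
      q'.Monic ∧ (∀ n, q'.coeff n = ψ (q.coeff n)) ∧ q'.eval (ψ s) = 0 := by
  have hsO := root_mem O hq hc hs
  obtain ⟨g, rfl, -, hgm⟩ := lifts_and_natDegree_eq_and_monic
    (show q ∈ lifts O.subtype from (lifts_iff_coeff_lifts _).2 fun n => ⟨⟨_, hc n⟩, rfl⟩) hq
  refine ⟨hsO, g.map (hom h), hgm.map _, fun n => by rw [coeff_map, coeff_map]; rfl, ?_⟩
  have e : g.eval ⟨s, hsO⟩ = 0 :=
    Subtype.ext ((eval_map_apply O.subtype (⟨s, hsO⟩ : O)).symm.trans hs)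
  exact (eval_map_apply (hom h) (⟨s, hsO⟩ : O)).trans (by rw [e, map_zero])

lemma spec_aeval (hA : Adm k 𝕜 σ x O ψ) {P : 𝕜[X]}
    (hP : ∀ c ∈ P.coeffs, O.valuation (algebraMap 𝕜 Ω' c) = 1) :
    aeval σ P ∈ O ∧ ∃ P₀ : k[X], ψ (aeval σ P) = aeval x P₀ ∧ P₀.support = P.support := by
  have hmem : ∀ n, algebraMap 𝕜 Ω' (P.coeff n) ∈ O := fun n => by
    by_cases h0 : P.coeff n = 0
    · rw [h0, map_zero]; exact zero_mem O
    · exact (O.valuation_le_one_iff _).1 (hP _ (coeff_mem_coeffs h0)).le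
  choose c hc using fun n => hA.const _ (hmem n)
  have hc0 : ∀ n ∈ P.support, c n ≠ 0 := fun n hn h0 => by
    have h1 := mem_support_iff.1 hn
    refine psi_ne hA (a := algebraMap 𝕜 Ω' (P.coeff n)) (by simpa using h1) (hmem n)
      ((O.valuation_le_one_iff _).1 (by rw [map_inv₀, hP _ (coeff_mem_coeffs h1), inv_one])) ?_
    rw [hc, h0, map_zero]
  have e : aeval σ P = ∑ n : P.support, algebraMap 𝕜 Ω' (P.coeff n) * σ ^ (n : ℕ) := by
    rw [aeval_def, eval₂_eq_sum, sum_def, ← Finset.sum_coe_sort]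
  have hm : ∀ n : P.support, algebraMap 𝕜 Ω' (P.coeff n) * σ ^ (n : ℕ) ∈ O := fun n =>
    mul_mem (hmem n) (pow_mem hA.mem _)
  refine ⟨e ▸ sum_mem fun n _ => hm n, ∑ n ∈ P.support, monomial n (c n), ?_, ?_⟩
  · rw [e, psi_sum hA hm, map_sum, ← Finset.sum_coe_sort P.support]
    refine Finset.sum_congr rfl fun n _ => ?_
    rw [hA.mul _ (hmem n) _ (pow_mem hA.mem _), psi_pow hA hA.mem, hc, hA.map, aeval_monomial]
  · ext n
    rw [mem_support_iff, finsetSum_coeff]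
    simp only [coeff_monomial, Finset.sum_ite_eq']
    split_ifs with hn
    · simpa [hn] using hc0 n hn
    · simpa using hn

lemma ev_aeval (P : 𝕜[X]) : Ev k 𝕜 σ x fun O ψ =>
    aeval σ P ∈ O ∧ ∃ P₀ : k[X], ψ (aeval σ P) = aeval x P₀ ∧ P₀.support = P.support :=
  ev_mono (ev_units P.coeffs fun c hc => by
    obtain ⟨n, hn, rfl⟩ := mem_coeffs_iff.1 hc
    exact mem_support_iff.1 hn) fun _ _ hA h => spec_aeval hA h

lemma natDegree_eq {P : 𝕜[X]} {P₀ : k[X]} (h : P₀.support = P.support) :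
    P₀.natDegree = P.natDegree := by
  unfold natDegree degree
  rw [h]

lemma ev_div (hx : Transcendental k x) (P Q : 𝕜[X]) : Ev k 𝕜 σ x fun O ψ =>
    aeval σ P / aeval σ Q ∈ O ∧ ∃ P₀ Q₀ : k[X], ψ (aeval σ P / aeval σ Q) =
      aeval x P₀ / aeval x Q₀ ∧ P₀.support = P.support ∧ Q₀.support = Q.support := by
  refine ev_mono (ev_and (ev_aeval P) (ev_aeval Q)) ?_
  rintro O ψ hA ⟨⟨h1, P₀, h2, h3⟩, h4, Q₀, h5, h6⟩
  by_cases hQ : Q₀ = 0
  · have hQ' : Q = 0 := by rw [← support_eq_empty, ← h6, hQ, support_zero]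
    refine ⟨by rw [hQ', map_zero, div_zero]; exact zero_mem O, P₀, Q₀, ?_, h3, h6⟩
    rw [hQ', hQ, map_zero, map_zero, div_zero, div_zero, psi_zero hA]
  · have h0 : ψ (aeval σ Q) ≠ 0 := by
      rw [h5]; exact fun e => hQ (transcendental_iff.1 hx _ e)
    obtain ⟨e1, e2⟩ := psi_div hA h1 h4 h0
    exact ⟨e1, P₀, Q₀, by rw [e2, h2, h5], h3, h6⟩

lemma ev_rat (hx : Transcendental k x) {s : Ω'} (hs : s ∈ 𝕜⟮σ⟯) :
    Ev k 𝕜 σ x fun O ψ => s ∈ O ∧ ψ s ∈ k⟮x⟯ := by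
  obtain ⟨P, Q, rfl⟩ := (mem_adjoin_simple_iff 𝕜 s).1 hs
  refine ev_mono (ev_div hx P Q) ?_
  rintro O ψ - ⟨h1, P₀, Q₀, h2, -⟩
  exact ⟨h1, (mem_adjoin_simple_iff k _).2 ⟨P₀, Q₀, h2⟩⟩

lemma ev_coeff {q : Polynomial Ω'} {Pr : Ω → Prop} (h0 : Pr 0)
    (h : ∀ n, Ev k 𝕜 σ x fun O ψ => q.coeff n ∈ O ∧ Pr (ψ (q.coeff n))) :
    Ev k 𝕜 σ x fun O ψ => ∀ n, q.coeff n ∈ O ∧ Pr (ψ (q.coeff n)) := by
  refine ev_mono (ev_all fun n : q.support => h n) fun O ψ hA h1 n => ?_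
  by_cases hn : n ∈ q.support
  · exact h1 ⟨n, hn⟩
  · rw [notMem_support_iff.1 hn, psi_zero hA]
    exact ⟨zero_mem O, h0⟩

lemma one_lt {W : ValuationSubring Ω} (hx : x ∉ W) : 1 < W.valuation x :=
  lt_of_not_ge fun h => hx ((W.valuation_le_one_iff x).1 h)

lemma ev_rat_inf (hB : StmtBas) (hσ : Co 𝕜 σ) (hx : Transcendental k x) {s : Ω'}
    (hs : s ∈ 𝕜⟮σ⟯) (hs' : IntgInf 𝕜 σ s) :
    Ev k 𝕜 σ x fun O ψ => s ∈ O ∧ IntgInf k x (ψ s) := by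
  obtain ⟨P, Q, rfl⟩ := (mem_adjoin_simple_iff 𝕜 s).1 hs
  refine ev_mono (ev_div hx P Q) ?_
  rintro O ψ - ⟨h1, P₀, Q₀, h2, h3, h4⟩
  refine ⟨h1, fun W hW hxW => ?_⟩
  rw [h2]
  by_cases hP : P₀ = 0
  · rw [hP, map_zero, zero_div]; exact zero_mem W
  by_cases hQ : Q₀ = 0
  · rw [hQ, map_zero, div_zero]; exact zero_mem W
  have hP' : P ≠ 0 := by rwa [Ne, ← support_eq_empty, ← h3, support_eq_empty]
  have hQ' : Q ≠ 0 := by rwa [Ne, ← support_eq_empty, ← h4, support_eq_empty]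
  obtain ⟨V, hV, hσV⟩ := hB.exInf 𝕜 Ω' σ hσ
  have e1 := (V.valuation_le_one_iff _).2 (hs' V hV hσV)
  rw [map_div₀, hB.infPoly 𝕜 Ω' σ V hV hσV P hP', hB.infPoly 𝕜 Ω' σ V hV hσV Q hQ',
    div_le_one₀ (pow_pos (lt_trans zero_lt_one (one_lt hσV)) _),
    pow_le_pow_iff_right₀ (one_lt hσV)] at e1
  rw [← W.valuation_le_one_iff, map_div₀, hB.infPoly k Ω x W hW hxW P₀ hP,
    hB.infPoly k Ω x W hW hxW Q₀ hQ, div_le_one₀ (pow_pos (lt_trans zero_lt_one (one_lt hxW)) _),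
    pow_le_pow_iff_right₀ (one_lt hxW), natDegree_eq h3, natDegree_eq h4]
  exact e1

end Ev

lemma exists_point (k 𝕜 : Type) [Field k] [IsAlgClosed k] [Field 𝕜] [Algebra k 𝕜]
    (T : Finset 𝕜) : ∃ (A : Subalgebra k 𝕜) (_ : A →ₐ[k] k), ∀ c ∈ T, c ∈ A := by
  let A := Algebra.adjoin k (T : Set 𝕜)
  have : Algebra.FiniteType k A := (Subalgebra.fg_iff_finiteType A).1 ⟨T, rfl⟩
  obtain ⟨m, hm⟩ := Ideal.exists_maximal A
  let _ := Ideal.Quotient.field m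
  have : Module.Finite k (A ⧸ m) := finite_of_finite_type_of_isJacobsonRing k (A ⧸ m)
  exact ⟨A, (AlgEquiv.ofBijective (Algebra.ofId k (A ⧸ m))
    IsAlgClosed.algebraMap_bijective_of_isIntegral).symm.toAlgHom.comp
      (Ideal.Quotient.mkₐ k m), fun c hc => Algebra.subset_adjoin hc⟩

lemma exists_adm (hC : StmtChev) (k 𝕜 Ω Ω' : Type) [Field k] [IsAlgClosed k] [Field 𝕜] [Field Ω]
    [IsAlgClosed Ω] [Field Ω'] [Algebra k 𝕜] [Algebra k Ω] [Algebra k Ω'] [Algebra 𝕜 Ω']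
    [IsScalarTower k 𝕜 Ω'] (σ : Ω') (x : Ω) (hσ : Transcendental 𝕜 σ) (T : Finset 𝕜)
    (hT : ∀ c ∈ T, c ≠ 0) : ∃ (O : ValuationSubring Ω') (ψ : Ω' → Ω), Adm k 𝕜 σ x O ψ ∧
      ∀ c ∈ T, O.valuation (algebraMap 𝕜 Ω' c) = 1 := by
  classical
  obtain ⟨A, χ, hA⟩ := exists_point k 𝕜 (T ∪ T.image fun c => c⁻¹)
  obtain ⟨O₁, ψ₁, a1, a2, a3, a4, a5⟩ := hC 𝕜 k A.toSubring χ.toRingHom
  have hk : ∀ c : k, ψ₁ (algebraMap k 𝕜 c) = c := fun c =>
    (a2 ⟨_, A.algebraMap_mem c⟩).trans (χ.commutes c)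
  let φ : O₁ →+* k :=
    { toFun := fun a => ψ₁ a
      map_one' := by simpa using hk 1
      map_zero' := by simpa using hk 0
      map_mul' := fun a b => a4 a a.2 b b.2
      map_add' := fun a b => a3 a a.2 b b.2 }
  let e : O₁[X] →+* Ω' := (aeval σ : 𝕜[X] →ₐ[𝕜] Ω').toRingHom.comp (mapRingHom O₁.subtype)
  have he : Function.Injective e :=
    (transcendental_iff_injective.1 hσ).comp (map_injective O₁.subtype Subtype.val_injective)
  let e' := RingEquiv.ofBijective e.rangeRestrict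
    ⟨fun a b h => he (congrArg Subtype.val h), e.rangeRestrict_surjective⟩
  let χ' : e.range →+* Ω :=
    (eval₂RingHom ((algebraMap k Ω).comp φ) x).comp e'.symm.toRingHom
  obtain ⟨O, ψ, b1, b2, b3, b4, b5⟩ := hC Ω' Ω e.range χ'
  have key : ∀ g : O₁[X], e g ∈ O ∧ ψ (e g) = g.eval₂ ((algebraMap k Ω).comp φ) x := fun g =>
    ⟨b1 _ ⟨g, rfl⟩, (b2 (e' g)).trans (by simp [χ'])⟩
  have kc : ∀ c ∈ O₁, algebraMap 𝕜 Ω' c ∈ O ∧ ψ (algebraMap 𝕜 Ω' c) = algebraMap k Ω (ψ₁ c) :=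
    fun c hc => by simpa [e, φ] using key (C ⟨c, hc⟩)
  have kx : σ ∈ O ∧ ψ σ = x := by simpa [e] using key X
  have kk : ∀ c : k, algebraMap k Ω' c ∈ O ∧ ψ (algebraMap k Ω' c) = algebraMap k Ω c := fun c => by
    have := kc _ (a1 _ (A.algebraMap_mem c))
    rwa [hk, ← IsScalarTower.algebraMap_apply] at this
  refine ⟨O, ψ, ⟨b3, b4, b5, fun c => (kk c).1, fun c => (kk c).2, kx.1, kx.2, fun c hc => ?_⟩,
    fun c hc => ?_⟩
  · by_cases h1 : c ∈ O₁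
    · exact ⟨_, (kc c h1).2⟩
    · exfalso
      have h2 := (O₁.mem_or_inv_mem c).resolve_left h1
      have h3 : ψ₁ c⁻¹ = 0 := by
        by_contra h
        exact h1 (by simpa using a5 _ h2 h)
      have h0 : c ≠ 0 := by rintro rfl; exact h1 (zero_mem _)
      have h4 := b4 _ hc _ (kc _ h2).1
      have h5 := (kk 1).2
      rw [map_one, map_one] at h5
      rw [← map_mul, mul_inv_cancel₀ h0, map_one, h5, (kc _ h2).2, h3, map_zero, mul_zero] at h4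
      exact one_ne_zero h4
  · have h1 := (kc c (a1 _ (hA c (Finset.mem_union_left _ hc)))).1
    have h2 := (kc c⁻¹ (a1 _ (hA _ (Finset.mem_union_right _
      (Finset.mem_image_of_mem _ hc))))).1
    rw [← O.valuation_le_one_iff] at h1 h2
    rw [map_inv₀, map_inv₀, inv_le_one₀ (by
      rw [zero_lt_iff, Valuation.ne_zero_iff]; simpa using hT c hc)] at h2
    exact le_antisymm h1 h2

end Spec

open TP SpecRep Spec in
theorem blockSpec (hF : Found) : StmtSpec where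
  ex := exists_adm hF.chev
  rat := fun k 𝕜 Ω Ω' _ _ _ _ _ _ _ _ _ σ x hx s hs => ev_rat hx hs
  ne := by
    intro k 𝕜 Ω Ω' _ _ _ _ _ _ _ _ _ σ x hσ hx s hs
    have hi : IsIntegral 𝕜⟮σ⟯ s := (hσ.alg s).isIntegral
    let q := (minpoly 𝕜⟮σ⟯ s).map (algebraMap 𝕜⟮σ⟯ Ω')
    have hq : ∀ n, q.coeff n ∈ 𝕜⟮σ⟯ := fun n => by
      rw [coeff_map]; exact SetLike.coe_mem _
    have h0 : q.coeff 0 ≠ 0 := by
      rw [coeff_map]; simpa using minpoly.coeff_zero_ne_zero hi hs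
    refine ev_mono (ev_and (ev_coeff (Pr := fun z => z ∈ k⟮x⟯) (zero_mem _)
      fun n => ev_rat hx (hq n)) (ev_rat hx (inv_mem (hq 0)))) ?_
    rintro O ψ hA ⟨h1, h2, -⟩
    obtain ⟨e1, q', -, e2, e3⟩ := spec_root hA ((minpoly.monic hi).map _) (fun n => (h1 n).1)
      (s := s) (by rw [eval_map, ← aeval_def, minpoly.aeval])
    refine ⟨e1, fun e => psi_ne hA h0 (h1 0).1 h2 ?_⟩
    rw [e] at e3
    rw [← e2, coeff_zero_eq_eval_zero, e3]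
  intg := by
    intro k 𝕜 Ω Ω' _ _ _ _ _ _ _ _ _ σ x s hs
    obtain ⟨g, hg, hgs⟩ := (hF.bas.intg 𝕜 Ω' σ s).1 hs
    let q := g.map (algebraMap (Algebra.adjoin 𝕜 {σ}) Ω')
    refine ev_mono (ev_coeff (q := q) (Pr := Intg k x) (fun W _ _ => zero_mem W) fun n => ?_) ?_
    · have : q.coeff n ∈ Algebra.adjoin 𝕜 {σ} := by
        rw [coeff_map]; exact SetLike.coe_mem _
      rw [Algebra.adjoin_singleton_eq_range_aeval] at this
      obtain ⟨P, hP⟩ := this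
      rw [← hP]
      refine ev_mono (ev_aeval P) ?_
      rintro O ψ - ⟨h1, P₀, h2, -⟩
      exact ⟨h1, fun W hW hxW => h2 ▸ aeval_mem hW hxW P₀⟩
    · intro O ψ hA h1
      obtain ⟨e1, q', e2, e3, e4⟩ := spec_root hA (hg.map _) (fun n => (h1 n).1)
        (s := s) (by rw [eval_map, hgs])
      exact ⟨e1, fun W hW hxW => root_mem W e2 (fun n => e3 n ▸ (h1 n).2 W hW hxW) e4⟩
  intgInf := by
    intro k 𝕜 Ω Ω' _ _ _ _ _ _ _ _ _ _ _ σ x hσ hx s hs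
    have hi : IsIntegral 𝕜⟮σ⟯ s := (hσ.alg s).isIntegral
    let q := (minpoly 𝕜⟮σ⟯ s).map (algebraMap 𝕜⟮σ⟯ Ω')
    have hm : q.Monic := (minpoly.monic hi).map _
    have hq : ∀ n, q.coeff n ∈ 𝕜⟮σ⟯ := fun n => by
      rw [coeff_map]; exact SetLike.coe_mem _
    have hq' : ∀ n, IntgInf 𝕜 σ (q.coeff n) := fun n W hW hσW => by
      have : q ∈ lifts (algebraMap W Ω') := by
        refine (IsAlgClosed.splits q).mem_lift_of_roots_mem_range hm _ fun a ha => ?_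
        obtain ⟨γ, hγ, rfl⟩ := hF.gal.conjRoot 𝕜 Ω' 𝕜⟮σ⟯ hσ.alg s a (by
          have := (mem_roots hm.ne_zero).1 ha
          rwa [IsRoot, eval_map, ← aeval_def] at this)
        rw [fix_adjoin] at hγ
        exact ⟨⟨_, inf_map hF.bas hγ hs W hW hσW⟩, rfl⟩
      obtain ⟨y, hy⟩ := (lifts_iff_coeff_lifts _).1 this n
      exact hy ▸ y.2
    refine ev_mono (ev_coeff (q := q) (Pr := IntgInf k x) (fun W _ _ => zero_mem W)
      fun n => ev_rat_inf hF.bas hσ hx (hq n) (hq' n)) fun O ψ hA h1 => ?_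
    obtain ⟨e1, q', e2, e3, e4⟩ := spec_root hA hm (fun n => (h1 n).1)
      (s := s) (by rw [eval_map, ← aeval_def, minpoly.aeval])
    exact ⟨e1, fun W hW hxW => root_mem W e2 (fun n => e3 n ▸ (h1 n).2 W hW hxW) e4⟩

end Pool.Agent.Lib.IW
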