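import Pool.Agent.Lib.IW.TP

/-! The specialised representation. -/

open Polynomial IntermediateField
open scoped Pointwise

namespace Pool.Agent.Lib.IW

namespace SpecRep

open TP

section One

variable {k Ω : Type} [Field k] [Field Ω] [Algebra k Ω] {x : Ω}

/-- Evaluation at a transcendental element, with values in the field it generates. -/
noncomputable def toK (hx : Transcendental k x) : k[X] →+* k⟮x⟯ :=
  (RatFunc.algEquivOfTranscendental x hx).toRingEquiv.toRingHom.comp (algebraMap k[X] (RatFunc k))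

lemma toK_comp (hx : Transcendental k x) :
    (algebraMap k⟮x⟯ Ω).comp (toK hx) = (aeval x).toRingHom := by
  refine RingHom.ext fun a => ?_
  simp [toK, RatFunc.algEquivOfTranscendental_algebraMap]

lemma irr_iff (hx : Transcendental k x) {f : k[X][X]} (hf : f.Monic) :
    Irreducible f ↔ Irreducible (f.map (toK hx)) := by
  rw [hf.irreducible_iff_irreducible_map_fraction_map (K := RatFunc k), toK, ← Polynomial.map_map]
  exact (MulEquiv.irreducible_iff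
    (mapEquiv (RatFunc.algEquivOfTranscendental x hx).toRingEquiv)).symm

lemma coeff_prod_mem {G : Type} [Fintype G] (R : Subring Ω) {y : G → Ω} (hy : ∀ h, y h ∈ R)
    (n : ℕ) : (∏ h, (X - C (y h))).coeff n ∈ R := by
  have : ∏ h, (X - C (y h)) = (∏ h, (X - C (⟨y h, hy h⟩ : R))).map R.subtype := by
    simp [Polynomial.map_prod]
  rw [this, coeff_map]
  exact SetLike.coe_mem _

variable {G : Type} [Group G] [Fintype G] {ρ : Aut k Ω → G} {y : G → Ω}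

lemma mem_of_map [IsAlgClosed Ω] (hG : StmtGal) (hx : Co k x) {P : Polynomial Ω}
    (h1 : ∀ n, IsSeparable k⟮x⟯ (P.coeff n))
    (h2 : ∀ γ ∈ Gam k x, P.map (γ : Ω →+* Ω) = P) (n : ℕ) : P.coeff n ∈ k⟮x⟯ :=
  hG.sep k Ω k⟮x⟯ hx.alg _ (h1 n) fun γ hγ => by
    rw [fix_adjoin] at hγ
    have := congrArg (fun Q => Q.coeff n) (h2 γ hγ)
    simpa using this

lemma interp [IsAlgClosed Ω] (hG : StmtGal) (hx : Co k x) (hy : Function.Injective y)
    (h1 : ∀ h, IsSeparable k⟮x⟯ (y h)) (h2 : ∀ γ ∈ Gam k x, ∀ h, γ (y h) = y (ρ γ * h))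
    {r : G → Ω} (h3 : ∀ h, IsSeparable k⟮x⟯ (r h))
    (h4 : ∀ γ ∈ Gam k x, ∀ h, γ (r h) = r (ρ γ * h)) :
    ∃ c : Fin (Fintype.card G) → Ω, (∀ i, c i ∈ k⟮x⟯) ∧
      ∀ h, r h = ∑ i, c i * y h ^ (i : ℕ) := by
  classical
  let E := separableClosure k⟮x⟯ Ω
  let y' : G → E := fun h => ⟨y h, mem_separableClosure_iff.2 (h1 h)⟩
  let r' : G → E := fun h => ⟨r h, mem_separableClosure_iff.2 (h3 h)⟩
  have hy' : Set.InjOn y' (Finset.univ : Finset G) := fun a _ b _ e => hy (congrArg Subtype.val e)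
  let P' := Lagrange.interpolate Finset.univ y' r'
  let P := P'.map (algebraMap E Ω)
  have hdeg : P.degree < (Finset.univ : Finset G).card :=
    lt_of_le_of_lt degree_map_le (Lagrange.degree_interpolate_lt r' hy')
  have hev : ∀ h, P.eval (y h) = r h := fun h => by
    have e := congrArg (algebraMap E Ω)
      (Lagrange.eval_interpolate_at_node r' hy' (Finset.mem_univ h))
    rw [← eval₂_at_apply, ← eval_map] at e
    exact e
  refine ⟨fun i => P.coeff i, fun i => mem_of_map hG hx (fun n => ?_) (fun γ hγ => ?_) i,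
    fun h => ?_⟩
  · rw [coeff_map]
    exact mem_separableClosure_iff.1 (P'.coeff n).2
  · refine eq_of_degrees_lt_of_eval_index_eq Finset.univ hy.injOn
      (lt_of_le_of_lt degree_map_le hdeg) hdeg fun h _ => ?_
    obtain ⟨h, rfl⟩ := (Equiv.mulLeft (ρ γ)).surjective h
    rw [Equiv.coe_mulLeft, hev, ← h4 γ hγ, ← h2 γ hγ, ← hev]
    exact eval_map_apply (γ : Ω →+* Ω) (y h)
  · have hn : P.natDegree < Fintype.card G := by
      by_cases h0 : P = 0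
      · rw [h0]; exact Fintype.card_pos
      · exact (natDegree_lt_iff_degree_lt h0).2 hdeg
    rw [← hev, eval_eq_sum_range' hn, Finset.sum_range]

lemma exists_poly [IsAlgClosed Ω] (hB : StmtBas) (hG : StmtGal) (hx : Co k x)
    (hs : ∀ g, ∃ γ ∈ Gam k x, ρ γ = g) (hy : Function.Injective y)
    (h1 : ∀ h, IsSeparable k⟮x⟯ (y h) ∧ Intg k x (y h))
    (h2 : ∀ γ ∈ Gam k x, ∀ h, γ (y h) = y (ρ γ * h)) :
    ∃ f : k[X][X], f.Monic ∧ Irreducible f ∧
      f.map (aeval x).toRingHom = ∏ h, (X - C (y h)) := by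
  have hmon : (∏ h, (X - C (y h))).Monic := monic_prod_X_sub_C _ _
  have hl : ∏ h, (X - C (y h)) ∈ lifts (aeval x : k[X] →ₐ[k] Ω).toRingHom := by
    rw [lifts_iff_coeff_lifts]
    intro n
    obtain ⟨P, hP⟩ := hB.intgPoly k Ω x _ hx.tr
      (fun W hW hxW => coeff_prod_mem W.toSubring (fun h => (h1 h).2 W hW hxW) n)
      (mem_of_map hG hx (fun n => mem_separableClosure_iff.1
        (coeff_prod_mem (separableClosure k⟮x⟯ Ω).toSubring
          (fun h => mem_separableClosure_iff.2 (h1 h).1) n)) (fun γ hγ => by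
        rw [Polynomial.map_prod]
        refine Fintype.prod_equiv (Equiv.mulLeft (ρ γ)) _ _ fun g => ?_
        simp [h2 γ hγ]) n)
    exact ⟨P, hP.symm⟩
  obtain ⟨f, hf, -, hfm⟩ := lifts_and_natDegree_eq_and_monic hl hmon
  refine ⟨f, hfm, ?_, hf⟩
  have hint : IsIntegral k⟮x⟯ (y 1) := (hx.alg _).isIntegral
  have e1 : (f.map (toK hx.tr)).map (algebraMap k⟮x⟯ Ω) = ∏ h, (X - C (y h)) := by
    rw [Polynomial.map_map, toK_comp, hf]
  have d1 : minpoly k⟮x⟯ (y 1) ∣ f.map (toK hx.tr) := minpoly.dvd _ _ (by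
    rw [aeval_def, ← eval_map, e1, eval_prod]
    exact Finset.prod_eq_zero (Finset.mem_univ 1) (by simp))
  have d2 : f.map (toK hx.tr) ∣ minpoly k⟮x⟯ (y 1) := by
    rw [← map_dvd_map' (algebraMap k⟮x⟯ Ω), e1]
    refine Finset.prod_dvd_of_coprime (fun a _ b _ hab => pairwise_coprime_X_sub_C hy hab)
      fun h _ => ?_
    obtain ⟨γ, hγ, rfl⟩ := hs h
    have e2 := h2 γ hγ 1
    rw [← fix_adjoin] at hγ
    let e : Ω ≃ₐ[k⟮x⟯] Ω := IntermediateField.fixingSubgroupEquiv k⟮x⟯ ⟨γ, hγ⟩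
    rw [dvd_iff_isRoot, IsRoot, eval_map, ← aeval_def, ← mul_one (ρ γ), ← e2]
    exact (aeval_algHom_apply e (y 1) _).trans (by rw [minpoly.aeval, map_zero])
  rw [irr_iff hx.tr hfm, eq_of_monic_of_associated (hfm.map _) (minpoly.monic hint)
    (associated_of_dvd_dvd d2 d1)]
  exact minpoly.irreducible hint

omit [Fintype G] in
/-- A family permuted transitively defines a representation. -/
lemma exists_rep (hy : Function.Injective y) (h1 : ∀ γ ∈ Gam k x, ∃ g, γ (y 1) = y g)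
    (h2 : ∀ g, ∃ γ ∈ Gam k x, γ (y 1) = y g)
    (h3 : ∀ γ ∈ Gam k x, ∀ g, γ (y 1) = y g → ∀ h, γ (y h) = y (g * h)) :
    ∃ ρ' : Aut k Ω → G, IsRep (Gam k x) ρ' ∧ (∀ g, ∃ γ ∈ Gam k x, ρ' γ = g) ∧
      ∀ γ ∈ Gam k x, γ (y 1) = y (ρ' γ) := by
  classical
  choose! ρ' hρ' using h1
  refine ⟨ρ', ⟨fun γ hγ δ hδ => hy ?_, {y 1}, fun γ hγ δ hδ e => hy ?_⟩, fun g => ?_, hρ'⟩
  · rw [← hρ' _ (mul_mem hγ hδ), AlgEquiv.mul_apply, hρ' δ hδ, h3 γ hγ _ (hρ' γ hγ)]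
  · rw [← hρ' γ hγ, ← hρ' δ hδ, e _ (Finset.mem_singleton_self _)]
  · obtain ⟨γ, hγ, e⟩ := h2 g
    exact ⟨γ, hγ, hy (by rw [← hρ' γ hγ, e])⟩

end One

section Ev

variable {k 𝕜 Ω Ω' : Type} [Field k] [Field 𝕜] [Field Ω] [Field Ω']
  [Algebra k Ω] [Algebra k Ω'] [Algebra 𝕜 Ω'] {σ : Ω'} {x : Ω}

lemma ev_mono {P Q : ValuationSubring Ω' → (Ω' → Ω) → Prop} (h : Ev k 𝕜 σ x P)
    (h' : ∀ O ψ, Adm k 𝕜 σ x O ψ → P O ψ → Q O ψ) : Ev k 𝕜 σ x Q := by
  obtain ⟨T, hT, h⟩ := h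
  exact ⟨T, hT, fun O ψ hA hc => h' O ψ hA (h O ψ hA hc)⟩

lemma ev_units (T : Finset 𝕜) (hT : ∀ c ∈ T, c ≠ 0) :
    Ev k 𝕜 σ x fun O _ => ∀ c ∈ T, O.valuation (algebraMap 𝕜 Ω' c) = 1 :=
  ⟨T, hT, fun _ _ _ h => h⟩

variable {O : ValuationSubring Ω'} {ψ : Ω' → Ω}

lemma psi_poly (hA : Adm k 𝕜 σ x O ψ) {n : ℕ} {c : Fin n → Ω'} (hc : ∀ i, c i ∈ O) {z : Ω'}
    (hz : z ∈ O) : ∑ i, c i * z ^ (i : ℕ) ∈ O ∧
      ψ (∑ i, c i * z ^ (i : ℕ)) = ∑ i, ψ (c i) * ψ z ^ (i : ℕ) := by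
  refine ⟨sum_mem fun i _ => mul_mem (hc i) (pow_mem hz _), ?_⟩
  rw [psi_sum hA fun i => mul_mem (hc i) (pow_mem hz _)]
  exact Finset.sum_congr rfl fun i _ => by rw [hA.mul _ (hc i) _ (pow_mem hz _), psi_pow hA hz]

lemma equiv_poly (hA : Adm k 𝕜 σ x O ψ) {n : ℕ} {c : Fin n → Ω'}
    (hc : ∀ i, c i ∈ O ∧ ψ (c i) ∈ k⟮x⟯) {z z' : Ω'} (hz : z ∈ O) (hz' : z' ∈ O) {γ : Aut k Ω}
    (hγ : γ ∈ Gam k x) (e : γ (ψ z) = ψ z') :
    γ (ψ (∑ i, c i * z ^ (i : ℕ))) = ψ (∑ i, c i * z' ^ (i : ℕ)) := by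
  rw [← fix_adjoin, IntermediateField.mem_fixingSubgroup_iff] at hγ
  rw [(psi_poly hA (fun i => (hc i).1) hz).2, (psi_poly hA (fun i => (hc i).1) hz').2, map_sum]
  exact Finset.sum_congr rfl fun i _ => by rw [map_mul, map_pow, e, hγ _ (hc i).2]

lemma spec_poly (hA : Adm k 𝕜 σ x O ψ) {G : Type} [Fintype G] {y : G → Ω'} (hy : ∀ h, y h ∈ O)
    {f : 𝕜[X][X]} (hm : f.Monic) (hf : f.map (aeval σ).toRingHom = ∏ h, (X - C (y h)))
    (hc : ∀ n m, algebraMap 𝕜 Ω' ((f.coeff n).coeff m) ∈ O) {T : Finset 𝕜}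
    (hT : ∀ c ∈ T, O.valuation (algebraMap 𝕜 Ω' c) = 1)
    (hirr : ∀ (R : Subring 𝕜) (k : Type) [Field k] (φ : R →+* k) (g : R[X][X]),
      (∀ c ∈ T, c ∈ R ∧ c⁻¹ ∈ R) → g.map (mapRingHom R.subtype) = f →
        Irreducible (g.map (mapRingHom φ))) :
    ∃ f' : k[X][X], f'.Monic ∧ Irreducible f' ∧
      f'.map (aeval x).toRingHom = ∏ h, (X - C (ψ (y h))) := by
  let R : Subring 𝕜 := O.toSubring.comap (algebraMap 𝕜 Ω')
  let j : R →+* O := ((algebraMap 𝕜 Ω').comp R.subtype).codRestrict O.toSubring fun c => c.2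
  choose φ₀ hφ₀ using fun c : R => hA.const c c.2
  have hφ₁ : ∀ c : R, algebraMap k Ω (φ₀ c) = hom hA (j c) := fun c => (hφ₀ c).symm
  have hinj := (algebraMap k Ω).injective
  let φ : R →+* k :=
    { toFun := φ₀
      map_one' := hinj (by rw [hφ₁, map_one, map_one, map_one])
      map_zero' := hinj (by rw [hφ₁, map_zero, map_zero, map_zero])
      map_mul' := fun a b => hinj (by rw [map_mul, hφ₁, hφ₁, hφ₁, map_mul, map_mul])
      map_add' := fun a b => hinj (by rw [map_add, hφ₁, hφ₁, hφ₁, map_add, map_add]) }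
  obtain ⟨g, hg, -, hgm⟩ := lifts_and_natDegree_eq_and_monic
    (show f ∈ lifts (mapRingHom R.subtype) from (lifts_iff_coeff_lifts _).2 fun n =>
      (mem_lifts _).1 ((lifts_iff_coeff_lifts _).2 fun m => ⟨⟨_, hc n m⟩, rfl⟩)) hm
  let e : R[X] →+* O := eval₂RingHom j ⟨σ, hA.mem⟩
  have e1 : O.subtype.comp e = (aeval σ).toRingHom.comp (mapRingHom R.subtype) := by
    refine Polynomial.ringHom_ext (fun a => ?_) ?_
    · simp [e, j]
    · simp [e]
  have e2 : (hom hA).comp e = (aeval x).toRingHom.comp (mapRingHom φ) := by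
    refine Polynomial.ringHom_ext (fun a => ?_) ?_
    · have : hom hA (j a) = algebraMap k Ω (φ a) := (hφ₁ a).symm
      simpa [e] using this
    · have : hom hA ⟨σ, hA.mem⟩ = x := hA.map
      simpa [e] using this
  have e3 : g.map e = ∏ h, (X - C (⟨y h, hy h⟩ : O)) := by
    apply map_injective O.subtype Subtype.val_injective
    rw [Polynomial.map_map, e1, ← Polynomial.map_map, hg, hf]
    simp [Polynomial.map_prod]
  refine ⟨g.map (mapRingHom φ), hgm.map _, hirr R k φ g (fun c hc => ⟨?_, ?_⟩) hg, ?_⟩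
  · exact (O.valuation_le_one_iff _).1 (hT c hc).le
  · exact (O.valuation_le_one_iff (algebraMap 𝕜 Ω' c⁻¹)).1 (by
      rw [map_inv₀, map_inv₀, hT c hc, inv_one])
  · rw [Polynomial.map_map, ← e2, ← Polynomial.map_map, e3, Polynomial.map_prod]
    refine Finset.prod_congr rfl fun h _ => ?_
    rw [Polynomial.map_sub, map_X, map_C]
    rfl

end Ev

end SpecRep

open TP SpecRep in
theorem blockSpecRep (hF : Found) (hN : StmtNoe) (hS : StmtSpec) : StmtSpecRep := by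
  intro p _ k 𝕜 Ω Ω' _ _ _ _ _ _ _ _ _ _ _ _ _ _ σ x hσ hx G _ _ ρ h hs S hSS
  classical
  have := Fintype.ofFinite G
  have : CharP 𝕜 p := charP_of_injective_algebraMap (algebraMap k 𝕜).injective p
  obtain ⟨y, hy, h1, h2⟩ := hF.str p 𝕜 Ω' σ hσ _ le_rfl G ρ h
  obtain ⟨f, hfm, hfi, hf⟩ := exists_poly hF.bas hF.gal hσ hs hy h1 h2
  obtain ⟨T, hT, hirr⟩ := hN 𝕜 f hfm hfi
  choose δ hδ hδ' using hs
  choose c hc hc' using fun h₀ : G => interp hF.gal hσ hy (fun h => (h1 h).1) h2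
    (r := fun g => y (g * h₀)) (fun g => (h1 _).1) fun γ hγ g => by rw [h2 γ hγ, mul_assoc]
  choose d hd hd' using fun s : S => interp hF.gal hσ hy (fun h => (h1 h).1) h2
    (r := fun g => δ g s) (fun g => sep_map (hδ g) (hSS s s.2).1) fun γ hγ g =>
      eq_of_rep h (hSS s s.2).2 (mul_mem hγ (hδ g)) (hδ _) (by rw [h.mul _ hγ _ (hδ g), hδ', hδ'])
  have rat := hS.rat k 𝕜 Ω Ω' σ x hx.tr
  have hne : ∀ g g' : G, (if g = g' then 1 else y g - y g') ≠ 0 := fun g g' => by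
    split_ifs with e
    · exact one_ne_zero
    · exact sub_ne_zero.2 fun e' => e (hy e')
  refine ev_mono (ev_and (ev_all fun g => hS.intg k 𝕜 Ω Ω' σ x _ (h1 g).2)
    (ev_and (ev_all fun g => ev_all fun g' => hS.ne k 𝕜 Ω Ω' σ x hσ hx.tr _ (hne g g'))
    (ev_and (ev_all fun g => ev_all fun i => rat _ (hc g i))
    (ev_and (ev_all fun s => ev_all fun i => rat _ (hd s i))
    (ev_and (ev_units T hT) (ev_units (f.coeffs.biUnion coeffs) fun a ha => ?_)))))) ?_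
  · obtain ⟨b, -, hb⟩ := Finset.mem_biUnion.1 ha
    obtain ⟨n, hn, rfl⟩ := mem_coeffs_iff.1 hb
    exact mem_support_iff.1 hn
  rintro O ψ hA ⟨e1, e2, e3, e4, e5, e6⟩
  have hyO : ∀ g, y g ∈ O := fun g => (e1 g).1
  obtain ⟨f', hf'm, hf'i, hf'⟩ := spec_poly hA hyO hfm hf (fun n m => by
    by_cases h0 : (f.coeff n).coeff m = 0
    · rw [h0, map_zero]; exact zero_mem O
    · have h0' : f.coeff n ≠ 0 := fun e => h0 (by rw [e, coeff_zero])
      exact (O.valuation_le_one_iff _).1 (e6 _ (Finset.mem_biUnion.2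
        ⟨_, coeff_mem_coeffs h0', coeff_mem_coeffs h0⟩)).le) e5 hirr
  have hy' : Function.Injective fun g => ψ (y g) := fun g g' e => by
    by_contra hgg
    have := (e2 g g').2
    rw [if_neg hgg, psi_sub hA (hyO g) (hyO g')] at this
    exact this (sub_eq_zero.2 e)
  have e7 : (f'.map (toK hx.tr)).map (algebraMap k⟮x⟯ Ω) = ∏ h, (X - C (ψ (y h))) := by
    rw [Polynomial.map_map, toK_comp, hf']
  have hroot : ∀ z, aeval z (f'.map (toK hx.tr)) = 0 ↔ ∃ g, z = ψ (y g) := fun z => by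
    rw [aeval_def, ← eval_map, e7, eval_prod, Finset.prod_eq_zero_iff]
    simp [sub_eq_zero]
  have hmin : f'.map (toK hx.tr) = minpoly k⟮x⟯ (ψ (y 1)) :=
    minpoly.eq_of_irreducible_of_monic ((irr_iff hx.tr hf'm).1 hf'i) ((hroot _).2 ⟨1, rfl⟩)
      (hf'm.map _)
  have hsep : IsSeparable k⟮x⟯ (ψ (y 1)) := by
    rw [IsSeparable, ← hmin, ← separable_map (algebraMap k⟮x⟯ Ω), e7]
    exact separable_prod_X_sub_C_iff.2 hy'
  obtain ⟨ρ', hρ', hs', hρy⟩ := exists_rep (k := k) (x := x) hy' (fun γ hγ => by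
      rw [← fix_adjoin] at hγ
      let e : Ω ≃ₐ[k⟮x⟯] Ω := IntermediateField.fixingSubgroupEquiv k⟮x⟯ ⟨γ, hγ⟩
      exact (hroot _).1 ((aeval_algHom_apply e _ _).trans (by
        rw [(hroot _).2 ⟨1, rfl⟩, map_zero])))
    (fun g => by
      rw [← fix_adjoin]
      exact hF.gal.conjRoot k Ω k⟮x⟯ hx.alg _ _ (hmin ▸ (hroot _).2 ⟨g, rfl⟩))
    (fun γ hγ g e h₀ => by
      have := equiv_poly hA (e3 h₀) (hyO 1) (hyO g) hγ e
      rwa [← hc', ← hc', one_mul] at this)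
  refine ⟨ρ', hρ', hs', fun s hs => ?_⟩
  have k1 : ∀ γ ∈ Gam 𝕜 σ, γ s = ∑ i, d ⟨s, hs⟩ i * y (ρ γ) ^ (i : ℕ) := fun γ hγ => by
    rw [← hd']
    exact eq_of_rep h (hSS s hs).2 hγ (hδ _) (hδ' _).symm
  have k2 : s = ∑ i, d ⟨s, hs⟩ i * y 1 ^ (i : ℕ) := by
    have := k1 1 (one_mem _)
    rwa [h.one] at this
  refine ⟨?_, fun γ hγ => ?_, fun γ hγ γ' hγ' e => ?_⟩
  · rw [k2, (psi_poly hA (fun i => (e4 _ i).1) (hyO 1)).2]
    exact mem_separableClosure_iff.1 (sum_mem fun i _ => mul_mem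
      ((separableClosure k⟮x⟯ Ω).algebraMap_mem ⟨_, (e4 _ i).2⟩)
      (pow_mem (mem_separableClosure_iff.2 hsep) _))
  · rw [k1 γ hγ]
    exact (psi_poly hA (fun i => (e4 _ i).1) (hyO _)).1
  · have := equiv_poly hA (e4 ⟨s, hs⟩) (hyO 1) (hyO (ρ' γ)) hγ (hρy γ hγ)
    rwa [← k2, ← e, ← k1 γ' hγ'] at this

end Pool.Agent.Lib.IW
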