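import Pool.Agent.Lib.IW.Util2

/-! Steering the image of the decomposition group by a central Kummer twist. -/

open Polynomial IntermediateField
open scoped Pointwise

namespace Pool.Agent.Lib.IW

namespace Steer

lemma cop {n d a : ℕ} (hn : n ≠ 0) (hd : d ∣ n) (h : a.Coprime d) :
    ∃ a' : ℕ, a'.Coprime n ∧ a' ≡ a [MOD d] := by
  have : NeZero n := ⟨hn⟩
  obtain ⟨u, hu⟩ := ZMod.unitsMap_surjective hd (ZMod.unitOfCoprime a h)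
  refine ⟨(u : ZMod n).val, ZMod.val_coe_unit_coprime u, ?_⟩
  rw [← ZMod.natCast_eq_natCast_iff, ← ZMod.coe_unitOfCoprime a h, ← hu, ZMod.unitsMap_def,
    Units.coe_map, MonoidHom.coe_coe, ZMod.castHom_apply, ZMod.natCast_val]

/-- A generator of a quotient of a finite cyclic group lifts to a generator. -/
lemma cyc {C : Type} [Group C] [Finite C] (c : C) (hc : ∀ x, ∃ i : ℕ, x = c ^ i) (S : Subgroup C)
    (g : C) (hg : ∀ x, ∃ i : ℕ, ∃ s ∈ S, x = g ^ i * s) :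
    ∃ s ∈ S, ∀ x, ∃ i : ℕ, x = (g * s) ^ i := by
  set d := MulAction.period c ((1 : C) : C ⧸ S)
  have hd : ∀ j : ℤ, c ^ j ∈ S ↔ (d : ℤ) ∣ j := fun j => by
    rw [← MulAction.zpow_smul_eq_iff_period_dvd, MulAction.Quotient.smul_mk, smul_eq_mul, mul_one,
      QuotientGroup.eq, mul_one, inv_mem_iff]
  have hdn : d ∣ orderOf c := by
    rw [← Int.natCast_dvd_natCast, ← hd, zpow_natCast, pow_orderOf_eq_one]
    exact one_mem _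
  obtain ⟨a, rfl⟩ := hc g
  obtain ⟨i, s, hs, e⟩ := hg c
  have h1 : (d : ℤ) ∣ 1 - a * i := by
    rw [← hd, sub_eq_neg_add, zpow_add, zpow_neg, zpow_one, ← Nat.cast_mul, zpow_natCast, pow_mul,
      inv_mul_eq_iff_eq_mul.2 e]
    exact hs
  have h2 : a.Coprime d := by
    obtain ⟨t, ht⟩ := h1
    rw [← Nat.isCoprime_iff_coprime]
    exact ⟨i, t, by linear_combination -ht⟩
  obtain ⟨a', h3, h4⟩ := cop (orderOf_pos c).ne' hdn h2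
  refine ⟨c ^ (-(a : ℤ) + a'), (hd _).2 ?_, fun x => ?_⟩
  · rw [neg_add_eq_sub]
    exact h4.symm.dvd
  · obtain ⟨m, hm⟩ := exists_pow_eq_self_of_coprime h3
    obtain ⟨j, rfl⟩ := hc x
    refine ⟨m * j, ?_⟩
    rw [zpow_add, zpow_neg, zpow_natCast, zpow_natCast, mul_inv_cancel_left, pow_mul, hm]

lemma grp {G : Type} [Group G] [Finite G] {p : ℕ} {I P P' Z : Subgroup G}
    (hZ : Z ≤ Subgroup.center G) (hP : CycP p I P) (h1 : P ≤ P') (h2 : P' ≤ I) {g : G}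
    (hg : g ∈ I) (hgen : ∀ y ∈ I, ∃ i : ℕ, ∃ a ∈ P', ∃ z ∈ Z, y = g ^ i * (a * z)) :
    ∃ z ∈ Z, g * z ∈ I ∧ ∀ J : Subgroup G, P' ≤ J → g * z ∈ J → I ≤ J := by
  obtain ⟨hPI, -, hn, c, hc, hcyc⟩ := hP
  have : (P.subgroupOf I).Normal := ⟨fun a ha y => hn y y.2 a ha⟩
  have : Z.Normal := ⟨fun a ha y => by
    rwa [Subgroup.mem_center_iff.1 (hZ ha) y, mul_inv_cancel_right]⟩
  let q := QuotientGroup.mk' (P.subgroupOf I)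
  have hq : ∀ y y' : I, q y = q y' ↔ (y : G) * (y' : G)⁻¹ ∈ P := fun y y' => by
    rw [← mul_inv_eq_one, ← map_inv, ← map_mul]
    exact QuotientGroup.eq_one_iff _
  obtain ⟨_, ⟨s, hs, rfl⟩, hs'⟩ := cyc (q ⟨c, hc⟩)
    (fun y => by
      obtain ⟨y, rfl⟩ := QuotientGroup.mk'_surjective _ y
      obtain ⟨i, hi⟩ := hcyc y y.2
      exact ⟨i, by rw [← map_pow]; exact (hq _ _).2 hi⟩)
    (((P' ⊔ Z).subgroupOf I).map q) (q ⟨g, hg⟩)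
    (fun y => by
      obtain ⟨y, rfl⟩ := QuotientGroup.mk'_surjective _ y
      obtain ⟨i, a, ha, z, hz, e⟩ := hgen y y.2
      have h3 : a * z ∈ I := by
        rw [← inv_mul_eq_iff_eq_mul.2 e]
        exact mul_mem (inv_mem (pow_mem hg i)) y.2
      refine ⟨i, q ⟨a * z, h3⟩, ⟨_, Subgroup.mul_mem_sup ha hz, rfl⟩, ?_⟩
      rw [← map_pow, ← map_mul]
      exact congrArg q (Subtype.ext e))
  obtain ⟨a, ha, z, hz, e⟩ := Subgroup.mem_sup_of_normal_right.1 hs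
  have hzI : z ∈ I := by
    rw [← inv_mul_eq_iff_eq_mul.2 e.symm]
    exact mul_mem (inv_mem (h2 ha)) s.2
  refine ⟨z, hz, mul_mem hg hzI, fun J hJ hgz y hy => ?_⟩
  obtain ⟨i, hi⟩ := hs' (q ⟨y, hy⟩)
  rw [← map_mul, ← map_pow, hq] at hi
  have h3 : g * (s : G) ∈ J := by
    have e' : (s : G) = a * z := e.symm
    rw [e', Subgroup.mem_center_iff.1 (hZ hz) a, ← mul_assoc]
    exact mul_mem hgz (hJ ha)
  have h4 := mul_mem (hJ (h1 hi)) (pow_mem h3 i)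
  rwa [show ((((⟨g, hg⟩ : I) * s) ^ i : I) : G) = (g * s) ^ i from rfl, inv_mul_cancel_right] at h4

lemma exN {p M : ℕ} [hp : Fact p.Prime] (hM : ¬ p ∣ M) (j : ℕ) :
    ∃ N : ℕ, N ≡ 1 [MOD p ^ j] ∧ M ∣ N := by
  obtain ⟨N, h1, h2⟩ := Nat.chineseRemainder
    (Nat.Coprime.pow_left j ((Nat.Prime.coprime_iff_not_dvd hp.out).2 hM)) 1 0
  exact ⟨N, h1, (Nat.modEq_zero_iff_dvd).1 h2⟩

lemma pow_eq {G : Type} [Group G] {Z : Subgroup G} (hZ : Z ≤ Subgroup.center G) {M N : ℕ}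
    (hM : ∀ c ∈ Z, c ^ M = 1) (hN : M ∣ N) {a b : G} (h : a * b⁻¹ ∈ Z) : a ^ N = b ^ N := by
  obtain ⟨t, rfl⟩ := hN
  have h1 : Commute (a * b⁻¹) b := (Subgroup.mem_center_iff.1 (hZ h) b).symm
  rw [← inv_mul_cancel_right a b, h1.mul_pow, pow_mul, hM _ h, one_pow, one_mul]

end Steer

open Steer in
theorem blockSteer (hF : Found) : StmtSteer := by
  intro p _ k Ω _ _ _ _ _ _ x hx W hW hxW G _ _ ρ hρ M hM hG r hr Z I P hZ hZM hP h1 h2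
  have hM0 : M ≠ 0 := fun h => hM (h ▸ dvd_zero p)
  have : NeZero M := ⟨hM0⟩
  have hr0 : r ≠ 0 := by
    rintro rfl
    exact hx.ne_zero (by rw [← hr, zero_pow hM0])
  have hD : DecF k⟮x⟯ W = Dec k x W := DecF_adjoin x W
  obtain ⟨ω, hω⟩ := exists_prim (k := k) (Ω := Ω) p hM
  obtain ⟨γ₁, hγ₁, e₁⟩ := Heis.exists_decInf hF p hx hW hxW hM hr hω.pow_eq_one
  have kpow : ∀ γ ∈ Dec k x W, ∀ i : ℕ, (γ ^ i) r / r = (γ r / r) ^ i := fun γ hγ i => by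
    induction i with
    | zero => simp [hr0]
    | succ i ih => rw [pow_succ, kap_mul hM0 hr hx.ne_zero _ (Dec_le _ _ hγ), ih, pow_succ]
  have hρ0 : IsRep (Dec k x W ⊓ Gam k r) ρ := hρ.mono inf_le_left
  have hPP : P ≤ hρ0.im := fun a ha => by
    obtain ⟨j, hj⟩ := hP.2.1 ⟨a, ha⟩
    have hj' : a ^ p ^ j = 1 := congrArg Subtype.val hj
    obtain ⟨N, hN1, hN2⟩ := exN hM j
    obtain ⟨γ, hγ, e⟩ := h2 a (hP.1 ha)
    refine hρ0.mem_im.2 ⟨γ ^ N, ⟨pow_mem hγ N, ?_⟩, ?_⟩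
    · obtain ⟨t, rfl⟩ := hN2
      have h3 := kpow γ hγ (M * t)
      rw [pow_mul (γ r / r), kap_pow hr hx.ne_zero (Dec_le _ _ hγ), one_pow,
        div_eq_one_iff_eq hr0] at h3
      exact h3
    · rw [hρ.pow hγ, pow_eq hZ hZM hN2 e, pow_eq_pow_of_modEq hN1 hj', pow_one]
  have hPI : hρ0.im ≤ I := fun a ha => by
    obtain ⟨γ, ⟨hγ, e⟩, rfl⟩ := hρ0.mem_im.1 ha
    obtain ⟨j, hj⟩ := hF.tame2 p k Ω k⟮x⟯ hx.ff W hW x⁻¹ (hF.bas.unifInf k Ω x hx.tr W hW hxW) G ρ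
      (hD ▸ hρ) M hM (fun γ _ => hG _) r⁻¹ (by rw [inv_pow, hr]) γ (hD ▸ hγ)
      (by rw [map_inv₀, mem_Gam.1 e])
    obtain ⟨N, hN1, hN2⟩ := exN hM j
    obtain ⟨g, hg, e'⟩ := h1 γ hγ
    rw [← pow_one (ρ γ), ← pow_eq_pow_of_modEq hN1 hj, pow_eq hZ hZM hN2 e']
    exact pow_mem hg N
  have dec : ∀ γ ∈ Dec k x W, ∃ i : ℕ, γ r / r = ω ^ i ∧ ∃ a ∈ hρ0.im, ρ γ = ρ γ₁ ^ i * a := by
    intro γ hγ
    obtain ⟨i, -, hi⟩ := hω.eq_pow_of_pow_eq_one (kap_pow hr hx.ne_zero (Dec_le _ _ hγ))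
    have h6 := inv_mem (pow_mem hγ₁ i)
    refine ⟨i, hi.symm, _, hρ0.mem_im.2 ⟨(γ₁ ^ i)⁻¹ * γ, ⟨mul_mem h6 hγ, ?_⟩, rfl⟩, ?_⟩
    · have h3 := kpow γ₁ hγ₁ i
      rw [e₁, mul_div_cancel_right₀ _ hr0, hi, div_left_inj' hr0] at h3
      refine mem_Gam.2 ?_
      rw [AlgEquiv.mul_apply, ← h3]
      exact (γ₁ ^ i).symm_apply_apply r
    · rw [hρ.mul _ h6 _ hγ, hρ.inv (pow_mem hγ₁ i), hρ.pow hγ₁, mul_inv_cancel_left]
  obtain ⟨g, hg, hz₁⟩ := h1 γ₁ hγ₁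
  set z₁ := ρ γ₁ * g⁻¹ with hz₁def
  have eg : ρ γ₁ = g * z₁ := by
    rw [Subgroup.mem_center_iff.1 (hZ hz₁) g, hz₁def, inv_mul_cancel_right]
  have cm : ∀ z ∈ Z, ∀ y : G, Commute y z := fun z hz y => Subgroup.mem_center_iff.1 (hZ hz) y
  obtain ⟨z, hz, hgz, hJ⟩ := grp hZ hP hPP hPI hg (fun y hy => by
    obtain ⟨γ, hγ, e⟩ := h2 y hy
    obtain ⟨i, -, a, ha, e'⟩ := dec γ hγ
    refine ⟨i, a, ha, z₁ ^ i * (ρ γ * y⁻¹)⁻¹, mul_mem (pow_mem hz₁ i) (inv_mem e), ?_⟩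
    rw [← mul_assoc a, (cm _ (pow_mem hz₁ i) a).eq, ← mul_assoc, ← mul_assoc,
      ← (cm _ hz₁ g).mul_pow, ← eg, ← e', (cm _ (inv_mem e) (ρ γ)).eq]
    group)
  have hz₀ : z₁⁻¹ * z ∈ Z := mul_mem (inv_mem hz₁) hz
  have hlg : ∀ ζ : Ω, ∃ i : ℕ, ζ ^ M = 1 → ω ^ i = ζ := fun ζ => by
    by_cases h : ζ ^ M = 1
    · obtain ⟨i, -, hi⟩ := hω.eq_pow_of_pow_eq_one h
      exact ⟨i, fun _ => hi⟩
    · exact ⟨0, fun h' => absurd h' h⟩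
  choose lg hlg using hlg
  have hωi : ∀ i : ℕ, (ω ^ i) ^ M = 1 := fun i => by
    rw [← pow_mul, mul_comm, pow_mul, hω.pow_eq_one, one_pow]
  have hlam : ∀ i : ℕ, (z₁⁻¹ * z) ^ lg (ω ^ i) = (z₁⁻¹ * z) ^ i := fun i => by
    refine pow_eq_pow_of_modEq ?_ (hZM _ hz₀)
    have h3 := hlg _ (hωi i)
    rwa [(hω.isOfFinOrder hM0).pow_eq_pow_iff_modEq, ← hω.eq_orderOf] at h3
  have hL : IsLam M Z fun ζ : Ω => (z₁⁻¹ * z) ^ lg ζ := by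
    refine ⟨fun ζ ζ' h h' => ?_, fun ζ _ => pow_mem hz₀ _⟩
    beta_reduce
    conv_lhs => rw [← hlg ζ h, ← hlg ζ' h', ← pow_add, hlam, pow_add]
  refine ⟨_, hL, ?_⟩
  have hT := hρ.twist hx.ne_zero hM0 hr (Dec_le x W) hZ hL
  have e0 : ρ γ₁ * (z₁⁻¹ * z) = g * z := by rw [eg]; group
  rw [← hT.coe_im]
  refine congrArg _ (le_antisymm (fun y hy => ?_) (hJ _ (fun a ha => ?_) ?_))
  · obtain ⟨γ, hγ, rfl⟩ := hT.mem_im.1 hy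
    obtain ⟨i, hi, a, ha, e⟩ := dec γ hγ
    rw [hi, hlam, e, mul_assoc, (cm _ (pow_mem hz₀ i) a).eq, ← mul_assoc,
      ← (cm _ hz₀ _).mul_pow, e0]
    exact mul_mem (pow_mem hgz i) (hPI ha)
  · obtain ⟨γ, ⟨hγ, e⟩, rfl⟩ := hρ0.mem_im.1 ha
    refine hT.mem_im.2 ⟨γ, hγ, ?_⟩
    rw [mem_Gam.1 e, div_self hr0, ← pow_zero ω, hlam, pow_zero, mul_one]
  · refine hT.mem_im.2 ⟨γ₁, hγ₁, ?_⟩
    rw [e₁, mul_div_cancel_right₀ _ hr0, ← pow_one ω, hlam, pow_one, e0]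

end Pool.Agent.Lib.IW
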