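import Pool.Agent.Lib.IW.Util2

/-! Lifting through a central subgroup of prime order not dividing the order of `H`. -/

open Polynomial IntermediateField
open scoped Pointwise

namespace Pool.Agent.Lib.IW

namespace StepC

variable {k Ω : Type} [Field k] [IsAlgClosed k] [Field Ω] [Algebra k Ω]

lemma kap_npow {x r : Ω} {M : ℕ} (hM : M ≠ 0) (hr : r ^ M = x) (hx : x ≠ 0) {γ : Aut k Ω}
    (hγ : γ ∈ Gam k x) (n : ℕ) : (γ ^ n) r / r = (γ r / r) ^ n := by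
  have h0 : r ≠ 0 := by
    rintro rfl
    exact hx (by rw [← hr, zero_pow hM])
  induction n with
  | zero => simp [h0]
  | succ n ih => rw [pow_succ, kap_mul hM hr hx _ hγ, ih, pow_succ]

lemma pow_mem_Gam {x r : Ω} {M : ℕ} (hM : M ≠ 0) (hr : r ^ M = x) (hx : x ≠ 0) {γ : Aut k Ω}
    (hγ : γ ∈ Gam k x) : γ ^ M ∈ Gam k r := by
  have h0 : r ≠ 0 := by
    rintro rfl
    exact hx (by rw [← hr, zero_pow hM])
  have h := kap_npow hM hr hx hγ M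
  rw [kap_pow hr hx hγ, div_eq_one_iff_eq h0] at h
  exact h

end StepC

theorem blockStepC (hF : Found) (hc : StmtLGc) : StmtStepC := by
  intro p hp k Ω _ _ _ _ _ _ G G' _ _ _ π hπ H P hP hg l hl hlp hZ hK hH
    ⟨x, hx, ρ', hρ', hon, hu, W, hW, hxW, him⟩
  have hKl : ∀ c ∈ π.ker, c ^ l = 1 := fun c h => by
    have h1 : (⟨c, h⟩ : π.ker) ^ Nat.card π.ker = 1 := pow_card_eq_one'
    rw [hK] at h1
    exact congrArg Subtype.val h1
  have hZ' : ∀ c ∈ π.ker, ∀ g : G, Commute g c := fun c h g => Subgroup.mem_center_iff.1 (hZ h) g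
  obtain ⟨ρ, h1, h2, h3⟩ := hc p k Ω x hx G G' π hπ l hl hlp
    (fun a => ⟨1, Subtype.ext (by simpa using hKl a a.2)⟩) hZ ρ' hρ'
  have h4 : Unr x ρ := fun W' hW' hxW' => h3 W' hW' hxW' (hu W' hW' hxW')
  have h5 : ∀ g : G, ∃ s ∈ h1.im, ∃ c ∈ π.ker, g = s * c := fun g => by
    obtain ⟨γ, hγ, e⟩ := hon (π g)
    refine ⟨ρ γ, h1.mem_im.2 ⟨γ, hγ, rfl⟩, (ρ γ)⁻¹ * g, ?_, by group⟩
    rw [MonoidHom.mem_ker, map_mul, map_inv, h2 γ hγ, e, inv_mul_cancel]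
  have h6 : h1.im.Normal := ⟨fun a ha g => by
    obtain ⟨s, hs, c, hc', rfl⟩ := h5 g
    have h7 : s * c * a * (s * c)⁻¹ = s * a * s⁻¹ := by
      rw [mul_assoc s c a, ← (hZ' c hc' a).eq]
      group
    rw [h7]
    exact mul_mem (mul_mem hs ha) (inv_mem hs)⟩
  have h7 : h1.im = ⊤ := by
    rw [eq_top_iff, ← hg]
    refine Subgroup.normalClosure_le_normal fun a ha => ?_
    obtain ⟨j, hj⟩ := hP ⟨a, ha⟩
    have h8 : a ^ p ^ j = 1 := congrArg Subtype.val hj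
    obtain ⟨s, hs, c, hc', e⟩ := h5 a
    refine (QuotientGroup.eq_one_iff a).1 (eq_one_of_pl (p := p) (G := G ⧸ h1.im) hl hlp (i := j)
      (j := 1) ?_ ?_)
    · rw [← QuotientGroup.mk_pow, h8, QuotientGroup.mk_one]
    · rw [← QuotientGroup.mk_pow, QuotientGroup.eq_one_iff, pow_one, e, (hZ' c hc' s).mul_pow,
        hKl c hc', mul_one]
      exact pow_mem hs l
  have hpl : ¬ p ∣ l := fun h => hlp ((Nat.prime_dvd_prime_iff_eq hp.out hl).1 h).symm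
  obtain ⟨z, hz⟩ := IsAlgClosed.exists_pow_nat_eq x hl.pos
  have hzx := Gam_le_of_pow (k := k) hz
  have hd := Dec_le_of_pow (k := k) hz W
  obtain ⟨m, hm⟩ : ∃ m : ℕ, l * m ≡ 1 [MOD Nat.card H] :=
    Nat.exists_mul_mod_eq_of_coprime 1 ((Nat.Prime.coprime_iff_not_dvd hl).2 hH) Nat.card_pos.ne'
      |>.imp fun _ h => h.2
  have hpw : ∀ h ∈ H, ∀ c ∈ π.ker, (h * c) ^ (l * m) = h := fun h hh c hc' => by
    have h8 : (⟨h, hh⟩ : H) ^ (l * m) = ⟨h, hh⟩ ^ 1 :=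
      pow_eq_pow_iff_modEq.2 (hm.of_dvd (orderOf_dvd_natCard _))
    rw [(hZ' c hc' h).mul_pow, pow_mul c, hKl c hc', one_pow, mul_one]
    simpa using congrArg Subtype.val h8
  have hdec : ∀ γ ∈ Dec k x W, ∃ h ∈ H, ∃ c ∈ π.ker, ρ γ = h * c := fun γ hγ => by
    obtain ⟨h, hh, e⟩ : ρ' γ ∈ (H.map π : Set G') := him ▸ ⟨γ, hγ, rfl⟩
    refine ⟨h, hh, h⁻¹ * ρ γ, ?_, by group⟩
    rw [MonoidHom.mem_ker, map_mul, map_inv, h2 γ (Dec_le _ _ hγ), e, inv_mul_cancel]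
  have hχ : IsRep (Dec k x W) fun γ => (ρ γ ^ (l * m))⁻¹ * ρ γ :=
    ⟨fun γ hγ δ hδ => by
      obtain ⟨h, hh, c, hc', e⟩ := hdec γ hγ
      obtain ⟨h', hh', c', hc'', e'⟩ := hdec δ hδ
      have e2 : ρ (γ * δ) = h * h' * (c * c') := by
        rw [h1.mul _ (Dec_le _ _ hγ) _ (Dec_le _ _ hδ), e, e', mul_assoc h, ← mul_assoc c,
          ← (hZ' c hc' h').eq]
        simp only [mul_assoc]
      rw [e2, e, e', hpw _ (mul_mem hh hh') _ (mul_mem hc' hc''), hpw _ hh _ hc', hpw _ hh' _ hc'']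
      group, (h1.cts.mono (Dec_le _ _)).comp fun g => (g ^ (l * m))⁻¹ * g⟩
  refine ⟨z, co_of_pow hF.bas hx hz, ρ, h1.mono hzx, fun g => ?_, fun W' hW' hzW' γ hγ =>
    h4 W' hW' (hz ▸ pow_mem hzW' l) γ (Dec_le_of_pow hz W' hγ), W, hW,
    fun h => hxW (hz ▸ pow_mem h l), ?_⟩
  · obtain ⟨γ, hγ, rfl⟩ := h1.mem_im.1 (h7 ▸ Subgroup.mem_top g)
    exact im_pow hF p hx hpl hz h1 h4 hγ
  · have hχl : ∀ γ ∈ Dec k x W, ((ρ γ ^ (l * m))⁻¹ * ρ γ) ^ l = 1 := fun γ hγ => by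
      obtain ⟨h, hh, c, hc', e⟩ := hdec γ hγ
      rw [e, hpw _ hh _ hc', inv_mul_cancel_left, hKl c hc']
    ext g
    constructor
    · rintro ⟨γ, hγ, rfl⟩
      obtain ⟨i, hi⟩ := hF.tame2 p k Ω k⟮x⟯ hx.ff W hW x⁻¹ (hF.bas.unifInf k Ω x hx.tr W hW hxW)
        G _ (by rw [DecF_adjoin]; exact hχ) l hpl
        (fun γ hγ => ⟨0, by rw [DecF_adjoin] at hγ; simpa using hχl γ hγ⟩) z⁻¹
        (by rw [inv_pow, hz]) γ (by rw [DecF_adjoin]; exact hd hγ)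
        (by rw [map_inv₀, mem_Gam.1 (Dec_le _ _ hγ)])
      have h8 := eq_one_of_pl hl hlp hi (j := 1) (by rw [pow_one]; exact hχl γ (hd hγ))
      obtain ⟨h, hh, c, hc', e⟩ := hdec γ (hd hγ)
      rw [e, hpw _ hh _ hc', inv_mul_cancel_left] at h8
      rw [e, h8, mul_one]
      exact hh
    · intro hg'
      obtain ⟨γ, hγ, e⟩ : π g ∈ ρ' '' (Dec k x W : Set (Aut k Ω)) :=
        him ▸ Subgroup.mem_map_of_mem π hg'
      have hγ' := Dec_le _ _ hγ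
      refine ⟨γ ^ (l * m), ⟨?_, pow_mem hγ.2 _⟩, ?_⟩
      · rw [pow_mul]
        exact pow_mem (StepC.pow_mem_Gam hl.ne_zero hz hx.ne_zero hγ') m
      · rw [h1.pow hγ', show ρ γ = g * (g⁻¹ * ρ γ) by group]
        refine hpw g hg' _ ?_
        rw [MonoidHom.mem_ker, map_mul, map_inv, h2 γ hγ', e, inv_mul_cancel]

end Pool.Agent.Lib.IW
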