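import Pool.Agent.Lib.IW.Util2

/-! Lifting through a minimal non-central normal subgroup of prime power order. -/

open Polynomial IntermediateField
open scoped Pointwise commutatorElement

namespace Pool.Agent.Lib.IW

namespace StepL

variable {G : Type} [Group G]

lemma gen_top {K T : Subgroup G} [hK : K.Normal]
    (hmin : ∀ N : Subgroup G, N.Normal → N ≤ K → N = K ∨ N ≤ Subgroup.center G)
    (hcen : ⁅K, K⁆ ≤ Subgroup.center G) (hT : ∀ g, ∃ t ∈ T, g * t⁻¹ ∈ K)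
    (hn : ¬ T ⊓ K ≤ Subgroup.center G) : T = ⊤ := by
  have hle : ⁅K, K⁆ ≤ K := Subgroup.commutator_le_right K K
  have hm : ∀ a, a ∈ (T ⊓ K) ⊔ ⁅K, K⁆ ↔ ∃ s ∈ T ⊓ K, ∃ c ∈ ⁅K, K⁆, s * c = a := fun a =>
    Subgroup.mem_sup_of_normal_right
  have hN : ((T ⊓ K) ⊔ ⁅K, K⁆).Normal := ⟨fun a ha g => by
    obtain ⟨s, hs, c, hc, rfl⟩ := (hm a).1 ha
    obtain ⟨t, ht, hg⟩ := hT g
    have h1 : t * s * t⁻¹ ∈ T ⊓ K :=
      ⟨T.mul_mem (T.mul_mem ht hs.1) (T.inv_mem ht), hK.conj_mem _ hs.2 t⟩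
    have h2 := Subgroup.commutator_mem_commutator hg h1.2
    rw [show g * (s * c) * g⁻¹ = ⁅g * t⁻¹, t * s * t⁻¹⁆ * (t * s * t⁻¹) * (g * c * g⁻¹) by
      rw [commutatorElement_def]; group]
    exact mul_mem (mul_mem (Subgroup.mem_sup_right h2) (Subgroup.mem_sup_left h1))
      (Subgroup.mem_sup_right (Subgroup.Normal.conj_mem inferInstance c hc g))⟩
  rcases hmin _ hN (sup_le inf_le_right hle) with h | h
  · have h1 : ⁅K, K⁆ ≤ T := Subgroup.commutator_le.2 fun a ha b hb => by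
      obtain ⟨s, hs, c, hc, rfl⟩ := (hm a).1 (h.symm ▸ ha)
      obtain ⟨s', hs', c', hc', rfl⟩ := (hm b).1 (h.symm ▸ hb)
      have e1 := Subgroup.mem_center_iff.1 (hcen hc)
      have e2 := Subgroup.mem_center_iff.1 (hcen hc')
      rw [show ⁅s * c, s' * c'⁆ = s * s' * s⁻¹ * s'⁻¹ by
        rw [commutatorElement_def, mul_assoc s c, ← e1]
        calc _ = s * (s' * (c' * s⁻¹)) * (s' * c')⁻¹ := by group
          _ = _ := by rw [← e2]; group]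
      exact mul_mem (mul_mem (mul_mem hs.1 hs'.1) (inv_mem hs.1)) (inv_mem hs'.1)
    have h2 : K ≤ T := h ▸ sup_le inf_le_left h1
    rw [eq_top_iff]
    rintro g -
    obtain ⟨t, ht, hg⟩ := hT g
    simpa using mul_mem (h2 hg) ht
  · exact absurd (le_sup_left.trans h) hn

lemma not_second {K : Subgroup G} [hK : K.Normal]
    (hmin : ∀ N : Subgroup G, N.Normal → N ≤ K → N = K ∨ N ≤ Subgroup.center G)
    (hKG : ⁅K, (⊤ : Subgroup G)⁆ = K) {u : G} (hu : u ∈ K) (hn : u ∉ Subgroup.center G) :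
    ¬ ∀ g, ⁅u, g⁆ ∈ Subgroup.center G := fun h => by
  rw [← Subgroup.upperCentralSeries_one] at h
  rcases hmin (Subgroup.upperCentralSeries G 2 ⊓ K) inferInstance inf_le_right with h1 | h1
  · refine hn ((?_ : K ≤ Subgroup.center G) hu)
    rw [← hKG, ← Subgroup.upperCentralSeries_one]
    exact Subgroup.commutator_le.2 fun a ha g _ => (h1.symm ▸ ha :
      a ∈ Subgroup.upperCentralSeries G 2 ⊓ K).1 g
  · exact hn (h1 ⟨h, hu⟩)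

lemma central {p l : ℕ} [Fact p.Prime] (hl : l.Prime) (hlp : l ≠ p) {K H P : Subgroup G}
    [hK : K.Normal] (hp : IsPGroup l K) (hH : CycP p H P) {a g : G} (ha : a ∈ K) (haH : a ∈ H)
    (hg : g ∈ H) : g * a = a * g := by
  obtain ⟨h1, h2, h3, c, hc, h4⟩ := hH
  obtain ⟨i, hi⟩ := h4 a haH
  obtain ⟨j, hj⟩ := h4 g hg
  have h5 : g * a * g⁻¹ * a⁻¹ ∈ P := by
    have h6 := h3 _ (pow_mem hc j) _ hi
    have h7 := h3 _ (pow_mem hc i) _ (inv_mem hj)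
    have h8 := mul_mem (mul_mem (mul_mem hj h6) h7) (inv_mem hi)
    convert h8 using 1
    have h9 : c ^ j * c ^ i = c ^ i * c ^ j := pow_mul_comm c j i
    calc _ = g * a * (c ^ j * c ^ i)⁻¹ * (c ^ j * c ^ i) * g⁻¹ * a⁻¹ := by group
      _ = g * a * (c ^ j * c ^ i)⁻¹ * (c ^ i * c ^ j) * g⁻¹ * a⁻¹ := by rw [← h9]
      _ = _ := by group
  obtain ⟨m, hm⟩ := h2 ⟨_, h5⟩
  obtain ⟨n, hn⟩ := hp ⟨_, mul_mem (hK.conj_mem a ha g) (inv_mem ha)⟩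
  have h10 := eq_one_of_pl hl hlp (congrArg Subtype.val hm) (congrArg Subtype.val hn)
  rwa [mul_inv_eq_one, mul_inv_eq_iff_eq_mul] at h10

lemma cycP_top {p : ℕ} {H P : Subgroup G} (hH : CycP p H P) : CycP p ⊤ (P.subgroupOf H) := by
  obtain ⟨-, h2, h3, c, hc, h4⟩ := hH
  exact ⟨le_top, h2.comap_of_injective _ H.subtype_injective, fun g _ a ha => h3 g g.2 a ha,
    ⟨c, hc⟩, trivial, fun g _ => h4 g g.2⟩

end StepL

open StepL in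
theorem blockStepL (hF : Found) (hW : StmtWeak) (hG : StmtLG) (hc : StmtLGc) (hP : StmtProp)
    (hH : StmtHeis) (hS : StmtSteer) (hL : StmtPL) : StmtStepL := by
  intro p _ k Ω _ _ _ _ _ _ G G' _ _ _ π hπ H P hHP hgen l hl hlp hp hmin hcen hKG u hu hun hsurj
  rintro ⟨x, hx, ρ', r1, r2, r3, W, hW1, hxW, r4⟩
  obtain ⟨M, hM, ⟨j, hj⟩, hM'⟩ := exists_pprime G p
  have hM0 : M ≠ 0 := fun h => hM (h ▸ dvd_zero p)
  have hMK : ∀ a ∈ π.ker, a ^ M = 1 := fun a ha => by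
    obtain ⟨n, hn⟩ := hp ⟨a, ha⟩
    exact hM' a (l ^ n) (fun h => hlp ((Nat.prime_dvd_prime_iff_eq Fact.out hl).1
      (Nat.Prime.dvd_of_dvd_pow Fact.out h)).symm) (congrArg Subtype.val hn)
  have hle : ⁅π.ker, π.ker⁆ ≤ π.ker := Subgroup.commutator_le_right _ _
  have hq := quasi_p hHP.2.1 hgen
  obtain ⟨z, hz⟩ := IsAlgClosed.exists_pow_nat_eq x (Nat.pos_of_ne_zero hM0)
  obtain ⟨r, hr⟩ := IsAlgClosed.exists_pow_nat_eq z (Nat.pos_of_ne_zero hM0)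
  have hzx := Gam_le_of_pow (k := k) hz
  -- a local lift onto `H`
  have hZ : π.ker.subgroupOf H ≤ Subgroup.center H := fun a ha =>
    Subgroup.mem_center_iff.2 fun g => Subtype.ext (central hl hlp hp hHP ha a.2 g.2)
  classical
  let ρ'' : Aut k Ω → H.map π := fun γ => if h : ρ' γ ∈ H.map π then ⟨_, h⟩ else 1
  have h1 : ∀ γ ∈ Dec k x W, (ρ'' γ : G') = ρ' γ := fun γ hγ => by
    have h : ρ' γ ∈ H.map π := by
      rw [← SetLike.mem_coe, ← r4]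
      exact ⟨γ, hγ, rfl⟩
    simp only [ρ'', dif_pos h]
  obtain ⟨ρ₀, a1, a2⟩ := hW p k Ω x hx _ (Dec_le x W) H (H.map π) (π.subgroupMap H)
    (π.subgroupMap_surjective H) l hl hlp
    (by rw [Subgroup.ker_subgroupMap]; exact hp.comap_of_injective _ H.subtype_injective)
    (fun a ha b _ => by
      rw [Subgroup.ker_subgroupMap] at ha
      exact (Subgroup.mem_center_iff.1 (hZ ha) b).symm) ρ''
    ⟨fun γ hγ δ hδ => Subtype.ext (by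
      rw [Subgroup.coe_mul, h1 _ (mul_mem hγ hδ), h1 γ hγ, h1 δ hδ,
        r1.mul γ (Dec_le _ _ hγ) δ (Dec_le _ _ hδ)]),
      (r1.cts.mono (Dec_le _ _)).comp fun g => if h : g ∈ H.map π then (⟨_, h⟩ : H.map π) else 1⟩
  have a3 : ∀ γ ∈ Dec k x W, π (ρ₀ γ) = ρ' γ := fun γ hγ =>
    (congrArg Subtype.val (a2 γ hγ)).trans (h1 γ hγ)
  obtain ⟨lam₀, l1, l2⟩ := hS p k Ω x hx W hW1 hxW H ρ₀ a1 M hM
    (fun g => ⟨j, Subtype.ext (hj g)⟩) z hz _ ⊤ _ hZ (fun c hc => Subtype.ext (hMK c hc))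
    (cycP_top hHP) (fun γ _ => ⟨ρ₀ γ, trivial, by simp⟩) fun g _ => by
      obtain ⟨γ, hγ, e⟩ : π g ∈ ρ' '' (Dec k x W : Set (Aut k Ω)) := by
        rw [r4]
        exact Subgroup.mem_map_of_mem π g.2
      refine ⟨γ, hγ, ?_⟩
      rw [Subgroup.mem_subgroupOf, MonoidHom.mem_ker, Subgroup.coe_mul, Subgroup.coe_inv, map_mul,
        map_inv, a3 γ hγ, e, mul_inv_cancel]
  have i1 := (a1.twist hx.ne_zero hM0 hz (Dec_le _ _) hZ l1).comp H.subtype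
  set ρi : Aut k Ω → G := fun γ => H.subtype (ρ₀ γ * lam₀ (γ z / z)) with hρi
  have i2 : ∀ γ ∈ Dec k x W, π (ρi γ) = ρ' γ := fun γ hγ => by
    have h := l1.2 _ (kap_pow hz hx.ne_zero (Dec_le _ _ hγ))
    rw [Subgroup.mem_subgroupOf, MonoidHom.mem_ker] at h
    simp only [hρi, Subgroup.subtype_apply, Subgroup.coe_mul, map_mul, a3 γ hγ, h, mul_one]
  have i3 : ∀ g ∈ H, ∃ γ ∈ Dec k x W, ρi γ = g := fun g hg => by
    obtain ⟨γ, hγ, e⟩ : (⟨g, hg⟩ : H) ∈ (fun γ => ρ₀ γ * lam₀ (γ z / z)) ''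
        (Dec k x W : Set (Aut k Ω)) := by rw [l2]; trivial
    exact ⟨γ, hγ, congrArg Subtype.val e⟩
  -- the global lift
  let q := QuotientGroup.mk' ⁅π.ker, π.ker⁆
  have hq1 : ∀ g g', q g = q g' ↔ g * g'⁻¹ ∈ ⁅π.ker, π.ker⁆ := fun g g' => by
    rw [← mul_inv_eq_one, ← map_inv, ← map_mul]
    exact QuotientGroup.eq_one_iff _
  have hk := QuotientGroup.ker_lift _ π hle
  obtain ⟨ρq, b1, b2, b3, b4⟩ := hG p k Ω x hx (G ⧸ ⁅π.ker, π.ker⁆) G' (QuotientGroup.lift _ π hle)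
    (QuotientGroup.lift_surjective_of_surjective _ π hπ hle) l hl hlp (by rw [hk]; exact hp.map _)
    (by
      rw [hk]
      rintro _ ⟨a, ha, rfl⟩ _ ⟨b, hb, rfl⟩
      rw [← map_mul, ← map_mul]
      exact (hq1 _ _).2 (by
        rw [mul_inv_rev, ← mul_assoc]; exact Subgroup.commutator_mem_commutator ha hb))
    (by
      rw [hk, ← Subgroup.map_top_of_surjective q (QuotientGroup.mk'_surjective _),
        ← Subgroup.map_commutator, hKG]) ρ' r1 r2 r3 W hW1 hxW _ (i1.comp q) i2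
  have hkq : q.ker = ⁅π.ker, π.ker⁆ := QuotientGroup.ker_mk' _
  obtain ⟨ρ, c1, c2, c3⟩ := hc p k Ω x hx G _ q (QuotientGroup.mk'_surjective _) l hl hlp
    (hp.to_le (hkq.le.trans hle)) (hkq.le.trans hcen) ρq b1
  have c4 : Unr x ρ := fun W' hW' h => c3 W' hW' h (b2 W' hW' h)
  have c5 : ∀ γ ∈ Dec k x W, ρ γ * (ρi γ)⁻¹ ∈ ⁅π.ker, π.ker⁆ := fun γ hγ =>
    (hq1 _ _).1 ((c2 γ (Dec_le _ _ hγ)).trans (b4 γ hγ))
  have c6 : ∀ g, ∃ γ ∈ Gam k x, g * (ρ γ)⁻¹ ∈ π.ker := fun g => by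
    obtain ⟨γ, hγ, e⟩ := r2 (π g)
    refine ⟨γ, hγ, ?_⟩
    have h : π (ρ γ) = ρ' γ := by rw [← b3 γ hγ, ← c2 γ hγ]; rfl
    rw [MonoidHom.mem_ker, map_mul, map_inv, h, e, mul_inv_cancel]
  -- make it connected
  obtain ⟨W₀, hW₀, hx₀⟩ := hF.bas.exAt k Ω x hx 0
  rw [map_zero, sub_zero] at hx₀
  obtain ⟨ω, hω⟩ := exists_prim (k := k) (Ω := Ω) p hM
  obtain ⟨ρ₂, p1, p2, p3, p4, -, p6⟩ := hP p k Ω x hx G π.ker l hl hlp hp hcen hKG ρ c1 c4 c6 W W₀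
    hW1 hxW hW₀ hx₀ M hM hMK z ω hz hω u hu
  obtain ⟨ρ₃, d1, d2, d3, W₃, hW₃, hx₃, d4⟩ := pl_one hL p hx hM hz hq (p1.mono hzx) p3 c1 c4
    (gen_top hmin hcen (fun g => by
      obtain ⟨γ, hγ, e⟩ := c6 g
      exact ⟨_, Subgroup.subset_closure (Or.inr ⟨γ, hγ, rfl⟩), e⟩) fun h => by
      refine not_second hmin hKG hu hun fun g => ?_
      obtain ⟨γ₀, hγ₀, e₀⟩ := Heis.exists_dec0 hF p hx hW₀ hx₀ hM hz hω.pow_eq_one
      have hγ₀' := Dec_le _ _ hγ₀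
      have e1 := hcen (p6 γ₀ hγ₀ 1 (by rw [pow_one, e₀]))
      rw [pow_one] at e1
      have e2 := c4 W₀ hW₀ ((W₀.valuation_le_one_iff x).1 hx₀.le) γ₀ hγ₀
      have e3 : ∀ γ ∈ Gam k z, ρ₂ γ * (ρ γ)⁻¹ ∈ Subgroup.center G := fun γ hγ =>
        h ⟨Subgroup.mul_mem _ (Subgroup.subset_closure (Or.inl ⟨γ, hγ, rfl⟩))
          (Subgroup.inv_mem _ (Subgroup.subset_closure (Or.inr ⟨γ, hzx hγ, rfl⟩))), p2 γ (hzx hγ)⟩
      obtain ⟨γ', hγ', e4⟩ := c6 g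
      obtain ⟨γ, hγ, e5⟩ := im_pow hF p hx hM hz c1 c4 hγ'
      rw [← e5] at e4
      have e6 : γ₀ * γ * γ₀⁻¹ ∈ Gam k z := by
        have e7 : γ₀⁻¹ z = ω⁻¹ * z := by
          have e8 := congrArg (γ₀⁻¹ : Aut k Ω) e₀
          rw [map_mul, root_fixed hM0 hω.pow_eq_one, ← AlgEquiv.mul_apply, inv_mul_cancel,
            AlgEquiv.one_apply] at e8
          rw [eq_inv_mul_iff_mul_eq₀ (hω.ne_zero hM0), ← e8]
        rw [mem_Gam, AlgEquiv.mul_apply, AlgEquiv.mul_apply, e7, map_mul,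
          root_fixed hM0 hω.inv.pow_eq_one, mem_Gam.1 hγ, map_mul,
          root_fixed hM0 hω.inv.pow_eq_one, e₀, inv_mul_cancel_left₀ (hω.ne_zero hM0)]
      have e7 := e3 _ e6
      rw [p1.mul _ (mul_mem hγ₀' (hzx hγ)) _ (inv_mem hγ₀'), p1.mul _ hγ₀' _ (hzx hγ),
        c1.mul _ (mul_mem hγ₀' (hzx hγ)) _ (inv_mem hγ₀'), c1.mul _ hγ₀' _ (hzx hγ), p1.inv hγ₀',
        c1.inv hγ₀', e2] at e7
      let Q := QuotientGroup.mk' (Subgroup.center G)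
      have hQ : ∀ a, a ∈ Subgroup.center G ↔ Q a = 1 := fun a => (QuotientGroup.eq_one_iff a).symm
      have e8 := hcen (Subgroup.commutator_mem_commutator hu e4)
      have e9 := e3 γ hγ
      simp only [hQ, map_mul, map_inv, commutatorElement_def, mul_inv_eq_one, map_one, one_mul,
        inv_one, mul_one] at e1 e7 e8 e9 ⊢
      rw [e1, e9] at e7
      calc Q u * Q g * (Q u)⁻¹
          = Q u * (Q g * (Q (ρ γ))⁻¹) * (Q u)⁻¹ * (Q u * Q (ρ γ) * (Q u)⁻¹) := by group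
        _ = Q g := by rw [e7, e8]; group) hW1 hxW p4 (c1.mono (Dec_le x W)).coe_im.symm
  -- steer to `H`
  obtain ⟨lam, m1, m2⟩ := hS p k Ω x hx W₃ hW₃ hx₃ G ρ₃ (d1.mono (Dec_le _ _)) M hM
    (fun g => ⟨j, hj g⟩) z hz _ H P hcen (fun c hc => hMK c (hle hc)) hHP
    (fun γ hγ => by
      have h : ρ₃ γ ∈ ((c1.mono (Dec_le x W)).im : Set G) := d4 ▸ ⟨γ, hγ, rfl⟩
      obtain ⟨δ, hδ, e⟩ := (IsRep.mem_im _).1 h
      exact ⟨ρi δ, (ρ₀ δ * lam₀ (δ z / z)).2, e ▸ c5 δ hδ⟩)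
    fun g hg => by
      obtain ⟨δ, hδ, rfl⟩ := i3 g hg
      have h : ρ δ ∈ ρ₃ '' (Dec k x W₃ : Set (Aut k Ω)) :=
        d4 ▸ (IsRep.mem_im _).2 ⟨δ, hδ, rfl⟩
      obtain ⟨γ, hγ, e⟩ := h
      exact ⟨γ, hγ, e ▸ c5 δ hδ⟩
  obtain ⟨ρ₁, f1, f2, f3⟩ := hH p k Ω x hx G π.ker l hl hlp hp hcen hKG u hu hsurj ρ₃ d1 d3 d2 W₃
    hW₃ hx₃ M hM hMK z r hz hr lam m1
  refine ⟨x, hx, hL p k Ω x z hx M hM hz G hq ρ₁ ρ₃ f1 f2 d1 d3 ?_ W₃ hW₃ hx₃ M hM r z hr hz lam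
    ⟨m1.1, fun ζ h => hcen (m1.2 ζ h)⟩ f3 H m2⟩
  rw [eq_top_iff]
  rintro g -
  obtain ⟨γ, hγ, e⟩ := d2 g
  exact Subgroup.subset_closure (Or.inr ⟨γ, hγ, e⟩)

end Pool.Agent.Lib.IW
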