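import Pool.Agent.Lib.IW.Util2

/-! Lifting through a minimal normal `p`-subgroup. -/

open Polynomial IntermediateField
open scoped Pointwise

namespace Pool.Agent.Lib.IW

namespace StepP

variable {G : Type} [Group G]

/-- A `p`-group normalising a nontrivial finite `p`-group centralises a nontrivial element. -/
lemma exists_fixed [Finite G] {p : ℕ} [Fact p.Prime] (V Q : Subgroup G) [hV : V.Normal]
    (hp : ∀ a ∈ V, a ^ p = 1) (hne : V ≠ ⊥) (hQ : IsPGroup p Q) :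
    ∃ v ∈ V, v ≠ 1 ∧ ∀ g ∈ Q, v * g * v⁻¹ = g := by
  let act : MulAction Q V := MulAction.compHom V ((MulAut.conjNormal (H := V)).comp Q.subtype)
  have hs : ∀ (g : Q) (a : V), ((g • a : V) : G) = g * a * (g : G)⁻¹ := fun _ _ => rfl
  have hVp : IsPGroup p V := fun a => ⟨1, Subtype.ext (by simpa using hp a a.2)⟩
  have hnt : Nontrivial V := (Subgroup.nontrivial_iff_ne_bot V).2 hne
  have hd : p ∣ Nat.card V := by
    obtain ⟨n, hn, h⟩ := hVp.nontrivial_iff_card.1 hnt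
    rw [h]
    exact dvd_pow_self p hn.ne'
  have h1 : (1 : V) ∈ MulAction.fixedPoints Q V := fun g => Subtype.ext (by rw [hs]; simp)
  obtain ⟨b, hb, hb1⟩ := hQ.exists_fixed_point_of_prime_dvd_card_of_fixed_point V hd h1
  refine ⟨b, b.2, fun h => hb1 (Subtype.ext h.symm), fun g hg => ?_⟩
  have h2 := congrArg Subtype.val (hb ⟨g, hg⟩)
  rw [hs] at h2
  change g * b * g⁻¹ = b at h2
  rw [mul_inv_eq_iff_eq_mul] at h2 ⊢
  exact h2.symm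

/-- A supplement of a minimal abelian normal subgroup is everything or a complement. -/
lemma supp {V S : Subgroup G} [hV : V.Normal] (hc : ∀ a ∈ V, ∀ b ∈ V, a * b = b * a)
    (hm : ∀ N : Subgroup G, N.Normal → N ≤ V → N = ⊥ ∨ N = V)
    (hS : ∀ g : G, ∃ s ∈ S, ∃ v ∈ V, g = v * s) : S = ⊤ ∨ S ⊓ V = ⊥ := by
  have hn : (S ⊓ V).Normal := ⟨fun a ha g => by
    obtain ⟨s, hs, v, hv, rfl⟩ := hS g
    have h1 : s * a * s⁻¹ ∈ V := hV.conj_mem a ha.2 s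
    have h2 : v * s * a * (v * s)⁻¹ = s * a * s⁻¹ := by
      calc _ = v * (s * a * s⁻¹) * v⁻¹ := by group
        _ = _ := by rw [hc v hv _ h1]; group
    rw [h2]
    exact Subgroup.mem_inf.2 ⟨S.mul_mem (S.mul_mem hs ha.1) (S.inv_mem hs), h1⟩⟩
  rcases hm _ hn inf_le_right with h | h
  · exact Or.inr h
  · refine Or.inl (eq_top_iff.2 fun g _ => ?_)
    obtain ⟨s, hs, v, hv, rfl⟩ := hS g
    exact S.mul_mem (inf_eq_right.1 h hv) hs

/-- Two conjugates of a proper supplement generate the group. -/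
lemma gen {V T P : Subgroup G} [hV : V.Normal] (hc : ∀ a ∈ V, ∀ b ∈ V, a * b = b * a)
    (hm : ∀ N : Subgroup G, N.Normal → N ≤ V → N = ⊥ ∨ N = V)
    (hT : ∀ g : G, ∃ s ∈ T, ∃ v ∈ V, g = v * s) (hP : P ≤ T)
    (hg : Subgroup.normalClosure (P : Set G) = ⊤) {v : G} (hv : v ∈ V) (hv1 : v ≠ 1)
    {S : Subgroup G} (h1 : T ≤ S) (h2 : ∀ g ∈ T, v * g * v⁻¹ ∈ S) : S = ⊤ := by
  rcases supp hc hm (S := S) (fun g => by
    obtain ⟨s, hs, h⟩ := hT g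
    exact ⟨s, h1 hs, h⟩) with h | h
  · exact h
  have h3 : ∀ g ∈ T, g * v = v * g := fun g hg => by
    have h4 : v * g * v⁻¹ * g⁻¹ ∈ S ⊓ V := Subgroup.mem_inf.2 ⟨S.mul_mem (h2 g hg)
      (S.inv_mem (h1 hg)), by
      rw [show v * g * v⁻¹ * g⁻¹ = v * (g * v⁻¹ * g⁻¹) by group]
      exact mul_mem hv (hV.conj_mem _ (inv_mem hv) g)⟩
    rw [h, Subgroup.mem_bot, mul_inv_eq_one, mul_inv_eq_iff_eq_mul] at h4
    exact h4.symm
  have h4 : v ∈ Subgroup.center G := Subgroup.mem_center_iff.2 fun g => by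
    obtain ⟨s, hs, w, hw, rfl⟩ := hT g
    rw [mul_assoc, h3 s hs, ← mul_assoc, hc w hw v hv, mul_assoc]
  have h5 : V ≤ Subgroup.center G := by
    rcases hm (V ⊓ Subgroup.center G) inferInstance inf_le_left with h' | h'
    · exact absurd (Subgroup.mem_bot.1 (h' ▸ ⟨hv, h4⟩ : v ∈ (⊥ : Subgroup G))) hv1
    · exact inf_eq_left.1 h'
  have h6 : T.Normal := ⟨fun a ha g => by
    obtain ⟨s, hs, w, hw, rfl⟩ := hT g
    have h7 : w * s * a * (w * s)⁻¹ = s * a * s⁻¹ := by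
      calc _ = w * (s * a * s⁻¹) * w⁻¹ := by group
        _ = _ := by rw [← Subgroup.mem_center_iff.1 (h5 hw)]; group
    rw [h7]
    exact mul_mem (mul_mem hs ha) (inv_mem hs)⟩
  rw [eq_top_iff, ← hg]
  exact (Subgroup.normalClosure_le_normal hP).trans h1

lemma cycP_sub {p : ℕ} {H P : Subgroup G} (h : CycP p H P) : CycP p ⊤ (P.subgroupOf H) := by
  obtain ⟨-, h2, h3, c, hc, h4⟩ := h
  refine ⟨le_top, h2.comap_subtype, fun g _ a ha => h3 g g.2 a ha, ⟨c, hc⟩, trivial,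
    fun g _ => ?_⟩
  obtain ⟨i, hi⟩ := h4 g g.2
  exact ⟨i, hi⟩

variable {k Ω : Type} [Field k] [IsAlgClosed k] [Field Ω] [IsAlgClosed Ω] [Algebra k Ω]

/-- A local lift with image `H`. -/
lemma loc (hP : StmtLocP) (p : ℕ) [Fact p.Prime] [CharP k p] [Finite G] {G' : Type} [Group G']
    (π : G →* G') {H P : Subgroup G} (hC : CycP p H P) (hp : ∀ a ∈ π.ker, a ^ p = 1) {x : Ω}
    (hx : Co k x) {W : ValuationSubring Ω} (hW : IsPl k W) (hxW : x ∉ W) {ρ' : Aut k Ω → G'}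
    (hρ : IsRep (Dec k x W) ρ')
    (him : ρ' '' (Dec k x W : Set (Aut k Ω)) = (H.map π : Set G')) :
    ∃ ρ : Aut k Ω → G, IsRep (Dec k x W) ρ ∧ (∀ γ ∈ Dec k x W, π (ρ γ) = ρ' γ) ∧
      ρ '' (Dec k x W : Set (Aut k Ω)) = (H : Set G) := by
  classical
  let f : G' → H.map π := fun g => if h : g ∈ H.map π then ⟨g, h⟩ else 1
  have hm : ∀ γ ∈ Dec k x W, ρ' γ ∈ H.map π := fun γ hγ => by
    change ρ' γ ∈ (H.map π : Set G')
    rw [← him]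
    exact ⟨γ, hγ, rfl⟩
  have hf : ∀ γ ∈ Dec k x W, (f (ρ' γ) : G') = ρ' γ := fun γ hγ => by
    simp only [f, dif_pos (hm γ hγ)]
  have h1 : IsRep (Dec k x W) fun γ => f (ρ' γ) :=
    ⟨fun γ hγ δ hδ => Subtype.ext (by
      rw [Subgroup.coe_mul, hf _ (mul_mem hγ hδ), hf _ hγ, hf _ hδ, hρ.mul _ hγ _ hδ]),
      hρ.cts.comp f⟩
  obtain ⟨ρ, h2, h3, h4⟩ := hP p k Ω x hx W hW hxW H (H.map π) (π.subgroupMap H)
    (π.subgroupMap_surjective H) (fun a => ⟨1, Subtype.ext (Subtype.ext (by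
      have h5 : (a.1 : G) ∈ π.ker := congrArg Subtype.val (MonoidHom.mem_ker.1 a.2)
      simpa using hp _ h5))⟩) _ (cycP_sub hC) _ h1 (fun g => by
        obtain ⟨γ, hγ, e⟩ : (g : G') ∈ ρ' '' (Dec k x W : Set (Aut k Ω)) := him ▸ g.2
        exact ⟨γ, hγ, Subtype.ext ((hf γ hγ).trans e)⟩)
  refine ⟨fun γ => ρ γ, h2.comp H.subtype, fun γ hγ => ?_, ?_⟩
  · rw [← hf γ hγ]
    exact congrArg Subtype.val (h3 γ hγ)
  · ext g
    constructor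
    · rintro ⟨γ, -, rfl⟩
      exact (ρ γ).2
    · intro hg
      obtain ⟨γ, hγ, e⟩ := h4 ⟨g, hg⟩
      exact ⟨γ, hγ, congrArg Subtype.val e⟩

end StepP

theorem blockStepP (hF : Found) (hA : StmtASW) (hM : StmtASM) (hP : StmtLocP) (hL : StmtPL) :
    StmtStepP := by
  intro p _ k Ω _ _ _ _ _ _ G G' _ _ _ π hπ H P hC hg hc hp hm ⟨x, hx, ρ', hρ', hon, hu, W, hW,
    hxW, him⟩
  have : Finite G' := Finite.of_surjective π hπ
  obtain ⟨ρi, hi1, hi2, hi3⟩ := StepP.loc hP p π hC hp hx hW hxW (hρ'.mono (Dec_le _ _)) him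
  obtain ⟨t, ht1, ht2, ht3⟩ := hF.cert.trInt p k Ω x hx G' ρ' hρ' hu
  obtain ⟨ρ₀, h01, h02, h03⟩ := hA p k Ω x hx _ le_rfl G G' π hπ hc hp ρ' hρ' t ht2 ht3
  have h04 : Unr x ρ₀ := fun W' hW' hxW' γ hγ =>
    h03 W' hW' (fun g => ht1 g W' hW' hxW') γ hγ.1 hγ.2 (hu W' hW' hxW' γ hγ)
  obtain ⟨ρ, h1, h2, h3, h4⟩ := hM p k Ω x hx G π.ker hc hp ρ₀ h01 h04 W hW hxW ρi hi1
    fun γ hγ => by
      rw [MonoidHom.mem_ker, map_mul, map_inv, hi2 γ hγ, h02 γ (Dec_le _ _ hγ), mul_inv_cancel]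
  have h5 : ρ '' (Dec k x W : Set (Aut k Ω)) = (H : Set G) := by
    rw [← hi3]
    exact Set.image_congr h4
  have h6 : ∀ g : G, ∃ s ∈ h1.im, ∃ v ∈ π.ker, g = v * s := fun g => by
    obtain ⟨γ, hγ, e⟩ := hon (π g)
    refine ⟨ρ γ, h1.mem_im.2 ⟨γ, hγ, rfl⟩, g * (ρ γ)⁻¹, ?_, by group⟩
    have h7 := h3 γ hγ
    rw [MonoidHom.mem_ker, map_mul, map_inv, h02 γ hγ, mul_inv_eq_one] at h7
    rw [MonoidHom.mem_ker, map_mul, map_inv, h7, e, mul_inv_cancel]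
  refine ⟨x, hx, ?_⟩
  by_cases hV : π.ker = ⊥
  · refine ⟨ρ, h1, fun g => ?_, h2, W, hW, hxW, h5⟩
    obtain ⟨s, hs, v, hv, rfl⟩ := h6 g
    rw [hV, Subgroup.mem_bot] at hv
    rw [hv, one_mul]
    exact h1.mem_im.1 hs
  obtain ⟨M, hM, ⟨j, hj⟩, -⟩ := exists_pprime G p
  have hM0 : M ≠ 0 := fun h => hM (h ▸ dvd_zero p)
  obtain ⟨z, hz⟩ := IsAlgClosed.exists_pow_nat_eq x (Nat.pos_of_ne_zero hM0)
  have hzx := Gam_le_of_pow (k := k) hz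
  have hd := Dec_le_of_pow (k := k) hz W
  have hQ : IsRep (Dec k z W) ρ := h1.mono (hd.trans (Dec_le _ _))
  have hQp : IsPGroup p hQ.im := fun g => by
    obtain ⟨γ, hγ, e⟩ := hQ.mem_im.1 g.2
    obtain ⟨i, hi⟩ := hF.tame2 p k Ω k⟮x⟯ hx.ff W hW x⁻¹ (hF.bas.unifInf k Ω x hx.tr W hW hxW) G ρ
      (by rw [DecF_adjoin]; exact h1.mono (Dec_le _ _)) M hM (fun γ _ => ⟨j, hj _⟩) z⁻¹
      (by rw [inv_pow, hz]) γ (by rw [DecF_adjoin]; exact hd hγ)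
      (by rw [map_inv₀, mem_Gam.1 (Dec_le _ _ hγ)])
    exact ⟨i, Subtype.ext (by rw [Subgroup.coe_pow, ← e, hi]; rfl)⟩
  obtain ⟨v, hv, hv1, hv2⟩ := StepP.exists_fixed π.ker hQ.im hp hV hQp
  refine pl_one hL p hx hM hz (quasi_p hC.2.1 hg) ((h1.mono hzx).conj v) ?_ h1 h2 ?_ hW hxW ?_ h5
  · intro W' hW' hzW' γ hγ
    beta_reduce
    rw [h2 W' hW' (hz ▸ pow_mem hzW' M) γ (Dec_le_of_pow hz W' hγ)]
    group
  · refine StepP.gen hc hm h6 (P := P) ?_ hg hv hv1 ?_ ?_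
    · intro a ha
      obtain ⟨γ, hγ, e⟩ : a ∈ ρ '' (Dec k x W : Set (Aut k Ω)) := h5 ▸ hC.1 ha
      exact h1.mem_im.2 ⟨γ, Dec_le _ _ hγ, e⟩
    · intro g hg'
      exact Subgroup.subset_closure (Or.inr (h1.mem_im.1 hg'))
    · intro g hg'
      obtain ⟨γ, hγ, rfl⟩ := h1.mem_im.1 hg'
      obtain ⟨δ, hδ, e⟩ := im_pow hF p hx hM hz h1 h2 hγ
      exact Subgroup.subset_closure (Or.inl ⟨δ, hδ, by rw [← e]⟩)
  · exact fun γ hγ => hv2 _ (hQ.mem_im.2 ⟨γ, hγ, rfl⟩)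

end Pool.Agent.Lib.IW
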