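import Pool.Agent.Lib.IW.Util

/-! Block Str: a representation is given by a permuted family of separable integral elements. -/

open Polynomial IntermediateField
open scoped Pointwise

namespace Pool.Agent.Lib.IW

namespace Str

variable {k Ω : Type} [Field k] [Field Ω] [Algebra k Ω]

open scoped IntermediateField.algebraAdjoinAdjoin in
lemma exists_theta (hB : StmtBas) (hG : StmtGal) (p : ℕ) [Fact p.Prime] [CharP k p]
    [IsAlgClosed Ω] {x : Ω} (hx : Co k x) (S : Finset Ω) :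
    ∃ θ : Ω, IsSeparable k⟮x⟯ θ ∧ Intg k x θ ∧
      ∀ γ ∈ Gam k x, γ θ = θ → ∀ s ∈ S, γ s = s := by
  obtain ⟨L, h1, h2, h3⟩ := hG.closure p k Ω k⟮x⟯ hx.alg S
  obtain ⟨α, hα⟩ := Field.exists_primitive_element k⟮x⟯ L
  have ha : IsAlgebraic (Algebra.adjoin k {x}) (α : Ω) :=
    (IsFractionRing.isAlgebraic_iff (Algebra.adjoin k {x}) k⟮x⟯ Ω).2 (hx.alg _)
  obtain ⟨b, hb0, hb⟩ := ha.exists_integral_multiple
  have hbF : (b : Ω) ∈ k⟮x⟯ := IntermediateField.algebra_adjoin_le_adjoin k _ b.2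
  have hbΩ : (b : Ω) ≠ 0 := fun h => hb0 (Subtype.ext h)
  have he : b • (α : Ω) = (b : Ω) * α := rfl
  refine ⟨b • (α : Ω), ?_, (hB.intg k Ω x _).2 hb, fun γ hγ h s hs => ?_⟩
  · refine IntermediateField.isSeparable_of_mem_isSeparable k⟮x⟯ Ω (L := L) ?_
    rw [he]
    exact L.mul_mem (L.algebraMap_mem ⟨b, hbF⟩) α.2
  · have hF : ∀ y ∈ k⟮x⟯, γ y = y :=
      (IntermediateField.mem_fixingSubgroup_iff _ γ).1 (by rwa [fix_adjoin])
    rw [he, map_mul, hF _ hbF] at h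
    have hαγ : γ α = α := mul_left_cancel₀ hbΩ h
    have hL : ∀ y : L, γ y = y := fun y => by
      have hy : y ∈ (k⟮x⟯)⟮α⟯ := by rw [hα]; trivial
      induction hy using IntermediateField.adjoin_induction with
      | mem y hy => rw [Set.mem_singleton_iff.1 hy, hαγ]
      | algebraMap c => exact hF _ c.2
      | add a b _ _ ha hb => rw [IntermediateField.coe_add, map_add, ha, hb]
      | inv a _ ha => rw [IntermediateField.coe_inv, map_inv₀, ha]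
      | mul a b _ _ ha hb => rw [IntermediateField.coe_mul, map_mul, ha, hb]
    obtain ⟨N, hN⟩ := h3 s hs
    have : CharP Ω p := charP_of_injective_algebraMap (algebraMap k Ω).injective p
    have e : γ s ^ p ^ N = s ^ p ^ N := by rw [← map_pow]; exact hL ⟨_, hN⟩
    exact (iterateFrobenius Ω p N).injective e

lemma exists_eval {G : Type} [Finite G] [Infinite k] (Q : G → Polynomial Ω)
    (hQ : Function.Injective Q) :
    ∃ t : k, Function.Injective fun h => (Q h).eval (algebraMap k Ω t) := by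
  have hfin : (⋃ q : {q : G × G // q.1 ≠ q.2}, {z : Ω | (Q q.1.1 - Q q.1.2).IsRoot z}).Finite :=
    Set.finite_iUnion fun q => finite_setOfPred_isRoot (sub_ne_zero.2 fun e => q.2 (hQ e))
  obtain ⟨t, ht⟩ := (hfin.preimage (algebraMap k Ω).injective.injOn).exists_notMem
  refine ⟨t, fun a b e => ?_⟩
  by_contra hne
  refine ht (Set.mem_iUnion.2 ⟨⟨(a, b), hne⟩, ?_⟩)
  simp only [Set.mem_ofPred_eq, IsRoot.def, eval_sub]
  exact sub_eq_zero.2 e

end Str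

open Str in
theorem blockStr (hB : StmtBas) (hG : StmtGal) : StmtStr := by
  intro p _ k Ω _ _ _ _ _ _ x hx Δ hΔ G _ _ ρ hρ
  classical
  obtain ⟨S, hS⟩ := hρ.cts
  obtain ⟨θ, t1, t2, t3⟩ := exists_theta hB hG p hx S
  have key : ∀ γ ∈ Δ, ∀ δ ∈ Δ, γ θ = δ θ → ρ γ = ρ δ := fun γ hγ δ hδ e => by
    refine hS γ hγ δ hδ fun s hs => ?_
    have := t3 (δ⁻¹ * γ) (hΔ (Δ.mul_mem (Δ.inv_mem hδ) hγ)) (by
      rw [AlgEquiv.mul_apply, e]; exact δ.symm_apply_apply θ) s hs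
    rw [AlgEquiv.mul_apply] at this
    exact (δ.symm_apply_eq.1 this)
  let σ : Δ → (Ω ≃ₐ[k⟮x⟯] Ω) := fun γ =>
    IntermediateField.fixingSubgroupEquiv k⟮x⟯ ⟨γ.1, by rw [fix_adjoin]; exact hΔ γ.2⟩
  have hσ : ∀ γ y, σ γ y = γ.1 y := fun _ _ => rfl
  have hfin : ∀ g : G, {a : Ω | ∃ γ ∈ Δ, ρ γ = g ∧ γ θ = a}.Finite := fun g => by
    refine ((minpoly k⟮x⟯ θ).rootSet_finite Ω).subset ?_
    rintro _ ⟨γ, hγ, -, rfl⟩
    rw [mem_rootSet_of_ne (minpoly.ne_zero (hx.alg θ).isIntegral), ← hσ ⟨γ, hγ⟩,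
      aeval_algHom_apply (σ ⟨γ, hγ⟩), minpoly.aeval, map_zero]
  let A : G → Finset Ω := fun g => (hfin g).toFinset
  have hA : ∀ g a, a ∈ A g ↔ ∃ γ ∈ Δ, ρ γ = g ∧ γ θ = a := fun g a => (hfin g).mem_toFinset
  have hAγ : ∀ γ ∈ Δ, ∀ g, A (ρ γ * g) = (A g).image γ := fun γ hγ g => by
    ext a
    rw [hA, Finset.mem_image]
    constructor
    · rintro ⟨δ, hδ, e, rfl⟩
      refine ⟨(γ⁻¹ * δ) θ, (hA _ _).2 ⟨_, Δ.mul_mem (Δ.inv_mem hγ) hδ, ?_, rfl⟩, ?_⟩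
      · rw [hρ.mul _ (Δ.inv_mem hγ) _ hδ, hρ.inv hγ, e, inv_mul_cancel_left]
      · rw [← AlgEquiv.mul_apply, mul_inv_cancel_left]
    · rintro ⟨b, hb, rfl⟩
      obtain ⟨δ, hδ, e, rfl⟩ := (hA _ _).1 hb
      exact ⟨γ * δ, Δ.mul_mem hγ hδ, by rw [hρ.mul _ hγ _ hδ, e], rfl⟩
  let c : G → G := fun h => (Quotient.mk (QuotientGroup.rightRel hρ.im) h).out
  have c1 : ∀ h, h * (c h)⁻¹ ∈ hρ.im := fun h =>
    QuotientGroup.rightRel_apply.1 (Quotient.mk_out (s := QuotientGroup.rightRel hρ.im) h)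
  have c2 : ∀ γ ∈ Δ, ∀ h, c (ρ γ * h) = c h := fun γ hγ h => by
    refine congrArg Quotient.out (Quotient.sound (s := QuotientGroup.rightRel hρ.im) ?_)
    refine QuotientGroup.rightRel_apply.2 ?_
    rw [mul_inv_rev, mul_inv_cancel_left]
    exact hρ.im.inv_mem (hρ.mem_im.2 ⟨γ, hγ, rfl⟩)
  obtain ⟨idx, hidx⟩ := Countable.exists_injective_nat G
  let Q : G → Polynomial Ω := fun h => (∏ a ∈ A (h * (c h)⁻¹), (X - C a)) ^ (idx (c h) + 1)
  have hr : ∀ h a, (Q h).roots.count a = if a ∈ A (h * (c h)⁻¹) then idx (c h) + 1 else 0 :=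
    fun h a => by
      simp only [Q]
      rw [roots_pow, roots_prod_X_sub_C, Multiset.count_nsmul]
      split_ifs with e
      · rw [Multiset.count_eq_one_of_mem (Finset.nodup _) e, mul_one]
      · rw [Multiset.count_eq_zero_of_notMem e, mul_zero]
  have hQ : Function.Injective Q := fun h h' e => by
    obtain ⟨γ, hγ, e1⟩ := hρ.mem_im.1 (c1 h)
    have m1 : γ θ ∈ A (h * (c h)⁻¹) := (hA _ _).2 ⟨γ, hγ, e1, rfl⟩
    have e2 := hr h (γ θ)
    rw [if_pos m1, e, hr] at e2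
    split_ifs at e2 with m2
    · obtain ⟨δ, hδ, e3, e4⟩ := (hA _ _).1 m2
      have e5 : c h' = c h := hidx (by omega)
      have e6 := key δ hδ γ hγ e4
      rw [e3, e1, e5] at e6
      exact (mul_right_cancel e6).symm
  obtain ⟨t, ht⟩ := exists_eval (k := k) Q hQ
  have hev : ∀ h, (Q h).eval (algebraMap k Ω t) =
      (∏ a ∈ A (h * (c h)⁻¹), (algebraMap k Ω t - a)) ^ (idx (c h) + 1) := fun h => by
    simp only [Q, eval_pow, eval_prod, eval_sub, eval_X, eval_C]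
  refine ⟨_, ht, fun h => ⟨?_, fun W hW hxW => ?_⟩, fun γ hγ h => ?_⟩
  · rw [hev, ← mem_separableClosure_iff]
    refine pow_mem (prod_mem fun a ha => sub_mem ?_ ?_) _
    · exact (separableClosure k⟮x⟯ Ω).algebraMap_mem (algebraMap k k⟮x⟯ t)
    · obtain ⟨δ, hδ, -, rfl⟩ := (hA _ _).1 ha
      rw [mem_separableClosure_iff, ← hσ ⟨δ, hδ⟩]
      exact t1.map (σ ⟨δ, hδ⟩).toAlgHom (σ ⟨δ, hδ⟩).injective
  · rw [hev]
    refine pow_mem (prod_mem fun a ha => sub_mem (hW.2 t) ?_) _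
    obtain ⟨δ, hδ, -, rfl⟩ := (hA _ _).1 ha
    obtain ⟨s1, s2, -⟩ := hB.smulPl k Ω W hW δ⁻¹
    have hx' : δ⁻¹ x = x := hΔ (Δ.inv_mem hδ)
    have := t2 _ s1 (hx' ▸ (s2 x).2 hxW)
    rw [← s2, ← AlgEquiv.mul_apply, inv_mul_cancel]
    exact this
  · simp only [hev]
    rw [c2 γ hγ, mul_assoc, hAγ γ hγ, Finset.prod_image fun a _ b _ e => γ.injective e, map_pow,
      map_prod]
    simp only [map_sub, AlgEquiv.commutes]

end Pool.Agent.Lib.IW
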