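import Pool.Agent.Lib.IW.Util

/-! The tame character is onto. -/

open Polynomial IntermediateField
open scoped Pointwise

namespace Pool.Agent.Lib.IW

namespace Tame1

variable {k Ω : Type} [Field k] [Field Ω] [Algebra k Ω]

/-- The terms of a polynomial of small degree in a root of a uniformiser have distinct values. -/
lemma val_aeval {F : IntermediateField k Ω} {W : ValuationSubring Ω} {r : Ω} {n : ℕ}
    (hr0 : r ≠ 0) (hr1 : W.valuation r < 1)
    (hval : ∀ y ∈ F, y ≠ 0 → ∃ i : ℤ, W.valuation y = W.valuation (r ^ n) ^ i)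
    {q : F[X]} (hq : q ≠ 0) (hd : q.natDegree < n) :
    ∃ g, g ≠ 0 ∧ ∀ s : Ω, W.valuation s = W.valuation r → W.valuation (aeval s q) = g := by
  classical
  have h0 : 0 < W.valuation r := zero_lt_iff.2 ((_root_.map_ne_zero _).2 hr0)
  obtain ⟨j, hj, hmax⟩ := q.support.exists_max_image
    (fun i => W.valuation (q.coeff i : Ω) * W.valuation r ^ i) (nonempty_support_iff.2 hq)
  have hc : ∀ i ∈ q.support, (q.coeff i : Ω) ≠ 0 := fun i hi h =>
    mem_support_iff.1 hi (Subtype.ext h)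
  have hterm : ∀ i ∈ q.support, ∃ m : ℤ,
      W.valuation (q.coeff i : Ω) * W.valuation r ^ i = W.valuation r ^ (n * m + i) := by
    intro i hi
    obtain ⟨m, hm⟩ := hval _ (q.coeff i).2 (hc i hi)
    exact ⟨m, by rw [hm, map_pow, zpow_add₀ h0.ne', zpow_mul, zpow_natCast, zpow_natCast]⟩
  refine ⟨W.valuation (q.coeff j : Ω) * W.valuation r ^ j,
    mul_ne_zero ((_root_.map_ne_zero _).2 (hc j hj)) (pow_ne_zero _ h0.ne'), fun s hs => ?_⟩
  have hv : ∀ i, W.valuation (algebraMap F Ω (q.coeff i) * s ^ i) =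
      W.valuation (q.coeff i : Ω) * W.valuation r ^ i := fun i => by
    rw [map_mul, map_pow, hs]; rfl
  rw [aeval_def, eval₂_eq_sum, Polynomial.sum, ← hv j]
  refine Valuation.map_sum_eq_of_lt _ hj fun i hi => ?_
  rw [Finset.mem_sdiff, Finset.mem_singleton] at hi
  rw [hv, hv]
  refine lt_of_le_of_ne (hmax i hi.1) fun h => hi.2 ?_
  obtain ⟨m, hm⟩ := hterm i hi.1
  obtain ⟨m', hm'⟩ := hterm j hj
  rw [hm, hm'] at h
  have h1 : n * m + i = n * m' + j := zpow_right_injective₀ h0 hr1.ne h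
  have hi1 : i < n := (le_natDegree_of_mem_supp i hi.1).trans_lt hd
  have hj1 : j < n := (le_natDegree_of_mem_supp j hj).trans_lt hd
  have h2 : m = m' := by
    by_contra hne
    rcases lt_or_gt_of_ne hne with h3 | h3
    · have : (n : ℤ) * (m + 1) ≤ n * m' := mul_le_mul_of_nonneg_left h3 (by positivity)
      linarith [(Nat.cast_lt (α := ℤ)).2 hi1, (Nat.cast_nonneg j : (0 : ℤ) ≤ j)]
    · have : (n : ℤ) * (m' + 1) ≤ n * m := mul_le_mul_of_nonneg_left h3 (by positivity)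
      linarith [(Nat.cast_lt (α := ℤ)).2 hj1, (Nat.cast_nonneg i : (0 : ℤ) ≤ i)]
  subst h2
  exact_mod_cast add_left_cancel h1

lemma alg_of_co {F : IntermediateField k Ω} {x : Ω} (hx : x ∈ F) (h : Co k x) (y : Ω) :
    IsAlgebraic F y := by
  have hle : (k⟮x⟯).toSubalgebra ≤ F.toSubalgebra := adjoin_simple_le_iff.2 hx
  exact IsAlgebraic.tower_top_of_subalgebra_le hle (h.alg y)

lemma map_aeval {F : IntermediateField k Ω} {γ : Aut k Ω} (hγ : γ ∈ F.fixingSubgroup) (r : Ω)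
    (q : F[X]) : γ (aeval r q) = aeval (γ r) q := by
  let g : Ω →ₐ[F] Ω :=
    { (γ : Ω →+* Ω) with
      commutes' := fun c => (IntermediateField.mem_fixingSubgroup_iff F γ).1 hγ c c.2 }
  exact (aeval_algHom_apply g r q).symm

end Tame1

open Tame1 in
theorem blockTame1 (hC : StmtConj) (_hB : StmtBas) (hG : StmtGal) (hU : StmtUnif) :
    StmtTame1 := by
  intro p _ k Ω _ _ _ _ _ _ F hF W hW π hπ n hn r ζ hr hζ
  have hn0 : n ≠ 0 := fun h => hn (h ▸ dvd_zero p)
  have hr0 : r ≠ 0 := fun h => hπ.2.1 (by rw [← hr, h, zero_pow hn0])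
  have hr1 : W.valuation r < 1 := by
    by_contra h
    have h1 := one_le_pow_of_one_le' (not_lt.1 h) n
    rw [← map_pow, hr] at h1
    exact absurd hπ.2.2.1 (not_lt.2 h1)
  have hζ1 : W.valuation ζ = 1 := by
    have h1 : W.valuation ζ ^ n = 1 := by rw [← map_pow, hζ, map_one]
    exact (pow_eq_one_iff_of_nonneg zero_le hn0).1 h1
  have hval : ∀ y ∈ F, y ≠ 0 → ∃ i : ℤ, W.valuation y = W.valuation (r ^ n) ^ i := by
    rw [hr]; exact hU.val k Ω F hF W hW π hπ
  obtain ⟨-, x, hxF, hx⟩ := hF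
  have halg := alg_of_co hxF hx
  have hint : IsIntegral F r := (halg r).isIntegral
  have hmon : (X ^ n - C (⟨π, hπ.1⟩ : F)).Monic := monic_X_pow_sub_C _ hn0
  have hroot : ∀ s : Ω, s ^ n = π → aeval s (X ^ n - C (⟨π, hπ.1⟩ : F)) = 0 := fun s hs => by
    rw [map_sub, map_pow, aeval_X, aeval_C, hs]; exact sub_self π
  have hdeg : n ≤ (minpoly F r).natDegree := by
    by_contra h
    obtain ⟨g, hg0, hg⟩ := val_aeval hr0 hr1 hval (minpoly.ne_zero hint) (not_le.1 h)
    have := hg r rfl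
    rw [minpoly.aeval, map_zero] at this
    exact hg0 this.symm
  have hmin : X ^ n - C (⟨π, hπ.1⟩ : F) = minpoly F r :=
    eq_of_monic_of_dvd_of_natDegree_le (minpoly.monic hint) hmon (minpoly.dvd F r (hroot r hr))
      (by rw [natDegree_X_pow_sub_C]; exact hdeg)
  obtain ⟨γ, hγ, hγr⟩ := hG.conjRoot k Ω F halg r (ζ * r)
    (by rw [← hmin]; exact hroot _ (by rw [mul_pow, hζ, hr, one_mul]))
  let E : IntermediateField k Ω := (F⟮r⟯).restrictScalars k
  have hFE : F ≤ E := fun y hy => (F⟮r⟯).algebraMap_mem ⟨y, hy⟩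
  have hrE : r ∈ E := mem_adjoin_simple_self F r
  have hagr : Agr E W (γ⁻¹ • W) := by
    intro y hy
    have hy' : y ∈ (F⟮r⟯).toSubalgebra := hy
    rw [adjoin_simple_toSubalgebra_of_isAlgebraic (halg r), Algebra.adjoin_singleton_eq_range_aeval]
      at hy'
    obtain ⟨q, rfl⟩ := hy'
    have hq : aeval r q = aeval r (q %ₘ minpoly F r) :=
      (aeval_modByMonic_eq_self_of_root (minpoly.aeval F r)).symm
    have hne : minpoly F r ≠ 1 := minpoly.ne_one F r
    have hlt : (q %ₘ minpoly F r).natDegree < n := by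
      have := natDegree_modByMonic_lt q (minpoly.monic hint) hne
      rwa [← hmin, natDegree_X_pow_sub_C, hmin] at this
    change aeval r q ∈ W ↔ aeval r q ∈ γ⁻¹ • W
    rw [ValuationSubring.mem_inv_pointwise_smul_iff, hq]
    generalize q %ₘ minpoly F r = q' at hlt
    change _ ↔ γ (aeval r q') ∈ W
    rw [map_aeval hγ, hγr]
    by_cases h0 : q' = 0
    · simp [h0]
    · obtain ⟨g, -, hg⟩ := val_aeval hr0 hr1 hval h0 hlt
      rw [← W.valuation_le_one_iff, ← W.valuation_le_one_iff, hg r rfl,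
        hg (ζ * r) (by rw [map_mul, hζ1, one_mul])]
  obtain ⟨δ, hδ, hδW⟩ := hC k Ω E (alg_of_co (hFE hxF) hx) W _ hagr
  have hδ' := (IntermediateField.mem_fixingSubgroup_iff E δ).1 hδ
  refine ⟨γ * δ, mem_DecF.2 ⟨fun y hy => ?_, ?_⟩, ?_⟩
  · rw [AlgEquiv.mul_apply, hδ' y (hFE hy),
      (IntermediateField.mem_fixingSubgroup_iff F γ).1 hγ y hy]
  · rw [mul_smul, hδW, smul_inv_smul]
  · rw [AlgEquiv.mul_apply, hδ' r hrE, hγr]

end Pool.Agent.Lib.IW
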