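import Pool.Agent.Lib.IW.Util

/-! The kernel of the tame character maps to `p`-elements. -/

open Polynomial IntermediateField
open scoped Pointwise

namespace Pool.Agent.Lib.IW

namespace Tame2

variable {k Ω : Type} [Field k] [Field Ω] [Algebra k Ω] {W : ValuationSubring Ω}

variable (W) in
/-- congruence to a constant -/
def Cg (y : Ω) (c : k) : Prop := W.valuation (y - algebraMap k Ω c) < 1

lemma Cg.const (c : k) : Cg W (algebraMap k Ω c) c := by simp [Cg]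

lemma Cg.one : Cg W 1 (1 : k) := by simp [Cg]

lemma Cg.mem (hW : IsPl k W) {y : Ω} {c : k} (h : Cg W y c) : y ∈ W := by
  rw [← sub_add_cancel y (algebraMap k Ω c)]
  exact add_mem ((W.valuation_le_one_iff _).1 (le_of_lt h)) (hW.2 c)

lemma Cg.add {y y' : Ω} {c c' : k} (h : Cg W y c) (h' : Cg W y' c') : Cg W (y + y') (c + c') := by
  rw [Cg, map_add, add_sub_add_comm]
  exact Valuation.map_add_lt _ h h'

lemma Cg.mul (hW : IsPl k W) {y y' : Ω} {c c' : k} (h : Cg W y c) (h' : Cg W y' c') :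
    Cg W (y * y') (c * c') := by
  rw [Cg, map_mul, show y * y' - algebraMap k Ω c * algebraMap k Ω c' =
    (y - algebraMap k Ω c) * y' + (y' - algebraMap k Ω c') * algebraMap k Ω c by ring]
  refine Valuation.map_add_lt _ ?_ ?_ <;> rw [map_mul]
  · exact mul_lt_one_of_lt_of_le h ((W.valuation_le_one_iff _).2 (h'.mem hW))
  · exact mul_lt_one_of_lt_of_le h' ((W.valuation_le_one_iff _).2 (hW.2 c))

lemma Cg.pow (hW : IsPl k W) {y : Ω} {c : k} (h : Cg W y c) (n : ℕ) : Cg W (y ^ n) (c ^ n) := by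
  induction n with
  | zero => simpa using Cg.one
  | succ n ih => rw [pow_succ, pow_succ]; exact ih.mul hW h

lemma val_const (hW : IsPl k W) {c : k} (hc : c ≠ 0) : W.valuation (algebraMap k Ω c) = 1 := by
  have h1 := (W.valuation_le_one_iff _).2 (hW.2 c)
  have h2 := (W.valuation_le_one_iff _).2 (hW.2 c⁻¹)
  rw [map_inv₀, map_inv₀, inv_le_one₀ (zero_lt_iff.2 ((Valuation.ne_zero_iff _).2
    ((_root_.map_ne_zero _).2 hc)))] at h2
  exact le_antisymm h1 h2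

lemma Cg.val (hW : IsPl k W) {y : Ω} {c : k} (h : Cg W y c) (hc : c ≠ 0) : W.valuation y = 1 := by
  rw [← sub_add_cancel y (algebraMap k Ω c), Valuation.map_add_eq_of_lt_right _
    (by rw [val_const hW hc]; exact h), val_const hW hc]

lemma Cg.uniq (hW : IsPl k W) {y : Ω} {c c' : k} (h : Cg W y c) (h' : Cg W y c') : c = c' := by
  by_contra hne
  have h1 := Valuation.map_sub_lt _ h' h
  rw [sub_sub_sub_cancel_left, ← map_sub, val_const hW (sub_ne_zero.2 hne)] at h1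
  exact lt_irrefl _ h1

lemma exists_field (p : ℕ) [Fact p.Prime] [CharP k p] [IsAlgClosed Ω] (hG : StmtGal)
    {F : IntermediateField k Ω} (hF : FF F) (S : Finset Ω) :
    ∃ (E : IntermediateField k Ω) (M : ℕ), FF E ∧ M ≠ 0 ∧ (∀ s ∈ S, ∃ N : ℕ, s ^ p ^ N ∈ E) ∧
      ∀ γ ∈ F.fixingSubgroup, ∀ y ∈ E, γ y ∈ E ∧ (γ ^ M) y = y := by
  classical
  obtain ⟨⟨s, hs⟩, x, hx, hco⟩ := hF
  have halg : ∀ y : Ω, IsAlgebraic F y := fun y => by
    let := (IntermediateField.inclusion (adjoin_simple_le_iff.2 hx)).toAlgebra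
    have : IsScalarTower k⟮x⟯ F Ω := IsScalarTower.of_algebraMap_eq fun _ => rfl
    exact (hco.alg y).tower_top F
  obtain ⟨L, hfin, hgal, hS⟩ := hG.closure p k Ω F halg S
  obtain ⟨t, ht⟩ := essFiniteType_iff.1 (inferInstance : Algebra.EssFiniteType F L)
  refine ⟨L.restrictScalars k, Nat.card (L ≃ₐ[F] L), ⟨⟨s ∪ t, ?_⟩, x,
    L.algebraMap_mem ⟨x, hx⟩, hco⟩, Nat.card_pos.ne', hS, fun γ hγ y hy => ?_⟩
  · rw [← ht, restrictScalars_adjoin_eq_sup, Finset.coe_union, adjoin_union, hs]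
  · let f := (AlgEquiv.restrictNormalHom L).comp F.fixingSubgroupEquiv.toMonoidHom
    have h1 : ∀ δ : F.fixingSubgroup, (f δ ⟨y, hy⟩ : Ω) = (δ : Aut k Ω) y := fun δ =>
      AlgEquiv.restrictNormalHom_apply L _ _
    refine ⟨h1 ⟨γ, hγ⟩ ▸ (f ⟨γ, hγ⟩ ⟨y, hy⟩).2, ?_⟩
    have h2 := h1 (⟨γ, hγ⟩ ^ Nat.card (L ≃ₐ[F] L))
    rw [map_pow, pow_card_eq_one'] at h2
    exact h2.symm

end Tame2

open Tame2 in
theorem blockTame2 (_hC : StmtConj) (hB : StmtBas) (hG : StmtGal) (hU : StmtUnif)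
    (hD : StmtDens) (hT : StmtTame1) : StmtTame2 := by
  intro p hp k Ω _ _ _ _ _ _ F hF W hW π hπ G _ _ ρ hρ n hn hexp r hr γ hγ hγr
  classical
  have : CharP Ω p := charP_of_injective_algebraMap (algebraMap k Ω).injective p
  obtain ⟨S, hS⟩ := hρ.cts
  obtain ⟨E, M, hE, hM, hSE, hEE⟩ := exists_field p hG hF (insert r S)
  obtain ⟨x, -, hx⟩ := hF.2
  obtain ⟨ϖ, hϖ⟩ := hU.ex k Ω E hE W hW
  have hn0 : n ≠ 0 := by rintro rfl; exact hn (dvd_zero p)
  have hv0 : W.valuation ϖ ≠ 0 := (Valuation.ne_zero_iff _).2 hϖ.2.1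
  have hval : ∀ δ ∈ DecF F W, ∀ y, W.valuation (δ y) = W.valuation y := fun δ hδ =>
    hB.valFix k Ω x hx W hW δ (mem_DecF.1 hδ).2 π hπ.2.1 hπ.2.2.1 ((mem_DecF.1 hδ).1 π hπ.1)
  have hv1 : ∀ δ : DecF F W, W.valuation ((δ : Aut k Ω) ϖ / ϖ) = 1 := fun δ => by
    rw [map_div₀, hval δ δ.2, div_self hv0]
  choose c hc using fun δ : DecF F W => hB.resid k Ω x hx W hW _
    ((W.valuation_le_one_iff _).1 (hv1 δ).le)
  have hc : ∀ δ : DecF F W, Cg W ((δ : Aut k Ω) ϖ / ϖ) (c δ) := hc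
  let θ0 : DecF F W →* k :=
    { toFun := c
      map_one' := (hc 1).uniq hW (by simpa [div_self hϖ.2.1] using Cg.one)
      map_mul' := fun a b => (hc (a * b)).uniq hW (by
        have h1 : Cg W ((a : Aut k Ω) ((b : Aut k Ω) ϖ / ϖ)) (c b) := by
          rw [Cg, ← (a : Aut k Ω).commutes, ← map_sub, hval a a.2]
          exact hc b
        have h2 : (a : Aut k Ω) ϖ ≠ 0 := (_root_.map_ne_zero _).2 hϖ.2.1
        convert (hc a).mul hW h1 using 1
        rw [map_div₀, Subgroup.coe_mul, AlgEquiv.mul_apply]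
        field_simp) }
  let θ : DecF F W →* kˣ := θ0.toHomUnits
  have hθ : ∀ δ : DecF F W, Cg W ((δ : Aut k Ω) ϖ / ϖ) (θ δ : k) := hc
  have hone : ∀ δ : DecF F W, (δ : Aut k Ω) ϖ = ϖ → θ δ = 1 := fun δ h =>
    Units.ext ((hθ δ).uniq hW (by rw [h, div_self hϖ.2.1]; exact Cg.one))
  -- the wild part
  have wild : ∀ δ : DecF F W, θ δ = 1 → ∃ j : ℕ, ρ δ ^ p ^ j = 1 := fun δ hδ => by
    obtain ⟨j, m, hm, hMe⟩ := Nat.exists_eq_pow_mul_and_not_dvd hM p hp.out.ne_one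
    let ε : DecF F W := δ ^ p ^ j
    have hε : θ ε = 1 := by rw [map_pow, hδ, one_pow]
    let ϖ' : Ω := ∑ i ∈ Finset.range m, ((ε ^ i : DecF F W) : Aut k Ω) ϖ
    have h1 : ∀ l : ℕ, Cg W ((∑ i ∈ Finset.range l, ((ε ^ i : DecF F W) : Aut k Ω) ϖ) / ϖ)
        (l : k) := fun l => by
      induction l with
      | zero => simp [Cg]
      | succ l ih =>
        rw [Finset.sum_range_succ, add_div, Nat.cast_succ]
        have := hθ (ε ^ l)
        rw [map_pow, hε, one_pow] at this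
        exact ih.add this
    have h2 : W.valuation ϖ' = W.valuation ϖ := by
      have := (h1 m).val hW fun h => hm ((CharP.cast_eq_zero_iff k p m).1 h)
      rwa [map_div₀, div_eq_one_iff_eq hv0] at this
    have h3 : (ε : Aut k Ω) ϖ' = ϖ' := by
      have e1 : ((ε ^ m : DecF F W) : Aut k Ω) ϖ = ϖ := by
        rw [← pow_mul, ← hMe]
        exact (hEE δ δ.2.1 ϖ hϖ.1).2
      have e2 := Finset.sum_range_succ' (fun i => ((ε ^ i : DecF F W) : Aut k Ω) ϖ) m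
      rw [Finset.sum_range_succ, e1, pow_zero] at e2
      simp only [ϖ', map_sum]
      refine (add_right_cancel (e2.trans ?_)).symm
      simp [pow_succ']
    have h4 := hD.fix k Ω x hx W hW ϖ' (by rw [← Valuation.ne_zero_iff W.valuation, h2]; exact hv0)
      (h2 ▸ hϖ.2.2.1) E (sum_mem fun i _ => (hEE _ (ε ^ i).2.1 ϖ hϖ.1).1)
      (h2 ▸ hU.val k Ω E hE W hW ϖ hϖ) ε (mem_DecF.1 ε.2).2 h3
    refine ⟨j, ?_⟩
    rw [← hρ.pow δ.2, ← hρ.one]
    refine hS _ ε.2 _ (one_mem _) fun s hs => ?_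
    obtain ⟨N, hN⟩ := hSE s (Finset.mem_insert_of_mem hs)
    have := h4 _ hN
    rw [map_pow] at this
    exact (iterateFrobenius Ω p N).injective this
  -- the tame part
  obtain ⟨N, hN⟩ := hSE r (Finset.mem_insert_self r S)
  have hr0 : r ≠ 0 := by rintro rfl; exact hπ.2.1 (by rw [← hr, zero_pow hn0])
  have hrN : r ^ p ^ N ≠ 0 := pow_ne_zero _ hr0
  obtain ⟨e, he⟩ := hU.val k Ω E hE W hW ϖ hϖ _ hN hrN
  have he0 : 0 ≤ e := by
    by_contra hneg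
    have h1 : W.valuation r < 1 := by
      have := hπ.2.2.1
      rwa [← hr, map_pow, pow_lt_one_iff hn0] at this
    have h2 : W.valuation (r ^ p ^ N) ≤ 1 := by rw [map_pow]; exact pow_le_one' h1.le _
    rw [he] at h2
    exact absurd (one_lt_zpow_of_neg₀ (zero_lt_iff.2 hv0) hϖ.2.2.1 (not_le.1 hneg)) (not_lt.2 h2)
  lift e to ℕ using he0
  rw [zpow_natCast] at he
  have tame : ∀ δ : DecF F W, Cg W (((δ : Aut k Ω) r / r) ^ p ^ N) ((θ δ : k) ^ e) := fun δ => by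
    have hu : W.valuation (r ^ p ^ N / ϖ ^ e) = 1 := by
      rw [map_div₀, he, map_pow, div_self (pow_ne_zero _ hv0)]
    have hu0 : r ^ p ^ N / ϖ ^ e ≠ 0 := div_ne_zero hrN (pow_ne_zero _ hϖ.2.1)
    have h1 : Cg W ((δ : Aut k Ω) (r ^ p ^ N / ϖ ^ e) / (r ^ p ^ N / ϖ ^ e)) (1 : k) := by
      rw [Cg, map_one, div_sub_one hu0, map_div₀, hu, div_one]
      exact (hB.move k Ω x hx W hW δ (mem_DecF.1 δ.2).2).1 _ ((W.valuation_le_one_iff _).1 hu.le)
    have h2 : (δ : Aut k Ω) ϖ ≠ 0 := (_root_.map_ne_zero _).2 hϖ.2.1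
    have := hϖ.2.1
    convert ((hθ δ).pow hW e).mul hW h1 using 1
    · rw [map_div₀, map_pow, map_pow, div_pow, div_pow]
      field_simp
    · rw [mul_one]
  have : NeZero M := ⟨hM⟩
  have : Finite θ.range := by
    refine Set.Finite.subset (s := rootsOfUnity M k)
      (inferInstanceAs (Finite (rootsOfUnity M k))) ?_
    rintro _ ⟨δ, rfl⟩
    rw [SetLike.mem_coe, mem_rootsOfUnity, ← map_pow]
    exact hone _ (hEE δ δ.2.1 ϖ hϖ.1).2
  obtain ⟨⟨_, τ, rfl⟩, hτ⟩ := IsCyclic.exists_monoid_generator (α := θ.range)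
  have hτ : ∀ δ, ∃ a : ℕ, θ τ ^ a = θ δ := fun δ =>
    (hτ ⟨_, δ, rfl⟩).imp fun a ha => congrArg Subtype.val ha
  obtain ⟨ζ, hζ⟩ := exists_prim (k := k) (Ω := k) p hn
  obtain ⟨δ, hδ, hδr⟩ := hT p k Ω F hF W hW π hπ n hn r (algebraMap k Ω ζ) hr
    (by rw [← map_pow, hζ.pow_eq_one, map_one])
  obtain ⟨a, ha⟩ := hτ ⟨γ, hγ⟩
  obtain ⟨b, hb⟩ := hτ ⟨δ, hδ⟩
  have h1 : (θ ⟨γ, hγ⟩ : k) ^ e = 1 := (tame ⟨γ, hγ⟩).uniq hW (by
    rw [hγr, div_self hr0, one_pow]; exact Cg.one)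
  have h2 : (θ ⟨δ, hδ⟩ : k) ^ e = ζ ^ p ^ N := (tame ⟨δ, hδ⟩).uniq hW (by
    rw [hδr, mul_div_cancel_right₀ _ hr0, ← map_pow]; exact Cg.const _)
  have h3 : n ∣ p ^ N * a := by
    rw [← hζ.pow_eq_one_iff_dvd, pow_mul, ← h2, ← hb, Units.val_pow_eq_pow_val, pow_right_comm _ b,
      pow_right_comm _ b, pow_right_comm _ e, ← Units.val_pow_eq_pow_val, ha, h1, one_pow]
  obtain ⟨j, rfl⟩ := ((hp.out.coprime_iff_not_dvd.2 hn).symm.pow_right N).dvd_of_dvd_mul_left h3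
  obtain ⟨i, hi⟩ := hexp τ τ.2
  obtain ⟨l, hl⟩ := wild ((τ ^ (n * p ^ i * j))⁻¹ * ⟨γ, hγ⟩ ^ p ^ i) (by
    rw [map_mul, map_inv, map_pow, map_pow, ← ha, ← pow_mul, mul_right_comm, inv_mul_cancel])
  refine ⟨i + l, ?_⟩
  rw [← hρ.hom_apply, map_mul, map_inv, map_pow, map_pow, hρ.hom_apply, hρ.hom_apply, pow_mul, hi,
    one_pow, inv_one, one_mul, ← pow_mul, ← pow_add] at hl
  exact hl

end Pool.Agent.Lib.IW
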