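import Pool.Agent.Lib.IW.Util

/-! Block Tsen: function fields of curves over algebraically closed fields are `C₁`. -/

open IntermediateField

namespace Pool.Agent.Lib.IW

namespace Tsen

open MvPolynomial

section Zero

variable {k σ : Type} [Field k]

/-- Set the variables in `s` to zero. -/
noncomputable def kill [DecidableEq σ] (s : Finset σ) : MvPolynomial σ k →ₐ[k] MvPolynomial σ k :=
  aeval fun j => if j ∈ s then 0 else X j

lemma card_le_height [DecidableEq σ] (s : Finset σ) :
    (s.card : ℕ∞) ≤ (RingHom.ker (kill (k := k) s)).height := by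
  induction s using Finset.induction_on with
  | empty => simp
  | insert a s ha ih =>
    have := RingHom.ker_isPrime (kill (k := k) s)
    have := RingHom.ker_isPrime (kill (k := k) (insert a s))
    have e : (kill (k := k) (insert a s)).comp (kill s) = kill (insert a s) := by
      refine algHom_ext fun j => ?_
      by_cases hj : j ∈ s <;> simp [kill, hj]
    have lt : RingHom.ker (kill (k := k) s) < RingHom.ker (kill (k := k) (insert a s)) := by
      refine lt_of_le_of_ne (fun f hf => ?_) fun h => ?_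
      · rw [RingHom.mem_ker] at hf ⊢
        rw [← e, AlgHom.comp_apply, hf, map_zero]
      · have h1 : (X a : MvPolynomial σ k) ∈ RingHom.ker (kill (k := k) (insert a s)) := by
          simp [RingHom.mem_ker, kill]
        rw [← h, RingHom.mem_ker] at h1
        simp [kill, ha] at h1
    rw [Finset.card_insert_of_notMem ha, Nat.cast_succ]
    exact (add_le_add_left ih 1).trans (Ideal.height_add_one_le_of_lt_of_isPrime lt)

lemma exists_zero [IsAlgClosed k] [Fintype σ] {r : ℕ} (f : Fin r → MvPolynomial σ k)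
    (h0 : ∀ j, aeval (0 : σ → k) (f j) = 0) (hr : r < Fintype.card σ) :
    ∃ a : σ → k, a ≠ 0 ∧ ∀ j, aeval a (f j) = 0 := by
  classical
  by_contra hn
  push Not at hn
  have hp := RingHom.ker_isPrime (kill (k := k) (Finset.univ : Finset σ))
  have e : kill (k := k) (Finset.univ : Finset σ) =
      (Algebra.ofId k (MvPolynomial σ k)).comp (aeval (0 : σ → k)) := by
    refine algHom_ext fun j => ?_
    simp [kill]
  have hm : ∀ g, g ∈ RingHom.ker (kill (k := k) (Finset.univ : Finset σ)) ↔
      aeval (0 : σ → k) g = 0 := fun g => by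
    rw [RingHom.mem_ker, e, AlgHom.comp_apply, map_eq_zero]
  have hmin : RingHom.ker (kill (k := k) (Finset.univ : Finset σ)) ∈
      (Ideal.span ((Finset.univ.image f : Finset _) : Set (MvPolynomial σ k))).minimalPrimes := by
    refine ⟨⟨hp, Ideal.span_le.2 fun g hg => ?_⟩, fun q hq _ g hg => ?_⟩
    · obtain ⟨j, -, rfl⟩ := Finset.mem_image.1 hg
      exact (hm _).2 (h0 j)
    · refine (hq.1.radical_le_iff.2 hq.2) ?_
      rw [← vanishingIdeal_zeroLocus_eq_radical (K := k), mem_vanishingIdeal_iff]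
      intro a ha
      rw [zeroLocus_span] at ha
      obtain rfl : a = 0 := by
        by_contra h
        obtain ⟨j, hj⟩ := hn a h
        exact hj (ha _ (by simp))
      exact (hm g).1 hg
  have h1 := (card_le_height (k := k) (Finset.univ : Finset σ)).trans
    (Ideal.height_le_card_of_mem_minimalPrimes_span_finset hmin)
  have h2 : (Finset.univ.image f).card ≤ r := Finset.card_image_le.trans (by simp)
  have h3 : Fintype.card σ ≤ (Finset.univ.image f).card := by exact_mod_cast h1
  omega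

lemma exists_zero' [IsAlgClosed k] [Fintype σ] {Ω : Type} [Field Ω] [Algebra k Ω]
    (W : Submodule k Ω) [FiniteDimensional k W] (Q : MvPolynomial σ Ω) (hQ : Q ∈ coeffsIn σ W)
    (h0 : eval 0 Q = 0) (hr : Module.finrank k W < Fintype.card σ) :
    ∃ a : σ → k, a ≠ 0 ∧ eval (fun i => algebraMap k Ω (a i)) Q = 0 := by
  let b := Module.finBasis k W
  choose lam hlam using fun j => LinearMap.exists_extend (b.coord j)
  have ev : ∀ a : σ → k, eval (fun i => algebraMap k Ω (a i)) Q =
      ∑ d ∈ Q.support, (∏ i, a i ^ d i) • Q.coeff d := fun a => by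
    rw [eval_eq']
    refine Finset.sum_congr rfl fun d _ => ?_
    simp [Algebra.smul_def, mul_comm]
  have key : ∀ (a : σ → k) j, aeval a (∑ d ∈ Q.support, monomial d (lam j (Q.coeff d))) =
      lam j (eval (fun i => algebraMap k Ω (a i)) Q) := fun a j => by
    rw [ev, map_sum, map_sum]
    refine Finset.sum_congr rfl fun d _ => ?_
    rw [aeval_monomial, map_smul, Finsupp.prod_fintype _ _ (by simp)]
    simp [mul_comm]
  obtain ⟨a, a0, ha⟩ := exists_zero (fun j => ∑ d ∈ Q.support, monomial d (lam j (Q.coeff d)))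
    (fun j => by
      rw [key]
      simp only [Pi.zero_apply, map_zero]
      rw [show (fun _ : σ => (0 : Ω)) = 0 from rfl, h0, map_zero]) hr
  refine ⟨a, a0, ?_⟩
  have hw : eval (fun i => algebraMap k Ω (a i)) Q ∈ W := by
    rw [ev]
    exact W.sum_mem fun d _ => W.smul_mem _ (hQ d)
  have : (⟨_, hw⟩ : W) = 0 := b.forall_coord_eq_zero_iff.1 fun j => by
    rw [← hlam j]
    exact (key a j).symm.trans (ha j)
  exact congrArg Subtype.val this

end Zero

section Count

variable {k Ω : Type} [Field k] [Field Ω] [Algebra k Ω]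

variable (k) in
/-- Polynomials in `x` of degree at most `c`. -/
def Pol (x : Ω) (c : ℕ) : Submodule k Ω := Submodule.span k (Set.range fun s : Fin (c + 1) => x ^ (s : ℕ))

lemma pow_mem {x : Ω} {s c : ℕ} (h : s ≤ c) : x ^ s ∈ Pol k x c :=
  Submodule.subset_span ⟨⟨s, by omega⟩, rfl⟩

lemma pol_mul (x : Ω) (a b : ℕ) : Pol k x a * Pol k x b ≤ Pol k x (a + b) := by
  rw [Pol, Pol, Submodule.span_mul_span, Submodule.span_le]
  rintro _ ⟨_, ⟨s, rfl⟩, _, ⟨t, rfl⟩, rfl⟩
  simp only [← pow_add]
  exact pow_mem (by omega)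

lemma pol_pow (x : Ω) (a m : ℕ) : Pol k x a ^ m ≤ Pol k x (m * a) := by
  induction m with
  | zero => simpa using pow_mem (k := k) (x := x) (le_refl 0)
  | succ m ih =>
    rw [pow_succ, Nat.succ_mul]
    exact (mul_le_mul_left ih _).trans (pol_mul x _ _)

lemma aeval_mem (x : Ω) (q : Polynomial k) : Polynomial.aeval x q ∈ Pol k x q.natDegree := by
  rw [Polynomial.aeval_eq_sum_range]
  exact Submodule.sum_mem _ fun i hi =>
    Submodule.smul_mem _ _ (pow_mem (Nat.lt_succ_iff.1 (Finset.mem_range.1 hi)))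

lemma mul_mem {x : Ω} {B : Submodule k Ω} {a b : ℕ} {u v : Ω} (hu : u ∈ Pol k x a)
    (hv : v ∈ Pol k x b * B) : u * v ∈ Pol k x (a + b) * B := by
  have := Submodule.mul_mem_mul hu hv
  rw [← mul_assoc] at this
  exact mul_le_mul_left (pol_mul x a b) B this

lemma mono {x : Ω} {B : Submodule k Ω} {a b : ℕ} (h : a ≤ b) {v : Ω} (hv : v ∈ Pol k x a * B) :
    v ∈ Pol k x b * B := by
  obtain ⟨c, rfl⟩ := Nat.exists_eq_add_of_le' h
  simpa using mul_mem (pow_mem (Nat.zero_le c)) hv

/-- After clearing a denominator, `N` has bounded degree. -/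
def Bdd (x : Ω) (B N : Submodule k Ω) : Prop :=
  ∃ (q : Polynomial k) (c : ℕ), q ≠ 0 ∧ ∀ y ∈ N, Polynomial.aeval x q * y ∈ Pol k x c * B

lemma Bdd.sup {x : Ω} {B N N' : Submodule k Ω} (h : Bdd x B N) (h' : Bdd x B N') :
    Bdd x B (N ⊔ N') := by
  obtain ⟨q, c, q0, h⟩ := h
  obtain ⟨q', c', q0', h'⟩ := h'
  refine ⟨q * q', (q'.natDegree + c) + (q.natDegree + c'), mul_ne_zero q0 q0', fun y hy => ?_⟩
  obtain ⟨u, hu, v, hv, rfl⟩ := Submodule.mem_sup.1 hy
  rw [map_mul, mul_add]
  refine Submodule.add_mem _ ?_ ?_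
  · rw [mul_comm (Polynomial.aeval x q), mul_assoc]
    exact mono (Nat.le_add_right _ _) (mul_mem (aeval_mem x q') (h u hu))
  · rw [mul_assoc]
    exact mono (Nat.le_add_left _ _) (mul_mem (aeval_mem x q) (h' v hv))

lemma Bdd.of_le {x : Ω} {B N N' : Submodule k Ω} (h : Bdd x B N) (e : N' ≤ N) : Bdd x B N' := by
  obtain ⟨q, c, q0, h⟩ := h
  exact ⟨q, c, q0, fun y hy => h y (e hy)⟩

lemma bdd_single {x : Ω} {B : Submodule k Ω} {r b : Ω} (hr : r ∈ k⟮x⟯) (hb : b ∈ B) :
    Bdd x B (k ∙ (r * b)) := by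
  obtain ⟨u, v, rfl⟩ := (mem_adjoin_simple_iff k r).1 hr
  by_cases hv : Polynomial.aeval x v = 0
  · exact ⟨1, 0, one_ne_zero, fun y hy => by
      rw [hv, div_zero, zero_mul, Submodule.span_zero_singleton, Submodule.mem_bot] at hy
      simp [hy]⟩
  · refine ⟨v, u.natDegree, fun h => hv (by simp [h]), fun y hy => ?_⟩
    obtain ⟨a, rfl⟩ := Submodule.mem_span_singleton.1 hy
    rw [mul_smul_comm, ← mul_assoc, mul_div_cancel₀ _ hv]
    exact Submodule.smul_mem _ _ (Submodule.mul_mem_mul (aeval_mem x u) hb)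

lemma bdd_span {x : Ω} {J : Type} (β : J → Ω) {y : Ω}
    (hy : y ∈ Submodule.span k⟮x⟯ (Set.range β)) :
    Bdd x (Submodule.span k (Set.range β)) (k ∙ y) := by
  suffices h : ∀ r ∈ k⟮x⟯, Bdd x (Submodule.span k (Set.range β)) (k ∙ (r * y)) by
    simpa using h 1 (one_mem _)
  induction hy using Submodule.span_induction with
  | mem y hy => exact fun r hr => bdd_single hr (Submodule.subset_span hy)
  | zero => exact fun r hr => bdd_single hr (zero_mem _)
  | add u v _ _ hu hv =>
    refine fun r hr => ((hu r hr).sup (hv r hr)).of_le ?_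
    rw [Submodule.span_singleton_le_iff_mem, mul_add]
    exact Submodule.add_mem_sup (Submodule.mem_span_singleton_self _)
      (Submodule.mem_span_singleton_self _)
  | smul a u _ hu =>
    intro r hr
    have := hu (r * a) ((k⟮x⟯).mul_mem hr a.2)
    rwa [mul_assoc] at this

lemma bdd_fg {x : Ω} {B : Submodule k Ω} {N : Submodule k Ω} (hN : N.FG)
    (h : ∀ y ∈ N, Bdd x B (k ∙ y)) : Bdd x B N := by
  induction N, hN using Submodule.fg_induction with
  | singleton y => exact h y (Submodule.mem_span_singleton_self y)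
  | sup N N' _ _ ih ih' =>
    exact (ih fun y hy => h y (Submodule.mem_sup_left hy)).sup
      (ih' fun y hy => h y (Submodule.mem_sup_right hy))

lemma prod_mem {A ι : Type} [CommRing A] [Algebra k A] (s : Finset ι) (f : ι → A)
    (N : ι → Submodule k A) (h : ∀ i, f i ∈ N i) : ∏ i ∈ s, f i ∈ ∏ i ∈ s, N i :=
  Finset.cons_induction_on s (by simp [Submodule.one_le.1 le_rfl]) fun a s ha ih => by
    rw [Finset.prod_cons, Finset.prod_cons]
    exact Submodule.mul_mem_mul (h a) ih

lemma pol_span (x : Ω) {J : Type} (β : J → Ω) (c : ℕ) :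
    Pol k x c * Submodule.span k (Set.range β) =
      Submodule.span k (Set.range fun p : Fin (c + 1) × J => x ^ (p.1 : ℕ) * β p.2) := by
  rw [Pol, Submodule.span_mul_span]
  congr 1
  ext y
  constructor
  · rintro ⟨_, ⟨s, rfl⟩, _, ⟨j, rfl⟩, rfl⟩
    exact ⟨(s, j), rfl⟩
  · rintro ⟨⟨s, j⟩, rfl⟩
    exact ⟨_, ⟨s, rfl⟩, _, ⟨j, rfl⟩, rfl⟩

lemma indep {x : Ω} (hx : Transcendental k x) {J : Type} {β : J → Ω}
    (h : LinearIndependent k⟮x⟯ β) (c : ℕ) :
    LinearIndependent k fun p : Fin (c + 1) × J => x ^ (p.1 : ℕ) * β p.2 := by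
  have h1 : LinearIndependent k fun s : ℕ => x ^ s := by
    have := (Polynomial.basisMonomials k).linearIndependent.map' (Polynomial.aeval x).toLinearMap
      (LinearMap.ker_eq_bot.2 (transcendental_iff_injective.1 hx))
    simpa [Function.comp_def, Polynomial.aeval_monomial] using this
  have h2 : LinearIndependent k fun s : Fin (c + 1) => AdjoinSimple.gen k x ^ (s : ℕ) := by
    refine LinearIndependent.of_comp (k⟮x⟯).val.toLinearMap ?_
    simpa [Function.comp_def] using h1.comp (fun s : Fin (c + 1) => (s : ℕ)) Fin.val_injective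
  simpa [Algebra.smul_def] using linearIndependent_smul h2 h

end Count

lemma core {k Ω : Type} [Field k] [IsAlgClosed k] [Field Ω] [Algebra k Ω]
    (F : IntermediateField k Ω) {x : Ω} (hx : Transcendental k x) (hxF : x ∈ F) {J : Type}
    [Fintype J] (β : J → Ω) (hβ : ∀ j, β j ∈ F) (hi : LinearIndependent k⟮x⟯ β)
    (hs : ∀ y ∈ F, y ∈ Submodule.span k⟮x⟯ (Set.range β)) (hJ : 0 < Fintype.card J)
    {ι : Type} [Fintype ι] {m : ℕ} (P : MvPolynomial ι F) (hP : P.IsHomogeneous m) (m0 : 0 < m)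
    (hm : m < Fintype.card ι) : ∃ t : ι → F, t ≠ 0 ∧ eval t P = 0 := by
  classical
  set B := Submodule.span k (Set.range β) with hB
  set U := Submodule.span k ((fun d => ((P.coeff d : F) : Ω)) '' P.support) with hU
  have BF : B ≤ F.toSubalgebra.toSubmodule := Submodule.span_le.2 (by rintro _ ⟨j, rfl⟩; exact hβ j)
  have UF : U ≤ F.toSubalgebra.toSubmodule :=
    Submodule.span_le.2 (by rintro _ ⟨d, -, rfl⟩; exact (P.coeff d).2)
  have fg : (U * B ^ m).FG := (Submodule.fg_span (P.support.finite_toSet.image _)).mul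
    ((Submodule.fg_span (Set.finite_range β)).pow m)
  have le : U * B ^ m ≤ F.toSubalgebra.toSubmodule := by
    have h1 : ∀ n : ℕ, B ^ n ≤ F.toSubalgebra.toSubmodule := fun n => by
      induction n with
      | zero => simp
      | succ n ih =>
        rw [pow_succ]
        exact Submodule.mul_le.2 fun a ha b hb => F.mul_mem (ih ha) (BF hb)
    exact Submodule.mul_le.2 fun a ha b hb => F.mul_mem (UF ha) (h1 m hb)
  obtain ⟨q, c, q0, hq⟩ : Bdd x B (U * B ^ m) := bdd_fg fg fun y hy => bdd_span β (hs y (le hy))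
  have q1 : Polynomial.aeval x q ≠ 0 := fun h => hx ⟨q, q0, h⟩
  let T : ι → MvPolynomial (ι × (Fin (c + 1) × J)) Ω := fun i =>
    ∑ p : Fin (c + 1) × J, X (i, p) * C (x ^ (p.1 : ℕ) * β p.2)
  have hT : ∀ i, T i ∈ coeffsIn _ (Pol k x c * B) := fun i =>
    Submodule.sum_mem _ fun p _ => X_mul_mem_coeffsIn.2 (C_mem_coeffsIn.2
      (Submodule.mul_mem_mul (pow_mem (Nat.lt_succ_iff.1 p.1.2)) (Submodule.subset_span ⟨_, rfl⟩)))
  let Q : MvPolynomial (ι × (Fin (c + 1) × J)) Ω :=
    ∑ d ∈ P.support, C ((P.coeff d : F) : Ω) * ∏ i, T i ^ d i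
  have hQ : Q ∈ coeffsIn _ (U * (Pol k x c * B) ^ m) := by
    refine Submodule.sum_mem _ fun d hd => ?_
    rw [coeffsIn_mul]
    refine Submodule.mul_mem_mul (C_mem_coeffsIn.2 (Submodule.subset_span ⟨d, hd, rfl⟩))
      (le_coeffsIn_pow ?_)
    have e : ∑ i, d i = m := by
      rw [← hP (mem_support_iff.1 hd), Finsupp.weight_apply, Finsupp.sum_fintype _ _ (by simp)]
      simp
    rw [← e, ← Finset.prod_pow_eq_pow_sum]
    exact prod_mem _ _ _ fun i => Submodule.pow_mem_pow _ (hT i) _
  have hQ' : C (Polynomial.aeval x q) * Q ∈ coeffsIn _ (Pol k x (m * c + c) * B) := fun d => by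
    rw [coeff_C_mul]
    have h1 : Q.coeff d ∈ Pol k x (m * c) * (U * B ^ m) := by
      have := hQ d
      rw [mul_pow, mul_left_comm] at this
      exact mul_le_mul_left (pol_pow x c m) _ this
    refine Submodule.mul_induction_on h1 (fun u hu v hv => ?_) fun u v hu hv => ?_
    · rw [mul_left_comm]
      exact mul_mem hu (hq v hv)
    · rw [mul_add]
      exact Submodule.add_mem _ hu hv
  have ev : ∀ (a : ι × (Fin (c + 1) × J) → Ω) (t : ι → F),
      (∀ i, (t i : Ω) = ∑ p, a (i, p) * (x ^ (p.1 : ℕ) * β p.2)) →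
      eval a Q = ((eval t P : F) : Ω) := fun a t ht => by
    rw [eval_eq' t P]
    simp [Q, T, ht]
  have fd : FiniteDimensional k ↥(Pol k x (m * c + c) * B) := by
    rw [hB, pol_span]
    exact FiniteDimensional.span_of_finite k (Set.finite_range _)
  have rk : Module.finrank k ↥(Pol k x (m * c + c) * B) <
      Fintype.card (ι × (Fin (c + 1) × J)) := by
    rw [hB, pol_span]
    refine (finrank_range_le_card _).trans_lt ?_
    simp only [Fintype.card_prod, Fintype.card_fin]
    rw [← mul_assoc]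
    refine Nat.mul_lt_mul_of_pos_right ?_ hJ
    nlinarith
  obtain ⟨a, a0, ha⟩ := exists_zero' _ _ hQ' (by
    have e : eval 0 P = 0 := by
      rw [eval_zero, constantCoeff_eq, hP.coeff_eq_zero (by simpa using m0.ne)]
    rw [map_mul, ev 0 0 (by simp), e]
    simp) rk
  let t : ι → F := fun i => ⟨∑ p, algebraMap k Ω (a (i, p)) * (x ^ (p.1 : ℕ) * β p.2),
    F.sum_mem fun p _ => F.mul_mem (F.algebraMap_mem _) (F.mul_mem (F.toSubalgebra.pow_mem hxF _) (hβ _))⟩
  refine ⟨t, fun t0 => a0 ?_, ?_⟩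
  · funext ⟨i, p⟩
    refine Fintype.linearIndependent_iff.1 (indep hx hi c) (fun p => a (i, p)) ?_ p
    simpa [t, Algebra.smul_def] using congrArg Subtype.val (congrFun t0 i)
  · rw [map_mul, eval_C, ev _ t fun _ => rfl] at ha
    exact_mod_cast (mul_eq_zero.1 ha).resolve_left q1

end Tsen

theorem blockTsen (_hB : StmtBas) : StmtTsen := by
  intro k Ω _ _ _ _ F hF ι _ m P hP m0 hm
  obtain ⟨⟨S, rfl⟩, x, hxF, hx⟩ := hF
  have h : k⟮x⟯ ≤ adjoin k (S : Set Ω) := adjoin_simple_le_iff.2 hxF
  have fd : FiniteDimensional k⟮x⟯ (extendScalars h) := by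
    rw [extendScalars_adjoin]
    exact finiteDimensional_adjoin fun y _ => (hx.alg y).isIntegral
  have fr : Module.Free k⟮x⟯ (extendScalars h) := Module.Free.of_divisionRing _ _
  let b := Module.finBasis k⟮x⟯ (extendScalars h)
  refine Tsen.core _ hx.tr hxF (fun j => (b j : Ω)) (fun j => (b j).2)
    (b.linearIndependent.map' (extendScalars h).val.toLinearMap
      (LinearMap.ker_eq_bot.2 Subtype.val_injective)) (fun y hy => ?_)
    (by simpa using Module.finrank_pos) P hP m0 hm
  have := Submodule.mem_map_of_mem (f := (extendScalars h).val.toLinearMap) (b.mem_span ⟨y, hy⟩)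
  rwa [Submodule.map_span, ← Set.range_comp] at this

end Pool.Agent.Lib.IW
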