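import Pool.Agent.Lib.IW.Util

/-! Uniformisers and approximation. -/

open Polynomial IntermediateField
open scoped Pointwise

namespace Pool.Agent.Lib.IW

namespace Unif

open MP_e06174_ag MP_ba4752_ag Place

section Pl

variable {k K : Type} [Field k] [Field K] [Algebra k K]

lemma approx_many {ι : Type} [Finite ι] {v : ι → Place k K} (hv : Function.Injective v)
    (b : ι → K) (n : ι → ℤ) : ∃ s : K, ∀ i, (v i).Ge (n i) (s - b i) := by
  classical
  have := Fintype.ofFinite ι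
  obtain ⟨N, hN1, hN⟩ : ∃ N : ℤ, 1 ≤ N ∧ ∀ i j, n i - (v i).ord (b j) ≤ N := by
    obtain ⟨B, hB⟩ := (Set.finite_range fun q : ι × ι => n q.1 - (v q.1).ord (b q.2)).bddAbove
    exact ⟨max 1 B, le_max_left _ _, fun i j => le_max_of_le_right (hB ⟨(i, j), rfl⟩)⟩
  have he : ∀ i, ∃ e : K, (v i).Ge N (e - 1) ∧ ∀ j, j ≠ i → (v j).Ge N e := by
    intro i
    obtain ⟨y, hy0, hy, hy'⟩ := (v i).approx (Finset.univ.image v) (-N) N
    obtain ⟨h1, h2⟩ := ord_add_of_ge (p := v i) hy0 (y := 1) (ge_one.mono (by omega))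
    refine ⟨y / (y + 1), ?_, fun j hj => ?_⟩
    · rw [show y / (y + 1) - 1 = -(y + 1)⁻¹ by field_simp; ring]
      exact ge_of_le (by rw [ord_neg, ord_inv, h2, hy]; omega)
    · have h3 := hy' (v j) (Finset.mem_image_of_mem _ (Finset.mem_univ j)) fun e => hj (hv e)
      have h4 := (ord_add_of_ge (p := v j) one_ne_zero (y := y)
        (ge_of_le (by rw [ord_one]; omega))).2
      exact ge_of_le (by rw [(v j).ord_div hy0 h1, add_comm, h4, ord_one]; omega)
  choose e he1 he2 using he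
  refine ⟨∑ j, e j * b j, fun i => ?_⟩
  rw [← Finset.add_sum_erase _ _ (Finset.mem_univ i), add_sub_right_comm, ← sub_one_mul]
  refine ((he1 i).mul' (ge_ord _) (by have := hN i i; omega)).add (Ge.sum fun j hj => ?_)
  exact (he2 j i (Finset.ne_of_mem_erase hj).symm).mul' (ge_ord _) (by have := hN i j; omega)

lemma finite_poles [IsAlgClosed k] {x : K} (h : SepCoord k x) (y : K) :
    {v : Place k K | v.ord y < 0}.Finite := by
  have hc := h.toIsCoord
  obtain ⟨q, hq, hq'⟩ := exists_multiple hc y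
  have h1 : {v : Place k K | v.ord x < 0}.Finite ∧ ∀ a, {v : Place k K | v.At x a}.Finite := by
    obtain ⟨_, _, _, _, _, _, _, rfl⟩ := h.setup
    exact ⟨(finite_over K vInf).subset fun w hw => (over_of_pole hw).imp fun e he => he.1,
      fun a => (finite_over K (vAt a)).subset fun w hw => (At.over hw).imp fun e he => he.1⟩
  refine (h1.1.union ((finite_setOfPred_isRoot hq).biUnion fun a _ => h1.2 a)).subset fun v hv => ?_
  rcases hc.pole_or_at v with h2 | ⟨a, ha⟩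
  · exact Or.inl h2
  · refine Or.inr (Set.mem_biUnion (x := a) ?_ ha)
    by_contra hr
    have hy : y ≠ 0 := by rintro rfl; simp at hv
    have h3 := (hq' v ha.ge_zero).le (mul_ne_zero (aeval_ne_zero hc.trans hq) hy)
    rw [v.ord_mul (aeval_ne_zero hc.trans hq) hy, ha.ord_aeval hc.trans hq,
      rootMultiplicity_eq_zero hr] at h3
    have : v.ord y < 0 := hv
    omega

lemma sep_place [IsAlgClosed k] {x' x : K} (h : SepCoord k x') (hx : Transcendental k x)
    (v₀ : Place k K) (T : Finset (Place k K)) (h₀ : v₀.Ge 0 x) (hT : v₀ ∉ T)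
    (hT' : ∀ v ∈ T, v.Ge 0 x) : ∃ s : K, (∀ v : Place k K, v.Ge 0 x → v.Ge 0 s) ∧
      v₀.Ge 1 (s - 1) ∧ ∀ v ∈ T, v.Ge 1 s := by
  classical
  have hc := h.toIsCoord.of_transcendental hx
  have hat : ∀ v : Place k K, v.Ge 0 x → ∃ a, v.At x a := fun v hv =>
    (hc.pole_or_at v).resolve_left (not_lt.2 (hv.le (ne_zero_of_transcendental hx)))
  choose! a ha using hat
  have hP : {v : Place k K | v.At x (a v₀)}.Finite :=
    (finite_poles h (x - algebraMap k K (a v₀))⁻¹).subset fun v hv => by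
      have := At.ord_pos hv hx
      show v.ord _ < 0
      rw [ord_inv]; omega
  obtain ⟨s, hs⟩ := approx_many (ι := ↥(hP.toFinset ∪ T)) (v := Subtype.val) Subtype.val_injective
    (fun v => if (v : Place k K) = v₀ then 1 else 0) fun _ => 1
  have hs0 : v₀.Ge 1 (s - 1) := by
    simpa using hs ⟨v₀, Finset.mem_union_left _ (hP.mem_toFinset.2 (ha v₀ h₀))⟩
  have hs1 : ∀ v ∈ hP.toFinset ∪ T, v ≠ v₀ → v.Ge 1 s := fun v hv hne => by
    simpa [hne] using hs ⟨v, hv⟩
  let Z := (finite_poles h s).toFinset.filter fun v => v.Ge 0 x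
  have hZ : ∀ v ∈ Z, a v₀ - a v ≠ 0 := by
    intro v hv e
    rw [Finset.mem_filter, Set.Finite.mem_toFinset] at hv
    have h1 : v.At x (a v₀) := by rw [sub_eq_zero.1 e]; exact ha v hv.2
    have h2 : v.Ge 0 s := by
      by_cases hne : v = v₀
      · have := (hs0.mono (m := 0) (by omega)).add ge_one
        rwa [sub_add_cancel, ← hne] at this
      · exact (hs1 v (Finset.mem_union_left _ (hP.mem_toFinset.2 h1)) hne).mono (by omega)
    have h3 : v.ord s < 0 := hv.1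
    have := h2.le (by rintro rfl; simp at h3)
    omega
  let q : k[X] := ∏ v ∈ Z, (C (a v₀ - a v)⁻¹ * (X - C (a v))) ^ (v.ord s).natAbs
  have hq : q.eval (a v₀) = 1 := by
    rw [eval_prod]
    refine Finset.prod_eq_one fun v hv => ?_
    simp [inv_mul_cancel₀ (hZ v hv)]
  refine ⟨aeval x q * s, fun v hv => ?_, ?_, fun v hv => ?_⟩
  · by_cases hvZ : v ∈ Z
    · have h1 : v.Ge 1 (aeval x (C (a v₀ - a v)⁻¹ * (X - C (a v)))) := by
        rw [map_mul, aeval_C, map_sub, aeval_X, aeval_C]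
        exact (ge_const _).mul' (ha v hv) (by omega)
      have h2 := h1.pow (v.ord s).natAbs
      rw [← map_pow] at h2
      rw [show q = _ from (Finset.mul_prod_erase Z _ hvZ).symm, map_mul]
      exact (h2.mul (hv.aeval _)).mul' (ge_ord s) (by omega)
    · refine (hv.aeval q).mul' (ge_of_le (n := 0) ?_) (by omega)
      by_contra hlt
      exact hvZ (Finset.mem_filter.2 ⟨(Set.Finite.mem_toFinset _).2 (not_le.1 hlt), hv⟩)
  · have h1 : v₀.Ge 1 (aeval x q - 1) := by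
      have := (ha v₀ h₀).aeval q
      rwa [hq, At, map_one] at this
    have := ((h₀.aeval q).mul' hs0 (l := 1) (by omega)).add h1
    rwa [show aeval x q * (s - 1) + (aeval x q - 1) = aeval x q * s - 1 by ring] at this
  · exact ((hT' v hv).aeval q).mul' (hs1 v (Finset.mem_union_right _ hv)
      fun e => hT (e ▸ hv)) (by omega)

end Pl

variable {k Ω : Type} [Field k] [Field Ω] [Algebra k Ω] {F : IntermediateField k Ω}

lemma exists_sep [IsAlgClosed k] (h : FF F) : ∃ x : F, SepCoord k x := by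
  obtain ⟨hfg, x, hxF, hx⟩ := h
  have := essFiniteType_iff.2 hfg
  refine exists_sepCoord (le_antisymm ?_ ?_)
  · have h1 : Algebra.IsAlgebraic k⟮x⟯ Ω := ⟨hx.alg⟩
    have h2 : IsTranscendenceBasis k fun _ : Unit => x := by
      rw [(algebraicIndependent_unique_type_iff.2 hx.tr).isTranscendenceBasis_iff_isAlgebraic,
        Set.range_const, ← isAlgebraic_adjoin_iff_top]
      exact h1
    have h3 := h2.lift_cardinalMk_eq_trdeg
    simp only [Cardinal.mk_fintype, Fintype.card_unique, Nat.cast_one, Cardinal.lift_id] at h3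
    exact (trdeg_le_of_injective F.val Subtype.val_injective).trans h3.ge
  · have : Algebra.Transcendental k F :=
      ⟨⟨x, hxF⟩, fun h => hx.tr (h.algHom F.val)⟩
    exact Cardinal.one_le_iff_pos.2 (trdeg_pos k F)

/-- The place `v` of `F` is the restriction of `W`. -/
def Rs (W : ValuationSubring Ω) (v : Place k F) : Prop := ∀ y : F, (y : Ω) ∈ W ↔ v.Ge 0 y

lemma exists_rs [IsAlgClosed k] (h : FF F) {W : ValuationSubring Ω} (hW : IsPl k W) :
    ∃ v : Place k F, Rs W v := by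
  obtain ⟨x', hx'⟩ := exists_sep h
  obtain ⟨-, x, hxF, hx⟩ := h
  suffices hne : W.comap F.val.toRingHom ≠ ⊤ by
    obtain ⟨v, hv⟩ := hx'.exists_place (W.comap F.val.toRingHom) hne hW.2
    exact ⟨v, fun y => by rw [← mem_O, hv]; rfl⟩
  refine fun e => hW.1 ?_
  have h1 : ∀ y ∈ k⟮x⟯, y ∈ W := fun y hy =>
    (e.ge (ValuationSubring.mem_top (⟨y, adjoin_simple_le_iff.2 hxF hy⟩ : F)) :)
  refine top_le_iff.1 fun y _ => ?_
  let f : k⟮x⟯ →+* W := (algebraMap k⟮x⟯ Ω).codRestrict W.toSubring fun c => h1 c c.2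
  have : IsIntegral W y := (hx.alg y).isIntegral.map_of_comp_eq f (RingHom.id Ω) (by ext; rfl)
  obtain ⟨z, rfl⟩ := IsIntegrallyClosed.isIntegral_iff.1 this
  exact z.2

variable {W W' : ValuationSubring Ω} {v v' : Place k F}

lemma Rs.le_iff (h : Rs W v) (y : F) {z : F} (hz : z ≠ 0) :
    W.valuation (y : Ω) ≤ W.valuation (z : Ω) ↔ v.Ge (v.ord z) y := by
  have hz' : 0 < W.valuation (z : Ω) := by
    rw [zero_lt_iff, Valuation.ne_zero_iff]; simpa using hz
  rw [← div_le_one₀ hz', ← map_div₀, W.valuation_le_one_iff]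
  refine (h (y / z)).trans ?_
  by_cases hy : y = 0
  · simp [hy]
  · rw [ge_iff hy, ge_iff (div_ne_zero hy hz), v.ord_div hy hz]; omega

lemma Rs.lt_iff (h : Rs W v) (y : F) : W.valuation (y : Ω) < 1 ↔ v.Ge 1 y := by
  by_cases hy : y = 0
  · simp [hy]
  have := h.le_iff 1 hy
  rw [OneMemClass.coe_one, map_one, ge_iff one_ne_zero, ord_one] at this
  rw [← not_le, this, ge_iff hy]; omega

lemma Rs.agr_iff (h : Rs W v) (h' : Rs W' v') : Agr F W W' ↔ v = v' :=
  ⟨fun e => ext_of_ge fun y hy => (h' y).1 ((e y y.2).1 ((h y).2 hy)),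
    fun e y hy => (h ⟨y, hy⟩).trans (e ▸ (h' ⟨y, hy⟩).symm)⟩

lemma Rs.ord_unif (h : Rs W v) {π : Ω} (hπ : IsUnif F W π) : v.ord ⟨π, hπ.1⟩ = 1 := by
  have h0 : (⟨π, hπ.1⟩ : F) ≠ 0 := fun e => hπ.2.1 (congrArg Subtype.val e)
  obtain ⟨u, hu0, hu⟩ := v.exists_ord_eq_one
  have h1 := ((h.lt_iff ⟨π, hπ.1⟩).1 hπ.2.2.1).le h0
  have h2 := ((h.le_iff u h0).1 (hπ.2.2.2 u u.2 ((h.lt_iff u).2 (ge_of_le hu.ge)))).le hu0
  omega

lemma Rs.le_zpow (h : Rs W v) {π : Ω} (hπ : IsUnif F W π) (y : F) (n : ℤ) :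
    W.valuation (y : Ω) ≤ W.valuation π ^ n ↔ v.Ge n y := by
  have h0 : (⟨π, hπ.1⟩ : F) ≠ 0 := fun e => hπ.2.1 (congrArg Subtype.val e)
  have := h.le_iff y (zpow_ne_zero n h0)
  rw [ord_zpow, h.ord_unif hπ, mul_one] at this
  rw [← this, ← map_zpow₀]
  congr! 3

lemma exists_over (hB : StmtBas) (v : Place k F) : ∃ W : ValuationSubring Ω, IsPl k W ∧ Rs W v := by
  obtain ⟨W, hW⟩ := hB.exOver F Ω F.val.toRingHom v.O
  have h : Rs W v := fun y => by rw [← mem_O, ← hW]; rfl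
  refine ⟨W, ⟨?_, fun c => (h (algebraMap k F c)).2 (ge_const c)⟩, h⟩
  rintro rfl
  obtain ⟨y, hy0, hy⟩ := v.exists_ord_eq (-1)
  have := ((h y).1 (ValuationSubring.mem_top _)).le hy0
  omega

end Unif

open MP_e06174_ag MP_ba4752_ag Place Unif in
theorem blockUnif (hB : StmtBas) : StmtUnif where
  ex := by
    intro k Ω _ _ _ _ F hF W hW
    obtain ⟨v, hv⟩ := exists_rs hF hW
    obtain ⟨u, hu0, hu⟩ := v.exists_ord_eq_one
    refine ⟨u, u.2, by simpa using hu0, (hv.lt_iff u).2 (ge_of_le hu.ge), fun y hy h => ?_⟩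
    exact (hv.le_iff ⟨y, hy⟩ hu0).2 (hu ▸ (hv.lt_iff ⟨y, hy⟩).1 h)
  val := by
    intro k Ω _ _ _ _ F hF W hW π hπ y hy hy0
    obtain ⟨v, hv⟩ := exists_rs hF hW
    refine ⟨v.ord ⟨y, hy⟩, le_antisymm ((hv.le_zpow hπ ⟨y, hy⟩ _).2 (ge_ord _)) ?_⟩
    have h1 := (hv.le_zpow hπ (⟨y, hy⟩ : F)⁻¹ _).2 (ge_ord _)
    have h2 : 0 < W.valuation y := by rwa [zero_lt_iff, Valuation.ne_zero_iff]
    have h3 : 0 < W.valuation π := by rw [zero_lt_iff, Valuation.ne_zero_iff]; exact hπ.2.1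
    rw [ord_inv, zpow_neg, IntermediateField.coe_inv, map_inv₀] at h1
    exact (inv_le_inv₀ h2 (zpow_pos h3 _)).1 h1
  approx := by
    intro k Ω _ _ _ _ F hF ι _ W π hW hπ hinj b n hb
    choose v hv using fun i => exists_rs hF (hW i)
    obtain ⟨s, hs⟩ := approx_many (v := v)
      (fun i j e => hinj i j (((hv i).agr_iff (hv j)).2 e)) (fun i => ⟨b i, hb i⟩) n
    exact ⟨s, s.2, fun i => ((hv i).le_zpow (hπ i) (s - ⟨b i, hb i⟩) _).2 (hs i)⟩
  fin := by
    intro k Ω _ _ _ _ F hF y hy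
    classical
    obtain ⟨x, hx⟩ := exists_sep hF
    choose W hW hW' using fun v : Place k F => Unif.exists_over hB v
    have key : ∀ {V : ValuationSubring Ω} {v : Place k F}, Rs V v →
        (y ∉ V ↔ v.ord ⟨y, hy⟩ < 0) := fun {V v} h => by
      rw [h ⟨y, hy⟩, not_ge_iff]
      exact ⟨fun e => e.2, fun e => ⟨fun e' => by simp [e'] at e, e⟩⟩
    refine ⟨(finite_poles hx ⟨y, hy⟩).toFinset.image W, fun V hV => ?_, fun V hV V' hV' e => ?_,
      fun V hV hyV => ?_⟩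
    · obtain ⟨v, hv, rfl⟩ := Finset.mem_image.1 hV
      rw [Set.Finite.mem_toFinset] at hv
      exact ⟨hW v, (key (hW' v)).2 hv⟩
    · obtain ⟨v, -, rfl⟩ := Finset.mem_image.1 hV
      obtain ⟨v', -, rfl⟩ := Finset.mem_image.1 hV'
      rw [((hW' v).agr_iff (hW' v')).1 e]
    · obtain ⟨v, hv⟩ := exists_rs hF hV
      exact ⟨W v, Finset.mem_image_of_mem _ ((Set.Finite.mem_toFinset _).2 ((key hv).1 hyV)),
        (hv.agr_iff (hW' v)).2 rfl⟩
  sepp := by
    intro k Ω _ _ _ _ x hx L hL hxL W₀ T hW₀ hxW₀ hT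
    classical
    have hF : FF L := ⟨hL, x, hxL, hx⟩
    obtain ⟨x', hx'⟩ := exists_sep hF
    obtain ⟨v₀, hv₀⟩ := exists_rs hF hW₀
    choose v hv using fun W : T => exists_rs hF (hT W W.2).1
    have htr : Transcendental k (⟨x, hxL⟩ : L) := fun h => hx.tr (h.algHom L.val)
    obtain ⟨s, h1, h2, h3⟩ := sep_place hx' htr v₀
      (Finset.univ.image v) ((hv₀ ⟨x, hxL⟩).1 hxW₀) (fun h => by
        obtain ⟨W, -, e⟩ := Finset.mem_image.1 h
        exact (hT W W.2).2.2 (((hv W).agr_iff hv₀).2 e)) (fun w h => by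
        obtain ⟨W, -, rfl⟩ := Finset.mem_image.1 h
        exact (hv W ⟨x, hxL⟩).1 (hT W W.2).2.1)
    refine ⟨s, s.2, fun W hW hxW => ?_, (hv₀.lt_iff (s - 1)).2 h2, fun W hW =>
      ((hv ⟨W, hW⟩).lt_iff s).2 (h3 _ (Finset.mem_image_of_mem _ (Finset.mem_univ _)))⟩
    obtain ⟨w, hw⟩ := exists_rs hF hW
    exact (hw s).2 (h1 w ((hw ⟨x, hxL⟩).1 hxW))

end Pool.Agent.Lib.IW
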