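import Pool.Agent.Lib.IW.Util

/-! Block Weak: weak solutions for abelian kernels of prime power order prime to `p`. -/

open scoped Pointwise

namespace Pool.Agent.Lib.IW

namespace Weak

section Avg

variable {E A Q : Type} [Group E] [CommGroup A] [Fintype Q] (i : A →* E)

/-- `x` is the mean of the family `e`. -/
def Mean (e : Q → E) (x : E) : Prop := ∃ a : Q → A, (∀ q, e q = i (a q) * x) ∧ ∏ q, a q = 1

variable {i}

lemma Mean.uniq [Nonempty Q] (hi : Function.Injective i) (hc : (Nat.card A).Coprime (Fintype.card Q))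
    {e : Q → E} {x y : E} (hx : Mean i e x) (hy : Mean i e y) : x = y := by
  obtain ⟨a, ha, pa⟩ := hx
  obtain ⟨b, hb, pb⟩ := hy
  obtain ⟨q0⟩ := ‹Nonempty Q›
  have h1 : ∀ q, i ((a q)⁻¹ * b q) = x * y⁻¹ := fun q => by
    rw [map_mul, map_inv, inv_mul_eq_iff_eq_mul, ← mul_assoc, ← ha, hb, mul_inv_cancel_right]
  have h2 : ∀ q, b q = a q * ((a q0)⁻¹ * b q0) := fun q => by
    rw [← hi ((h1 q).trans (h1 q0).symm), mul_inv_cancel_left]
  have h3 : ((a q0)⁻¹ * b q0) ^ Fintype.card Q = 1 := by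
    rw [Finset.prod_congr rfl fun q _ => h2 q, Finset.prod_mul_distrib, pa, one_mul,
      Finset.prod_const, Finset.card_univ] at pb
    exact pb
  have h4 : (a q0)⁻¹ * b q0 = 1 := (powCoprime hc).injective (h3.trans (powCoprime_one hc).symm)
  have h5 := h1 q0
  rw [h4, map_one] at h5
  exact mul_inv_eq_one.1 h5.symm

lemma Mean.ex (hc : (Nat.card A).Coprime (Fintype.card Q)) {e : Q → E} {b : E}
    (h : ∀ q, ∃ a, e q = i a * b) : ∃ x, Mean i e x := by
  choose a ha using h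
  obtain ⟨d, hd⟩ := (powCoprime hc).surjective (∏ q, a q)
  refine ⟨i d * b, fun q => a q * d⁻¹, fun q => ?_, ?_⟩
  · rw [ha, map_mul, map_inv, mul_assoc, inv_mul_cancel_left]
  · rw [Finset.prod_mul_distrib, Finset.prod_const, Finset.card_univ, ← hd, inv_pow]
    exact mul_inv_cancel _

lemma Mean.mul (hn : ∀ x : E, ∃ c : A →* A, ∀ a, i (c a) = x * i a * x⁻¹) {e f : Q → E} {x y : E}
    (hx : Mean i e x) (hy : Mean i f y) (σ : Equiv.Perm Q) :
    Mean i (fun q => e (σ q) * f q) (x * y) := by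
  obtain ⟨a, ha, pa⟩ := hx
  obtain ⟨b, hb, pb⟩ := hy
  obtain ⟨c, hc⟩ := hn x
  refine ⟨fun q => a (σ q) * c (b q), fun q => ?_, ?_⟩
  · beta_reduce
    rw [ha, hb, map_mul, hc]
    group
  · rw [Finset.prod_mul_distrib, ← map_prod, pb, map_one, mul_one, Equiv.prod_comp σ a, pa]

lemma Mean.one : Mean i (fun _ : Q => (1 : E)) 1 := ⟨fun _ => 1, fun _ => by simp, by simp⟩

end Avg

/-- Gaschütz transfer of a lift from a subgroup of index prime to the order of the kernel. -/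
theorem transfer {Γ E E' : Type} [Group Γ] [Group E] [Group E'] (φ : Γ →* E') (π : E →* E')
    (hs : Function.Surjective π) (hab : ∀ a ∈ π.ker, ∀ b ∈ π.ker, a * b = b * a) (H : Subgroup Γ)
    [Finite (Γ ⧸ H)] (hc : (Nat.card π.ker).Coprime H.index) (ψ : Γ → E)
    (hψ : ∀ γ ∈ H, ∀ δ ∈ H, ψ (γ * δ) = ψ γ * ψ δ) (hπ : ∀ γ ∈ H, π (ψ γ) = φ γ) :
    ∃ ρ : Γ →* E, (∀ γ, π (ρ γ) = φ γ) ∧ ∀ γ, (∀ q : Γ ⧸ H, q.out⁻¹ * γ * q.out ∈ H ∧
      ψ (q.out⁻¹ * γ * q.out) = 1) → ρ γ = 1 := by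
  let _ : CommGroup π.ker :=
    { (inferInstance : Group π.ker) with mul_comm := fun a b => Subtype.ext (hab _ a.2 _ b.2) }
  have := Fintype.ofFinite (Γ ⧸ H)
  have hc' : (Nat.card π.ker).Coprime (Fintype.card (Γ ⧸ H)) := by
    rwa [← Nat.card_eq_fintype_card]
  let i : π.ker →* E := π.ker.subtype
  have hi : Function.Injective i := Subtype.val_injective
  have hn : ∀ x : E, ∃ c : π.ker →* π.ker, ∀ a, i (c a) = x * i a * x⁻¹ := fun x =>
    ⟨(MulAut.conjNormal x).toMonoidHom, fun _ => rfl⟩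
  choose s hs using hs
  have hm : ∀ (γ : Γ) (q : Γ ⧸ H), (γ • q).out⁻¹ * γ * q.out ∈ H := fun γ q => by
    rw [mul_assoc, ← QuotientGroup.eq, QuotientGroup.out_eq', ← smul_eq_mul,
      MulAction.Quotient.mk_smul_out]
  let β : Γ → Γ ⧸ H → E := fun γ q =>
    s (φ (γ • q).out) * ψ ((γ • q).out⁻¹ * γ * q.out) * (s (φ q.out))⁻¹
  have b1 : ∀ γ q, π (β γ q) = φ γ := fun γ q => by
    simp only [β, map_mul, map_inv, hs, hπ _ (hm γ q)]
    group
  have b2 : ∀ γ δ q, β (γ * δ) q = β γ (δ • q) * β δ q := fun γ δ q => by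
    have e : ((γ * δ) • q).out⁻¹ * (γ * δ) * q.out =
        ((γ • δ • q).out⁻¹ * γ * (δ • q).out) * ((δ • q).out⁻¹ * δ * q.out) := by
      rw [mul_smul]; group
    simp only [β]
    rw [e, hψ _ (hm γ _) _ (hm δ q), mul_smul]
    group
  have b3 : ∀ γ, ∃ x, Mean i (β γ) x := fun γ => Mean.ex hc' (b := s (φ γ)) fun q =>
    ⟨⟨β γ q * (s (φ γ))⁻¹, by simp [MonoidHom.mem_ker, b1, hs]⟩, by simp [i]⟩
  choose ρ hρ using b3
  refine ⟨MonoidHom.mk' ρ fun γ δ => Mean.uniq hi hc' (hρ (γ * δ)) ?_, fun γ => ?_, fun γ h => ?_⟩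
  · rw [funext (b2 γ δ)]
    exact (hρ γ).mul hn (hρ δ) (MulAction.toPerm δ)
  · obtain ⟨a, ha, -⟩ := hρ γ
    have h1 := b1 γ default
    rw [ha, map_mul, show π (i (a default)) = 1 from (a default).2, one_mul] at h1
    exact h1
  · refine Mean.uniq hi hc' (hρ γ) ?_
    have e : β γ = fun _ => 1 := funext fun q => by
      have h1 : γ • q = q := by
        rw [← MulAction.Quotient.mk_smul_out, eq_comm, ← QuotientGroup.out_eq' q, QuotientGroup.eq,
          QuotientGroup.out_eq', smul_eq_mul, ← mul_assoc]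
        exact (h q).1
      simp only [β, h1, (h q).2, mul_one, mul_inv_cancel]
    rw [e]
    exact Mean.one

/-- A nontrivial normal subgroup of an `l`-group contains a central element of order `l`. -/
lemma exists_central {E : Type} [Group E] [Finite E] {l : ℕ} [hl : Fact l.Prime] (hE : IsPGroup l E)
    (N : Subgroup E) [N.Normal] (hN : N ≠ ⊥) : ∃ z ∈ N, z ∈ Subgroup.center E ∧ orderOf z = l := by
  have : Nontrivial N := (Subgroup.nontrivial_iff_ne_bot N).2 hN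
  have hd : l ∣ Nat.card N := by
    obtain ⟨n, hn0, hn⟩ := (hE.to_subgroup N).nontrivial_iff_card.mp inferInstance
    exact hn.symm ▸ dvd_pow_self _ hn0.ne'
  obtain ⟨b, hb, hb1⟩ := (hE.of_equiv ConjAct.toConjAct).exists_fixed_point_of_prime_dvd_card_of_fixed_point
    N hd (a := 1) (fun g => smul_one g)
  have hc : (b : E) ∈ Subgroup.center E := Subgroup.mem_center_iff.2 fun g => by
    have h1 : g * b * g⁻¹ = b := congrArg Subtype.val (hb (ConjAct.toConjAct g))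
    exact mul_inv_eq_iff_eq_mul.1 h1
  have : Nontrivial (N ⊓ Subgroup.center E : Subgroup E) :=
    ⟨⟨1, ⟨b, b.2, hc⟩, fun h => hb1 (Subtype.ext (Subtype.ext_iff.1 h :))⟩⟩
  have hd' : l ∣ Nat.card (N ⊓ Subgroup.center E : Subgroup E) := by
    obtain ⟨n, hn0, hn⟩ := (hE.to_subgroup (N ⊓ Subgroup.center E)).nontrivial_iff_card.mp inferInstance
    exact hn.symm ▸ dvd_pow_self _ hn0.ne'
  obtain ⟨z, hz⟩ := exists_prime_orderOf_dvd_card' l hd'
  exact ⟨z, z.2.1, z.2.2, by rw [Subgroup.orderOf_coe, hz]⟩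

variable {p : ℕ} [Fact p.Prime] {k Ω : Type} [Field k] [IsAlgClosed k] [CharP k p] [Field Ω]
  [IsAlgClosed Ω] [Algebra k Ω]

/-- Lifting into a group of prime power order. -/
theorem lgroup (hW : StmtWeakC) {x : Ω} (hx : Co k x) {Δ : Subgroup (Aut k Ω)} (hΔ : Δ ≤ Gam k x)
    {l : ℕ} [hl : Fact l.Prime] (hlp : l ≠ p) {E' : Type} [Group E'] {ρ' : Aut k Ω → E'}
    (h : IsRep Δ ρ') (n : ℕ) : ∀ (E : Type) [Group E] [Finite E], Nat.card E = n → IsPGroup l E →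
      ∀ π : E →* E', (∀ γ ∈ Δ, ∃ e, π e = ρ' γ) →
        ∃ ρ : Aut k Ω → E, IsRep Δ ρ ∧ ∀ γ ∈ Δ, π (ρ γ) = ρ' γ := by
  induction n using Nat.strong_induction_on with
  | _ n ih =>
  intro E _ _ hn hE π hr
  by_cases hk : π.ker = ⊥
  · have hi := (MonoidHom.ker_eq_bot_iff π).1 hk
    have e : ∀ γ ∈ Δ, π (Function.invFun π (ρ' γ)) = ρ' γ := fun γ hγ => Function.invFun_eq (hr γ hγ)
    refine ⟨fun γ => Function.invFun π (ρ' γ), ⟨fun γ hγ δ hδ => hi ?_, h.cts.comp _⟩, e⟩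
    rw [map_mul, e γ hγ, e δ hδ, e _ (mul_mem hγ hδ), h.mul γ hγ δ hδ]
  obtain ⟨z, z1, z2, z3⟩ := exists_central hE π.ker hk
  have hZ : Subgroup.zpowers z ≤ Subgroup.center E := Subgroup.zpowers_le.2 z2
  have : (Subgroup.zpowers z).Normal := ⟨fun a ha g => by
    rwa [Subgroup.mem_center_iff.1 (hZ ha) g, mul_inv_cancel_right]⟩
  have hc : Nat.card (Subgroup.zpowers z) = l := by rw [Nat.card_zpowers, z3]
  have hlt : Nat.card (E ⧸ Subgroup.zpowers z) < n := by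
    rw [← hn, Subgroup.card_eq_card_quotient_mul_card_subgroup (Subgroup.zpowers z), hc]
    exact lt_mul_of_one_lt_right Nat.card_pos hl.out.one_lt
  obtain ⟨ρ1, h1, h2⟩ := ih _ hlt (E ⧸ Subgroup.zpowers z) rfl (hE.to_quotient _)
    (QuotientGroup.lift _ π (Subgroup.zpowers_le.2 z1)) fun γ hγ => by
      obtain ⟨e, he⟩ := hr γ hγ
      exact ⟨e, he⟩
  obtain ⟨ρ, h3, h4⟩ := hW p k Ω x hx Δ hΔ E _ (QuotientGroup.mk' (Subgroup.zpowers z))
    (QuotientGroup.mk'_surjective _) l hl.out hlp (by rwa [QuotientGroup.ker_mk'])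
    (by rwa [QuotientGroup.ker_mk']) ρ1 h1
  exact ⟨ρ, h3, fun γ hγ => by rw [← h2 γ hγ, ← h4 γ hγ]; rfl⟩

end Weak

open Weak in
theorem blockWeak (hW : StmtWeakC) : StmtWeak := by
  intro p _ k Ω _ _ _ _ _ _ x hx Δ hΔ E E' _ _ _ π hs l hl hlp hk hab ρ' h
  classical
  have : Fact l.Prime := ⟨hl⟩
  have : Finite E' := Finite.of_surjective π hs
  let φ : Δ →* E' := h.hom
  let Et : Subgroup E := φ.range.comap π
  let πt : Et →* φ.range := π.subgroupComap φ.range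
  have hπt : Function.Surjective πt := π.subgroupComap_surjective_of_surjective _ hs
  obtain ⟨P⟩ : Nonempty (Sylow l Et) := inferInstance
  let H : Subgroup Δ := ((P : Subgroup Et).map πt).comap φ.rangeRestrict
  have hH : H.index ∣ (P : Subgroup Et).index := by
    rw [Subgroup.index_comap_of_surjective _ φ.rangeRestrict_surjective]
    exact Subgroup.index_map_dvd _ hπt
  have hH0 : H.index ≠ 0 := fun e => Subgroup.index_ne_zero_of_finite (zero_dvd_iff.1 (e ▸ hH))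
  have : Finite (Δ ⧸ H) := Nat.finite_of_card_ne_zero hH0
  have hc : (Nat.card π.ker).Coprime H.index := by
    obtain ⟨n, hn⟩ := hk.exists_card_eq
    rw [hn]
    exact Nat.Coprime.pow_left n (hl.coprime_iff_not_dvd.2 fun e => P.not_dvd_index (e.trans hH))
  have hle : H.map Δ.subtype ≤ Δ := Subgroup.map_subtype_le H
  obtain ⟨ρ1, h1, h2⟩ := lgroup hW hx (hle.trans hΔ) hlp (h.mono hle) _ (P : Subgroup Et) rfl
    P.isPGroup' (π.comp (Et.subtype.comp (P : Subgroup Et).subtype)) (by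
      rintro _ ⟨γ, ⟨e, he, he'⟩, rfl⟩
      exact ⟨⟨e, he⟩, congrArg Subtype.val he'⟩)
  have h3 := h1.comp (Et.subtype.comp (P : Subgroup Et).subtype)
  have mem : ∀ γ ∈ H, (γ : Aut k Ω) ∈ H.map Δ.subtype := fun γ hγ => ⟨γ, hγ, rfl⟩
  obtain ⟨ρ, r1, r2⟩ := transfer φ π hs hab H hc
    (fun γ => (Et.subtype.comp (P : Subgroup Et).subtype) (ρ1 γ))
    (fun γ hγ δ hδ => h3.mul _ (mem γ hγ) _ (mem δ hδ)) fun γ hγ => h2 _ (mem γ hγ)
  refine ⟨fun γ => if hγ : γ ∈ Δ then ρ ⟨γ, hγ⟩ else 1, ⟨fun γ hγ δ hδ => ?_, ?_⟩, fun γ hγ => ?_⟩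
  · rw [dif_pos hγ, dif_pos hδ, dif_pos (mul_mem hγ hδ), ← map_mul]
    rfl
  · obtain ⟨S, hS⟩ := h.cts
    obtain ⟨S1, hS1⟩ := h3.cts
    have := Fintype.ofFinite (Δ ⧸ H)
    refine ⟨S ∪ Finset.univ.biUnion fun q : Δ ⧸ H => S1.image (q.out : Aut k Ω),
      fun γ hγ δ hδ e => ?_⟩
    beta_reduce
    rw [dif_pos hγ, dif_pos hδ, eq_comm, ← inv_mul_eq_one, ← map_inv, ← map_mul]
    have e1 : φ ⟨γ, hγ⟩ = φ ⟨δ, hδ⟩ := hS γ hγ δ hδ fun s hs => e s (Finset.mem_union_left _ hs)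
    refine r2 _ fun q => ?_
    have m1 : q.out⁻¹ * ((⟨δ, hδ⟩ : Δ)⁻¹ * ⟨γ, hγ⟩) * q.out ∈ H := by
      have : φ.rangeRestrict (q.out⁻¹ * ((⟨δ, hδ⟩ : Δ)⁻¹ * ⟨γ, hγ⟩) * q.out) = 1 := by
        apply Subtype.ext
        change φ _ = 1
        simp [e1]
      rw [Subgroup.mem_comap, this]
      exact one_mem _
    refine ⟨m1, (hS1 _ (mem _ m1) 1 (one_mem _) fun s hs => ?_).trans h3.one⟩
    have e2 := e ((q.out : Aut k Ω) s) (Finset.mem_union_right _
      (Finset.mem_biUnion.2 ⟨q, Finset.mem_univ _, Finset.mem_image_of_mem _ hs⟩))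
    change (q.out : Aut k Ω).symm (δ.symm (γ ((q.out : Aut k Ω) s))) = s
    rw [e2, AlgEquiv.symm_apply_apply, AlgEquiv.symm_apply_apply]
  · beta_reduce
    rw [dif_pos hγ, r1]
    rfl

end Pool.Agent.Lib.IW
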