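import Pool.Agent.Lib.IW.WeakC1

/-! Weak solutions for central kernels of prime order different from the characteristic. -/

open Polynomial IntermediateField

namespace Pool.Agent.Lib.IW

namespace WeakC

variable {k Ω : Type} [Field k] [Field Ω] [Algebra k Ω]

variable (k Ω) in
lemma exists_chi (p : ℕ) [Fact p.Prime] [IsAlgClosed k] [CharP k p] {E : Type} [Group E]
    (Z : Subgroup E) {l : ℕ} (hl : l.Prime) (hlp : l ≠ p) (hc : Nat.card Z = l) :
    ∃ χ : E → k, χ 1 = 1 ∧ (∀ u ∈ Z, ∀ u' ∈ Z, χ (u * u') = χ u * χ u') ∧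
      (∀ u ∈ Z, χ u = 1 → u = 1) ∧ (∀ u ∈ Z, χ u ^ l = 1) ∧
      ∀ ζ : Ω, ζ ^ l = 1 → ∃ u ∈ Z, algebraMap k Ω (χ u) = ζ := by
  classical
  have : Fact l.Prime := ⟨hl⟩
  obtain ⟨ω, hω⟩ := exists_prim (k := k) (Ω := k) p (M := l) fun h =>
    hlp ((Nat.prime_dvd_prime_iff_eq Fact.out hl).1 h).symm
  let e : Z ≃* rootsOfUnity l k := mulEquivOfPrimeCardEq hc hω.card_rootsOfUnity
  let χ : E → k := fun u => if h : u ∈ Z then ((e ⟨u, h⟩ : kˣ) : k) else 0
  have hχ : ∀ u : Z, χ u = ((e u : kˣ) : k) := fun u => dif_pos u.2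
  refine ⟨χ, (hχ 1).trans (by simp), fun u hu u' hu' => ?_, fun u hu h => ?_, fun u hu => ?_,
    fun ζ hζ => ?_⟩
  · rw [show χ u = _ from hχ ⟨u, hu⟩, show χ u' = _ from hχ ⟨u', hu'⟩]
    refine (hχ (⟨u, hu⟩ * ⟨u', hu'⟩)).trans ?_
    rw [map_mul, Subgroup.coe_mul, Units.val_mul]
  · rw [hχ ⟨u, hu⟩, Units.val_eq_one, OneMemClass.coe_eq_one, map_eq_one_iff e e.injective] at h
    exact congrArg Subtype.val h
  · rw [hχ ⟨u, hu⟩]
    exact (mem_rootsOfUnity' _ _).1 (e ⟨u, hu⟩).2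
  · obtain ⟨i, -, rfl⟩ := (hω.map_of_injective (algebraMap k Ω).injective).eq_pow_of_pow_eq_one hζ
    obtain ⟨u, hu⟩ := e.surjective (rootsOfUnity.mkOfPowEq (ω ^ i)
      (by rw [← pow_mul, mul_comm, pow_mul, hω.pow_eq_one, one_pow]))
    refine ⟨u, u.2, ?_⟩
    rw [hχ, hu]
    simp

lemma fixed_ff {x : Ω} (hx : Co k x) (L : IntermediateField k⟮x⟯ Ω) [FiniteDimensional k⟮x⟯ L]
    {Δ : Subgroup (Aut k Ω)} (hΔ : Δ ≤ Gam k x) :
    ∃ F : IntermediateField k Ω, FF F ∧ ∀ a, a ∈ F ↔ a ∈ L ∧ ∀ γ ∈ Δ, γ a = a := by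
  let F' : IntermediateField k⟮x⟯ Ω :=
    { carrier := {a | a ∈ L ∧ ∀ γ ∈ Δ, γ a = a}
      mul_mem' := fun ha hb => ⟨mul_mem ha.1 hb.1, fun γ hγ => by
        rw [map_mul, ha.2 γ hγ, hb.2 γ hγ]⟩
      add_mem' := fun ha hb => ⟨add_mem ha.1 hb.1, fun γ hγ => by
        rw [map_add, ha.2 γ hγ, hb.2 γ hγ]⟩
      algebraMap_mem' := fun c => ⟨L.algebraMap_mem c, fun γ hγ =>
        (IntermediateField.mem_fixingSubgroup_iff _ γ).1 (by rw [fix_adjoin]; exact hΔ hγ) c c.2⟩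
      inv_mem' := fun a ha => ⟨inv_mem ha.1, fun γ hγ => by rw [map_inv₀, ha.2 γ hγ]⟩ }
  have hle : F' ≤ L := fun a ha => ha.1
  have : FiniteDimensional k⟮x⟯ F' :=
    Module.Finite.of_injective (IntermediateField.inclusion hle).toLinearMap
      (IntermediateField.inclusion_injective hle)
  have : Algebra.EssFiniteType k k⟮x⟯ := IntermediateField.essFiniteType_iff.2 hx.ff.1
  have h3 : Algebra.EssFiniteType k F' := .comp k k⟮x⟯ F'
  refine ⟨F'.restrictScalars k, ⟨IntermediateField.essFiniteType_iff.1 h3, x,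
    F'.algebraMap_mem ⟨x, mem_adjoin_simple_self k x⟩, hx⟩, fun a => Iff.rfl⟩

end WeakC

open WeakC in
theorem blockWeakC (hF : Found) (hT : StmtTsen) : StmtWeakC := by
  intro p _ k Ω _ _ _ _ _ _ x hx Δ hΔ E E' _ _ _ π hπ l hl hlp hcen hcard ρ' h
  classical
  have : Finite E' := Finite.of_surjective π hπ
  obtain ⟨y, yinj, ysep, hy⟩ := hF.str p k Ω x hx Δ hΔ E' ρ' h
  obtain ⟨χ, χ1, χm, χi, χl, χs⟩ := exists_chi k Ω p π.ker hl hlp hcard
  let L : IntermediateField k⟮x⟯ Ω := adjoin k⟮x⟯ (Set.range y)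
  have : FiniteDimensional k⟮x⟯ L :=
    finiteDimensional_adjoin fun a ⟨g, e⟩ => e ▸ (ysep g).1.isIntegral
  have yL : ∀ g, y g ∈ L := fun g => subset_adjoin _ _ ⟨g, rfl⟩
  have fixK : ∀ γ ∈ Δ, ∀ c : k⟮x⟯, γ (algebraMap k⟮x⟯ Ω c) = algebraMap k⟮x⟯ Ω c := fun γ hγ c =>
    (IntermediateField.mem_fixingSubgroup_iff _ γ).1 (by rw [fix_adjoin]; exact hΔ hγ) c c.2
  have agree : ∀ γ ∈ Δ, ∀ δ ∈ Δ, ρ' γ = ρ' δ → ∀ a ∈ L, γ a = δ a := by
    intro γ hγ δ hδ e a ha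
    induction ha using IntermediateField.adjoin_induction with
    | mem a ha =>
      obtain ⟨g, rfl⟩ := ha
      rw [hy γ hγ, hy δ hδ, e]
    | algebraMap c => rw [fixK γ hγ, fixK δ hδ]
    | add a b _ _ ha hb => rw [map_add, map_add, ha, hb]
    | inv a _ ha => rw [map_inv₀, map_inv₀, ha]
    | mul a b _ _ ha hb => rw [map_mul, map_mul, ha, hb]
  have stab : ∀ γ ∈ Δ, ∀ a ∈ L, γ a ∈ L := by
    intro γ hγ a ha
    induction ha using IntermediateField.adjoin_induction with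
    | mem a ha =>
      obtain ⟨g, rfl⟩ := ha
      rw [hy γ hγ]
      exact yL _
    | algebraMap c => rw [fixK γ hγ]; exact L.algebraMap_mem c
    | add a b _ _ ha hb => rw [map_add]; exact add_mem ha hb
    | inv a _ ha => rw [map_inv₀]; exact inv_mem ha
    | mul a b _ _ ha hb => rw [map_mul]; exact mul_mem ha hb
  let G : Subgroup E := h.im.comap π
  have hσ : ∀ g : G, ∃ γ ∈ Δ, ρ' γ = π g := fun g => h.mem_im.1 g.2
  choose σ σ1 σ2 using hσ
  let φ : G → L →+* L := fun g =>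
    { toFun := fun a => ⟨σ g a, stab _ (σ1 g) a a.2⟩
      map_one' := Subtype.ext (by simp)
      map_mul' := fun a b => Subtype.ext (by simp)
      map_zero' := Subtype.ext (by simp)
      map_add' := fun a b => Subtype.ext (by simp) }
  have hφ : ∀ γ ∈ Δ, ∀ g : G, π g = ρ' γ → ∀ a : L, (φ g a : Ω) = γ a := fun γ hγ g e a =>
    agree _ (σ1 g) _ hγ ((σ2 g).trans e) a a.2
  have lift : ∀ γ ∈ Δ, ∃ g : G, π g = ρ' γ := fun γ hγ => by
    obtain ⟨g, hg⟩ := hπ (ρ' γ)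
    exact ⟨⟨g, by rw [Subgroup.mem_comap, hg]; exact h.mem_im.2 ⟨γ, hγ, rfl⟩⟩, hg⟩
  let Z : Subgroup G := π.ker.subgroupOf G
  have hZ : ∀ g : G, g ∈ Z ↔ (g : E) ∈ π.ker := fun g => Iff.rfl
  have kerG : π.ker ≤ G := fun u hu => by
    rw [Subgroup.mem_comap, MonoidHom.mem_ker.1 hu]
    exact one_mem _
  have : CharP Ω p := charP_of_injective_algebraMap (algebraMap k Ω).injective p
  have A : Act φ Z := by
    refine ⟨fun g g' a => Subtype.ext ?_, fun g => ⟨fun hg a => Subtype.ext ?_, fun hg => ?_⟩, ?_⟩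
    · refine hφ (σ g * σ g') (mul_mem (σ1 g) (σ1 g')) _ ?_ a
      rw [h.mul _ (σ1 g) _ (σ1 g'), σ2, σ2, Subgroup.coe_mul, map_mul]
    · exact hφ 1 Δ.one_mem g (by rw [h.one]; exact hg) a
    · have e : σ g (y 1) = y 1 := congrArg Subtype.val (hg ⟨y 1, yL 1⟩)
      rw [hy _ (σ1 g), mul_one, σ2] at e
      exact yinj e
    · rw [Nat.card_congr (Subgroup.subgroupOfEquivOfLe kerG).toEquiv, hcard]
      intro h0
      have h1 : (l : Ω) = 0 := by simpa using congrArg Subtype.val h0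
      exact hlp ((Nat.prime_dvd_prime_iff_eq Fact.out hl).1 ((CharP.cast_eq_zero_iff Ω p l).1 h1)).symm
  have hC : C1 φ := by
    obtain ⟨F, hFF, memF⟩ := fixed_ff hx L hΔ
    let j : F →+* L :=
      { toFun := fun a => ⟨a, ((memF a).1 a.2).1⟩
        map_one' := rfl
        map_mul' := fun a b => rfl
        map_zero' := rfl
        map_add' := fun a b => rfl }
    intro ι _ m P hP hm hc hinv
    have hr : P ∈ Set.range (MvPolynomial.map j) := by
      rw [MvPolynomial.mem_range_map_iff_coeffs_subset]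
      intro c hc
      obtain ⟨d, -, rfl⟩ := MvPolynomial.mem_coeffs_iff.1 hc
      refine ⟨⟨(P.coeff d : L), (memF _).2 ⟨(P.coeff d).2, fun γ hγ => ?_⟩⟩, rfl⟩
      obtain ⟨g, hg⟩ := lift γ hγ
      rw [← hφ γ hγ g hg, ← MvPolynomial.coeff_map, hinv]
    obtain ⟨P', rfl⟩ := hr
    obtain ⟨t, t0, ht⟩ := hT k Ω F hFF ι m P' (hP.of_map j.injective) hm hc
    refine ⟨fun i => j (t i), fun h0 => t0 (funext fun i => ?_), fun g i => Subtype.ext ?_, ?_⟩
    · exact (map_eq_zero_iff j j.injective).1 (congrFun h0 i)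
    · exact ((memF _).1 (t i).2).2 _ (σ1 g)
    · have := MvPolynomial.map_eval j t P'
      rw [ht, map_zero] at this
      exact this.symm
  let χ' : G → L := fun g => algebraMap k L (χ g)
  have hχ' : ∀ g : G, (χ' g : Ω) = algebraMap k Ω (χ g) := fun g => rfl
  obtain ⟨b, β, b1, b2, β0, hβ⟩ := split (χ := χ') (l := l) A hC
    (fun u hu => Subgroup.mem_center_iff.2 fun g => Subtype.ext
      (Subgroup.mem_center_iff.1 (hcen hu) g))
    (by simp [χ', χ1]) (fun u hu u' hu' => by simp [χ', χm _ ((hZ _).1 hu) _ ((hZ _).1 hu')])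
    (fun g u _ => Subtype.ext ((σ g).commutes _))
    (fun u hu => by simp only [χ']; rw [← map_pow, χl _ ((hZ _).1 hu), map_one])
  obtain ⟨r, hr⟩ := IsAlgClosed.exists_pow_nat_eq ((β : Ω)⁻¹) hl.pos
  have β1 : (β : Ω) ≠ 0 := fun h0 => β0 (Subtype.ext h0)
  have r0 : r ≠ 0 := by
    rintro rfl
    rw [zero_pow hl.ne_zero] at hr
    exact inv_ne_zero β1 hr.symm
  have b0 : ∀ g, (b g : Ω) ≠ 0 := fun g h0 => by
    have := hβ g
    rw [show b g = 0 from Subtype.ext h0, zero_pow hl.ne_zero, zero_mul] at this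
    exact β0 this.symm
  have bu : ∀ u ∈ Z, ∀ g, (b (u * g) : Ω) = algebraMap k Ω (χ u) * b g := fun u hu g => by
    rw [b1, b2 u hu, (A.ker u).1 hu]
    rfl
  have uniq : ∀ g g' : G, π g = π g' → (b g : Ω) * r = b g' * r → g = g' := by
    intro g g' e1 e2
    have hu : g * g'⁻¹ ∈ Z := by
      rw [hZ, MonoidHom.mem_ker, Subgroup.coe_mul, Subgroup.coe_inv, map_mul, map_inv, e1,
        mul_inv_cancel]
    have e3 := bu _ hu g'
    rw [inv_mul_cancel_right, mul_right_cancel₀ r0 e2] at e3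
    have e4 : algebraMap k Ω (χ (g * g'⁻¹ : G)) = 1 := by
      have := b0 g'
      field_simp at e3
      exact e3.symm
    have e5 := χi _ hu ((map_eq_one_iff _ (algebraMap k Ω).injective).1 e4)
    exact mul_inv_eq_one.1 (Subtype.ext e5)
  have ex : ∀ γ : Aut k Ω, ∃ g : G, γ ∈ Δ → π g = ρ' γ ∧ γ r = b g * r := by
    intro γ
    by_cases hγ : γ ∈ Δ
    swap
    · exact ⟨1, fun h => absurd h hγ⟩
    obtain ⟨g, hg⟩ := lift γ hγ
    have e1 : (b g : Ω) ^ l * γ β = β := by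
      rw [← hφ γ hγ g hg]
      exact_mod_cast congrArg Subtype.val (hβ g)
    have e2 : (γ r / (b g * r)) ^ l = 1 := by
      rw [div_pow, mul_pow, ← map_pow, hr, map_inv₀, div_eq_one_iff_eq
        (mul_ne_zero (pow_ne_zero _ (b0 g)) (inv_ne_zero β1))]
      have : γ β ≠ 0 := by simpa using β0
      field_simp
      linear_combination -e1
    obtain ⟨u, hu, e3⟩ := χs _ e2
    refine ⟨⟨u, kerG hu⟩ * g, fun _ => ⟨?_, ?_⟩⟩
    · rw [Subgroup.coe_mul, map_mul, MonoidHom.mem_ker.1 hu, one_mul, hg]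
    · rw [bu ⟨u, kerG hu⟩ hu, e3, mul_assoc, div_mul_cancel₀ _ (mul_ne_zero (b0 g) r0)]
  choose ρ hρ using ex
  refine ⟨fun γ => ρ γ, ⟨fun γ hγ δ hδ => ?_, ?_⟩, fun γ hγ => (hρ γ hγ).1⟩
  · rw [← Subgroup.coe_mul]
    congr 1
    obtain ⟨a1, a2⟩ := hρ γ hγ
    obtain ⟨c1, c2⟩ := hρ δ hδ
    obtain ⟨d1, d2⟩ := hρ _ (mul_mem hγ hδ)
    apply uniq
    · rw [d1, h.mul _ hγ _ hδ, Subgroup.coe_mul, map_mul, a1, c1]
    · rw [← d2, AlgEquiv.mul_apply, c2, map_mul, a2, b1, ← hφ γ hγ _ a1]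
      push_cast
      ring
  · obtain ⟨S, hS⟩ := h.cts
    refine ⟨insert r S, fun γ hγ δ hδ e => ?_⟩
    beta_reduce
    congr 1
    apply uniq
    · rw [(hρ γ hγ).1, (hρ δ hδ).1]
      exact hS γ hγ δ hδ fun s hs => e s (Finset.mem_insert_of_mem hs)
    · rw [← (hρ γ hγ).2, ← (hρ δ hδ).2, e r (Finset.mem_insert_self _ _)]

end Pool.Agent.Lib.IW
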