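import Pool.Agent.Lib.IW.ASM
import Pool.Agent.Lib.IW.ASW
import Pool.Agent.Lib.IW.Add
import Pool.Agent.Lib.IW.Bas
import Pool.Agent.Lib.IW.Br1
import Pool.Agent.Lib.IW.Br2
import Pool.Agent.Lib.IW.Cert
import Pool.Agent.Lib.IW.Chev
import Pool.Agent.Lib.IW.Cin
import Pool.Agent.Lib.IW.Conj
import Pool.Agent.Lib.IW.Core
import Pool.Agent.Lib.IW.Dens
import Pool.Agent.Lib.IW.EvalN
import Pool.Agent.Lib.IW.EvalT
import Pool.Agent.Lib.IW.Fact
import Pool.Agent.Lib.IW.Final
import Pool.Agent.Lib.IW.Fld
import Pool.Agent.Lib.IW.GN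
import Pool.Agent.Lib.IW.Gal
import Pool.Agent.Lib.IW.Grp
import Pool.Agent.Lib.IW.Heis
import Pool.Agent.Lib.IW.Hens
import Pool.Agent.Lib.IW.Ind
import Pool.Agent.Lib.IW.Inter
import Pool.Agent.Lib.IW.Khat
import Pool.Agent.Lib.IW.Kum
import Pool.Agent.Lib.IW.LG
import Pool.Agent.Lib.IW.LG0
import Pool.Agent.Lib.IW.LGc
import Pool.Agent.Lib.IW.Lift
import Pool.Agent.Lib.IW.Lin
import Pool.Agent.Lib.IW.LocP
import Pool.Agent.Lib.IW.Noe
import Pool.Agent.Lib.IW.Norm
import Pool.Agent.Lib.IW.PD
import Pool.Agent.Lib.IW.PD0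
import Pool.Agent.Lib.IW.PD2
import Pool.Agent.Lib.IW.PD3
import Pool.Agent.Lib.IW.PL
import Pool.Agent.Lib.IW.PicA
import Pool.Agent.Lib.IW.PicB
import Pool.Agent.Lib.IW.Prop
import Pool.Agent.Lib.IW.Pull
import Pool.Agent.Lib.IW.Ram
import Pool.Agent.Lib.IW.Res
import Pool.Agent.Lib.IW.Spec
import Pool.Agent.Lib.IW.SpecRep
import Pool.Agent.Lib.IW.Steer
import Pool.Agent.Lib.IW.StepC
import Pool.Agent.Lib.IW.StepL
import Pool.Agent.Lib.IW.StepP
import Pool.Agent.Lib.IW.Str
import Pool.Agent.Lib.IW.TP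
import Pool.Agent.Lib.IW.Tame1
import Pool.Agent.Lib.IW.Tame2
import Pool.Agent.Lib.IW.Tsen
import Pool.Agent.Lib.IW.Unif
import Pool.Agent.Lib.IW.Weak
import Pool.Agent.Lib.IW.WeakC

/-! Assembly of all blocks. -/

namespace Pool.Agent.Lib.IW

theorem found : Found :=
  have hB := blockBas
  have hC := blockConj
  have hG := blockGal
  have hS := blockStr hB hG
  have hL := blockFld hB hG hS
  have hU := blockUnif hB
  have hD := blockDens hB
  have hH := blockHens hC hB hG hU
  have h1 := blockTame1 hC hB hG hU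
  have h2 := blockTame2 hC hB hG hU hD h1
  have hR := blockRes hB hG
  ⟨hC, hB, hG, hS, hL, hU, hD, hH, h1, h2, blockRam hC hB hG hL hU blockNorm, blockChev, hR,
    blockPull hC hB hG hD hH hR, blockKum hB hG hL hH h2, blockCert hC hB hG hL hU⟩

theorem pd : StmtPD :=
  have hI := blockInter blockGN
  blockPD blockBas blockKhat blockGN hI (blockEvalN blockGN) blockEof (blockPD0 blockEof)
    (blockPD2 (blockFact (blockAdd blockGN)) hI blockEof)
    (blockPD3 blockBas found.dens blockChev (blockEvalT blockGN) blockEof)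

theorem tp : StmtTP :=
  blockTP found (blockSpec found) (blockSpecRep found blockNoe (blockSpec found))

theorem pl : StmtPL := blockPL found pd (blockCore found) (blockCin blockBas) tp

theorem pic : StmtPic :=
  blockPic (blockPicA found pd (blockCore found)) (blockPicB found blockNorm) found

theorem weak : StmtWeak := blockWeak (blockWeakC found (blockTsen blockBas))

theorem lg0 : StmtLG0 := blockLG0 found weak (blockInd found pic)

theorem lgc : StmtLGc := blockLGc found weak

theorem lift : StmtLift :=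
  have hA := blockASW found blockLin
  have hP := blockProp found lg0 lgc
  blockLift blockGrp (blockStepP found hA (blockASM found blockLin) (blockLocP found blockLin hA) pl)
    (blockStepL found weak (blockLG found weak lg0) lgc hP (blockHeis found lg0 lgc hP)
      (blockSteer found) pl) (blockStepC found lgc)

end Pool.Agent.Lib.IW
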