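import Pool.Agent.Lib.IW.Defs
import Pool.Agent.Lib.MP_ba4752_ag.Quot

/-! Block statements for the inertia-conjecture project (IW). See the plan in the team store. -/

open Polynomial IntermediateField
open scoped Pointwise

namespace Pool.Agent.Lib.IW

/-! ### Foundations -/

/-- Conjugacy of the extensions of a valuation ring. -/
def StmtConj : Prop := ∀ (k Ω : Type) [Field k] [Field Ω] [IsAlgClosed Ω] [Algebra k Ω]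
  (F : IntermediateField k Ω), (∀ y : Ω, IsAlgebraic F y) → ∀ W W' : ValuationSubring Ω,
    Agr F W W' → ∃ γ ∈ F.fixingSubgroup, γ • W = W'

/-- Elementary facts on places and coordinates. -/
structure StmtBas : Prop where
  coOf : ∀ (k Ω : Type) [Field k] [Field Ω] [Algebra k Ω] (x z : Ω), Co k x →
    Transcendental k z → Co k z
  resid : ∀ (k Ω : Type) [Field k] [IsAlgClosed k] [Field Ω] [Algebra k Ω] (x : Ω), Co k x →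
    ∀ W : ValuationSubring Ω, IsPl k W → ∀ y ∈ W, ∃ c : k, W.valuation (y - algebraMap k Ω c) < 1
  move : ∀ (k Ω : Type) [Field k] [IsAlgClosed k] [Field Ω] [Algebra k Ω] (x : Ω), Co k x →
    ∀ W : ValuationSubring Ω, IsPl k W → ∀ γ : Aut k Ω, γ • W = W →
      (∀ y ∈ W, W.valuation (γ y - y) < 1) ∧ ∀ y, W.valuation y < 1 → W.valuation (γ y) < 1
  rank : ∀ (k Ω : Type) [Field k] [IsAlgClosed k] [Field Ω] [Algebra k Ω] (x : Ω), Co k x →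
    ∀ W : ValuationSubring Ω, IsPl k W → ∀ u : Ω, u ≠ 0 → W.valuation u < 1 → ∀ y : Ω, y ≠ 0 →
      ∃ e : ℕ, 0 < e ∧ ∃ i : ℤ, W.valuation y ^ e = W.valuation u ^ i
  exAt : ∀ (k Ω : Type) [Field k] [Field Ω] [Algebra k Ω] (x : Ω), Co k x → ∀ a : k,
    ∃ W : ValuationSubring Ω, IsPl k W ∧ W.valuation (x - algebraMap k Ω a) < 1
  exInf : ∀ (k Ω : Type) [Field k] [Field Ω] [Algebra k Ω] (x : Ω), Co k x →
    ∃ W : ValuationSubring Ω, IsPl k W ∧ x ∉ W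
  smulPl : ∀ (k Ω : Type) [Field k] [Field Ω] [Algebra k Ω] (W : ValuationSubring Ω), IsPl k W →
    ∀ γ : Aut k Ω, IsPl k (γ • W) ∧ (∀ y, γ y ∈ γ • W ↔ y ∈ W) ∧
      (∀ y, (γ • W).valuation (γ y) < 1 ↔ W.valuation y < 1) ∧
      ∀ y y', (γ • W).valuation (γ y) ≤ (γ • W).valuation (γ y') ↔ W.valuation y ≤ W.valuation y'
  agrInf : ∀ (k Ω : Type) [Field k] [Field Ω] [Algebra k Ω] (x : Ω), Transcendental k x →
    ∀ W W' : ValuationSubring Ω, IsPl k W → IsPl k W' → x ∉ W → x ∉ W' → Agr k⟮x⟯ W W'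
  agrAt : ∀ (k Ω : Type) [Field k] [Field Ω] [Algebra k Ω] (x : Ω), Transcendental k x →
    ∀ (a : k) (W W' : ValuationSubring Ω), IsPl k W → IsPl k W' →
      W.valuation (x - algebraMap k Ω a) < 1 → W'.valuation (x - algebraMap k Ω a) < 1 →
      Agr k⟮x⟯ W W'
  unifInf : ∀ (k Ω : Type) [Field k] [Field Ω] [Algebra k Ω] (x : Ω), Transcendental k x →
    ∀ W : ValuationSubring Ω, IsPl k W → x ∉ W → IsUnif k⟮x⟯ W x⁻¹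
  unifAt : ∀ (k Ω : Type) [Field k] [Field Ω] [Algebra k Ω] (x : Ω), Transcendental k x →
    ∀ (a : k) (W : ValuationSubring Ω), IsPl k W → W.valuation (x - algebraMap k Ω a) < 1 →
      IsUnif k⟮x⟯ W (x - algebraMap k Ω a)
  intg : ∀ (k Ω : Type) [Field k] [Field Ω] [Algebra k Ω] (x y : Ω),
    Intg k x y ↔ IsIntegral (Algebra.adjoin k {x}) y
  intgPoly : ∀ (k Ω : Type) [Field k] [Field Ω] [Algebra k Ω] (x y : Ω), Transcendental k x →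
    Intg k x y → y ∈ k⟮x⟯ → ∃ P : k[X], y = aeval x P
  infPoly : ∀ (k Ω : Type) [Field k] [Field Ω] [Algebra k Ω] (x : Ω),
    ∀ W : ValuationSubring Ω, IsPl k W → x ∉ W → ∀ P : k[X], P ≠ 0 →
      W.valuation (aeval x P) = W.valuation x ^ P.natDegree
  unitFix : ∀ (k Ω : Type) [Field k] [IsAlgClosed k] [Field Ω] [Algebra k Ω] (x : Ω), Co k x →
    ∀ W : ValuationSubring Ω, IsPl k W → ∀ γ : Aut k Ω, γ • W = W → ∀ (y : Ω) (M : ℕ),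
      (M : k) ≠ 0 → W.valuation y = 1 → γ (y ^ M) = y ^ M → γ y = y
  valFix : ∀ (k Ω : Type) [Field k] [IsAlgClosed k] [Field Ω] [Algebra k Ω] (x : Ω), Co k x →
    ∀ W : ValuationSubring Ω, IsPl k W → ∀ γ : Aut k Ω, γ • W = W → ∀ u : Ω, u ≠ 0 →
      W.valuation u < 1 → γ u = u → ∀ y, W.valuation (γ y) = W.valuation y
  exOver : ∀ (K Ω : Type) [Field K] [Field Ω] (f : K →+* Ω) (η : ValuationSubring K),
    ∃ W : ValuationSubring Ω, W.comap f = η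
  exAut : ∀ (k Ω : Type) [Field k] [Field Ω] [IsAlgClosed Ω] [Algebra k Ω] (x t : Ω), Co k x →
    Co k t → ∃ θ : Aut k Ω, θ x = t
  exEmb : ∀ (k Ω Ω' : Type) [Field k] [Field Ω] [Algebra k Ω] [Field Ω'] [IsAlgClosed Ω']
    [Algebra k Ω'] (x : Ω) (t : Ω'), Co k x → Transcendental k t →
      ∃ ι : Ω →ₐ[k] Ω', ι x = t

/-- Fixed elements are purely inseparable; Galois correspondence for open subgroups. -/
structure StmtGal : Prop where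
  insep : ∀ (p : ℕ) [Fact p.Prime] (k Ω : Type) [Field k] [CharP k p] [Field Ω] [IsAlgClosed Ω]
    [Algebra k Ω] (F : IntermediateField k Ω), (∀ y : Ω, IsAlgebraic F y) → ∀ y : Ω,
      (∀ γ ∈ F.fixingSubgroup, γ y = y) → ∃ N : ℕ, y ^ p ^ N ∈ F
  sep : ∀ (k Ω : Type) [Field k] [Field Ω] [IsAlgClosed Ω]
    [Algebra k Ω] (F : IntermediateField k Ω), (∀ y : Ω, IsAlgebraic F y) → ∀ y : Ω,
      IsSeparable F y → (∀ γ ∈ F.fixingSubgroup, γ y = y) → y ∈ F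
  powSep : ∀ (p : ℕ) [Fact p.Prime] (k Ω : Type) [Field k] [CharP k p] [Field Ω]
    [Algebra k Ω] (F : IntermediateField k Ω) (y : Ω), IsAlgebraic F y →
      ∃ N : ℕ, IsSeparable F (y ^ p ^ N)
  conjRoot : ∀ (k Ω : Type) [Field k] [Field Ω] [IsAlgClosed Ω]
    [Algebra k Ω] (F : IntermediateField k Ω), (∀ y : Ω, IsAlgebraic F y) → ∀ y y' : Ω,
      aeval y' (minpoly F y) = 0 → ∃ γ ∈ F.fixingSubgroup, γ y = y'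
  cor : ∀ (p : ℕ) [Fact p.Prime] (k Ω : Type) [Field k] [CharP k p] [Field Ω] [IsAlgClosed Ω]
    [Algebra k Ω] (F : IntermediateField k Ω), (∀ y : Ω, IsAlgebraic F y) →
      ∀ (Δ : Subgroup (Aut k Ω)) (S : Finset Ω), Δ ≤ F.fixingSubgroup →
        (∀ γ ∈ F.fixingSubgroup, (∀ s ∈ S, γ s = s) → γ ∈ Δ) → ∀ γ ∈ F.fixingSubgroup,
          (∀ y : Ω, IsSeparable F y → (∀ δ ∈ Δ, δ y = y) → γ y = y) → γ ∈ Δ
  closure : ∀ (p : ℕ) [Fact p.Prime] (k Ω : Type) [Field k] [CharP k p] [Field Ω] [IsAlgClosed Ω]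
    [Algebra k Ω] (F : IntermediateField k Ω), (∀ y : Ω, IsAlgebraic F y) → ∀ S : Finset Ω,
      ∃ L : IntermediateField F Ω, FiniteDimensional F L ∧ IsGalois F L ∧
        ∀ s ∈ S, ∃ N : ℕ, s ^ p ^ N ∈ L

/-- A representation is given by a permuted family of separable integral elements. -/
def StmtStr : Prop := ∀ (p : ℕ) [Fact p.Prime] (k Ω : Type) [Field k] [IsAlgClosed k] [CharP k p]
  [Field Ω] [IsAlgClosed Ω] [Algebra k Ω] (x : Ω), Co k x → ∀ Δ : Subgroup (Aut k Ω),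
    Δ ≤ Gam k x → ∀ (G : Type) [Group G] [Finite G] (ρ : Aut k Ω → G), IsRep Δ ρ →
      ∃ y : G → Ω, Function.Injective y ∧ (∀ h, IsSeparable k⟮x⟯ (y h) ∧ Intg k x (y h)) ∧
        ∀ γ ∈ Δ, ∀ h, γ (y h) = y (ρ γ * h)

/-- The field cut out by a representation; finiteness of ramification; trace elements. -/
structure StmtFld : Prop where
  fld : ∀ (p : ℕ) [Fact p.Prime] (k Ω : Type) [Field k] [IsAlgClosed k] [CharP k p]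
    [Field Ω] [IsAlgClosed Ω] [Algebra k Ω] (x : Ω), Co k x →
      ∀ (G : Type) [Group G] [Finite G] (ρ : Aut k Ω → G), IsRep (Gam k x) ρ →
        ∃ L : IntermediateField k Ω, L.FG ∧ x ∈ L ∧ (∀ y ∈ L, IsSeparable k⟮x⟯ y) ∧
          (∀ γ ∈ Gam k x, ∀ y ∈ L, γ y ∈ L) ∧
          (∀ γ : Aut k Ω, γ ∈ L.fixingSubgroup ↔ γ ∈ Gam k x ∧ ρ γ = 1) ∧
          ∀ y : Ω, IsSeparable k⟮x⟯ y → (∀ γ ∈ Gam k x, ρ γ = 1 → γ y = y) → y ∈ L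
  finRam : ∀ (p : ℕ) [Fact p.Prime] (k Ω : Type) [Field k] [IsAlgClosed k] [CharP k p]
    [Field Ω] [IsAlgClosed Ω] [Algebra k Ω] (x : Ω), Co k x →
      ∀ (G : Type) [Group G] [Finite G] (ρ : Aut k Ω → G), IsRep (Gam k x) ρ →
        ∃ T : Finset k, ∀ W : ValuationSubring Ω, IsPl k W → x ∈ W →
          (∀ a ∈ T, ¬ W.valuation (x - algebraMap k Ω a) < 1) → ∀ γ ∈ Dec k x W, ρ γ = 1
  tr : ∀ (p : ℕ) [Fact p.Prime] (k Ω : Type) [Field k] [IsAlgClosed k] [CharP k p]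
    [Field Ω] [IsAlgClosed Ω] [Algebra k Ω] (x : Ω), Co k x → ∀ Δ : Subgroup (Aut k Ω),
      Δ ≤ Gam k x → ∀ (G : Type) [Group G] [Finite G] (ρ : Aut k Ω → G) (h : IsRep Δ ρ),
        ∃ t : G → Ω, (∀ g, IsSeparable k⟮x⟯ (t g)) ∧ (∀ γ ∈ Δ, ∀ g, γ (t g) = t (ρ γ * g)) ∧
          ∑ᶠ g ∈ h.im, t g = 1
  h90 : ∀ (p : ℕ) [Fact p.Prime] (k Ω : Type) [Field k] [IsAlgClosed k] [CharP k p]
    [Field Ω] [IsAlgClosed Ω] [Algebra k Ω] (x : Ω), Co k x → ∀ Δ : Subgroup (Aut k Ω),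
      Δ ≤ Gam k x → ∀ (G : Type) [Group G] [Finite G] (ρ : Aut k Ω → G), IsRep Δ ρ →
        ∀ χ : G →* kˣ, ∃ φ : Ω, φ ≠ 0 ∧ IsSeparable k⟮x⟯ φ ∧
          ∀ γ ∈ Δ, γ φ = algebraMap k Ω (χ (ρ γ) : k) * φ

/-- Uniformisers and approximation. -/
structure StmtUnif : Prop where
  ex : ∀ (k Ω : Type) [Field k] [IsAlgClosed k] [Field Ω] [Algebra k Ω]
    (F : IntermediateField k Ω), FF F → ∀ W : ValuationSubring Ω, IsPl k W → ∃ π, IsUnif F W π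
  val : ∀ (k Ω : Type) [Field k] [IsAlgClosed k] [Field Ω] [Algebra k Ω]
    (F : IntermediateField k Ω), FF F → ∀ W : ValuationSubring Ω, IsPl k W → ∀ π, IsUnif F W π →
      ∀ y ∈ F, y ≠ 0 → ∃ i : ℤ, W.valuation y = W.valuation π ^ i
  approx : ∀ (k Ω : Type) [Field k] [IsAlgClosed k] [Field Ω] [Algebra k Ω]
    (F : IntermediateField k Ω), FF F → ∀ (ι : Type) [Finite ι] (W : ι → ValuationSubring Ω)
      (π : ι → Ω), (∀ i, IsPl k (W i)) → (∀ i, IsUnif F (W i) (π i)) →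
      (∀ i j, Agr F (W i) (W j) → i = j) → ∀ (b : ι → Ω) (n : ι → ℤ), (∀ i, b i ∈ F) →
        ∃ s ∈ F, ∀ i, (W i).valuation (s - b i) ≤ (W i).valuation (π i) ^ n i
  fin : ∀ (k Ω : Type) [Field k] [IsAlgClosed k] [Field Ω] [Algebra k Ω]
    (F : IntermediateField k Ω), FF F → ∀ y ∈ F, ∃ T : Finset (ValuationSubring Ω),
      (∀ W ∈ T, IsPl k W ∧ y ∉ W) ∧ (∀ W ∈ T, ∀ W' ∈ T, Agr F W W' → W = W') ∧
      ∀ W, IsPl k W → y ∉ W → ∃ W' ∈ T, Agr F W W'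
  sepp : ∀ (k Ω : Type) [Field k] [IsAlgClosed k] [Field Ω] [Algebra k Ω] (x : Ω), Co k x →
    ∀ L : IntermediateField k Ω, L.FG → x ∈ L → ∀ (W₀ : ValuationSubring Ω)
      (T : Finset (ValuationSubring Ω)), IsPl k W₀ → x ∈ W₀ →
      (∀ W ∈ T, IsPl k W ∧ x ∈ W ∧ ¬ Agr L W W₀) →
        ∃ s ∈ L, Intg k x s ∧ W₀.valuation (s - 1) < 1 ∧ ∀ W ∈ T, W.valuation s < 1

/-- Expansions in a uniformiser; the decomposition group fixes unramified subfields. -/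
structure StmtDens : Prop where
  expand : ∀ (k Ω : Type) [Field k] [IsAlgClosed k] [Field Ω] [Algebra k Ω] (x : Ω), Co k x →
    ∀ W : ValuationSubring Ω, IsPl k W → ∀ π : Ω, π ≠ 0 → W.valuation π < 1 →
      ∀ E : IntermediateField k Ω, π ∈ E →
        (∀ y ∈ E, y ≠ 0 → ∃ i : ℤ, W.valuation y = W.valuation π ^ i) → ∀ y ∈ E, ∀ n : ℤ,
          ∃ (s : Finset ℤ) (c : ℤ → k), (∀ i ∈ s, i < n) ∧
            W.valuation (y - ∑ i ∈ s, algebraMap k Ω (c i) * π ^ i) ≤ W.valuation π ^ n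
  fix : ∀ (k Ω : Type) [Field k] [IsAlgClosed k] [Field Ω] [Algebra k Ω] (x : Ω), Co k x →
    ∀ W : ValuationSubring Ω, IsPl k W → ∀ π : Ω, π ≠ 0 → W.valuation π < 1 →
      ∀ E : IntermediateField k Ω, π ∈ E →
        (∀ y ∈ E, y ≠ 0 → ∃ i : ℤ, W.valuation y = W.valuation π ^ i) →
          ∀ γ : Aut k Ω, γ • W = W → γ π = π → ∀ y ∈ E, γ y = y

/-- The decomposition field is unramified; norms from the field of a local representation. -/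
structure StmtHens : Prop where
  hens : ∀ (p : ℕ) [Fact p.Prime] (k Ω : Type) [Field k] [IsAlgClosed k] [CharP k p]
    [Field Ω] [IsAlgClosed Ω] [Algebra k Ω] (F : IntermediateField k Ω), FF F →
      ∀ W : ValuationSubring Ω, IsPl k W → ∀ π, IsUnif F W π → ∀ y : Ω, y ≠ 0 → IsSeparable F y →
        (∀ γ ∈ DecF F W, γ y = y) → ∃ i : ℤ, W.valuation y = W.valuation π ^ i
  nrm : ∀ (p : ℕ) [Fact p.Prime] (k Ω : Type) [Field k] [IsAlgClosed k] [CharP k p]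
    [Field Ω] [IsAlgClosed Ω] [Algebra k Ω] (F : IntermediateField k Ω), FF F →
      ∀ W : ValuationSubring Ω, IsPl k W → ∀ π, IsUnif F W π →
        ∀ (G : Type) [Group G] [Finite G] (ρ : Aut k Ω → G) (h : IsRep (DecF F W) ρ),
          ∀ y : Ω, y ≠ 0 → IsSeparable F y → (∀ γ ∈ DecF F W, ρ γ = 1 → γ y = y) →
            ∃ i : ℤ, W.valuation y ^ Nat.card h.im = W.valuation π ^ i

/-- The tame character is onto. -/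
def StmtTame1 : Prop := ∀ (p : ℕ) [Fact p.Prime] (k Ω : Type) [Field k] [IsAlgClosed k]
  [CharP k p] [Field Ω] [IsAlgClosed Ω] [Algebra k Ω] (F : IntermediateField k Ω), FF F →
    ∀ W : ValuationSubring Ω, IsPl k W → ∀ π, IsUnif F W π → ∀ n : ℕ, ¬ p ∣ n →
      ∀ r ζ : Ω, r ^ n = π → ζ ^ n = 1 → ∃ γ ∈ DecF F W, γ r = ζ * r

/-- The kernel of the tame character maps to `p`-elements. -/
def StmtTame2 : Prop := ∀ (p : ℕ) [Fact p.Prime] (k Ω : Type) [Field k] [IsAlgClosed k]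
  [CharP k p] [Field Ω] [IsAlgClosed Ω] [Algebra k Ω] (F : IntermediateField k Ω), FF F →
    ∀ W : ValuationSubring Ω, IsPl k W → ∀ π, IsUnif F W π →
      ∀ (G : Type) [Group G] [Finite G] (ρ : Aut k Ω → G), IsRep (DecF F W) ρ →
        ∀ n : ℕ, ¬ p ∣ n → (∀ γ ∈ DecF F W, ∃ j : ℕ, ρ γ ^ (n * p ^ j) = 1) →
          ∀ r : Ω, r ^ n = π → ∀ γ ∈ DecF F W, γ r = r → ∃ j : ℕ, ρ γ ^ p ^ j = 1

/-- The ramification index equals the order of the decomposition group. -/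
def StmtRam : Prop := ∀ (p : ℕ) [Fact p.Prime] (k Ω : Type) [Field k] [IsAlgClosed k]
  [CharP k p] [Field Ω] [IsAlgClosed Ω] [Algebra k Ω] (x : Ω), Co k x →
    ∀ (G : Type) [Group G] [Finite G] (ρ : Aut k Ω → G), IsRep (Gam k x) ρ →
      ∀ W : ValuationSubring Ω, IsPl k W → x ∉ W → ∀ I : Subgroup G,
        ρ '' (Dec k x W : Set (Aut k Ω)) = (I : Set G) →
          ∃ ϖ : Ω, IsSeparable k⟮x⟯ ϖ ∧ (∀ γ ∈ Gam k x, ρ γ = 1 → γ ϖ = ϖ) ∧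
            ∀ W' : ValuationSubring Ω, IsPl k W' → x ∉ W' →
              W'.valuation (ϖ ^ Nat.card I * x) = 1

/-- Extension of a homomorphism to an algebraically closed field to a place. -/
def StmtChev : Prop := ∀ (Ω E : Type) [Field Ω] [Field E] [IsAlgClosed E] (R : Subring Ω)
  (ψ : R →+* E), ∃ (O : ValuationSubring Ω) (ψ' : Ω → E), (∀ a ∈ R, a ∈ O) ∧
    (∀ a : R, ψ' a = ψ a) ∧ (∀ a ∈ O, ∀ b ∈ O, ψ' (a + b) = ψ' a + ψ' b) ∧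
    (∀ a ∈ O, ∀ b ∈ O, ψ' (a * b) = ψ' a * ψ' b) ∧ ∀ a ∈ O, ψ' a ≠ 0 → a⁻¹ ∈ O

/-- Restriction along an embedding, and pull-back of representations. -/
structure StmtRes : Prop where
  spec : ∀ (k 𝕜 Ω Ω' : Type) [Field k] [Field 𝕜] [Field Ω] [IsAlgClosed Ω] [Field Ω']
    [Algebra k 𝕜] [Algebra k Ω] [Algebra k Ω'] [Algebra 𝕜 Ω'] [IsScalarTower k 𝕜 Ω'] (x : Ω),
      Co k x → ∀ (ι : Ω →ₐ[k] Ω') (γ' : Aut 𝕜 Ω'), γ' (ι x) = ι x →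
        ∀ y, ι (res 𝕜 ι γ' y) = γ' (ι y)
  rep : ∀ (k 𝕜 Ω Ω' : Type) [Field k] [Field 𝕜] [Field Ω] [IsAlgClosed Ω] [Field Ω']
    [Algebra k 𝕜] [Algebra k Ω] [Algebra k Ω'] [Algebra 𝕜 Ω'] [IsScalarTower k 𝕜 Ω'] (x : Ω),
      Co k x → ∀ (ι : Ω →ₐ[k] Ω') (G : Type) [Group G] (ρ : Aut k Ω → G), IsRep (Gam k x) ρ →
        IsRep (Gam 𝕜 (ι x)) fun γ' => ρ (res 𝕜 ι γ')
  unr : ∀ (k 𝕜 Ω Ω' : Type) [Field k] [Field 𝕜] [IsAlgClosed 𝕜] [Field Ω] [IsAlgClosed Ω]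
    [Field Ω'] [Algebra k 𝕜] [Algebra k Ω] [Algebra k Ω'] [Algebra 𝕜 Ω'] [IsScalarTower k 𝕜 Ω']
    (x : Ω), Co k x → ∀ σ : Ω', Co 𝕜 σ → ∀ (ι : Ω →ₐ[k] Ω') (G : Type) [Group G]
      (ρ : Aut k Ω → G), IsRep (Gam k x) ρ → Unr x ρ → ∀ W' : ValuationSubring Ω', IsPl 𝕜 W' →
        ι x ∈ W' → ∀ γ' : Aut 𝕜 Ω', γ' (ι x) = ι x → γ' • W' = W' → ρ (res 𝕜 ι γ') = 1
  conn : ∀ (p : ℕ) [Fact p.Prime] (k 𝕜 Ω Ω' : Type) [Field k] [IsAlgClosed k] [CharP k p]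
    [Field 𝕜] [Field Ω] [IsAlgClosed Ω] [Field Ω'] [IsAlgClosed Ω'] [Algebra k 𝕜] [Algebra k Ω]
    [Algebra k Ω'] [Algebra 𝕜 Ω'] [IsScalarTower k 𝕜 Ω'] (x : Ω), Co k x →
      ∀ (ι : Ω →ₐ[k] Ω') (E : IntermediateField 𝕜 Ω'), (∀ y : Ω', IsAlgebraic E y) → ι x ∈ E →
        (∀ s, ι s ∈ E → s ∈ k⟮x⟯) → ∀ (G : Type) [Group G] [Finite G] (ρ : Aut k Ω → G),
          IsRep (Gam k x) ρ → ∀ γ ∈ Gam k x, ∃ γ' ∈ E.fixingSubgroup, ρ (res 𝕜 ι γ') = ρ γ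

/-- Pull-back along a map with a pole of order prime to the group order keeps the inertia group. -/
def StmtPull : Prop := ∀ (p : ℕ) [Fact p.Prime] (k 𝕜 Ω Ω' : Type) [Field k] [IsAlgClosed k]
  [CharP k p] [Field 𝕜] [IsAlgClosed 𝕜] [Field Ω] [IsAlgClosed Ω] [Field Ω'] [IsAlgClosed Ω']
  [Algebra k 𝕜] [Algebra k Ω] [Algebra k Ω'] [Algebra 𝕜 Ω'] [IsScalarTower k 𝕜 Ω'] (x : Ω),
    Co k x → ∀ (ι : Ω →ₐ[k] Ω') (F : IntermediateField 𝕜 Ω'), FF F → ι x ∈ F →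
      ∀ W' : ValuationSubring Ω', IsPl 𝕜 W' → ∀ π, IsUnif F W' π → ∀ d : ℕ, 0 < d →
        W'.valuation (ι x * π ^ d) = 1 → ∀ (G : Type) [Group G] [Finite G] (ρ : Aut k Ω → G),
          IsRep (Gam k x) ρ → d.Coprime (Nat.card G) →
            IsPl k (W'.comap ι.toRingHom) ∧ x ∉ W'.comap ι.toRingHom ∧
            (fun γ' => ρ (res 𝕜 ι γ')) '' (DecF F W' : Set (Aut 𝕜 Ω')) =
              ρ '' (Dec k x (W'.comap ι.toRingHom) : Set (Aut k Ω))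

/-- Characters of order prime to `p` unramified on the multiplicative group are Kummer. -/
def StmtKum : Prop := ∀ (p : ℕ) [Fact p.Prime] (k Ω : Type) [Field k] [IsAlgClosed k]
  [CharP k p] [Field Ω] [IsAlgClosed Ω] [Algebra k Ω] (x : Ω), Co k x →
    ∀ (G : Type) [Group G] [Finite G] (χ : Aut k Ω → G), IsRep (Gam k x) χ →
      (∀ γ ∈ Gam k x, ∀ δ ∈ Gam k x, χ γ * χ δ = χ δ * χ γ) → ∀ M : ℕ, ¬ p ∣ M →
        (∀ γ ∈ Gam k x, χ γ ^ M = 1) →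
        (∀ W : ValuationSubring Ω, IsPl k W → W.valuation x = 1 → ∀ γ ∈ Dec k x W, χ γ = 1) →
          ∀ r : Ω, r ^ M = x → ∀ γ : Aut k Ω, γ r = r → χ γ = 1

/-- Integral certificates for unramified representations and for decomposition groups. -/
structure StmtCert : Prop where
  trInt : ∀ (p : ℕ) [Fact p.Prime] (k Ω : Type) [Field k] [IsAlgClosed k] [CharP k p]
    [Field Ω] [IsAlgClosed Ω] [Algebra k Ω] (x : Ω), Co k x →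
      ∀ (G : Type) [Group G] [Finite G] (ρ : Aut k Ω → G) (h : IsRep (Gam k x) ρ), Unr x ρ →
        ∃ t : G → Ω, (∀ g, Intg k x (t g)) ∧ (∀ γ ∈ Gam k x, ∀ g, γ (t g) = t (ρ γ * g)) ∧
          ∑ᶠ g ∈ h.im, t g = 1
  unr : ∀ (p : ℕ) [Fact p.Prime] (k Ω : Type) [Field k] [IsAlgClosed k] [CharP k p]
    [Field Ω] [IsAlgClosed Ω] [Algebra k Ω] (x : Ω), Co k x →
      ∀ (G : Type) [Group G] [Finite G] (ρ : Aut k Ω → G), IsRep (Gam k x) ρ → Unr x ρ →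
        ∀ γ ∈ Gam k x, ρ γ ≠ 1 → ∃ (n : ℕ) (a s : Fin n → Ω), (∀ i, Intg k x (a i)) ∧
          (∀ i, Intg k x (s i) ∧ IsSeparable k⟮x⟯ (s i) ∧
            ∀ δ ∈ Gam k x, ρ δ = 1 → δ (s i) = s i) ∧ ∑ i, a i * (s i - γ (s i)) = 1
  dec : ∀ (p : ℕ) [Fact p.Prime] (k Ω : Type) [Field k] [IsAlgClosed k] [CharP k p]
    [Field Ω] [IsAlgClosed Ω] [Algebra k Ω] (x : Ω), Co k x →
      ∀ (G : Type) [Group G] [Finite G] (ρ : Aut k Ω → G), IsRep (Gam k x) ρ →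
        ∀ W : ValuationSubring Ω, IsPl k W → x ∉ W → ∃ θ : Ω, IsSeparable k⟮x⟯ θ ∧
          (∀ δ ∈ Gam k x, ρ δ = 1 → δ θ = θ) ∧ IntgInf k x θ ∧ W.valuation θ < 1 ∧
          ∀ γ ∈ Gam k x, (∀ δ ∈ Dec k x W, ρ δ ≠ ρ γ) →
            ∃ a b : Ω, IntgInf k x a ∧ IntgInf k x b ∧ a * θ + b * γ θ = 1

/-- All foundations. -/
structure Found : Prop where
  conj : StmtConj
  bas : StmtBas
  gal : StmtGal
  str : StmtStr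
  fld : StmtFld
  unif : StmtUnif
  dens : StmtDens
  hens : StmtHens
  tame1 : StmtTame1
  tame2 : StmtTame2
  ram : StmtRam
  chev : StmtChev
  res : StmtRes
  pull : StmtPull
  kum : StmtKum
  cert : StmtCert

/-! ### Weak solutions of embedding problems -/

/-- Tsen's theorem. -/
def StmtTsen : Prop := ∀ (k Ω : Type) [Field k] [IsAlgClosed k] [Field Ω] [Algebra k Ω]
  (F : IntermediateField k Ω), FF F → ∀ (ι : Type) [Fintype ι] (m : ℕ) (P : MvPolynomial ι F),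
    P.IsHomogeneous m → 0 < m → m < Fintype.card ι → ∃ t : ι → F, t ≠ 0 ∧ MvPolynomial.eval t P = 0

/-- Central kernels of prime order different from `p`. -/
def StmtWeakC : Prop := ∀ (p : ℕ) [Fact p.Prime] (k Ω : Type) [Field k] [IsAlgClosed k]
  [CharP k p] [Field Ω] [IsAlgClosed Ω] [Algebra k Ω] (x : Ω), Co k x →
    ∀ Δ : Subgroup (Aut k Ω), Δ ≤ Gam k x → ∀ (E E' : Type) [Group E] [Finite E] [Group E']
      (π : E →* E'), Function.Surjective π → ∀ l : ℕ, l.Prime → l ≠ p →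
        π.ker ≤ Subgroup.center E → Nat.card π.ker = l → ∀ ρ' : Aut k Ω → E', IsRep Δ ρ' →
          ∃ ρ : Aut k Ω → E, IsRep Δ ρ ∧ ∀ γ ∈ Δ, π (ρ γ) = ρ' γ

/-- Abelian kernels of prime power order prime to `p`. -/
def StmtWeak : Prop := ∀ (p : ℕ) [Fact p.Prime] (k Ω : Type) [Field k] [IsAlgClosed k]
  [CharP k p] [Field Ω] [IsAlgClosed Ω] [Algebra k Ω] (x : Ω), Co k x →
    ∀ Δ : Subgroup (Aut k Ω), Δ ≤ Gam k x → ∀ (E E' : Type) [Group E] [Finite E] [Group E']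
      (π : E →* E'), Function.Surjective π → ∀ l : ℕ, l.Prime → l ≠ p → IsPGroup l π.ker →
        (∀ a ∈ π.ker, ∀ b ∈ π.ker, a * b = b * a) → ∀ ρ' : Aut k Ω → E', IsRep Δ ρ' →
          ∃ ρ : Aut k Ω → E, IsRep Δ ρ ∧ ∀ γ ∈ Δ, π (ρ γ) = ρ' γ

/-! ### Kernels that are `p`-groups -/

/-- Linear models exist. -/
def StmtLin : Prop := ∀ (p : ℕ) [Fact p.Prime] (G : Type) [Group G] [Finite G] (V : Subgroup G)
  [V.Normal], (∀ a ∈ V, ∀ b ∈ V, a * b = b * a) → (∀ a ∈ V, a ^ p = 1) →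
    ∃ (r : ℕ) (e : (Fin r → ZMod p) → G) (a : G →* Matrix (Fin r) (Fin r) (ZMod p)), IsLin V e a

/-- Weak solutions, unramified where the trace element is regular. -/
def StmtASW : Prop := ∀ (p : ℕ) [Fact p.Prime] (k Ω : Type) [Field k] [IsAlgClosed k]
  [CharP k p] [Field Ω] [IsAlgClosed Ω] [Algebra k Ω] (x : Ω), Co k x →
    ∀ Δ : Subgroup (Aut k Ω), Δ ≤ Gam k x → ∀ (E E' : Type) [Group E] [Finite E] [Group E']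
      (π : E →* E'), Function.Surjective π → (∀ a ∈ π.ker, ∀ b ∈ π.ker, a * b = b * a) →
        (∀ a ∈ π.ker, a ^ p = 1) → ∀ (ρ' : Aut k Ω → E') (h : IsRep Δ ρ') (t : E' → Ω),
          (∀ γ ∈ Δ, ∀ g, γ (t g) = t (ρ' γ * g)) → ∑ᶠ g ∈ h.im, t g = 1 →
            ∃ ρ : Aut k Ω → E, IsRep Δ ρ ∧ (∀ γ ∈ Δ, π (ρ γ) = ρ' γ) ∧
              ∀ W : ValuationSubring Ω, IsPl k W → (∀ g, t g ∈ W) → ∀ γ ∈ Δ, γ • W = W →
                ρ' γ = 1 → ρ γ = 1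

/-- Prescribing the local behaviour at infinity. -/
def StmtASM : Prop := ∀ (p : ℕ) [Fact p.Prime] (k Ω : Type) [Field k] [IsAlgClosed k]
  [CharP k p] [Field Ω] [IsAlgClosed Ω] [Algebra k Ω] (x : Ω), Co k x →
    ∀ (E : Type) [Group E] [Finite E] (V : Subgroup E) [V.Normal],
      (∀ a ∈ V, ∀ b ∈ V, a * b = b * a) → (∀ a ∈ V, a ^ p = 1) → ∀ ρ₀ : Aut k Ω → E,
        IsRep (Gam k x) ρ₀ → Unr x ρ₀ → ∀ W : ValuationSubring Ω, IsPl k W → x ∉ W →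
          ∀ ρi : Aut k Ω → E, IsRep (Dec k x W) ρi → (∀ γ ∈ Dec k x W, ρi γ * (ρ₀ γ)⁻¹ ∈ V) →
            ∃ ρ : Aut k Ω → E, IsRep (Gam k x) ρ ∧ Unr x ρ ∧
              (∀ γ ∈ Gam k x, ρ γ * (ρ₀ γ)⁻¹ ∈ V) ∧ ∀ γ ∈ Dec k x W, ρ γ = ρi γ

/-- Proper local solutions for kernels that are `p`-groups. -/
def StmtLocP : Prop := ∀ (p : ℕ) [Fact p.Prime] (k Ω : Type) [Field k] [IsAlgClosed k]
  [CharP k p] [Field Ω] [IsAlgClosed Ω] [Algebra k Ω] (x : Ω), Co k x →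
    ∀ W : ValuationSubring Ω, IsPl k W → x ∉ W → ∀ (I I' : Type) [Group I] [Finite I] [Group I']
      (π : I →* I'), Function.Surjective π → IsPGroup p π.ker → ∀ P : Subgroup I, CycP p ⊤ P →
        ∀ ρ' : Aut k Ω → I', IsRep (Dec k x W) ρ' → (∀ g, ∃ γ ∈ Dec k x W, ρ' γ = g) →
          ∃ ρ : Aut k Ω → I, IsRep (Dec k x W) ρ ∧ (∀ γ ∈ Dec k x W, π (ρ γ) = ρ' γ) ∧
            ∀ g, ∃ γ ∈ Dec k x W, ρ γ = g

/-! ### The analytic engine -/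

/-- Existence of a complete algebraically closed constant extension and a Gauss completion. -/
def StmtKhat : Prop := ∀ (k : Type) [Field k] [IsAlgClosed k],
  ∃ (𝕜 : Type) (_ : NormedField 𝕜) (_ : IsUltrametricDist 𝕜) (_ : CompleteSpace 𝕜)
    (_ : IsAlgClosed 𝕜) (_ : Algebra k 𝕜) (Q : Type) (_ : NormedField Q) (_ : IsUltrametricDist Q)
    (_ : CompleteSpace Q) (_ : NormedAlgebra 𝕜 Q) (σ : Q), Gauss 𝕜 σ ∧
      (∀ c : k, ‖algebraMap k 𝕜 c‖ ≤ 1) ∧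
      (∀ a : 𝕜, ‖a‖ ≤ 1 → ∃ c : k, ‖a - algebraMap k 𝕜 c‖ < 1) ∧ ∃ t : 𝕜, t ≠ 0 ∧ ‖t‖ < 1

/-- The Gauss norm and normal forms of elements. -/
structure StmtGN : Prop where
  tr : ∀ (𝕜 Q : Type) [NormedField 𝕜] [IsAlgClosed 𝕜] [NormedField Q] [NormedAlgebra 𝕜 Q]
    (σ : Q), Gauss 𝕜 σ → Transcendental 𝕜 σ
  coeff : ∀ (𝕜 Q : Type) [NormedField 𝕜] [IsUltrametricDist 𝕜] [IsAlgClosed 𝕜] [NormedField Q]
    [NormedAlgebra 𝕜 Q] (σ : Q), Gauss 𝕜 σ → ∀ (P : 𝕜[X]) (r : ℝ), 0 ≤ r →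
      (‖aeval σ P‖ ≤ r ↔ ∀ i, ‖P.coeff i‖ ≤ r)
  s2 : ∀ (𝕜 Q : Type) [NormedField 𝕜] [IsAlgClosed 𝕜] [NormedField Q] [NormedAlgebra 𝕜 Q]
    (σ : Q), Gauss 𝕜 σ → ∀ y : Q,
      y ∈ Algebra.adjoin 𝕜 {y : Q | ∃ a : 𝕜, ‖a‖ ≤ 1 ∧ y = (σ - algebraMap 𝕜 Q a)⁻¹} ↔
        ∃ P q : 𝕜[X], q.Monic ∧ (∀ a, q.IsRoot a → ‖a‖ ≤ 1) ∧ P.natDegree ≤ q.natDegree ∧
          y = aeval σ P / aeval σ q
  mer1 : ∀ (𝕜 Q : Type) [NormedField 𝕜] [IsAlgClosed 𝕜] [NormedField Q] [NormedAlgebra 𝕜 Q]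
    (σ : Q), Gauss 𝕜 σ → ∀ y ∈ Mer 𝕜 σ (R1 𝕜 σ), ∃ r ∈ R1 𝕜 σ, ∃ q : 𝕜[X], q ≠ 0 ∧
      y = r / aeval σ q
  mer2 : ∀ (𝕜 Q : Type) [NormedField 𝕜] [IsAlgClosed 𝕜] [NormedField Q] [NormedAlgebra 𝕜 Q]
    (σ : Q), Gauss 𝕜 σ → ∀ y ∈ Mer 𝕜 σ (R2 𝕜 σ), ∃ r ∈ R2 𝕜 σ,
      ∃ s ∈ Algebra.adjoin 𝕜 {y : Q | ∃ a : 𝕜, ‖a‖ ≤ 1 ∧ y = (σ - algebraMap 𝕜 Q a)⁻¹},
        s ≠ 0 ∧ y = r / s

/-- Additive decomposition with control of norms. -/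
def StmtAdd : Prop := ∀ (𝕜 Q : Type) [NormedField 𝕜] [IsUltrametricDist 𝕜] [CompleteSpace 𝕜]
  [IsAlgClosed 𝕜] [NormedField Q] [IsUltrametricDist Q] [CompleteSpace Q] [NormedAlgebra 𝕜 Q]
  (σ : Q), Gauss 𝕜 σ → ∀ y : Q, ∃ a ∈ R1 𝕜 σ, ∃ b ∈ R2 𝕜 σ, y = a + b ∧ ‖a‖ ≤ ‖y‖ ∧ ‖b‖ ≤ ‖y‖

/-- Cartan's factorisation. -/
def StmtFact : Prop := ∀ (𝕜 Q : Type) [NormedField 𝕜] [IsUltrametricDist 𝕜] [CompleteSpace 𝕜]
  [IsAlgClosed 𝕜] [NormedField Q] [IsUltrametricDist Q] [CompleteSpace Q] [NormedAlgebra 𝕜 Q]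
  (σ : Q), Gauss 𝕜 σ → ∀ (ι : Type) [Fintype ι] [DecidableEq ι] (A : Matrix ι ι Q), A.det ≠ 0 →
    ∃ A1 B1 A2 B2 : Matrix ι ι Q, (∀ i j, A1 i j ∈ Mer 𝕜 σ (R1 𝕜 σ)) ∧
      (∀ i j, B1 i j ∈ Mer 𝕜 σ (R1 𝕜 σ)) ∧ (∀ i j, A2 i j ∈ Mer 𝕜 σ (R2 𝕜 σ)) ∧
      (∀ i j, B2 i j ∈ Mer 𝕜 σ (R2 𝕜 σ)) ∧ A1 * B1 = 1 ∧ A2 * B2 = 1 ∧ A = A1 * A2

/-- The intersection property. -/
def StmtInter : Prop := ∀ (𝕜 Q : Type) [NormedField 𝕜] [IsUltrametricDist 𝕜] [CompleteSpace 𝕜]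
  [IsAlgClosed 𝕜] [NormedField Q] [IsUltrametricDist Q] [CompleteSpace Q] [NormedAlgebra 𝕜 Q]
  (σ : Q), Gauss 𝕜 σ → ∀ y : Q, y ∈ Mer 𝕜 σ (R1 𝕜 σ) → y ∈ Mer 𝕜 σ (R2 𝕜 σ) → y ∈ 𝕜⟮σ⟯

/-- Laurent expansions. -/
structure StmtEvalT : Prop where
  at1 : ∀ (𝕜 Q : Type) [NormedField 𝕜] [IsUltrametricDist 𝕜] [CompleteSpace 𝕜]
    [IsAlgClosed 𝕜] [NormedField Q] [IsUltrametricDist Q] [CompleteSpace Q] [NormedAlgebra 𝕜 Q]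
    (σ : Q), Gauss 𝕜 σ → ∀ a : 𝕜, ‖a‖ ≤ 1 → ∃ j : Mer 𝕜 σ (R1 𝕜 σ) →ₐ[𝕜] LaurentSeries 𝕜,
      ∀ y : Mer 𝕜 σ (R1 𝕜 σ), (y : Q) = σ - algebraMap 𝕜 Q a → j y = HahnSeries.single 1 1
  at2 : ∀ (𝕜 Q : Type) [NormedField 𝕜] [IsUltrametricDist 𝕜] [CompleteSpace 𝕜]
    [IsAlgClosed 𝕜] [NormedField Q] [IsUltrametricDist Q] [CompleteSpace Q] [NormedAlgebra 𝕜 Q]
    (σ : Q), Gauss 𝕜 σ → ∀ a : 𝕜, 1 < ‖a‖ → ∃ j : Mer 𝕜 σ (R2 𝕜 σ) →ₐ[𝕜] LaurentSeries 𝕜,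
      ∀ y : Mer 𝕜 σ (R2 𝕜 σ), (y : Q) = σ - algebraMap 𝕜 Q a → j y = HahnSeries.single 1 1
  inf : ∀ (𝕜 Q : Type) [NormedField 𝕜] [IsUltrametricDist 𝕜] [CompleteSpace 𝕜]
    [IsAlgClosed 𝕜] [NormedField Q] [IsUltrametricDist Q] [CompleteSpace Q] [NormedAlgebra 𝕜 Q]
    (σ : Q), Gauss 𝕜 σ → ∃ j : Mer 𝕜 σ (R2 𝕜 σ) →ₐ[𝕜] LaurentSeries 𝕜,
      ∀ y : Mer 𝕜 σ (R2 𝕜 σ), (y : Q) = σ⁻¹ → j y = HahnSeries.single 1 1

/-- Evaluation at other Gauss points, Hensel's lemma and the residue field. -/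
structure StmtEvalN : Prop where
  ev1 : ∀ (𝕜 Q : Type) [NormedField 𝕜] [IsUltrametricDist 𝕜] [CompleteSpace 𝕜]
    [IsAlgClosed 𝕜] [NormedField Q] [IsUltrametricDist Q] [CompleteSpace Q] [NormedAlgebra 𝕜 Q]
    (σ : Q), Gauss 𝕜 σ → ∀ σ' : Q, Transcendental 𝕜 σ' → ‖σ'‖ ≤ 1 →
      ∃ j : Mer 𝕜 σ (R1 𝕜 σ) →ₐ[𝕜] Q, ∀ y : Mer 𝕜 σ (R1 𝕜 σ), (y : Q) = σ → j y = σ'
  ev2 : ∀ (𝕜 Q : Type) [NormedField 𝕜] [IsUltrametricDist 𝕜] [CompleteSpace 𝕜]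
    [IsAlgClosed 𝕜] [NormedField Q] [IsUltrametricDist Q] [CompleteSpace Q] [NormedAlgebra 𝕜 Q]
    (σ : Q), Gauss 𝕜 σ → ∀ σ' : Q, Transcendental 𝕜 σ' → 1 < ‖σ'‖ →
      ∃ j : Mer 𝕜 σ (R2 𝕜 σ) →ₐ[𝕜] Q, ∀ y : Mer 𝕜 σ (R2 𝕜 σ), (y : Q) = σ → j y = σ'
  hensel : ∀ (𝕜 Q : Type) [NormedField 𝕜] [NormedField Q] [IsUltrametricDist Q] [CompleteSpace Q]
    [NormedAlgebra 𝕜 Q] (R : Subalgebra 𝕜 Q), IsClosed (R : Set Q) → ∀ f : Q[X],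
      (∀ i, f.coeff i ∈ R ∧ ‖f.coeff i‖ ≤ 1) → ∀ a₀ c : 𝕜, ‖a₀‖ ≤ 1 → ‖c‖ = 1 →
        ‖f.eval (algebraMap 𝕜 Q a₀)‖ < 1 →
        ‖f.derivative.eval (algebraMap 𝕜 Q a₀) - algebraMap 𝕜 Q c‖ < 1 →
          ∃ a ∈ R, f.eval a = 0 ∧ ‖a - algebraMap 𝕜 Q a₀‖ < 1
  resid : ∀ (k 𝕜 Q : Type) [Field k] [NormedField 𝕜] [IsUltrametricDist 𝕜] [IsAlgClosed 𝕜]
    [Algebra k 𝕜] [NormedField Q] [IsUltrametricDist Q] [NormedAlgebra 𝕜 Q] [Algebra k Q]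
    [IsScalarTower k 𝕜 Q] (σ : Q), Gauss 𝕜 σ → (∀ c : k, ‖algebraMap k 𝕜 c‖ ≤ 1) →
      (∀ a : 𝕜, ‖a‖ ≤ 1 → ∃ c : k, ‖a - algebraMap k 𝕜 c‖ < 1) → ∀ y : Q, ‖y‖ ≤ 1 →
        ∃ P P' : k[X], P' ≠ 0 ∧ ‖y - aeval σ P / aeval σ P'‖ < 1

/-- Membership in the algebraic part of a subalgebra. -/
def StmtEof : Prop := ∀ (𝕜 Q Ω' : Type) [NormedField 𝕜] [NormedField Q] [NormedAlgebra 𝕜 Q]
  [Field Ω'] [Algebra 𝕜 Ω'] (σ : Q) (σ' : Ω') (κ : Ω' →ₐ[𝕜] AlgebraicClosure Q), Co 𝕜 σ' →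
    κ σ' = algebraMap Q (AlgebraicClosure Q) σ → ∀ R : Subalgebra 𝕜 Q,
      (𝕜⟮σ⟯).toSubalgebra ≤ R → ∀ y : Ω',
        y ∈ Eof 𝕜 κ R ↔ ∃ r ∈ R, algebraMap Q (AlgebraicClosure Q) r = κ y

/-- The factorisation property of the concrete patching datum. -/
def StmtPD2 : Prop := ∀ (𝕜 Q Ω' : Type) [NormedField 𝕜] [IsUltrametricDist 𝕜] [CompleteSpace 𝕜]
  [IsAlgClosed 𝕜] [NormedField Q] [IsUltrametricDist Q] [CompleteSpace Q] [NormedAlgebra 𝕜 Q]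
  [Field Ω'] [IsAlgClosed Ω'] [Algebra 𝕜 Ω'] (σ : Q) (σ' : Ω')
  (κ : Ω' →ₐ[𝕜] AlgebraicClosure Q), Gauss 𝕜 σ → Co 𝕜 σ' →
    κ σ' = algebraMap Q (AlgebraicClosure Q) σ →
      FactP (Eof 𝕜 κ ⊤) (Eof 𝕜 κ (Mer 𝕜 σ (R1 𝕜 σ))) (Eof 𝕜 κ (Mer 𝕜 σ (R2 𝕜 σ)))

/-- The local property of the concrete patching datum. -/
def StmtPD3 : Prop := ∀ (𝕜 Q Ω' : Type) [NormedField 𝕜] [IsUltrametricDist 𝕜] [CompleteSpace 𝕜]
  [IsAlgClosed 𝕜] [NormedField Q] [IsUltrametricDist Q] [CompleteSpace Q] [NormedAlgebra 𝕜 Q]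
  [Field Ω'] [IsAlgClosed Ω'] [Algebra 𝕜 Ω'] (σ : Q) (σ' : Ω')
  (κ : Ω' →ₐ[𝕜] AlgebraicClosure Q), Gauss 𝕜 σ → Co 𝕜 σ' →
    κ σ' = algebraMap Q (AlgebraicClosure Q) σ → ∀ O : ValuationSubring Ω',
      (∀ a : 𝕜, algebraMap 𝕜 Ω' a ∈ O ↔ ‖a‖ ≤ 1) →
        LocP σ' (Eof 𝕜 κ (Mer 𝕜 σ (R1 𝕜 σ))) (Eof 𝕜 κ (Mer 𝕜 σ (R2 𝕜 σ))) O

/-- The Gauss valuation ring of the concrete patching datum. -/
def StmtPD0 : Prop := ∀ (𝕜 Q Ω' : Type) [NormedField 𝕜] [NormedField Q] [IsUltrametricDist Q]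
  [CompleteSpace Q] [NormedAlgebra 𝕜 Q] [Field Ω'] [IsAlgClosed Ω'] [Algebra 𝕜 Ω'] (σ : Q)
  (σ' : Ω') (κ : Ω' →ₐ[𝕜] AlgebraicClosure Q), (∃ t : 𝕜, t ≠ 0 ∧ ‖t‖ < 1) → Co 𝕜 σ' →
    κ σ' = algebraMap Q (AlgebraicClosure Q) σ → ∃ O : ValuationSubring Ω',
      (∀ (y : Ω') (r : Q), algebraMap Q (AlgebraicClosure Q) r = κ y → (y ∈ O ↔ ‖r‖ ≤ 1)) ∧
      (Eof 𝕜 κ ⊤).fixingSubgroup ≤ O.decompositionSubgroup 𝕜

/-- Existence of patching data. -/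
def StmtPD : Prop := ∀ (k : Type) [Field k] [IsAlgClosed k],
  ∃ (𝕜 Ω' : Type) (_ : Field 𝕜) (_ : IsAlgClosed 𝕜) (_ : Field Ω') (_ : IsAlgClosed Ω')
    (_ : Algebra k 𝕜) (_ : Algebra k Ω') (_ : Algebra 𝕜 Ω') (_ : IsScalarTower k 𝕜 Ω') (σ : Ω')
    (E0 E1 E2 : IntermediateField 𝕜 Ω') (O : ValuationSubring Ω'),
      BasP k σ E0 E1 E2 O ∧ FactP E0 E1 E2 ∧ LocP σ E1 E2 O

/-- Patching of representations: existence and uniqueness. -/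
structure StmtCore : Prop where
  ex : ∀ (p : ℕ) [Fact p.Prime] (𝕜 Ω' : Type) [Field 𝕜] [IsAlgClosed 𝕜] [CharP 𝕜 p] [Field Ω']
    [IsAlgClosed Ω'] [Algebra 𝕜 Ω'] (σ : Ω') (E0 E1 E2 : IntermediateField 𝕜 Ω'), Co 𝕜 σ →
      σ ∈ E1 → σ ∈ E2 → E1 ≤ E0 → E2 ≤ E0 → (∀ y, y ∈ E1 → y ∈ E2 → y ∈ 𝕜⟮σ⟯) →
      FactP E0 E1 E2 → ∀ (G : Type) [Group G] [Finite G] (ρ₁ ρ₂ : Aut 𝕜 Ω' → G),
        IsRep E1.fixingSubgroup ρ₁ → IsRep E2.fixingSubgroup ρ₂ →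
        (∀ γ ∈ E0.fixingSubgroup, ρ₁ γ = ρ₂ γ) → ∃ ρ : Aut 𝕜 Ω' → G, IsRep (Gam 𝕜 σ) ρ ∧
          (∀ γ ∈ E1.fixingSubgroup, ρ γ = ρ₁ γ) ∧ ∀ γ ∈ E2.fixingSubgroup, ρ γ = ρ₂ γ
  uniq : ∀ (p : ℕ) [Fact p.Prime] (𝕜 Ω' : Type) [Field 𝕜] [IsAlgClosed 𝕜] [CharP 𝕜 p] [Field Ω']
    [IsAlgClosed Ω'] [Algebra 𝕜 Ω'] (σ : Ω') (E1 E2 : IntermediateField 𝕜 Ω'), Co 𝕜 σ →
      σ ∈ E1 → σ ∈ E2 → (∀ y, y ∈ E1 → y ∈ E2 → y ∈ 𝕜⟮σ⟯) →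
      ∀ (G : Type) [Group G] (ρ ρ' : Aut 𝕜 Ω' → G), IsRep (Gam 𝕜 σ) ρ → IsRep (Gam 𝕜 σ) ρ' →
        (∀ γ ∈ E1.fixingSubgroup, ρ γ = ρ' γ) → (∀ γ ∈ E2.fixingSubgroup, ρ γ = ρ' γ) →
          ∀ γ ∈ Gam 𝕜 σ, ρ γ = ρ' γ

/-- Reduction at a Gauss point shows that `k(x)` is algebraically closed in `E`. -/
def StmtCin : Prop := ∀ (k 𝕜 Ω Ω' : Type) [Field k] [IsAlgClosed k] [Field 𝕜] [Field Ω] [Field Ω']
  [Algebra k 𝕜] [Algebra k Ω] [Algebra k Ω'] [Algebra 𝕜 Ω'] [IsScalarTower k 𝕜 Ω'] (σ : Ω')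
  (E0 E1 E2 : IntermediateField 𝕜 Ω') (O : ValuationSubring Ω'), BasP k σ E0 E1 E2 O →
    ∀ (x : Ω), Co k x → ∀ (ι : Ω →ₐ[k] Ω') (E : IntermediateField 𝕜 Ω') (hx : ι x ∈ E)
      (j : E →ₐ[𝕜] Ω'), (∀ y, j y ∈ E0) → ∀ c : k, c ≠ 0 →
        O.valuation (j ⟨ι x, hx⟩ - algebraMap k Ω' c * σ) < 1 → ∀ s, ι s ∈ E → s ∈ k⟮x⟯

/-! ### Specialisation -/

/-- Noether's theorem on absolute irreducibility. -/
def StmtNoe : Prop := ∀ (𝕜 : Type) [Field 𝕜] [IsAlgClosed 𝕜] (f : 𝕜[X][X]), f.Monic →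
  Irreducible f → ∃ T : Finset 𝕜, (∀ c ∈ T, c ≠ 0) ∧ ∀ (R : Subring 𝕜) (k : Type) [Field k]
    (φ : R →+* k) (g : R[X][X]), (∀ c ∈ T, c ∈ R ∧ c⁻¹ ∈ R) →
      g.map (mapRingHom R.subtype) = f → Irreducible (g.map (mapRingHom φ))

/-- Existence and first properties of specialisations. -/
structure StmtSpec : Prop where
  ex : ∀ (k 𝕜 Ω Ω' : Type) [Field k] [IsAlgClosed k] [Field 𝕜] [Field Ω] [IsAlgClosed Ω]
    [Field Ω'] [Algebra k 𝕜] [Algebra k Ω] [Algebra k Ω'] [Algebra 𝕜 Ω'] [IsScalarTower k 𝕜 Ω']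
    (σ : Ω') (x : Ω), Transcendental 𝕜 σ → ∀ T : Finset 𝕜, (∀ c ∈ T, c ≠ 0) →
      ∃ (O : ValuationSubring Ω') (ψ : Ω' → Ω), Adm k 𝕜 σ x O ψ ∧
        ∀ c ∈ T, O.valuation (algebraMap 𝕜 Ω' c) = 1
  rat : ∀ (k 𝕜 Ω Ω' : Type) [Field k] [Field 𝕜] [Field Ω]
    [Field Ω'] [Algebra k 𝕜] [Algebra k Ω] [Algebra k Ω'] [Algebra 𝕜 Ω'] [IsScalarTower k 𝕜 Ω']
    (σ : Ω') (x : Ω), Transcendental k x → ∀ s ∈ 𝕜⟮σ⟯,
      Ev k 𝕜 σ x fun O ψ => s ∈ O ∧ ψ s ∈ k⟮x⟯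
  ne : ∀ (k 𝕜 Ω Ω' : Type) [Field k] [Field 𝕜] [Field Ω]
    [Field Ω'] [Algebra k 𝕜] [Algebra k Ω] [Algebra k Ω'] [Algebra 𝕜 Ω'] [IsScalarTower k 𝕜 Ω']
    (σ : Ω') (x : Ω), Co 𝕜 σ → Transcendental k x → ∀ s : Ω', s ≠ 0 →
      Ev k 𝕜 σ x fun O ψ => s ∈ O ∧ ψ s ≠ 0
  intg : ∀ (k 𝕜 Ω Ω' : Type) [Field k] [Field 𝕜] [Field Ω]
    [Field Ω'] [Algebra k 𝕜] [Algebra k Ω] [Algebra k Ω'] [Algebra 𝕜 Ω'] [IsScalarTower k 𝕜 Ω']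
    (σ : Ω') (x : Ω), ∀ s : Ω', Intg 𝕜 σ s → Ev k 𝕜 σ x fun O ψ => s ∈ O ∧ Intg k x (ψ s)
  intgInf : ∀ (k 𝕜 Ω Ω' : Type) [Field k] [Field 𝕜] [IsAlgClosed 𝕜] [Field Ω]
    [Field Ω'] [IsAlgClosed Ω'] [Algebra k 𝕜] [Algebra k Ω] [Algebra k Ω'] [Algebra 𝕜 Ω']
    [IsScalarTower k 𝕜 Ω'] (σ : Ω') (x : Ω), Co 𝕜 σ → Transcendental k x → ∀ s : Ω',
      IntgInf 𝕜 σ s → Ev k 𝕜 σ x fun O ψ => s ∈ O ∧ IntgInf k x (ψ s)

/-- The specialised representation. -/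
def StmtSpecRep : Prop := ∀ (p : ℕ) [Fact p.Prime] (k 𝕜 Ω Ω' : Type) [Field k] [IsAlgClosed k]
  [CharP k p] [Field 𝕜] [IsAlgClosed 𝕜] [Field Ω] [IsAlgClosed Ω] [Field Ω'] [IsAlgClosed Ω']
  [Algebra k 𝕜] [Algebra k Ω] [Algebra k Ω'] [Algebra 𝕜 Ω'] [IsScalarTower k 𝕜 Ω'] (σ : Ω')
  (x : Ω), Co 𝕜 σ → Co k x → ∀ (G : Type) [Group G] [Finite G] (ρ : Aut 𝕜 Ω' → G),
    IsRep (Gam 𝕜 σ) ρ → (∀ g, ∃ γ ∈ Gam 𝕜 σ, ρ γ = g) → ∀ S : Finset Ω',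
      (∀ s ∈ S, IsSeparable 𝕜⟮σ⟯ s ∧ ∀ δ ∈ Gam 𝕜 σ, ρ δ = 1 → δ s = s) →
        Ev k 𝕜 σ x fun O ψ => ∃ ρ' : Aut k Ω → G, IsRep (Gam k x) ρ' ∧
          (∀ g, ∃ γ ∈ Gam k x, ρ' γ = g) ∧ ∀ s ∈ S, IsSeparable k⟮x⟯ (ψ s) ∧
            (∀ δ ∈ Gam 𝕜 σ, δ s ∈ O) ∧
            ∀ γ ∈ Gam k x, ∀ δ ∈ Gam 𝕜 σ, ρ δ = ρ' γ → γ (ψ s) = ψ (δ s)

/-- Descent of realisations to the small constant field. -/
def StmtTP : Prop := ∀ (p : ℕ) [Fact p.Prime] (k 𝕜 Ω Ω' : Type) [Field k] [IsAlgClosed k]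
  [CharP k p] [Field 𝕜] [IsAlgClosed 𝕜] [Field Ω] [IsAlgClosed Ω] [Field Ω'] [IsAlgClosed Ω']
  [Algebra k 𝕜] [Algebra k Ω] [Algebra k Ω'] [Algebra 𝕜 Ω'] [IsScalarTower k 𝕜 Ω'] (σ : Ω')
  (x : Ω), Co 𝕜 σ → Co k x → ∀ (G : Type) [Group G] [Finite G] (I : Subgroup G),
    RealAt 𝕜 σ G I → RealAt k x G I

/-- The patching lemma for covers of the affine line. -/
def StmtPL : Prop := ∀ (p : ℕ) [Fact p.Prime] (k Ω : Type) [Field k] [IsAlgClosed k]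
  [CharP k p] [Field Ω] [IsAlgClosed Ω] [Algebra k Ω] (x z : Ω), Co k x → ∀ n : ℕ, ¬ p ∣ n →
    z ^ n = x → ∀ (G : Type) [Group G] [Finite G],
      (∀ N : Subgroup G, N.Normal → ¬ p ∣ N.index → N = ⊤) → ∀ ρ₁ ρ₂ : Aut k Ω → G,
        IsRep (Gam k z) ρ₁ → Unr z ρ₁ → IsRep (Gam k x) ρ₂ → Unr x ρ₂ →
        Subgroup.closure (ρ₁ '' (Gam k z : Set (Aut k Ω)) ∪ ρ₂ '' (Gam k x : Set (Aut k Ω))) = ⊤ →
        ∀ W : ValuationSubring Ω, IsPl k W → x ∉ W → ∀ M : ℕ, ¬ p ∣ M → ∀ rz rx : Ω,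
          rz ^ M = z → rx ^ M = x → ∀ lam : Ω → G, IsLam M (Subgroup.center G) lam →
            (∀ γ ∈ Dec k z W, ρ₁ γ = ρ₂ γ * lam (γ rz / rz)) → ∀ I : Subgroup G,
              (fun γ => ρ₂ γ * lam (γ rx / rx)) '' (Dec k x W : Set (Aut k Ω)) = (I : Set G) →
                RealAt k x G I

/-! ### Divisibility of the divisor class group -/

open MP_e06174_ag MP_ba4752_ag in
/-- Separating elements and the order of a norm. -/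
structure StmtNorm : Prop where
  sepx : ∀ (k L : Type) [Field k] [IsAlgClosed k] [Field L] [Algebra k L] (x x' : L),
    SepCoord k x → ∀ v : Place k L, v.ord x' = 1 → SepCoord k x'
  norm : ∀ (k L : Type) [Field k] [IsAlgClosed k] [Field L] [Algebra k L] (x : L),
    SepCoord k x → ∀ (v : Place k k⟮x⟯) (y : L), y ≠ 0 → ∀ T : Finset (Place k L),
      (∀ w ∈ T, ∃ e, w.Over (k⟮x⟯).val v e) →
      (∀ (w : Place k L) (e : ℕ), w.Over (k⟮x⟯).val v e → w ∉ T → w.ord y = 0) →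
        v.ord (Algebra.norm k⟮x⟯ y) = ∑ w ∈ T, w.ord y

open Classical in
/-- The divisor of `f` on `L` is `W₁ - W₂` modulo `n`. -/
def DivMod {k Ω : Type} [Field k] [Field Ω] [Algebra k Ω] (L : IntermediateField k Ω) (n : ℕ)
    (f : Ω) (W₁ W₂ : ValuationSubring Ω) : Prop :=
  f ∈ L ∧ f ≠ 0 ∧ ∀ W : ValuationSubring Ω, IsPl k W → ∀ π, IsUnif L W π →
    ∃ i : ℤ, W.valuation f = W.valuation π ^ i ∧
      (n : ℤ) ∣ i - (if Agr L W W₁ then 1 else 0) + (if Agr L W W₂ then 1 else 0)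

/-- A rational point minus a generic point is divisible after a constant extension. -/
def StmtPicA : Prop := ∀ (p : ℕ) [Fact p.Prime] (k Ω : Type) [Field k] [IsAlgClosed k]
  [CharP k p] [Field Ω] [IsAlgClosed Ω] [Algebra k Ω] (x : Ω), Co k x →
    ∀ L : IntermediateField k Ω, L.FG → x ∈ L → (∀ y ∈ L, IsSeparable k⟮x⟯ y) →
      ∀ (H : Type) [Group H] [Finite H] (ρ : Aut k Ω → H), IsRep (Gam k x) ρ →
      (∀ γ : Aut k Ω, γ ∈ L.fixingSubgroup ↔ γ ∈ Gam k x ∧ ρ γ = 1) → ∀ n : ℕ, ¬ p ∣ n →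
        ∃ (𝕜 Ω' : Type) (_ : Field 𝕜) (_ : IsAlgClosed 𝕜) (_ : Field Ω') (_ : IsAlgClosed Ω')
          (_ : Algebra k 𝕜) (_ : Algebra k Ω') (_ : Algebra 𝕜 Ω') (_ : IsScalarTower k 𝕜 Ω')
          (ι : Ω →ₐ[k] Ω') (R₀ R₁ : ValuationSubring Ω') (f : Ω'), Co 𝕜 (ι x) ∧ IsPl 𝕜 R₀ ∧
            IsPl 𝕜 R₁ ∧ (∃ y ∈ L, ι y ∉ R₀) ∧ (∀ y ∈ L, ι y ∈ R₁) ∧
            DivMod (IntermediateField.adjoin 𝕜 (ι '' (L : Set Ω))) n f R₀ R₁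

/-- Reduction of divisors. -/
def StmtPicB : Prop := ∀ (p : ℕ) [Fact p.Prime] (k 𝕜 Ω Ω' : Type) [Field k] [IsAlgClosed k]
  [CharP k p] [Field 𝕜] [IsAlgClosed 𝕜] [Field Ω] [IsAlgClosed Ω] [Field Ω'] [IsAlgClosed Ω']
  [Algebra k 𝕜] [Algebra k Ω] [Algebra k Ω'] [Algebra 𝕜 Ω'] [IsScalarTower k 𝕜 Ω'] (x : Ω),
    Co k x → ∀ L : IntermediateField k Ω, L.FG → x ∈ L → (∀ y ∈ L, IsSeparable k⟮x⟯ y) →
      ∀ (n : ℕ) (ι : Ω →ₐ[k] Ω') (R₀ R₁ : ValuationSubring Ω') (f : Ω'), Co 𝕜 (ι x) →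
        IsPl 𝕜 R₀ → IsPl 𝕜 R₁ → (∃ y ∈ L, ι y ∉ R₀) → (∀ y ∈ L, ι y ∈ R₁) →
        DivMod (IntermediateField.adjoin 𝕜 (ι '' (L : Set Ω))) n f R₀ R₁ →
          ∀ W₂ : ValuationSubring Ω, IsPl k W₂ → ∃ f₀ : Ω, DivMod L n f₀ (R₀.comap ι.toRingHom) W₂

/-- Divisibility of the degree zero divisor class group. -/
def StmtPic : Prop := ∀ (p : ℕ) [Fact p.Prime] (k Ω : Type) [Field k] [IsAlgClosed k]
  [CharP k p] [Field Ω] [IsAlgClosed Ω] [Algebra k Ω] (x : Ω), Co k x →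
    ∀ L : IntermediateField k Ω, L.FG → x ∈ L → (∀ y ∈ L, IsSeparable k⟮x⟯ y) →
      ∀ (H : Type) [Group H] [Finite H] (ρ : Aut k Ω → H), IsRep (Gam k x) ρ →
      (∀ γ : Aut k Ω, γ ∈ L.fixingSubgroup ↔ γ ∈ Gam k x ∧ ρ γ = 1) → ∀ n : ℕ, ¬ p ∣ n →
        ∀ W₁ W₂ : ValuationSubring Ω, IsPl k W₁ → IsPl k W₂ → ∃ f : Ω, DivMod L n f W₁ W₂

/-! ### Local-global principle for kernels of order prime to `p` -/

/-- Cocycles with values in an induced module. -/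
def StmtInd : Prop := ∀ (p : ℕ) [Fact p.Prime] (k Ω : Type) [Field k] [IsAlgClosed k]
  [CharP k p] [Field Ω] [IsAlgClosed Ω] [Algebra k Ω] (x : Ω), Co k x →
    ∀ (H A : Type) [Group H] [Finite H] [AddCommGroup A] [Finite A] (ρ : Aut k Ω → H),
      IsRep (Gam k x) ρ → (∀ h, ∃ γ ∈ Gam k x, ρ γ = h) → ∀ n : ℕ, ¬ p ∣ n →
        (∀ a : A, n • a = 0) → ∀ W : ValuationSubring Ω, IsPl k W → ∀ c₀ : Aut k Ω → H → A,
          (∀ γ ∈ Dec k x W, ∀ δ ∈ Dec k x W, ∀ h, c₀ (γ * δ) h = c₀ γ h + c₀ δ ((ρ γ)⁻¹ * h)) →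
          Cts (Dec k x W) c₀ → ∀ g : H, ∃ c : Aut k Ω → H → A,
            (∀ γ ∈ Gam k x, ∀ δ ∈ Gam k x, ∀ h, c (γ * δ) h = c γ h + c δ ((ρ γ)⁻¹ * h)) ∧
            Cts (Gam k x) c ∧ (∀ γ ∈ Dec k x W, ∀ h, c γ h = c₀ γ (h * g) - c₀ γ h) ∧
            ∀ W' : ValuationSubring Ω, IsPl k W' → ¬ Agr k⟮x⟯ W W' →
              ∃ a : H → A, ∀ γ ∈ Dec k x W', ∀ h, c γ h = a ((ρ γ)⁻¹ * h) - a h

/-- Local cocycles are global when the coinvariants vanish. -/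
def StmtLG0 : Prop := ∀ (p : ℕ) [Fact p.Prime] (k Ω : Type) [Field k] [IsAlgClosed k]
  [CharP k p] [Field Ω] [IsAlgClosed Ω] [Algebra k Ω] (x : Ω), Co k x →
    ∀ (H A : Type) [Group H] [Finite H] [AddCommGroup A] [Finite A] [DistribMulAction H A]
      (ρ : Aut k Ω → H), IsRep (Gam k x) ρ → ∀ l j : ℕ, l.Prime → l ≠ p →
        (∀ a : A, l ^ j • a = 0) →
        AddSubgroup.closure {b : A | ∃ γ ∈ Gam k x, ∃ a : A, b = ρ γ • a - a} = ⊤ →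
        ∀ W : ValuationSubring Ω, IsPl k W → ∀ c₀ : Aut k Ω → A, IsCoc (Dec k x W) ρ c₀ →
          ∃ c : Aut k Ω → A, IsCoc (Gam k x) ρ c ∧ (∀ γ ∈ Dec k x W, c γ = c₀ γ) ∧
            ∀ W' : ValuationSubring Ω, IsPl k W' → ¬ Agr k⟮x⟯ W W' →
              ∃ a : A, ∀ γ ∈ Dec k x W', c γ = ρ γ • a - a

/-- Lifting with prescribed behaviour at infinity. -/
def StmtLG : Prop := ∀ (p : ℕ) [Fact p.Prime] (k Ω : Type) [Field k] [IsAlgClosed k]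
  [CharP k p] [Field Ω] [IsAlgClosed Ω] [Algebra k Ω] (x : Ω), Co k x →
    ∀ (E E' : Type) [Group E] [Finite E] [Group E'] (π : E →* E'), Function.Surjective π →
      ∀ l : ℕ, l.Prime → l ≠ p → IsPGroup l π.ker → (∀ a ∈ π.ker, ∀ b ∈ π.ker, a * b = b * a) →
        ⁅π.ker, (⊤ : Subgroup E)⁆ = π.ker → ∀ ρ' : Aut k Ω → E', IsRep (Gam k x) ρ' →
          (∀ g, ∃ γ ∈ Gam k x, ρ' γ = g) → Unr x ρ' → ∀ W : ValuationSubring Ω, IsPl k W →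
            x ∉ W → ∀ ρi : Aut k Ω → E, IsRep (Dec k x W) ρi →
              (∀ γ ∈ Dec k x W, π (ρi γ) = ρ' γ) → ∃ ρ : Aut k Ω → E, IsRep (Gam k x) ρ ∧
                Unr x ρ ∧ (∀ γ ∈ Gam k x, π (ρ γ) = ρ' γ) ∧ ∀ γ ∈ Dec k x W, ρ γ = ρi γ

/-- Central lifting without new ramification on the affine line. -/
def StmtLGc : Prop := ∀ (p : ℕ) [Fact p.Prime] (k Ω : Type) [Field k] [IsAlgClosed k]
  [CharP k p] [Field Ω] [IsAlgClosed Ω] [Algebra k Ω] (x : Ω), Co k x →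
    ∀ (E E' : Type) [Group E] [Finite E] [Group E'] (π : E →* E'), Function.Surjective π →
      ∀ l : ℕ, l.Prime → l ≠ p → IsPGroup l π.ker → π.ker ≤ Subgroup.center E →
        ∀ ρ' : Aut k Ω → E', IsRep (Gam k x) ρ' → ∃ ρ : Aut k Ω → E, IsRep (Gam k x) ρ ∧
          (∀ γ ∈ Gam k x, π (ρ γ) = ρ' γ) ∧ ∀ W : ValuationSubring Ω, IsPl k W → x ∈ W →
            (∀ γ ∈ Dec k x W, ρ' γ = 1) → ∀ γ ∈ Dec k x W, ρ γ = 1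

/-- A lift with prescribed tame ramification at zero. -/
def StmtProp : Prop := ∀ (p : ℕ) [Fact p.Prime] (k Ω : Type) [Field k] [IsAlgClosed k]
  [CharP k p] [Field Ω] [IsAlgClosed Ω] [Algebra k Ω] (x : Ω), Co k x →
    ∀ (G : Type) [Group G] [Finite G] (K : Subgroup G) [K.Normal] (l : ℕ), l.Prime → l ≠ p →
      IsPGroup l K → ⁅K, K⁆ ≤ Subgroup.center G → ⁅K, (⊤ : Subgroup G)⁆ = K →
      ∀ ρ : Aut k Ω → G, IsRep (Gam k x) ρ → Unr x ρ →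
        (∀ g, ∃ γ ∈ Gam k x, g * (ρ γ)⁻¹ ∈ K) → ∀ W W₀ : ValuationSubring Ω, IsPl k W → x ∉ W →
          IsPl k W₀ → W₀.valuation x < 1 → ∀ M : ℕ, ¬ p ∣ M → (∀ a ∈ K, a ^ M = 1) →
            ∀ z ω : Ω, z ^ M = x → IsPrimitiveRoot ω M → ∀ w ∈ K,
              ∃ ρ' : Aut k Ω → G, IsRep (Gam k x) ρ' ∧ (∀ γ ∈ Gam k x, ρ' γ * (ρ γ)⁻¹ ∈ K) ∧
                Unr z ρ' ∧ (∀ γ ∈ Dec k z W, ρ' γ = ρ γ) ∧
                (∀ γ ∈ Dec k x W, ρ' γ * (ρ γ)⁻¹ ∈ ⁅K, K⁆) ∧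
                ∀ γ ∈ Dec k x W₀, ∀ i : ℕ, γ z = ω ^ i * z → ρ' γ * (w ^ i)⁻¹ ∈ ⁅K, K⁆

/-- Any central tame twist at infinity occurs after a Kummer pull-back. -/
def StmtHeis : Prop := ∀ (p : ℕ) [Fact p.Prime] (k Ω : Type) [Field k] [IsAlgClosed k]
  [CharP k p] [Field Ω] [IsAlgClosed Ω] [Algebra k Ω] (x : Ω), Co k x →
    ∀ (G : Type) [Group G] [Finite G] (K : Subgroup G) [K.Normal] (l : ℕ), l.Prime → l ≠ p →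
      IsPGroup l K → ⁅K, K⁆ ≤ Subgroup.center G → ⁅K, (⊤ : Subgroup G)⁆ = K →
      ∀ u ∈ K, (∀ c ∈ ⁅K, K⁆, ∃ w ∈ K, u * w * u⁻¹ * w⁻¹ = c) →
      ∀ ρ : Aut k Ω → G, IsRep (Gam k x) ρ → Unr x ρ →
        (∀ g, ∃ γ ∈ Gam k x, ρ γ = g) → ∀ W : ValuationSubring Ω, IsPl k W → x ∉ W →
          ∀ M : ℕ, ¬ p ∣ M → (∀ a ∈ K, a ^ M = 1) → ∀ z r : Ω, z ^ M = x → r ^ M = z →
            ∀ lam : Ω → G, IsLam M ⁅K, K⁆ lam → ∃ ρ₁ : Aut k Ω → G, IsRep (Gam k z) ρ₁ ∧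
              Unr z ρ₁ ∧ ∀ γ ∈ Dec k z W, ρ₁ γ = ρ γ * lam (γ r / r)

/-- Choice of the central twist. -/
def StmtSteer : Prop := ∀ (p : ℕ) [Fact p.Prime] (k Ω : Type) [Field k] [IsAlgClosed k]
  [CharP k p] [Field Ω] [IsAlgClosed Ω] [Algebra k Ω] (x : Ω), Co k x →
    ∀ W : ValuationSubring Ω, IsPl k W → x ∉ W → ∀ (G : Type) [Group G] [Finite G]
      (ρ : Aut k Ω → G), IsRep (Dec k x W) ρ → ∀ M : ℕ, ¬ p ∣ M →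
        (∀ g : G, ∃ j : ℕ, g ^ (M * p ^ j) = 1) → ∀ r : Ω, r ^ M = x → ∀ Z I P : Subgroup G,
          Z ≤ Subgroup.center G → (∀ c ∈ Z, c ^ M = 1) → CycP p I P →
          (∀ γ ∈ Dec k x W, ∃ g ∈ I, ρ γ * g⁻¹ ∈ Z) → (∀ g ∈ I, ∃ γ ∈ Dec k x W, ρ γ * g⁻¹ ∈ Z) →
            ∃ lam : Ω → G, IsLam M Z lam ∧
              (fun γ => ρ γ * lam (γ r / r)) '' (Dec k x W : Set (Aut k Ω)) = (I : Set G)

/-! ### The induction -/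

/-- The three kinds of normal subgroups. -/
def StmtGrp : Prop := ∀ (p : ℕ) [Fact p.Prime] (G : Type) [Group G] [Finite G] (M H P : Subgroup G)
  [M.Normal], Group.IsSolvable M → M ≠ ⊥ → IsPGroup p P → Subgroup.normalClosure (P : Set G) = ⊤ →
    (∀ l : ℕ, l.Prime → l ≠ p → l ∣ (⁅M, (⊤ : Subgroup G)⁆).relIndex M → ¬ l ∣ Nat.card H) →
      ∃ K : Subgroup G, K.Normal ∧ K ≠ ⊥ ∧ K ≤ M ∧
        (((∀ a ∈ K, ∀ b ∈ K, a * b = b * a) ∧ (∀ a ∈ K, a ^ p = 1) ∧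
            ∀ N : Subgroup G, N.Normal → N ≤ K → N = ⊥ ∨ N = K) ∨
          (∃ l : ℕ, l.Prime ∧ l ≠ p ∧ IsPGroup l K ∧
            (∀ N : Subgroup G, N.Normal → N ≤ K → N = K ∨ N ≤ Subgroup.center G) ∧
            ⁅K, K⁆ ≤ Subgroup.center G ∧ ⁅K, (⊤ : Subgroup G)⁆ = K ∧
            ∃ u ∈ K, u ∉ Subgroup.center G ∧ ∀ c ∈ ⁅K, K⁆, ∃ w ∈ K, u * w * u⁻¹ * w⁻¹ = c) ∨
          ∃ l : ℕ, l.Prime ∧ l ≠ p ∧ K ≤ Subgroup.center G ∧ Nat.card K = l ∧ ¬ l ∣ Nat.card H)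

/-- Lifting through a minimal normal `p`-subgroup. -/
def StmtStepP : Prop := ∀ (p : ℕ) [Fact p.Prime] (k Ω : Type) [Field k] [IsAlgClosed k]
  [CharP k p] [Field Ω] [IsAlgClosed Ω] [Algebra k Ω] (G G' : Type) [Group G] [Finite G]
  [Group G'] (π : G →* G'), Function.Surjective π → ∀ H P : Subgroup G, CycP p H P →
    Subgroup.normalClosure (P : Set G) = ⊤ → (∀ a ∈ π.ker, ∀ b ∈ π.ker, a * b = b * a) →
    (∀ a ∈ π.ker, a ^ p = 1) → (∀ N : Subgroup G, N.Normal → N ≤ π.ker → N = ⊥ ∨ N = π.ker) →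
      Real k Ω G' (H.map π) → Real k Ω G H

/-- Lifting through a minimal non-central normal `l`-subgroup. -/
def StmtStepL : Prop := ∀ (p : ℕ) [Fact p.Prime] (k Ω : Type) [Field k] [IsAlgClosed k]
  [CharP k p] [Field Ω] [IsAlgClosed Ω] [Algebra k Ω] (G G' : Type) [Group G] [Finite G]
  [Group G'] (π : G →* G'), Function.Surjective π → ∀ H P : Subgroup G, CycP p H P →
    Subgroup.normalClosure (P : Set G) = ⊤ → ∀ l : ℕ, l.Prime → l ≠ p → IsPGroup l π.ker →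
    (∀ N : Subgroup G, N.Normal → N ≤ π.ker → N = π.ker ∨ N ≤ Subgroup.center G) →
    ⁅π.ker, π.ker⁆ ≤ Subgroup.center G → ⁅π.ker, (⊤ : Subgroup G)⁆ = π.ker →
    ∀ u ∈ π.ker, u ∉ Subgroup.center G → (∀ c ∈ ⁅π.ker, π.ker⁆, ∃ w ∈ π.ker, u * w * u⁻¹ * w⁻¹ = c) →
      Real k Ω G' (H.map π) → Real k Ω G H

/-- Lifting through a central subgroup of prime order not dividing the order of `H`. -/
def StmtStepC : Prop := ∀ (p : ℕ) [Fact p.Prime] (k Ω : Type) [Field k] [IsAlgClosed k]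
  [CharP k p] [Field Ω] [IsAlgClosed Ω] [Algebra k Ω] (G G' : Type) [Group G] [Finite G]
  [Group G'] (π : G →* G'), Function.Surjective π → ∀ H P : Subgroup G, IsPGroup p P →
    Subgroup.normalClosure (P : Set G) = ⊤ → ∀ l : ℕ, l.Prime → l ≠ p →
    π.ker ≤ Subgroup.center G → Nat.card π.ker = l → ¬ l ∣ Nat.card H →
      Real k Ω G' (H.map π) → Real k Ω G H

/-- The lifting theorem in the language of representations. -/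
def StmtLift : Prop := ∀ (p : ℕ) [Fact p.Prime] (k Ω : Type) [Field k] [IsAlgClosed k]
  [CharP k p] [Field Ω] [IsAlgClosed Ω] [Algebra k Ω] (G G' : Type) [Group G] [Finite G]
  [Group G'] (π : G →* G'), Function.Surjective π → Group.IsSolvable π.ker → ∀ H P : Subgroup G,
    CycP p H P → Subgroup.normalClosure (P : Set G) = ⊤ →
    (∀ l : ℕ, l.Prime → l ≠ p → l ∣ (⁅π.ker, (⊤ : Subgroup G)⁆).relIndex π.ker →
      ¬ l ∣ Nat.card H) → Real k Ω G' (H.map π) → Real k Ω G H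

/-- From a finite Galois extension of the rational function field to a representation. -/
def StmtBr1 : Prop := ∀ (p : ℕ) [Fact p.Prime] (k Ω : Type) [Field k] [IsAlgClosed k]
  [CharP k p] [Field Ω] [IsAlgClosed Ω] [Algebra k Ω] (x : Ω), Co k x →
    ∀ ω : ValuationSubring (RatFunc k), RatFunc.X ∉ ω → (∀ c : k, algebraMap k (RatFunc k) c ∈ ω) →
      ∀ (G : Type) [Group G] (H : Subgroup G), Occurs k ω G H → RealAt k x G H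

/-- From a representation to a finite Galois extension of a given function field. -/
def StmtBr2 : Prop := ∀ (p : ℕ) [Fact p.Prime] (k K : Type) [Field k] [IsAlgClosed k]
  [CharP k p] [Field K] [Algebra k K] [Algebra.EssFiniteType k K], Algebra.trdeg k K = 1 →
    ∀ ξ : ValuationSubring K, ξ ≠ ⊤ → (∀ c : k, algebraMap k K c ∈ ξ) →
      ∀ (G : Type) [Group G] [Finite G] (H : Subgroup G),
        Subgroup.normalClosure (H : Set G) = ⊤ → Real k (AlgebraicClosure K) G H → Occurs k ξ G H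

end Pool.Agent.Lib.IW
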