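import Pool.Agent.Lib.IW.Occ

/-! Definitions for the inertia-conjecture project (IW). -/

open Polynomial IntermediateField
open scoped Pointwise

namespace Pool.Agent.Lib.IW

section Basic

variable (k : Type) {Ω : Type} [Field k] [Field Ω] [Algebra k Ω]

variable (Ω) in
/-- Automorphisms of `Ω` over `k`. -/
abbrev Aut : Type := Ω ≃ₐ[k] Ω

/-- `x` is a coordinate: transcendental, and `Ω` is algebraic over `k(x)`. -/
structure Co (x : Ω) : Prop where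
  tr : Transcendental k x
  alg : ∀ y : Ω, IsAlgebraic k⟮x⟯ y

/-- Automorphisms fixing `x`. -/
def Gam (x : Ω) : Subgroup (Aut k Ω) := MulAction.stabilizer (Aut k Ω) x

/-- A place: a proper valuation ring containing the constants. -/
def IsPl (W : ValuationSubring Ω) : Prop := W ≠ ⊤ ∧ ∀ c : k, algebraMap k Ω c ∈ W

/-- Decomposition group over `k(x)`. -/
def Dec (x : Ω) (W : ValuationSubring Ω) : Subgroup (Aut k Ω) :=
  Gam k x ⊓ W.decompositionSubgroup k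

variable {k}

/-- Decomposition group over an intermediate field. -/
def DecF (F : IntermediateField k Ω) (W : ValuationSubring Ω) : Subgroup (Aut k Ω) :=
  F.fixingSubgroup ⊓ W.decompositionSubgroup k

/-- `F` is a function field in one variable with algebraic closure `Ω`. -/
def FF (F : IntermediateField k Ω) : Prop := F.FG ∧ ∃ x ∈ F, Co k x

/-- `π` is a uniformiser of `F` at `W`. -/
def IsUnif (F : IntermediateField k Ω) (W : ValuationSubring Ω) (π : Ω) : Prop :=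
  π ∈ F ∧ π ≠ 0 ∧ W.valuation π < 1 ∧ ∀ y ∈ F, W.valuation y < 1 → W.valuation y ≤ W.valuation π

/-- Two valuation rings agree on `F`. -/
def Agr (F : IntermediateField k Ω) (W W' : ValuationSubring Ω) : Prop :=
  ∀ y ∈ F, (y ∈ W ↔ y ∈ W')

/-- `f` depends only on the values at finitely many elements. -/
def Cts {X : Type} (Δ : Subgroup (Aut k Ω)) (f : Aut k Ω → X) : Prop :=
  ∃ S : Finset Ω, ∀ γ ∈ Δ, ∀ δ ∈ Δ, (∀ s ∈ S, γ s = δ s) → f γ = f δ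

/-- A continuous homomorphism on the subgroup `Δ`. -/
structure IsRep {G : Type} [Group G] (Δ : Subgroup (Aut k Ω)) (ρ : Aut k Ω → G) : Prop where
  mul : ∀ γ ∈ Δ, ∀ δ ∈ Δ, ρ (γ * δ) = ρ γ * ρ δ
  cts : Cts Δ ρ

/-- A continuous one-cocycle on `Δ`. -/
structure IsCoc {H A : Type} [Group H] [AddCommGroup A] [DistribMulAction H A]
    (Δ : Subgroup (Aut k Ω)) (ρ : Aut k Ω → H) (c : Aut k Ω → A) : Prop where
  add : ∀ γ ∈ Δ, ∀ δ ∈ Δ, c (γ * δ) = c γ + ρ γ • c δ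
  cts : Cts Δ c

/-- Unramified at all places where `x` is finite. -/
def Unr {G : Type} [Group G] (x : Ω) (ρ : Aut k Ω → G) : Prop :=
  ∀ W : ValuationSubring Ω, IsPl k W → x ∈ W → ∀ γ ∈ Dec k x W, ρ γ = 1

variable (k)

/-- Regular at all places where `x` is finite (integral over `k[x]`). -/
def Intg (x y : Ω) : Prop := ∀ W : ValuationSubring Ω, IsPl k W → x ∈ W → y ∈ W

/-- Regular at all places where `x` has a pole. -/
def IntgInf (x y : Ω) : Prop := ∀ W : ValuationSubring Ω, IsPl k W → x ∉ W → y ∈ W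

/-- `I` is the inertia group at infinity of a `G`-cover of the affine `x`-line. -/
def RealAt (x : Ω) (G : Type) [Group G] (I : Subgroup G) : Prop :=
  ∃ ρ : Aut k Ω → G, IsRep (Gam k x) ρ ∧ (∀ g : G, ∃ γ ∈ Gam k x, ρ γ = g) ∧ Unr x ρ ∧
    ∃ W : ValuationSubring Ω, IsPl k W ∧ x ∉ W ∧ ρ '' (Dec k x W : Set (Aut k Ω)) = (I : Set G)

variable (Ω) in
/-- `I` is the inertia group at infinity of a `G`-cover of the affine line. -/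
def Real (G : Type) [Group G] (I : Subgroup G) : Prop := ∃ x : Ω, Co k x ∧ RealAt k x G I

variable {k}

@[simp] lemma mem_Gam {x : Ω} {γ : Aut k Ω} : γ ∈ Gam k x ↔ γ x = x := Iff.rfl

lemma mem_Dec {x : Ω} {W : ValuationSubring Ω} {γ : Aut k Ω} :
    γ ∈ Dec k x W ↔ γ x = x ∧ γ • W = W := Iff.rfl

lemma mem_DecF {F : IntermediateField k Ω} {W : ValuationSubring Ω} {γ : Aut k Ω} :
    γ ∈ DecF F W ↔ (∀ y ∈ F, γ y = y) ∧ γ • W = W := by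
  simp [DecF, IntermediateField.mem_fixingSubgroup_iff, MulAction.mem_stabilizer_iff]

lemma fix_adjoin (x : Ω) : (k⟮x⟯).fixingSubgroup = Gam k x := by
  ext γ
  rw [IntermediateField.mem_fixingSubgroup_iff, mem_Gam]
  refine ⟨fun h => h x (mem_adjoin_simple_self k x), fun h y hy => ?_⟩
  induction hy using IntermediateField.adjoin_induction with
  | mem y hy => rw [Set.mem_singleton_iff.1 hy, h]
  | algebraMap c => exact γ.commutes c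
  | add a b _ _ ha hb => rw [map_add, ha, hb]
  | inv a _ ha => rw [map_inv₀, ha]
  | mul a b _ _ ha hb => rw [map_mul, ha, hb]

lemma DecF_adjoin (x : Ω) (W : ValuationSubring Ω) : DecF k⟮x⟯ W = Dec k x W := by
  rw [DecF, fix_adjoin, Dec]

lemma Dec_le (x : Ω) (W : ValuationSubring Ω) : Dec k x W ≤ Gam k x := inf_le_left

lemma conj_mem_Dec {x : Ω} {W : ValuationSubring Ω} {γ δ : Aut k Ω} (hδ : δ ∈ Gam k x) :
    δ⁻¹ * γ * δ ∈ Dec k x W ↔ γ ∈ Dec k x (δ • W) := by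
  rw [mem_Dec, mem_Dec, mul_smul, mul_smul, inv_smul_eq_iff]
  refine and_congr_left fun _ => ?_
  change (δ⁻¹ * γ * δ) • x = x ↔ γ • x = x
  have h : δ • x = x := hδ
  rw [mul_smul, mul_smul, h, inv_smul_eq_iff, h]

lemma Gam_le_of_pow {x z : Ω} {n : ℕ} (h : z ^ n = x) : Gam k z ≤ Gam k x := fun γ hγ => by
  rw [mem_Gam] at hγ ⊢
  rw [← h, map_pow, hγ]

lemma Dec_le_of_pow {x z : Ω} {n : ℕ} (h : z ^ n = x) (W : ValuationSubring Ω) :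
    Dec k z W ≤ Dec k x W := inf_le_inf_right _ (Gam_le_of_pow h)

lemma Gam_inv (x : Ω) : Gam k x⁻¹ = Gam k x := by
  ext γ
  simp

lemma fix_le_Gam {F : IntermediateField k Ω} {x : Ω} (h : x ∈ F) : F.fixingSubgroup ≤ Gam k x :=
  fun γ hγ => (IntermediateField.mem_fixingSubgroup_iff F γ).1 hγ x h

lemma Co.ff {x : Ω} (h : Co k x) : FF k⟮x⟯ :=
  ⟨⟨{x}, by simp⟩, x, mem_adjoin_simple_self k x, h⟩

lemma Cts.mono {X : Type} {Δ Δ' : Subgroup (Aut k Ω)} {f : Aut k Ω → X} (h : Cts Δ f)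
    (hle : Δ' ≤ Δ) : Cts Δ' f := by
  obtain ⟨S, hS⟩ := h
  exact ⟨S, fun γ hγ δ hδ => hS γ (hle hγ) δ (hle hδ)⟩

lemma Cts.comp {X Y : Type} {Δ : Subgroup (Aut k Ω)} {f : Aut k Ω → X} (h : Cts Δ f)
    (g : X → Y) : Cts Δ fun γ => g (f γ) := by
  obtain ⟨S, hS⟩ := h
  exact ⟨S, fun γ hγ δ hδ e => congrArg g (hS γ hγ δ hδ e)⟩

lemma Cts.comp₂ {X Y Z : Type} {Δ : Subgroup (Aut k Ω)} {f : Aut k Ω → X} {f' : Aut k Ω → Y}
    (h : Cts Δ f) (h' : Cts Δ f') (g : X → Y → Z) : Cts Δ fun γ => g (f γ) (f' γ) := by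
  classical
  obtain ⟨S, hS⟩ := h
  obtain ⟨S', hS'⟩ := h'
  refine ⟨S ∪ S', fun γ hγ δ hδ e => ?_⟩
  beta_reduce
  rw [hS γ hγ δ hδ fun s hs => e s (Finset.mem_union_left _ hs),
    hS' γ hγ δ hδ fun s hs => e s (Finset.mem_union_right _ hs)]

lemma cts_apply (Δ : Subgroup (Aut k Ω)) (r : Ω) : Cts Δ fun γ => γ r :=
  ⟨{r}, fun _ _ _ _ e => e r (Finset.mem_singleton_self r)⟩

lemma Cts.congr {X : Type} {Δ : Subgroup (Aut k Ω)} {f g : Aut k Ω → X} (h : Cts Δ f)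
    (e : ∀ γ ∈ Δ, f γ = g γ) : Cts Δ g := by
  obtain ⟨S, hS⟩ := h
  exact ⟨S, fun γ hγ δ hδ e' => by rw [← e γ hγ, ← e δ hδ, hS γ hγ δ hδ e']⟩

namespace IsRep

variable {G : Type} [Group G] {Δ : Subgroup (Aut k Ω)} {ρ : Aut k Ω → G}

lemma mono (h : IsRep Δ ρ) {Δ' : Subgroup (Aut k Ω)} (hle : Δ' ≤ Δ) : IsRep Δ' ρ :=
  ⟨fun γ hγ δ hδ => h.mul γ (hle hγ) δ (hle hδ), h.cts.mono hle⟩

/-- The bundled homomorphism. -/
def hom (h : IsRep Δ ρ) : Δ →* G :=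
  MonoidHom.mk' (fun γ => ρ γ) fun γ δ => h.mul γ γ.2 δ δ.2

@[simp] lemma hom_apply (h : IsRep Δ ρ) (γ : Δ) : h.hom γ = ρ γ := rfl

lemma one (h : IsRep Δ ρ) : ρ 1 = 1 := h.hom.map_one

lemma inv (h : IsRep Δ ρ) {γ : Aut k Ω} (hγ : γ ∈ Δ) : ρ γ⁻¹ = (ρ γ)⁻¹ :=
  h.hom.map_inv ⟨γ, hγ⟩

lemma pow (h : IsRep Δ ρ) {γ : Aut k Ω} (hγ : γ ∈ Δ) (n : ℕ) : ρ (γ ^ n) = ρ γ ^ n :=
  h.hom.map_pow ⟨γ, hγ⟩ n

lemma comp (h : IsRep Δ ρ) {G' : Type} [Group G'] (π : G →* G') : IsRep Δ fun γ => π (ρ γ) :=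
  ⟨fun γ hγ δ hδ => by rw [h.mul γ hγ δ hδ, map_mul], h.cts.comp π⟩

lemma prod (h : IsRep Δ ρ) {G' : Type} [Group G'] {ρ' : Aut k Ω → G'} (h' : IsRep Δ ρ') :
    IsRep Δ fun γ => (ρ γ, ρ' γ) :=
  ⟨fun γ hγ δ hδ => by rw [h.mul γ hγ δ hδ, h'.mul γ hγ δ hδ]; rfl,
    h.cts.comp₂ h'.cts Prod.mk⟩

/-- The image, as a subgroup. -/
def im (h : IsRep Δ ρ) : Subgroup G := h.hom.range

lemma mem_im (h : IsRep Δ ρ) {g : G} : g ∈ h.im ↔ ∃ γ ∈ Δ, ρ γ = g :=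
  ⟨fun ⟨γ, e⟩ => ⟨γ, γ.2, e⟩, fun ⟨γ, hγ, e⟩ => ⟨⟨γ, hγ⟩, e⟩⟩

lemma coe_im (h : IsRep Δ ρ) : (h.im : Set G) = ρ '' (Δ : Set (Aut k Ω)) :=
  Set.ext fun _ => h.mem_im

end IsRep

end Basic

section Res

variable {k : Type} (𝕜 : Type) {Ω Ω' : Type} [Field k] [Field 𝕜] [Field Ω] [Field Ω']
  [Algebra k Ω] [Algebra k Ω'] [Algebra 𝕜 Ω']

open Classical in
/-- Restriction of an automorphism along an embedding (junk value `1`). -/
noncomputable def res (ι : Ω →ₐ[k] Ω') (γ' : Aut 𝕜 Ω') : Aut k Ω :=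
  if h : ∃ γ : Aut k Ω, ∀ y, ι (γ y) = γ' (ι y) then h.choose else 1

end Res

section Grp

variable {G : Type} [Group G]

/-- `P` is a normal `p`-subgroup of `I` with cyclic quotient. -/
def CycP (p : ℕ) (I P : Subgroup G) : Prop :=
  P ≤ I ∧ IsPGroup p P ∧ (∀ g ∈ I, ∀ a ∈ P, g * a * g⁻¹ ∈ P) ∧
    ∃ c ∈ I, ∀ g ∈ I, ∃ i : ℕ, g * (c ^ i)⁻¹ ∈ P

/-- `lam` is multiplicative on the `M`-th roots of unity, with values in `Z`. -/
def IsLam {Ω : Type} [Field Ω] (M : ℕ) (Z : Subgroup G) (lam : Ω → G) : Prop :=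
  (∀ ζ ζ' : Ω, ζ ^ M = 1 → ζ' ^ M = 1 → lam (ζ * ζ') = lam ζ * lam ζ') ∧
    ∀ ζ : Ω, ζ ^ M = 1 → lam ζ ∈ Z

/-- A linear model of an elementary abelian normal `p`-subgroup with the conjugation action. -/
structure IsLin {p r : ℕ} (V : Subgroup G) (e : (Fin r → ZMod p) → G)
    (a : G →* Matrix (Fin r) (Fin r) (ZMod p)) : Prop where
  inj : Function.Injective e
  add : ∀ u v, e (u + v) = e u * e v
  range : ∀ g, g ∈ V ↔ ∃ u, e u = g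
  conj : ∀ g u, g * e u * g⁻¹ = e ((a g).mulVec u)
  triv : ∀ g ∈ V, a g = 1

end Grp

section Engine

variable (𝕜 : Type) {Q : Type} [NormedField 𝕜] [NormedField Q] [NormedAlgebra 𝕜 Q]

/-- `Q` is a completion of `𝕜(σ)` for the Gauss norm. -/
structure Gauss (σ : Q) : Prop where
  gauss : ∀ a : 𝕜, ‖σ - algebraMap 𝕜 Q a‖ = max 1 ‖a‖
  dense : ∀ (y : Q) (ε : ℝ), 0 < ε → ∃ e ∈ 𝕜⟮σ⟯, ‖y - e‖ < ε

/-- Functions on the closed unit disc. -/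
noncomputable def R1 (σ : Q) : Subalgebra 𝕜 Q := (Algebra.adjoin 𝕜 {σ}).topologicalClosure

/-- Functions on the complement of the closed unit disc. -/
noncomputable def R2 (σ : Q) : Subalgebra 𝕜 Q :=
  (Algebra.adjoin 𝕜 {y : Q | ∃ a : 𝕜, ‖a‖ ≤ 1 ∧ y = (σ - algebraMap 𝕜 Q a)⁻¹}).topologicalClosure

/-- Allow rational functions as coefficients. -/
noncomputable def Mer (σ : Q) (R : Subalgebra 𝕜 Q) : Subalgebra 𝕜 Q := R ⊔ (𝕜⟮σ⟯).toSubalgebra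

/-- The elements of `Ω'` that come from the subalgebra `R` of `Q`. -/
noncomputable def Eof {Ω' : Type} [Field Ω'] [Algebra 𝕜 Ω']
    (κ : Ω' →ₐ[𝕜] AlgebraicClosure Q) (R : Subalgebra 𝕜 Q) : IntermediateField 𝕜 Ω' :=
  IntermediateField.adjoin 𝕜 {y | ∃ r ∈ R, algebraMap Q (AlgebraicClosure Q) r = κ y}

end Engine

section PD

variable (k : Type) {𝕜 Ω' : Type} [Field k] [Field 𝕜] [Field Ω'] [Algebra k Ω'] [Algebra 𝕜 Ω']

/-- The factorisation property used for patching. -/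
def FactP (E0 E1 E2 : IntermediateField 𝕜 Ω') : Prop :=
  ∀ (ι : Type) [Fintype ι] [DecidableEq ι] (X1 X2 : Matrix ι ι Ω'), X1.det ≠ 0 → X2.det ≠ 0 →
    (∀ i j, (X1 * X2⁻¹) i j ∈ E0) →
    (∀ l i j, (X1 * Matrix.diagonal (X1 l) * X1⁻¹) i j ∈ E1) →
    (∀ l i j, (X2 * Matrix.diagonal (X2 l) * X2⁻¹) i j ∈ E2) →
    ∃ A1 A2 : Matrix ι ι Ω', (∀ i j, A1 i j ∈ E1) ∧ (∀ i j, A2 i j ∈ E2) ∧ A1.det ≠ 0 ∧
      A1 * X1 = A2 * X2

/-- Every place has a conjugate whose decomposition group fixes `E1` or `E2`. -/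
structure LocP (σ : Ω') (E1 E2 : IntermediateField 𝕜 Ω') (O : ValuationSubring Ω') : Prop where
  loc1 : ∀ a : 𝕜, algebraMap 𝕜 Ω' a ∈ O → ∃ W : ValuationSubring Ω', IsPl 𝕜 W ∧
    W.valuation (σ - algebraMap 𝕜 Ω' a) < 1 ∧ Dec 𝕜 σ W ≤ E1.fixingSubgroup
  loc2 : ∀ a : 𝕜, algebraMap 𝕜 Ω' a ∉ O → ∃ W : ValuationSubring Ω', IsPl 𝕜 W ∧
    W.valuation (σ - algebraMap 𝕜 Ω' a) < 1 ∧ Dec 𝕜 σ W ≤ E2.fixingSubgroup
  locInf : ∃ W : ValuationSubring Ω', IsPl 𝕜 W ∧ σ ∉ W ∧ Dec 𝕜 σ W ≤ E2.fixingSubgroup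

/-- The remaining properties of a patching datum. -/
structure BasP (σ : Ω') (E0 E1 E2 : IntermediateField 𝕜 Ω') (O : ValuationSubring Ω') :
    Prop where
  co : Co 𝕜 σ
  le1 : E1 ≤ E0
  le2 : E2 ≤ E0
  mem1 : σ ∈ E1
  mem2 : σ ∈ E2
  inter : ∀ y, y ∈ E1 → y ∈ E2 → y ∈ 𝕜⟮σ⟯
  dec : E0.fixingSubgroup ≤ O.decompositionSubgroup 𝕜
  const : ∀ c : k, algebraMap k Ω' c ∈ O
  gauss : ∀ a : 𝕜, algebraMap 𝕜 Ω' a ∈ O → O.valuation (σ - algebraMap 𝕜 Ω' a) = 1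
  small : ∃ t : 𝕜, t ≠ 0 ∧ O.valuation (algebraMap 𝕜 Ω' t) < 1
  hens1 : ∀ f : k[X][X], f.Monic → (f.map (evalRingHom 0)).Separable → ∀ ε : 𝕜,
    O.valuation (algebraMap 𝕜 Ω' ε) < 1 → ∀ y : Ω',
      f.eval₂ (aeval (algebraMap 𝕜 Ω' ε * σ)).toRingHom y = 0 → y ∈ E1
  hens0 : ∀ f : k[X][X], f.Monic → (f.map (evalRingHom 0)).Separable → ∀ s ∈ E0,
    O.valuation s < 1 → ∀ y : Ω', f.eval₂ (aeval s).toRingHom y = 0 → y ∈ E0
  res : ∀ y ∈ E0, y ∈ O → ∃ P P' : k[X], P' ≠ 0 ∧ O.valuation (y - aeval σ P / aeval σ P') < 1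
  ev1 : ∀ b c : 𝕜, c ≠ 0 → algebraMap 𝕜 Ω' b + algebraMap 𝕜 Ω' c * σ ∈ O →
    ∃ j : E1 →ₐ[𝕜] Ω', (∀ y, j y ∈ E0) ∧
      ∀ y : E1, (y : Ω') = σ → j y = algebraMap 𝕜 Ω' b + algebraMap 𝕜 Ω' c * σ
  ev2 : ∀ b c : 𝕜, c ≠ 0 → algebraMap 𝕜 Ω' b + algebraMap 𝕜 Ω' c * σ ∉ O →
    ∃ j : E2 →ₐ[𝕜] Ω', (∀ y, j y ∈ E0) ∧
      ∀ y : E2, (y : Ω') = σ → j y = algebraMap 𝕜 Ω' b + algebraMap 𝕜 Ω' c * σ

end PD

section Spec

variable {k : Type} (𝕜 : Type) {Ω Ω' : Type} [Field k] [Field 𝕜] [Field Ω] [Field Ω']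
  [Algebra k Ω] [Algebra k Ω'] [Algebra 𝕜 Ω']

variable (k) in
/-- A specialisation: a place of `Ω'` with values in `Ω`, sending `σ` to `x` and constants to
constants. -/
structure Adm (σ : Ω') (x : Ω) (O : ValuationSubring Ω') (ψ : Ω' → Ω) : Prop where
  add : ∀ a ∈ O, ∀ b ∈ O, ψ (a + b) = ψ a + ψ b
  mul : ∀ a ∈ O, ∀ b ∈ O, ψ (a * b) = ψ a * ψ b
  unit : ∀ a ∈ O, ψ a ≠ 0 → a⁻¹ ∈ O
  memk : ∀ c : k, algebraMap k Ω' c ∈ O
  mapk : ∀ c : k, ψ (algebraMap k Ω' c) = algebraMap k Ω c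
  mem : σ ∈ O
  map : ψ σ = x
  const : ∀ c : 𝕜, algebraMap 𝕜 Ω' c ∈ O → ∃ c₀ : k, ψ (algebraMap 𝕜 Ω' c) = algebraMap k Ω c₀

variable (k) in
/-- A property that holds for all sufficiently general specialisations. -/
def Ev (σ : Ω') (x : Ω) (Pr : ValuationSubring Ω' → (Ω' → Ω) → Prop) : Prop :=
  ∃ T : Finset 𝕜, (∀ c ∈ T, c ≠ 0) ∧ ∀ O ψ, Adm k 𝕜 σ x O ψ →
    (∀ c ∈ T, O.valuation (algebraMap 𝕜 Ω' c) = 1) → Pr O ψ

end Spec

end Pool.Agent.Lib.IW
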