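import Pool.Agent.Lib.IW.Util

/-! The Gauss norm on polynomials and rational functions in a Gauss element. -/

open Polynomial IntermediateField
open scoped Pointwise

namespace Pool.Agent.Lib.IW

namespace GN

variable {𝕜 Q : Type} [NormedField 𝕜] [IsAlgClosed 𝕜] [NormedField Q] [NormedAlgebra 𝕜 Q]

lemma tr {σ : Q} (h : Gauss 𝕜 σ) : Transcendental 𝕜 σ := fun ha => by
  obtain ⟨c, rfl⟩ := minpoly.mem_range_of_degree_eq_one 𝕜 σ
    (IsAlgClosed.degree_eq_one_of_irreducible 𝕜 (minpoly.irreducible ha.isIntegral))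
  have h1 := h.gauss c
  rw [sub_self, norm_zero] at h1
  have h2 : (1 : ℝ) ≤ max 1 ‖c‖ := le_max_left _ _
  linarith

lemma aeval_ne {σ : Q} (h : Gauss 𝕜 σ) {q : 𝕜[X]} (hq : q ≠ 0) : aeval σ q ≠ 0 :=
  fun h0 => tr h ⟨q, hq, h0⟩

lemma root_ind {M : 𝕜[X] → Prop} (h0 : ∀ c, M (C c))
    (h1 : ∀ (a : 𝕜) (P : 𝕜[X]), M P → M ((X - C a) * P)) (P : 𝕜[X]) : M P := by
  induction hn : P.natDegree generalizing P with
  | zero => rw [eq_C_of_natDegree_eq_zero hn]; exact h0 _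
  | succ n ih =>
    obtain ⟨a, ha⟩ := IsAlgClosed.exists_root P (fun hd => by
      rw [natDegree_eq_of_degree_eq_some (n := 0) hd] at hn
      omega)
    rw [← mul_divByMonic_eq_iff_isRoot.2 ha]
    refine h1 a _ (ih _ ?_)
    rw [natDegree_divByMonic _ (monic_X_sub_C a), hn, natDegree_X_sub_C]
    omega

omit [IsAlgClosed 𝕜] in
lemma le_iff (P : 𝕜[X]) (r : ℝ) :
    P.gaussNorm (NormedField.toAbsoluteValue 𝕜) 1 ≤ r ↔ ∀ i, ‖P.coeff i‖ ≤ r := by
  constructor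
  · intro h i
    have := P.le_gaussNorm (NormedField.toAbsoluteValue 𝕜) zero_le_one i
    rw [one_pow, mul_one] at this
    exact le_trans this h
  · intro h
    obtain ⟨i, hi⟩ := P.exists_eq_gaussNorm (NormedField.toAbsoluteValue 𝕜) 1
    rw [hi, one_pow, mul_one]
    exact h i

omit [IsAlgClosed 𝕜] in
lemma gauss_lin (a : 𝕜) :
    (X - C a).gaussNorm (NormedField.toAbsoluteValue 𝕜) 1 = max 1 ‖a‖ := by
  refine le_antisymm ((le_iff _ _).2 fun i => ?_) (max_le ?_ ?_)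
  · rcases i with _ | _ | i
    · simp
    · simp
    · simp [coeff_X]
  · have := (le_iff (X - C a) _).1 le_rfl 1
    simpa using this
  · have := (le_iff (X - C a) _).1 le_rfl 0
    simpa using this

lemma norm_aeval [IsUltrametricDist 𝕜] {σ : Q} (h : Gauss 𝕜 σ) (P : 𝕜[X]) :
    ‖aeval σ P‖ = P.gaussNorm (NormedField.toAbsoluteValue 𝕜) 1 := by
  induction P using root_ind with
  | h0 c =>
    rw [gaussNorm_C, aeval_C, norm_algebraMap']
    rfl
  | h1 a P ih =>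
    have hna : IsNonarchimedean (NormedField.toAbsoluteValue 𝕜) :=
      IsUltrametricDist.isNonarchimedean_norm
    rw [gaussNorm_mul hna zero_lt_one, gauss_lin, map_mul, norm_mul, ih, map_sub, aeval_X, aeval_C,
      h.gauss]

lemma s2_of {σ : Q} (h : Gauss 𝕜 σ) (n : ℕ) : ∀ P q : 𝕜[X], q.Monic →
    (∀ a, q.IsRoot a → ‖a‖ ≤ 1) → q.natDegree = n → P.natDegree ≤ n →
    aeval σ P / aeval σ q ∈
      Algebra.adjoin 𝕜 {y : Q | ∃ a : 𝕜, ‖a‖ ≤ 1 ∧ y = (σ - algebraMap 𝕜 Q a)⁻¹} := by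
  induction n with
  | zero =>
    intro P q hq _ hn hP
    rw [hq.natDegree_eq_zero.1 hn, eq_C_of_natDegree_eq_zero (Nat.le_zero.1 hP), map_one, div_one,
      aeval_C]
    exact Subalgebra.algebraMap_mem _ _
  | succ n ih =>
    intro P q hq hr hn hP
    obtain ⟨a, ha⟩ := IsAlgClosed.exists_root q (fun hd => by
      rw [natDegree_eq_of_degree_eq_some (n := 0) hd] at hn
      omega)
    have e1 := mul_divByMonic_eq_iff_isRoot.2 ha
    set q1 := q /ₘ (X - C a) with hq1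
    have hm : q1.Monic := (monic_X_sub_C a).of_mul_monic_left (e1.symm ▸ hq)
    have hd : q1.natDegree = n := by
      rw [hq1, natDegree_divByMonic _ (monic_X_sub_C a), hn, natDegree_X_sub_C]
      omega
    have hr1 : ∀ b, q1.IsRoot b → ‖b‖ ≤ 1 := fun b hb => hr b (by
      rw [← e1]; exact root_mul_left_of_isRoot _ hb)
    have e2 := modByMonic_add_div P (X - C a)
    rw [modByMonic_X_sub_C_eq_C_eval] at e2
    have i1 := ih (P /ₘ (X - C a)) q1 hm hr1 hd (by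
      rw [natDegree_divByMonic _ (monic_X_sub_C a), natDegree_X_sub_C]
      omega)
    have i2 := ih (C (P.eval a)) q1 hm hr1 hd (by rw [natDegree_C]; omega)
    have n1 : aeval σ q1 ≠ 0 := aeval_ne h hm.ne_zero
    have n2 : σ - algebraMap 𝕜 Q a ≠ 0 := by
      have := aeval_ne h (monic_X_sub_C a).ne_zero
      rwa [map_sub, aeval_X, aeval_C] at this
    have e3 : aeval σ P / aeval σ q = aeval σ (C (P.eval a)) / aeval σ q1
        * (σ - algebraMap 𝕜 Q a)⁻¹ + aeval σ (P /ₘ (X - C a)) / aeval σ q1 := by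
      conv_lhs => rw [← e2, ← e1, map_add, map_mul, map_mul, map_sub, aeval_X, aeval_C σ a]
      field_simp
    rw [e3]
    exact add_mem (mul_mem i2 (Algebra.subset_adjoin ⟨a, hr a ha, rfl⟩)) i1

lemma of_s2 {σ : Q} (h : Gauss 𝕜 σ) (y : Q)
    (hy : y ∈ Algebra.adjoin 𝕜 {y : Q | ∃ a : 𝕜, ‖a‖ ≤ 1 ∧ y = (σ - algebraMap 𝕜 Q a)⁻¹}) :
    ∃ P q : 𝕜[X], q.Monic ∧ (∀ a, q.IsRoot a → ‖a‖ ≤ 1) ∧ P.natDegree ≤ q.natDegree ∧
      y = aeval σ P / aeval σ q := by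
  induction hy using Algebra.adjoin_induction with
  | mem y hy =>
    obtain ⟨a, ha, rfl⟩ := hy
    refine ⟨1, X - C a, monic_X_sub_C a, fun b hb => ?_, by simp, by simp⟩
    rw [root_X_sub_C] at hb
    exact hb ▸ ha
  | algebraMap c => exact ⟨C c, 1, monic_one, fun b hb => by simp at hb, by simp, by simp⟩
  | add a b _ _ ha hb =>
    obtain ⟨P1, q1, m1, r1, d1, rfl⟩ := ha
    obtain ⟨P2, q2, m2, r2, d2, rfl⟩ := hb
    refine ⟨P1 * q2 + q1 * P2, q1 * q2, m1.mul m2, fun b hb => ?_, ?_, ?_⟩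
    · exact (root_mul.1 hb).elim (r1 b) (r2 b)
    · rw [m1.natDegree_mul m2]
      refine (natDegree_add_le _ _).trans (max_le ?_ ?_)
      · exact natDegree_mul_le.trans (by omega)
      · exact natDegree_mul_le.trans (by omega)
    · rw [div_add_div _ _ (aeval_ne h m1.ne_zero) (aeval_ne h m2.ne_zero), map_add, map_mul,
        map_mul, map_mul]
  | mul a b _ _ ha hb =>
    obtain ⟨P1, q1, m1, r1, d1, rfl⟩ := ha
    obtain ⟨P2, q2, m2, r2, d2, rfl⟩ := hb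
    refine ⟨P1 * P2, q1 * q2, m1.mul m2, fun b hb => ?_, ?_, ?_⟩
    · exact (root_mul.1 hb).elim (r1 b) (r2 b)
    · rw [m1.natDegree_mul m2]
      exact natDegree_mul_le.trans (by omega)
    · rw [div_mul_div_comm, map_mul, map_mul]

omit [IsAlgClosed 𝕜] in
lemma mer {σ : Q} (R S : Subalgebra 𝕜 Q) (hS : S ≤ R)
    (h : ∀ y ∈ 𝕜⟮σ⟯, ∃ r ∈ R, ∃ s ∈ S, s ≠ 0 ∧ y = r / s) :
    ∀ y ∈ Mer 𝕜 σ R, ∃ r ∈ R, ∃ s ∈ S, s ≠ 0 ∧ y = r / s := by
  let T : Subalgebra 𝕜 Q :=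
    { carrier := {y | ∃ r ∈ R, ∃ s ∈ S, s ≠ 0 ∧ y = r / s}
      mul_mem' := by
        rintro _ _ ⟨r1, hr1, s1, hs1, n1, rfl⟩ ⟨r2, hr2, s2, hs2, n2, rfl⟩
        exact ⟨r1 * r2, mul_mem hr1 hr2, s1 * s2, mul_mem hs1 hs2, mul_ne_zero n1 n2,
          div_mul_div_comm _ _ _ _⟩
      add_mem' := by
        rintro _ _ ⟨r1, hr1, s1, hs1, n1, rfl⟩ ⟨r2, hr2, s2, hs2, n2, rfl⟩
        exact ⟨r1 * s2 + s1 * r2, add_mem (mul_mem hr1 (hS hs2)) (mul_mem (hS hs1) hr2),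
          s1 * s2, mul_mem hs1 hs2, mul_ne_zero n1 n2, div_add_div _ _ n1 n2⟩
      algebraMap_mem' := fun c =>
        ⟨_, R.algebraMap_mem c, 1, one_mem _, one_ne_zero, (div_one _).symm⟩ }
  have : Mer 𝕜 σ R ≤ T :=
    sup_le (fun y hy => ⟨y, hy, 1, one_mem _, one_ne_zero, (div_one _).symm⟩) fun y hy => h y hy
  exact fun y hy => this hy

end GN

theorem blockGN : StmtGN where
  tr := fun _ _ _ _ _ _ _ h => GN.tr h
  coeff := fun _ _ _ _ _ _ _ _ h P r _ => by rw [GN.norm_aeval h, GN.le_iff]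
  s2 := fun _ _ _ _ _ _ _ h y => ⟨GN.of_s2 h y, fun ⟨P, q, hq, hr, hd, e⟩ =>
    e ▸ GN.s2_of h _ P q hq hr rfl hd⟩
  mer1 := fun 𝕜 Q _ _ _ _ σ h y hy => by
    obtain ⟨r, hr, s, hs, n, e⟩ := GN.mer (R1 𝕜 σ) (Algebra.adjoin 𝕜 {σ})
      (Subalgebra.le_topologicalClosure _) (fun z hz => by
        obtain ⟨P, q, rfl⟩ := (mem_adjoin_simple_iff 𝕜 z).1 hz
        by_cases hq : aeval σ q = 0
        · exact ⟨0, zero_mem _, 1, one_mem _, one_ne_zero, by rw [hq, div_zero, zero_div]⟩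
        · exact ⟨_, Subalgebra.le_topologicalClosure _ (aeval_mem_adjoin_singleton 𝕜 σ), _,
            aeval_mem_adjoin_singleton 𝕜 σ, hq, rfl⟩) y hy
    rw [Algebra.adjoin_singleton_eq_range_aeval] at hs
    obtain ⟨q, rfl⟩ := hs
    refine ⟨r, hr, q, fun h0 => n ?_, e⟩
    rw [h0]
    exact map_zero _
  mer2 := fun 𝕜 Q _ _ _ _ σ h y hy => by
    refine GN.mer (R2 𝕜 σ) _ (Subalgebra.le_topologicalClosure _) (fun z hz => ?_) y hy
    obtain ⟨P, q, rfl⟩ := (mem_adjoin_simple_iff 𝕜 z).1 hz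
    by_cases hq : aeval σ q = 0
    · exact ⟨0, zero_mem _, 1, one_mem _, one_ne_zero, by rw [hq, div_zero, zero_div]⟩
    have hr : ∀ a : 𝕜, (X ^ (max P.natDegree q.natDegree) : 𝕜[X]).IsRoot a → ‖a‖ ≤ 1 := by
      intro a ha
      rw [IsRoot, eval_pow, eval_X] at ha
      rw [eq_zero_of_pow_eq_zero ha]
      simp
    have n1 := GN.aeval_ne h (monic_X_pow (R := 𝕜) (max P.natDegree q.natDegree)).ne_zero
    refine ⟨_, Subalgebra.le_topologicalClosure _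
      (GN.s2_of h _ P _ (monic_X_pow _) hr (natDegree_X_pow _) (le_max_left _ _)), _,
      GN.s2_of h _ q _ (monic_X_pow _) hr (natDegree_X_pow _) (le_max_right _ _),
      div_ne_zero hq n1, ?_⟩
    field_simp

end Pool.Agent.Lib.IW
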