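import Pool.Agent.Lib.IW.Mod

/-! The transfer computation behind the Heisenberg step. -/

namespace Pool.Agent.Lib.IW.Heis

variable {Γ H A C : Type} [Group Γ] [Group H] [AddCommGroup A] [AddCommGroup C]
  [DistribMulAction H A] {M : ℕ} [NeZero M]

/-- The data of the computation. -/
structure Dat (Δ Δ' : Subgroup Γ) (lg : Γ → ZMod M) (ρ : Γ → H) (ta : Γ → ZMod M → A)
    (b : Γ → A) (β : A →+ A →+ C) (ζ : Γ → C) (t : ZMod M → Γ) : Prop where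
  mem : ∀ γ, γ ∈ Δ' ↔ γ ∈ Δ ∧ lg γ = 0
  lg_mul : ∀ γ ∈ Δ, ∀ δ ∈ Δ, lg (γ * δ) = lg γ + lg δ
  rho_mul : ∀ γ ∈ Δ, ∀ δ ∈ Δ, ρ (γ * δ) = ρ γ * ρ δ
  ta_mul : ∀ γ ∈ Δ, ∀ δ ∈ Δ, ∀ i, ta (γ * δ) i = ta γ i + ρ γ • ta δ (i - lg γ)
  ta_sum : ∀ γ ∈ Δ, ∑ i, ta γ i = 0
  b_mul : ∀ γ ∈ Δ, ∀ δ ∈ Δ, b (γ * δ) = b γ + ρ γ • b δ
  inv : ∀ (h : H) a a', β (h • a) (h • a') = β a a'
  zeta : ∀ γ ∈ Δ', ∀ δ ∈ Δ', ζ (γ * δ) = ζ γ + ζ δ + β (b γ) (ρ γ • ta δ 0)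
  t_mem : ∀ η, t η ∈ Δ
  t_lg : ∀ η, lg (t η) = η
  t_ta : ∀ η i, ta (t η) i = 0
  t_b : ∀ η, b (t η) = 0

/-- The components of the transfer. -/
def cmp (lg : Γ → ZMod M) (t : ZMod M → Γ) (γ : Γ) (η : ZMod M) : Γ :=
  (t (lg γ + η))⁻¹ * γ * t η

/-- The transfer. -/
def tr (lg : Γ → ZMod M) (t : ZMod M → Γ) (ζ : Γ → C) (γ : Γ) : C := ∑ η, ζ (cmp lg t γ η)

variable {Δ Δ' : Subgroup Γ} {lg : Γ → ZMod M} {ρ : Γ → H} {ta : Γ → ZMod M → A}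
  {b : Γ → A} {β : A →+ A →+ C} {ζ : Γ → C} {t : ZMod M → Γ}

namespace Dat

variable (D : Dat Δ Δ' lg ρ ta b β ζ t)
include D

lemma le {γ : Γ} (h : γ ∈ Δ') : γ ∈ Δ := ((D.mem γ).1 h).1

lemma lg_one : lg 1 = 0 := by
  simpa using D.lg_mul 1 Δ.one_mem 1 Δ.one_mem

lemma rho_one : ρ 1 = 1 := by
  simpa using D.rho_mul 1 Δ.one_mem 1 Δ.one_mem

lemma lg_inv {γ : Γ} (h : γ ∈ Δ) : lg γ⁻¹ = - lg γ := by
  have := D.lg_mul _ (inv_mem h) _ h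
  rw [inv_mul_cancel, D.lg_one] at this
  exact eq_neg_of_add_eq_zero_left this.symm

lemma rho_inv {γ : Γ} (h : γ ∈ Δ) : ρ γ⁻¹ = (ρ γ)⁻¹ := by
  have := D.rho_mul _ (inv_mem h) _ h
  rw [inv_mul_cancel, D.rho_one] at this
  exact eq_inv_of_mul_eq_one_left this.symm

lemma ta_one (i : ZMod M) : ta 1 i = 0 := by
  simpa [D.rho_one, D.lg_one] using D.ta_mul 1 Δ.one_mem 1 Δ.one_mem i

lemma b_one : b 1 = 0 := by
  simpa [D.rho_one] using D.b_mul 1 Δ.one_mem 1 Δ.one_mem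

lemma zeta_one : ζ 1 = 0 := by
  simpa [D.b_one] using D.zeta 1 Δ'.one_mem 1 Δ'.one_mem

lemma b_inv {γ : Γ} (h : γ ∈ Δ) : b γ⁻¹ = - ((ρ γ)⁻¹ • b γ) := by
  have := D.b_mul _ (inv_mem h) _ h
  rw [inv_mul_cancel, D.b_one, D.rho_inv h] at this
  exact eq_neg_of_add_eq_zero_left this.symm

lemma cmp_mem {γ : Γ} (h : γ ∈ Δ) (η : ZMod M) : cmp lg t γ η ∈ Δ' := by
  have h1 := inv_mem (D.t_mem (lg γ + η))
  refine (D.mem _).2 ⟨mul_mem (mul_mem h1 h) (D.t_mem η), ?_⟩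
  rw [cmp, D.lg_mul _ (mul_mem h1 h) _ (D.t_mem η), D.lg_mul _ h1 _ h, D.lg_inv (D.t_mem _),
    D.t_lg, D.t_lg]
  ring

omit D in
lemma t_cmp (γ : Γ) (η : ZMod M) : t (lg γ + η) * cmp lg t γ η = γ * t η := by
  rw [cmp]; group

lemma ta_cmp {γ : Γ} (h : γ ∈ Δ) (η : ZMod M) :
    ρ (t (lg γ + η)) • ta (cmp lg t γ η) 0 = ta γ (lg γ + η) := by
  have h1 := D.ta_mul _ (D.t_mem (lg γ + η)) _ (D.le (D.cmp_mem h η)) (lg γ + η)
  rw [t_cmp, D.ta_mul _ h _ (D.t_mem η), D.t_ta, D.t_ta, D.t_lg, sub_self] at h1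
  simpa using h1.symm

lemma b_cmp {γ : Γ} (h : γ ∈ Δ) (η : ZMod M) :
    ρ (t (lg γ + η)) • b (cmp lg t γ η) = b γ := by
  have h1 := D.b_mul _ (D.t_mem (lg γ + η)) _ (D.le (D.cmp_mem h η))
  rw [t_cmp, D.b_mul _ h _ (D.t_mem η), D.t_b, D.t_b] at h1
  simpa using h1.symm

theorem tr_mul {γ δ : Γ} (hγ : γ ∈ Δ) (hδ : δ ∈ Δ) :
    tr lg t ζ (γ * δ) = tr lg t ζ γ + tr lg t ζ δ := by
  have h1 : ∀ η, ζ (cmp lg t (γ * δ) η) = ζ (cmp lg t γ (lg δ + η)) + ζ (cmp lg t δ η) +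
      β (b γ) (ρ γ • ta δ (lg δ + η)) := fun η => by
    have h2 : cmp lg t (γ * δ) η = cmp lg t γ (lg δ + η) * cmp lg t δ η := by
      simp only [cmp, D.lg_mul γ hγ δ hδ, add_assoc]
      group
    rw [h2, D.zeta _ (D.cmp_mem hγ _) _ (D.cmp_mem hδ _), ← D.inv (ρ (t (lg γ + (lg δ + η)))),
      D.b_cmp hγ, ← mul_smul, ← D.rho_mul _ (D.t_mem _) _ (D.le (D.cmp_mem hγ _)), t_cmp,
      D.rho_mul _ hγ _ (D.t_mem _), mul_smul, D.ta_cmp hδ]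
  simp only [tr, h1, Finset.sum_add_distrib]
  rw [← map_sum, ← Finset.smul_sum, Equiv.sum_comp (Equiv.addLeft (lg δ)) (ta δ) |>.trans
    (D.ta_sum δ hδ) |> (show ∑ η, ta δ (lg δ + η) = 0 from ·), smul_zero, map_zero, add_zero]
  congr 1
  exact Equiv.sum_comp (Equiv.addLeft (lg δ)) fun η => ζ (cmp lg t γ η)

theorem tr_zero {γ : Γ} (hγ : γ ∈ Δ) (h1 : lg γ = 1) {u : ZMod M → A} {w : A} (hw : M • w = 0)
    (hρ : ∀ n : ℕ, ρ (γ ^ n) = 1)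
    (hta : ∀ (n : ℕ) i, ta (γ ^ n) i = u (i - lg (γ ^ n)) - u i)
    (hb : ∀ n : ℕ, b (γ ^ n) = (lg (γ ^ n)).val • w)
    (hζ : ∀ n : ℕ, lg (γ ^ n) = 0 → ζ (γ ^ n) = 0) : tr lg t ζ γ = β w (∑ i, u i) := by
  have hl : ∀ n : ℕ, lg (γ ^ n) = n := fun n => by
    induction n with
    | zero => simpa using D.lg_one
    | succ n ih => rw [pow_succ, D.lg_mul _ (pow_mem hγ n) _ hγ, ih, h1, Nat.cast_succ]
  have hs : ∀ η : ZMod M, lg (γ ^ η.val) = η := fun η => by rw [hl, ZMod.natCast_zmod_val]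
  let g : ZMod M → Γ := fun η => (γ ^ η.val)⁻¹ * t η
  have hg : ∀ η, g η ∈ Δ' := fun η => by
    have h2 := inv_mem (pow_mem hγ η.val)
    refine (D.mem _).2 ⟨mul_mem h2 (D.t_mem η), ?_⟩
    rw [D.lg_mul _ h2 _ (D.t_mem η), D.lg_inv (pow_mem hγ _), hs, D.t_lg, neg_add_cancel]
  have hsg : ∀ η, γ ^ η.val * g η = t η := fun η => by simp [g]
  have hbg : ∀ η, b (g η) = - (η.val • w) := fun η => by
    have h2 := D.b_mul _ (pow_mem hγ η.val) _ (D.le (hg η))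
    rw [hsg, D.t_b, hb, hs, hρ, one_smul] at h2
    exact eq_neg_of_add_eq_zero_right h2.symm
  have hag : ∀ η, ta (g η) 0 = u η - u 0 := fun η => by
    have h2 := D.ta_mul _ (pow_mem hγ η.val) _ (D.le (hg η)) η
    rw [hsg, D.t_ta, hta, hs, hρ, one_smul, sub_self] at h2
    rw [eq_neg_of_add_eq_zero_right h2.symm, neg_sub]
  have hd : ∀ η : ZMod M, ∃ n : ℕ, lg (γ ^ n) = 0 ∧ cmp lg t γ η = (g (1 + η))⁻¹ * γ ^ n * g η :=
    fun η => by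
    have h2 : (1 + η).val ≤ η.val + 1 := by
      calc (1 + η).val = ((η.val + 1 : ℕ) : ZMod M).val := by
            rw [Nat.cast_succ, ZMod.natCast_zmod_val, add_comm]
        _ ≤ η.val + 1 := by rw [ZMod.val_natCast]; exact Nat.mod_le _ _
    obtain ⟨n, hn⟩ := Nat.exists_eq_add_of_le h2
    refine ⟨n, ?_, ?_⟩
    · have h3 := congrArg (Nat.cast : ℕ → ZMod M) hn
      rw [Nat.cast_succ, Nat.cast_add, ZMod.natCast_zmod_val, ZMod.natCast_zmod_val,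
        add_comm 1 η] at h3
      rw [hl]
      exact (add_eq_left.1 h3.symm)
    · rw [cmp, h1, ← hsg, ← hsg η, mul_inv_rev, mul_assoc, mul_assoc, mul_assoc, ← mul_assoc γ,
        ← pow_succ', hn, pow_add]
      group
  have hz : ∀ η, ζ (cmp lg t γ η) = - ζ (g (1 + η)) + ζ (g η) +
      (β (η.val • w) (u η) - β ((1 + η).val • w) (u (1 + η))) + β w (u η) := fun η => by
    obtain ⟨n, hn, hc⟩ := hd η
    have hm : γ ^ n ∈ Δ' := (D.mem _).2 ⟨pow_mem hγ n, hn⟩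
    have hi := inv_mem (hg (1 + η))
    have e1 := D.zeta _ hi _ (hg (1 + η))
    rw [inv_mul_cancel, D.zeta_one, D.b_inv (D.le (hg _)), D.rho_inv (D.le (hg _)), map_neg,
      AddMonoidHom.neg_apply, D.inv, hbg, hag] at e1
    rw [hc, D.zeta _ (mul_mem hi hm) _ (hg η), D.zeta _ hi _ hm, hζ n hn, hta, hn,
      D.b_mul _ (D.le hi) _ (D.le hm), D.rho_mul _ (D.le hi) _ (D.le hm), hb, hn, hρ,
      D.b_inv (D.le (hg _)), D.rho_inv (D.le (hg _)), hbg, hag, sub_zero, sub_self, smul_zero,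
      map_zero, ZMod.val_zero, zero_smul, smul_zero, add_zero, add_zero, add_zero, mul_one,
      map_neg, AddMonoidHom.neg_apply, D.inv]
    have e2 : (1 + η).val • w = w + η.val • w := by
      have e3 := val_nsmul_add hw ((1 : ℕ) : ZMod M) η
      rw [ZMod.val_natCast, ← nsmul_eq_mod_nsmul _ hw, one_smul, Nat.cast_one] at e3
      exact e3
    rw [e2] at e1 ⊢
    simp only [map_neg, map_add, map_sub, AddMonoidHom.neg_apply, AddMonoidHom.add_apply] at e1 ⊢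
    rw [← sub_eq_zero, e1]
    abel
  simp only [tr, hz, Finset.sum_add_distrib, Finset.sum_sub_distrib, Finset.sum_neg_distrib]
  rw [show ∑ η, ζ (g (1 + η)) = ∑ η, ζ (g η) from
      Equiv.sum_comp (Equiv.addLeft 1) fun η => ζ (g η),
    show ∑ η : ZMod M, β ((1 + η).val • w) (u (1 + η)) = ∑ η : ZMod M, β (η.val • w) (u η) from
      Equiv.sum_comp (Equiv.addLeft 1) fun η : ZMod M => β (η.val • w) (u η), map_sum]
  abel

theorem tr_inf {γ : Γ} (h1 : lg γ = 1) (ht : ∀ η, t η = γ ^ η.val) :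
    tr lg t ζ γ = ζ (γ ^ M) := by
  have h2 : ∀ η : ZMod M, cmp lg t γ η = (γ ^ ((η.val + 1) % M))⁻¹ * γ ^ (η.val + 1) := fun η => by
    rw [cmp, h1, ht, ht, mul_assoc, ← pow_succ', ← ZMod.val_natCast, Nat.cast_succ,
      ZMod.natCast_zmod_val, add_comm]
  have hM := Nat.pos_of_ne_zero (NeZero.ne M)
  have h3 : (((M - 1 : ℕ) : ZMod M)).val + 1 = M := by
    rw [ZMod.val_natCast, Nat.mod_eq_of_lt (by omega)]
    omega
  rw [tr, Finset.sum_eq_single ((M - 1 : ℕ) : ZMod M), h2, h3, Nat.mod_self, pow_zero, inv_one,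
    one_mul]
  · intro η _ hη
    have h4 : η.val + 1 < M := by
      have h5 := ZMod.val_lt η
      rcases Nat.lt_or_ge (η.val + 1) M with h | h
      · exact h
      · exact absurd (by rw [show M - 1 = η.val by omega, ZMod.natCast_zmod_val]) hη
    rw [h2, Nat.mod_eq_of_lt h4, inv_mul_cancel, D.zeta_one]
  · simp

end Dat

end Pool.Agent.Lib.IW.Heis
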