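import Pool.Agent.Lib.IW.Heis1

/-! The auxiliary cocycle with values in sum-zero functions. -/

open Polynomial IntermediateField
open scoped Pointwise

namespace Pool.Agent.Lib.IW.Heis

/-- Functions with sum zero. -/
def SZ (M : ℕ) [NeZero M] (A : Type) [AddCommGroup A] : AddSubgroup (ZMod M → A) where
  carrier := {f | ∑ i, f i = 0}
  add_mem' := fun {f g} hf hg => by
    simp only [Set.mem_ofPred_eq, Pi.add_apply, Finset.sum_add_distrib] at hf hg ⊢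
    rw [hf, hg, add_zero]
  zero_mem' := by simp
  neg_mem' := fun {f} hf => by
    simp only [Set.mem_ofPred_eq, Pi.neg_apply, Finset.sum_neg_distrib] at hf ⊢
    rw [hf, neg_zero]

variable {M : ℕ} [NeZero M] {H A : Type} [Group H] [AddCommGroup A] [DistribMulAction H A]

lemma sum_shift (f : ZMod M → A) (η : ZMod M) : ∑ i, f (i - η) = ∑ i, f i :=
  Equiv.sum_comp (Equiv.subRight η) f

/-- The twisted translation action. -/
@[reducible] def szAct : DistribMulAction (H × Multiplicative (ZMod M)) (SZ M A) where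
  smul g f := ⟨fun i => g.1 • f.1 (i - g.2.toAdd), by
    change ∑ i, g.1 • f.1 (i - g.2.toAdd) = 0
    rw [← Finset.smul_sum, sum_shift, show ∑ i, f.1 i = 0 from f.2, smul_zero]⟩
  one_smul f := Subtype.ext (funext fun i => by
    change (1 : H) • f.1 (i - 0) = f.1 i
    simp)
  mul_smul g h f := Subtype.ext (funext fun i => by
    change (g.1 * h.1) • f.1 (i - (g.2.toAdd + h.2.toAdd)) =
      g.1 • h.1 • f.1 (i - g.2.toAdd - h.2.toAdd)
    rw [mul_smul, sub_sub])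
  smul_zero g := Subtype.ext (funext fun i => by
    change g.1 • (0 : A) = 0
    simp)
  smul_add g f f' := Subtype.ext (funext fun i => by
    change g.1 • (f.1 (i - g.2.toAdd) + f'.1 (i - g.2.toAdd)) =
      g.1 • f.1 (i - g.2.toAdd) + g.1 • f'.1 (i - g.2.toAdd)
    rw [smul_add])

/-- The elementary sum-zero functions. -/
def dl (i : ZMod M) : A →+ SZ M A where
  toFun a := ⟨Pi.single i a - Pi.single 0 a, by
    change ∑ j, (Pi.single i a - Pi.single 0 a : ZMod M → A) j = 0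
    simp [Finset.sum_sub_distrib]⟩
  map_zero' := Subtype.ext (by simp)
  map_add' a b := Subtype.ext (by
    change (Pi.single i (a + b) - Pi.single 0 (a + b) : ZMod M → A) =
      (Pi.single i a - Pi.single 0 a) + (Pi.single i b - Pi.single 0 b)
    rw [Pi.single_add, Pi.single_add]
    abel)

lemma sum_dl (f : SZ M A) : ∑ i, dl i (f.1 i) = f := by
  apply Subtype.ext
  rw [AddSubgroup.val_finsetSum]
  change ∑ i, (Pi.single i (f.1 i) - Pi.single 0 (f.1 i) : ZMod M → A) = f.1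
  rw [Finset.sum_sub_distrib, Finset.univ_sum_single]
  have h : ∑ i, (Pi.single 0 (f.1 i) : ZMod M → A) = 0 := by
    have h1 := map_sum (AddMonoidHom.single (fun _ : ZMod M => A) 0) f.1 Finset.univ
    rw [show ∑ i, f.1 i = 0 from f.2, map_zero] at h1
    exact h1.symm
  rw [h, sub_zero]

variable {k Ω : Type} [Field k] [IsAlgClosed k] [Field Ω] [IsAlgClosed Ω] [Algebra k Ω]

/-- The Kummer character is onto on the decomposition group at zero. -/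
lemma exists_dec0 (hF : Found) (p : ℕ) [Fact p.Prime] [CharP k p] {x : Ω} (hx : Co k x)
    {W₀ : ValuationSubring Ω} (hW₀ : IsPl k W₀) (h0 : W₀.valuation x < 1) {n : ℕ} (hn : ¬ p ∣ n)
    {r ζ : Ω} (hr : r ^ n = x) (hζ : ζ ^ n = 1) : ∃ γ ∈ Dec k x W₀, γ r = ζ * r := by
  have h1 := hF.bas.unifAt k Ω x hx.tr 0 W₀ hW₀ (by simpa using h0)
  rw [map_zero, sub_zero] at h1
  simpa only [DecF_adjoin] using hF.tame1 p k Ω k⟮x⟯ hx.ff W₀ hW₀ x h1 n hn r ζ hr hζ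

/-- The Kummer character is onto on the decomposition group at infinity. -/
lemma exists_decInf (hF : Found) (p : ℕ) [Fact p.Prime] [CharP k p] {x : Ω} (hx : Co k x)
    {W : ValuationSubring Ω} (hW : IsPl k W) (h0 : x ∉ W) {n : ℕ} (hn : ¬ p ∣ n)
    {r ζ : Ω} (hr : r ^ n = x) (hζ : ζ ^ n = 1) : ∃ γ ∈ Dec k x W, γ r = ζ * r := by
  have h1 := hF.bas.unifInf k Ω x hx.tr W hW h0
  obtain ⟨γ, hγ, e⟩ := hF.tame1 p k Ω k⟮x⟯ hx.ff W hW x⁻¹ h1 n hn r⁻¹ ζ⁻¹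
    (by rw [inv_pow, hr]) (by rw [inv_pow, hζ, inv_one])
  rw [DecF_adjoin] at hγ
  refine ⟨γ, hγ, ?_⟩
  rw [map_inv₀, ← mul_inv] at e
  exact inv_injective e

theorem exists_ta (hF : Found) (h0 : StmtLG0) (p : ℕ) [Fact p.Prime] [CharP k p] {x : Ω}
    (hx : Co k x) [Finite H] [Finite A] {ρ : Aut k Ω → H} (hρ : IsRep (Gam k x) ρ)
    (hu : Unr x ρ) {l j : ℕ} (hl : l.Prime) (hlp : l ≠ p) (hA : ∀ a : A, l ^ j • a = 0)
    (hcl : AddSubgroup.closure {b : A | ∃ γ ∈ Gam k x, ∃ a : A, b = ρ γ • a - a} = ⊤)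
    {W W₀ : ValuationSubring Ω} (hW : IsPl k W) (hxW : x ∉ W) (hW₀ : IsPl k W₀)
    (hx₀ : W₀.valuation x < 1) (hM : ¬ p ∣ M) {z : Ω} (hz : z ^ M = x) {lg : Aut k Ω → ZMod M}
    (hlg : ∀ γ ∈ Gam k x, γ z = z ↔ lg γ = 0)
    (hlr : IsRep (Gam k x) fun γ => Multiplicative.ofAdd (lg γ)) (u : A) :
    ∃ ta : Aut k Ω → ZMod M → A,
      (∀ γ ∈ Gam k x, ∀ δ ∈ Gam k x, ∀ i, ta (γ * δ) i = ta γ i + ρ γ • ta δ (i - lg γ)) ∧
      Cts (Gam k x) ta ∧ (∀ γ ∈ Gam k x, ∑ i, ta γ i = 0) ∧ (∀ γ ∈ Dec k x W, ta γ = 0) ∧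
      (∀ W' : ValuationSubring Ω, IsPl k W' → z ∈ W' → ∀ γ ∈ Dec k z W', ta γ = 0) ∧
      ∃ v : ZMod M → A, ∑ i, v i = u ∧ ∀ γ ∈ Dec k x W₀, ∀ i, ta γ i = v (i - lg γ) - v i := by
  let := szAct (M := M) (H := H) (A := A)
  have hsm : ∀ (g : H) (η : ZMod M) (f : SZ M A) i,
      ((g, Multiplicative.ofAdd η) • f).1 i = g • f.1 (i - η) := fun _ _ _ _ => rfl
  have hxW₀ : x ∈ W₀ := (W₀.valuation_le_one_iff x).1 hx₀.le
  have hlm : ∀ γ ∈ Gam k x, ∀ δ ∈ Gam k x, lg (γ * δ) = lg γ + lg δ := hlr.mul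
  have hzx := Gam_le_of_pow (k := k) hz
  have hR := hρ.prod hlr
  let u₀ : ZMod M → A := Pi.single 0 u
  let c₀ : Aut k Ω → SZ M A := fun γ => ⟨fun i => u₀ (i - lg γ) - u₀ i, by
    change ∑ i, (u₀ (i - lg γ) - u₀ i) = 0
    rw [Finset.sum_sub_distrib, sum_shift, sub_self]⟩
  have hc₀ : IsCoc (Dec k x W₀) (fun γ => (ρ γ, Multiplicative.ofAdd (lg γ))) c₀ := by
    refine ⟨fun γ hγ δ hδ => Subtype.ext (funext fun i => ?_),
      ((hlr.cts.mono (Dec_le _ _)).comp fun η => (⟨fun i => u₀ (i - η.toAdd) - u₀ i, by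
        change ∑ i, (u₀ (i - η.toAdd) - u₀ i) = 0
        rw [Finset.sum_sub_distrib, sum_shift, sub_self]⟩ : SZ M A))⟩
    change u₀ (i - lg (γ * δ)) - u₀ i =
      u₀ (i - lg γ) - u₀ i + ρ γ • (u₀ (i - lg γ - lg δ) - u₀ (i - lg γ))
    rw [hu W₀ hW₀ hxW₀ γ hγ, one_smul, hlm γ (Dec_le _ _ hγ) δ (Dec_le _ _ hδ), sub_sub]
    abel
  obtain ⟨c, hc, hc1, hc2⟩ := h0 p k Ω x hx (H × Multiplicative (ZMod M)) (SZ M A) _ hR l j hl hlp
    (fun f => Subtype.ext (funext fun i => hA (f.1 i))) (by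
      rw [eq_top_iff]
      rintro f -
      rw [← sum_dl f]
      refine sum_mem fun i _ => ?_
      have h1 : f.1 i ∈ AddSubgroup.closure {b : A | ∃ γ ∈ Gam k x, ∃ a : A, b = ρ γ • a - a} :=
        hcl ▸ AddSubgroup.mem_top _
      have h2 := AddSubgroup.mem_map_of_mem (dl i) h1
      rw [AddMonoidHom.map_closure] at h2
      refine AddSubgroup.closure_mono ?_ h2
      rintro _ ⟨_, ⟨γ, hγ, a, rfl⟩, rfl⟩
      obtain ⟨δ, hδ, e⟩ := exists_dec0 hF p hx hW₀ hx₀ hM hz (kap_pow hz hx.ne_zero hγ)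
      have hz0 : z ≠ 0 := by
        rintro rfl
        exact hx.ne_zero (by rw [← hz, zero_pow (NeZero.ne M)])
      rw [div_mul_cancel₀ _ hz0] at e
      have hδ' := Dec_le _ _ hδ
      have h3 : δ⁻¹ * γ ∈ Gam k x := mul_mem (inv_mem hδ') hγ
      have h4 : lg (δ⁻¹ * γ) = 0 := (hlg _ h3).1 (by
        rw [AlgEquiv.mul_apply, ← e]
        exact δ.symm_apply_apply z)
      refine ⟨δ⁻¹ * γ, h3, dl i a, Subtype.ext (funext fun i' => ?_)⟩
      rw [AddSubgroup.coe_sub, Pi.sub_apply, hsm, h4, sub_zero, hρ.mul _ (inv_mem hδ') _ hγ,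
        hu W₀ hW₀ hxW₀ _ (inv_mem hδ), one_mul, map_sub, AddSubgroup.coe_sub, Pi.sub_apply]
      congr 1
      change (Pi.single i (ρ γ • a) - Pi.single 0 (ρ γ • a) : ZMod M → A) i' =
        ρ γ • (Pi.single i a - Pi.single 0 a : ZMod M → A) i'
      simp only [Pi.sub_apply, Pi.single_apply, smul_sub]
      split_ifs <;> simp) W₀ hW₀ c₀ hc₀
  obtain ⟨e, he⟩ := hc2 W hW fun h => hxW ((h x (mem_adjoin_simple_self k x)).1 hxW₀)
  have hcm : ∀ γ ∈ Gam k x, ∀ δ ∈ Gam k x, ∀ i,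
      (c (γ * δ)).1 i = (c γ).1 i + ρ γ • (c δ).1 (i - lg γ) := fun γ hγ δ hδ i =>
    congrFun (congrArg Subtype.val (hc.add γ hγ δ hδ)) i
  have hz1 : ∀ W' : ValuationSubring Ω, IsPl k W' → z ∈ W' → ∀ γ ∈ Dec k z W', c γ = 0 := by
    intro W' hW' hzW γ hγ
    have hxW' : x ∈ W' := hz ▸ pow_mem hzW M
    have hγ' := Dec_le_of_pow hz W' hγ
    have hγx := Dec_le _ _ hγ'
    have hl0 : lg γ = 0 := (hlg γ hγx).1 (Dec_le _ _ hγ)
    have hr1 : (ρ γ, Multiplicative.ofAdd (lg γ)) = 1 := by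
      rw [hu W' hW' hxW' γ hγ', hl0]; rfl
    by_cases ha : Agr k⟮x⟯ W₀ W'
    · obtain ⟨δ, hδ, rfl⟩ := hF.conj k Ω k⟮x⟯ hx.alg W₀ W' ha
      rw [fix_adjoin] at hδ
      have h1 := (conj_mem_Dec hδ).2 hγ'
      have h2 : lg (δ⁻¹ * γ * δ) = 0 := by
        have h3 := hlm _ (inv_mem hδ) _ hδ
        rw [inv_mul_cancel, show lg 1 = 0 from hlr.one] at h3
        rw [hlm _ (mul_mem (inv_mem hδ) hγx) _ hδ, hlm _ (inv_mem hδ) _ hγx, hl0, add_zero, ← h3]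
      have h3 : c (δ⁻¹ * γ * δ) = 0 := by
        rw [hc1 _ h1]
        refine Subtype.ext (funext fun i => ?_)
        change u₀ (i - lg (δ⁻¹ * γ * δ)) - u₀ i = 0
        rw [h2, sub_zero, sub_self]
      have h4 := hc.add _ hδ _ (Dec_le _ _ h1)
      rw [h3, smul_zero, add_zero, show δ * (δ⁻¹ * γ * δ) = γ * δ by group, hc.add _ hγx _ hδ,
        hr1, one_smul] at h4
      exact add_eq_right.1 h4
    · obtain ⟨a, ha'⟩ := hc2 W' hW' ha
      rw [ha' γ hγ', hr1, one_smul, sub_self]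
  refine ⟨fun γ i => (c γ).1 i - (ρ γ • e.1 (i - lg γ) - e.1 i), fun γ hγ δ hδ i => ?_,
    hc.cts.comp₂ hR.cts fun f g i => f.1 i - (g.1 • e.1 (i - g.2.toAdd) - e.1 i),
    fun γ _ => ?_, fun γ hγ => funext fun i => ?_, fun W' hW' hzW γ hγ => funext fun i => ?_,
    u₀ - e.1, ?_, fun γ hγ i => ?_⟩
  · beta_reduce
    rw [hcm γ hγ δ hδ, hρ.mul γ hγ δ hδ, hlm γ hγ δ hδ, smul_sub, smul_sub, mul_smul, sub_sub i]
    abel
  · beta_reduce
    rw [Finset.sum_sub_distrib, Finset.sum_sub_distrib, ← Finset.smul_sum, sum_shift,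
      show ∑ i, e.1 i = 0 from e.2, show ∑ i, (c γ).1 i = 0 from (c γ).2]
    simp
  · beta_reduce
    rw [he γ hγ]
    exact sub_self _
  · have hγ' := Dec_le_of_pow hz W' hγ
    beta_reduce
    rw [hz1 W' hW' hzW γ hγ, hu W' hW' (hz ▸ pow_mem hzW M) γ hγ',
      (hlg γ (Dec_le _ _ hγ')).1 (Dec_le _ _ hγ)]
    simp
  · simp only [Pi.sub_apply, Finset.sum_sub_distrib]
    rw [show ∑ i, e.1 i = 0 from e.2]
    simp [u₀]
  · beta_reduce
    rw [hc1 γ hγ, hu W₀ hW₀ hxW₀ γ hγ, one_smul]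
    change u₀ (i - lg γ) - u₀ i - _ = _
    simp only [Pi.sub_apply]
    abel

end Pool.Agent.Lib.IW.Heis
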