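import Pool.Agent.Lib.IW.Heis2

/-! The commutator pairing and lifts of cocycles. -/

open Polynomial IntermediateField
open scoped Pointwise

namespace Pool.Agent.Lib.IW.Heis

/-- The abelianisation of `K` with its commutator pairing. -/
structure Pair {G A C : Type} [Group G] [AddCommGroup A] [AddCommGroup C] [DistribMulAction G A]
    (K : Subgroup G) (π : G → A) (e : C → G) (β : A →+ A →+ C) : Prop where
  surj : ∀ a, ∃ g ∈ K, π g = a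
  mul : ∀ g ∈ K, ∀ g' ∈ K, π (g * g') = π g + π g'
  ker : ∀ g ∈ K, π g = 0 ↔ g ∈ ⁅K, K⁆
  conj : ∀ h : G, ∀ g ∈ K, π (h * g * h⁻¹) = h • π g
  inj : Function.Injective e
  add : ∀ a b, e (a + b) = e a * e b
  range : ∀ g, g ∈ ⁅K, K⁆ ↔ ∃ a, e a = g
  pair : ∀ g ∈ K, ∀ g' ∈ K, e (β (π g) (π g')) = g * g' * g⁻¹ * g'⁻¹

lemma comm_mem {G : Type} [Group G] {K : Subgroup G} {g g' : G} (hg : g ∈ K) (hg' : g' ∈ K) :
    g * g' * g⁻¹ * g'⁻¹ ∈ ⁅K, K⁆ := Subgroup.commutator_mem_commutator hg hg'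

theorem exists_pair (G : Type) [Group G] (K : Subgroup G) [hK : K.Normal]
    (hc : ⁅K, K⁆ ≤ Subgroup.center G) :
    ∃ (A C : Type) (_ : AddCommGroup A) (_ : AddCommGroup C) (_ : DistribMulAction G A)
      (π : G → A) (e : C → G) (β : A →+ A →+ C), Pair K π e β := by
  have hz : ∀ c ∈ ⁅K, K⁆, ∀ g, g * c = c * g := fun c h g => Subgroup.mem_center_iff.1 (hc h) g
  let q := QuotientGroup.mk' ⁅K, K⁆
  have hq : ∀ g, q g = 1 ↔ g ∈ ⁅K, K⁆ := fun g => QuotientGroup.eq_one_iff g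
  have : (K.map q).Normal := hK.map q (QuotientGroup.mk'_surjective _)
  obtain ⟨A, _, _, e₁, i₁, a₁, r₁, c₁⟩ := exists_module (G ⧸ ⁅K, K⁆) (K.map q) (by
    rintro _ ⟨a, ha, rfl⟩ _ ⟨b, hb, rfl⟩
    have h := (hq _).2 (comm_mem ha hb)
    rw [map_mul, map_mul, map_mul, map_inv, map_inv, mul_inv_eq_one, mul_inv_eq_iff_eq_mul] at h
    exact h)
  obtain ⟨C, _, _, e, i₂, a₂, r₂, -⟩ := exists_module G ⁅K, K⁆ fun a ha b _ => (hz a ha b).symm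
  have h1 : ∀ g : G, ∃ a : A, g ∈ K → e₁ a = q g := fun g => by
    by_cases h : g ∈ K
    · obtain ⟨a, ha⟩ := (r₁ _).1 (Subgroup.mem_map_of_mem q h)
      exact ⟨a, fun _ => ha⟩
    · exact ⟨0, fun h' => absurd h' h⟩
  choose π hπ using h1
  have h2 : ∀ a : A, ∃ g ∈ K, π g = a := fun a => by
    obtain ⟨g, hg, h⟩ := (r₁ (e₁ a)).2 ⟨a, rfl⟩
    exact ⟨g, hg, i₁ ((hπ g hg).trans h)⟩
  have h3 : ∀ g ∈ K, ∀ g' ∈ K, π (g * g') = π g + π g' := fun g hg g' hg' =>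
    i₁ (by rw [a₁, hπ _ (mul_mem hg hg'), hπ _ hg, hπ _ hg', map_mul])
  choose s hs hs' using h2
  have h4 : ∀ g ∈ K, ∃ c ∈ ⁅K, K⁆, g = s (π g) * c := fun g hg =>
    ⟨(s (π g))⁻¹ * g, (hq _).1 (by
      rw [map_mul, map_inv, ← hπ _ (hs _), hs', hπ _ hg, inv_mul_cancel]), by group⟩
  have h5 : ∀ a a' : A, ∃ c : C, e c = s a * s a' * (s a)⁻¹ * (s a')⁻¹ := fun a a' =>
    (r₂ _).1 (comm_mem (hs a) (hs a'))
  choose B hB using h5
  have h6 : ∀ g ∈ K, ∀ g' ∈ K, e (B (π g) (π g')) = g * g' * g⁻¹ * g'⁻¹ := fun g hg g' hg' => by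
    obtain ⟨c, hc1, e1⟩ := h4 g hg
    obtain ⟨c', hc2, e2⟩ := h4 g' hg'
    rw [hB]
    generalize s (π g) = y at e1
    generalize s (π g') = y' at e2
    rw [e1, e2]
    calc y * y' * y⁻¹ * y'⁻¹ = y * (y' * c') * y⁻¹ * (y' * c')⁻¹ := by
          rw [mul_assoc y (y' * c'), mul_assoc y' c', ← hz c' hc2]; group
      _ = _ := by rw [mul_assoc y c, ← hz c hc1]; group
  have h7 : ∀ a a' b, B (a + a') b = B a b + B a' b := fun a a' b => i₂ (by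
    rw [← hs' a, ← hs' a', ← hs' b, ← h3 _ (hs a) _ (hs a'), a₂, h6 _ (mul_mem (hs a) (hs a')) _
      (hs b), h6 _ (hs a) _ (hs b), h6 _ (hs a') _ (hs b), hz _ (comm_mem (hs a') (hs b)),
      ← mul_assoc, ← mul_assoc, ← mul_assoc, ← hz _ (comm_mem (hs a') (hs b)) (s a)]
    group)
  have h8 : ∀ a b b', B a (b + b') = B a b + B a b' := fun a b b' => i₂ (by
    rw [← hs' a, ← hs' b, ← hs' b', ← h3 _ (hs b) _ (hs b'), a₂, h6 _ (hs a) _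
      (mul_mem (hs b) (hs b')), h6 _ (hs a) _ (hs b), h6 _ (hs a) _ (hs b'),
      mul_assoc _ (s b)⁻¹, hz _ (comm_mem (hs a) (hs b')) (s b)⁻¹]
    group)
  let i3 := DistribMulAction.compHom A q
  refine ⟨A, C, inferInstance, inferInstance, i3, π, e,
    AddMonoidHom.mk' (fun a => AddMonoidHom.mk' (B a) (h8 a))
      (fun a a' => AddMonoidHom.ext fun b => h7 a a' b),
    fun a => ⟨s a, hs a, hs' a⟩, h3, fun g hg => ?_, fun h g hg => i₁ ?_, i₂, a₂, r₂, h6⟩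
  · rw [← hq, ← hπ g hg, ← emb_zero a₁, i₁.eq_iff]
  · change _ = e₁ (q h • π g)
    rw [c₁, hπ _ (hK.conj_mem g hg h), hπ g hg, map_mul, map_mul, map_inv]

namespace Pair

variable {G A C : Type} [Group G] [AddCommGroup A] [AddCommGroup C] [DistribMulAction G A]
  {K : Subgroup G} {π : G → A} {e : C → G} {β : A →+ A →+ C} (P : Pair K π e β)
include P

lemma one : π 1 = 0 := (P.ker 1 K.one_mem).2 (one_mem _)

lemma inv {g : G} (hg : g ∈ K) : π g⁻¹ = - π g := by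
  have h := P.mul _ (inv_mem hg) _ hg
  rw [inv_mul_cancel, P.one] at h
  exact eq_neg_of_add_eq_zero_left h.symm

lemma pow {g : G} (hg : g ∈ K) (n : ℕ) : π (g ^ n) = n • π g := by
  induction n with
  | zero => simpa using P.one
  | succ n ih => rw [pow_succ, P.mul _ (pow_mem hg n) _ hg, ih, succ_nsmul]

lemma eq_iff {g g' : G} (hg : g ∈ K) (hg' : g' ∈ K) : π g = π g' ↔ g * g'⁻¹ ∈ ⁅K, K⁆ := by
  rw [← P.ker _ (mul_mem hg (inv_mem hg')), P.mul _ hg _ (inv_mem hg'), P.inv hg', ← sub_eq_add_neg,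
    sub_eq_zero]

lemma invar [hK : K.Normal] (hc : ⁅K, K⁆ ≤ Subgroup.center G) (h : G) (a a' : A) :
    β (h • a) (h • a') = β a a' := by
  obtain ⟨g, hg, rfl⟩ := P.surj a
  obtain ⟨g', hg', rfl⟩ := P.surj a'
  apply P.inj
  rw [← P.conj h g hg, ← P.conj h g' hg', P.pair _ (hK.conj_mem g hg h) _ (hK.conj_mem g' hg' h),
    P.pair g hg g' hg']
  calc _ = h * (g * g' * g⁻¹ * g'⁻¹) * h⁻¹ := by group
    _ = _ := by rw [Subgroup.mem_center_iff.1 (hc (comm_mem hg hg')) h]; group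

lemma clos [hK : K.Normal] (h : ⁅K, (⊤ : Subgroup G)⁆ = K) (S : AddSubgroup A)
    (hS : ∀ (g : G) (a : A), g • a - a ∈ S) : S = ⊤ := by
  let T : Subgroup G :=
    { carrier := {g | g ∈ K ∧ π g ∈ S}
      mul_mem' := fun {a b} ha hb => ⟨mul_mem ha.1 hb.1, P.mul _ ha.1 _ hb.1 ▸ add_mem ha.2 hb.2⟩
      one_mem' := ⟨K.one_mem, P.one ▸ zero_mem S⟩
      inv_mem' := fun {a} ha => ⟨inv_mem ha.1, P.inv ha.1 ▸ neg_mem ha.2⟩ }
  have h1 : ⁅K, (⊤ : Subgroup G)⁆ ≤ T := Subgroup.commutator_le.2 fun a ha g _ => by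
    have h2 := hK.conj_mem _ (inv_mem ha) g
    rw [commutatorElement_def, show a * g * a⁻¹ * g⁻¹ = a * (g * a⁻¹ * g⁻¹) by group]
    refine ⟨mul_mem ha h2, ?_⟩
    rw [P.mul _ ha _ h2, P.conj _ _ (inv_mem ha), P.inv ha, add_comm]
    simpa using hS g (-π a)
  rw [eq_top_iff]
  rintro a -
  obtain ⟨g, hg, rfl⟩ := P.surj a
  exact (h1 (h.symm ▸ hg)).2

variable {k Ω : Type} [Field k] [IsAlgClosed k] [Field Ω] [IsAlgClosed Ω] [Algebra k Ω]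

theorem lift [Finite G] [hK : K.Normal] (hc : StmtLGc) (p : ℕ) [Fact p.Prime] [CharP k p] {z : Ω}
    (hz : Co k z) {l : ℕ} (hl : l.Prime) (hlp : l ≠ p) (hp : IsPGroup l K)
    (hcen : ⁅K, K⁆ ≤ Subgroup.center G) {ρ : Aut k Ω → G} (hρ : IsRep (Gam k z) ρ) (hu : Unr z ρ)
    {a : Aut k Ω → A} (ha : IsCoc (Gam k z) ρ a)
    (h0 : ∀ W : ValuationSubring Ω, IsPl k W → z ∈ W → ∀ γ ∈ Dec k z W, a γ = 0) :
    ∃ ρ' : Aut k Ω → G, IsRep (Gam k z) ρ' ∧ Unr z ρ' ∧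
      ∀ γ ∈ Gam k z, ρ' γ * (ρ γ)⁻¹ ∈ K ∧ π (ρ' γ * (ρ γ)⁻¹) = a γ := by
  choose s hs hs' using P.surj
  let q := QuotientGroup.mk' ⁅K, K⁆
  have hq : ∀ g g', q g = q g' ↔ g * g'⁻¹ ∈ ⁅K, K⁆ := fun g g' => by
    rw [← mul_inv_eq_one, ← map_inv, ← map_mul]
    exact QuotientGroup.eq_one_iff _
  have hle : ⁅K, K⁆ ≤ K := Subgroup.commutator_le_right K K
  have hk : q.ker = ⁅K, K⁆ := QuotientGroup.ker_mk' _
  obtain ⟨ρ', h1, h2, h3⟩ := hc p k Ω z hz G (G ⧸ ⁅K, K⁆) q (QuotientGroup.mk'_surjective _) l hl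
    hlp (hp.to_le (hk.le.trans hle)) (hk.le.trans hcen) (fun γ => q (s (a γ) * ρ γ))
    ⟨fun γ hγ δ hδ => by
      have h4 := hK.conj_mem _ (hs (a δ)) (ρ γ)
      rw [← map_mul, hq, hρ.mul γ hγ δ hδ, show s (a (γ * δ)) * (ρ γ * ρ δ) *
        (s (a γ) * ρ γ * (s (a δ) * ρ δ))⁻¹ =
          s (a (γ * δ)) * (s (a γ) * (ρ γ * s (a δ) * (ρ γ)⁻¹))⁻¹ by group,
        ← P.eq_iff (hs _) (mul_mem (hs _) h4), P.mul _ (hs _) _ h4, P.conj _ _ (hs _), hs', hs',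
        hs', ha.add γ hγ δ hδ],
      ha.cts.comp₂ hρ.cts fun b g => q (s b * g)⟩
  refine ⟨ρ', h1, fun W hW hzW => h3 W hW hzW fun γ hγ => ?_, fun γ hγ => ?_⟩
  · rw [← map_one q, hq, hu W hW hzW γ hγ, h0 W hW hzW γ hγ, mul_one, inv_one, mul_one,
      ← P.ker _ (hs 0), hs']
  · have h4 := (hq _ _).1 (h2 γ hγ)
    rw [mul_inv_rev, ← mul_assoc] at h4
    have h5 : ρ' γ * (ρ γ)⁻¹ ∈ K := by simpa using mul_mem (hle h4) (hs (a γ))
    exact ⟨h5, ((P.eq_iff h5 (hs _)).2 h4).trans (hs' _)⟩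

end Pair

variable {k Ω : Type} [Field k] [IsAlgClosed k] [Field Ω] [IsAlgClosed Ω] [Algebra k Ω]

lemma cent_triv (hF : Found) (p : ℕ) [Fact p.Prime] [CharP k p] {z r ω : Ω} (hz : Co k z)
    {W : ValuationSubring Ω} (hW : IsPl k W) (hzW : z ∉ W) {G : Type} [Group G] [Finite G]
    {φ : Aut k Ω → G} (hφ : IsRep (Dec k z W) φ) {M : ℕ} (hM : ¬ p ∣ M)
    (he : ∀ γ ∈ Dec k z W, φ γ ^ M = 1) (hr : r ^ M = z) (hω : IsPrimitiveRoot ω M)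
    {γ₁ : Aut k Ω} (h1 : γ₁ ∈ Dec k z W) (h2 : γ₁ r = ω * r) (h3 : φ γ₁ = 1) :
    ∀ γ ∈ Dec k z W, φ γ = 1 := by
  have hM0 : M ≠ 0 := fun h => hM (h ▸ dvd_zero p)
  have : NeZero M := ⟨hM0⟩
  have hr0 : r ≠ 0 := by
    rintro rfl
    exact hz.ne_zero (by rw [← hr, zero_pow hM0])
  have hD : DecF k⟮z⟯ W = Dec k z W := DecF_adjoin z W
  have h4 : ∀ δ ∈ Dec k z W, δ r = r → φ δ = 1 := fun δ hδ e => by
    obtain ⟨j, hj⟩ := hF.tame2 p k Ω k⟮z⟯ hz.ff W hW z⁻¹ (hF.bas.unifInf k Ω z hz.tr W hW hzW) G φ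
      (hD ▸ hφ) M hM
      (fun γ hγ => ⟨0, by rw [pow_zero, mul_one, he γ (hD ▸ hγ)]⟩) r⁻¹
      (by rw [inv_pow, hr]) δ (hD ▸ hδ) (by rw [map_inv₀, e])
    have h5 : Nat.gcd (p ^ j) M = 1 :=
      Nat.Coprime.pow_left j ((Nat.Prime.coprime_iff_not_dvd Fact.out).2 hM)
    rw [← pow_one (φ δ), ← h5]
    exact pow_gcd_eq_one.2 ⟨hj, he δ hδ⟩
  have h5 : ∀ i : ℕ, (γ₁ ^ i) r = ω ^ i * r := fun i => by
    induction i with
    | zero => simp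
    | succ i ih =>
      rw [pow_succ', AlgEquiv.mul_apply, ih, map_mul, h2,
        root_fixed hM0 (by rw [← pow_mul, mul_comm, pow_mul, hω.pow_eq_one, one_pow]) γ₁]
      ring
  intro γ hγ
  obtain ⟨i, -, hi⟩ := hω.eq_pow_of_pow_eq_one (kap_pow hr hz.ne_zero (Dec_le _ _ hγ))
  have h6 := inv_mem (pow_mem h1 i)
  have h7 := h4 _ (mul_mem h6 hγ) (by
    rw [AlgEquiv.mul_apply, ← div_mul_cancel₀ (γ r) hr0, ← hi, ← h5]
    exact (γ₁ ^ i).symm_apply_apply r)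
  rwa [hφ.mul _ h6 _ hγ, hφ.inv (pow_mem h1 i), hφ.pow h1, h3, one_pow, inv_one, one_mul] at h7

lemma cts_tr {H A C : Type} [Group H] [AddCommGroup A] [AddCommGroup C] [DistribMulAction H A]
    {M : ℕ} [NeZero M] {Δ Δ' : Subgroup (Aut k Ω)} {lg : Aut k Ω → ZMod M} {ρ : Aut k Ω → H}
    {ta : Aut k Ω → ZMod M → A} {b : Aut k Ω → A} {β : A →+ A →+ C} {ζ : Aut k Ω → C}
    {t : ZMod M → Aut k Ω} (D : Dat Δ Δ' lg ρ ta b β ζ t) (h1 : Cts Δ lg) (h2 : Cts Δ' ζ) :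
    Cts Δ (tr lg t ζ) := by
  classical
  obtain ⟨S, hS⟩ := h1
  obtain ⟨S', hS'⟩ := h2
  refine ⟨S ∪ Finset.univ.biUnion fun η => S'.image (t η), fun γ hγ δ hδ h => ?_⟩
  have h3 := hS γ hγ δ hδ fun s hs => h s (Finset.mem_union_left _ hs)
  refine Finset.sum_congr rfl fun η _ => hS' _ (D.cmp_mem hγ η) _ (D.cmp_mem hδ η) fun s hs => ?_
  rw [cmp, cmp, h3, AlgEquiv.mul_apply, AlgEquiv.mul_apply, AlgEquiv.mul_apply, AlgEquiv.mul_apply,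
    h _ (Finset.mem_union_right _ (Finset.mem_biUnion.2
      ⟨η, Finset.mem_univ η, Finset.mem_image_of_mem _ hs⟩))]

end Pool.Agent.Lib.IW.Heis
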