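import Pool.Agent.Lib.IW.Util

/-! An abelian normal subgroup as an additive module; discrete logarithms of Kummer characters. -/

open Polynomial IntermediateField
open scoped Pointwise

namespace Pool.Agent.Lib.IW

/-- An abelian normal subgroup as an additive group with the conjugation action. -/
theorem exists_module (E : Type) [Group E] (V : Subgroup E) [hV : V.Normal]
    (hc : ∀ a ∈ V, ∀ b ∈ V, a * b = b * a) :
    ∃ (A : Type) (_ : AddCommGroup A) (_ : DistribMulAction E A) (e : A → E),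
      Function.Injective e ∧ (∀ a b, e (a + b) = e a * e b) ∧ (∀ g, g ∈ V ↔ ∃ a, e a = g) ∧
        ∀ (g : E) a, e (g • a) = g * e a * g⁻¹ := by
  let i1 : CommGroup V :=
    { (inferInstance : Group V) with mul_comm := fun a b => Subtype.ext (hc a a.2 b b.2) }
  let i2 : DistribMulAction E (Additive V) :=
    { smul := fun g a => Additive.ofMul ⟨g * (a.toMul : V) * g⁻¹, hV.conj_mem _ a.toMul.2 g⟩
      one_smul := fun a => congrArg Additive.ofMul (Subtype.ext (by
        change 1 * ((a.toMul : V) : E) * 1⁻¹ = (a.toMul : V)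
        simp))
      mul_smul := fun g h a => congrArg Additive.ofMul (Subtype.ext (by
        change g * h * ((a.toMul : V) : E) * (g * h)⁻¹ = g * (h * (a.toMul : V) * h⁻¹) * g⁻¹
        group))
      smul_zero := fun g => congrArg Additive.ofMul (Subtype.ext (by
        change g * 1 * g⁻¹ = 1
        group))
      smul_add := fun g a b => congrArg Additive.ofMul (Subtype.ext (by
        change g * (((a.toMul : V) : E) * (b.toMul : V)) * g⁻¹ =
          g * (a.toMul : V) * g⁻¹ * (g * (b.toMul : V) * g⁻¹)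
        group)) }
  exact ⟨Additive V, inferInstance, i2, fun a => (a.toMul : V),
    fun a b h => Additive.toMul.injective (Subtype.ext h), fun _ _ => rfl,
    fun g => ⟨fun h => ⟨Additive.ofMul ⟨g, h⟩, rfl⟩, fun ⟨a, h⟩ => h ▸ a.toMul.2⟩, fun _ _ => rfl⟩

section Emb

variable {A E : Type} [AddCommGroup A] [Group E] {e : A → E}

lemma emb_zero (h : ∀ a b, e (a + b) = e a * e b) : e 0 = 1 := by
  simpa using h 0 0

lemma emb_neg (h : ∀ a b, e (a + b) = e a * e b) (a : A) : e (-a) = (e a)⁻¹ :=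
  eq_inv_of_mul_eq_one_left (by rw [← h, neg_add_cancel, emb_zero h])

lemma emb_sub (h : ∀ a b, e (a + b) = e a * e b) (a b : A) : e (a - b) = e a * (e b)⁻¹ := by
  rw [sub_eq_add_neg, h, emb_neg h]

lemma emb_nsmul (h : ∀ a b, e (a + b) = e a * e b) (n : ℕ) (a : A) : e (n • a) = e a ^ n := by
  induction n with
  | zero => simp [emb_zero h]
  | succ n ih => rw [succ_nsmul, h, ih, pow_succ]

end Emb

variable {k Ω : Type} [Field k] [Field Ω] [Algebra k Ω]

/-- The discrete logarithm of the Kummer character of `z`. -/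
theorem exists_lg [IsAlgClosed k] {x z ω : Ω} {M : ℕ} [NeZero M] (hx : x ≠ 0) (hz : z ^ M = x)
    (hω : IsPrimitiveRoot ω M) : ∃ lg : Aut k Ω → ZMod M,
      (∀ γ ∈ Gam k x, ∀ i : ℕ, γ z = ω ^ i * z ↔ lg γ = i) ∧
      IsRep (Gam k x) (fun γ => Multiplicative.ofAdd (lg γ)) := by
  have h0 : z ≠ 0 := by
    rintro rfl
    exact hx (by rw [← hz, zero_pow (NeZero.ne M)])
  have h1 : ∀ γ : Aut k Ω, ∃ i : ℕ, γ ∈ Gam k x → γ z = ω ^ i * z := fun γ => by
    by_cases hγ : γ ∈ Gam k x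
    · obtain ⟨i, -, hi⟩ := hω.eq_pow_of_pow_eq_one (kap_pow hz hx hγ)
      exact ⟨i, fun _ => by rw [hi, div_mul_cancel₀ _ h0]⟩
    · exact ⟨0, fun h => absurd h hγ⟩
  choose f hf using h1
  have h2 : ∀ γ ∈ Gam k x, ∀ i : ℕ, γ z = ω ^ i * z ↔ (f γ : ZMod M) = i := fun γ hγ i => by
    rw [hf γ hγ, mul_left_inj' h0, ZMod.natCast_eq_natCast_iff,
      (hω.isOfFinOrder (NeZero.ne M)).pow_eq_pow_iff_modEq, ← hω.eq_orderOf]
  refine ⟨fun γ => f γ, h2, fun γ hγ δ hδ => ?_, {z}, fun γ hγ δ hδ h => ?_⟩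
  · rw [← ofAdd_add, ← Nat.cast_add]
    refine congrArg _ ((h2 _ (mul_mem hγ hδ) _).1 ?_)
    rw [AlgEquiv.mul_apply, hf δ hδ, map_mul, hf γ hγ,
      root_fixed (NeZero.ne M) (by rw [← pow_mul, mul_comm, pow_mul, hω.pow_eq_one, one_pow]) γ]
    ring
  · exact congrArg _ ((h2 γ hγ _).1 ((h z (Finset.mem_singleton_self z)).trans (hf δ hδ)))

lemma val_nsmul_add {A : Type} [AddCommGroup A] {M : ℕ} [NeZero M] {w : A} (hw : M • w = 0)
    (i j : ZMod M) : (i + j).val • w = i.val • w + j.val • w := by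
  rw [ZMod.val_add, ← add_nsmul, ← nsmul_eq_mod_nsmul _ hw]

lemma mem_of_pow_mem {W : ValuationSubring Ω} {z : Ω} {M : ℕ} (hM : M ≠ 0) (h : z ^ M ∈ W) :
    z ∈ W := by
  rw [← ValuationSubring.valuation_le_one_iff] at h ⊢
  rw [map_pow] at h
  exact (pow_le_one_iff hM).1 h

end Pool.Agent.Lib.IW
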