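import Pool.Agent.Lib.IW.Occ

/-! The trivial cover and the point at infinity. -/

namespace Pool.Agent.Lib.IW

lemma occurs_trivial (k : Type) [Field k] {K : Type} [Field K] [Algebra k K]
    (ξ : ValuationSubring K) (G : Type) [Group G] [Subsingleton G] (H : Subgroup G) :
    Occurs k ξ G H := by
  have : Unique G := uniqueOfSubsingleton 1
  have : Unique (K ≃ₐ[K] K) := uniqueOfSubsingleton 1
  refine ⟨K, inferInstance, inferInstance, inferInstance, inferInstance, MulEquiv.ofUnique,
    fun _ _ _ _ => Subsingleton.elim _ _, ξ, ?_, Subsingleton.elim _ _⟩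
  ext y
  simp

lemma exists_inf (k : Type) [Field k] : ∃ ω : ValuationSubring (RatFunc k), RatFunc.X ∉ ω ∧
    ∀ c : k, algebraMap k (RatFunc k) c ∈ ω := by
  classical
  refine ⟨(RatFunc.inftyValuation k).valuationSubring, ?_, fun c => ?_⟩
  · rw [Valuation.mem_valuationSubring_iff, RatFunc.inftyValuation.X, not_le, ← WithZero.exp_zero,
      WithZero.exp_lt_exp]
    exact one_pos
  · rw [Valuation.mem_valuationSubring_iff]
    rcases eq_or_ne c 0 with rfl | h
    · simp
    · exact (RatFunc.inftyValuation.C k h).le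

end Pool.Agent.Lib.IW
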