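import Pool.Agent.Lib.IW.All
import Pool.Agent.Lib.IW.Triv

/-! Necessity of the condition on inertia groups over the affine line, for solvable groups. -/

open Polynomial IntermediateField
open scoped Pointwise

namespace Pool.Agent.Lib.IW

namespace Nec

variable {k Ω : Type} [Field k] [IsAlgClosed k] [Field Ω] [IsAlgClosed Ω] [Algebra k Ω]
  {p : ℕ} [hp : Fact p.Prime] [CharP k p]

lemma as_poly {x : Ω} (hx : Co k x) {W : ValuationSubring Ω} (hW : IsPl k W) (hxW : x ∉ W)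
    (d : ℕ) : ∀ (P : k[X]) (ψ : Ω), P.natDegree = d → ψ ^ p - ψ = aeval x P →
      (∀ γ ∈ Dec k x W, γ ψ = ψ) → ∀ γ ∈ Gam k x, γ ψ = ψ := by
  have : CharP Ω p := charP_of_injective_algebraMap (algebraMap k Ω).injective p
  induction d using Nat.strong_induction_on with
  | _ d ih =>
  intro P ψ hd h hf γ hγ
  rcases Nat.eq_zero_or_pos d with rfl | h0
  · rw [eq_C_of_natDegree_eq_zero hd, aeval_C] at h
    have h1 : IsIntegral k ψ := ⟨X ^ p - (X + C (P.coeff 0)), monic_X_pow_sub (by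
      rw [degree_X_add_C]; exact_mod_cast hp.out.one_lt), by
      simp only [eval₂_sub, eval₂_add, eval₂_pow, eval₂_X, eval₂_C]
      linear_combination h⟩
    obtain ⟨c, rfl⟩ := minpoly.mem_range_of_degree_eq_one k ψ
      (IsAlgClosed.degree_eq_one_of_irreducible k (minpoly.irreducible h1))
    exact γ.commutes c
  have hP : P ≠ 0 := by
    rintro rfl
    simp at hd
    omega
  have hx1 : 1 < W.valuation x := not_le.1 fun h => hxW ((W.valuation_le_one_iff x).1 h)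
  have hv := found.bas.infPoly k Ω x W hW hxW P hP
  have h1 : 1 < W.valuation ψ := not_le.1 fun h2 => by
    have h3 := (W.valuation_le_one_iff ψ).1 h2
    have h4 := (W.valuation_le_one_iff _).2 (sub_mem (pow_mem h3 p) h3)
    rw [h, hv, hd] at h4
    exact absurd (one_lt_pow₀ hx1 h0.ne') (not_lt.2 h4)
  have h2 : W.valuation ψ ^ p = W.valuation x ^ d := by
    rw [← hd, ← hv, ← h, Valuation.map_sub_eq_of_lt_left _ (by
      rw [map_pow]; exact lt_self_pow₀ h1 hp.out.one_lt), map_pow]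
  have hm : aeval x P ∈ k⟮x⟯ :=
    IntermediateField.algebra_adjoin_le_adjoin k _ (Polynomial.aeval_mem_adjoin_singleton k x)
  have hs : IsSeparable k⟮x⟯ ψ := LocP.as_sep (p := p) (h ▸ hm)
  obtain ⟨i, hi⟩ := found.hens.hens p k Ω k⟮x⟯ hx.ff W hW x⁻¹
    (found.bas.unifInf k Ω x hx.tr W hW hxW) ψ (by rintro rfl; simp at h1) hs
    (by rwa [DecF_adjoin])
  rw [hi, map_inv₀, ← zpow_natCast, ← zpow_mul, inv_zpow', ← zpow_natCast,
    zpow_right_inj₀ (zero_lt_one.trans hx1) hx1.ne'] at h2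
  obtain ⟨e, he⟩ : p ∣ d := Int.natCast_dvd_natCast.1 ⟨-i, by rw [← h2]; ring⟩
  have he0 : 0 < e := Nat.pos_of_ne_zero fun h => by simp [h] at he; omega
  have hed : e < d := by
    rw [he]
    exact (Nat.lt_mul_iff_one_lt_left he0).2 hp.out.one_lt
  obtain ⟨a, ha⟩ := IsAlgClosed.exists_pow_nat_eq P.leadingCoeff hp.out.pos
  have h3 : ∀ δ ∈ Gam k x, δ (algebraMap k Ω a * x ^ e) = algebraMap k Ω a * x ^ e := fun δ hδ => by
    rw [map_mul, map_pow, mem_Gam.1 hδ, δ.commutes]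
  have h4 := ih _ ?_ (P.eraseLead + C a * X ^ e) (ψ - algebraMap k Ω a * x ^ e) rfl ?_
    (fun δ hδ => by rw [map_sub, hf δ hδ, h3 δ hδ.1]) γ hγ
  · rwa [map_sub, h3 γ hγ, sub_left_inj] at h4
  · refine (natDegree_add_le _ _).trans_lt (max_lt ?_ ((natDegree_C_mul_X_pow_le a e).trans_lt hed))
    have := P.eraseLead_natDegree_le
    omega
  · have h5 := congrArg (aeval x) P.eraseLead_add_C_mul_X_pow
    simp only [map_add, map_mul, map_pow, aeval_C, aeval_X] at h5 ⊢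
    rw [sub_pow_char, mul_pow, ← map_pow, ha, ← pow_mul, mul_comm e, ← he, ← hd]
    linear_combination h - h5

lemma as_triv {x : Ω} (hx : Co k x) {W : ValuationSubring Ω} (hW : IsPl k W) (hxW : x ∉ W)
    {χ : Aut k Ω → Multiplicative (ZMod p)} (h : IsRep (Gam k x) χ) (hu : Unr x χ)
    (hi : ∀ γ ∈ Dec k x W, χ γ = 1) : ∀ γ ∈ Gam k x, χ γ = 1 := by
  classical
  have : CharP Ω p := charP_of_injective_algebraMap (algebraMap k Ω).injective p
  obtain ⟨t, t1, t2, t3⟩ := found.cert.trInt p k Ω x hx _ χ h hu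
  let c : Multiplicative (ZMod p) → Ω := fun g => ZMod.castHom (dvd_refl p) Ω g.toAdd
  have c1 : ∀ g, c g ^ p = c g := fun g => by simp only [c, ← map_pow, ZMod.pow_card]
  have c2 : ∀ g N, c g ^ p ^ N = c g := fun g N => by simp only [c, ← map_pow, ZMod.pow_card_pow]
  have c3 : ∀ g, ∃ n : ℕ, c g = n := fun g => ASM.cast_nat g.toAdd
  let t' : Multiplicative (ZMod p) → Ω := fun g => if g ∈ h.im then t g else 0
  have t4 : ∑ g, t' g = 1 := by
    rw [← t3, finsum_eq_sum_of_fintype]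
    refine Finset.sum_congr rfl fun g _ => ?_
    simp only [t', finsum_eq_if]
  have t5 : ∀ γ ∈ Gam k x, γ (∑ g, c g * t' g) = ∑ g, c g * t' g - c (χ γ) := fun γ hγ => by
    have h1 : χ γ ∈ h.im := h.mem_im.2 ⟨γ, hγ, rfl⟩
    rw [← mul_one (c (χ γ)), ← t4, Finset.mul_sum, ← Finset.sum_sub_distrib, map_sum,
      ← Equiv.sum_comp (Equiv.mulLeft (χ γ)) fun g => c g * t' g - c (χ γ) * t' g]
    refine Finset.sum_congr rfl fun g _ => ?_
    obtain ⟨n, hn⟩ := c3 g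
    have h2 : c (χ γ * g) = c (χ γ) + c g := by simp only [c, toAdd_mul, map_add]
    have h3 : γ (t' g) = t' (χ γ * g) := by
      simp only [t', Subgroup.mul_mem_cancel_left _ h1]
      split_ifs
      · exact t2 γ hγ g
      · exact map_zero _
    rw [Equiv.coe_mulLeft, h2, map_mul, h3, hn, map_natCast]
    ring
  set φ := ∑ g, c g * t' g
  have hφ : Intg k x φ := fun W' hW' hx' => sum_mem fun g _ => by
    obtain ⟨n, hn⟩ := c3 g
    refine mul_mem (hn ▸ natCast_mem W' n) ?_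
    simp only [t']
    split_ifs
    · exact t1 g W' hW' hx'
    · exact zero_mem _
  obtain ⟨N, hN⟩ := found.gal.insep p k Ω k⟮x⟯ hx.alg (φ ^ p - φ) fun γ hγ => by
    rw [fix_adjoin] at hγ
    rw [map_sub, map_pow, t5 γ hγ, sub_pow_char, c1]
    ring
  obtain ⟨P, hP⟩ := found.bas.intgPoly k Ω x _ hx.tr
    (fun W' hW' hx' => pow_mem (sub_mem (pow_mem (hφ W' hW' hx') p) (hφ W' hW' hx')) _) hN
  have t6 : ∀ γ ∈ Gam k x, γ (φ ^ p ^ N) = φ ^ p ^ N - c (χ γ) := fun γ hγ => by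
    rw [map_pow, t5 γ hγ, sub_pow_char_pow, c2]
  intro γ hγ
  have h1 := as_poly (p := p) hx hW hxW _ P (φ ^ p ^ N) rfl
    (by rw [← hP, sub_pow_char_pow, pow_right_comm])
    (fun δ hδ => by rw [t6 δ hδ.1, hi δ hδ]; simp [c]) γ hγ
  rw [t6 γ hγ, sub_eq_self] at h1
  exact toAdd_eq_zero.1 ((map_eq_zero_iff _ (ZMod.castHom_injective Ω)).1 h1)

omit hp in
lemma exists_prime_quot (G : Type) [Group G] [Finite G] [Nontrivial G] [Group.IsSolvable G] :
    ∃ (l : ℕ) (f : G →* Multiplicative (ZMod l)), l.Prime ∧ Function.Surjective f := by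
  have h1 : commutator G ≠ ⊤ := (Group.IsSolvable.commutator_lt_top_of_nontrivial G).ne
  obtain ⟨B, hB, hle⟩ := (eq_top_or_exists_le_coatom (commutator G)).resolve_left h1
  have : B.Normal := ⟨fun a ha g => by
    simpa [commutatorElement_def] using mul_mem (hle (Subgroup.commutator_mem_commutator (Subgroup.mem_top g)
      (Subgroup.mem_top a))) ha⟩
  let i : CommGroup (G ⧸ B) :=
    { (inferInstance : Group (G ⧸ B)) with
      mul_comm := fun a b => by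
        obtain ⟨a, rfl⟩ := QuotientGroup.mk_surjective a
        obtain ⟨b, rfl⟩ := QuotientGroup.mk_surjective b
        rw [← QuotientGroup.mk_mul, ← QuotientGroup.mk_mul, QuotientGroup.eq]
        simpa [commutatorElement_def, mul_assoc] using hle (Subgroup.commutator_mem_commutator
          (Subgroup.mem_top b⁻¹) (Subgroup.mem_top a⁻¹)) }
  have : Nontrivial (G ⧸ B) := QuotientGroup.nontrivial_iff.2 hB.1
  have : IsSimpleGroup (G ⧸ B) := ⟨fun T _ => by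
    have h2 : B ≤ T.comap (QuotientGroup.mk' B) := fun a ha => by
      rw [Subgroup.mem_comap, QuotientGroup.mk'_apply, (QuotientGroup.eq_one_iff a).2 ha]
      exact one_mem _
    rw [← Subgroup.map_comap_eq_self_of_surjective (QuotientGroup.mk'_surjective B) T]
    rcases hB.le_iff.1 h2 with h3 | h3
    · exact Or.inr (by
        rw [h3, Subgroup.map_top_of_surjective _ (QuotientGroup.mk'_surjective B)])
    · exact Or.inl (by rw [h3, QuotientGroup.map_mk'_self])⟩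
  have hl := IsSimpleGroup.prime_card (α := G ⧸ B)
  have : Fact (Nat.card (G ⧸ B)).Prime := ⟨hl⟩
  let e : G ⧸ B ≃* Multiplicative (ZMod (Nat.card (G ⧸ B))) :=
    mulEquivOfPrimeCardEq rfl (by simp)
  exact ⟨_, e.toMonoidHom.comp (QuotientGroup.mk' B), hl,
    e.surjective.comp (QuotientGroup.mk'_surjective B)⟩

theorem nec {x : Ω} (hx : Co k x) {G : Type} [Group G] [Finite G] [Group.IsSolvable G]
    {H : Subgroup G} (h : RealAt k x G H) :
    ∃ P : Subgroup G, CycP p H P ∧ Subgroup.normalClosure (P : Set G) = ⊤ := by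
  obtain ⟨ρ, r1, r2, r3, W, hW, hxW, r4⟩ := h
  obtain ⟨M, hM, ⟨j, hj⟩, -⟩ := exists_pprime G p
  have hM0 : M ≠ 0 := fun h => hM (h ▸ dvd_zero p)
  have : NeZero M := ⟨hM0⟩
  obtain ⟨r, hr⟩ := IsAlgClosed.exists_pow_nat_eq x (Nat.pos_of_ne_zero hM0)
  have hr0 : r ≠ 0 := by
    rintro rfl
    exact hx.ne_zero (by rw [← hr, zero_pow hM0])
  have hle := Dec_le_of_pow (k := k) hr W
  have hH : ∀ g, g ∈ H ↔ ∃ γ ∈ Dec k x W, ρ γ = g := fun g => by
    rw [← SetLike.mem_coe, ← r4]; rfl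
  have r5 := r1.mono (Dec_le x W)
  have hD : DecF k⟮x⟯ W = Dec k x W := DecF_adjoin x W
  have hfix : ∀ γ ∈ Dec k x W, ∀ δ ∈ Dec k x W, γ r = δ r → γ * δ⁻¹ ∈ Dec k r W :=
    fun γ hγ δ hδ e => by
    refine ⟨?_, (mul_mem hγ (inv_mem hδ)).2⟩
    have h1 := kap_mul hM0 hr hx.ne_zero (γ * δ⁻¹) hδ.1
    rw [inv_mul_cancel_right, e, eq_comm, mul_eq_right₀ (by simpa using hr0),
      div_eq_one_iff_eq hr0] at h1
    exact h1
  refine ⟨(r5.mono hle).im, ⟨fun g hg => ?_, fun g => ?_, fun g hg a ha => ?_, ?_⟩, ?_⟩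
  · obtain ⟨γ, hγ, e⟩ := (IsRep.mem_im _).1 hg
    exact (hH g).2 ⟨γ, hle hγ, e⟩
  · obtain ⟨γ, hγ, e⟩ := (IsRep.mem_im _).1 g.2
    obtain ⟨i, hi⟩ := found.tame2 p k Ω k⟮x⟯ hx.ff W hW x⁻¹ (found.bas.unifInf k Ω x hx.tr W hW hxW)
      G ρ (hD ▸ r5) M hM (fun γ _ => ⟨j, hj _⟩) r⁻¹ (by rw [inv_pow, hr]) γ (hD ▸ hle hγ)
      (by rw [map_inv₀, mem_Gam.1 hγ.1])
    exact ⟨i, Subtype.ext (by rw [e] at hi; exact hi)⟩
  · obtain ⟨δ, hδ, rfl⟩ := (hH g).1 hg
    obtain ⟨γ, hγ, rfl⟩ := (IsRep.mem_im _).1 ha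
    refine (IsRep.mem_im _).2 ⟨_, hfix _ (mul_mem hδ (hle hγ)) δ hδ ?_, ?_⟩
    · rw [AlgEquiv.mul_apply, mem_Gam.1 hγ.1]
    · rw [r5.mul _ (mul_mem hδ (hle hγ)) _ (inv_mem hδ), r5.mul _ hδ _ (hle hγ), r5.inv hδ]
  · obtain ⟨ω, hω⟩ := exists_prim (k := k) (Ω := Ω) p hM
    obtain ⟨γi, hγi, ei⟩ := Heis.exists_decInf found p hx hW hxW hM hr hω.pow_eq_one
    refine ⟨ρ γi, (hH _).2 ⟨γi, hγi, rfl⟩, fun g hg => ?_⟩
    obtain ⟨γ, hγ, rfl⟩ := (hH g).1 hg
    obtain ⟨i, -, hi⟩ := hω.eq_pow_of_pow_eq_one (kap_pow hr hx.ne_zero hγ.1)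
    refine ⟨i, (IsRep.mem_im _).2 ⟨_, hfix γ hγ _ (pow_mem hγi i) ?_, ?_⟩⟩
    · rw [← div_left_inj' hr0, StepC.kap_npow hM0 hr hx.ne_zero hγi.1, ei,
        mul_div_cancel_right₀ _ hr0, hi]
    · rw [r5.mul _ hγ _ (inv_mem (pow_mem hγi i)), r5.inv (pow_mem hγi i), r5.pow hγi]
  · by_contra hN
    set N := Subgroup.normalClosure ((r5.mono hle).im : Set G)
    have : Nontrivial (G ⧸ N) := QuotientGroup.nontrivial_iff.2 hN
    obtain ⟨l, f, hl, hf⟩ := exists_prime_quot (G ⧸ N)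
    have : Fact l.Prime := ⟨hl⟩
    have h1 := r1.comp (f.comp (QuotientGroup.mk' N))
    have h2 : Unr x fun γ => (f.comp (QuotientGroup.mk' N)) (ρ γ) := fun W' hW' h γ hγ => by
      beta_reduce
      rw [r3 W' hW' h γ hγ, map_one]
    have h3 : ∀ g : Multiplicative (ZMod l), g ^ l = 1 := fun g => by
      simpa using pow_card_eq_one' (x := g)
    have h4 : ∀ γ ∈ Gam k x, (f.comp (QuotientGroup.mk' N)) (ρ γ) = 1 := by
      by_cases hlp : l = p
      · subst hlp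
        refine as_triv hx hW hxW h1 h2 fun γ hγ => ?_
        have h5 : ρ (γ ^ M) ∈ N := Subgroup.subset_normalClosure ((IsRep.mem_im _).2
          ⟨_, ⟨StepC.pow_mem_Gam hM0 hr hx.ne_zero hγ.1, (pow_mem hγ M).2⟩, rfl⟩)
        have h6 : Nat.gcd l M = 1 := (Nat.Prime.coprime_iff_not_dvd hl).2 hM
        rw [← pow_one (f.comp _ _), ← h6]
        refine pow_gcd_eq_one.2 ⟨h3 _, ?_⟩
        rw [← map_pow, ← r5.pow hγ, MonoidHom.comp_apply, QuotientGroup.mk'_apply,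
          (QuotientGroup.eq_one_iff _).2 h5, map_one]
      · intro γ hγ
        have h5 : ¬ p ∣ l := fun h => hlp ((Nat.prime_dvd_prime_iff_eq hp.out hl).1 h).symm
        obtain ⟨s, hs⟩ := IsAlgClosed.exists_pow_nat_eq x hl.pos
        obtain ⟨δ, hδ, e⟩ := im_pow found p hx h5 hs h1 h2 hγ
        rw [← e]
        exact found.kum p k Ω x hx _ _ h1 (fun _ _ _ _ => mul_comm _ _) l h5 (fun _ _ => h3 _)
          (fun W' hW' h => h2 W' hW' ((W'.valuation_le_one_iff x).1 h.le)) s hs δ hδ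
    obtain ⟨a, ha⟩ := exists_ne (1 : Multiplicative (ZMod l))
    obtain ⟨g, rfl⟩ := (hf.comp (QuotientGroup.mk'_surjective N)) a
    obtain ⟨γ, hγ, rfl⟩ := r2 g
    exact ha (h4 γ hγ)

omit hp in
lemma of_cycP {G : Type} [Group G] {H P : Subgroup G} (h : CycP p H P) :
    ∃ _ : (P.subgroupOf H).Normal, IsCyclic (H ⧸ P.subgroupOf H) := by
  obtain ⟨-, -, h3, c, hc, h4⟩ := h
  have : (P.subgroupOf H).Normal := ⟨fun a ha g => h3 g g.2 a ha⟩
  refine ⟨this, ⟨QuotientGroup.mk ⟨c, hc⟩, fun a => ?_⟩⟩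
  obtain ⟨g, rfl⟩ := QuotientGroup.mk_surjective a
  obtain ⟨i, hi⟩ := h4 g g.2
  refine ⟨i, ?_⟩
  have h5 : (QuotientGroup.mk (g * ((⟨c, hc⟩ : H) ^ i)⁻¹) : H ⧸ P.subgroupOf H) = 1 :=
    (QuotientGroup.eq_one_iff _).2 hi
  rw [QuotientGroup.mk_mul, QuotientGroup.mk_inv, QuotientGroup.mk_pow, mul_inv_eq_one] at h5
  simpa using h5.symm

end Nec

theorem solvable_iff (p : ℕ) [Fact p.Prime] (k : Type) [Field k] [IsAlgClosed k] [CharP k p]
    (ω : ValuationSubring (RatFunc k)) (hω : RatFunc.X ∉ ω)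
    (hωk : ∀ c : k, algebraMap k (RatFunc k) c ∈ ω) (G : Type) [Group G] [Finite G]
    (hG : Group.IsSolvable G) (H : Subgroup G) :
    Occurs k ω G H ↔ ∃ P : Subgroup G, P ≤ H ∧ IsPGroup p P ∧
      (∃ _ : (P.subgroupOf H).Normal, IsCyclic (H ⧸ P.subgroupOf H)) ∧
      Subgroup.normalClosure (P : Set G) = ⊤ := by
  have : Algebra.EssFiniteType k[X] (RatFunc k) :=
    Algebra.EssFiniteType.of_isLocalization (RatFunc k) (nonZeroDivisors k[X])
  have := Algebra.EssFiniteType.comp k k[X] (RatFunc k)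
  have hK : Algebra.trdeg k (RatFunc k) = 1 := by
    rw [← trdeg_add_eq k k[X], Polynomial.trdeg_of_isDomain, @trdeg_eq_zero _ _ _ _ _
      (IsLocalization.isAlgebraic (RatFunc k) (nonZeroDivisors k[X])), add_zero]
  refine ⟨fun h => ?_, fun ⟨P, h1, h2, ⟨_, h3⟩, h4⟩ => solvable_of blockBas lift (blockBr2 found) p k
    _ hK ω (fun h => hω (h ▸ trivial)) hωk G hG H P h1 h2 h3 h4⟩
  obtain ⟨x, hx⟩ := exists_co k (RatFunc k) hK
  obtain ⟨P, h1, h2⟩ := Nec.nec (p := p) hx (blockBr1 found p k _ x hx ω hω hωk G H h)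
  exact ⟨P, h1.1, h1.2.1, Nec.of_cycP h1, h2⟩

end Pool.Agent.Lib.IW
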