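import Mathlib

/-! Inertia groups of Galois covers of a curve unramified outside one point. -/

namespace Pool.Agent.Lib.IW

/-- `H` is the stabiliser of a point above `ξ` in a Galois cover with group `G` in which all
points not above `ξ` have trivial stabiliser. -/
def Occurs (k : Type) [Field k] {K : Type} [Field K] [Algebra k K] (ξ : ValuationSubring K)
    (G : Type) [Group G] (H : Subgroup G) : Prop :=
  ∃ (L : Type) (_ : Field L) (_ : Algebra K L) (_ : FiniteDimensional K L) (_ : IsGalois K L)
    (e : (L ≃ₐ[K] L) ≃* G),
    (∀ η : ValuationSubring L, η ≠ ⊤ → (∀ c : k, algebraMap K L (algebraMap k K c) ∈ η) →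
      η.comap (algebraMap K L) ≠ ξ → η.decompositionSubgroup K = ⊥) ∧
    ∃ η : ValuationSubring L, η.comap (algebraMap K L) = ξ ∧
      (η.decompositionSubgroup K).map e.toMonoidHom = H

end Pool.Agent.Lib.IW
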