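import Pool.Agent.Lib.IW.Util

/-! The algebraic part of a subalgebra, and the Gauss valuation ring. -/

open Polynomial IntermediateField
open scoped Pointwise

namespace Pool.Agent.Lib.IW

namespace PD0

lemma rat {𝕜 Q Ω' : Type} [Field 𝕜] [Field Q] [Algebra 𝕜 Q] [Field Ω'] [Algebra 𝕜 Ω'] {σ : Q}
    {σ' : Ω'} {κ : Ω' →ₐ[𝕜] AlgebraicClosure Q}
    (hκ : κ σ' = algebraMap Q (AlgebraicClosure Q) σ) {c : Ω'} (hc : c ∈ 𝕜⟮σ'⟯) :
    ∃ r ∈ 𝕜⟮σ⟯, algebraMap Q (AlgebraicClosure Q) r = κ c := by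
  induction hc using IntermediateField.adjoin_induction with
  | mem y hy => exact ⟨σ, mem_adjoin_simple_self _ _, by rw [Set.mem_singleton_iff.1 hy, hκ]⟩
  | algebraMap c =>
    exact ⟨_, IntermediateField.algebraMap_mem _ c, by rw [κ.commutes, ← IsScalarTower.algebraMap_apply]⟩
  | add a b _ _ ha hb =>
    obtain ⟨r, hr, e⟩ := ha
    obtain ⟨s, hs, e'⟩ := hb
    exact ⟨r + s, add_mem hr hs, by rw [map_add, map_add, e, e']⟩
  | inv a _ ha =>
    obtain ⟨r, hr, e⟩ := ha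
    exact ⟨r⁻¹, inv_mem hr, by rw [map_inv₀, map_inv₀, e]⟩
  | mul a b _ _ ha hb =>
    obtain ⟨r, hr, e⟩ := ha
    obtain ⟨s, hs, e'⟩ := hb
    exact ⟨r * s, mul_mem hr hs, by rw [map_mul, map_mul, e, e']⟩

lemma minp {𝕜 Q Ω' : Type} [Field 𝕜] [Field Q] [Algebra 𝕜 Q] [Field Ω'] [IsAlgClosed Ω']
    [Algebra 𝕜 Ω'] {σ : Q} {σ' : Ω'} {κ : Ω' →ₐ[𝕜] AlgebraicClosure Q} (hσ : Co 𝕜 σ')
    (hκ : κ σ' = algebraMap Q (AlgebraicClosure Q) σ) (γ : Aut 𝕜 Ω')
    (hγ : ∀ (y : Ω') (r : Q), algebraMap Q (AlgebraicClosure Q) r = κ y → γ y = y) (y : Ω') :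
    minpoly Q (κ (γ y)) = minpoly Q (κ y) := by
  have hy : IsIntegral 𝕜⟮σ'⟯ y := (hσ.alg y).isIntegral
  have hy' : IsIntegral Q (κ y) := Algebra.IsIntegral.isIntegral _
  set f : Ω'[X] := (minpoly 𝕜⟮σ'⟯ y).map (algebraMap _ Ω') with hf
  have hf0 : f ≠ 0 := ((minpoly.monic hy).map _).ne_zero
  have hfy : f.eval y = 0 := by rw [hf, eval_map_algebraMap]; exact minpoly.aeval _ _
  obtain ⟨F, hF⟩ : f.map κ.toRingHom ∈ lifts (algebraMap Q (AlgebraicClosure Q)) := by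
    refine (lifts_iff_coeff_lifts _).2 fun i => ?_
    rw [coeff_map, hf, coeff_map]
    obtain ⟨r, -, e⟩ := rat hκ ((minpoly 𝕜⟮σ'⟯ y).coeff i).2
    exact ⟨r, e⟩
  rw [coe_mapRingHom] at hF
  have hd : minpoly Q (κ y) ∣ F := by
    refine minpoly.dvd _ _ ?_
    rw [← eval_map_algebraMap, hF]
    change eval (κ.toRingHom y) _ = 0
    rw [eval_map_apply, hfy, map_zero]
  have hm := (minpoly.monic hy').map (algebraMap Q (AlgebraicClosure Q))
  obtain ⟨g, hg⟩ := (IsAlgClosed.splits _).mem_lift_of_roots_mem_range hm κ.toRingHom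
    fun a ha => (IsAlgClosed.splits f).mem_range_of_isRoot hf0
      (hF ▸ (isRoot_of_mem_roots ha).dvd (Polynomial.map_dvd _ hd))
  rw [coe_mapRingHom] at hg
  have hgy : g.eval y = 0 := by
    apply κ.toRingHom.injective
    rw [← eval_map_apply, hg, map_zero, eval_map_algebraMap]
    exact minpoly.aeval _ _
  have hgγ : g.map (γ : Ω' →+* Ω') = g := by
    ext i
    rw [coeff_map]
    refine hγ _ ((minpoly Q (κ y)).coeff i) ?_
    rw [← coeff_map, ← hg, coeff_map]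
    rfl
  have h1 : g.eval (γ y) = 0 := by
    rw [← hgγ]
    change eval ((γ : Ω' →+* Ω') y) _ = 0
    rw [eval_map_apply, hgy, map_zero]
  refine (minpoly.eq_of_irreducible_of_monic (minpoly.irreducible hy') ?_ (minpoly.monic hy')).symm
  rw [← eval_map_algebraMap, ← hg]
  change eval (κ.toRingHom (γ y)) _ = 0
  rw [eval_map_apply, h1, map_zero]

end PD0

theorem blockEof : StmtEof := by
  intro 𝕜 Q Ω' _ _ _ _ _ σ σ' κ hσ hκ R hR y
  refine ⟨fun hy => ?_, fun hy => IntermediateField.subset_adjoin _ _ hy⟩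
  let A : Subalgebra 𝕜⟮σ'⟯ Ω' :=
    { carrier := {y | ∃ r ∈ R, algebraMap Q (AlgebraicClosure Q) r = κ y}
      mul_mem' := by
        rintro a b ⟨r, hr, e⟩ ⟨s, hs, e'⟩
        exact ⟨r * s, mul_mem hr hs, by rw [map_mul, map_mul, e, e']⟩
      add_mem' := by
        rintro a b ⟨r, hr, e⟩ ⟨s, hs, e'⟩
        exact ⟨r + s, add_mem hr hs, by rw [map_add, map_add, e, e']⟩
      algebraMap_mem' := fun c => by
        obtain ⟨r, hr, e⟩ := PD0.rat hκ c.2
        exact ⟨r, hR hr, e⟩ }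
  change y ∈ A
  induction hy using IntermediateField.adjoin_induction with
  | mem y hy => exact hy
  | algebraMap c => exact A.algebraMap_mem (algebraMap 𝕜 𝕜⟮σ'⟯ c)
  | add a b _ _ ha hb => exact add_mem ha hb
  | inv a _ ha => exact A.inv_mem_of_algebraic (x := ⟨a, ha⟩) (hσ.alg a)
  | mul a b _ _ ha hb => exact mul_mem ha hb

theorem blockPD0 (_hE : StmtEof) : StmtPD0 := by
  intro 𝕜 Q Ω' _ hQ _ _ _ _ _ _ σ σ' κ ⟨t, ht0, ht1⟩ hσ hκ
  let _ : NontriviallyNormedField Q :=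
    { hQ with
      non_trivial := ⟨algebraMap 𝕜 Q t⁻¹, by
        rw [norm_algebraMap', norm_inv]
        exact (one_lt_inv₀ (norm_pos_iff.2 ht0)).2 ht1⟩ }
  let N := spectralMulAlgNorm Q (AlgebraicClosure Q)
  have hN : ∀ x, N x = spectralNorm Q (AlgebraicClosure Q) x := fun _ => rfl
  let O : ValuationSubring Ω' :=
    { carrier := {y | N (κ y) ≤ 1}
      mul_mem' := fun {a b} (ha : N (κ a) ≤ 1) (hb : N (κ b) ≤ 1) => by
        change N (κ (a * b)) ≤ 1
        rw [map_mul, map_mul]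
        exact mul_le_one₀ ha (apply_nonneg _ _) hb
      one_mem' := by
        change N (κ 1) ≤ 1
        rw [map_one, map_one]
      add_mem' := fun {a b} (ha : N (κ a) ≤ 1) (hb : N (κ b) ≤ 1) => by
        change N (κ (a + b)) ≤ 1
        rw [map_add]
        exact (isNonarchimedean_spectralNorm (κ a) (κ b)).trans (max_le ha hb)
      zero_mem' := by
        change N (κ 0) ≤ 1
        rw [map_zero, map_zero]; exact zero_le_one
      neg_mem' := fun {a} (ha : N (κ a) ≤ 1) => by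
        change N (κ (-a)) ≤ 1
        rwa [map_neg, map_neg_eq_map]
      mem_or_inv_mem' := fun a => by
        change N (κ a) ≤ 1 ∨ N (κ a⁻¹) ≤ 1
        rw [map_inv₀, map_inv₀]
        exact (le_total _ 1).imp_right inv_le_one_of_one_le₀ }
  have hO : ∀ y, y ∈ O ↔ N (κ y) ≤ 1 := fun _ => Iff.rfl
  refine ⟨O, fun y r e => by rw [hO, ← e, hN, spectralNorm_extends], fun γ hγ => ?_⟩
  refine MulAction.mem_stabilizer_iff.2 (ValuationSubring.ext _ _ fun y => ?_)
  have h1 := PD0.minp hσ hκ γ⁻¹ (fun y r e =>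
    (IntermediateField.mem_fixingSubgroup_iff _ _).1 (inv_mem hγ) y
      (IntermediateField.subset_adjoin _ _ ⟨r, Algebra.mem_top, e⟩)) y
  rw [ValuationSubring.mem_pointwise_smul_iff_inv_smul_mem, hO, hO, hN, hN, spectralNorm,
    spectralNorm, AlgEquiv.smul_def, h1]

end Pool.Agent.Lib.IW
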