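import Pool.Agent.Lib.IW.Util

/-! Auxiliary lemmas for the patching lemma. -/

open Polynomial IntermediateField
open scoped Pointwise

namespace Pool.Agent.Lib.IW.PL

section Grp

variable {G : Type} [Group G]

lemma top_of [Finite G] {p : ℕ} [hp : Fact p.Prime]
    (hG : ∀ N : Subgroup G, N.Normal → ¬ p ∣ N.index → N = ⊤) {M : ℕ} (hM : ¬ p ∣ M)
    (J : Subgroup G) {S : Set G} (hS : Subgroup.closure S = ⊤)
    (h : ∀ g ∈ S, ∃ a ∈ J, ∃ c ∈ Subgroup.center G, c ^ M = 1 ∧ g = a * c) : J = ⊤ := by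
  have key : ∀ g : G, ∃ a ∈ J, ∃ c ∈ Subgroup.center G, c ^ M = 1 ∧ g = a * c := by
    intro g
    have hg : g ∈ Subgroup.closure S := hS ▸ Subgroup.mem_top g
    induction hg using Subgroup.closure_induction with
    | mem g hg => exact h g hg
    | one => exact ⟨1, one_mem _, 1, one_mem _, one_pow _, (one_mul _).symm⟩
    | mul g g' _ _ h1 h2 =>
      obtain ⟨a, ha, c, hc, hc', rfl⟩ := h1
      obtain ⟨a', ha', c', hd, hd', rfl⟩ := h2
      refine ⟨a * a', mul_mem ha ha', c * c', mul_mem hc hd, ?_, ?_⟩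
      · rw [Commute.mul_pow (Subgroup.mem_center_iff.1 hd c), hc', hd', one_mul]
      · rw [mul_assoc, mul_assoc, ← mul_assoc c, ← Subgroup.mem_center_iff.1 hc a', mul_assoc]
    | inv g _ h1 =>
      obtain ⟨a, ha, c, hc, hc', rfl⟩ := h1
      exact ⟨a⁻¹, inv_mem ha, c⁻¹, inv_mem hc, by rw [inv_pow, hc', inv_one],
        by rw [mul_inv_rev, Subgroup.mem_center_iff.1 (inv_mem hc)]⟩
  have hN : J.Normal := ⟨fun u hu g => by
    obtain ⟨a, ha, c, hc, -, rfl⟩ := key g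
    have : a * c * u * (a * c)⁻¹ = a * u * a⁻¹ := by
      rw [mul_assoc a c u, ← Subgroup.mem_center_iff.1 hc u]; group
    rw [this]
    exact mul_mem (mul_mem ha hu) (inv_mem ha)⟩
  refine hG J hN fun hd => hM ?_
  obtain ⟨q, hq⟩ := exists_prime_orderOf_dvd_card' (G := G ⧸ J) p hd
  obtain ⟨g, rfl⟩ := QuotientGroup.mk_surjective q
  obtain ⟨a, ha, c, -, hc, rfl⟩ := key g
  rw [← hq, orderOf_dvd_iff_pow_eq_one, QuotientGroup.mk_mul, (QuotientGroup.eq_one_iff a).2 ha,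
    one_mul, ← QuotientGroup.mk_pow, hc, QuotientGroup.mk_one]

variable {Ω : Type} [Field Ω] {M : ℕ} {Z : Subgroup G} {lam : Ω → G}

lemma lam_one (h : IsLam M Z lam) : lam 1 = 1 := by
  simpa using h.1 1 1 (one_pow _) (one_pow _)

lemma lam_pow (h : IsLam M Z lam) {ζ : Ω} (hζ : ζ ^ M = 1) (i : ℕ) : lam (ζ ^ i) = lam ζ ^ i := by
  induction i with
  | zero => simpa using lam_one h
  | succ i ih =>
    rw [pow_succ, h.1 _ _ (by rw [← pow_mul, mul_comm, pow_mul, hζ, one_pow]) hζ, ih, pow_succ]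

variable {k : Type} [Field k] [Algebra k Ω]

lemma twist [IsAlgClosed k] {Δ : Subgroup (Aut k Ω)} {ρ : Aut k Ω → G} (hρ : IsRep Δ ρ)
    (h : IsLam M (Subgroup.center G) lam) (hM : M ≠ 0) {x r : Ω} (hr : r ^ M = x) (hx : x ≠ 0)
    (hΔ : Δ ≤ Gam k x) : IsRep Δ fun γ => ρ γ * lam (γ r / r) := by
  refine ⟨fun γ hγ δ hδ => ?_, hρ.cts.comp₂ (cts_apply Δ r) fun g y => g * lam (y / r)⟩
  have h1 := kap_pow hr hx (hΔ hγ)
  rw [hρ.mul γ hγ δ hδ, kap_mul hM hr hx γ (hΔ hδ), h.1 _ _ h1 (kap_pow hr hx (hΔ hδ)),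
    mul_assoc, mul_assoc, ← mul_assoc (ρ δ), Subgroup.mem_center_iff.1 (h.2 _ h1), mul_assoc]

lemma root_const [IsAlgClosed k] {ζ : Ω} (hM : M ≠ 0) (h : ζ ^ M = 1) :
    ∃ c : k, algebraMap k Ω c = ζ :=
  have h1 : IsIntegral k ζ := IsIntegral.of_pow (Nat.pos_of_ne_zero hM) (h ▸ isIntegral_one)
  minpoly.mem_range_of_degree_eq_one k ζ
    (IsAlgClosed.degree_eq_one_of_irreducible k (minpoly.irreducible h1))

lemma lam_ext [IsAlgClosed k] {Ω' : Type} [Field Ω'] [Algebra k Ω'] (ι : Ω →ₐ[k] Ω') (hM : M ≠ 0)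
    (h : IsLam M Z lam) : ∃ lam' : Ω' → G, IsLam M Z lam' ∧ ∀ y, lam' (ι y) = lam y := by
  have e : ∀ y, lam (Function.invFun ι (ι y)) = lam y := fun y =>
    congrArg lam (Function.leftInverse_invFun ι.injective y)
  have e2 : ∀ ζ : Ω', ζ ^ M = 1 → ∃ y : Ω, y ^ M = 1 ∧ ι y = ζ := fun ζ hζ => by
    obtain ⟨c, rfl⟩ := root_const (k := k) hM hζ
    exact ⟨algebraMap k Ω c, ι.injective (by rw [map_pow, map_one]; simpa using hζ),
      ι.commutes c⟩
  refine ⟨fun y => lam (Function.invFun ι y), ⟨fun ζ ζ' h1 h2 => ?_, fun ζ h1 => ?_⟩, e⟩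
  · obtain ⟨y, hy, rfl⟩ := e2 ζ h1
    obtain ⟨y', hy', rfl⟩ := e2 ζ' h2
    simp only [← map_mul, e, h.1 y y' hy hy']
  · obtain ⟨y, hy, rfl⟩ := e2 ζ h1
    simpa only [e] using h.2 y hy

lemma smul_eq_iff {γ : Aut k Ω} {W : ValuationSubring Ω} :
    γ • W = W ↔ ∀ y, γ y ∈ W ↔ y ∈ W := by
  refine ⟨fun h y => ?_, fun h => ?_⟩
  · conv_lhs => rw [← h]
    exact ValuationSubring.smul_mem_pointwise_smul_iff
  · ext y
    rw [ValuationSubring.mem_pointwise_smul_iff_inv_smul_mem, ← h]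
    simp

end Grp

section Val

variable {k Ω : Type} [Field k] [Field Ω] [Algebra k Ω] {O : ValuationSubring Ω}

lemma val_const (hc : ∀ c : k, algebraMap k Ω c ∈ O) {c : k} (h : c ≠ 0) :
    O.valuation (algebraMap k Ω c) = 1 := by
  have h1 := (O.valuation_le_one_iff _).2 (hc c)
  have h2 := (O.valuation_le_one_iff _).2 (hc c⁻¹)
  have h0 : O.valuation (algebraMap k Ω c) ≠ 0 := by simpa using h
  rw [map_inv₀, map_inv₀, inv_le_one₀ (zero_lt_iff.2 h0)] at h2
  exact le_antisymm h1 h2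

lemma val_eq_of_sub {a b : Ω} (hb : O.valuation b = 1) (h : O.valuation (a - b) < 1) :
    O.valuation a = 1 := by
  have := O.valuation.map_add_eq_of_lt_left (x := b) (y := a - b) (hb ▸ h)
  rwa [add_sub_cancel, hb] at this

lemma sub_mul {a b a' b' : Ω} (ha : O.valuation a ≤ 1) (hb : O.valuation b' ≤ 1)
    (h : O.valuation (a - b) < 1) (h' : O.valuation (a' - b') < 1) :
    O.valuation (a * a' - b * b') < 1 := by
  rw [show a * a' - b * b' = a * (a' - b') + (a - b) * b' by ring]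
  refine O.valuation.map_add_lt ?_ ?_ <;> rw [map_mul]
  · exact (mul_le_of_le_one_left' ha).trans_lt h'
  · exact (mul_le_of_le_one_right' hb).trans_lt h

lemma n1_mul {a b : Ω} (h : O.valuation (a - 1) < 1) (h' : O.valuation (b - 1) < 1) :
    O.valuation (a * b - 1) < 1 := by
  simpa using sub_mul (val_eq_of_sub (map_one _) h).le (map_one _).le h h'

lemma n1_pow {a : Ω} (h : O.valuation (a - 1) < 1) (n : ℕ) : O.valuation (a ^ n - 1) < 1 := by
  induction n with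
  | zero => simp
  | succ n ih => rw [pow_succ]; exact n1_mul ih h

lemma n1_h {s b : Ω} (hs : O.valuation s < 1) (hb : O.valuation b ≤ 1) {j : ℕ} (hj : j ≠ 0) :
    O.valuation ((1 - s) * (1 - b * s ^ j) - 1) < 1 := by
  refine n1_mul (by simpa using hs) ?_
  rw [sub_sub_cancel_left, Valuation.map_neg, map_mul, map_pow]
  exact (mul_le_of_le_one_left' hb).trans_lt (pow_lt_one₀ zero_le hs hj)

lemma near_root [IsAlgClosed k] {y : Ω} {n : ℕ} (hn : n ≠ 0) (h : O.valuation (y ^ n - 1) < 1) :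
    ∃ c : k, c ≠ 0 ∧ O.valuation (y - algebraMap k Ω c) < 1 := by
  by_contra hc
  push Not at hc
  have hm : (X ^ n - C 1 : k[X]).Monic := monic_X_pow_sub_C _ hn
  have e := congrArg (aeval y) ((IsAlgClosed.splits (X ^ n - C 1 : k[X])).eq_prod_roots_of_monic hm)
  rw [map_multiset_prod, Multiset.map_map] at e
  simp only [map_sub, map_pow, aeval_X, map_one, Function.comp_def, aeval_C] at e
  rw [e, map_multiset_prod, Multiset.map_map] at h
  refine absurd h (not_lt.2 (Multiset.one_le_prod_of_one_le fun a ha => ?_))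
  obtain ⟨c, hc1, rfl⟩ := Multiset.mem_map.1 ha
  refine hc c ?_
  rintro rfl
  simp [hn] at hc1

lemma val_of_pow {y : Ω} {n : ℕ} (hn : n ≠ 0) (h : O.valuation (y ^ n) = 1) :
    O.valuation y = 1 := by
  rw [map_pow] at h
  exact (pow_eq_one_iff_left hn).1 h

lemma mem_of_pow {y : Ω} {n : ℕ} (hn : n ≠ 0) (h : y ^ n ∈ O) : y ∈ O := by
  rw [← ValuationSubring.valuation_le_one_iff] at h ⊢
  rw [map_pow] at h
  exact (pow_le_one_iff hn).1 h

lemma inv_lt {y : Ω} (h : y ∉ O) : O.valuation y⁻¹ < 1 := by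
  rw [← ValuationSubring.valuation_le_one_iff, not_le] at h
  rw [map_inv₀]
  exact inv_lt_one_of_one_lt₀ h

end Val

end Pool.Agent.Lib.IW.PL
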