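import Pool.Agent.Lib.IW.PL1

/-! The degeneration used in the patching lemma. -/

open Polynomial IntermediateField
open scoped Pointwise

namespace Pool.Agent.Lib.IW.PL

variable {k 𝕜 Ω Ω' : Type} [Field k] [IsAlgClosed k] [Field 𝕜] [Field Ω] [IsAlgClosed Ω]
  [Field Ω'] [IsAlgClosed Ω'] [Algebra k 𝕜] [Algebra k Ω] [Algebra k Ω'] [Algebra 𝕜 Ω']
  [IsScalarTower k 𝕜 Ω'] {σ : Ω'} {E0 E1 E2 : IntermediateField 𝕜 Ω'} {O : ValuationSubring Ω'}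

omit [IsAlgClosed k] [IsAlgClosed Ω'] [Algebra k 𝕜] [IsScalarTower k 𝕜 Ω'] in
lemma val_sigma (hb : BasP k σ E0 E1 E2 O) : O.valuation σ = 1 := by
  simpa using hb.gauss 0 (by simp)

omit [Algebra k 𝕜] [IsScalarTower k 𝕜 Ω'] in
lemma setup (hC : StmtConj) (hB : StmtBas) (hb : BasP k σ E0 E1 E2 O) {z : Ω} (hz : Co k z)
    {W : ValuationSubring Ω} (hW : IsPl k W) (hzW : z ∉ W) {n M : ℕ} (hn : ((n * M : ℕ) : k) ≠ 0)
    {t : 𝕜} (ht : t ≠ 0) (ht1 : O.valuation (algebraMap 𝕜 Ω' t) < 1) (b : k) {j : ℕ} (hj : j ≠ 0) :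
    ∃ (ι : Ω →ₐ[k] Ω') (η : Ω'), η ∈ E1 ∧ η ≠ 0 ∧
      η ^ (n * M) = (1 - algebraMap 𝕜 Ω' t * σ) *
        (1 - algebraMap k Ω' b * (algebraMap 𝕜 Ω' t * σ) ^ j) ∧
      ι z = (algebraMap 𝕜 Ω' t)⁻¹ * σ * η ^ M ∧ ∀ y, ι y ∈ O ↔ y ∈ W := by
  have hn0 : n * M ≠ 0 := by rintro h; simp [h] at hn
  obtain ⟨η, hη⟩ := IsAlgClosed.exists_pow_nat_eq ((1 - algebraMap 𝕜 Ω' t * σ) *
    (1 - algebraMap k Ω' b * (algebraMap 𝕜 Ω' t * σ) ^ j)) (Nat.pos_of_ne_zero hn0)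
  have h1 : η ∈ E1 := by
    refine hb.hens1 (X ^ (n * M) - C ((1 - X) * (1 - C b * X ^ j))) (monic_X_pow_sub_C _ hn0) ?_
      t ht1 η ?_
    · have := separable_X_pow_sub_C (1 : k) hn one_ne_zero
      simpa [hj] using this
    · simp [hη, eval₂_pow]
  have hs : O.valuation (algebraMap 𝕜 Ω' t * σ) < 1 := by rwa [map_mul, val_sigma hb, mul_one]
  have h2 : O.valuation η = 1 := val_of_pow hn0 (val_eq_of_sub (map_one _)
    (hη ▸ n1_h hs ((O.valuation_le_one_iff _).2 (hb.const b)) hj))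
  have h3 : (algebraMap 𝕜 Ω' t)⁻¹ * σ * η ^ M ∉ O := by
    rw [← ValuationSubring.valuation_le_one_iff, map_mul, map_mul, map_pow, h2, val_sigma hb,
      one_pow, mul_one, mul_one, map_inv₀, not_le]
    exact one_lt_inv_iff₀.2 ⟨zero_lt_iff.2 (by simpa using ht), ht1⟩
  have h4 : Transcendental k ((algebraMap 𝕜 Ω' t)⁻¹ * σ * η ^ M) := fun h => by
    obtain ⟨c, hc⟩ := minpoly.mem_range_of_degree_eq_one k _
      (IsAlgClosed.degree_eq_one_of_irreducible k (minpoly.irreducible h.isIntegral))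
    exact h3 (hc ▸ hb.const c)
  obtain ⟨ι, hι⟩ := hB.exEmb k Ω Ω' z _ hz h4
  have h5 : z ∉ O.comap ι.toRingHom := fun h => h3 (hι ▸ h)
  have h6 : IsPl k (O.comap ι.toRingHom) := ⟨fun h => h5 (h ▸ ValuationSubring.mem_top _),
    fun c => by simpa [ValuationSubring.mem_comap] using hb.const c⟩
  obtain ⟨γ, hγ, hγW⟩ := conj_inf hC hB hz hW h6 hzW h5
  refine ⟨ι.comp γ, η, h1, by rintro rfl; simp at h2, hη, by rw [← hι]; exact congrArg ι hγ,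
    fun y => ?_⟩
  change γ y ∈ O.comap ι.toRingHom ↔ _
  rw [← hγW]
  exact ValuationSubring.smul_mem_pointwise_smul_iff

omit [IsAlgClosed Ω] [IsAlgClosed Ω'] in
lemma closed1 (hI : StmtCin) (hb : BasP k σ E0 E1 E2 O) {z : Ω} (hz : Co k z) {n M : ℕ}
    (hn : n ≠ 0) {t : 𝕜} (ht : t ≠ 0) (ht1 : O.valuation (algebraMap 𝕜 Ω' t) < 1) (b : k) {j : ℕ}
    (hj : j ≠ 0) {ι : Ω →ₐ[k] Ω'} {η : Ω'} (h1 : η ∈ E1)
    (hη : η ^ (n * M) = (1 - algebraMap 𝕜 Ω' t * σ) *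
      (1 - algebraMap k Ω' b * (algebraMap 𝕜 Ω' t * σ) ^ j))
    (hι : ι z = (algebraMap 𝕜 Ω' t)⁻¹ * σ * η ^ M) (hzE : ι z ∈ E1) :
    ∀ s, ι s ∈ E1 → s ∈ k⟮z⟯ := by
  have hs : O.valuation (algebraMap 𝕜 Ω' t * σ) < 1 := by rwa [map_mul, val_sigma hb, mul_one]
  obtain ⟨f, hf, hfσ⟩ := hb.ev1 0 t ht (by
    rw [map_zero, zero_add]; exact (O.valuation_le_one_iff _).1 hs.le)
  have h2 := hfσ ⟨σ, hb.mem1⟩ rfl
  rw [map_zero, zero_add] at h2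
  have e1 : (⟨η, h1⟩ : E1) ^ (n * M) = (1 - algebraMap 𝕜 E1 t * ⟨σ, hb.mem1⟩) *
      (1 - algebraMap 𝕜 E1 (algebraMap k 𝕜 b) * (algebraMap 𝕜 E1 t * ⟨σ, hb.mem1⟩) ^ j) :=
    Subtype.ext (by simpa [IsScalarTower.algebraMap_apply k 𝕜 Ω'] using hη)
  have e2 : (⟨ι z, hzE⟩ : E1) = algebraMap 𝕜 E1 t⁻¹ * ⟨σ, hb.mem1⟩ * ⟨η, h1⟩ ^ M :=
    Subtype.ext (by simpa using hι)
  have e3 := congrArg f e1
  simp only [map_pow, map_mul, map_sub, map_one, AlgHom.commutes, h2,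
    ← IsScalarTower.algebraMap_apply k 𝕜 Ω'] at e3
  have h3 : O.valuation ((f ⟨η, h1⟩ ^ M) ^ n - 1) < 1 := by
    rw [← pow_mul, mul_comm M, e3]
    refine n1_h ?_ ((O.valuation_le_one_iff _).2 (hb.const b)) hj
    rw [map_mul]
    exact (mul_le_of_le_one_left' ht1.le).trans_lt hs
  obtain ⟨c, hc, h4⟩ := near_root (k := k) hn h3
  refine hI k 𝕜 Ω Ω' σ E0 E1 E2 O hb z hz ι E1 hzE f hf c hc ?_
  have h5 : algebraMap 𝕜 Ω' t ≠ 0 := by simpa using ht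
  rw [e2, map_mul, map_mul, map_pow, h2, AlgHom.commutes, map_inv₀, inv_mul_cancel_left₀ h5,
    mul_comm σ, ← _root_.sub_mul, map_mul, val_sigma hb, mul_one]
  exact h4

omit [IsAlgClosed Ω] [IsAlgClosed Ω'] in
lemma closed2 (hI : StmtCin) (hb : BasP k σ E0 E1 E2 O) {x : Ω} (hx : Co k x) {n : ℕ}
    (hn : n ≠ 0) {t : 𝕜} (ht : t ≠ 0) (ht1 : O.valuation (algebraMap 𝕜 Ω' t) < 1) {b : k}
    (hb1 : b ≠ 1) (j : ℕ) {ι : Ω →ₐ[k] Ω'}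
    (hι : ι x = ((algebraMap 𝕜 Ω' t)⁻¹ * σ) ^ n * ((1 - algebraMap 𝕜 Ω' t * σ) *
      (1 - algebraMap k Ω' b * (algebraMap 𝕜 Ω' t * σ) ^ j))) (hxE : ι x ∈ E2) :
    ∀ s, ι s ∈ E2 → s ∈ k⟮x⟯ := by
  have h5 : algebraMap 𝕜 Ω' t ≠ 0 := by simpa using ht
  have hs : O.valuation (1 + algebraMap 𝕜 Ω' t ^ (2 * n) * σ - 1) < 1 := by
    rw [add_sub_cancel_left, map_mul, val_sigma hb, mul_one, map_pow]
    exact pow_lt_one₀ zero_le ht1 (by omega)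
  have e0 : algebraMap 𝕜 Ω' t⁻¹ + algebraMap 𝕜 Ω' (t⁻¹ * t ^ (2 * n)) * σ =
      (algebraMap 𝕜 Ω' t)⁻¹ * (1 + algebraMap 𝕜 Ω' t ^ (2 * n) * σ) := by
    simp only [map_inv₀, map_mul, map_pow]; ring
  obtain ⟨f, hf, hfσ⟩ := hb.ev2 t⁻¹ (t⁻¹ * t ^ (2 * n)) (by simp [ht]) (by
    rw [e0, ← ValuationSubring.valuation_le_one_iff, map_mul, val_eq_of_sub (map_one _) hs, mul_one,
      map_inv₀, not_le]
    exact one_lt_inv_iff₀.2 ⟨zero_lt_iff.2 (by simpa using ht), ht1⟩)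
  have h2 := hfσ ⟨σ, hb.mem2⟩ rfl
  rw [e0] at h2
  have e2 : (⟨ι x, hxE⟩ : E2) = (algebraMap 𝕜 E2 t⁻¹ * ⟨σ, hb.mem2⟩) ^ n *
      ((1 - algebraMap 𝕜 E2 t * ⟨σ, hb.mem2⟩) * (1 - algebraMap 𝕜 E2 (algebraMap k 𝕜 b) *
        (algebraMap 𝕜 E2 t * ⟨σ, hb.mem2⟩) ^ j)) :=
    Subtype.ext (by simpa [IsScalarTower.algebraMap_apply k 𝕜 Ω'] using hι)
  have e3 := congrArg f e2
  simp only [map_pow, map_mul, map_sub, map_one, AlgHom.commutes, h2,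
    ← IsScalarTower.algebraMap_apply k 𝕜 Ω', map_inv₀, mul_inv_cancel_left₀ h5] at e3
  refine hI k 𝕜 Ω Ω' σ E0 E1 E2 O hb x hx ι E2 hxE f hf (b - 1) (sub_ne_zero.2 hb1) ?_
  generalize hu : 1 + algebraMap 𝕜 Ω' t ^ (2 * n) * σ = u at e3 hs
  have e4 : f ⟨ι x, hxE⟩ - algebraMap k Ω' (b - 1) * σ =
      (u ^ n * (algebraMap k Ω' b * u ^ j - 1) - 1 * (algebraMap k Ω' b * 1 - 1)) * σ := by
    have : 1 - u = -(algebraMap 𝕜 Ω' t ^ (2 * n) * σ) := by rw [← hu]; ring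
    rw [e3, this, map_sub, map_one, mul_pow, mul_pow, inv_pow, two_mul, pow_add]
    field_simp
    ring
  have hb0 := (O.valuation_le_one_iff _).2 (hb.const b)
  rw [e4, map_mul, val_sigma hb, mul_one]
  refine PL.sub_mul (val_eq_of_sub (map_one _) (n1_pow hs n)).le ?_ (n1_pow hs n) ?_
  · exact O.valuation.map_sub_le (by rwa [mul_one]) (map_one _).le
  · rw [sub_sub_sub_cancel_right, ← mul_sub, map_mul]
    exact (mul_le_of_le_one_left' hb0).trans_lt (n1_pow hs j)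

omit [IsAlgClosed k] [IsAlgClosed Ω'] in
lemma val_inf {W : ValuationSubring Ω'} (hW : IsPl 𝕜 W) (hσ : σ ∉ W) (n : ℕ) {t : 𝕜} (ht : t ≠ 0)
    {b : k} (hb : b ≠ 0) {j : ℕ} (hj : j ≠ 0) :
    W.valuation (((algebraMap 𝕜 Ω' t)⁻¹ * σ) ^ n * ((1 - algebraMap 𝕜 Ω' t * σ) *
      (1 - algebraMap k Ω' b * (algebraMap 𝕜 Ω' t * σ) ^ j)) * σ⁻¹ ^ (n + 1 + j)) = 1 := by
  have h0 : σ ≠ 0 := by rintro rfl; exact hσ W.zero_mem
  have h1 := val_const hW.2 ht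
  have h2 : W.valuation (algebraMap k Ω' b) = 1 := by
    rw [IsScalarTower.algebraMap_apply k 𝕜]
    exact val_const hW.2 (by simpa using hb)
  have h3 := inv_lt hσ
  have e : ((algebraMap 𝕜 Ω' t)⁻¹ * σ) ^ n * ((1 - algebraMap 𝕜 Ω' t * σ) *
      (1 - algebraMap k Ω' b * (algebraMap 𝕜 Ω' t * σ) ^ j)) * σ⁻¹ ^ (n + 1 + j) =
      (algebraMap 𝕜 Ω' t)⁻¹ ^ n * ((algebraMap 𝕜 Ω' t - σ⁻¹) *
        (algebraMap k Ω' b * algebraMap 𝕜 Ω' t ^ j - σ⁻¹ ^ j)) := by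
    simp only [mul_pow, pow_add, inv_pow]
    field_simp
    ring
  rw [e, map_mul, map_mul, map_pow, map_inv₀, h1, val_eq_of_sub h1 (by simpa using h3),
    val_eq_of_sub (b := algebraMap k Ω' b * algebraMap 𝕜 Ω' t ^ j) (by simp [h1, h2])]
  · simp
  · rw [sub_sub_cancel_left, Valuation.map_neg, map_pow]
    exact pow_lt_one₀ zero_le h3 hj

end Pool.Agent.Lib.IW.PL
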