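import Pool.Agent.Lib.IW.Util

/-! Lemmas for the block `PicA`: a polynomial with separable fibre, and a divisor computation. -/

open Polynomial IntermediateField
open scoped Pointwise

namespace Pool.Agent.Lib.IW.PicA

variable {k Ω : Type} [Field k] [Field Ω] [Algebra k Ω]

lemma sep_of_le {K F : IntermediateField k Ω} (h : K ≤ F) {y : Ω} (hy : IsSeparable K y) :
    IsSeparable F y := by
  let _ := (IntermediateField.inclusion h).toAlgebra
  have : IsScalarTower K F Ω := IsScalarTower.of_algebraMap_eq fun _ => rfl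
  exact hy.tower_top F

lemma alg_of_le {K F : IntermediateField k Ω} (h : K ≤ F) {y : Ω} (hy : IsAlgebraic K y) :
    IsAlgebraic F y := by
  let _ := (IntermediateField.inclusion h).toAlgebra
  have : IsScalarTower K F Ω := IsScalarTower.of_algebraMap_eq fun _ => rfl
  exact hy.tower_top F

lemma mem_fix_adjoin {S : Set Ω} {γ : Aut k Ω} :
    γ ∈ (IntermediateField.adjoin k S).fixingSubgroup ↔ ∀ s ∈ S, γ s = s := by
  rw [IntermediateField.mem_fixingSubgroup_iff]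
  refine ⟨fun h s hs => h s (subset_adjoin k S hs), fun h y hy => ?_⟩
  induction hy using IntermediateField.adjoin_induction with
  | mem y hy => exact h y hy
  | algebraMap c => exact γ.commutes c
  | add a b _ _ ha hb => rw [map_add, ha, hb]
  | inv a _ ha => rw [map_inv₀, ha]
  | mul a b _ _ ha hb => rw [map_mul, ha, hb]

omit [Algebra k Ω] in
/-- A polynomial over `k[X]` that is generically separable has a separable fibre. -/
lemma exists_fibre [Infinite k] (φ : k[X] →+* Ω) (hφ : Function.Injective φ) {f : k[X][X]}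
    (hf : f.natDegree ≠ 0) (hs : (f.map φ).Separable) :
    ∃ a : k, (f.map (evalRingHom a)).Separable := by
  have h1 := resultant_ne_zero _ _ ((separable_def _).1 hs)
  rw [derivative_map, natDegree_map_eq_of_injective hφ, natDegree_map_eq_of_injective hφ,
    resultant_map_map] at h1
  have h2 : resultant f f.derivative ≠ 0 := fun h => h1 (by rw [h, map_zero])
  obtain ⟨a, ha⟩ := exists_eval_ne_zero_of_natDegree_lt_card _ h2
    (lt_of_lt_of_le Cardinal.natCast_lt_aleph0 (Cardinal.infinite_iff.1 inferInstance))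
  obtain ⟨u, v, -, -, e⟩ := exists_mul_add_mul_eq_C_resultant f f.derivative le_rfl le_rfl
    (Or.inl hf)
  have e' := congrArg (Polynomial.map (evalRingHom a)) e
  rw [Polynomial.map_add, Polynomial.map_mul, Polynomial.map_mul, map_C, coe_evalRingHom,
    ← derivative_map] at e'
  refine ⟨a, C (eval a (resultant f f.derivative))⁻¹ * u.map (evalRingHom a),
    C (eval a (resultant f f.derivative))⁻¹ * v.map (evalRingHom a), ?_⟩
  rw [mul_assoc, mul_assoc, ← mul_add, mul_comm (u.map _), mul_comm (v.map _), e', ← C_mul,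
    inv_mul_cancel₀ ha, C_1]

lemma exists_poly [IsAlgClosed k] [IsAlgClosed Ω] (hF : Found) {x : Ω} (hx : Co k x) {H : Type}
    [Group H] [Finite H] {ρ : Aut k Ω → H} {y : H → Ω} (hi : Function.Injective y)
    (hy : ∀ h, IsSeparable k⟮x⟯ (y h) ∧ Intg k x (y h))
    (hp : ∀ γ ∈ Gam k x, ∀ h, γ (y h) = y (ρ γ * h)) :
    ∃ (a : k) (g : k[X][X]), g.Monic ∧ (g.map (evalRingHom 0)).Separable ∧
      ∀ h, g.eval₂ (aeval (x - algebraMap k Ω a)).toRingHom (y h) = 0 := by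
  classical
  have := Fintype.ofFinite H
  let S : Subring Ω :=
    { carrier := {z | IsSeparable k⟮x⟯ z ∧ Intg k x z}
      mul_mem' := fun ha hb => ⟨(separableClosure k⟮x⟯ Ω).mul_mem ha.1 hb.1,
        fun W hW h => W.mul_mem _ _ (ha.2 W hW h) (hb.2 W hW h)⟩
      one_mem' := ⟨(separableClosure k⟮x⟯ Ω).one_mem, fun W _ _ => W.one_mem⟩
      add_mem' := fun ha hb => ⟨(separableClosure k⟮x⟯ Ω).add_mem ha.1 hb.1,
        fun W hW h => W.add_mem _ _ (ha.2 W hW h) (hb.2 W hW h)⟩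
      zero_mem' := ⟨(separableClosure k⟮x⟯ Ω).zero_mem, fun W _ _ => W.zero_mem⟩
      neg_mem' := fun ha => ⟨(separableClosure k⟮x⟯ Ω).neg_mem ha.1,
        fun W hW h => W.neg_mem _ (ha.2 W hW h)⟩ }
  set P : Polynomial Ω := ∏ h, (X - C (y h)) with hP
  have hS : ∀ i, P.coeff i ∈ S := by
    intro i
    have : P = (∏ h, (X - C (⟨y h, hy h⟩ : S))).map S.subtype := by
      simp [hP, Polynomial.map_prod]
    rw [this, coeff_map]
    exact Subtype.coe_prop _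
  have hfix : ∀ γ ∈ Gam k x, ∀ i, γ (P.coeff i) = P.coeff i := by
    intro γ hγ i
    have : P.map (γ : Ω →+* Ω) = P := by
      rw [hP, Polynomial.map_prod, ← Equiv.prod_comp (Equiv.mulLeft (ρ γ)) fun h => X - C (y h)]
      simp [hp γ hγ]
    conv_rhs => rw [← this, coeff_map]
    rfl
  have hl : P ∈ lifts (aeval x : k[X] →ₐ[k] Ω).toRingHom := by
    rw [lifts_iff_coeff_lifts]
    intro i
    obtain ⟨Q, hQ⟩ := hF.bas.intgPoly k Ω x _ hx.tr (hS i).2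
      (hF.gal.sep k Ω k⟮x⟯ hx.alg _ (hS i).1 fun γ hγ => hfix γ (by rwa [fix_adjoin] at hγ) i)
    exact ⟨Q, hQ.symm⟩
  have hm : P.Monic := monic_prod_of_monic _ _ fun h _ => monic_X_sub_C _
  obtain ⟨f, hf, hd, hfm⟩ := lifts_and_natDegree_eq_and_monic hl hm
  obtain ⟨a, ha⟩ := exists_fibre (aeval x : k[X] →ₐ[k] Ω).toRingHom
    (transcendental_iff_injective.1 hx.tr) (f := f) (by
      rw [hd, hP, natDegree_prod_of_monic _ _ fun h _ => monic_X_sub_C _]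
      simp) (by rw [hf, hP]; exact separable_prod_X_sub_C_iff.2 hi)
  refine ⟨a, f.map (compRingHom (X + C a)), hfm.map _, ?_, fun h => ?_⟩
  · rw [Polynomial.map_map]
    convert ha using 2
    ext <;> simp
  · rw [eval₂_map]
    have : (aeval (x - algebraMap k Ω a) : k[X] →ₐ[k] Ω).toRingHom.comp (compRingHom (X + C a)) =
        (aeval x : k[X] →ₐ[k] Ω).toRingHom := by
      ext <;> simp
    rw [this, eval₂_eq_eval_map, hf, hP, eval_prod]
    exact Finset.prod_eq_zero (Finset.mem_univ h) (by simp)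

section places

variable {W W' : ValuationSubring Ω}

lemma lt_one_iff {y : Ω} : W.valuation y < 1 ↔ y = 0 ∨ y⁻¹ ∉ W := by
  rw [← ValuationSubring.mem_nonunits_iff, ValuationSubring.mem_nonunits_iff_or]

lemma agr_lt {F : IntermediateField k Ω} (h : Agr F W W') {y : Ω} (hy : y ∈ F) :
    W.valuation y < 1 ↔ W'.valuation y < 1 := by
  rw [lt_one_iff, lt_one_iff, h _ (inv_mem hy)]

lemma val_const (hc : ∀ c : k, algebraMap k Ω c ∈ W) {c : k} (h : c ≠ 0) :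
    W.valuation (algebraMap k Ω c) = 1 := by
  refine le_antisymm ((W.valuation_le_one_iff _).2 (hc c)) (not_lt.1 fun h1 => ?_)
  rcases lt_one_iff.1 h1 with h2 | h2
  · exact h (by simpa using h2)
  · exact h2 (by simpa using hc c⁻¹)

lemma val_other (hW : IsPl k W) {σ : Ω} {b c : k} (hb : W.valuation (σ - algebraMap k Ω b) < 1)
    (h : b ≠ c) : W.valuation (σ - algebraMap k Ω c) = 1 := by
  have h1 := val_const hW.2 (sub_ne_zero.2 h)
  have h2 := W.valuation.map_add_eq_of_lt_left (x := algebraMap k Ω (b - c))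
    (y := σ - algebraMap k Ω b) (h1 ▸ hb)
  rw [h1, map_sub] at h2
  rw [← h2]
  congr 1
  ring

lemma mem_of_lt (hW : IsPl k W) {σ : Ω} {b : k} (hb : W.valuation (σ - algebraMap k Ω b) < 1) :
    σ ∈ W := by
  have := W.add_mem _ _ ((W.valuation_le_one_iff _).1 hb.le) (hW.2 b)
  rwa [sub_add_cancel] at this

lemma not_agr {F : IntermediateField k Ω} (hW : IsPl k W) {σ : Ω} (hσ : σ ∈ F) {b c : k}
    (hb : W.valuation (σ - algebraMap k Ω b) < 1) (hc : W'.valuation (σ - algebraMap k Ω c) < 1)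
    (h : b ≠ c) : ¬ Agr F W W' := fun ha => by
  have := (agr_lt ha (sub_mem hσ (F.algebraMap_mem c))).2 hc
  rw [val_other hW hb h] at this
  exact lt_irrefl _ this

end places

/-- The divisor of the `n`-th power of the Kummer generator. -/
lemma div_mod (p : ℕ) [Fact p.Prime] [IsAlgClosed k] [CharP k p] [IsAlgClosed Ω] (hF : Found)
    {σ : Ω} (hσ : Co k σ) {E1 E2 F : IntermediateField k Ω} {O : ValuationSubring Ω}
    (hL : LocP σ E1 E2 O) (hff : FF F) (hσF : σ ∈ F) (hsep : ∀ y ∈ F, IsSeparable k⟮σ⟯ y)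
    {H : Type} [Group H] {r : Aut k Ω → H} (hr : IsRep (Gam k σ) r)
    (hfix : ∀ γ, γ ∈ F.fixingSubgroup ↔ γ ∈ Gam k σ ∧ r γ = 1)
    (hE1 : ∀ γ ∈ E1.fixingSubgroup, r γ = 1) {t : k} (ht : t ≠ 0) (htO : algebraMap k Ω t ∈ O)
    {n : ℕ} {e φ : Ω} (he : e ^ n = σ / (σ - algebraMap k Ω t)) (he0 : e ≠ 0)
    (hes : IsSeparable k⟮σ⟯ e) (hφ0 : φ ≠ 0) (hφs : IsSeparable k⟮σ⟯ φ) (hφF : φ ^ n ∈ F)
    (h1 : ∀ δ ∈ Gam k σ, ∀ γ ∈ E1.fixingSubgroup, r δ = 1 → (δ * γ * δ⁻¹) (φ / e) = φ / e)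
    (h2 : ∀ δ ∈ Gam k σ, ∀ γ ∈ E1.fixingSubgroup, r δ ≠ 1 → (δ * γ * δ⁻¹) φ = φ)
    (h3 : ∀ δ ∈ Gam k σ, ∀ γ ∈ E2.fixingSubgroup, r γ = 1 → (δ * γ * δ⁻¹) φ = φ)
    {R₀ R₁ : ValuationSubring Ω} (hR₀ : IsPl k R₀) (hR₁ : IsPl k R₁)
    (hv₀ : R₀.valuation (σ - algebraMap k Ω 0) < 1) (hv₁ : R₁.valuation (σ - algebraMap k Ω t) < 1)
    (hd₀ : Dec k σ R₀ ≤ E1.fixingSubgroup) (hd₁ : Dec k σ R₁ ≤ E1.fixingSubgroup) :
    DivMod F n (φ ^ n) R₀ R₁ := by
  classical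
  refine ⟨hφF, pow_ne_zero _ hφ0, fun W hW π hπ => ?_⟩
  have hle : k⟮σ⟯ ≤ F := adjoin_simple_le_iff.2 hσF
  have halg : ∀ y : Ω, IsAlgebraic F y := fun y => alg_of_le hle (hσ.alg y)
  have hdec : ∀ {δ : Aut k Ω} {W' : ValuationSubring Ω}, δ ∈ Gam k σ → δ • W' = W →
      ∀ γ ∈ DecF F W, δ⁻¹ * γ * δ ∈ Dec k σ W' ∧ r (δ⁻¹ * γ * δ) = 1 ∧
        γ = δ * (δ⁻¹ * γ * δ) * δ⁻¹ := by
    intro δ W' hδ hW' γ hγ
    obtain ⟨g1, g2⟩ := (hfix γ).1 hγ.1
    refine ⟨(conj_mem_Dec hδ).2 (hW' ▸ ⟨g1, hγ.2⟩), ?_, by group⟩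
    rw [hr.mul _ (mul_mem (inv_mem hδ) g1) _ hδ, hr.mul _ (inv_mem hδ) _ g1, hr.inv hδ, g2]
    simp
  have hgood : (∀ γ ∈ DecF F W, γ φ = φ) → ¬ Agr F W R₀ → ¬ Agr F W R₁ →
      ∃ i : ℤ, W.valuation (φ ^ n) = W.valuation π ^ i ∧
        (n : ℤ) ∣ i - (if Agr F W R₀ then 1 else 0) + (if Agr F W R₁ then 1 else 0) := by
    intro g1 g2 g3
    obtain ⟨j, hj⟩ := hF.hens.hens p k Ω F hff W hW π hπ φ hφ0 (sep_of_le hle hφs) g1
    refine ⟨j * n, by rw [map_pow, hj, zpow_mul, zpow_natCast], ?_⟩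
    simp [g2, g3]
  have hout : ∀ {δ : Aut k Ω} {W' : ValuationSubring Ω}, δ ∈ Gam k σ → δ • W' = W →
      Dec k σ W' ≤ E2.fixingSubgroup → ∀ γ ∈ DecF F W, γ φ = φ := by
    intro δ W' hδ hW' hD γ hγ
    obtain ⟨g1, g2, g3⟩ := hdec hδ hW' γ hγ
    rw [g3]
    exact h3 δ hδ _ (hD g1) g2
  by_cases hσW : σ ∈ W
  swap
  · obtain ⟨W', g1, g2, g3⟩ := hL.locInf
    obtain ⟨δ, hδ, hW'⟩ := conj_inf hF.conj hF.bas hσ g1 hW g2 hσW
    exact hgood (hout hδ hW' g3) (fun ha => hσW ((ha σ hσF).2 (mem_of_lt hR₀ hv₀)))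
      fun ha => hσW ((ha σ hσF).2 (mem_of_lt hR₁ hv₁))
  obtain ⟨b, hb⟩ := hF.bas.resid k Ω σ hσ W hW σ hσW
  by_cases hbO : algebraMap k Ω b ∈ O
  swap
  · obtain ⟨W', g1, g2, g3⟩ := hL.loc2 b hbO
    obtain ⟨δ, hδ, hW'⟩ := conj_at hF.conj hF.bas hσ g1 hW g2 hb
    refine hgood (hout hδ hW' g3) (not_agr hW hσF hb hv₀ ?_) (not_agr hW hσF hb hv₁ ?_)
    · rintro rfl
      exact hbO (by simp)
    · rintro rfl
      exact hbO htO
  obtain ⟨W', g1, g2, g3, g4, g5⟩ : ∃ W' : ValuationSubring Ω, IsPl k W' ∧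
      W'.valuation (σ - algebraMap k Ω b) < 1 ∧ Dec k σ W' ≤ E1.fixingSubgroup ∧
      (b = 0 → W' = R₀) ∧ (b = t → W' = R₁) := by
    by_cases e0 : b = 0
    · exact ⟨R₀, hR₀, e0 ▸ hv₀, hd₀, fun _ => rfl, fun h => (ht (h ▸ e0)).elim⟩
    by_cases e1 : b = t
    · exact ⟨R₁, hR₁, e1 ▸ hv₁, hd₁, fun h => (e0 h).elim, fun _ => rfl⟩
    obtain ⟨W', g1, g2, g3⟩ := hL.loc1 b hbO
    exact ⟨W', g1, g2, g3, fun h => (e0 h).elim, fun h => (e1 h).elim⟩
  obtain ⟨δ, hδ, hW'⟩ := conj_at hF.conj hF.bas hσ g1 hW g2 hb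
  by_cases hrδ : r δ = 1
  swap
  · have hna : ¬ Agr F W W' := fun ha => by
      obtain ⟨γ, hγ, hγ'⟩ := hF.conj k Ω F halg W W' ha
      obtain ⟨g6, g7⟩ := (hfix γ).1 hγ
      have g9 : γ * δ ∈ Dec k σ W' := ⟨mul_mem g6 hδ, by
        change (γ * δ) • W' = W'
        rw [mul_smul, hW', hγ']⟩
      have g8 := hE1 _ (g3 g9)
      rw [hr.mul _ g6 _ hδ, g7, one_mul] at g8
      exact hrδ g8
    refine hgood (fun γ hγ => ?_) ?_ ?_
    · obtain ⟨g6, -, g8⟩ := hdec hδ hW' γ hγ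
      rw [g8]
      exact h2 δ hδ _ (g3 g6) hrδ
    · by_cases e0 : b = 0
      · exact g4 e0 ▸ hna
      · exact not_agr hW hσF hb hv₀ e0
    · by_cases e1 : b = t
      · exact g5 e1 ▸ hna
      · exact not_agr hW hσF hb hv₁ e1
  have hag : Agr F W W' := fun y hy => by
    have g6 := (hF.bas.smulPl k Ω W' g1 δ).2.1 y
    rwa [hW', (IntermediateField.mem_fixingSubgroup_iff F δ).1 ((hfix δ).2 ⟨hδ, hrδ⟩) y hy] at g6
  obtain ⟨j, hj⟩ := hF.hens.hens p k Ω F hff W hW π hπ (φ / e) (div_ne_zero hφ0 he0)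
    (sep_of_le hle ((separableClosure k⟮σ⟯ Ω).div_mem hφs hes)) fun γ hγ => by
      obtain ⟨g6, -, g8⟩ := hdec hδ hW' γ hγ
      rw [g8]
      exact h1 δ hδ _ (g3 g6) hrδ
  have hu := hF.bas.unifAt k Ω σ hσ.tr b W hW hb
  have hπ0 : W.valuation π ≠ 0 := by simpa using hπ.2.1
  have hunr : W.valuation (σ - algebraMap k Ω b) = W.valuation π := by
    refine le_antisymm (hπ.2.2.2 _ (sub_mem hσF (F.algebraMap_mem b)) hb) ?_
    obtain ⟨i, hi⟩ := hF.hens.hens p k Ω k⟮σ⟯ hσ.ff W hW _ hu π hπ.2.1 (hsep π hπ.1)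
      fun γ hγ => by
        rw [DecF_adjoin, ← hW'] at hγ
        exact (IntermediateField.mem_fixingSubgroup_iff F γ).1 ((hfix γ).2 ⟨Dec_le _ _ hγ,
          hr.triv_smul (fun γ hγ => hE1 γ (g3 hγ)) hδ γ hγ⟩) π hπ.1
    have h0 : 0 < W.valuation (σ - algebraMap k Ω b) := by
      rw [zero_lt_iff]
      simpa using hu.2.1
    have h4 := hπ.2.2.1
    rw [hi, zpow_lt_one_iff_right_of_lt_one₀ h0 hb] at h4
    rw [hi]
    simpa using zpow_le_zpow_right_of_le_one₀ h0 hb.le (show (1 : ℤ) ≤ i by omega)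
  have hval : W.valuation (φ ^ n) = W.valuation π ^ (j * n) *
      (W.valuation (σ - algebraMap k Ω 0) / W.valuation (σ - algebraMap k Ω t)) := by
    rw [map_zero, sub_zero, ← map_div₀, ← he, zpow_mul, zpow_natCast, ← hj, ← map_pow, ← map_mul,
      ← mul_pow, div_mul_cancel₀ _ he0]
  by_cases e0 : b = 0
  · have a0 : Agr F W R₀ := g4 e0 ▸ hag
    have e1 : b ≠ t := fun h => ht (h ▸ e0)
    refine ⟨j * n + 1, ?_, by simp [a0, not_agr hW hσF hb hv₁ e1]⟩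
    rw [hval, val_other hW hb e1, ← e0, hunr, div_one, zpow_add_one₀ hπ0]
  by_cases e1 : b = t
  · have a1 : Agr F W R₁ := g5 e1 ▸ hag
    refine ⟨j * n - 1, ?_, by simp [a1, not_agr hW hσF hb hv₀ e0]⟩
    rw [hval, val_other hW hb e0, ← e1, hunr, zpow_sub_one₀ hπ0, one_div]
  · refine ⟨j * n, ?_, by simp [not_agr hW hσF hb hv₀ e0, not_agr hW hσF hb hv₁ e1]⟩
    rw [hval, val_other hW hb e0, val_other hW hb e1, div_one, mul_one]

end Pool.Agent.Lib.IW.PicA
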