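import Pool.Agent.Lib.IW.Norm

/-! Places of a function field with a separating coordinate; dictionary with places of `Ω`. -/

open Polynomial IntermediateField

namespace Pool.Agent.Lib.IW

open Pool.Agent.Lib.MP_e06174_ag Pool.Agent.Lib.MP_ba4752_ag Place

namespace PicB

section abstr

variable {k L : Type} [Field k] [Field L] [Algebra k L]

lemma exists_at {x : L} (h : SepCoord k x) (a : k) : ∃ p : Place k L, p.At x a := by
  obtain ⟨_, _, _, _, _, _, _, rfl⟩ := h.setup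
  obtain ⟨w, e, hw⟩ := exists_over L (vAt a)
  exact ⟨w, by rw [← toAlgHom_X]; exact (hw.at_iff a).2 (vAt_at a)⟩

lemma finite_at {x : L} (h : SepCoord k x) (a : k) : {p : Place k L | p.At x a}.Finite := by
  obtain ⟨_, _, _, _, _, _, _, rfl⟩ := h.setup
  exact (finite_over L (vAt a)).subset fun w hw => (At.over hw).imp fun e he => he.1

lemma finite_pole {x : L} (h : SepCoord k x) : {p : Place k L | p.ord x < 0}.Finite := by
  obtain ⟨_, _, _, _, _, _, _, rfl⟩ := h.setup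
  exact (finite_over L vInf).subset fun w hw => (over_of_pole hw).imp fun e he => he.1

lemma finite_poles [IsAlgClosed k] {x : L} (h : SepCoord k x) (y : L) :
    {p : Place k L | p.ord y < 0}.Finite := by
  classical
  obtain ⟨q, hq, hq'⟩ := exists_multiple h.toIsCoord y
  refine ((finite_pole h).union (Set.Finite.biUnion q.roots.toFinset.finite_toSet
    fun a _ => finite_at h a)).subset fun w hw => ?_
  rcases h.toIsCoord.pole_or_at w with h1 | ⟨a, ha⟩
  · exact Or.inl h1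
  refine Or.inr (Set.mem_biUnion (x := a) ?_ ha)
  by_contra hn
  have h2 : ¬ q.IsRoot a := fun h3 => hn (by simpa [hq] using h3)
  have h3 := ha.ord_aeval h.trans hq
  rw [rootMultiplicity_eq_zero h2] at h3
  have hw' : w.ord y < 0 := hw
  have hy : y ≠ 0 := by rintro rfl; simp at hw'
  have h4 := (hq' w ha.ge_zero).le (mul_ne_zero (aeval_ne_zero h.trans hq) hy)
  rw [w.ord_mul (aeval_ne_zero h.trans hq) hy, h3] at h4
  simp at h4
  omega

lemma finite_supp [IsAlgClosed k] {x : L} (h : SepCoord k x) (y : L) :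
    {p : Place k L | p.ord y ≠ 0}.Finite :=
  ((finite_poles h y).union (finite_poles h y⁻¹)).subset fun w hw => by
    have hw' : w.ord y ≠ 0 := hw
    simp only [Set.mem_union, Set.mem_ofPred_eq, ord_inv]
    omega

lemma gen_top (x : L) : k⟮AdjoinSimple.gen k x⟯ = ⊤ := by
  apply lift_injective
  rw [lift_adjoin_simple, lift_top]
  rfl

lemma norm_formula [IsAlgClosed k] (hN : StmtNorm) {x : L} (h : SepCoord k x) {y : L} (hy : y ≠ 0)
    (a : k) {P Q : k[X]} (hP : P ≠ 0) (hQ : Q ≠ 0)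
    (e : ((Algebra.norm k⟮x⟯ y : k⟮x⟯) : L) = aeval x P / aeval x Q) (T : Finset (Place k L))
    (hT : ∀ w ∈ T, w.At x a) (hT' : ∀ w : Place k L, w.At x a → w ∉ T → w.ord y = 0) :
    (P.rootMultiplicity a : ℤ) - Q.rootMultiplicity a = ∑ w ∈ T, w.ord y := by
  have := h.fin
  have tr : Transcendental k (AdjoinSimple.gen k x) := fun h1 =>
    h.trans (isAlgebraic_iff.1 h1)
  have un : ∀ w : Place k L, w.At x a → ∃ (v : Place k k⟮x⟯) (e : ℕ), w.Over (k⟮x⟯).val v e ∧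
      v.At (AdjoinSimple.gen k x) a := fun w hw => by
    obtain ⟨v, e, hv⟩ := exists_under (K := k⟮x⟯) w
    exact ⟨v, e, hv, (hv.at_iff a).1 hw⟩
  obtain ⟨w₀, hw₀⟩ := exists_at h a
  obtain ⟨v, -, -, hv⟩ := un w₀ hw₀
  rw [← hN.norm k L x h v y hy T (fun w hw => ?_) fun w e hw hw' =>
    hT' w ((hw.at_iff (x := AdjoinSimple.gen k x) a).2 hv) hw']
  · have e2 : Algebra.norm k⟮x⟯ y =
        aeval (AdjoinSimple.gen k x) P / aeval (AdjoinSimple.gen k x) Q := by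
      have h1 : Function.Injective (k⟮x⟯).val := Subtype.val_injective
      apply h1
      rw [map_div₀, ← aeval_algHom_apply, ← aeval_algHom_apply]
      exact e
    rw [e2, hv.ord_div tr hP hQ, hv.ord_eq_one tr (gen_top x), mul_one]
  · obtain ⟨v', e', h1, h2⟩ := un w (hT w hw)
    exact ⟨e', At.ext h2 hv tr (gen_top x) ▸ h1⟩

end abstr

section dict

variable {k Ω : Type} [Field k] [Field Ω] [Algebra k Ω] {L : IntermediateField k Ω}

lemma sepCoord_sub {x : Ω} (hx : x ∈ L) (htr : Transcendental k x) (hfg : L.FG)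
    (hsep : ∀ y ∈ L, IsSeparable k⟮x⟯ y) : SepCoord k (⟨x, hx⟩ : L) := by
  have e1 : (k⟮(⟨x, hx⟩ : L)⟯).map L.val = k⟮x⟯ := by
    rw [adjoin_map]
    simp
  let e : k⟮(⟨x, hx⟩ : L)⟯ ≃ₐ[k] k⟮x⟯ := (equivMap _ L.val).trans (equivOfEq e1)
  have hs : Algebra.IsSeparable k⟮(⟨x, hx⟩ : L)⟯ L := ⟨fun y => by
    have h1 : IsSeparable k⟮(⟨x, hx⟩ : L)⟯ (y : Ω) :=
      IsSeparable.of_equiv_equiv e.symm.toRingEquiv (RingEquiv.refl Ω) (by
        ext z
        obtain ⟨z, rfl⟩ := e.surjective z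
        change algebraMap _ Ω (e.symm (e z)) = _
        rw [e.symm_apply_apply]
        rfl) (hsep y y.2)
    exact IsSeparable.tower_bot h1⟩
  refine ⟨⟨fun h => htr (isAlgebraic_iff.1 h), ?_⟩, hs⟩
  have : Algebra.EssFiniteType k L := essFiniteType_iff.2 hfg
  have : Algebra.EssFiniteType k⟮(⟨x, hx⟩ : L)⟯ L := .of_comp k _ _
  exact Algebra.finite_of_essFiniteType_of_isAlgebraic

/-- The place `v` of `L` is the restriction of `W`. -/
def Ov (v : Place k L) (W : ValuationSubring Ω) : Prop := ∀ y : L, (y : Ω) ∈ W ↔ v.Ge 0 y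

lemma exists_ov {x : L} (h : SepCoord k x) {W : ValuationSubring Ω}
    (hk : ∀ c : k, algebraMap k Ω c ∈ W) (hW : ∃ y ∈ L, y ∉ W) : ∃ v : Place k L, Ov v W := by
  obtain ⟨y, hy, hy'⟩ := hW
  obtain ⟨v, hv⟩ := h.exists_place (W.comap L.val.toRingHom)
    (fun h1 => hy' ((h1 ▸ ValuationSubring.mem_top _ : (⟨y, hy⟩ : L) ∈ W.comap L.val.toRingHom)))
    fun c => hk c
  exact ⟨v, fun z => by rw [← mem_O, hv]; rfl⟩

lemma exists_pl (hB : StmtBas) (v : Place k L) : ∃ W, IsPl k W ∧ Ov v W := by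
  obtain ⟨W, hW⟩ := hB.exOver L Ω L.val.toRingHom v.O
  have h1 : Ov v W := fun z => by rw [← mem_O, ← hW]; rfl
  refine ⟨W, ⟨fun h => ?_, fun c => (h1 (algebraMap k L c)).2 (ge_const c)⟩, h1⟩
  obtain ⟨z, h0, hz⟩ := v.exists_ord_eq (-1)
  have := ((h1 z).1 (h ▸ ValuationSubring.mem_top _)).le h0
  omega

lemma Ov.agr {v v' : Place k L} {W W' : ValuationSubring Ω} (h : Ov v W) (h' : Ov v' W') :
    Agr L W W' ↔ v = v' :=
  ⟨fun ha => ext_of_ge fun y hy => (h' y).1 ((ha y y.2).1 ((h y).2 hy)),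
    fun e y hy => (h ⟨y, hy⟩).trans (e ▸ (h' ⟨y, hy⟩).symm)⟩

lemma Ov.le_iff {v : Place k L} {W : ValuationSubring Ω} (h : Ov v W) {y z : L} (hy : y ≠ 0)
    (hz : z ≠ 0) : W.valuation (y : Ω) ≤ W.valuation (z : Ω) ↔ v.ord z ≤ v.ord y := by
  have h0 : W.valuation (z : Ω) ≠ 0 := by simpa using hz
  rw [← div_le_one₀ (zero_lt_iff.2 h0), ← map_div₀, W.valuation_le_one_iff]
  refine (h (y / z)).trans ?_
  rw [ge_iff (div_ne_zero hy hz), v.ord_div hy hz]
  omega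

lemma Ov.lt_one_iff {v : Place k L} {W : ValuationSubring Ω} (h : Ov v W) {y : L} :
    W.valuation (y : Ω) < 1 ↔ v.Ge 1 y := by
  by_cases hy : y = 0
  · simp [hy]
  have := h.le_iff one_ne_zero hy
  rw [ge_iff hy, ← not_le]
  simp only [OneMemClass.coe_one, map_one, ord_one] at this
  rw [this]
  omega

lemma Ov.val_eq {v : Place k L} {W : ValuationSubring Ω} (h : Ov v W) {π y : L} (h0 : π ≠ 0)
    (hπ : v.ord π = 1) (hy : y ≠ 0) : W.valuation (y : Ω) = W.valuation (π : Ω) ^ v.ord y := by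
  have h1 : π ^ v.ord y ≠ 0 := zpow_ne_zero _ h0
  have h2 : W.valuation (π : Ω) ^ v.ord y = W.valuation ((π ^ v.ord y : L) : Ω) := by
    rw [← map_zpow₀]
    exact congrArg _ (map_zpow₀ L.val π _).symm
  rw [h2]
  exact le_antisymm ((h.le_iff hy h1).2 (by simp [hπ])) ((h.le_iff h1 hy).2 (by simp [hπ]))

lemma Ov.unif {v : Place k L} {W : ValuationSubring Ω} (h : Ov v W) {π : L} :
    IsUnif L W π ↔ π ≠ 0 ∧ v.ord π = 1 := by
  constructor
  · rintro ⟨-, h0, h1, h2⟩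
    have h0' : π ≠ 0 := by simpa using h0
    obtain ⟨z, hz0, hz⟩ := v.exists_ord_eq_one
    have a1 := (h.lt_one_iff.1 h1).le h0'
    have a2 := (h.le_iff hz0 h0').1 (h2 z z.2 (h.lt_one_iff.2 (ge_of_le hz.ge)))
    exact ⟨h0', by omega⟩
  · rintro ⟨h0, h1⟩
    refine ⟨π.2, by simpa using h0, h.lt_one_iff.2 (ge_of_le h1.ge), fun y hy hy' => ?_⟩
    by_cases h2 : (⟨y, hy⟩ : L) = 0
    · have : y = 0 := congrArg Subtype.val h2
      simp [this]
    · exact (h.le_iff h2 h0).2 (h1 ▸ ((h.lt_one_iff (y := ⟨y, hy⟩)).1 hy').le h2)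

open Classical in
lemma divMod_iff (hB : StmtBas) {x : L} (h : SepCoord k x) {n : ℕ} {f : L}
    {v₁ v₂ : Place k L} {W₁ W₂ : ValuationSubring Ω} (h₁ : Ov v₁ W₁) (h₂ : Ov v₂ W₂) :
    DivMod L n f W₁ W₂ ↔ f ≠ 0 ∧ ∀ v : Place k L,
      (n : ℤ) ∣ v.ord f - (if v = v₁ then 1 else 0) + (if v = v₂ then 1 else 0) := by
  constructor
  · rintro ⟨-, h0, h1⟩
    have h0' : f ≠ 0 := by simpa using h0
    refine ⟨h0', fun v => ?_⟩
    obtain ⟨W, hW, hv⟩ := exists_pl hB v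
    obtain ⟨π, hπ0, hπ⟩ := v.exists_ord_eq_one
    have hu := hv.unif.2 ⟨hπ0, hπ⟩
    obtain ⟨i, hi, hi'⟩ := h1 W hW π hu
    rw [hv.val_eq hπ0 hπ h0'] at hi
    have a1 : W.valuation (π : Ω) ≠ 0 := by simpa using hπ0
    rw [zpow_right_injective₀ (zero_lt_iff.2 a1) hu.2.2.1.ne hi]
    simpa only [hv.agr h₁, hv.agr h₂] using hi'
  · rintro ⟨h0, h1⟩
    refine ⟨f.2, by simpa using h0, fun W hW π hu => ?_⟩
    obtain ⟨v, hv⟩ := exists_ov h hW.2 ⟨π⁻¹, inv_mem hu.1, fun h2 => by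
      have a1 : W.valuation π ≠ 0 := by simpa using hu.2.1
      rw [← W.valuation_le_one_iff, map_inv₀, inv_le_one₀ (zero_lt_iff.2 a1)] at h2
      exact absurd hu.2.2.1 (not_lt.2 h2)⟩
    obtain ⟨a1, a2⟩ := (hv.unif (π := ⟨π, hu.1⟩)).1 hu
    exact ⟨v.ord f, hv.val_eq a1 a2 h0, by simpa only [hv.agr h₁, hv.agr h₂] using h1 v⟩

end dict

end PicB

end Pool.Agent.Lib.IW
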