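import Pool.Agent.Lib.IW.PicB1

/-! Reduction of a constant field extension of a function field. -/

open Polynomial IntermediateField

namespace Pool.Agent.Lib.IW

open Pool.Agent.Lib.MP_e06174_ag Pool.Agent.Lib.MP_ba4752_ag Place

namespace PicB

variable {k 𝕜 L F : Type} [Field k] [Field 𝕜] [Field L] [Field F] [Algebra k 𝕜] [Algebra k L]
  [Algebra k F] [Algebra 𝕜 F] [IsScalarTower k 𝕜 F]

section gen

variable (j : L →ₐ[k] F)

lemma map_mem {x y : L} (hy : y ∈ k⟮x⟯) : j y ∈ 𝕜⟮j x⟯ := by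
  induction hy using IntermediateField.adjoin_induction with
  | mem y hy => rw [Set.mem_singleton_iff.1 hy]; exact mem_adjoin_simple_self _ _
  | algebraMap c =>
    rw [j.commutes, IsScalarTower.algebraMap_apply k 𝕜 F]
    exact IntermediateField.algebraMap_mem _ _
  | add a b _ _ ha hb => rw [map_add]; exact add_mem ha hb
  | inv a _ ha => rw [map_inv₀]; exact inv_mem ha
  | mul a b _ _ ha hb => rw [map_mul]; exact mul_mem ha hb

variable (𝕜) in
/-- The induced map on rational function fields. -/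
noncomputable def jr (x : L) : k⟮x⟯ →+* 𝕜⟮j x⟯ :=
  (j.toRingHom.comp (algebraMap k⟮x⟯ L)).codRestrict 𝕜⟮j x⟯ fun y => map_mem j y.2

lemma jr_smul (x : L) (c : k⟮x⟯) (y : L) : jr 𝕜 j x c • j y = j (c • y) := by
  rw [Algebra.smul_def, Algebra.smul_def, map_mul]
  rfl

lemma div_of_gen (hgen : adjoin 𝕜 (Set.range j) = ⊤) (f : F) :
    ∃ a ∈ Submodule.span 𝕜 (Set.range j), ∃ b ∈ Submodule.span 𝕜 (Set.range j), f = a / b := by
  have h1 : (Algebra.adjoin 𝕜 (Set.range j)).toSubmodule = Submodule.span 𝕜 (Set.range j) := by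
    rw [Algebra.adjoin_eq_span]
    congr 1
    exact congrArg SetLike.coe (Submonoid.closure_eq (MonoidHom.mrange j))
  obtain ⟨a, ha, b, hb, e⟩ := mem_adjoin_iff_div.1 (hgen ▸ mem_top : f ∈ adjoin 𝕜 (Set.range j))
  exact ⟨a, h1 ▸ ha, b, h1 ▸ hb, e⟩

lemma adjoin_top (hgen : adjoin 𝕜 (Set.range j) = ⊤) (z : F) :
    adjoin 𝕜⟮z⟯ (Set.range j) = ⊤ := by
  refine eq_top_iff.2 fun f _ => ?_
  have h1 : adjoin 𝕜 (Set.range j) ≤ (adjoin 𝕜⟮z⟯ (Set.range j)).restrictScalars 𝕜 :=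
    adjoin_le_iff.2 (subset_adjoin _ _)
  exact h1 (hgen ▸ mem_top)

lemma isSeparable_map {x y : L} (h : IsSeparable k⟮x⟯ y) : IsSeparable 𝕜⟮j x⟯ (j y) := by
  refine (Separable.map (f := jr 𝕜 j x) h).of_dvd (minpoly.dvd _ _ ?_)
  rw [aeval_def, eval₂_map]
  have h1 := congrArg j (minpoly.aeval k⟮x⟯ y)
  rw [aeval_def, map_zero] at h1
  exact (hom_eval₂ _ (algebraMap k⟮x⟯ L) j.toRingHom y).symm.trans h1

lemma span_top (hgen : adjoin 𝕜 (Set.range j) = ⊤) {x : L} (h : SepCoord k x) {ι : Type}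
    (b : Module.Basis ι k⟮x⟯ L) : ⊤ ≤ Submodule.span 𝕜⟮j x⟯ (Set.range fun i => j (b i)) := by
  have := h.sep
  have h1 : (Algebra.adjoin 𝕜⟮j x⟯ (Set.range j)).toSubmodule =
      Submodule.span 𝕜⟮j x⟯ (Set.range j) := by
    rw [Algebra.adjoin_eq_span]
    congr 1
    exact congrArg SetLike.coe (Submonoid.closure_eq (MonoidHom.mrange j))
  have h2 : (adjoin 𝕜⟮j x⟯ (Set.range j)).toSubalgebra = Algebra.adjoin 𝕜⟮j x⟯ (Set.range j) :=
    adjoin_toSubalgebra_of_isAlgebraic (by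
      rintro _ ⟨y, rfl⟩
      exact (isSeparable_map j (Algebra.IsSeparable.isSeparable _ y)).isIntegral.isAlgebraic)
  intro f _
  have h3 : f ∈ Submodule.span 𝕜⟮j x⟯ (Set.range j) := by
    rw [← h1, ← h2, adjoin_top j hgen]
    trivial
  refine Submodule.span_le.2 ?_ h3
  rintro _ ⟨y, rfl⟩
  have h4 : y ∈ Submodule.span k⟮x⟯ (Set.range b) := b.span_eq ▸ Submodule.mem_top
  induction h4 using Submodule.span_induction with
  | mem y hy =>
    obtain ⟨i, rfl⟩ := hy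
    exact Submodule.subset_span ⟨i, rfl⟩
  | zero => rw [map_zero]; exact zero_mem _
  | add a b _ _ ha hb => rw [map_add]; exact add_mem ha hb
  | smul c a _ ha => rw [← jr_smul (𝕜 := 𝕜)]; exact Submodule.smul_mem _ _ ha

lemma sepCoord_map (hgen : adjoin 𝕜 (Set.range j) = ⊤) {x : L} (h : SepCoord k x)
    (ht : Transcendental 𝕜 (j x)) : SepCoord 𝕜 (j x) := by
  have := h.sep
  have := h.fin
  refine ⟨⟨ht, ?_⟩, ?_⟩
  · exact Module.Finite.of_fg_top (top_le_iff.1 (span_top j hgen h (Module.finBasis k⟮x⟯ L)) ▸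
      Submodule.fg_span (Set.finite_range _))
  · have h1 : Algebra.IsSeparable 𝕜⟮j x⟯ (adjoin 𝕜⟮j x⟯ (Set.range j)) :=
      (isSeparable_adjoin_iff_isSeparable _ _).2 (by
        rintro _ ⟨y, rfl⟩
        exact isSeparable_map j (Algebra.IsSeparable.isSeparable _ y))
    rw [adjoin_top j hgen] at h1
    exact Algebra.IsSeparable.of_algHom _ _ topEquiv.symm.toAlgHom

end gen

/-- The graph of a reduction map. -/
structure Red (j : L →ₐ[k] F) (O : ValuationSubring 𝕜) (Γ : Subring (F × L)) : Prop where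
  fn : ∀ y, (0, y) ∈ Γ → y = 0
  inv : ∀ a y, (a, y) ∈ Γ → y ≠ 0 → (a⁻¹, y⁻¹) ∈ Γ
  emb : ∀ y, (j y, y) ∈ Γ
  mem : ∀ c ∈ O, ∃ c₀ : k, (algebraMap 𝕜 F c, algebraMap k L c₀) ∈ Γ
  nmem : ∀ c ∉ O, (algebraMap 𝕜 F c⁻¹, 0) ∈ Γ

variable {j : L →ₐ[k] F} {O : ValuationSubring 𝕜} {Γ : Subring (F × L)}

lemma gmul {a b : F} {y z : L} (h : (a, y) ∈ Γ) (h' : (b, z) ∈ Γ) : (a * b, y * z) ∈ Γ :=
  Γ.mul_mem h h'

lemma gsub {a b : F} {y z : L} (h : (a, y) ∈ Γ) (h' : (b, z) ∈ Γ) : (a - b, y - z) ∈ Γ :=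
  Γ.sub_mem h h'

lemma gsum {ι : Type} (s : Finset ι) {a : ι → F} {y : ι → L} (h : ∀ i ∈ s, (a i, y i) ∈ Γ) :
    (∑ i ∈ s, a i, ∑ i ∈ s, y i) ∈ Γ := by
  rw [prod_mk_sum]
  exact Γ.sum_mem h

lemma gdet {ι : Type} [Fintype ι] [DecidableEq ι] {A : Matrix ι ι F} {B : Matrix ι ι L}
    (h : ∀ i l, (A i l, B i l) ∈ Γ) : (A.det, B.det) ∈ Γ := by
  let M : Matrix ι ι Γ := fun i l => ⟨(A i l, B i l), h i l⟩
  have h1 : A.det = ((RingHom.fst F L).comp Γ.subtype) M.det := by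
    rw [RingHom.map_det]; rfl
  have h2 : B.det = ((RingHom.snd F L).comp Γ.subtype) M.det := by
    rw [RingHom.map_det]; rfl
  rw [h1, h2]
  exact M.det.2

namespace Red

variable (h : Red j O Γ)
include h

lemma uniq {a : F} {y z : L} (h1 : (a, y) ∈ Γ) (h2 : (a, z) ∈ Γ) : y = z :=
  sub_eq_zero.1 (h.fn _ (by simpa using gsub h1 h2))

lemma ne {a : F} {y : L} (h1 : (a, y) ∈ Γ) (hy : y ≠ 0) : a ≠ 0 := by
  rintro rfl
  exact hy (h.fn _ h1)

lemma div {a b : F} {y z : L} (h1 : (a, y) ∈ Γ) (h2 : (b, z) ∈ Γ) (hz : z ≠ 0) :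
    (a / b, y / z) ∈ Γ := by
  rw [div_eq_mul_inv, div_eq_mul_inv]
  exact gmul h1 (h.inv _ _ h2 hz)

lemma scale {ι : Type} (s : Finset ι) (d : ι → 𝕜) (hd : ∃ i ∈ s, d i ≠ 0) :
    ∃ (d₀ : 𝕜) (r : ι → k), d₀ ≠ 0 ∧ (∃ i ∈ s, r i ≠ 0) ∧
      ∀ i ∈ s, (algebraMap 𝕜 F (d i / d₀), algebraMap k L (r i)) ∈ Γ := by
  obtain ⟨i₁, hi₁, h1⟩ := hd
  obtain ⟨i₀, hi₀, h0⟩ := s.exists_max_image (fun i => O.valuation (d i)) ⟨i₁, hi₁⟩
  have h2 : O.valuation (d i₀) ≠ 0 := fun e => h1 (by simpa [e] using h0 i₁ hi₁)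
  have h3 : d i₀ ≠ 0 := by simpa using h2
  have h4 : ∀ i, ∃ r : k, i ∈ s → (algebraMap 𝕜 F (d i / d i₀), algebraMap k L r) ∈ Γ := by
    intro i
    by_cases hi : i ∈ s
    · obtain ⟨r, hr⟩ := h.mem (d i / d i₀) (by
        rw [← O.valuation_le_one_iff, map_div₀, div_le_one₀ (zero_lt_iff.2 h2)]
        exact h0 i hi)
      exact ⟨r, fun _ => hr⟩
    · exact ⟨0, fun h => absurd h hi⟩
  choose r hr using h4
  refine ⟨d i₀, r, h3, ⟨i₀, hi₀, fun e => ?_⟩, hr⟩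
  have h5 := hr i₀ hi₀
  rw [e, div_self h3, map_one, map_zero] at h5
  exact one_ne_zero (h.uniq Γ.one_mem h5)

lemma const_unit {d : 𝕜} {u : F} {y z : L} (h1 : (algebraMap 𝕜 F d * u, y) ∈ Γ) (h2 : (u, z) ∈ Γ)
    (hz : z ≠ 0) : ∃ r : k, y = algebraMap k L r * z := by
  by_cases hd : d ∈ O
  · obtain ⟨r, hr⟩ := h.mem d hd
    exact ⟨r, h.uniq h1 (gmul hr h2)⟩
  · have h0 : d ≠ 0 := fun e => hd (e ▸ O.zero_mem)
    have h3 := gmul (h.nmem d hd) h1
    rw [← mul_assoc, ← map_mul, inv_mul_cancel₀ h0, map_one, one_mul, zero_mul] at h3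
    exact absurd (h.uniq h2 h3) hz

open Classical in
lemma poly_aux (x : L) (s : Multiset 𝕜) : ∃ (d : 𝕜) (P₀ : k[X]), d ≠ 0 ∧ P₀ ≠ 0 ∧
    (algebraMap 𝕜 F d * aeval (j x) (s.map fun a => X - C a).prod, aeval x P₀) ∈ Γ ∧
      P₀.rootMultiplicity 0 = (s.filter fun a => (algebraMap 𝕜 F a, (0 : L)) ∈ Γ).card := by
  induction s using Multiset.induction_on with
  | empty =>
    refine ⟨1, 1, one_ne_zero, one_ne_zero, ?_, by simp⟩
    simp only [Multiset.map_zero, Multiset.prod_zero, map_one, mul_one]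
    exact Γ.one_mem
  | cons a s ih =>
    obtain ⟨d, P₀, h1, h2, h3, h4⟩ := ih
    rw [Multiset.map_cons, Multiset.prod_cons, map_mul, map_sub, aeval_X, aeval_C]
    by_cases ha : a ∈ O
    · obtain ⟨r, hr⟩ := h.mem a ha
      have h5 := mul_ne_zero (X_sub_C_ne_zero r) h2
      refine ⟨d, (X - C r) * P₀, h1, h5, ?_, ?_⟩
      · rw [map_mul, map_sub, aeval_X, aeval_C, mul_left_comm]
        exact gmul (gsub (h.emb x) hr) h3
      · rw [rootMultiplicity_mul h5, h4, rootMultiplicity_X_sub_C, Multiset.filter_cons,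
          Multiset.card_add]
        congr 1
        by_cases e : (0 : k) = r
        · rw [if_pos e, if_pos (by simpa [← e] using hr), Multiset.card_singleton]
        · rw [if_neg e, if_neg, Multiset.card_zero]
          intro h6
          exact e ((algebraMap k L).injective (by rw [map_zero]; exact h.uniq h6 hr))
    · have h0 : a ≠ 0 := fun e => ha (e ▸ O.zero_mem)
      have h5 := h.nmem a ha
      refine ⟨-(d * a⁻¹), P₀, neg_ne_zero.2 (mul_ne_zero h1 (inv_ne_zero h0)), h2, ?_, ?_⟩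
      · have h6 := gmul (gsub Γ.one_mem (gmul h5 (h.emb x))) h3
        have h7 : algebraMap 𝕜 F a⁻¹ * algebraMap 𝕜 F a = 1 := by
          rw [← map_mul, inv_mul_cancel₀ h0, map_one]
        have e1 : algebraMap 𝕜 F (-(d * a⁻¹)) * ((j x - algebraMap 𝕜 F a) *
            aeval (j x) (s.map fun a => X - C a).prod) = (1 - algebraMap 𝕜 F a⁻¹ * j x) *
            (algebraMap 𝕜 F d * aeval (j x) (s.map fun a => X - C a).prod) := by
          rw [map_neg, map_mul, ← h7]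
          ring
        rw [e1]
        simpa using h6
      · rw [h4, Multiset.filter_cons_of_neg]
        intro h6
        have h7 := gmul h5 h6
        rw [← map_mul, inv_mul_cancel₀ h0, map_one, zero_mul] at h7
        exact one_ne_zero (h.uniq Γ.one_mem h7)

variable [IsAlgClosed 𝕜]

open Classical in
lemma poly (x : L) {P : 𝕜[X]} (hP : P ≠ 0) : ∃ (d : 𝕜) (P₀ : k[X]), d ≠ 0 ∧ P₀ ≠ 0 ∧
    (algebraMap 𝕜 F d * aeval (j x) P, aeval x P₀) ∈ Γ ∧
      P₀.rootMultiplicity 0 = (P.roots.filter fun a => (algebraMap 𝕜 F a, (0 : L)) ∈ Γ).card := by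
  obtain ⟨d, P₀, h1, h2, h3, h4⟩ := h.poly_aux x P.roots
  have h0 := leadingCoeff_ne_zero.2 hP
  refine ⟨d / P.leadingCoeff, P₀, div_ne_zero h1 h0, h2, ?_, h4⟩
  have e := congrArg (aeval (j x)) (IsAlgClosed.splits P).eq_prod_roots
  rw [e, map_mul, aeval_C, ← mul_assoc, ← map_mul, div_mul_cancel₀ _ h0]
  exact h3

lemma trans {x : L} (hx : Transcendental k x) : Transcendental 𝕜 (j x) := by
  rintro ⟨P, hP, e⟩
  obtain ⟨d, P₀, -, h2, h3, -⟩ := h.poly x hP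
  rw [e, mul_zero] at h3
  exact hx ⟨P₀, h2, h.fn _ h3⟩

lemma frac {x : L} (hx : Transcendental k x) (g : 𝕜⟮j x⟯) : ∃ (d : 𝕜) (u : F) (y : k⟮x⟯),
    y ≠ 0 ∧ (u, (y : L)) ∈ Γ ∧ (g : F) = algebraMap 𝕜 F d * u := by
  by_cases hg : g = 0
  · exact ⟨0, 1, 1, one_ne_zero, Γ.one_mem, by simp [hg]⟩
  obtain ⟨P, Q, hQ, e⟩ := exists_div_of_mem g.2
  have hP : P ≠ 0 := by
    rintro rfl
    exact hg (by simpa using e)
  obtain ⟨d, P₀, a1, a2, a3, -⟩ := h.poly x hP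
  obtain ⟨d', Q₀, b1, b2, b3, -⟩ := h.poly x hQ
  have m : ∀ R : k[X], aeval x R ∈ k⟮x⟯ := fun R =>
    algebra_adjoin_le_adjoin k {x} (aeval_mem_adjoin_singleton k x)
  refine ⟨d' / d, _, ⟨aeval x P₀ / aeval x Q₀, div_mem (m _) (m _)⟩, fun e0 => ?_,
    h.div a3 b3 (aeval_ne_zero hx b2), ?_⟩
  · exact div_ne_zero (aeval_ne_zero hx a2) (aeval_ne_zero hx b2) (congrArg Subtype.val e0)
  · have c1 : algebraMap 𝕜 F d ≠ 0 := by simpa using a1
    have c2 : algebraMap 𝕜 F d' ≠ 0 := by simpa using b1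
    have c3 := aeval_ne_zero (h.trans hx) hQ
    rw [e, map_div₀]
    field_simp

lemma indep {x : L} (hx : Transcendental k x) {ι : Type} [Fintype ι] {b : ι → L}
    (hb : LinearIndependent k⟮x⟯ b) : LinearIndependent 𝕜⟮j x⟯ fun i => j (b i) := by
  rw [Fintype.linearIndependent_iff] at hb ⊢
  intro g hg
  choose d u y h1 h2 h3 using fun i => h.frac hx (g i)
  by_contra hne
  obtain ⟨i₁, hi₁⟩ := not_forall.1 hne
  obtain ⟨d₀, r, a1, ⟨i₀, -, a2⟩, a3⟩ := h.scale Finset.univ d ⟨i₁, Finset.mem_univ _, fun e =>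
    hi₁ (Subtype.ext (by rw [h3, e, map_zero, zero_mul]; rfl))⟩
  have h4 := gsum Finset.univ fun i hi => gmul (gmul (a3 i hi) (h2 i)) (h.emb (b i))
  have h5 : ∑ i, algebraMap 𝕜 F (d i / d₀) * u i * j (b i) = 0 := by
    rw [← mul_zero (algebraMap 𝕜 F d₀⁻¹), ← hg, Finset.mul_sum]
    refine Finset.sum_congr rfl fun i _ => ?_
    rw [IntermediateField.smul_def, smul_eq_mul, h3, div_eq_mul_inv, map_mul]
    ring
  rw [h5] at h4
  have h6 := hb (fun i => algebraMap k k⟮x⟯ (r i) * y i) (by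
    rw [← h.fn _ h4]
    exact Finset.sum_congr rfl fun i _ => rfl) i₀
  exact mul_ne_zero (by simpa using a2) (h1 i₀) h6

omit [IsAlgClosed 𝕜] in
lemma span_red {a : F} (ha : a ∈ Submodule.span 𝕜 (Set.range j)) (h0 : a ≠ 0) :
    ∃ (d : 𝕜) (s : Finset L) (e : L → 𝕜) (r : L → k), d ≠ 0 ∧ ∑ y ∈ s, r y • y ≠ 0 ∧
      (∀ y ∈ s, (algebraMap 𝕜 F (e y), algebraMap k L (r y)) ∈ Γ) ∧
      a = d • ∑ y ∈ s, e y • j y := by
  classical
  obtain ⟨B, -, hB, hB'⟩ := exists_linearIndependent k (Set.univ : Set L)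
  have h1 : a ∈ Submodule.span 𝕜 (j '' B) := by
    refine Submodule.span_le.2 ?_ ha
    rintro _ ⟨y, rfl⟩
    have h4 : y ∈ Submodule.span k B := by rw [hB, Submodule.span_univ]; trivial
    induction h4 using Submodule.span_induction with
    | mem y hy => exact Submodule.subset_span ⟨y, hy, rfl⟩
    | zero => rw [map_zero]; exact zero_mem _
    | add a b _ _ ha hb => rw [map_add]; exact add_mem ha hb
    | smul c a _ ha =>
      rw [map_smul, ← algebraMap_smul 𝕜]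
      exact Submodule.smul_mem _ _ ha
  obtain ⟨s, hs, c, hc⟩ := (Submodule.mem_span_image_iff_exists_fun 𝕜).1 h1
  let c' : L → 𝕜 := fun y => if hy : y ∈ s then c ⟨y, hy⟩ else 0
  have h2 : a = ∑ y ∈ s, c' y • j y := by
    rw [← hc, ← Finset.sum_coe_sort s]
    exact Finset.sum_congr rfl fun y _ => by simp [c']
  obtain ⟨d₀, r, a1, ⟨y₀, a4, a2⟩, a3⟩ := h.scale s c' (by
    by_contra hne
    push Not at hne
    exact h0 (h2.trans (Finset.sum_eq_zero fun y hy => by rw [hne y hy, zero_smul])))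
  refine ⟨d₀, s, fun y => c' y / d₀, r, a1, fun e => a2 ?_, a3, ?_⟩
  · exact (linearIndepOn_iff'.1 (show LinearIndepOn k id B from hB')) s r hs e y₀ a4
  · rw [h2, Finset.smul_sum]
    exact Finset.sum_congr rfl fun y _ => by rw [smul_smul, mul_div_cancel₀ _ a1]

lemma norm_red (hgen : adjoin 𝕜 (Set.range j) = ⊤) {x : L} (hx : SepCoord k x) (s : Finset L)
    {e : L → 𝕜} {r : L → k} (he : ∀ y ∈ s, (algebraMap 𝕜 F (e y), algebraMap k L (r y)) ∈ Γ) :
    (((Algebra.norm 𝕜⟮j x⟯ (∑ y ∈ s, e y • j y) : 𝕜⟮j x⟯) : F),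
      ((Algebra.norm k⟮x⟯ (∑ y ∈ s, r y • y) : k⟮x⟯) : L)) ∈ Γ := by
  classical
  have := hx.fin
  let b := Module.finBasis k⟮x⟯ L
  let b' : Module.Basis _ 𝕜⟮j x⟯ F :=
    Module.Basis.mk (h.indep hx.trans b.linearIndependent) (span_top j hgen hx b)
  have hb' : ∀ i, b' i = j (b i) := fun i => Module.Basis.mk_apply _ _ i
  have h1 : ∀ y i, b'.repr (j y) i = jr 𝕜 j x (b.repr y i) := fun y => by
    have h2 : j y = ∑ i, jr 𝕜 j x (b.repr y i) • b' i := by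
      conv_lhs => rw [← b.sum_repr y, map_sum]
      exact Finset.sum_congr rfl fun i _ => by rw [hb', jr_smul]
    intro i
    rw [h2, b'.repr_sum_self]
  rw [Algebra.norm_eq_matrix_det b', Algebra.norm_eq_matrix_det b]
  change ((algebraMap 𝕜⟮j x⟯ F) _, (algebraMap k⟮x⟯ L) _) ∈ Γ
  rw [RingHom.map_det, RingHom.map_det]
  refine gdet (F := F) (L := L) fun i l => ?_
  simp only [RingHom.mapMatrix_apply, Matrix.map_apply, Algebra.leftMulMatrix_eq_repr_mul]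
  simp only [Finset.sum_mul, map_sum, Finsupp.finsetSum_apply]
  refine gsum (F := F) (L := L) s fun y hy => ?_
  rw [smul_mul_assoc, smul_mul_assoc, hb', ← map_mul j, ← algebraMap_smul 𝕜⟮j x⟯ (e y),
    ← algebraMap_smul k⟮x⟯ (r y), map_smul, map_smul, Finsupp.smul_apply, Finsupp.smul_apply, h1,
    smul_eq_mul, smul_eq_mul, map_mul (algebraMap 𝕜⟮j x⟯ F), map_mul (algebraMap k⟮x⟯ L)]
  exact gmul (he y hy) (h.emb _)

end Red

end PicB

end Pool.Agent.Lib.IW
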