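import Pool.Agent.Lib.IW.PicB2

/-! Specialisation of divisors and existence of reduction maps. -/

open Polynomial IntermediateField

namespace Pool.Agent.Lib.IW

open Pool.Agent.Lib.MP_e06174_ag Pool.Agent.Lib.MP_ba4752_ag Place

namespace PicB

variable {k 𝕜 L F : Type} [Field k] [Field 𝕜] [Field L] [Field F] [Algebra k 𝕜] [Algebra k L]
  [Algebra k F] [Algebra 𝕜 F] [IsScalarTower k 𝕜 F]

lemma card_filter_roots (m : 𝕜 → Prop) [DecidablePred m] (P : 𝕜[X]) (Z : Finset 𝕜)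
    (h1 : ∀ a ∈ Z, m a) (h2 : ∀ a ∈ P.roots, m a → a ∈ Z) :
    (P.roots.filter m).card = ∑ a ∈ Z, P.rootMultiplicity a := by
  classical
  rw [← Multiset.sum_count_eq_card (s := Z) fun a ha =>
    h2 a (Multiset.mem_filter.1 ha).1 (Multiset.mem_filter.1 ha).2]
  exact Finset.sum_congr rfl fun a ha => by
    rw [Multiset.count_filter_of_pos (h1 a ha), count_roots]

lemma norm_div {K : Type} [Field K] [Algebra K L] [FiniteDimensional K L] (a b : L) :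
    Algebra.norm K (a / b) = Algebra.norm K a / Algebra.norm K b := by
  rw [div_eq_mul_inv, map_mul, Algebra.norm_inv, div_eq_mul_inv]

variable {j : L →ₐ[k] F} {O : ValuationSubring 𝕜} {Γ : Subring (F × L)}

open Classical in
theorem core [IsAlgClosed k] [IsAlgClosed 𝕜] (hN : StmtNorm) (h : Red j O Γ)
    (hgen : adjoin 𝕜 (Set.range j) = ⊤) {x : L} (hx : SepCoord k x) {n : ℕ} {f : F} (hf : f ≠ 0)
    {R₀ R₁ : Place 𝕜 F} {P₀ P₂ : Place k L}
    (hdiv : ∀ R : Place 𝕜 F,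
      (n : ℤ) ∣ R.ord f - (if R = R₀ then 1 else 0) + (if R = R₁ then 1 else 0))
    (h₀ : ∀ y, P₀.Ge 1 y → R₀.Ge 1 (j y))
    (h₁ : ∀ y c₀, P₂.At y c₀ → ∃ c, R₁.At (j y) c ∧ (algebraMap 𝕜 F c, algebraMap k L c₀) ∈ Γ) :
    ∃ f₀ : L, f₀ ≠ 0 ∧ ∀ S : Place k L,
      (n : ℤ) ∣ S.ord f₀ - (if S = P₀ then 1 else 0) + (if S = P₂ then 1 else 0) := by
  obtain ⟨a, ha, b, hb, rfl⟩ := div_of_gen j hgen f
  obtain ⟨ha0, hb0⟩ := div_ne_zero_iff.1 hf
  obtain ⟨da, sa, ea, ra, a1, a2, a3, rfl⟩ := h.span_red ha ha0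
  obtain ⟨db, sb, eb, rb, b1, b2, b3, rfl⟩ := h.span_red hb hb0
  have a4 := right_ne_zero_of_smul ha0
  have b4 := right_ne_zero_of_smul hb0
  have na := fun (x' : L) (hx' : SepCoord k x') => h.norm_red hgen hx' sa a3
  have nb := fun (x' : L) (hx' : SepCoord k x') => h.norm_red hgen hx' sb b3
  generalize ∑ y ∈ sa, ea y • j y = ga at *
  generalize ∑ y ∈ sb, eb y • j y = gb at *
  generalize ∑ y ∈ sa, ra y • y = ya at *
  generalize ∑ y ∈ sb, rb y • y = yb at *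
  have hf₀ := div_ne_zero a2 b2
  have hf' := div_ne_zero a4 b4
  have ho : ∀ R : Place 𝕜 F, R.ord (da • ga / db • gb) = R.ord (ga / gb) := fun R => by
    rw [R.ord_div ha0 hb0, R.ord_div a4 b4, R.ord_smul a1, R.ord_smul b1]
  simp only [ho] at hdiv
  refine ⟨ya / yb, hf₀, fun S => ?_⟩
  obtain ⟨x', c0, c1⟩ := Norm.exists_ords ((finite_supp hx (ya / yb)).toFinset ∪ {S, P₀, P₂})
    fun w => if w = S then 1 else 0
  have hS : S.ord x' = 1 := by rw [c1 S (by simp), if_pos rfl]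
  have hx' : SepCoord k x' := hN.sepx k L x x' hx S hS
  have hz : SepCoord 𝕜 (j x') := sepCoord_map j hgen hx' (h.trans hx'.trans)
  have := hx'.fin
  have := hz.fin
  have n1 : ((Algebra.norm k⟮x'⟯ yb : k⟮x'⟯) : L) ≠ 0 := by
    exact fun e => (Algebra.norm_ne_zero_iff (R := k⟮x'⟯)).2 b2 (Subtype.ext e)
  have n2 : ((Algebra.norm k⟮x'⟯ (ya / yb) : k⟮x'⟯) : L) ≠ 0 := by
    exact fun e => (Algebra.norm_ne_zero_iff (R := k⟮x'⟯)).2 hf₀ (Subtype.ext e)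
  have n3 : (((Algebra.norm 𝕜⟮j x'⟯ (ga / gb) : 𝕜⟮j x'⟯) : F),
      ((Algebra.norm k⟮x'⟯ (ya / yb) : k⟮x'⟯) : L)) ∈ Γ := by
    rw [norm_div, norm_div]
    exact h.div (na x' hx') (nb x' hx') n1
  obtain ⟨P, Q, hQ, e⟩ := exists_div_of_mem (Algebra.norm 𝕜⟮j x'⟯ (ga / gb)).2
  have hP : P ≠ 0 := by
    rintro rfl
    exact h.ne n3 n2 (by simpa using e)
  obtain ⟨d, A, d1, d2, d3, d4⟩ := h.poly x' hP
  obtain ⟨d', B, e1, e2, e3, e4⟩ := h.poly x' hQ
  have n4 := h.div d3 e3 (aeval_ne_zero hx'.trans e2)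
  obtain ⟨r, hr⟩ := h.const_unit (d := d' / d) (y := (Algebra.norm k⟮x'⟯ (ya / yb) : k⟮x'⟯)) (by
    have c1 : algebraMap 𝕜 F d ≠ 0 := by simpa using d1
    have c2 : algebraMap 𝕜 F d' ≠ 0 := by simpa using e1
    have c3 := aeval_ne_zero hz.trans hQ
    have c4 : algebraMap 𝕜 F (d' / d) * (algebraMap 𝕜 F d * aeval (j x') P /
        (algebraMap 𝕜 F d' * aeval (j x') Q)) = aeval (j x') P / aeval (j x') Q := by
      rw [map_div₀]
      field_simp
    rw [c4, ← e]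
    exact n3) n4 (div_ne_zero (aeval_ne_zero hx'.trans d2) (aeval_ne_zero hx'.trans e2))
  have hr0 : r ≠ 0 := by
    rintro rfl
    exact n2 (by simpa using hr)
  have k1 : ∀ w ∈ (finite_supp hx (ya / yb)).toFinset ∪ {S, P₀, P₂}, w.At x' 0 ↔ w = S := by
    intro w hw
    rw [At, map_zero, sub_zero, ge_iff c0, c1 w hw]
    split_ifs with h1 <;> simp [h1]
  have f1 := norm_formula hN hx' hf₀ 0 (P := C r * A) (mul_ne_zero (C_ne_zero.2 hr0) d2) e2
    (by rw [hr, map_mul, aeval_C, mul_div_assoc]) {S}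
    (fun w hw => by rw [Finset.mem_singleton.1 hw]; exact (k1 S (by simp)).2 rfl)
    (fun w hw hw' => by
      by_contra h1
      exact hw' (Finset.mem_singleton.2 ((k1 w (Finset.mem_union_left _
        ((Set.Finite.mem_toFinset _).2 h1))).1 hw)))
  rw [Finset.sum_singleton, rootMultiplicity_mul (mul_ne_zero (C_ne_zero.2 hr0) d2),
    rootMultiplicity_C, zero_add] at f1
  have g0 : ∀ w ∈ (finite_supp hx (ya / yb)).toFinset ∪ {S, P₀, P₂}, w.At x' (w.cen x') := by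
    intro w hw
    refine hx.toIsCoord.at_cen (ge_of_le ?_)
    rw [c1 w hw]
    split_ifs <;> norm_num
  have g1 := g0 P₀ (by simp)
  have g2 := g0 P₂ (by simp)
  obtain ⟨a₁, g3, g4⟩ := h₁ x' _ g2
  have g5 : R₀.At (j x') (algebraMap k 𝕜 (P₀.cen x')) := by
    have := h₀ _ g1
    rwa [map_sub, j.commutes, IsScalarTower.algebraMap_apply k 𝕜 F] at this
  have g6 : (algebraMap 𝕜 F (algebraMap k 𝕜 (P₀.cen x')), algebraMap k L (P₀.cen x')) ∈ Γ := by
    have := h.emb (algebraMap k L (P₀.cen x'))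
    rwa [j.commutes, IsScalarTower.algebraMap_apply k 𝕜 F] at this
  generalize algebraMap k 𝕜 (P₀.cen x') = a₀ at g5 g6
  have g7 : ∀ (a : 𝕜) (w : Place k L), w ∈ (finite_supp hx (ya / yb)).toFinset ∪ {S, P₀, P₂} →
      (algebraMap 𝕜 F a, algebraMap k L (w.cen x')) ∈ Γ →
      ((algebraMap 𝕜 F a, (0 : L)) ∈ Γ ↔ S = w) := by
    intro a w hw h1
    rw [eq_comm, ← k1 w hw]
    constructor
    · intro h2
      have h3 : w.cen x' = 0 := by simpa using h.uniq h1 h2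
      exact h3 ▸ g0 w hw
    · intro h2
      rwa [h2.cen_eq, map_zero] at h1
  have f2 : ∀ a : 𝕜, (n : ℤ) ∣ (P.rootMultiplicity a : ℤ) - Q.rootMultiplicity a -
      (if a = a₀ then 1 else 0) + (if a = a₁ then 1 else 0) := by
    intro a
    rw [norm_formula hN hz hf' a hP hQ e (finite_at hz a).toFinset
      (fun w hw => (finite_at hz a).mem_toFinset.1 hw)
      (fun w hw hw' => absurd ((finite_at hz a).mem_toFinset.2 hw) hw')]
    have h1 := Finset.dvd_sum (s := (finite_at hz a).toFinset) fun R _ => hdiv R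
    rw [Finset.sum_add_distrib, Finset.sum_sub_distrib, Finset.sum_ite_eq', Finset.sum_ite_eq']
      at h1
    have h2 : ∀ (R : Place 𝕜 F) (c : 𝕜), R.At (j x') c →
        (R ∈ (finite_at hz a).toFinset ↔ a = c) := fun R c hc => by
      rw [Set.Finite.mem_toFinset]
      exact ⟨fun h3 => At.unique h3 hc, fun h3 => h3 ▸ hc⟩
    simpa only [h2 _ _ g5, h2 _ _ g3] using h1
  let Z := (P.roots.toFinset ∪ Q.roots.toFinset ∪ {a₀, a₁}).filter
    fun a => (algebraMap 𝕜 F a, (0 : L)) ∈ Γ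
  have z1 : ∀ a ∈ Z, (algebraMap 𝕜 F a, (0 : L)) ∈ Γ := fun a ha => (Finset.mem_filter.1 ha).2
  rw [card_filter_roots _ P Z z1 fun a ha h1 => Finset.mem_filter.2 ⟨Finset.mem_union_left _
    (Finset.mem_union_left _ (Multiset.mem_toFinset.2 ha)), h1⟩] at d4
  rw [card_filter_roots _ Q Z z1 fun a ha h1 => Finset.mem_filter.2 ⟨Finset.mem_union_left _
    (Finset.mem_union_right _ (Multiset.mem_toFinset.2 ha)), h1⟩] at e4
  have f3 := Finset.dvd_sum (s := Z) fun a _ => f2 a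
  rw [Finset.sum_add_distrib, Finset.sum_sub_distrib, Finset.sum_sub_distrib, Finset.sum_ite_eq',
    Finset.sum_ite_eq', ← Nat.cast_sum, ← Nat.cast_sum, ← d4, ← e4, f1] at f3
  have z2 : a₀ ∈ Z ↔ S = P₀ := by
    rw [← g7 a₀ P₀ (by simp) g6, Finset.mem_filter]
    simp
  have z3 : a₁ ∈ Z ↔ S = P₂ := by
    rw [← g7 a₁ P₂ (by simp) g4, Finset.mem_filter]
    simp
  simpa only [z2, z3] using f3

lemma chev2 (hC : StmtChev) {A Ω E : Type} [CommRing A] [Field Ω] [Field E] [IsAlgClosed E]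
    (f : A →+* Ω) (hf : Function.Injective f) (g : A →+* E) :
    ∃ (V : ValuationSubring Ω) (ψ : V →+* E), (∀ a, ∃ h : f a ∈ V, ψ ⟨f a, h⟩ = g a) ∧
      ∀ a : V, ψ a ≠ 0 → (a : Ω)⁻¹ ∈ V := by
  let e : A ≃+* f.range := RingEquiv.ofBijective f.rangeRestrict
    ⟨fun a b h => hf (congrArg Subtype.val h), f.rangeRestrict_surjective⟩
  obtain ⟨V, ψ, h1, h2, h3, h4, h5⟩ := hC Ω E f.range (g.comp e.symm.toRingHom)
  have h6 : ∀ a, ψ (f a) = g a := fun a => (h2 (e a)).trans (by simp)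
  exact ⟨V, ⟨⟨⟨fun a => ψ a, by simpa using h6 1⟩, fun a b => h4 a a.2 b b.2⟩,
    by simpa using h6 0, fun a b => h3 a a.2 b b.2⟩, fun a => ⟨h1 _ ⟨a, rfl⟩, h6 a⟩,
    fun a => h5 a a.2⟩

theorem exists_red (hC : StmtChev) {x : L} (hx : IsCoord k x) (ht : Transcendental 𝕜 (j x))
    (ρ : O →+* k) (hρ : ∀ c : O, ρ c ≠ 0 → (c : 𝕜)⁻¹ ∈ O)
    (hk : ∀ c : k, ∃ h : algebraMap k 𝕜 c ∈ O, ρ ⟨_, h⟩ = c) :
    ∃ Γ : Subring (F × L), Red j O Γ ∧
      ∀ c : O, (algebraMap 𝕜 F c, algebraMap k L (ρ c)) ∈ Γ := by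
  let E := AlgebraicClosure L
  let f : O[X] →+* F := eval₂RingHom ((algebraMap 𝕜 F).comp O.subtype) (j x)
  have hf : Function.Injective f := by
    rw [injective_iff_map_eq_zero]
    intro P hP
    by_contra h0
    refine ht ⟨P.map O.subtype, (Polynomial.map_ne_zero_iff O.subtype_injective).2 h0, ?_⟩
    rw [aeval_def, eval₂_map]
    exact hP
  obtain ⟨V, ψ, h1, h2⟩ := chev2 hC f hf
    (eval₂RingHom ((algebraMap k E).comp ρ) (algebraMap L E x))
  choose s hs using hk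
  let σ : k →+* O := (algebraMap k 𝕜).codRestrict O s
  have h3 : ∀ P : k[X], ∃ h : j (aeval x P) ∈ V, ψ ⟨_, h⟩ = algebraMap L E (aeval x P) := by
    intro P
    have e1 : f (P.map σ) = j (aeval x P) := by
      rw [← aeval_algHom_apply, aeval_def, coe_eval₂RingHom, eval₂_map]
      congr 1
      ext c
      exact (IsScalarTower.algebraMap_apply k 𝕜 F c).symm
    obtain ⟨h4, h5⟩ := h1 (P.map σ)
    refine ⟨e1 ▸ h4, ?_⟩
    refine Eq.trans (congrArg ψ (Subtype.ext e1.symm)) (h5.trans ?_)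
    rw [← aeval_algebraMap_apply, aeval_def, coe_eval₂RingHom, eval₂_map]
    congr 1
    ext c
    exact congrArg (algebraMap k E) (hs c)
  have h4 : ∀ y ∈ k⟮x⟯, j y ∈ V := by
    intro y hy
    obtain ⟨P, Q, hQ, rfl⟩ := exists_div_of_mem hy
    obtain ⟨a1, -⟩ := h3 P
    obtain ⟨a2, a3⟩ := h3 Q
    rw [map_div₀, div_eq_mul_inv]
    exact mul_mem a1 (h2 ⟨_, a2⟩ (by rw [a3]; simpa using aeval_ne_zero hx.trans hQ))
  have h5 : ∀ y, j y ∈ V := by
    intro y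
    have a1 : IsIntegral V (j.toRingHom y) := (hx.isAlgebraic y).isIntegral.map_of_comp_eq
      ((j.toRingHom.comp (algebraMap k⟮x⟯ L)).codRestrict V fun z => h4 z z.2) j.toRingHom rfl
    rw [← V.valuation_le_one_iff]
    exact (Valuation.valuationSubring.integers V.valuation).mem_of_integral
      (by rwa [V.valuationSubring_valuation])
  let e : L →+* E := ψ.comp (j.toRingHom.codRestrict V h5)
  let Γ : Subring (F × L) := ((RingHom.eqLocus (ψ.comp (RingHom.fst V L))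
    (e.comp (RingHom.snd V L))).map (RingHom.prodMap V.subtype (RingHom.id L)))
  have hΓ : ∀ a y, (a, y) ∈ Γ ↔ ∃ h : a ∈ V, ψ ⟨a, h⟩ = e y := fun a y =>
    ⟨by
      rintro ⟨⟨a', y'⟩, h6, h7⟩
      obtain ⟨rfl, rfl⟩ := Prod.ext_iff.1 h7
      exact ⟨a'.2, h6⟩, fun ⟨h6, h7⟩ => ⟨(⟨a, h6⟩, y), h7, rfl⟩⟩
  have h6 : ∀ c : O, (algebraMap 𝕜 F c, algebraMap k L (ρ c)) ∈ Γ := by
    intro c
    obtain ⟨a1, a2⟩ := h1 (C c)
    obtain ⟨a3, a4⟩ := h3 (C (ρ c))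
    have e1 : f (C c) = algebraMap 𝕜 F c := eval₂_C _ _
    refine (hΓ _ _).2 ⟨e1 ▸ a1, ?_⟩
    simp only [← e1]
    rw [a2, coe_eval₂RingHom, eval₂_C]
    simp only [aeval_C] at a4
    exact a4.symm
  refine ⟨Γ, ⟨fun y hy => ?_, fun a y hy h0 => ?_, fun y => (hΓ _ _).2 ⟨h5 y, rfl⟩,
    fun c hc => ⟨_, h6 ⟨c, hc⟩⟩, fun c hc => ?_⟩, h6⟩
  · obtain ⟨a1, a2⟩ := (hΓ _ _).1 hy
    exact (map_eq_zero e).1 (a2.symm.trans ψ.map_zero)
  · obtain ⟨a1, a2⟩ := (hΓ _ _).1 hy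
    have a3 : ψ ⟨a, a1⟩ ≠ 0 := by rw [a2]; simpa using h0
    have a4 : a ≠ 0 := by
      rintro rfl
      exact a3 ψ.map_zero
    refine (hΓ _ _).2 ⟨h2 _ a3, ?_⟩
    rw [map_inv₀, ← a2]
    refine eq_inv_of_mul_eq_one_left ?_
    rw [← map_mul, ← ψ.map_one]
    exact congrArg ψ (Subtype.ext (inv_mul_cancel₀ a4))
  · have a1 : c⁻¹ ∈ O := (O.mem_or_inv_mem c).resolve_left hc
    have a2 : ρ ⟨c⁻¹, a1⟩ = 0 := by
      by_contra a3
      exact hc (by simpa using hρ _ a3)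
    have a3 := h6 ⟨c⁻¹, a1⟩
    rwa [a2, map_zero] at a3

end PicB

end Pool.Agent.Lib.IW
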