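import Pool.Agent.Lib.IW.Util

/-! Descent of realisations to the small constant field. -/

open Polynomial IntermediateField
open scoped Pointwise

namespace Pool.Agent.Lib.IW

namespace TP

section Ev

variable {k 𝕜 Ω Ω' : Type} [Field k] [Field 𝕜] [Field Ω] [Field Ω']
  [Algebra k Ω] [Algebra k Ω'] [Algebra 𝕜 Ω'] {σ : Ω'} {x : Ω}

lemma ev_and {P Q : ValuationSubring Ω' → (Ω' → Ω) → Prop} (h : Ev k 𝕜 σ x P)
    (h' : Ev k 𝕜 σ x Q) : Ev k 𝕜 σ x fun O ψ => P O ψ ∧ Q O ψ := by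
  classical
  obtain ⟨T, hT, h⟩ := h
  obtain ⟨T', hT', h'⟩ := h'
  refine ⟨T ∪ T', fun c hc => ?_, fun O ψ hA hc => ⟨h O ψ hA fun c h1 => hc c ?_,
    h' O ψ hA fun c h1 => hc c ?_⟩⟩
  · rcases Finset.mem_union.1 hc with h1 | h1
    · exact hT c h1
    · exact hT' c h1
  · exact Finset.mem_union_left _ h1
  · exact Finset.mem_union_right _ h1

lemma ev_all {ι : Type} [Finite ι] {P : ι → ValuationSubring Ω' → (Ω' → Ω) → Prop}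
    (h : ∀ i, Ev k 𝕜 σ x (P i)) : Ev k 𝕜 σ x fun O ψ => ∀ i, P i O ψ := by
  classical
  have := Fintype.ofFinite ι
  choose T hT h using h
  refine ⟨Finset.univ.biUnion T, fun c hc => ?_, fun O ψ hA hc i => h i O ψ hA fun c h1 =>
    hc c (Finset.mem_biUnion.2 ⟨i, Finset.mem_univ _, h1⟩)⟩
  obtain ⟨i, -, hi⟩ := Finset.mem_biUnion.1 hc
  exact hT i c hi

variable {O : ValuationSubring Ω'} {ψ : Ω' → Ω}

/-- The specialisation as a ring homomorphism. -/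
def hom (h : Adm k 𝕜 σ x O ψ) : O →+* Ω where
  toFun a := ψ a
  map_one' := by simpa using h.mapk 1
  map_zero' := by simpa using h.mapk 0
  map_mul' a b := h.mul a a.2 b b.2
  map_add' a b := h.add a a.2 b b.2

lemma psi_one (h : Adm k 𝕜 σ x O ψ) : ψ 1 = 1 := (hom h).map_one

lemma psi_sub (h : Adm k 𝕜 σ x O ψ) {a b : Ω'} (ha : a ∈ O) (hb : b ∈ O) :
    ψ (a - b) = ψ a - ψ b := map_sub (hom h) ⟨a, ha⟩ ⟨b, hb⟩

lemma psi_pow (h : Adm k 𝕜 σ x O ψ) {a : Ω'} (ha : a ∈ O) (n : ℕ) : ψ (a ^ n) = ψ a ^ n :=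
  map_pow (hom h) ⟨a, ha⟩ n

lemma psi_sum (h : Adm k 𝕜 σ x O ψ) {ι : Type} [Fintype ι] {a : ι → Ω'} (ha : ∀ i, a i ∈ O) :
    ψ (∑ i, a i) = ∑ i, ψ (a i) := by
  have := map_sum (hom h) (fun i => ⟨a i, ha i⟩) Finset.univ
  rw [show ∑ i, a i = ((∑ i, ⟨a i, ha i⟩ : O) : Ω') from
    (map_sum O.subtype (fun i => ⟨a i, ha i⟩) Finset.univ).symm]
  exact this

lemma psi_prod (h : Adm k 𝕜 σ x O ψ) {ι : Type} [Fintype ι] {a : ι → Ω'} (ha : ∀ i, a i ∈ O) :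
    ψ (∏ i, a i) = ∏ i, ψ (a i) := by
  have := map_prod (hom h) (fun i => ⟨a i, ha i⟩) Finset.univ
  rw [show ∏ i, a i = ((∏ i, ⟨a i, ha i⟩ : O) : Ω') from
    (map_prod O.subtype (fun i => ⟨a i, ha i⟩) Finset.univ).symm]
  exact this

end Ev

section One

variable {k Ω : Type} [Field k] [Field Ω] [Algebra k Ω] {x : Ω}

lemma sep_map {γ : Aut k Ω} (hγ : γ ∈ Gam k x) {y : Ω} (hy : IsSeparable k⟮x⟯ y) :
    IsSeparable k⟮x⟯ (γ y) := by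
  rw [← fix_adjoin] at hγ
  let e : Ω ≃ₐ[k⟮x⟯] Ω := IntermediateField.fixingSubgroupEquiv k⟮x⟯ ⟨γ, hγ⟩
  exact (AlgEquiv.isSeparable_iff e).2 hy

lemma inf_map (hB : StmtBas) {γ : Aut k Ω} (hγ : γ ∈ Gam k x) {y : Ω} (hy : IntgInf k x y) :
    IntgInf k x (γ y) := by
  intro W hW hx
  obtain ⟨h1, h2, -⟩ := hB.smulPl k Ω W hW γ⁻¹
  have h3 := h2 x
  rw [mem_Gam.1 (inv_mem hγ)] at h3
  have h4 := h2 (γ y)
  rw [← AlgEquiv.mul_apply, inv_mul_cancel, AlgEquiv.one_apply] at h4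
  exact h4.1 (hy _ h1 fun h => hx (h3.1 h))

lemma val_mul_lt {W : ValuationSubring Ω} {a b : Ω} (ha : a ∈ W) (hb : W.valuation b < 1) :
    W.valuation (a * b) < 1 := by
  rw [map_mul]
  exact lt_of_le_of_lt (mul_le_of_le_one_left' ((W.valuation_le_one_iff a).2 ha)) hb

variable {G : Type} [Group G] {ρ : Aut k Ω → G}

lemma eq_of_rep (h : IsRep (Gam k x) ρ) {θ : Ω} (hθ : ∀ δ ∈ Gam k x, ρ δ = 1 → δ θ = θ)
    {γ δ : Aut k Ω} (hγ : γ ∈ Gam k x) (hδ : δ ∈ Gam k x) (e : ρ γ = ρ δ) : γ θ = δ θ := by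
  have := hθ (δ⁻¹ * γ) (mul_mem (inv_mem hδ) hγ) (by
    rw [h.mul _ (inv_mem hδ) _ hγ, h.inv hδ, e, inv_mul_cancel])
  have e2 := congrArg δ this
  rwa [← AlgEquiv.mul_apply, mul_inv_cancel_left] at e2

lemma norm_inf [IsAlgClosed Ω] [Fintype G] (hF : Found) (hx : Co k x) (h : IsRep (Gam k x) ρ)
    {δ : G → Aut k Ω} (hδ : ∀ g, δ g ∈ Gam k x) (hδ' : ∀ g, ρ (δ g) = g) {θ : Ω}
    (h1 : IsSeparable k⟮x⟯ θ) (h2 : ∀ δ ∈ Gam k x, ρ δ = 1 → δ θ = θ) (h3 : IntgInf k x θ)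
    {W : ValuationSubring Ω} (hW : IsPl k W) (hxW : x ∉ W) (h4 : W.valuation θ < 1) :
    IntgInf k x (x * ∏ g, δ g θ) := by
  classical
  have hN : ∏ g, δ g θ ∈ k⟮x⟯ := by
    refine hF.gal.sep k Ω k⟮x⟯ hx.alg _ ?_ fun γ hγ => ?_
    · exact mem_separableClosure_iff.1 (prod_mem fun g _ =>
        mem_separableClosure_iff.2 (sep_map (hδ g) h1))
    · rw [fix_adjoin] at hγ
      rw [map_prod]
      refine Fintype.prod_equiv (Equiv.mulLeft (ρ γ)) _ _ fun g => ?_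
      exact eq_of_rep h h2 (mul_mem hγ (hδ g)) (hδ _) (by
        rw [h.mul _ hγ _ (hδ g), hδ', hδ']; rfl)
  have hlt : W.valuation (∏ g, δ g θ) < 1 := by
    rw [← Finset.prod_erase_mul _ _ (Finset.mem_univ (1 : G)), h2 _ (hδ 1) (hδ' 1)]
    exact val_mul_lt (prod_mem fun g _ => inf_map hF.bas (hδ g) h3 W hW hxW) h4
  have hle := (hF.bas.unifInf k Ω x hx.tr W hW hxW).2.2.2 _ hN hlt
  have hmem : x * ∏ g, δ g θ ∈ W := by
    rw [← W.valuation_le_one_iff, map_mul]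
    refine le_trans (mul_le_mul_right hle _) ?_
    rw [← map_mul, mul_inv_cancel₀ hx.ne_zero, map_one]
  intro W' hW' hxW'
  exact (hF.bas.agrInf k Ω x hx.tr W W' hW hW' hxW hxW' _
    (mul_mem (mem_adjoin_simple_self k x) hN)).1 hmem

/-- The conclusion from the specialised certificates. -/
lemma real_of (p : ℕ) [Fact p.Prime] [CharP k p] [IsAlgClosed k] [IsAlgClosed Ω] [Fintype G]
    (hF : Found) (hx : Co k x) (h : IsRep (Gam k x) ρ) (hs : ∀ g, ∃ γ ∈ Gam k x, ρ γ = g)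
    (I : Subgroup G)
    (hU : ∀ γ ∈ Gam k x, ρ γ ≠ 1 → ∃ (n : ℕ) (a s : Fin n → Ω), (∀ i, Intg k x (a i)) ∧
      (∀ i, Intg k x (s i)) ∧ ∑ i, a i * (s i - γ (s i)) = 1)
    {θ : Ω} (hD : ∀ γ ∈ Gam k x, ρ γ ∉ I →
      ∃ a b : Ω, IntgInf k x a ∧ IntgInf k x b ∧ a * θ + b * γ θ = 1)
    {δ : G → Aut k Ω} (hδ : ∀ g, δ g ∈ Gam k x) (hN : IntgInf k x (x * ∏ g, δ g θ))
    {ϖ u : Ω} (h1 : IsSeparable k⟮x⟯ ϖ) (h2 : ∀ γ ∈ Gam k x, ρ γ = 1 → γ ϖ = ϖ)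
    (h3 : IntgInf k x (ϖ ^ Nat.card I * x)) (h4 : IntgInf k x u)
    (h5 : ϖ ^ Nat.card I * x * u = 1) : RealAt k x G I := by
  refine ⟨ρ, h, hs, fun W hW hxW γ hγ => ?_, ?_⟩
  · by_contra hne
    obtain ⟨n, a, s, ha, hs, e⟩ := hU γ (Dec_le _ _ hγ) hne
    have hm := (hF.bas.move k Ω x hx W hW γ (mem_Dec.1 hγ).2).1
    have : W.valuation (∑ i, a i * (s i - γ (s i))) < 1 :=
      W.valuation.map_sum_lt one_ne_zero fun i _ => val_mul_lt (ha i W hW hxW) (by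
        rw [Valuation.map_sub_swap]; exact hm _ (hs i W hW hxW))
    rw [e, map_one] at this
    exact lt_irrefl _ this
  obtain ⟨W₀, hW₀, hxW₀⟩ := hF.bas.exInf k Ω x hx
  obtain ⟨g, hg⟩ : ∃ g, W₀.valuation (δ g θ) < 1 := by
    by_contra hne
    push Not at hne
    have e1 := (W₀.valuation_le_one_iff _).2 (hN W₀ hW₀ hxW₀)
    rw [map_mul, map_prod] at e1
    have e2 : 1 ≤ ∏ g, W₀.valuation (δ g θ) := Finset.one_le_prod' fun g _ => hne g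
    exact hxW₀ ((W₀.valuation_le_one_iff _).1 (le_trans (le_mul_of_one_le_right' e2) e1))
  obtain ⟨hW, e2, e3, -⟩ := hF.bas.smulPl k Ω W₀ hW₀ (δ g)⁻¹
  set W := (δ g)⁻¹ • W₀
  have hxW : x ∉ W := fun h => hxW₀ ((e2 x).1 (by rwa [mem_Gam.1 (inv_mem (hδ g))]))
  have hθ : W.valuation θ < 1 := by
    have := (e3 _).2 hg
    rwa [← AlgEquiv.mul_apply, inv_mul_cancel, AlgEquiv.one_apply] at this
  have hrep : IsRep (DecF k⟮x⟯ W) ρ := h.mono (by rw [DecF_adjoin]; exact Dec_le _ _)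
  have hle : hrep.im ≤ I := by
    intro g hg
    obtain ⟨γ, hγ, rfl⟩ := hrep.mem_im.1 hg
    rw [DecF_adjoin] at hγ
    by_contra hne
    obtain ⟨a, b, ha, hb, e⟩ := hD γ (Dec_le _ _ hγ) hne
    have hm := (hF.bas.move k Ω x hx W hW γ (mem_Dec.1 hγ).2).2 θ hθ
    have := W.valuation.map_add_lt (val_mul_lt (ha W hW hxW) hθ) (val_mul_lt (hb W hW hxW) hm)
    rw [e, map_one] at this
    exact lt_irrefl _ this
  refine ⟨W, hW, hxW, ?_⟩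
  rw [← DecF_adjoin, ← hrep.coe_im]
  congr 1
  have hI : 0 < Nat.card I := Nat.card_pos
  have hϖ : ϖ ≠ 0 := by
    rintro rfl
    simp [hI.ne'] at h5
  have hu := hF.bas.unifInf k Ω x hx.tr W hW hxW
  obtain ⟨i, hi⟩ := hF.hens.nrm p k Ω k⟮x⟯ hx.ff W hW _ hu G ρ hrep ϖ hϖ h1 fun γ hγ =>
    h2 γ (Dec_le x W (by rwa [DecF_adjoin] at hγ))
  have hv : W.valuation (ϖ ^ Nat.card I * x) = 1 := by
    have a1 := (W.valuation_le_one_iff _).2 (h3 W hW hxW)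
    have a2 := (W.valuation_le_one_iff _).2 (h4 W hW hxW)
    have a3 := congrArg W.valuation h5
    rw [map_mul, map_one] at a3
    exact le_antisymm a1 (a3.ge.trans (mul_le_of_le_one_right' a2))
  have hv' : W.valuation ϖ ^ Nat.card I = W.valuation x⁻¹ := by
    rw [map_mul, map_pow] at hv
    rw [map_inv₀]
    exact eq_inv_of_mul_eq_one_left hv
  have hpos : 0 < W.valuation x⁻¹ := by
    rw [zero_lt_iff, Valuation.ne_zero_iff]; exact hu.2.1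
  have e4 : W.valuation x⁻¹ ^ (Nat.card hrep.im : ℤ) = W.valuation x⁻¹ ^ (i * Nat.card I) := by
    rw [zpow_mul, ← hi, zpow_natCast, zpow_natCast, ← hv', ← pow_mul, ← pow_mul, mul_comm]
  have e5 := zpow_right_injective₀ hpos hu.2.2.1.ne e4
  have e6 : Nat.card I ∣ Nat.card hrep.im := Int.natCast_dvd_natCast.1 ⟨i, by rw [e5, mul_comm]⟩
  exact Subgroup.eq_of_le_of_card_ge hle (Nat.le_of_dvd Nat.card_pos e6)

end One

end TP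

open TP in
theorem blockTP (hF : Found) (hS : StmtSpec) (hR : StmtSpecRep) : StmtTP := by
  intro p _ k 𝕜 Ω Ω' _ _ _ _ _ _ _ _ _ _ _ _ _ _ σ x hσ hx G _ _ I ⟨ρ, h, hs, hunr, W, hW, hσW, hI⟩
  classical
  have := Fintype.ofFinite G
  have : CharP 𝕜 p := charP_of_injective_algebraMap (algebraMap k 𝕜).injective p
  choose δ hδ hδ' using hs
  have hU : ∀ g : G, ∃ (n : ℕ) (a s : Fin n → Ω'), (∀ i, Intg 𝕜 σ (a i)) ∧
      (∀ i, Intg 𝕜 σ (s i) ∧ IsSeparable 𝕜⟮σ⟯ (s i) ∧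
        ∀ δ ∈ Gam 𝕜 σ, ρ δ = 1 → δ (s i) = s i) ∧
      (g ≠ 1 → ∑ i, a i * (s i - δ g (s i)) = 1) := by
    intro g
    by_cases hg : g = 1
    · exact ⟨0, Fin.elim0, Fin.elim0, fun i => i.elim0, fun i => i.elim0, fun h => absurd hg h⟩
    · obtain ⟨n, a, s, h1, h2, h3⟩ := hF.cert.unr p 𝕜 Ω' σ hσ G ρ h hunr (δ g) (hδ g)
        (by rwa [hδ'])
      exact ⟨n, a, s, h1, h2, fun _ => h3⟩
  choose n a s ha hs hsum using hU
  obtain ⟨θ, hθ1, hθ2, hθ3, hθ4, hθ5⟩ := hF.cert.dec p 𝕜 Ω' σ hσ G ρ h W hW hσW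
  have hD : ∀ g : G, ∃ b c : Ω', IntgInf 𝕜 σ b ∧ IntgInf 𝕜 σ c ∧
      (g ∉ I → b * θ + c * δ g θ = 1) := by
    intro g
    by_cases hg : g ∈ I
    · exact ⟨0, 0, fun W _ _ => zero_mem W, fun W _ _ => zero_mem W, fun h => absurd hg h⟩
    · obtain ⟨b, c, h1, h2, h3⟩ := hθ5 (δ g) (hδ g) fun γ hγ e => hg (by
        rw [← SetLike.mem_coe, ← hI]; exact ⟨γ, hγ, e.trans (hδ' g)⟩)
      exact ⟨b, c, h1, h2, fun _ => h3⟩
  choose b c hb hc hbc using hD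
  obtain ⟨ϖ, hϖ1, hϖ2, hϖ3⟩ := hF.ram p 𝕜 Ω' σ hσ G ρ h W hW hσW I hI
  have hN := norm_inf hF hσ h hδ hδ' hθ1 hθ2 hθ3 hW hσW hθ4
  have hu0 : ϖ ^ Nat.card I * σ ≠ 0 := by
    rw [← W.valuation.ne_zero_iff, hϖ3 W hW hσW]; exact one_ne_zero
  have hu1 : IntgInf 𝕜 σ (ϖ ^ Nat.card I * σ) := fun W' h1 h2 =>
    (W'.valuation_le_one_iff _).1 (hϖ3 W' h1 h2).le
  have hu2 : IntgInf 𝕜 σ (ϖ ^ Nat.card I * σ)⁻¹ := fun W' h1 h2 =>
    (W'.valuation_le_one_iff _).1 (by rw [map_inv₀, hϖ3 W' h1 h2, inv_one])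
  let S : Finset Ω' := insert θ (insert ϖ (Finset.univ.biUnion fun g => Finset.univ.image (s g)))
  have hθS : θ ∈ S := by simp [S]
  have hϖS : ϖ ∈ S := by simp [S]
  have hsS : ∀ g i, s g i ∈ S := fun g i => by
    simp only [S, Finset.mem_insert, Finset.mem_biUnion, Finset.mem_image]
    exact Or.inr (Or.inr ⟨g, Finset.mem_univ _, i, Finset.mem_univ _, rfl⟩)
  have inf := hS.intgInf k 𝕜 Ω Ω' σ x hσ hx.tr
  obtain ⟨T, hT, hev⟩ := ev_and (hR p k 𝕜 Ω Ω' σ x hσ hx G ρ h (fun g => ⟨δ g, hδ g, hδ' g⟩) S (by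
      intro y hy
      simp only [S, Finset.mem_insert, Finset.mem_biUnion, Finset.mem_image] at hy
      rcases hy with rfl | rfl | ⟨g, -, i, -, rfl⟩
      · exact ⟨hθ1, hθ2⟩
      · exact ⟨hϖ1, hϖ2⟩
      · exact (hs g i).2))
    (ev_and (ev_all fun g => ev_all fun i => ev_and (hS.intg k 𝕜 Ω Ω' σ x _ (ha g i))
      (hS.intg k 𝕜 Ω Ω' σ x _ (hs g i).1))
    (ev_and (ev_all fun g => ev_and (inf _ (hb g)) (inf _ (hc g)))
    (ev_and (inf _ hN) (ev_and (inf _ hu1) (inf _ hu2)))))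
  obtain ⟨O, ψ, hA, hO⟩ := hS.ex k 𝕜 Ω Ω' σ x hσ.tr T hT
  obtain ⟨⟨ρ', h', hs', hS'⟩, e1, e2, e3, e4, e5⟩ := hev O ψ hA hO
  have hO1 : ∀ y ∈ S, y ∈ O := fun y hy => (hS' y hy).2.1 1 (one_mem _)
  choose δ' hδ1 hδ2 using id hs'
  refine real_of p hF hx h' hs' I (fun γ hγ hne => ?_) (θ := ψ θ) (fun γ hγ hne => ?_) hδ1 ?_
    (u := ψ (ϖ ^ Nat.card I * σ)⁻¹) (hS' ϖ hϖS).1 (fun γ hγ e => ?_) ?_ e5.2 ?_
  · refine ⟨n (ρ' γ), fun i => ψ (a _ i), fun i => ψ (s _ i), fun i => (e1 _ i).1.2,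
      fun i => (e1 _ i).2.2, ?_⟩
    have m1 : ∀ i, δ (ρ' γ) (s (ρ' γ) i) ∈ O := fun i => (hS' _ (hsS _ i)).2.1 _ (hδ _)
    rw [← psi_one hA, ← hsum _ hne, psi_sum hA fun i =>
      mul_mem (e1 _ i).1.1 (sub_mem (e1 _ i).2.1 (m1 i))]
    refine Finset.sum_congr rfl fun i _ => ?_
    rw [hA.mul _ (e1 _ i).1.1 _ (sub_mem (e1 _ i).2.1 (m1 i)), psi_sub hA (e1 _ i).2.1 (m1 i),
      (hS' _ (hsS _ i)).2.2 γ hγ _ (hδ _) (hδ' _)]
  · have m1 : δ (ρ' γ) θ ∈ O := (hS' _ hθS).2.1 _ (hδ _)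
    refine ⟨ψ (b (ρ' γ)), ψ (c (ρ' γ)), (e2 _).1.2, (e2 _).2.2, ?_⟩
    rw [← psi_one hA, ← hbc _ hne, hA.add _ (mul_mem (e2 _).1.1 (hO1 _ hθS)) _
      (mul_mem (e2 _).2.1 m1), hA.mul _ (e2 _).1.1 _ (hO1 _ hθS), hA.mul _ (e2 _).2.1 _ m1,
      (hS' _ hθS).2.2 γ hγ _ (hδ _) (hδ' _)]
  · have m1 : ∀ g, δ g θ ∈ O := fun g => (hS' _ hθS).2.1 _ (hδ _)
    have := e3.2
    rw [hA.mul _ hA.mem _ (prod_mem fun g _ => m1 g), psi_prod hA m1, hA.map] at this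
    rwa [Finset.prod_congr rfl fun g _ =>
      (hS' _ hθS).2.2 _ (hδ1 g) _ (hδ g) ((hδ' g).trans (hδ2 g).symm)]
  · exact (hS' _ hϖS).2.2 γ hγ 1 (one_mem _) (h.one.trans e.symm)
  · have := e4.2
    rwa [hA.mul _ (pow_mem (hO1 _ hϖS) _) _ hA.mem, psi_pow hA (hO1 _ hϖS), hA.map] at this
  · have := hA.mul _ e4.1 _ e5.1
    rw [mul_inv_cancel₀ hu0, psi_one hA, hA.mul _ (pow_mem (hO1 _ hϖS) _) _ hA.mem,
      psi_pow hA (hO1 _ hϖS), hA.map] at this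
    exact this.symm

end Pool.Agent.Lib.IW
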