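import Pool.Agent.Lib.IW.Blue

/-! Small consequences of the foundations. -/

open Polynomial IntermediateField
open scoped Pointwise

namespace Pool.Agent.Lib.IW

variable {k Ω : Type} [Field k] [Field Ω] [Algebra k Ω]

lemma co_of_pow (hB : StmtBas) {x z : Ω} {n : ℕ} (hx : Co k x) (h : z ^ n = x) : Co k z :=
  hB.coOf k Ω x z hx fun hz => hx.tr (h ▸ hz.pow n)

lemma co_inv (hB : StmtBas) {x : Ω} (hx : Co k x) : Co k x⁻¹ :=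
  hB.coOf k Ω x x⁻¹ hx fun hz => hx.tr (IsAlgebraic.inv_iff.1 hz)

lemma Co.ne_zero {x : Ω} (hx : Co k x) : x ≠ 0 := fun h => hx.tr (h ▸ isAlgebraic_zero)

lemma conj_inf [IsAlgClosed Ω] (hC : StmtConj) (hB : StmtBas) {x : Ω} (hx : Co k x)
    {W W' : ValuationSubring Ω} (hW : IsPl k W) (hW' : IsPl k W') (h : x ∉ W) (h' : x ∉ W') :
    ∃ γ ∈ Gam k x, γ • W = W' := by
  rw [← fix_adjoin]
  exact hC k Ω k⟮x⟯ hx.alg W W' (hB.agrInf k Ω x hx.tr W W' hW hW' h h')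

lemma conj_at [IsAlgClosed Ω] (hC : StmtConj) (hB : StmtBas) {x : Ω} (hx : Co k x) {a : k}
    {W W' : ValuationSubring Ω} (hW : IsPl k W) (hW' : IsPl k W')
    (h : W.valuation (x - algebraMap k Ω a) < 1) (h' : W'.valuation (x - algebraMap k Ω a) < 1) :
    ∃ γ ∈ Gam k x, γ • W = W' := by
  rw [← fix_adjoin]
  exact hC k Ω k⟮x⟯ hx.alg W W' (hB.agrAt k Ω x hx.tr a W W' hW hW' h h')

variable {G : Type} [Group G]

lemma IsRep.triv_smul {x : Ω} {ρ : Aut k Ω → G} (h : IsRep (Gam k x) ρ)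
    {W : ValuationSubring Ω} (hW : ∀ γ ∈ Dec k x W, ρ γ = 1) {δ : Aut k Ω} (hδ : δ ∈ Gam k x) :
    ∀ γ ∈ Dec k x (δ • W), ρ γ = 1 := fun γ hγ => by
  have h1 := hW _ ((conj_mem_Dec hδ).2 hγ)
  have hγ' := Dec_le _ _ hγ
  rw [h.mul _ (mul_mem (inv_mem hδ) hγ') _ hδ, h.mul _ (inv_mem hδ) _ hγ', h.inv hδ] at h1
  calc ρ γ = ρ δ * ((ρ δ)⁻¹ * ρ γ * ρ δ) * (ρ δ)⁻¹ := by group
    _ = 1 := by rw [h1]; group

lemma IsRep.image_smul {x : Ω} {ρ : Aut k Ω → G} (h : IsRep (Gam k x) ρ)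
    (W : ValuationSubring Ω) {δ : Aut k Ω} (hδ : δ ∈ Gam k x) :
    ρ '' (Dec k x (δ • W) : Set (Aut k Ω)) =
      (fun g => ρ δ * g * (ρ δ)⁻¹) '' (ρ '' (Dec k x W : Set (Aut k Ω))) := by
  ext g
  constructor
  · rintro ⟨γ, hγ, rfl⟩
    have hγ' := Dec_le _ _ hγ
    refine ⟨_, ⟨_, (conj_mem_Dec hδ).2 hγ, rfl⟩, ?_⟩
    beta_reduce
    rw [h.mul _ (mul_mem (inv_mem hδ) hγ') _ hδ, h.mul _ (inv_mem hδ) _ hγ', h.inv hδ]
    group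
  · rintro ⟨_, ⟨γ, hγ, rfl⟩, rfl⟩
    have hγ' := Dec_le _ _ hγ
    refine ⟨δ * γ * δ⁻¹, (conj_mem_Dec hδ).1 (by simpa [mul_assoc] using hγ), ?_⟩
    rw [h.mul _ (mul_mem hδ hγ') _ (inv_mem hδ), h.mul _ hδ _ hγ', h.inv hδ]

lemma IsRep.conj {Δ : Subgroup (Aut k Ω)} {ρ : Aut k Ω → G} (h : IsRep Δ ρ) (g : G) :
    IsRep Δ fun γ => g * ρ γ * g⁻¹ :=
  h.comp (MulAut.conj g).toMonoidHom

lemma exists_prim (p : ℕ) [Fact p.Prime] [CharP k p] [IsAlgClosed Ω] {M : ℕ} (hM : ¬ p ∣ M) :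
    ∃ ω : Ω, IsPrimitiveRoot ω M := by
  have : CharP Ω p := charP_of_injective_algebraMap (algebraMap k Ω).injective p
  have : NeZero (M : Ω) := ⟨fun h => hM ((CharP.cast_eq_zero_iff Ω p M).1 h)⟩
  exact HasEnoughRootsOfUnity.exists_primitiveRoot Ω M

lemma kap_pow {x r : Ω} {M : ℕ} (hr : r ^ M = x) (hx : x ≠ 0) {γ : Aut k Ω} (hγ : γ ∈ Gam k x) :
    (γ r / r) ^ M = 1 := by
  rw [div_pow, ← map_pow, hr, mem_Gam.1 hγ, div_self hx]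

lemma root_fixed [IsAlgClosed k] {ζ : Ω} {M : ℕ} (hM : M ≠ 0) (h : ζ ^ M = 1) (γ : Aut k Ω) :
    γ ζ = ζ := by
  have h1 : IsIntegral k ζ := IsIntegral.of_pow (Nat.pos_of_ne_zero hM) (h ▸ isIntegral_one)
  obtain ⟨c, rfl⟩ := minpoly.mem_range_of_degree_eq_one k ζ
    (IsAlgClosed.degree_eq_one_of_irreducible k (minpoly.irreducible h1))
  exact γ.commutes c

lemma kap_mul [IsAlgClosed k] {x r : Ω} {M : ℕ} (hM : M ≠ 0) (hr : r ^ M = x) (hx : x ≠ 0)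
    (γ : Aut k Ω) {δ : Aut k Ω} (hδ : δ ∈ Gam k x) :
    (γ * δ) r / r = γ r / r * (δ r / r) := by
  have h0 : r ≠ 0 := by
    rintro rfl
    exact hx (by rw [← hr, zero_pow hM])
  have h1 := root_fixed hM (kap_pow hr hx hδ) γ
  rw [map_div₀] at h1
  have h2 : γ r ≠ 0 := by simpa using h0
  rw [AlgEquiv.mul_apply, ← h1]
  field_simp

end Pool.Agent.Lib.IW
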