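import Pool.Agent.Lib.IW.Util

/-! Twisted semilinear representations over a quasi-algebraically-closed fixed field. -/

namespace Pool.Agent.Lib.IW.WeakC

open Matrix

variable {L G : Type} [Field L] [Group G]

/-- An action of `G` on the field `L` with kernel `Z` of invertible order. -/
structure Act (φ : G → L →+* L) (Z : Subgroup G) : Prop where
  mul : ∀ g h a, φ (g * h) a = φ g (φ h a)
  ker : ∀ g, g ∈ Z ↔ ∀ a, φ g a = a
  card : (Nat.card Z : L) ≠ 0

variable {φ : G → L →+* L} {Z : Subgroup G}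

open Classical in
lemma dedekind [Fintype G] (A : Act φ Z) (c : G → L) (h : ∀ a, ∑ g, φ g a * c g = 0) :
    ∑ g with g ∈ Z, c g = 0 := by
  have li := linearIndependent_monoidHom L L
  have key := linearIndependent_iff'.1 li (Finset.univ.image fun g => (φ g : L →* L))
    (fun ψ => ∑ g with (φ g : L →* L) = ψ, c g) ?_ (φ 1 : L →* L)
    (Finset.mem_image_of_mem _ (Finset.mem_univ _))
  · rw [← key]
    refine Finset.sum_congr (Finset.filter_congr fun g _ => ?_) fun _ _ => rfl
    rw [A.ker]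
    have h1 := (A.ker 1).1 Z.one_mem
    constructor
    · intro e
      ext a
      simp [e a, h1 a]
    · intro e a
      have := DFunLike.congr_fun e a
      simpa [h1 a] using this
  · funext a
    rw [Finset.sum_apply, Pi.zero_apply, ← h a, ← Finset.sum_fiberwise_of_maps_to
      (s := Finset.univ) (t := Finset.univ.image fun g => (φ g : L →* L))
      (g := fun g => (φ g : L →* L)) fun g _ => Finset.mem_image_of_mem _ (Finset.mem_univ _)]
    refine Finset.sum_congr rfl fun ψ _ => ?_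
    rw [Pi.smul_apply, smul_eq_mul, Finset.sum_mul]
    refine Finset.sum_congr rfl fun g hg => ?_
    rw [← (Finset.mem_filter.1 hg).2, mul_comm]
    rfl

lemma speiser [Finite G] (A : Act φ Z) {V : Type} [AddCommGroup V] [Module L V] (τ : G → V →+ V)
    (hs : ∀ g a v, τ g (a • v) = φ g a • τ g v) (hm : ∀ g h v, τ (g * h) v = τ g (τ h v))
    (hz : ∀ u ∈ Z, ∀ v, τ u v = v) : Submodule.span L {v | ∀ g, τ g v = v} = ⊤ := by
  classical
  have := Fintype.ofFinite G
  by_contra hne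
  obtain ⟨f, hf, hle⟩ := Submodule.exists_le_ker_of_lt_top _ (lt_top_iff_ne_top.2 hne)
  apply hf
  ext v
  have h1 : ∀ a, ∑ g, φ g a * f (τ g v) = 0 := by
    intro a
    have h2 : ∑ g, τ g (a • v) ∈ Submodule.span L {v | ∀ g, τ g v = v} := by
      refine Submodule.subset_span fun h => ?_
      rw [map_sum]
      exact Fintype.sum_equiv (Equiv.mulLeft h) _ _ fun g => (hm h g _).symm
    have h3 := LinearMap.mem_ker.1 (hle h2)
    rw [map_sum] at h3
    simpa [hs] using h3
  have h2 := dedekind A _ h1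
  rw [Finset.sum_congr rfl (g := fun _ => f v) fun g hg => by
    rw [hz g (Finset.mem_filter.1 hg).2], Finset.sum_const, nsmul_eq_mul] at h2
  have h3 : (Finset.univ.filter fun g => g ∈ Z).card = Nat.card Z := by
    rw [Nat.card_eq_fintype_card, Fintype.card_subtype]
  rw [h3] at h2
  exact (mul_eq_zero.1 h2).resolve_left A.card

/-- A twisted matrix cocycle. -/
def MRep (φ : G → L →+* L) (Z : Subgroup G) (χ : G → L) (m : ℕ) : Prop :=
  ∃ B : G → Matrix (Fin m) (Fin m) L,
    (∀ g h, B (g * h) = B g * (B h).map (φ g)) ∧ ∀ u ∈ Z, B u = χ u • (1 : Matrix _ _ L)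

lemma toMat {χ : G → L} {V : Type} [AddCommGroup V] [Module L V] [FiniteDimensional L V]
    (τ : G → V →+ V) (W : Submodule L V) (hW : ∀ g, ∀ v ∈ W, τ g v ∈ W)
    (hs : ∀ g a v, τ g (a • v) = φ g a • τ g v) (hm : ∀ g h v, τ (g * h) v = τ g (τ h v))
    (hz : ∀ u ∈ Z, ∀ v ∈ W, τ u v = χ u • v) : MRep φ Z χ (Module.finrank L W) := by
  let e := Module.finBasis L W
  let t : G → W → W := fun g v => ⟨τ g v, hW g v v.2⟩
  refine ⟨fun g => Matrix.of fun i j => e.repr (t g (e j)) i, fun g h => ?_, fun u hu => ?_⟩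
  · ext i j
    have h1 : t (g * h) (e j) = ∑ k, φ g (e.repr (t h (e j)) k) • t g (e k) := by
      apply Subtype.ext
      have h2 := congrArg (fun w : W => τ g w) (e.sum_repr (t h (e j)))
      refine (hm g h _).trans (h2.symm.trans ?_)
      simp only [Submodule.coe_sum, Submodule.coe_smul, map_sum, hs]
      rfl
    simp [Matrix.mul_apply, h1, mul_comm]
  · ext i j
    have h1 : t u (e j) = χ u • e j := Subtype.ext (hz u hu _ (e j).2)
    simp [h1, Matrix.one_apply, Finsupp.single_apply, eq_comm]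

/-- The consequence of Tsen's theorem that is used. -/
def C1 (φ : G → L →+* L) : Prop :=
  ∀ (ι : Type) [Fintype ι] (m : ℕ) (P : MvPolynomial ι L), P.IsHomogeneous m → 0 < m →
    m < Fintype.card ι → (∀ g, MvPolynomial.map (φ g) P = P) →
      ∃ t : ι → L, t ≠ 0 ∧ (∀ g i, φ g (t i) = t i) ∧ MvPolynomial.eval t P = 0

lemma exists_sing [Finite G] (A : Act φ Z) (hT : C1 φ) {χ : G → L} (h1 : χ 1 = 1) {m : ℕ}
    (hm : 2 ≤ m) {B : G → Matrix (Fin m) (Fin m) L} (hB : ∀ g h, B (g * h) = B g * (B h).map (φ g))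
    (hZ : ∀ u ∈ Z, B u = χ u • (1 : Matrix _ _ L)) :
    ∃ M : Matrix (Fin m) (Fin m) L, M ≠ 0 ∧ M.det = 0 ∧ ∀ g, B g * M.map (φ g) = M * B g := by
  classical
  have b1 : B 1 = 1 := by rw [hZ 1 Z.one_mem, h1, one_smul]
  have inv1 : ∀ g, B g * (B g⁻¹).map (φ g) = 1 := fun g => by rw [← hB, mul_inv_cancel, b1]
  have inv2 : ∀ g, (B g⁻¹).map (φ g) * B g = 1 := fun g => mul_eq_one_comm.1 (inv1 g)
  have mm : ∀ g h (N : Matrix (Fin m) (Fin m) L), N.map (φ (g * h)) = (N.map (φ h)).map (φ g) :=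
    fun g h N => by ext i j; simp [A.mul]
  let τ : G → Matrix (Fin m) (Fin m) L →+ Matrix (Fin m) (Fin m) L := fun g =>
    AddMonoidHom.mk' (fun N => B g * N.map (φ g) * (B g⁻¹).map (φ g)) fun N N' => by
      rw [Matrix.map_add _ (map_add _), mul_add, add_mul]
  have sp := speiser A τ (fun g a N => ?_) (fun g h N => ?_) (fun u hu N => ?_)
  rotate_left
  · have : (a • N).map (φ g) = φ g a • N.map (φ g) := by ext i j; simp
    simp [τ, this]
  · have e1 : (B (g * h)⁻¹).map (φ (g * h)) = ((B h⁻¹).map (φ h)).map (φ g) * (B g⁻¹).map (φ g) := by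
      rw [_root_.mul_inv_rev, hB, Matrix.map_mul, mm, ← mm, ← mm, mul_inv_cancel_right]
    simp only [τ, AddMonoidHom.mk'_apply]
    rw [e1, hB, Matrix.map_mul, Matrix.map_mul, mm]
    simp only [Matrix.mul_assoc]
  · have e1 : N.map (φ u) = N := by ext i j; simp [(A.ker u).1 hu]
    have e2 : B u * N = N * B u := by rw [hZ u hu]; simp
    simp only [τ, AddMonoidHom.mk'_apply]
    rw [e1, e2, Matrix.mul_assoc, inv1, Matrix.mul_one]
  obtain ⟨b, hb, hsp, li⟩ := exists_linearIndependent L {N | ∀ g, τ g N = N}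
  rw [sp] at hsp
  have := li.finite
  have := Fintype.ofFinite b
  have eq : ∀ i : b, ∀ g, B g * i.1.map (φ g) = i.1 * B g := fun i g => by
    have : B g * i.1.map (φ g) * (B g⁻¹).map (φ g) = i.1 := hb i.2 g
    conv_rhs => rw [← this, Matrix.mul_assoc, inv2, Matrix.mul_one]
  have hc : Fintype.card b = m * m := by
    have := finrank_span_set_eq_card (R := L) (s := b) li
    rw [hsp, finrank_top, Module.finrank_matrix] at this
    rw [← Set.toFinset_card, ← this]
    simp
  let N : Matrix (Fin m) (Fin m) (MvPolynomial b L) :=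
    Matrix.of fun r s => ∑ i : b, MvPolynomial.C (i.1 r s) * MvPolynomial.X i
  have ts := hT b m N.det ?_ (by omega) (by rw [hc]; nlinarith) fun g => ?_
  · obtain ⟨t, t0, tf, te⟩ := ts
    refine ⟨∑ i : b, t i • i.1, fun h0 => t0 ?_, ?_, fun g => ?_⟩
    · funext i
      exact Fintype.linearIndependent_iff.1 li t h0 i
    · rw [← te, RingHom.map_det]
      congr 1
      ext r s
      simp [N, Matrix.sum_apply, mul_comm]
    · have : (∑ i : b, t i • i.1).map (φ g) = ∑ i : b, t i • i.1.map (φ g) := by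
        ext r s
        simp [Matrix.sum_apply, tf]
      rw [this, Finset.mul_sum, Finset.sum_mul]
      exact Finset.sum_congr rfl fun i _ => by rw [Matrix.mul_smul, Matrix.smul_mul, eq]
  · rw [Matrix.det_apply']
    refine MvPolynomial.IsHomogeneous.sum _ _ _ fun σ _ => ?_
    rw [← map_intCast (MvPolynomial.C : L →+* MvPolynomial b L)]
    refine MvPolynomial.IsHomogeneous.C_mul ?_ _
    have := MvPolynomial.IsHomogeneous.prod Finset.univ (fun i => N (σ i) i) (fun _ => 1)
      fun i _ => MvPolynomial.IsHomogeneous.sum _ _ _ fun j _ =>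
        MvPolynomial.isHomogeneous_C_mul_X _ _
    simpa using this
  · have e1 : (B g).map (MvPolynomial.C : L →+* MvPolynomial b L) *
        N.map (MvPolynomial.map (φ g)) = N * (B g).map MvPolynomial.C := by
      ext1 r s
      have : ∀ i : b, ∑ j, B g r j * φ g (i.1 j s) = ∑ j, i.1 r j * B g j s := fun i => by
        simpa [Matrix.mul_apply] using congrFun (congrFun (eq i g) r) s
      simp only [Matrix.mul_apply, Matrix.map_apply, N, Matrix.of_apply, map_sum, map_mul,
        MvPolynomial.map_C, MvPolynomial.map_X, Finset.mul_sum, Finset.sum_mul]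
      rw [Finset.sum_comm, Finset.sum_comm (s := Finset.univ) (t := (Finset.univ : Finset b))]
      refine Finset.sum_congr rfl fun i _ => ?_
      have e2 := congrArg (fun a => (MvPolynomial.C a : MvPolynomial b L) * MvPolynomial.X i) (this i)
      simp only [map_sum, map_mul, Finset.sum_mul] at e2
      simp only [← mul_assoc, e2]
      exact Finset.sum_congr rfl fun j _ => by ring
    have e2 := congrArg Matrix.det e1
    have e3 : ((B g).map (MvPolynomial.C : L →+* MvPolynomial b L)).det ≠ 0 := by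
      have := (MvPolynomial.C : L →+* MvPolynomial b L).map_det (B g)
      rw [RingHom.mapMatrix_apply] at this
      rw [← this, Ne, MvPolynomial.C_eq_zero]
      exact Matrix.det_ne_zero_of_right_inverse (inv1 g)
    rw [Matrix.det_mul, Matrix.det_mul, mul_comm N.det] at e2
    rw [RingHom.map_det, RingHom.mapMatrix_apply]
    exact mul_left_cancel₀ e3 e2

lemma step [Finite G] (A : Act φ Z) (hT : C1 φ) {χ : G → L} (h1 : χ 1 = 1) {m : ℕ}
    (hm : 2 ≤ m) (h : MRep φ Z χ m) : ∃ m', 0 < m' ∧ m' < m ∧ MRep φ Z χ m' := by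
  obtain ⟨B, hB, hZ⟩ := h
  obtain ⟨M, M0, Md, hM⟩ := exists_sing A hT h1 hm hB hZ
  let τ : G → (Fin m → L) →+ (Fin m → L) := fun g =>
    AddMonoidHom.mk' (fun v => B g *ᵥ (φ g ∘ v)) fun v w => by
      rw [← Matrix.mulVec_add]
      congr 1
      ext i
      simp
  have mv : ∀ g (N : Matrix (Fin m) (Fin m) L) (v : Fin m → L),
      φ g ∘ (N *ᵥ v) = N.map (φ g) *ᵥ (φ g ∘ v) := fun g N v => funext fun i =>
    RingHom.map_mulVec _ _ _ _
  refine ⟨_, ?_, ?_, toMat τ (LinearMap.ker M.mulVecLin) (fun g v hv => ?_) (fun g a v => ?_)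
    (fun g h v => ?_) (fun u hu v _ => ?_)⟩
  · obtain ⟨v, v0, hv⟩ := Matrix.exists_mulVec_eq_zero_iff.2 Md
    exact Submodule.one_le_finrank_iff.2 ((Submodule.ne_bot_iff _).2 ⟨v, hv, v0⟩)
  · have : LinearMap.ker M.mulVecLin ≠ ⊤ := fun h => M0 (by
      rw [LinearMap.ker_eq_top] at h
      exact Matrix.toLin'.map_eq_zero_iff.1 h)
    simpa using Submodule.finrank_lt this
  · have hv' : M *ᵥ v = 0 := hv
    change M *ᵥ (B g *ᵥ (φ g ∘ v)) = 0
    rw [Matrix.mulVec_mulVec, ← hM, ← Matrix.mulVec_mulVec, ← mv, hv']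
    have : φ g ∘ (0 : Fin m → L) = 0 := by ext i; simp
    rw [this, Matrix.mulVec_zero]
  · change B g *ᵥ (φ g ∘ (a • v)) = φ g a • B g *ᵥ (φ g ∘ v)
    rw [← Matrix.mulVec_smul]
    congr 1
    ext i
    simp
  · change B (g * h) *ᵥ (φ (g * h) ∘ v) = B g *ᵥ (φ g ∘ (B h *ᵥ (φ h ∘ v)))
    rw [mv, Matrix.mulVec_mulVec, hB]
    congr 1
    ext i
    simp [A.mul]
  · change B u *ᵥ (φ u ∘ v) = _
    have : φ u ∘ v = v := by ext i; simp [(A.ker u).1 hu]
    rw [this, hZ u hu, Matrix.smul_mulVec, Matrix.one_mulVec]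

lemma start [Finite G] (A : Act φ Z) (hc : Z ≤ Subgroup.center G) {χ : G → L} (h1 : χ 1 = 1)
    (hχ : ∀ u ∈ Z, ∀ u' ∈ Z, χ (u * u') = χ u * χ u') (hf : ∀ g, ∀ u ∈ Z, φ g (χ u) = χ u) :
    ∃ m, 0 < m ∧ MRep φ Z χ m := by
  classical
  let τ : G → (G → L) →+ (G → L) := fun g =>
    AddMonoidHom.mk' (fun f h => φ g (f (g⁻¹ * h))) fun v w => by
      ext i
      simp
  let W : Submodule L (G → L) :=
    { carrier := {f | ∀ u ∈ Z, ∀ h, f (u⁻¹ * h) = χ u * f h}
      add_mem' := fun ha hb u hu h => by simp [ha u hu h, hb u hu h, mul_add]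
      zero_mem' := fun u _ h => by simp
      smul_mem' := fun c a ha u hu h => by simp [ha u hu h, mul_left_comm] }
  refine ⟨_, ?_, toMat τ W (fun g v hv u hu h => ?_) (fun g a v => ?_)
    (fun g h v => ?_) (fun u hu v hv => ?_)⟩
  · refine Submodule.one_le_finrank_iff.2 ((Submodule.ne_bot_iff _).2
      ⟨fun g => if g ∈ Z then χ g⁻¹ else 0, fun u hu h => ?_, fun h => ?_⟩)
    · beta_reduce
      by_cases hh : h ∈ Z
      · rw [if_pos hh, if_pos (mul_mem (inv_mem hu) hh), _root_.mul_inv_rev, inv_inv,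
          hχ _ (inv_mem hh) _ hu, mul_comm]
      · rw [if_neg hh, if_neg fun h' => hh ((Z.mul_mem_cancel_left (inv_mem hu)).1 h'), mul_zero]
    · simpa [h1, Z.one_mem] using congrFun h 1
  · change φ g (v (g⁻¹ * (u⁻¹ * h))) = χ u * φ g (v (g⁻¹ * h))
    rw [← mul_assoc, Subgroup.mem_center_iff.1 (hc (inv_mem hu)) g⁻¹, mul_assoc, hv u hu, map_mul,
      hf g u hu]
  · ext i
    simp [τ]
  · ext i
    simp [τ, A.mul, mul_assoc]
  · ext i
    change φ u (v (u⁻¹ * i)) = χ u * v i
    rw [(A.ker u).1 hu, hv u hu]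

/-- The twisted cocycle splits; its `l`-th power is a coboundary. -/
theorem split [Finite G] (A : Act φ Z) (hT : C1 φ) (hc : Z ≤ Subgroup.center G) {χ : G → L}
    (h1 : χ 1 = 1) (hχ : ∀ u ∈ Z, ∀ u' ∈ Z, χ (u * u') = χ u * χ u')
    (hf : ∀ g, ∀ u ∈ Z, φ g (χ u) = χ u) {l : ℕ} (hl : ∀ u ∈ Z, χ u ^ l = 1) :
    ∃ (b : G → L) (β : L), (∀ g h, b (g * h) = b g * φ g (b h)) ∧ (∀ u ∈ Z, b u = χ u) ∧ β ≠ 0 ∧
      ∀ g, b g ^ l * φ g β = β := by
  have key : ∀ m, 0 < m → MRep φ Z χ m → MRep φ Z χ 1 := by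
    intro m
    induction m using Nat.strong_induction_on with
    | _ m ih =>
      intro h0 h
      rcases Nat.lt_or_ge m 2 with h2 | h2
      · obtain rfl : m = 1 := by omega
        exact h
      · obtain ⟨m', a, b, c⟩ := step A hT h1 h2 h
        exact ih m' b a c
  obtain ⟨m, h0, h⟩ := start A hc h1 hχ hf
  obtain ⟨B, hB, hZ⟩ := key m h0 h
  have b1 : ∀ g h, B (g * h) 0 0 = B g 0 0 * φ g (B h 0 0) := fun g h => by
    simp [hB, Matrix.mul_apply]
  have b2 : ∀ u ∈ Z, B u 0 0 = χ u := fun u hu => by simp [hZ u hu]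
  let τ : G → L →+ L := fun g =>
    AddMonoidHom.mk' (fun a => B g 0 0 ^ l * φ g a) fun v w => by rw [map_add, mul_add]
  have sp := speiser A τ (fun g a v => by simp [τ, mul_left_comm])
    (fun g h v => by simp [τ, b1, A.mul, mul_pow, mul_assoc])
    (fun u hu v => by simp [τ, b2 u hu, hl u hu, (A.ker u).1 hu])
  have : ∃ β : L, β ≠ 0 ∧ ∀ g, τ g β = β := by
    by_contra hn
    have : Submodule.span L {v | ∀ g, τ g v = v} = ⊥ :=
      Submodule.span_eq_bot.2 fun v hv => by_contra fun h => hn ⟨v, h, hv⟩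
    rw [sp] at this
    exact top_ne_bot this
  obtain ⟨β, h0, hβ⟩ := this
  exact ⟨fun g => B g 0 0, β, b1, b2, h0, hβ⟩

end Pool.Agent.Lib.IW.WeakC
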